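import Pool.Agent.Lib.MP_6f5d36_co.Tab7

/-!
# MP_6f5d36_co, case (ii) : the stars of a seventh point without bad edges

`CR.Tab.E2 k` : the list of the star vectors (six octal digits, the digit `i` is the label of the edge
to the point `i`) of the seventh points without bad edges of the pattern `reps k`, which are left
by level 7 (530 ranks have a nonempty list, 1094 vectors).
-/

set_option autoImplicit false
set_option maxRecDepth 100000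

noncomputable section

namespace CR.Tab

/-- the tree of the lists -/
def E2T : Tr (List Nat) :=
(.nd (.nd (.nd (.nd (.nd (.nd (.nd (.nd (.nd (.nd (.nd (.nd (.nd (.lf [83793, 116043, 142026,
146073]) (.lf [])) (.nd (.lf [32781]) (.lf []))) (.lf [])) (.nd (.nd (.nd (.lf []) (.lf [51971,
145436])) (.lf [])) (.lf []))) (.nd (.nd (.nd (.lf []) (.nd (.lf [67620, 82115]) (.lf []))) (.lf
[])) (.nd (.nd (.nd (.lf [55633]) (.lf [])) (.lf [])) (.lf [])))) (.nd (.nd (.nd (.nd (.nd (.lf [])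
(.lf [6340])) (.nd (.lf [5642]) (.lf []))) (.lf [])) (.nd (.nd (.nd (.lf []) (.lf [1122])) (.nd (.lf
[143707]) (.lf []))) (.lf []))) (.nd (.nd (.lf []) (.nd (.nd (.lf [141571]) (.lf [])) (.lf [])))
(.nd (.lf []) (.nd (.lf []) (.nd (.lf [184532]) (.lf []))))))) (.nd (.nd (.nd (.lf []) (.nd (.nd
(.nd (.lf []) (.lf [165157])) (.nd (.lf [184605]) (.lf []))) (.lf []))) (.nd (.nd (.nd (.nd (.lf [])
(.lf [166565])) (.lf [])) (.lf [])) (.lf []))) (.nd (.lf []) (.nd (.lf []) (.nd (.nd (.nd (.lf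
[146076]) (.lf [])) (.lf [])) (.nd (.nd (.lf [1283]) (.lf [])) (.lf []))))))) (.nd (.nd (.nd (.nd
(.lf []) (.nd (.nd (.nd (.lf []) (.lf [170155])) (.lf [])) (.lf []))) (.lf [])) (.nd (.nd (.lf [])
(.nd (.nd (.nd (.lf []) (.lf [33553, 54033, 72042, 82698, 136353, 139841, 139881, 185484])) (.lf
[])) (.lf []))) (.lf []))) (.nd (.nd (.nd (.nd (.lf []) (.nd (.nd (.lf [186397]) (.lf [])) (.lf
[]))) (.lf [])) (.nd (.nd (.nd (.nd (.lf []) (.lf [12331, 98333])) (.lf [])) (.lf [])) (.lf [])))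
(.nd (.lf []) (.nd (.nd (.nd (.nd (.lf []) (.lf [38441, 174219])) (.lf [])) (.lf [])) (.lf []))))))
(.nd (.nd (.nd (.nd (.nd (.nd (.nd (.nd (.lf []) (.lf [185179])) (.lf [])) (.nd (.lf []) (.nd (.lf
[86700]) (.lf [])))) (.nd (.nd (.nd (.lf []) (.lf [54425])) (.lf [])) (.lf []))) (.nd (.nd (.nd (.nd
(.lf [135708]) (.lf [])) (.nd (.lf [7018]) (.lf []))) (.lf [])) (.lf []))) (.nd (.nd (.lf []) (.nd
(.nd (.nd (.lf []) (.lf [10324, 14988, 182370])) (.lf [])) (.lf []))) (.lf []))) (.nd (.nd (.nd (.lf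
[]) (.nd (.nd (.nd (.lf []) (.lf [75594, 107787, 144665, 150241])) (.lf [])) (.lf []))) (.nd (.nd
(.nd (.nd (.lf []) (.lf [79001, 141090])) (.lf [])) (.lf [])) (.nd (.nd (.nd (.lf [51565]) (.lf []))
(.lf [])) (.lf [])))) (.nd (.nd (.nd (.lf []) (.nd (.nd (.lf [41643]) (.lf [])) (.lf []))) (.lf []))
(.nd (.nd (.nd (.nd (.lf []) (.lf [65833, 100708, 186402])) (.lf [])) (.lf [])) (.nd (.lf []) (.nd
(.lf []) (.nd (.lf [15003]) (.lf [])))))))) (.nd (.nd (.nd (.nd (.nd (.lf []) (.nd (.nd (.lf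
[104601]) (.lf [])) (.lf []))) (.lf [])) (.nd (.lf []) (.nd (.nd (.lf []) (.nd (.lf [18697]) (.lf
[]))) (.lf [])))) (.nd (.nd (.lf []) (.nd (.nd (.nd (.lf []) (.lf [49923, 49947, 49955, 49963,
78170, 102633, 112733, 112853, 140323, 140515, 140579, 140643, 149587])) (.lf [])) (.nd (.nd (.lf
[20501, 136389, 166418]) (.lf [])) (.lf [])))) (.nd (.nd (.nd (.nd (.lf []) (.lf [103193])) (.lf
[])) (.lf [])) (.lf [])))) (.nd (.lf []) (.nd (.nd (.nd (.nd (.nd (.lf [522]) (.lf [])) (.lf []))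
(.lf [])) (.nd (.lf []) (.nd (.nd (.lf [169803]) (.lf [])) (.lf [])))) (.nd (.nd (.nd (.nd (.lf [])
(.lf [4747, 135819, 141026])) (.lf [])) (.lf [])) (.lf []))))))) (.nd (.nd (.nd (.nd (.nd (.nd (.nd
(.nd (.nd (.lf []) (.lf [70313])) (.lf [])) (.lf [])) (.lf [])) (.nd (.lf []) (.nd (.nd (.lf [])
(.nd (.lf [365]) (.lf []))) (.nd (.nd (.lf [166565]) (.lf [])) (.lf []))))) (.nd (.nd (.nd (.nd (.lf
[]) (.nd (.lf [176658]) (.lf []))) (.lf [])) (.nd (.nd (.nd (.lf []) (.lf [785, 5281, 21265, 65890,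
168276, 180564, 184660])) (.lf [])) (.lf []))) (.nd (.nd (.nd (.nd (.lf []) (.lf [41293])) (.lf []))
(.lf [])) (.nd (.nd (.lf []) (.nd (.lf [777]) (.lf []))) (.nd (.nd (.lf [182340]) (.lf [])) (.lf
[])))))) (.nd (.nd (.nd (.nd (.nd (.nd (.lf []) (.lf [49930, 111715])) (.lf [])) (.lf [])) (.lf []))
(.nd (.nd (.nd (.nd (.lf []) (.lf [79001, 135889, 141090])) (.lf [])) (.lf [])) (.lf []))) (.nd (.nd
(.lf []) (.nd (.lf []) (.nd (.nd (.lf [86362]) (.lf [])) (.lf [])))) (.nd (.nd (.nd (.nd (.lf [])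
(.lf [18179])) (.lf [])) (.lf [])) (.lf []))))) (.nd (.nd (.nd (.nd (.nd (.lf []) (.nd (.lf []) (.nd
(.lf [17060]) (.lf [])))) (.lf [])) (.lf [])) (.nd (.nd (.lf []) (.nd (.nd (.nd (.lf []) (.lf
[88276, 101027, 133346, 177954])) (.lf [])) (.lf []))) (.nd (.nd (.nd (.lf []) (.nd (.lf [10501,
139301]) (.lf []))) (.lf [])) (.lf [])))) (.nd (.nd (.nd (.lf []) (.nd (.nd (.nd (.lf []) (.lf
[1577, 2089, 37904, 84012, 84204, 118912, 141386, 151680, 152352, 152355])) (.lf [])) (.lf [])))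
(.nd (.nd (.nd (.nd (.lf []) (.lf [54789, 180457])) (.lf [])) (.lf [])) (.lf []))) (.nd (.nd (.nd
(.nd (.nd (.lf [20809]) (.lf [])) (.lf [])) (.nd (.nd (.lf [2819]) (.lf [])) (.lf []))) (.lf []))
(.lf []))))) (.nd (.nd (.nd (.nd (.nd (.lf []) (.nd (.nd (.nd (.lf []) (.lf [137753])) (.lf []))
(.lf []))) (.lf [])) (.nd (.nd (.lf []) (.nd (.nd (.nd (.lf []) (.lf [45867, 49483, 51019, 51531,
54019, 54043, 54051, 80157, 82266, 88347, 88348, 100445, 105025, 105217, 141395, 148707, 148835,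
150236])) (.lf [])) (.lf []))) (.nd (.nd (.lf []) (.nd (.lf []) (.nd (.lf [6889]) (.lf [])))) (.nd
(.nd (.lf []) (.nd (.lf [13890]) (.lf []))) (.nd (.lf []) (.nd (.lf [149277]) (.lf []))))))) (.nd
(.nd (.lf []) (.nd (.lf []) (.nd (.lf []) (.nd (.lf []) (.nd (.lf [150217]) (.lf [])))))) (.nd (.nd
(.lf []) (.nd (.lf []) (.nd (.nd (.lf [47626]) (.lf [])) (.nd (.lf [132898]) (.lf []))))) (.nd (.nd
(.nd (.lf []) (.nd (.lf [168595]) (.lf []))) (.lf [])) (.nd (.nd (.nd (.lf [49809]) (.lf [])) (.lf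
[])) (.lf [])))))) (.nd (.nd (.nd (.lf []) (.nd (.nd (.nd (.nd (.lf []) (.lf [70313])) (.lf []))
(.lf [])) (.lf []))) (.nd (.nd (.nd (.nd (.nd (.lf [174163]) (.lf [])) (.lf [])) (.lf [])) (.nd (.nd
(.lf []) (.nd (.lf [178772]) (.lf []))) (.lf []))) (.nd (.nd (.nd (.lf []) (.nd (.lf [180900]) (.lf
[]))) (.lf [])) (.nd (.nd (.lf []) (.nd (.lf [182122]) (.lf []))) (.lf []))))) (.nd (.nd (.nd (.nd
(.nd (.nd (.lf []) (.lf [617])) (.lf [])) (.lf [])) (.nd (.nd (.nd (.lf []) (.lf [79650])) (.lf []))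
(.lf []))) (.lf [])) (.lf [])))))) (.nd (.nd (.nd (.nd (.nd (.nd (.nd (.nd (.lf []) (.nd (.lf [])
(.nd (.lf [152236]) (.lf [])))) (.lf [])) (.lf [])) (.nd (.nd (.nd (.nd (.lf []) (.nd (.lf [103172,
115020]) (.lf []))) (.lf [])) (.nd (.nd (.nd (.lf []) (.lf [5961, 33889, 49730, 168459])) (.lf []))
(.lf []))) (.lf []))) (.nd (.nd (.nd (.lf []) (.nd (.nd (.nd (.lf []) (.lf [88773, 173928])) (.lf
[])) (.lf []))) (.lf [])) (.nd (.nd (.lf []) (.nd (.lf []) (.nd (.nd (.lf [133154]) (.lf [])) (.lf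
[])))) (.nd (.nd (.nd (.nd (.lf []) (.lf [18179, 74976])) (.lf [])) (.lf [])) (.lf []))))) (.nd (.nd
(.nd (.lf []) (.nd (.lf []) (.nd (.nd (.nd (.lf [76451, 146076]) (.lf [])) (.lf [])) (.lf []))))
(.nd (.nd (.lf []) (.nd (.nd (.nd (.lf []) (.lf [18507, 66315, 133797])) (.lf [])) (.lf []))) (.nd
(.nd (.nd (.nd (.lf []) (.lf [136930])) (.lf [])) (.lf [])) (.nd (.nd (.nd (.lf [49866]) (.lf []))
(.lf [])) (.lf []))))) (.nd (.nd (.nd (.lf []) (.nd (.nd (.nd (.lf []) (.lf [49498, 137445, 148170,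
177730])) (.lf [])) (.nd (.lf []) (.nd (.lf [38466, 140817, 148170]) (.lf []))))) (.nd (.nd (.nd
(.nd (.lf []) (.lf [22733, 142091])) (.lf [])) (.nd (.lf []) (.nd (.lf [110818]) (.lf [])))) (.nd
(.nd (.lf []) (.nd (.lf [170009]) (.lf []))) (.lf [])))) (.lf [])))) (.nd (.nd (.nd (.lf []) (.nd
(.nd (.lf []) (.nd (.nd (.nd (.lf []) (.lf [13401, 18257, 169035])) (.lf [])) (.lf []))) (.lf [])))
(.nd (.lf []) (.nd (.lf []) (.nd (.nd (.nd (.nd (.lf []) (.lf [1125, 1132, 8489, 8545, 70245, 70252,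
84061, 88668, 132612, 149869, 165381, 187172])) (.lf [])) (.lf [])) (.lf []))))) (.nd (.nd (.nd (.nd
(.nd (.lf []) (.nd (.lf []) (.nd (.lf [99673]) (.lf [])))) (.nd (.nd (.nd (.lf []) (.lf [79466,
153372])) (.lf [])) (.lf []))) (.nd (.lf []) (.nd (.nd (.lf []) (.nd (.lf [46796]) (.lf []))) (.lf
[])))) (.nd (.nd (.lf []) (.nd (.nd (.nd (.lf []) (.lf [4769, 6817, 99627, 99691])) (.lf [])) (.nd
(.nd (.lf [46877]) (.lf [])) (.lf [])))) (.nd (.nd (.nd (.nd (.lf []) (.lf [18530])) (.lf [])) (.lf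
[])) (.nd (.nd (.nd (.lf [4372]) (.lf [])) (.lf [])) (.lf []))))) (.nd (.nd (.nd (.nd (.lf []) (.nd
(.lf []) (.nd (.lf [119363]) (.lf [])))) (.lf [])) (.lf [])) (.nd (.nd (.nd (.lf []) (.nd (.lf [])
(.nd (.lf [20584]) (.lf [])))) (.lf [])) (.lf [])))))) (.nd (.nd (.nd (.nd (.nd (.nd (.lf []) (.nd
(.lf []) (.nd (.nd (.lf [6372]) (.lf [])) (.lf [])))) (.nd (.nd (.nd (.lf []) (.nd (.lf [12995])
(.lf []))) (.lf [])) (.lf []))) (.nd (.nd (.lf []) (.nd (.nd (.nd (.lf []) (.lf [168169])) (.lf []))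
(.lf []))) (.nd (.lf []) (.nd (.lf []) (.nd (.nd (.lf [169497]) (.lf [])) (.lf [])))))) (.nd (.nd
(.nd (.lf []) (.nd (.nd (.nd (.lf []) (.lf [55938])) (.lf [])) (.lf []))) (.lf [])) (.nd (.nd (.nd
(.lf []) (.nd (.nd (.lf [54099]) (.lf [])) (.nd (.lf [49866, 144962]) (.lf [])))) (.lf [])) (.lf
[])))) (.nd (.nd (.nd (.lf []) (.nd (.lf []) (.nd (.nd (.lf []) (.nd (.lf [51722]) (.lf []))) (.lf
[])))) (.nd (.lf []) (.nd (.nd (.nd (.nd (.lf []) (.lf [183053])) (.lf [])) (.lf [])) (.lf []))))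
(.nd (.nd (.nd (.lf []) (.nd (.nd (.nd (.lf []) (.lf [185034])) (.lf [])) (.lf []))) (.lf [])) (.nd
(.nd (.nd (.nd (.nd (.lf []) (.lf [49866, 69865])) (.lf [])) (.lf [])) (.lf [])) (.nd (.nd (.nd (.nd
(.lf []) (.lf [53444, 185932])) (.lf [])) (.lf [])) (.nd (.nd (.nd (.lf [41619, 103769, 185675])
(.lf [])) (.lf [])) (.lf []))))))) (.nd (.nd (.nd (.nd (.nd (.lf []) (.nd (.nd (.nd (.lf []) (.lf
[49930])) (.nd (.lf [174762]) (.lf []))) (.lf []))) (.lf [])) (.nd (.nd (.lf []) (.nd (.nd (.nd (.lf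
[]) (.lf [146140])) (.nd (.lf [79514]) (.lf []))) (.lf []))) (.nd (.nd (.nd (.nd (.lf []) (.lf
[181002])) (.lf [])) (.lf [])) (.nd (.lf []) (.nd (.lf []) (.nd (.lf [50772]) (.lf []))))))) (.nd
(.lf []) (.nd (.nd (.nd (.nd (.nd (.lf [184995]) (.lf [])) (.lf [])) (.nd (.lf []) (.nd (.lf
[113437]) (.lf [])))) (.lf [])) (.lf [])))) (.nd (.nd (.nd (.nd (.nd (.nd (.lf []) (.nd (.lf
[178260]) (.lf []))) (.lf [])) (.lf [])) (.lf [])) (.lf [])) (.nd (.nd (.lf []) (.nd (.nd (.nd (.nd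
(.lf []) (.lf [4437])) (.lf [])) (.lf [])) (.lf []))) (.nd (.lf []) (.nd (.nd (.nd (.nd (.lf [])
(.lf [177730])) (.lf [])) (.lf [])) (.nd (.lf []) (.nd (.lf []) (.nd (.lf [11098, 174419]) (.lf
[])))))))))))) (.nd (.nd (.nd (.nd (.nd (.nd (.nd (.nd (.nd (.lf []) (.nd (.lf []) (.nd (.lf
[18196]) (.lf [])))) (.lf [])) (.nd (.nd (.nd (.lf []) (.nd (.lf [2141, 43748, 147545]) (.lf [])))
(.lf [])) (.lf []))) (.nd (.nd (.nd (.nd (.lf []) (.nd (.lf [72226]) (.lf []))) (.lf [])) (.nd (.nd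
(.nd (.lf []) (.lf [185379])) (.lf [])) (.lf []))) (.lf []))) (.nd (.nd (.nd (.lf []) (.nd (.nd (.nd
(.lf []) (.lf [149250])) (.lf [])) (.lf []))) (.lf [])) (.nd (.nd (.nd (.lf []) (.nd (.nd (.lf
[37089]) (.lf [])) (.lf []))) (.lf [])) (.nd (.nd (.nd (.nd (.lf []) (.lf [76500])) (.nd (.lf
[153253]) (.lf []))) (.lf [])) (.lf []))))) (.nd (.nd (.nd (.nd (.nd (.nd (.nd (.lf []) (.lf
[4747])) (.lf [])) (.lf [])) (.lf [])) (.nd (.lf []) (.nd (.nd (.nd (.lf [6786]) (.lf [])) (.nd (.lf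
[17162, 21644]) (.lf []))) (.lf [])))) (.nd (.nd (.lf []) (.nd (.nd (.nd (.lf []) (.lf [55891,
119498])) (.lf [])) (.lf []))) (.nd (.nd (.lf []) (.nd (.nd (.lf [41674, 140866]) (.lf [])) (.lf
[]))) (.lf [])))) (.nd (.lf []) (.nd (.nd (.lf []) (.nd (.lf []) (.nd (.lf []) (.nd (.lf [71965,
148587]) (.lf []))))) (.nd (.nd (.nd (.nd (.lf [109219, 178844]) (.lf [])) (.nd (.lf [10914]) (.lf
[]))) (.lf [])) (.lf [])))))) (.nd (.nd (.nd (.nd (.nd (.lf []) (.nd (.nd (.nd (.lf [149059]) (.lf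
[])) (.lf [])) (.nd (.lf []) (.nd (.lf [177500]) (.lf []))))) (.nd (.lf []) (.nd (.lf []) (.nd (.nd
(.lf [79426, 82634]) (.lf [])) (.lf []))))) (.nd (.nd (.lf []) (.nd (.nd (.nd (.lf []) (.lf [71234,
82634])) (.lf [])) (.lf []))) (.lf []))) (.nd (.nd (.lf []) (.nd (.nd (.lf []) (.nd (.lf []) (.nd
(.lf [70987]) (.lf [])))) (.nd (.nd (.lf []) (.nd (.lf [139363]) (.lf []))) (.lf [])))) (.nd (.lf
[]) (.nd (.nd (.nd (.nd (.lf []) (.lf [103965, 176835])) (.lf [])) (.lf [])) (.lf []))))) (.nd (.nd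
(.nd (.nd (.nd (.nd (.nd (.lf []) (.lf [169121, 186434])) (.lf [])) (.nd (.nd (.lf [111897, 140555])
(.lf [])) (.nd (.lf [79426, 82634, 141395]) (.lf [])))) (.lf [])) (.lf [])) (.nd (.nd (.lf []) (.nd
(.nd (.nd (.lf []) (.lf [12634, 21857, 55148, 86851, 86875, 86891, 119498, 132709, 185922])) (.lf
[])) (.lf []))) (.nd (.nd (.nd (.nd (.lf []) (.lf [165227])) (.lf [])) (.nd (.lf []) (.nd (.lf
[184605]) (.lf [])))) (.lf [])))) (.nd (.nd (.nd (.lf []) (.nd (.nd (.nd (.lf []) (.lf [140643,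
149587, 181826])) (.lf [])) (.lf []))) (.nd (.nd (.lf []) (.nd (.nd (.lf [79370]) (.lf [])) (.lf
[]))) (.lf []))) (.nd (.nd (.nd (.nd (.lf []) (.nd (.lf [75793, 111777]) (.lf []))) (.lf [])) (.lf
[])) (.nd (.nd (.nd (.lf []) (.nd (.lf [68309]) (.lf []))) (.lf [])) (.lf []))))))) (.nd (.nd (.nd
(.nd (.nd (.lf []) (.nd (.nd (.nd (.lf []) (.nd (.lf [54051, 115537, 137315]) (.lf []))) (.lf []))
(.lf []))) (.nd (.nd (.lf []) (.nd (.nd (.nd (.lf []) (.lf [5281])) (.lf [])) (.lf []))) (.lf [])))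
(.nd (.nd (.lf []) (.nd (.lf []) (.nd (.nd (.lf []) (.nd (.lf [79370]) (.lf []))) (.lf [])))) (.nd
(.lf []) (.nd (.nd (.nd (.nd (.lf []) (.lf [14364])) (.nd (.lf [71259]) (.lf []))) (.lf [])) (.lf
[]))))) (.nd (.nd (.nd (.nd (.nd (.nd (.nd (.lf []) (.lf [102549, 173123])) (.lf [])) (.lf [])) (.nd
(.nd (.nd (.lf []) (.lf [170257, 176394])) (.lf [])) (.lf []))) (.nd (.lf []) (.nd (.nd (.nd (.lf
[172554]) (.lf [])) (.lf [])) (.lf [])))) (.nd (.nd (.lf []) (.nd (.nd (.nd (.lf []) (.lf [131749]))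
(.lf [])) (.lf []))) (.nd (.nd (.nd (.nd (.lf []) (.lf [137569])) (.lf [])) (.nd (.nd (.lf [6763])
(.lf [])) (.lf []))) (.nd (.lf []) (.nd (.nd (.lf [72537]) (.lf [])) (.lf [])))))) (.nd (.nd (.nd
(.nd (.lf []) (.nd (.nd (.lf [70949]) (.lf [])) (.lf []))) (.nd (.nd (.nd (.lf []) (.lf [73835,
86539])) (.lf [])) (.nd (.nd (.lf [21321]) (.lf [])) (.lf [])))) (.nd (.nd (.nd (.nd (.lf [69732])
(.lf [])) (.lf [])) (.lf [])) (.lf []))) (.nd (.nd (.lf []) (.nd (.nd (.lf []) (.nd (.lf [49930])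
(.lf []))) (.nd (.lf []) (.nd (.lf [70346, 83522]) (.lf []))))) (.nd (.nd (.nd (.nd (.lf []) (.lf
[141386])) (.lf [])) (.lf [])) (.lf [])))))) (.nd (.nd (.nd (.nd (.nd (.lf []) (.nd (.nd (.nd (.lf
[]) (.lf [49866, 69865, 137003, 149058])) (.lf [])) (.lf []))) (.lf [])) (.nd (.nd (.lf []) (.nd
(.nd (.nd (.lf []) (.lf [1898, 107179, 108203, 109227, 176474])) (.lf [])) (.lf []))) (.nd (.nd (.lf
[]) (.nd (.lf []) (.nd (.lf [69732]) (.lf [])))) (.lf [])))) (.nd (.nd (.nd (.lf []) (.nd (.nd (.nd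
(.lf []) (.lf [72385])) (.lf [])) (.lf []))) (.lf [])) (.nd (.nd (.nd (.nd (.lf []) (.nd (.lf
[112162]) (.lf []))) (.lf [])) (.lf [])) (.lf [])))) (.nd (.nd (.nd (.nd (.nd (.nd (.nd (.lf [])
(.lf [49866, 69865])) (.lf [])) (.lf [])) (.nd (.nd (.nd (.lf []) (.lf [146084])) (.lf [])) (.lf
[]))) (.lf [])) (.lf [])) (.nd (.nd (.nd (.lf []) (.nd (.nd (.nd (.lf []) (.lf [43092])) (.lf []))
(.lf []))) (.nd (.nd (.nd (.nd (.lf []) (.lf [67620])) (.lf [])) (.nd (.nd (.lf [78404, 177417])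
(.lf [])) (.lf []))) (.lf []))) (.nd (.nd (.lf []) (.nd (.lf []) (.nd (.lf []) (.nd (.lf [53962])
(.lf []))))) (.lf []))))))) (.nd (.nd (.nd (.nd (.nd (.nd (.nd (.nd (.nd (.lf []) (.nd (.lf [1701,
181449]) (.lf []))) (.lf [])) (.nd (.nd (.lf []) (.nd (.lf [83460]) (.lf []))) (.lf []))) (.nd (.nd
(.lf []) (.nd (.nd (.lf [21355]) (.lf [])) (.lf []))) (.nd (.nd (.lf []) (.nd (.lf [174618]) (.lf
[]))) (.lf [])))) (.nd (.nd (.lf []) (.nd (.nd (.nd (.lf []) (.lf [10058, 120971, 132961, 177433]))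
(.lf [])) (.lf []))) (.lf []))) (.nd (.nd (.lf []) (.nd (.nd (.nd (.nd (.lf []) (.lf [79001, 135889,
141090])) (.lf [])) (.lf [])) (.lf []))) (.nd (.lf []) (.nd (.nd (.lf []) (.nd (.lf []) (.nd (.lf
[49930]) (.lf [])))) (.lf []))))) (.nd (.nd (.lf []) (.nd (.nd (.nd (.lf []) (.nd (.nd (.lf [70745,
107347, 185178]) (.lf [])) (.lf []))) (.nd (.nd (.nd (.lf []) (.lf [292, 365, 19034, 22618, 37668,
37741, 51036, 51932, 51996, 55069, 55517, 55645, 75044, 75117, 80157, 80732, 84827, 84829, 88347,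
88348, 104677, 105196, 116067, 117338, 120107, 120922, 133841, 137963, 137965, 141036, 142044,
142052, 144171, 146129, 149577, 149650, 149869, 150106, 150225, 151691, 152347, 152355, 152811,
152939, 153227, 153690, 153739, 154251, 154321, 166097, 170211, 170212, 173797, 174301, 174317,
176995, 178385, 180363, 181083, 181099, 181475, 181539, 181899, 182411, 182481, 182874, 182923,
186458, 186577, 186953, 187026, 187172])) (.lf [])) (.lf []))) (.nd (.lf []) (.nd (.lf []) (.nd (.lf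
[]) (.nd (.lf [169121, 170346]) (.lf []))))))) (.nd (.nd (.nd (.lf []) (.nd (.nd (.nd (.lf []) (.lf
[54507, 54635, 86730, 109139])) (.lf [])) (.lf []))) (.lf [])) (.nd (.lf []) (.nd (.nd (.nd (.nd
(.lf []) (.lf [74248])) (.lf [])) (.lf [])) (.nd (.lf []) (.nd (.lf []) (.nd (.lf [38466, 140817,
148170]) (.lf []))))))))) (.nd (.nd (.nd (.nd (.nd (.nd (.nd (.nd (.lf [46313, 105025]) (.lf []))
(.lf [])) (.lf [])) (.lf [])) (.lf [])) (.nd (.nd (.lf []) (.nd (.nd (.nd (.lf []) (.lf [5202,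
165225, 165737])) (.lf [])) (.lf []))) (.nd (.nd (.nd (.nd (.lf []) (.lf [148685, 186017])) (.lf
[])) (.nd (.lf []) (.nd (.lf [141571]) (.lf [])))) (.lf [])))) (.nd (.nd (.nd (.nd (.nd (.nd (.lf
[14866]) (.lf [])) (.lf [])) (.nd (.lf []) (.nd (.lf [35425]) (.lf [])))) (.lf [])) (.lf [])) (.nd
(.nd (.lf []) (.nd (.lf []) (.nd (.lf []) (.nd (.lf [113437]) (.lf []))))) (.nd (.nd (.nd (.nd (.lf
[]) (.lf [54995, 119400, 169690, 176709])) (.lf [])) (.lf [])) (.lf []))))) (.nd (.nd (.nd (.nd (.nd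
(.lf []) (.nd (.lf []) (.nd (.lf [53962, 177730]) (.lf [])))) (.nd (.nd (.nd (.lf []) (.lf [2369,
34829, 69976])) (.lf [])) (.nd (.lf []) (.nd (.lf [75037]) (.lf []))))) (.nd (.nd (.nd (.nd (.lf
[170131]) (.lf [])) (.lf [])) (.lf [])) (.nd (.lf []) (.nd (.nd (.lf [6763]) (.lf [])) (.lf [])))))
(.nd (.nd (.lf []) (.nd (.nd (.nd (.lf []) (.lf [4129, 4449, 5409, 5473, 5665, 5729, 5921, 5985,
6433, 6497, 6753, 7009, 12316, 12636, 33872, 33873, 33874, 45084, 45276, 45340, 45404, 67266, 67282,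
67290, 78108, 78172, 83984, 83992, 84000, 88586, 101016, 105112, 121496, 143644, 143708, 148481,
148482, 148484, 164481, 170635, 176348, 176476, 176769, 178827, 184961, 185363])) (.lf [])) (.nd
(.nd (.lf [115017]) (.lf [])) (.lf [])))) (.nd (.nd (.nd (.nd (.lf []) (.lf [181826])) (.lf []))
(.lf [])) (.lf [])))) (.nd (.nd (.nd (.nd (.nd (.nd (.lf []) (.lf [45707])) (.lf [])) (.nd (.lf [])
(.nd (.lf [100179, 173889]) (.lf [])))) (.nd (.lf []) (.nd (.lf []) (.nd (.lf [178882]) (.lf [])))))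
(.nd (.nd (.lf []) (.nd (.lf []) (.nd (.lf [67650]) (.lf [])))) (.lf []))) (.nd (.lf []) (.nd (.nd
(.nd (.nd (.lf []) (.lf [79523])) (.lf [])) (.lf [])) (.lf []))))))) (.nd (.nd (.nd (.nd (.nd (.nd
(.lf []) (.nd (.nd (.nd (.lf []) (.lf [172563])) (.lf [])) (.nd (.lf []) (.nd (.lf [170730, 183018])
(.lf []))))) (.nd (.nd (.nd (.nd (.lf []) (.lf [103193])) (.lf [])) (.lf [])) (.lf []))) (.nd (.lf
[]) (.nd (.nd (.nd (.nd (.lf [45578]) (.lf [])) (.lf [])) (.lf [])) (.lf [])))) (.nd (.nd (.nd (.nd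
(.nd (.nd (.lf []) (.lf [43160])) (.lf [])) (.lf [])) (.nd (.lf []) (.nd (.lf []) (.nd (.lf
[177996]) (.lf []))))) (.nd (.nd (.nd (.lf []) (.nd (.lf [180500]) (.lf []))) (.lf [])) (.nd (.lf
[]) (.nd (.lf []) (.nd (.lf [176474]) (.lf [])))))) (.nd (.nd (.nd (.nd (.nd (.lf []) (.lf
[169121])) (.lf [])) (.lf [])) (.lf [])) (.nd (.nd (.nd (.nd (.lf []) (.lf [34853])) (.lf [])) (.nd
(.lf []) (.nd (.lf [38936, 178251]) (.lf [])))) (.nd (.nd (.lf []) (.nd (.lf [1796]) (.lf []))) (.lf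
[])))))) (.nd (.nd (.nd (.nd (.lf []) (.nd (.nd (.nd (.lf []) (.lf [184418])) (.lf [])) (.lf [])))
(.lf [])) (.nd (.nd (.nd (.nd (.nd (.lf []) (.lf [103193])) (.lf [])) (.lf [])) (.nd (.nd (.nd (.lf
[]) (.lf [6817, 18530, 54050, 174164])) (.lf [])) (.nd (.nd (.lf [107203]) (.lf [])) (.lf []))))
(.nd (.nd (.nd (.nd (.lf []) (.lf [49498, 177730])) (.lf [])) (.lf [])) (.nd (.lf []) (.nd (.lf [])
(.nd (.lf [137291]) (.lf []))))))) (.nd (.nd (.nd (.nd (.lf []) (.nd (.lf []) (.nd (.lf [104643])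
(.lf [])))) (.nd (.nd (.lf []) (.nd (.lf [38747]) (.lf []))) (.lf []))) (.lf [])) (.nd (.lf []) (.nd
(.nd (.nd (.nd (.lf []) (.lf [104201])) (.lf [])) (.lf [])) (.nd (.nd (.nd (.lf [170257]) (.lf []))
(.lf [])) (.lf []))))))) (.nd (.nd (.nd (.nd (.nd (.nd (.nd (.nd (.lf [21010]) (.lf [])) (.lf []))
(.lf [])) (.lf [])) (.nd (.nd (.nd (.lf []) (.nd (.lf [164051]) (.lf []))) (.lf [])) (.lf []))) (.nd
(.nd (.lf []) (.nd (.nd (.nd (.lf []) (.lf [82698, 136353])) (.lf [])) (.lf []))) (.lf []))) (.nd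
(.nd (.nd (.lf []) (.nd (.nd (.nd (.lf []) (.lf [47197, 113356])) (.lf [])) (.lf []))) (.nd (.lf [])
(.nd (.lf []) (.nd (.nd (.lf [106708, 149504]) (.lf [])) (.lf []))))) (.nd (.nd (.nd (.nd (.nd (.lf
[]) (.lf [169121])) (.lf [])) (.lf [])) (.nd (.lf []) (.nd (.nd (.lf [177901]) (.lf [])) (.lf []))))
(.nd (.nd (.nd (.nd (.lf []) (.lf [51010, 136745, 170083, 181474])) (.nd (.lf [49731, 170275]) (.lf
[]))) (.lf [])) (.nd (.nd (.nd (.lf [176810]) (.lf [])) (.lf [])) (.lf [])))))) (.nd (.nd (.nd (.nd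
(.nd (.lf []) (.nd (.lf []) (.nd (.lf [78530]) (.lf [])))) (.nd (.nd (.nd (.lf []) (.lf [39108]))
(.lf [])) (.nd (.nd (.lf [4633, 180313]) (.lf [])) (.lf [])))) (.nd (.nd (.nd (.nd (.lf []) (.lf
[168617])) (.lf [])) (.lf [])) (.lf []))) (.nd (.nd (.nd (.nd (.nd (.lf [67843]) (.lf [])) (.lf []))
(.lf [])) (.lf [])) (.lf []))) (.nd (.nd (.nd (.nd (.nd (.lf []) (.nd (.lf [49348]) (.lf []))) (.nd
(.nd (.lf [43843]) (.lf [])) (.lf []))) (.nd (.nd (.nd (.lf []) (.lf [22739, 154124, 165643,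
180564])) (.lf [])) (.lf []))) (.lf [])) (.lf [])))))))) (.nd (.nd (.nd (.nd (.nd (.nd (.nd (.nd
(.nd (.lf []) (.nd (.nd (.nd (.lf []) (.lf [80412, 116483])) (.lf [])) (.lf []))) (.nd (.nd (.nd
(.lf []) (.nd (.lf [35523, 45586]) (.lf []))) (.lf [])) (.lf []))) (.nd (.nd (.nd (.nd (.lf []) (.nd
(.lf [170530]) (.lf []))) (.lf [])) (.lf [])) (.nd (.lf []) (.nd (.lf []) (.nd (.lf []) (.nd (.lf
[103440]) (.lf []))))))) (.nd (.nd (.nd (.lf []) (.nd (.nd (.nd (.lf []) (.lf [132452, 154268]))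
(.lf [])) (.lf []))) (.nd (.nd (.nd (.nd (.lf []) (.lf [166565])) (.lf [])) (.nd (.lf []) (.nd (.lf
[47256]) (.lf [])))) (.lf []))) (.lf []))) (.nd (.nd (.nd (.nd (.lf []) (.nd (.nd (.nd (.lf []) (.lf
[109341, 117533, 121629, 133356, 166699])) (.lf [])) (.lf []))) (.lf [])) (.lf [])) (.nd (.nd (.nd
(.nd (.nd (.lf []) (.nd (.lf [23237]) (.lf []))) (.lf [])) (.lf [])) (.nd (.nd (.nd (.nd (.lf [])
(.lf [108138])) (.lf [])) (.lf [])) (.lf []))) (.nd (.lf []) (.nd (.nd (.nd (.lf []) (.nd (.lf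
[601]) (.lf []))) (.lf [])) (.lf [])))))) (.nd (.nd (.nd (.nd (.nd (.nd (.nd (.nd (.lf []) (.lf
[113308, 174755])) (.lf [])) (.lf [])) (.nd (.nd (.nd (.lf []) (.lf [84051])) (.lf [])) (.lf [])))
(.lf [])) (.nd (.nd (.lf []) (.nd (.nd (.nd (.lf []) (.lf [43221, 71234, 82634, 173585])) (.lf []))
(.lf []))) (.nd (.nd (.nd (.nd (.lf []) (.lf [111828])) (.lf [])) (.lf [])) (.nd (.lf []) (.nd (.nd
(.lf [103769]) (.lf [])) (.lf [])))))) (.nd (.nd (.nd (.lf []) (.nd (.nd (.nd (.lf []) (.lf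
[149184])) (.lf [])) (.lf []))) (.nd (.nd (.nd (.nd (.lf []) (.lf [5698, 9745, 34307, 51483, 108049,
115402, 140817, 143881, 143884, 143885])) (.nd (.lf [78028, 99587]) (.lf []))) (.nd (.nd (.lf
[152233]) (.lf [])) (.lf []))) (.lf []))) (.nd (.nd (.nd (.nd (.nd (.lf [118873]) (.lf [])) (.lf
[])) (.lf [])) (.lf [])) (.lf [])))) (.nd (.nd (.nd (.nd (.nd (.lf []) (.nd (.nd (.lf [103769]) (.lf
[])) (.lf []))) (.lf [])) (.nd (.nd (.lf []) (.nd (.nd (.lf [18196]) (.lf [])) (.lf []))) (.lf [])))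
(.nd (.nd (.lf []) (.nd (.nd (.nd (.lf []) (.lf [8276, 9300, 10324, 10836, 98845, 99037, 99101,
99165])) (.lf [])) (.lf []))) (.nd (.nd (.nd (.nd (.lf []) (.lf [5209])) (.lf [])) (.lf [])) (.lf
[])))) (.nd (.nd (.nd (.nd (.nd (.nd (.lf [102940]) (.lf [])) (.lf [])) (.lf [])) (.nd (.nd (.nd
(.lf []) (.lf [6809, 86810, 133795, 174163])) (.lf [])) (.lf []))) (.nd (.nd (.nd (.nd (.lf []) (.lf
[178777])) (.lf [])) (.lf [])) (.lf []))) (.lf []))))) (.nd (.nd (.nd (.nd (.nd (.lf []) (.nd (.nd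
(.nd (.lf []) (.nd (.lf [20996, 39490, 133667, 178780]) (.lf []))) (.lf [])) (.nd (.nd (.lf []) (.nd
(.lf [104029]) (.lf []))) (.nd (.nd (.lf [13001]) (.lf [])) (.lf []))))) (.nd (.nd (.lf []) (.nd
(.nd (.nd (.lf []) (.lf [67362, 114963])) (.lf [])) (.nd (.lf []) (.nd (.lf [179036]) (.lf [])))))
(.lf []))) (.nd (.nd (.nd (.lf []) (.nd (.nd (.nd (.lf []) (.lf [121357, 176489])) (.lf [])) (.nd
(.nd (.lf [5850]) (.lf [])) (.lf [])))) (.nd (.lf []) (.nd (.nd (.nd (.lf [4196]) (.lf [])) (.lf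
[])) (.lf [])))) (.nd (.lf []) (.nd (.lf []) (.nd (.nd (.lf []) (.nd (.lf [49866, 144962]) (.lf
[]))) (.lf [])))))) (.nd (.nd (.lf []) (.nd (.nd (.lf []) (.nd (.nd (.nd (.lf []) (.lf [14186,
35562, 100956])) (.lf [])) (.lf []))) (.nd (.nd (.nd (.nd (.lf []) (.lf [183053])) (.lf [])) (.lf
[])) (.nd (.lf []) (.nd (.lf []) (.nd (.lf [6209, 177730]) (.lf []))))))) (.nd (.nd (.nd (.nd (.nd
(.nd (.lf []) (.lf [75915])) (.lf [])) (.lf [])) (.nd (.nd (.nd (.lf []) (.lf [119626])) (.lf []))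
(.lf []))) (.lf [])) (.nd (.lf []) (.nd (.nd (.nd (.nd (.lf []) (.lf [177730])) (.lf [])) (.lf []))
(.lf [])))))) (.nd (.nd (.nd (.nd (.nd (.lf []) (.nd (.lf []) (.nd (.lf []) (.nd (.lf [53962]) (.lf
[]))))) (.lf [])) (.nd (.nd (.lf []) (.nd (.nd (.nd (.lf []) (.lf [8482, 70208, 70336, 70400])) (.lf
[])) (.lf []))) (.nd (.nd (.nd (.nd (.lf []) (.lf [136539, 180457])) (.lf [])) (.nd (.lf []) (.nd
(.lf [35625]) (.lf [])))) (.lf [])))) (.nd (.nd (.nd (.nd (.lf []) (.nd (.lf []) (.nd (.lf [39002,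
108627, 145186]) (.lf [])))) (.nd (.nd (.nd (.lf []) (.lf [37968, 141322])) (.lf [])) (.lf [])))
(.nd (.nd (.nd (.nd (.lf []) (.lf [185609])) (.lf [])) (.lf [])) (.lf []))) (.nd (.lf []) (.nd (.nd
(.nd (.lf []) (.nd (.lf [17235, 65883, 86308]) (.lf []))) (.lf [])) (.nd (.nd (.nd (.lf [1124]) (.lf
[])) (.lf [])) (.lf [])))))) (.nd (.nd (.nd (.nd (.nd (.nd (.nd (.lf []) (.lf [186368])) (.lf []))
(.lf [])) (.nd (.nd (.nd (.lf []) (.lf [1133, 34601])) (.lf [])) (.lf []))) (.lf [])) (.lf [])) (.nd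
(.nd (.nd (.nd (.nd (.nd (.lf [82258]) (.lf [])) (.lf [])) (.lf [])) (.lf [])) (.nd (.nd (.nd (.nd
(.lf []) (.lf [13834, 37594])) (.lf [])) (.lf [])) (.lf []))) (.nd (.nd (.lf []) (.nd (.lf []) (.nd
(.nd (.lf [4700]) (.lf [])) (.nd (.lf [67650, 174676]) (.lf []))))) (.lf []))))))) (.nd (.nd (.nd
(.nd (.nd (.nd (.nd (.lf []) (.nd (.nd (.nd (.lf []) (.lf [79196, 117059, 137921])) (.lf [])) (.lf
[]))) (.nd (.nd (.lf []) (.nd (.nd (.lf [35338]) (.lf [])) (.lf []))) (.nd (.lf []) (.nd (.lf [])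
(.nd (.lf [74251]) (.lf [])))))) (.nd (.nd (.lf []) (.nd (.nd (.nd (.lf []) (.lf [51869])) (.lf []))
(.lf []))) (.nd (.lf []) (.nd (.nd (.nd (.lf [43728]) (.lf [])) (.nd (.lf [184899]) (.lf []))) (.lf
[]))))) (.nd (.nd (.nd (.lf []) (.nd (.nd (.nd (.lf []) (.lf [1546])) (.lf [])) (.nd (.nd (.lf
[43693]) (.lf [])) (.lf [])))) (.nd (.nd (.nd (.nd (.lf []) (.lf [168650])) (.lf [])) (.nd (.nd (.lf
[173315]) (.lf [])) (.lf []))) (.nd (.lf []) (.nd (.lf []) (.nd (.lf [49930]) (.lf [])))))) (.nd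
(.nd (.lf []) (.nd (.lf []) (.nd (.nd (.lf [149185]) (.lf [])) (.lf [])))) (.nd (.nd (.lf []) (.nd
(.lf []) (.nd (.lf [601]) (.lf [])))) (.lf []))))) (.nd (.nd (.nd (.nd (.lf []) (.nd (.nd (.nd (.lf
[111850]) (.lf [])) (.lf [])) (.lf []))) (.nd (.nd (.lf []) (.nd (.nd (.lf [22082, 119498]) (.lf
[])) (.lf []))) (.nd (.nd (.nd (.lf [148233]) (.lf [])) (.lf [])) (.nd (.nd (.lf [166605]) (.lf []))
(.lf []))))) (.nd (.lf []) (.nd (.nd (.lf []) (.nd (.lf []) (.nd (.lf [51352]) (.lf [])))) (.lf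
[])))) (.nd (.nd (.nd (.lf []) (.nd (.lf []) (.nd (.lf []) (.nd (.lf [135898]) (.lf []))))) (.nd
(.nd (.nd (.nd (.lf []) (.lf [108714, 174867])) (.lf [])) (.lf [])) (.nd (.lf []) (.nd (.lf []) (.nd
(.lf [169121, 170346]) (.lf [])))))) (.nd (.nd (.nd (.nd (.nd (.lf []) (.lf [133381])) (.lf []))
(.nd (.nd (.lf [174659]) (.lf [])) (.lf []))) (.lf [])) (.nd (.nd (.nd (.nd (.lf []) (.lf [103193]))
(.lf [])) (.lf [])) (.lf [])))))) (.nd (.nd (.nd (.nd (.nd (.lf []) (.nd (.nd (.nd (.lf []) (.lf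
[5713])) (.lf [])) (.lf []))) (.nd (.nd (.nd (.nd (.lf []) (.lf [135961])) (.nd (.lf [80425]) (.lf
[]))) (.lf [])) (.lf []))) (.nd (.nd (.nd (.nd (.nd (.lf []) (.lf [135961])) (.lf [])) (.lf []))
(.nd (.nd (.nd (.lf []) (.lf [2347, 37097, 53962, 72418, 114893, 119498, 139939, 140963, 141475,
141987, 146180, 146188, 146220, 147731, 152266])) (.lf [])) (.lf []))) (.nd (.nd (.nd (.nd (.lf [])
(.lf [54981, 103780])) (.lf [])) (.lf [])) (.lf [])))) (.nd (.nd (.nd (.lf []) (.nd (.nd (.nd (.lf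
[]) (.lf [182617])) (.lf [])) (.lf []))) (.nd (.lf []) (.nd (.lf []) (.nd (.lf []) (.nd (.lf
[184843]) (.lf [])))))) (.nd (.lf []) (.nd (.nd (.nd (.nd (.lf []) (.lf [79467, 174811, 176835]))
(.nd (.lf [88716, 169258]) (.lf []))) (.lf [])) (.lf []))))) (.nd (.nd (.nd (.nd (.lf []) (.nd (.nd
(.nd (.lf []) (.lf [5292, 14866, 34629])) (.lf [])) (.nd (.lf []) (.nd (.lf [38466, 140817]) (.lf
[]))))) (.lf [])) (.nd (.nd (.lf []) (.nd (.nd (.nd (.lf []) (.lf [4329, 54628, 86730, 121427,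
141987, 149269, 172195, 173731, 181763, 181765])) (.lf [])) (.nd (.nd (.lf [50281]) (.lf [])) (.lf
[])))) (.lf []))) (.nd (.nd (.nd (.nd (.nd (.nd (.lf []) (.lf [147564])) (.lf [])) (.lf [])) (.lf
[])) (.nd (.nd (.nd (.nd (.lf []) (.lf [119532])) (.lf [])) (.lf [])) (.lf []))) (.nd (.nd (.lf [])
(.nd (.nd (.nd (.lf [107737]) (.lf [])) (.lf [])) (.nd (.lf []) (.nd (.lf [103769]) (.lf [])))))
(.lf [])))))) (.nd (.nd (.nd (.nd (.nd (.nd (.nd (.lf []) (.nd (.nd (.lf [131283]) (.lf [])) (.lf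
[]))) (.lf [])) (.nd (.nd (.nd (.lf []) (.nd (.lf [21733, 50377]) (.lf []))) (.lf [])) (.nd (.nd
(.nd (.lf [21322]) (.lf [])) (.lf [])) (.lf [])))) (.nd (.lf []) (.nd (.nd (.lf []) (.nd (.nd (.lf
[177378]) (.lf [])) (.lf []))) (.lf [])))) (.nd (.nd (.nd (.lf []) (.nd (.nd (.nd (.lf []) (.lf
[39577, 71770, 141395, 148835])) (.lf [])) (.lf []))) (.nd (.nd (.nd (.nd (.lf []) (.lf [166235]))
(.lf [])) (.lf [])) (.nd (.nd (.nd (.lf [276]) (.lf [])) (.lf [])) (.lf [])))) (.nd (.nd (.nd (.nd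
(.nd (.lf []) (.lf [33288])) (.lf [])) (.lf [])) (.lf [])) (.nd (.nd (.nd (.nd (.lf [107587]) (.lf
[])) (.lf [])) (.lf [])) (.lf []))))) (.nd (.nd (.lf []) (.nd (.nd (.nd (.nd (.nd (.lf []) (.lf
[103193])) (.lf [])) (.lf [])) (.nd (.nd (.nd (.lf []) (.lf [6817, 10845, 33629])) (.lf [])) (.lf
[]))) (.lf []))) (.nd (.lf []) (.nd (.nd (.nd (.nd (.nd (.lf [49481]) (.lf [])) (.lf [])) (.lf []))
(.lf [])) (.nd (.lf []) (.nd (.nd (.lf []) (.nd (.lf [79074]) (.lf []))) (.nd (.lf []) (.nd (.lf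
[169121, 170346]) (.lf []))))))))) (.nd (.nd (.nd (.nd (.lf []) (.nd (.nd (.nd (.nd (.lf []) (.lf
[49953])) (.lf [])) (.lf [])) (.lf []))) (.lf [])) (.nd (.nd (.lf []) (.nd (.lf []) (.nd (.nd (.nd
(.lf [55106]) (.lf [])) (.nd (.lf [166147]) (.lf []))) (.nd (.lf []) (.nd (.lf [79001, 135889]) (.lf
[])))))) (.nd (.lf []) (.nd (.nd (.nd (.nd (.lf []) (.lf [174219])) (.nd (.lf [184332]) (.lf [])))
(.lf [])) (.lf []))))) (.nd (.nd (.nd (.nd (.nd (.lf []) (.nd (.lf []) (.nd (.lf [144066]) (.lf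
[])))) (.nd (.nd (.nd (.lf []) (.lf [99850])) (.lf [])) (.lf []))) (.nd (.lf []) (.nd (.lf []) (.nd
(.lf []) (.nd (.lf [165730]) (.lf [])))))) (.nd (.lf []) (.nd (.lf []) (.nd (.nd (.nd (.lf [38765])
(.lf [])) (.lf [])) (.lf []))))) (.nd (.nd (.lf []) (.nd (.nd (.nd (.lf []) (.nd (.lf [153859]) (.lf
[]))) (.lf [])) (.nd (.nd (.lf []) (.nd (.lf [143626, 170257]) (.lf []))) (.lf [])))) (.nd (.lf [])
(.nd (.nd (.nd (.nd (.lf []) (.lf [141386])) (.lf [])) (.lf [])) (.lf []))))))))) (.nd (.nd (.nd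
(.nd (.nd (.nd (.nd (.nd (.nd (.nd (.nd (.lf []) (.lf [55362, 181002])) (.lf [])) (.lf [])) (.lf
[])) (.lf [])) (.lf [])) (.nd (.nd (.nd (.nd (.nd (.nd (.lf []) (.lf [67649])) (.lf [])) (.lf []))
(.lf [])) (.nd (.nd (.lf []) (.nd (.lf []) (.nd (.lf [135914]) (.lf [])))) (.lf []))) (.nd (.lf [])
(.nd (.nd (.nd (.nd (.lf []) (.lf [107347])) (.lf [])) (.nd (.lf []) (.nd (.lf [119468]) (.lf []))))
(.nd (.nd (.nd (.lf [5468, 33901]) (.lf [])) (.lf [])) (.lf [])))))) (.nd (.nd (.nd (.lf []) (.nd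
(.lf []) (.nd (.lf []) (.nd (.lf []) (.nd (.lf [153708]) (.lf [])))))) (.nd (.nd (.lf []) (.nd (.nd
(.nd (.lf []) (.lf [14866, 14882, 22019, 47197, 50754, 84676, 84700, 84708, 106667, 108203, 108715,
110938, 137443, 137445, 148170])) (.lf [])) (.lf []))) (.lf []))) (.nd (.nd (.nd (.nd (.nd (.lf [])
(.nd (.lf [178729]) (.lf []))) (.lf [])) (.nd (.lf []) (.nd (.lf []) (.nd (.lf [116931, 117059,
178844]) (.lf []))))) (.nd (.nd (.nd (.nd (.lf []) (.lf [49797, 115530])) (.lf [])) (.lf [])) (.lf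
[]))) (.nd (.nd (.nd (.nd (.nd (.lf []) (.lf [99979])) (.lf [])) (.lf [])) (.lf [])) (.lf [])))))
(.nd (.nd (.nd (.nd (.nd (.lf []) (.nd (.nd (.nd (.lf []) (.lf [133346])) (.lf [])) (.lf []))) (.nd
(.lf []) (.nd (.lf []) (.nd (.lf []) (.nd (.lf [10018]) (.lf [])))))) (.nd (.nd (.nd (.nd (.nd (.lf
[12810]) (.lf [])) (.lf [])) (.lf [])) (.nd (.nd (.nd (.lf []) (.lf [41641, 136277, 141861])) (.lf
[])) (.lf []))) (.nd (.nd (.nd (.nd (.lf []) (.lf [148179])) (.lf [])) (.lf [])) (.lf [])))) (.nd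
(.nd (.nd (.lf []) (.nd (.nd (.nd (.lf []) (.lf [177730])) (.lf [])) (.lf []))) (.lf [])) (.nd (.nd
(.lf []) (.nd (.lf []) (.nd (.nd (.lf [46940]) (.lf [])) (.lf [])))) (.nd (.nd (.nd (.nd (.lf [])
(.lf [6788, 20997])) (.lf [])) (.lf [])) (.lf []))))) (.nd (.nd (.nd (.nd (.lf []) (.nd (.nd (.nd
(.lf []) (.lf [116765, 143659])) (.lf [])) (.lf []))) (.lf [])) (.nd (.nd (.lf []) (.nd (.nd (.nd
(.lf [66058]) (.lf [6817, 184410])) (.lf [])) (.lf []))) (.nd (.nd (.nd (.nd (.lf [33445]) (.lf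
[8851])) (.lf [])) (.lf [])) (.lf [])))) (.nd (.nd (.lf []) (.nd (.nd (.lf []) (.nd (.nd (.lf [4826,
99845]) (.lf [])) (.nd (.lf [51796]) (.lf [])))) (.lf []))) (.nd (.nd (.lf []) (.nd (.lf []) (.nd
(.lf []) (.nd (.lf [777]) (.lf []))))) (.nd (.nd (.nd (.nd (.lf []) (.lf [177730])) (.lf [])) (.lf
[])) (.lf []))))))) (.nd (.nd (.nd (.nd (.nd (.nd (.nd (.lf []) (.nd (.lf []) (.nd (.lf [53962])
(.lf [])))) (.lf [])) (.nd (.nd (.nd (.lf []) (.nd (.lf [39178]) (.lf []))) (.lf [])) (.lf [])))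
(.nd (.nd (.lf []) (.nd (.nd (.nd (.lf []) (.lf [5281, 46179, 115466])) (.lf [])) (.lf []))) (.nd
(.nd (.nd (.nd (.lf [42201]) (.lf [])) (.lf [])) (.lf [])) (.nd (.lf []) (.nd (.nd (.lf [43076,
83468]) (.lf [])) (.lf [])))))) (.nd (.nd (.nd (.lf []) (.nd (.nd (.nd (.lf []) (.lf [12586,
185986])) (.lf [])) (.lf []))) (.nd (.lf []) (.nd (.nd (.lf []) (.nd (.lf [43877, 184418]) (.lf
[]))) (.lf [])))) (.lf []))) (.nd (.nd (.nd (.nd (.nd (.nd (.nd (.lf []) (.lf [182794])) (.lf []))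
(.lf [])) (.nd (.nd (.nd (.lf []) (.lf [180746, 184418, 185625])) (.lf [])) (.lf []))) (.lf []))
(.nd (.nd (.lf []) (.nd (.nd (.nd (.lf [98821, 176835]) (.lf [13401, 13657, 131237, 131749])) (.lf
[])) (.lf []))) (.nd (.nd (.nd (.nd (.lf []) (.lf [148749, 168617])) (.lf [])) (.lf [])) (.lf []))))
(.nd (.nd (.lf []) (.nd (.nd (.nd (.nd (.lf []) (.lf [16579])) (.lf [])) (.lf [])) (.lf []))) (.nd
(.nd (.nd (.nd (.nd (.lf []) (.lf [70672])) (.lf [])) (.nd (.nd (.lf [86569]) (.lf [])) (.lf [])))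
(.nd (.nd (.nd (.lf [109101, 186178]) (.lf [])) (.lf [])) (.lf []))) (.lf []))))) (.nd (.nd (.nd
(.nd (.lf []) (.nd (.lf []) (.nd (.nd (.nd (.lf [176674]) (.lf [])) (.nd (.lf [21081]) (.lf [])))
(.lf [])))) (.nd (.nd (.lf []) (.nd (.nd (.nd (.lf [88875]) (.lf [])) (.lf [])) (.nd (.lf []) (.nd
(.lf [54928]) (.lf []))))) (.nd (.nd (.nd (.nd (.lf []) (.lf [185920])) (.lf [])) (.nd (.lf []) (.nd
(.lf [170764]) (.lf [])))) (.lf [])))) (.nd (.nd (.lf []) (.nd (.nd (.nd (.lf []) (.nd (.lf [8297])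
(.lf []))) (.nd (.lf []) (.nd (.lf [169121]) (.lf [])))) (.lf []))) (.nd (.lf []) (.nd (.nd (.nd
(.lf []) (.nd (.lf [22148, 47682, 141323]) (.lf []))) (.lf [])) (.lf []))))) (.nd (.nd (.nd (.nd
(.nd (.nd (.nd (.lf []) (.lf [84051, 149058])) (.lf [])) (.lf [])) (.lf [])) (.nd (.nd (.nd (.nd
(.lf []) (.lf [103440, 137379])) (.lf [])) (.lf [])) (.lf []))) (.nd (.nd (.lf []) (.nd (.nd (.lf
[]) (.nd (.lf [53605]) (.lf []))) (.lf []))) (.lf []))) (.nd (.nd (.nd (.nd (.nd (.nd (.lf [113308])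
(.lf [])) (.lf [])) (.nd (.nd (.lf [104029]) (.lf [])) (.lf []))) (.lf [])) (.nd (.nd (.nd (.nd (.lf
[]) (.lf [67076, 70362])) (.lf [])) (.nd (.nd (.lf [176907]) (.lf [])) (.lf []))) (.lf []))) (.nd
(.nd (.nd (.nd (.nd (.lf [49241]) (.lf [71244])) (.lf [])) (.lf [])) (.lf [])) (.lf []))))))) (.nd
(.nd (.nd (.nd (.nd (.nd (.nd (.lf []) (.nd (.nd (.nd (.lf []) (.lf [147681])) (.lf [])) (.lf [])))
(.nd (.nd (.nd (.lf []) (.nd (.lf [15057]) (.lf []))) (.lf [])) (.nd (.lf []) (.nd (.nd (.lf [75859,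
137306]) (.lf [])) (.lf []))))) (.nd (.nd (.lf []) (.nd (.nd (.nd (.lf []) (.lf [15068, 112645]))
(.nd (.lf [151884, 182804]) (.lf []))) (.nd (.lf []) (.nd (.lf [183083]) (.lf []))))) (.lf [])))
(.nd (.nd (.nd (.lf []) (.nd (.lf []) (.nd (.nd (.lf [120331]) (.lf [])) (.lf [])))) (.nd (.nd (.nd
(.nd (.lf []) (.lf [168650])) (.lf [])) (.lf [])) (.lf []))) (.nd (.nd (.nd (.nd (.nd (.lf []) (.lf
[78540])) (.lf [])) (.lf [])) (.lf [])) (.nd (.nd (.nd (.nd (.lf []) (.lf [186507])) (.lf [])) (.lf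
[])) (.nd (.nd (.nd (.lf [5769]) (.lf [])) (.lf [])) (.lf [])))))) (.nd (.nd (.nd (.nd (.lf []) (.nd
(.nd (.nd (.lf []) (.lf [87297])) (.lf [])) (.nd (.nd (.lf [169833]) (.lf [])) (.lf [])))) (.lf []))
(.nd (.nd (.lf []) (.nd (.nd (.nd (.lf []) (.lf [5713, 13657, 119505, 173642])) (.lf [])) (.lf [])))
(.nd (.nd (.nd (.nd (.lf []) (.lf [53444, 185932])) (.lf [])) (.lf [])) (.lf [])))) (.nd (.nd (.nd
(.lf []) (.nd (.nd (.nd (.lf []) (.lf [112194, 137443, 148170])) (.lf [])) (.lf []))) (.nd (.lf [])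
(.nd (.lf []) (.nd (.lf []) (.nd (.lf [184659]) (.lf [])))))) (.nd (.nd (.nd (.nd (.nd (.lf []) (.lf
[50329])) (.nd (.lf [145474]) (.lf []))) (.lf [])) (.nd (.lf []) (.nd (.lf []) (.nd (.lf [169121,
186434]) (.lf []))))) (.lf []))))) (.nd (.nd (.nd (.nd (.nd (.lf []) (.nd (.nd (.nd (.lf []) (.lf
[152857, 180746])) (.lf [])) (.nd (.nd (.lf [39137]) (.lf [])) (.lf [])))) (.lf [])) (.nd (.nd (.lf
[]) (.nd (.nd (.nd (.lf []) (.lf [67820, 101163, 183069])) (.lf [])) (.lf []))) (.lf []))) (.nd (.nd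
(.nd (.lf []) (.nd (.nd (.nd (.lf []) (.lf [46658])) (.nd (.lf [54339]) (.lf []))) (.lf []))) (.lf
[])) (.lf []))) (.nd (.nd (.nd (.nd (.lf []) (.nd (.nd (.lf []) (.nd (.lf [147681]) (.lf []))) (.lf
[]))) (.nd (.nd (.nd (.nd (.lf []) (.lf [120386, 152419, 173099, 173291, 173419, 186963])) (.lf []))
(.lf [])) (.lf []))) (.nd (.nd (.lf []) (.nd (.nd (.nd (.lf []) (.lf [365, 37741, 37973, 38605,
41802, 42314, 43018, 43594, 43658, 45913, 46797, 50888, 54985, 54987, 70313, 70741, 74409, 75117,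
75498, 79005, 79517, 80024, 80538, 80539, 82561, 86665, 86673, 103019, 104043, 104515, 105035,
105051, 107859, 108266, 111449, 111955, 112493, 115731, 119955, 120019, 136272, 140994, 143897,
169041, 169042, 173778, 173786, 176729, 176857, 186953, 187026, 187099, 187172])) (.lf [])) (.lf
[]))) (.nd (.nd (.lf []) (.nd (.nd (.lf [39011]) (.lf [])) (.lf []))) (.lf [])))) (.nd (.nd (.nd
(.lf []) (.nd (.nd (.nd (.lf []) (.lf [78937])) (.lf [])) (.nd (.lf []) (.nd (.lf [80578]) (.lf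
[]))))) (.nd (.nd (.nd (.nd (.lf []) (.lf [186690])) (.lf [])) (.lf [])) (.lf []))) (.nd (.lf [])
(.nd (.nd (.nd (.nd (.lf []) (.lf [83083, 103193])) (.nd (.lf [13890, 112194, 144962, 177730]) (.lf
[]))) (.lf [])) (.lf []))))))) (.nd (.nd (.nd (.nd (.nd (.nd (.lf []) (.nd (.lf []) (.nd (.lf [])
(.nd (.lf [54869]) (.lf []))))) (.nd (.nd (.nd (.lf []) (.nd (.lf [50020, 135812]) (.lf []))) (.lf
[])) (.lf []))) (.nd (.nd (.nd (.nd (.nd (.lf [170763]) (.lf [])) (.lf [])) (.lf [])) (.nd (.nd (.nd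
(.lf []) (.lf [35491, 67810, 153812])) (.lf [])) (.lf []))) (.lf []))) (.nd (.nd (.nd (.nd (.nd (.lf
[]) (.nd (.lf [1890]) (.lf []))) (.lf [])) (.lf [])) (.nd (.nd (.nd (.nd (.lf []) (.lf [168650]))
(.lf [])) (.lf [])) (.lf []))) (.nd (.nd (.nd (.nd (.nd (.lf []) (.lf [5824])) (.lf [])) (.lf []))
(.lf [])) (.nd (.nd (.nd (.nd (.lf []) (.lf [2253, 65629, 70491])) (.lf [])) (.lf [])) (.nd (.lf [])
(.nd (.lf []) (.nd (.lf [42068]) (.lf [])))))))) (.nd (.nd (.nd (.nd (.lf []) (.nd (.nd (.nd (.lf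
[]) (.lf [36968, 102632])) (.lf [])) (.lf []))) (.lf [])) (.nd (.nd (.lf []) (.nd (.nd (.nd (.lf
[147731]) (.lf [4329, 86730, 107113, 109219, 115305, 116229, 119361, 119393, 133419, 153364, 172707,
173731, 174243, 181761, 181763, 181764])) (.lf [])) (.nd (.nd (.lf [53260]) (.lf [])) (.lf []))))
(.nd (.nd (.nd (.nd (.lf []) (.lf [79516])) (.lf [])) (.nd (.lf []) (.nd (.lf [50315, 107210]) (.lf
[])))) (.lf [])))) (.nd (.nd (.nd (.nd (.nd (.nd (.lf []) (.lf [101155, 151836])) (.lf [])) (.lf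
[])) (.nd (.nd (.nd (.lf [146076]) (.lf [])) (.lf [])) (.lf []))) (.lf [])) (.nd (.nd (.nd (.lf [])
(.nd (.nd (.lf [8899]) (.lf [])) (.lf []))) (.lf [])) (.nd (.nd (.nd (.nd (.lf []) (.lf [4817]))
(.lf [])) (.lf [])) (.lf [])))))) (.nd (.nd (.nd (.nd (.nd (.nd (.nd (.nd (.lf []) (.lf [84051]))
(.lf [])) (.lf [])) (.nd (.nd (.nd (.lf []) (.lf [53962, 137964, 185922])) (.lf [])) (.lf []))) (.nd
(.nd (.nd (.nd (.lf [107019, 119307]) (.lf [])) (.lf [])) (.lf [])) (.lf []))) (.nd (.nd (.nd (.nd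
(.lf []) (.nd (.lf [43091, 46658]) (.lf []))) (.lf [])) (.nd (.nd (.nd (.lf [76451]) (.lf [])) (.lf
[])) (.lf []))) (.lf []))) (.nd (.nd (.nd (.nd (.lf []) (.nd (.lf []) (.nd (.lf [145052]) (.lf
[])))) (.lf [])) (.nd (.nd (.nd (.nd (.lf []) (.lf [104269, 144170])) (.lf [])) (.lf [])) (.lf [])))
(.nd (.nd (.nd (.lf []) (.nd (.lf []) (.nd (.lf [119907]) (.lf [])))) (.lf [])) (.nd (.nd (.nd (.nd
(.lf []) (.lf [109349, 116067])) (.lf [])) (.lf [])) (.nd (.lf []) (.nd (.nd (.lf [1229, 80660,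
109195]) (.lf [])) (.lf []))))))) (.nd (.nd (.nd (.nd (.lf []) (.nd (.nd (.nd (.lf []) (.lf
[178706])) (.lf [])) (.lf []))) (.nd (.nd (.nd (.nd (.lf []) (.lf [141636])) (.lf [])) (.lf []))
(.nd (.nd (.nd (.lf [185556]) (.lf [])) (.nd (.lf [39051]) (.lf []))) (.lf [])))) (.nd (.nd (.nd
(.nd (.nd (.lf [176676]) (.lf [])) (.lf [])) (.lf [])) (.lf [])) (.nd (.nd (.nd (.nd (.lf []) (.lf
[141636, 185640])) (.lf [])) (.nd (.lf []) (.nd (.lf [87074, 120354, 153634]) (.lf [])))) (.lf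
[])))) (.nd (.nd (.nd (.nd (.nd (.lf []) (.nd (.lf [43145]) (.lf []))) (.lf [])) (.nd (.nd (.nd (.lf
[]) (.lf [177186, 185379])) (.lf [])) (.lf []))) (.nd (.lf []) (.nd (.lf []) (.nd (.lf []) (.nd (.lf
[39636]) (.lf [])))))) (.nd (.nd (.lf []) (.nd (.nd (.nd (.lf [172376]) (.lf [])) (.lf [])) (.lf
[]))) (.nd (.nd (.nd (.nd (.lf []) (.lf [80412, 116483, 140512])) (.lf [])) (.lf [])) (.lf
[])))))))))))

/-- the star vectors of the rank `k` -/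
def E2 (k : Nat) : List Nat := Tr.get E2T k

end CR.Tab
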