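import Pool.Agent.Lib.MP_6f5d36_co.Ker7

/-!
# MP_6f5d36_co, case (ii) : the definitions of the checker of level 7 (for the kernel)

The soundness is in `C2/Ext.lean`.
-/

set_option autoImplicit false
set_option linter.all false

namespace CR.C2

open CR.L7 (tb rtC allb isP6)

/-- five points `h 0, ..., h 4` (and the point `h 5` which is left out), the label map `q` from the
labels of the pattern to the labels of the type number `j`, and its inverse `qi` -/
inductive Fr where
  | mk (j q qi h : Nat) : Fr

noncomputable def Fr.j (f : Fr) : Nat := Fr.rec (motive := fun _ => Nat) (fun j _ _ _ => j) f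
noncomputable def Fr.q (f : Fr) : Nat := Fr.rec (motive := fun _ => Nat) (fun _ q _ _ => q) f
noncomputable def Fr.qi (f : Fr) : Nat := Fr.rec (motive := fun _ => Nat) (fun _ _ qi _ => qi) f
noncomputable def Fr.h (f : Fr) : Nat := Fr.rec (motive := fun _ => Nat) (fun _ _ _ h => h) f

/-- an octal digit -/
def dd (q d : Nat) : Nat := Nat.land (Nat.shiftRight q (Nat.mul 3 d)) 7

/-- the vector, in the frame, of a point with the star `w` -/
def ix (q h w : Nat) : Nat :=
  Nat.add (dd q (dd w (dd h 0))) (Nat.mul 8 (Nat.add (dd q (dd w (dd h 1))) (Nat.mul 8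
    (Nat.add (dd q (dd w (dd h 2))) (Nat.mul 8 (Nat.add (dd q (dd w (dd h 3))) (Nat.mul 8
      (dd q (dd w (dd h 4))))))))))

/-- the numbers less than eight -/
def n8 : List Nat := [0, 1, 2, 3, 4, 5, 6, 7]

/-- `qi` is the inverse of the map `q`, the labels less than 6 are preserved -/
noncomputable def okq (q qi : Nat) : Bool :=
  allb (fun a => cond (Nat.beq (dd qi (dd q a)) a)
    (cond (Nat.ble 6 a) true (Nat.ble (dd q a) 5)) false) n8

/-- one edge of a frame -/
noncomputable def okE (R T q h i j e : Nat) : Bool := Nat.beq (dd q (sl R (dd h i) (dd h j))) (dd T e)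

/-- the ten edges of a frame -/
noncomputable def okT (R T q h : Nat) : Bool :=
  cond (okE R T q h 0 1 0) (cond (okE R T q h 0 2 1) (cond (okE R T q h 1 2 2)
    (cond (okE R T q h 0 3 3) (cond (okE R T q h 1 3 4) (cond (okE R T q h 2 3 5)
      (cond (okE R T q h 0 4 6) (cond (okE R T q h 1 4 7) (cond (okE R T q h 2 4 8)
        (okE R T q h 3 4 9) false) false) false) false) false) false) false) false) false

/-- the validity of a frame for the pattern `R` -/
noncomputable def okFr (R : Nat) (T5 : Nat → Nat) (fr : Fr) : Bool :=
  cond (Nat.ble 526 fr.j) (cond (Nat.ble fr.j 1204) (cond (isP6 fr.h)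
    (cond (okq fr.q fr.qi) (okT R (T5 fr.j) fr.q fr.h) false) false) false) false

/-- the part of the star given by the entry `e` of the main frame -/
def unm (qi h e : Nat) : Nat :=
  Nat.add (Nat.add (Nat.add (Nat.add
    (Nat.shiftLeft (dd qi (dd e 0)) (Nat.mul 3 (dd h 0)))
    (Nat.shiftLeft (dd qi (dd e 1)) (Nat.mul 3 (dd h 1))))
    (Nat.shiftLeft (dd qi (dd e 2)) (Nat.mul 3 (dd h 2))))
    (Nat.shiftLeft (dd qi (dd e 3)) (Nat.mul 3 (dd h 3))))
    (Nat.shiftLeft (dd qi (dd e 4)) (Nat.mul 3 (dd h 4)))

/-- the star with the label `x` at the point which is left out by the main frame -/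
def st (qi h e x : Nat) : Nat := Nat.add (unm qi h e) (Nat.shiftLeft x (Nat.mul 3 (dd h 5)))

/-- the value `x` is given (as a literal) to `k` -/
noncomputable def frc (x : Nat) (k : Nat → Bool) : Bool :=
  Nat.rec (motive := fun _ => Bool) (k 0) (fun n _ => k (Nat.succ n)) x

/-- a property of the six labels -/
def all6 (p : Nat → Bool) : Bool :=
  cond (p 0) (cond (p 1) (cond (p 2) (cond (p 3) (cond (p 4) (p 5) false) false) false) false)
    false

/-- the star is excluded by a frame -/
noncomputable def excl (RT : Nat → List Nat) (fs : List Fr) (w : Nat) : Bool :=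
  List.rec (motive := fun _ => Bool) false
    (fun fr _ ih => cond (tb (rtC (RT fr.j)) (ix fr.q fr.h w)) ih true) fs

/-- the star `w` is in the list -/
noncomputable def mem0 (w : Nat) (E : List Nat) : Bool :=
  List.rec (motive := fun _ => Bool) false (fun e _ ih => cond (Nat.beq e w) true ih) E

/-- the star `w` is (modulo `8 ^ 6`) in the list -/
noncomputable def mem6 (w : Nat) (K : List Nat) : Bool :=
  List.rec (motive := fun _ => Bool) false
    (fun e _ ih => cond (Nat.beq (Nat.land e 262143) w) true ih) K

/-- the frames are valid -/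
noncomputable def okFrs (R : Nat) (T5 : Nat → Nat) (fs : List Fr) : Bool :=
  List.rec (motive := fun _ => Bool) true (fun fr _ ih => cond (okFr R T5 fr) ih false) fs

/-- the check of one star -/
noncomputable def chkS (RT : Nat → List Nat) (fs : List Fr) (E K : List Nat) (w : Nat) : Bool :=
  cond (excl RT fs w) true (cond (mem0 w E) true (mem6 w K))

/-- the check: every star is excluded by one of the frames `fs` or belongs to `E` or `K` -/
noncomputable def chk7 (T5 : Nat → Nat) (RT : Nat → List Nat) (R : Nat) (m : Fr) (fs : List Fr)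
    (E K : List Nat) : Bool :=
  cond (okFr R T5 m) (cond (okFrs R T5 fs)
    (allb (fun e => all6 (fun x => frc (st m.qi m.h e x) (chkS RT fs E K))) (RT m.j)) false) false

/-- the certificates of the list `K` -/
noncomputable def okK7 (ok : Nat → Nat → Bool) (R : Nat) (K : List Nat) : Bool :=
  List.rec (motive := fun _ => Bool) true
    (fun e _ ih => cond (ok (Nat.add R (Nat.shiftLeft (Nat.land e 262143) 45))
      (Nat.shiftRight e 18)) ih false) K

/-- the data of one rank: main frame, other frames, the stars with certificates -/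
inductive It where
  | mk (m : Fr) (fs : List Fr) (K : List Nat) : It

/-- the check of consecutive ranks -/
noncomputable def chkL (T5 : Nat → Nat) (RT : Nat → List Nat) (reps : Nat → Nat)
    (E : Nat → List Nat) (ok : Nat → Nat → Bool) (L : List It) : Nat → Bool :=
  List.rec (motive := fun _ => Nat → Bool) (fun _ => true)
    (fun I _ ih k => It.rec (motive := fun _ => Bool)
      (fun m fs K => cond (chk7 T5 RT (reps k) m fs (E k) K)
        (cond (okK7 ok (reps k) K) (ih (Nat.succ k)) false) false) I) L

end CR.C2
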