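import Pool.Agent.Lib.MP_6f5d36_co.Level7
import Pool.Agent.Lib.MP_6f5d36_co.FDefs2
import Pool.Agent.Lib.MP_6f5d36_co.C2.KerC

set_option autoImplicit false

/-!
# MP_6f5d36_co, case II : a seventh point with six big colours

`R` is the code of six points, `E` the list of the star vectors (six octal digits, the digit `i` is the
label of the edge to the point `i`) of the seventh point.  A frame describes five of the points in the
numbering of a type of the table: `CR.C2.okFr`.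
-/

namespace CR.C2

open CR.L7 (tb rtC allb allb_spec Pm isP6 isP6_pm cond_and cond_or od_add tb_eq)

theorem dd_eq (q d : ℕ) : dd q d = od q d := dg3_eq q d

theorem dd_lt (q d : ℕ) : dd q d < 8 := by rw [dd_eq]; exact od_lt _ _

theorem nest5 {a0 a1 a2 a3 a4 : ℕ} (h0 : a0 < 8) (h1 : a1 < 8) (h2 : a2 < 8) (h3 : a3 < 8)
    (h4 : a4 < 8) :
    a0 + 8 * (a1 + 8 * (a2 + 8 * (a3 + 8 * a4))) < 8 ^ 5 ∧
    od (a0 + 8 * (a1 + 8 * (a2 + 8 * (a3 + 8 * a4)))) 0 = a0 ∧
    od (a0 + 8 * (a1 + 8 * (a2 + 8 * (a3 + 8 * a4)))) 1 = a1 ∧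
    od (a0 + 8 * (a1 + 8 * (a2 + 8 * (a3 + 8 * a4)))) 2 = a2 ∧
    od (a0 + 8 * (a1 + 8 * (a2 + 8 * (a3 + 8 * a4)))) 3 = a3 ∧
    od (a0 + 8 * (a1 + 8 * (a2 + 8 * (a3 + 8 * a4)))) 4 = a4 := by
  unfold od
  norm_num
  omega

theorem ix_spec (q h w : ℕ) : ix q h w < 8 ^ 5 ∧
    ∀ i, i < 5 → od (ix q h w) i = od q (od w (od h i)) := by
  have key := nest5 (dd_lt q (dd w (dd h 0))) (dd_lt q (dd w (dd h 1))) (dd_lt q (dd w (dd h 2)))
    (dd_lt q (dd w (dd h 3))) (dd_lt q (dd w (dd h 4)))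
  have e : ix q h w = dd q (dd w (dd h 0)) + 8 * (dd q (dd w (dd h 1)) + 8 *
    (dd q (dd w (dd h 2)) + 8 * (dd q (dd w (dd h 3)) + 8 * dd q (dd w (dd h 4))))) := rfl
  rw [e]
  obtain ⟨k0, k1, k2, k3, k4, k5⟩ := key
  refine ⟨k0, fun i hi => ?_⟩
  simp only [← dd_eq] at k1 k2 k3 k4 k5 ⊢
  interval_cases i
  · exact k1
  · exact k2
  · exact k3
  · exact k4
  · exact k5

theorem okq_spec {q qi : ℕ} (h : okq q qi = true) :
    (∀ a, a < 8 → od qi (od q a) = a) ∧ (∀ a, a < 6 → od q a < 6) := by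
  have h1 := allb_spec _ _ h
  have hm : ∀ a, a < 8 → a ∈ n8 := by decide
  constructor
  · intro a ha
    obtain ⟨h2, -⟩ := cond_and (h1 a (hm a ha))
    have := Nat.eq_of_beq_eq_true h2
    simpa only [dd_eq] using this
  · intro a ha
    obtain ⟨-, h2⟩ := cond_and (h1 a (hm a (by omega)))
    rcases cond_or h2 with h3 | h3
    · have := Nat.le_of_ble_eq_true h3
      omega
    · have := Nat.le_of_ble_eq_true h3
      simp only [dd_eq] at this
      omega

theorem okT_spec {R T q h : ℕ} (ht : okT R T q h = true) :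
    ∀ j, j < 5 → ∀ i, i < j → od q (sl R (od h i) (od h j)) = lab T i j := by
  unfold okT at ht
  obtain ⟨h0, ht⟩ := cond_and ht
  obtain ⟨h1, ht⟩ := cond_and ht
  obtain ⟨h2, ht⟩ := cond_and ht
  obtain ⟨h3, ht⟩ := cond_and ht
  obtain ⟨h4, ht⟩ := cond_and ht
  obtain ⟨h5, ht⟩ := cond_and ht
  obtain ⟨h6, ht⟩ := cond_and ht
  obtain ⟨h7, ht⟩ := cond_and ht
  obtain ⟨h8, h9⟩ := cond_and ht
  have key : ∀ i j e, okE R T q h i j e = true → e = eo i j →
      od q (sl R (od h i) (od h j)) = lab T i j := by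
    intro i j e h1 h2
    have := Nat.eq_of_beq_eq_true h1
    simp only [dd_eq] at this
    rw [lab_eq_od, ← h2]
    exact this
  intro j hj i hi
  have : (i = 0 ∧ j = 1) ∨ (i = 0 ∧ j = 2) ∨ (i = 1 ∧ j = 2) ∨ (i = 0 ∧ j = 3) ∨ (i = 1 ∧ j = 3) ∨
      (i = 2 ∧ j = 3) ∨ (i = 0 ∧ j = 4) ∨ (i = 1 ∧ j = 4) ∨ (i = 2 ∧ j = 4) ∨
      (i = 3 ∧ j = 4) := by omega
  rcases this with ⟨rfl, rfl⟩ | ⟨rfl, rfl⟩ | ⟨rfl, rfl⟩ | ⟨rfl, rfl⟩ | ⟨rfl, rfl⟩ | ⟨rfl, rfl⟩ |
    ⟨rfl, rfl⟩ | ⟨rfl, rfl⟩ | ⟨rfl, rfl⟩ | ⟨rfl, rfl⟩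
  · exact key _ _ _ h0 rfl
  · exact key _ _ _ h1 rfl
  · exact key _ _ _ h2 rfl
  · exact key _ _ _ h3 rfl
  · exact key _ _ _ h4 rfl
  · exact key _ _ _ h5 rfl
  · exact key _ _ _ h6 rfl
  · exact key _ _ _ h7 rfl
  · exact key _ _ _ h8 rfl
  · exact key _ _ _ h9 rfl

/-- the list `RT` contains all the sixth points of occurrences of `T` -/
def Comp (F : Conf 9) (T : ℕ) (RT : List ℕ) : Prop :=
  ∀ (f : ℕ → Fin 9) (g : ℕ → Fin 8) (v : ℕ), v < 8 ^ 5 → (∀ i, i < 5 → od v i < 6) →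
    Occ F 6 f g (T + v * 8 ^ 10) → ∃ e ∈ RT, e &&& 32767 = v

/-- the tables -/
structure Tabs (F : Conf 9) (T5 : ℕ → ℕ) (RT : ℕ → List ℕ) : Prop where
  lt : ∀ j, T5 j < 8 ^ 10
  comp : ∀ j, 526 ≤ j → j < 1205 → Comp F (T5 j) (RT j)

theorem bit_of_mem {RT : List ℕ} {v : ℕ} (h : ∃ e ∈ RT, e &&& 32767 = v) :
    tb (rtC RT) v = true := by
  obtain ⟨e, he, rfl⟩ := h
  rw [tb_eq]
  induction RT with
  | nil => simp at he
  | cons a L ih =>
    rw [CR.L7.rtC_cons, Nat.testBit_or, Bool.or_eq_true, Nat.one_shiftLeft, Nat.testBit_two_pow,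
      decide_eq_true_eq]
    rcases List.mem_cons.1 he with rfl | he
    · exact Or.inl rfl
    · exact Or.inr (ih he)

/-- the general form of the use of a frame: the labels `l i j` of the pairs of the five points
`f (pt i)` and the star `w` of a further point `t` -/
theorem occ_frame {F : Conf 9} {f : ℕ → Fin 9} {g : ℕ → Fin 8} {t : Fin 9} {pt : ℕ → ℕ}
    {l : ℕ → ℕ → ℕ} {T q qi h w : ℕ} (hT : T < 8 ^ 10) (hq : okq q qi = true)
    (ginj : ∀ a b, a < 8 → b < 8 → g a = g b → a = b) (hpt : ∀ i, i < 5 → pt i = od h i)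
    (hinj : ∀ i j, i < 5 → j < 5 → f (pt i) = f (pt j) → i = j) (hne : ∀ i, i < 5 → f (pt i) ≠ t)
    (hl : ∀ j, j < 5 → ∀ i, i < j → F.c (f (pt i)) (f (pt j)) = g (l i j) ∧ l i j < 8 ∧
      od q (l i j) = lab T i j)
    (hw : ∀ i, i < 5 → F.c (f (pt i)) t = g (od w (pt i))) :
    Occ F 6 (fun i => if i < 5 then f (pt i) else t) (fun b => g (od qi b))
      (T + ix q h w * 8 ^ 10) := by
  obtain ⟨q1, q2⟩ := okq_spec hq
  obtain ⟨x1, x2⟩ := ix_spec q h w
  -- `qi` is injective on the labels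
  have qsurj : ∀ b, b < 8 → ∃ a, a < 8 ∧ od q a = b := by
    have h1 : Function.Injective (fun a : Fin 8 => (⟨od q a.val, od_lt _ _⟩ : Fin 8)) := by
      intro a b hab
      have h2 := Fin.mk.inj_iff.1 hab
      have h3 := congrArg (od qi) h2
      rw [q1 _ a.isLt, q1 _ b.isLt] at h3
      exact Fin.ext h3
    intro b hb
    obtain ⟨a, ha⟩ := (Finite.injective_iff_surjective.1 h1) ⟨b, hb⟩
    exact ⟨a.val, a.isLt, Fin.mk.inj_iff.1 ha⟩
  refine ⟨?_, ?_, ?_⟩
  · intro i j hi hj hij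
    by_cases h1 : i < 5
    · by_cases h2 : j < 5
      · simp only [if_pos h1, if_pos h2] at hij
        exact hinj i j h1 h2 hij
      · simp only [if_pos h1, if_neg h2] at hij
        exact absurd hij (hne i h1)
    · by_cases h2 : j < 5
      · simp only [if_neg h1, if_pos h2] at hij
        exact absurd hij.symm (hne j h2)
      · omega
  · intro a b ha hb hab
    obtain ⟨a', ha', rfl⟩ := qsurj a ha
    obtain ⟨b', hb', rfl⟩ := qsurj b hb
    have hab2 : g (od qi (od q a')) = g (od qi (od q b')) := hab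
    rw [q1 a' ha', q1 b' hb'] at hab2
    rw [ginj a' b' ha' hb' hab2]
  · intro i j hij hj
    have h1 : i < 5 := by omega
    rw [lab_eq_od, od_add _ _ _ _ hT]
    by_cases h2 : j < 5
    · obtain ⟨c1, c2, c3⟩ := hl j h2 i hij
      have he : eo i j < 10 := by
        unfold eo
        interval_cases j <;> omega
      rw [if_pos he]
      simp only [if_pos h1, if_pos h2]
      rw [← lab_eq_od, ← c3, q1 _ c2]
      exact c1
    · have h3 : j = 5 := by omega
      subst h3
      have he : eo i 5 = 10 + i := by unfold eo; omega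
      have h4 : ¬ (10 + i < 10) := by omega
      have h5 : ¬ (5 < 5) := by omega
      rw [he, if_neg h4, Nat.add_sub_cancel_left, x2 i h1, q1 _ (od_lt _ _)]
      show F.c (if i < 5 then f (pt i) else t) (if 5 < 5 then f (pt 5) else t) = _
      rw [if_pos h1, if_neg h5, hw i h1, hpt i h1]

/-- a star of six big labels -/
def StarAll (F : Conf 9) (f : ℕ → Fin 9) (g : ℕ → Fin 8) (w : ℕ) (t : Fin 9) : Prop :=
  ∀ i, i < 6 → F.c (f i) t = g (od w i)

/-- the star of a seventh point is allowed in a frame -/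
theorem frame_mem {F : Conf 9} {T5 : ℕ → ℕ} {RT : ℕ → List ℕ} (hTab : Tabs F T5 RT)
    {f : ℕ → Fin 9} {g : ℕ → Fin 8} {R w : ℕ} {t : Fin 9} {fr : Fr} (hocc : Occ F 6 f g R)
    (hF : okFr R T5 fr = true) (ht : ∀ i, i < 6 → f i ≠ t) (hw : StarAll F f g w t)
    (hw6 : ∀ i, i < 6 → od w i < 6) :
    ∃ e ∈ RT fr.j, e &&& 32767 = ix fr.q fr.h w := by
  obtain ⟨hj1, hF⟩ := cond_and hF
  obtain ⟨hj2, hF⟩ := cond_and hF
  obtain ⟨hp, hF⟩ := cond_and hF
  obtain ⟨h1, h2⟩ := cond_and hF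
  have hj1 := Nat.le_of_ble_eq_true hj1
  have hj2 := Nat.le_of_ble_eq_true hj2
  have hp := isP6_pm hp
  have hd : ∀ i, i < 5 → od fr.h i < 6 := fun i hi => by
    have := hp.lt i (by omega)
    rwa [dg3_eq] at this
  have hinj : ∀ i j, i < 5 → j < 5 → od fr.h i = od fr.h j → i = j := fun i j hi hj h => by
    have := hp.inj i j (by omega) (by omega)
    rw [dg3_eq, dg3_eq] at this
    exact this h
  have ho : Occ F 6 (fun i => if i < 5 then f (od fr.h i) else t) (fun b => g (od fr.qi b))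
      (T5 fr.j + ix fr.q fr.h w * 8 ^ 10) := by
    apply occ_frame (pt := fun i => od fr.h i)
      (l := fun i j => labs R (od fr.h i) (od fr.h j)) (hTab.lt _) h1 hocc.ginj (fun _ _ => rfl)
    · intro i j hi hj hij
      exact hinj i j hi hj (hocc.inj _ _ (by have := hd i hi; omega) (by have := hd j hj; omega) hij)
    · intro i hi
      exact ht _ (hd i hi)
    · intro j hj i hij
      have hne : od fr.h i ≠ od fr.h j := fun h => by
        have := hinj i j (by omega) hj h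
        omega
      have h3 := okT_spec h2 j hj i hij
      rw [sl_eq R _ _ (by have := hd i (by omega); omega) (by have := hd j hj; omega) hne] at h3
      exact ⟨hocc.col' (hd i (by omega)) (hd j hj) hne, labs_lt _ _ _, h3⟩
    · intro i hi
      exact hw _ (hd i hi)
  obtain ⟨x1, x2⟩ := ix_spec fr.q fr.h w
  have hdig : ∀ i, i < 5 → od (ix fr.q fr.h w) i < 6 := by
    intro i hi
    rw [x2 i hi]
    exact (okq_spec h1).2 _ (hw6 _ (hd i hi))
  exact hTab.comp _ hj1 (by omega) _ _ _ x1 hdig ho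

/-! ### The enumeration -/

theorem sum_digits (w : ℕ) (hw : w < 8 ^ 6) :
    ∑ a ∈ Finset.range 6, od w a * 8 ^ a = w := by
  have h := L9.pre_od w 6
  rw [Nat.mod_eq_of_lt hw] at h
  have h2 : ∑ a ∈ Finset.range 6, od w a * 8 ^ a = L9.pre (od w) 6 := by
    simp only [Finset.sum_range_succ, Finset.sum_range_zero, L9.pre]
  exact h2.trans h

theorem st_eq {q qi h e w : ℕ} (hw : w < 8 ^ 6) (hp : Pm 6 h) (hq : okq q qi = true)
    (he : e &&& 32767 = ix q h w) : st qi h e (od w (od h 5)) = w := by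
  obtain ⟨x1, x2⟩ := ix_spec q h w
  obtain ⟨q1, -⟩ := okq_spec hq
  have hd : ∀ i, i < 5 → od e i = od q (od w (od h i)) := by
    intro i hi
    rw [← x2 i hi, ← he]
    have h1 : e &&& 32767 = e % 8 ^ 5 := by
      have := Nat.and_two_pow_sub_one_eq_mod e 15
      norm_num at this ⊢
      exact this
    rw [h1, CR.L7.od_mod, if_pos hi]
  have h2 : ∀ a b, Nat.shiftLeft a (Nat.mul 3 b) = a * 8 ^ b := by
    intro a b
    show a <<< (3 * b) = _
    rw [Nat.shiftLeft_eq, pow_mul]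
    norm_num
  have h3 : ∀ i, i < 5 → Nat.shiftLeft (dd qi (dd e i)) (Nat.mul 3 (dd h i)) =
      od w (od h i) * 8 ^ (od h i) := by
    intro i hi
    rw [h2, dd_eq, dd_eq, dd_eq, hd i hi, q1 _ (od_lt _ _)]
  have h4 : st qi h e (od w (od h 5)) = ∑ i ∈ Finset.range 6, od w (od h i) * 8 ^ (od h i) := by
    unfold st unm
    rw [h3 0 (by norm_num), h3 1 (by norm_num), h3 2 (by norm_num), h3 3 (by norm_num),
      h3 4 (by norm_num), h2, dd_eq]
    simp only [Finset.sum_range_succ, Finset.sum_range_zero, Nat.zero_add]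
    rfl
  rw [h4]
  have hinj : ∀ i j, i < 6 → j < 6 → od h i = od h j → i = j := fun i j hi hj h => by
    have := hp.inj i j (by omega) (by omega)
    rw [dg3_eq, dg3_eq] at this
    exact this h
  have h5 : (Finset.range 6).image (fun i => od h i) = Finset.range 6 := by
    ext a
    simp only [Finset.mem_image, Finset.mem_range]
    constructor
    · rintro ⟨i, hi, rfl⟩
      have := hp.lt i hi
      rwa [dg3_eq] at this
    · intro ha
      obtain ⟨i, hi, h6⟩ := hp.surj a ha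
      exact ⟨i, hi, by rw [← dg3_eq]; exact h6⟩
  conv_rhs => rw [← sum_digits w hw, ← h5]
  rw [Finset.sum_image]
  intro i hi j hj hij
  rw [Finset.mem_coe, Finset.mem_range] at hi hj
  exact hinj i j hi hj hij

theorem all6_spec {p : ℕ → Bool} (h : all6 p = true) : ∀ x, x < 6 → p x = true := by
  obtain ⟨h0, h⟩ := cond_and h
  obtain ⟨h1, h⟩ := cond_and h
  obtain ⟨h2, h⟩ := cond_and h
  obtain ⟨h3, h⟩ := cond_and h
  obtain ⟨h4, h5⟩ := cond_and h
  intro x hx
  interval_cases x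
  · exact h0
  · exact h1
  · exact h2
  · exact h3
  · exact h4
  · exact h5

theorem excl_cons (RT : ℕ → List ℕ) (fr : Fr) (fs : List Fr) (w : ℕ) :
    excl RT (fr :: fs) w = cond (tb (rtC (RT fr.j)) (ix fr.q fr.h w)) (excl RT fs w) true := rfl

theorem mem0_spec {w : ℕ} : ∀ {E : List ℕ}, mem0 w E = true → w ∈ E
  | [], h => absurd h Bool.false_ne_true
  | a :: E, h => by
    have h' : cond (Nat.beq a w) true (mem0 w E) = true := h
    rcases cond_or h' with h1 | h1
    · rw [Nat.eq_of_beq_eq_true h1]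
      exact List.mem_cons_self
    · exact List.mem_cons_of_mem _ (mem0_spec h1)

theorem mem6_spec {w : ℕ} : ∀ {K : List ℕ}, mem6 w K = true → ∃ e ∈ K, e &&& 262143 = w
  | [], h => absurd h Bool.false_ne_true
  | a :: K, h => by
    have h' : cond (Nat.beq (Nat.land a 262143) w) true (mem6 w K) = true := h
    rcases cond_or h' with h1 | h1
    · exact ⟨a, List.mem_cons_self, Nat.eq_of_beq_eq_true h1⟩
    · obtain ⟨e, he, h2⟩ := mem6_spec h1
      exact ⟨e, List.mem_cons_of_mem _ he, h2⟩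

theorem okFrs_spec {R : ℕ} {T5 : ℕ → ℕ} : ∀ {fs : List Fr}, okFrs R T5 fs = true →
    ∀ fr ∈ fs, okFr R T5 fr = true
  | [], _, fr, h => absurd h List.not_mem_nil
  | a :: fs, h, fr, hfr => by
    have h' : cond (okFr R T5 a) (okFrs R T5 fs) false = true := h
    obtain ⟨h1, h2⟩ := cond_and h'
    rcases List.mem_cons.1 hfr with rfl | hfr
    · exact h1
    · exact okFrs_spec h2 fr hfr

/-- the labels of big colours -/
theorem good_lt {g : ℕ → Fin 8} (hg : GoodG g)
    (hinj : ∀ a b, a < 8 → b < 8 → g a = g b → a = b) {a : ℕ} (ha : a < 8)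
    (h2 : 2 ≤ (g a).val) : a < 6 := by
  by_contra h6
  have h6 := Nat.not_lt.1 h6
  have h1 : (insert a (Finset.range 6)).card ≤ (Finset.Icc 2 7).card := by
    apply Finset.card_le_card_of_injOn (fun b => (g b).val)
    · intro b hb
      rw [Finset.mem_coe, Finset.mem_insert, Finset.mem_range] at hb
      rw [Finset.mem_coe, Finset.mem_Icc]
      have := (g b).isLt
      rcases hb with rfl | hb
      · exact ⟨h2, by simp only; omega⟩
      · exact ⟨hg b hb, by simp only; omega⟩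
    · intro b hb c hc hbc
      rw [Finset.mem_coe, Finset.mem_insert, Finset.mem_range] at hb hc
      exact hinj b c (by omega) (by omega) (Fin.ext hbc)
  rw [Finset.card_insert_of_notMem (by rw [Finset.mem_range]; omega), Finset.card_range,
    Nat.card_Icc] at h1
  omega

theorem exists_star {F : Conf 9} {f : ℕ → Fin 9} {g : ℕ → Fin 8} (hg : GoodG g)
    (hinj : ∀ a b, a < 8 → b < 8 → g a = g b → a = b) {t : Fin 9}
    (hb : ∀ i, i < 6 → 2 ≤ (F.c (f i) t).val) :
    ∃ w, w < 8 ^ 6 ∧ (∀ i, i < 6 → od w i < 6) ∧ StarAll F f g w t := by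
  choose lbl hl using L9.surj8 hinj
  have h8 : ∀ e, (fun i => lbl (F.c (f i) t)) e < 8 := fun e => (hl _).1
  refine ⟨L9.pre (fun i => lbl (F.c (f i) t)) 6, L9.pre_lt h8 6, ?_, ?_⟩
  · intro i hi
    rw [L9.od_pre h8 hi]
    exact good_lt hg hinj (hl _).1 (by rw [(hl _).2]; exact hb i hi)
  · intro i hi
    rw [L9.od_pre h8 hi]
    exact (hl _).2.symm

/-- seven points -/
theorem occ7 {F : Conf 9} {f : ℕ → Fin 9} {g : ℕ → Fin 8} {R w : ℕ} {t : Fin 9} (hR : R < 8 ^ 15)
    (hocc : Occ F 6 f g R) (ht : ∀ i, i < 6 → f i ≠ t) (hw : StarAll F f g w t) :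
    Occ F 7 (fun i => if i < 6 then f i else t) g (R + w * 8 ^ 15) := by
  refine ⟨?_, hocc.ginj, ?_⟩
  · intro i j hi hj hij
    by_cases h1 : i < 6
    · by_cases h2 : j < 6
      · simp only [if_pos h1, if_pos h2] at hij
        exact hocc.inj i j h1 h2 hij
      · simp only [if_pos h1, if_neg h2] at hij
        exact absurd hij (ht i h1)
    · by_cases h2 : j < 6
      · simp only [if_neg h1, if_pos h2] at hij
        exact absurd hij.symm (ht j h2)
      · omega
  · intro i j hij hj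
    have h1 : i < 6 := by omega
    rw [lab_eq_od, od_add _ _ _ _ hR]
    by_cases h2 : j < 6
    · have he : eo i j < 15 := by
        unfold eo
        interval_cases j <;> omega
      rw [if_pos he]
      simp only [if_pos h1, if_pos h2]
      rw [← lab_eq_od]
      exact hocc.col i j hij h2
    · have h3 : j = 6 := by omega
      subst h3
      have he : eo i 6 = 15 + i := by unfold eo; omega
      have h4 : ¬ (15 + i < 15) := by omega
      have h5 : ¬ (6 < 6) := by omega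
      rw [he, if_neg h4, Nat.add_sub_cancel_left]
      show F.c (if i < 6 then f i else t) (if 6 < 6 then f 6 else t) = _
      rw [if_pos h1, if_neg h5]
      exact hw i h1

theorem frc_eq (x : ℕ) (k : ℕ → Bool) : frc x k = k x := by
  cases x <;> rfl

theorem okK7_spec {ok : ℕ → ℕ → Bool} {R : ℕ} : ∀ {K : List ℕ}, okK7 ok R K = true →
    ∀ e ∈ K, ok (R + (e &&& 262143) * 8 ^ 15) (e >>> 18) = true
  | [], _, e, h => absurd h List.not_mem_nil
  | a :: K, h, e, he => by
    have h' : cond (ok (R + (a &&& 262143) <<< 45) (a >>> 18)) (okK7 ok R K) false = true := h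
    obtain ⟨h1, h2⟩ := cond_and h'
    rcases List.mem_cons.1 he with rfl | he
    · rw [Nat.shiftLeft_eq] at h1
      exact h1
    · exact okK7_spec h2 e he

/-- **level 7 of case II** -/
theorem v7c_of_chk {T5 : ℕ → ℕ} {RT : ℕ → List ℕ} (hTab : ∀ F, Tabs F T5 RT)
    {ok : ℕ → ℕ → Bool} (hok : ∀ P C, ok P C = true → ¬ Realk 7 8 P) {R : ℕ} {m : Fr}
    {fs : List Fr} {E K : List ℕ} (hR : R < 8 ^ 15) (h : chk7 T5 RT R m fs E K = true)
    (hK : okK7 ok R K = true) : V7c R E := by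
  intro F f g hocc hg t ht hb
  obtain ⟨w, hw, hw6, hst⟩ := exists_star (F := F) (f := f) hg hocc.ginj hb
  obtain ⟨h1, h⟩ := cond_and h
  obtain ⟨h2, h⟩ := cond_and h
  -- the entry of the main frame
  obtain ⟨e, he, hev⟩ := frame_mem (hTab F) hocc h1 ht hst hw6
  have hm : Pm 6 m.h := by
    obtain ⟨-, h1⟩ := cond_and h1
    obtain ⟨-, h1⟩ := cond_and h1
    obtain ⟨h1, -⟩ := cond_and h1
    exact isP6_pm h1
  have hmq : okq m.q m.qi = true := by
    obtain ⟨-, h1⟩ := cond_and h1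
    obtain ⟨-, h1⟩ := cond_and h1
    obtain ⟨-, h1⟩ := cond_and h1
    exact (cond_and h1).1
  have hs : st m.qi m.h e (od w (od m.h 5)) = w := st_eq hw hm hmq hev
  have h5 : od m.h 5 < 6 := by
    have := hm.lt 5 (by norm_num)
    rwa [dg3_eq] at this
  have h6 := all6_spec (allb_spec _ _ h e he) (od w (od m.h 5)) (hw6 _ h5)
  rw [hs, frc_eq] at h6
  -- not excluded
  have hnx : ∀ L : List Fr, (∀ fr ∈ L, okFr R T5 fr = true) → excl RT L w = false := by
    intro L
    induction L with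
    | nil => intro _; rfl
    | cons fr L ih =>
      intro hL
      rw [excl_cons, bit_of_mem (frame_mem (hTab F) hocc (hL fr List.mem_cons_self) ht hst hw6),
        cond_true]
      exact ih (fun fr' h' => hL fr' (List.mem_cons_of_mem _ h'))
  unfold chkS at h6
  rw [hnx fs (okFrs_spec h2), cond_false] at h6
  rcases cond_or h6 with h7 | h7
  · exact ⟨w, mem0_spec h7, fun i hi => ⟨hw6 i hi, hst i hi⟩⟩
  · exfalso
    obtain ⟨e', he', hw'⟩ := mem6_spec h7
    have h8 := okK7_spec hK e' he'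
    rw [hw'] at h8
    exact hok _ _ h8 (occ7 hR hocc ht hst).real

/-- the tables -/
theorem tabs_of {F : Conf 9} {nr : ℕ} {T5 E6 T4 E5 reps : ℕ → ℕ} {RT : ℕ → List ℕ}
    (hF : CR.L7.TabF F T5 E6 T4 E5) (hT : ∀ j, T5 j < 8 ^ 10)
    (h : ∀ j, 526 ≤ j → j ≤ 1204 → CR.L7.rtOK nr T5 E6 reps j (RT j) = true) :
    Tabs F T5 RT where
  lt := hT
  comp := by
    intro j h1 h2 f g v hv hd ho
    obtain ⟨-, e, he, hev, -⟩ := CR.L7.rt_complete hF h2 (h j h1 (by omega)) hv hd ho
    exact ⟨e, he, hev⟩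

end CR.C2
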