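import Pool.Agent.Lib.MP_6f5d36_co.C2.KerC

/-!
# MP_6f5d36_co, case (ii) : the definitions of the checker of level 9 (for the kernel)

`P` is the code of eight points (28 octal digits, the digit of the bad edge `67` is 6), the ninth
point has the star code `w` (eight octal digits, the digit 6 at the two bad edges).
The soundness is in `C2/Nine.lean`.
-/

set_option autoImplicit false
set_option linter.all false

namespace CR.C2

open CR.L7 (tb rtC allb)

/-- the eight octal digits are a permutation of `0, ..., 7` -/
def isP8 (w : Nat) : Bool :=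
  Nat.beq (Nat.lor (Nat.lor (Nat.lor (Nat.lor (Nat.lor (Nat.lor (Nat.lor
    (Nat.shiftLeft 1 (Nat.land w 7))
    (Nat.shiftLeft 1 (Nat.land (Nat.shiftRight w 3) 7)))
    (Nat.shiftLeft 1 (Nat.land (Nat.shiftRight w 6) 7)))
    (Nat.shiftLeft 1 (Nat.land (Nat.shiftRight w 9) 7)))
    (Nat.shiftLeft 1 (Nat.land (Nat.shiftRight w 12) 7)))
    (Nat.shiftLeft 1 (Nat.land (Nat.shiftRight w 15) 7)))
    (Nat.shiftLeft 1 (Nat.land (Nat.shiftRight w 18) 7)))
    (Nat.shiftLeft 1 (Nat.land (Nat.shiftRight w 21) 7))) 255

/-- the validity of a frame: `h` is a permutation of the eight points, the last two are `a` and `b` in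
some order, the first five are the frame; the edges of the frame are big -/
noncomputable def okF9 (P : Nat) (T5 : Nat → Nat) (a b : Nat) (fr : Fr) : Bool :=
  cond (Nat.ble 526 fr.j) (cond (Nat.ble fr.j 1204) (cond (isP8 fr.h)
    (cond (Nat.beq (Nat.add (Nat.shiftLeft 1 (dd fr.h 6)) (Nat.shiftLeft 1 (dd fr.h 7)))
      (Nat.add (Nat.shiftLeft 1 a) (Nat.shiftLeft 1 b)))
      (cond (CR.L7.lt6 (T5 fr.j)) (cond (okq fr.q fr.qi) (okT P (T5 fr.j) fr.q fr.h) false)
        false) false) false) false) false

/-- the frames are valid -/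
noncomputable def okFs9 (P : Nat) (T5 : Nat → Nat) (a b : Nat) (fs : List Fr) : Bool :=
  List.rec (motive := fun _ => Bool) true
    (fun fr _ ih => cond (okF9 P T5 a b fr) ih false) fs

/-- the counts of the labels in the `n` lowest digits, in fields of six bits -/
noncomputable def cnF (n : Nat) : Nat → Nat :=
  Nat.rec (motive := fun _ => Nat → Nat) (fun _ => 0)
    (fun _ ih P => Nat.add (Nat.shiftLeft 1 (Nat.mul 6 (Nat.land P 7)))
      (ih (Nat.shiftRight P 3))) n

/-- the contribution of one digit -/
def c1 (x : Nat) : Nat := Nat.shiftLeft 1 (Nat.mul 6 x)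

/-- the counts of the five labels of the entry `e` -/
def s5 (qi e : Nat) : Nat :=
  Nat.add (Nat.add (Nat.add (Nat.add (c1 (dd qi (dd e 0))) (c1 (dd qi (dd e 1))))
    (c1 (dd qi (dd e 2)))) (c1 (dd qi (dd e 3)))) (c1 (dd qi (dd e 4)))

/-- two to the field number `l` -/
def pw (F l : Nat) : Nat := Nat.shiftLeft 1 (Nat.land (Nat.shiftRight F (Nat.mul 6 l)) 63)

/-- the sum of the powers -/
def psum (F : Nat) : Nat :=
  Nat.add (Nat.add (Nat.add (Nat.add (Nat.add (pw F 0) (pw F 1)) (pw F 2)) (pw F 3)) (pw F 4))
    (pw F 5)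

/-- the star with the label `x` at the point number 5 of the frame, 6 at the points 6 and 7 -/
def st9 (qi h e x : Nat) : Nat :=
  Nat.add (Nat.add (Nat.add (unm qi h e) (Nat.shiftLeft x (Nat.mul 3 (dd h 5))))
    (Nat.shiftLeft 6 (Nat.mul 3 (dd h 6)))) (Nat.shiftLeft 6 (Nat.mul 3 (dd h 7)))

/-- the reasons: four equal edges, three apexes, certificate of seven points -/
inductive Kr where
  | deg (w t : Nat) : Kr
  | apx (w t : Nat) : Kr
  | c7 (w h C : Nat) : Kr

/-- the star of the reason -/
noncomputable def Kr.w (r : Kr) : Nat :=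
  Kr.rec (motive := fun _ => Nat) (fun w _ => w) (fun w _ => w) (fun w _ _ => w) r

/-- the star has a reason -/
noncomputable def memK (w : Nat) (K : List Kr) : Bool :=
  List.rec (motive := fun _ => Bool) false (fun r _ ih => cond (Nat.beq r.w w) true ih) K

/-- the check of one star -/
noncomputable def chkW (RT : Nat → List Nat) (fs : List Fr) (X : List Nat) (K : List Kr)
    (w : Nat) : Bool :=
  cond (excl RT fs w) true (cond (memK w K) true (mem0 w X))

/-- the check of one entry: `F` = counts with the entry, `D` = what is left -/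
noncomputable def chkE (RT : Nat → List Nat) (m : Fr) (fs : List Fr) (X : List Nat) (K : List Kr)
    (e F D : Nat) : Bool :=
  cond (Nat.beq (Nat.land D (Nat.pred D)) 0)
    (all6 (fun x => cond (Nat.beq (pw F x) D)
      (frc (st9 m.qi m.h e x) (chkW RT fs X K)) true)) true

/-- the check of one pair of bad edges at the ninth point, `B` = counts of the eight points -/
noncomputable def chkAB (T5 : Nat → Nat) (RT : Nat → List Nat) (P B a b : Nat) (m : Fr)
    (fs : List Fr) (X : List Nat) (K : List Kr) : Bool :=
  cond (okF9 P T5 a b m) (cond (okFs9 P T5 a b fs)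
    (allb (fun e => frc (Nat.add B (s5 m.qi e)) (fun F => frc (Nat.sub 504 (psum F))
      (chkE RT m fs X K e F))) (RT m.j)) false) false

/-- a hexadecimal digit -/
def hx (t i : Nat) : Nat := Nat.land (Nat.shiftRight t (Nat.mul 4 i)) 15

/-- a known label -/
noncomputable def kl (N a b : Nat) (k : Nat → Bool) : Bool :=
  frc (sl N a b) (fun l => cond (Nat.ble l 5) (k l) false)

/-- five different points less than 9 -/
def dis5 (a b c d e : Nat) : Bool :=
  cond (Nat.beq a b) false (cond (Nat.beq a c) false (cond (Nat.beq a d) false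
    (cond (Nat.beq a e) false (cond (Nat.beq b c) false (cond (Nat.beq b d) false
      (cond (Nat.beq b e) false (cond (Nat.beq c d) false (cond (Nat.beq c e) false
        (cond (Nat.beq d e) false (cond (Nat.ble a 8) (cond (Nat.ble b 8) (cond (Nat.ble c 8)
          (cond (Nat.ble d 8) (Nat.ble e 8) false) false) false) false))))))))))

/-- the point `v` has four equal edges -/
noncomputable def rdeg (N v a b c d : Nat) : Bool :=
  cond (dis5 v a b c d) (kl N v a (fun l => cond (Nat.beq (sl N v b) l)
    (cond (Nat.beq (sl N v c) l) (Nat.beq (sl N v d) l) false) false)) false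

/-- equal known edges from `u` and `v` to `a` -/
noncomputable def eqe (N u v a : Nat) : Bool := kl N u a (fun l => Nat.beq (sl N v a) l)

/-- the points `u`, `v` have three apexes -/
noncomputable def rapx (N u v a b c : Nat) : Bool :=
  cond (dis5 u v a b c) (cond (eqe N u v a) (cond (eqe N u v b) (eqe N u v c) false) false) false

/-- the pattern on the six points `h` -/
noncomputable def c6 (P h : Nat) (L : List Nat) : Nat → Nat :=
  List.rec (motive := fun _ => Nat → Nat) (fun o => o) (fun q _ ih o =>
    ih (Nat.lor o (Nat.shiftLeft (el P h q) (Nat.shiftRight q 10)))) L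

/-- the star of the ninth point at the six points `h` -/
def w6 (w h : Nat) : Nat :=
  Nat.add (dd w (dd h 0)) (Nat.mul 8 (Nat.add (dd w (dd h 1)) (Nat.mul 8
    (Nat.add (dd w (dd h 2)) (Nat.mul 8 (Nat.add (dd w (dd h 3)) (Nat.mul 8
      (Nat.add (dd w (dd h 4)) (Nat.mul 8 (dd w (dd h 5)))))))))))

/-- the bits of the digits 6 and 7 -/
def m6 (N : Nat) : Nat :=
  Nat.land (Nat.land (Nat.shiftRight N 1) (Nat.shiftRight N 2)) 0o111111111111111111111

/-- at most one of the 21 digits is 6 or 7 -/
def one6 (N : Nat) : Bool := Nat.beq (Nat.land (m6 N) (Nat.pred (m6 N))) 0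

/-- the points `h` are six different points -/
def dis6 (h : Nat) : Bool :=
  cond (dis5 (dd h 0) (dd h 1) (dd h 2) (dd h 3) (dd h 4))
    (cond (Nat.beq (dd h 0) (dd h 5)) false (cond (Nat.beq (dd h 1) (dd h 5)) false
      (cond (Nat.beq (dd h 2) (dd h 5)) false (cond (Nat.beq (dd h 3) (dd h 5)) false
        (cond (Nat.beq (dd h 4) (dd h 5)) false true))))) false

/-- the check of one reason -/
noncomputable def okKr (ok : Nat → Nat → Bool) (P : Nat) (r : Kr) : Bool :=
  Kr.rec (motive := fun _ => Bool)
    (fun w t => rdeg (Nat.add P (Nat.shiftLeft w 84)) (hx t 0) (hx t 1) (hx t 2) (hx t 3) (hx t 4))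
    (fun w t => rapx (Nat.add P (Nat.shiftLeft w 84)) (hx t 0) (hx t 1) (hx t 2) (hx t 3) (hx t 4))
    (fun w h C => cond (dis6 h)
      (frc (Nat.add (c6 P h EL6 0) (Nat.shiftLeft (w6 w h) 45))
        (fun N => cond (one6 N) (ok N C) false)) false) r

/-- the check of the reasons -/
noncomputable def okKs (ok : Nat → Nat → Bool) (P : Nat) (K : List Kr) : Bool :=
  List.rec (motive := fun _ => Bool) true (fun r _ ih => cond (okKr ok P r) ih false) K

/-- the data of one pair `a < b` -/
inductive AB where
  | mk (m : Fr) (fs : List Fr) (K : List Kr) : AB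

/-- the pairs `a < b < 8`, coded by `a + 8 b` -/
def PAB : List Nat := [8, 16, 17, 24, 25, 26, 32, 33, 34, 35, 40, 41, 42, 43, 44, 48, 49, 50, 51,
  52, 53, 56, 57, 58, 59, 60, 61, 62]

/-- the check of all the pairs in the list -/
noncomputable def chkP (T5 : Nat → Nat) (RT : Nat → List Nat) (ok : Nat → Nat → Bool)
    (P B : Nat) (X : List Nat) (Q : List Nat) : List AB → Bool :=
  List.rec (motive := fun _ => List AB → Bool) (fun _ => true)
    (fun q _ ih L => List.rec (motive := fun _ => Bool) false
      (fun A L' _ => AB.rec (motive := fun _ => Bool)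
        (fun m fs K => cond (chkAB T5 RT P B (Nat.land q 7) (Nat.shiftRight q 3) m fs X K)
          (cond (okKs ok P K) (ih L') false) false) A) L) Q

/-- the check of one pattern `O` (27 digits) of eight points with the bad edge `67` -/
noncomputable def chkO (T5 : Nat → Nat) (RT : Nat → List Nat) (ok : Nat → Nat → Bool) (O : Nat)
    (X : List Nat) (L : List AB) : Bool :=
  frc (Nat.add O (Nat.shiftLeft 6 81)) (fun P => frc (cnF 28 P) (fun B =>
    chkP T5 RT ok P B X PAB L))

end CR.C2
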