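import Pool.Agent.Lib.MP_6f5d36_co.C2.NineX
import Pool.Agent.Lib.MP_6f5d36_co.C2.N00
import Pool.Agent.Lib.MP_6f5d36_co.C2.N01
import Pool.Agent.Lib.MP_6f5d36_co.C2.N02
import Pool.Agent.Lib.MP_6f5d36_co.C2.N03
import Pool.Agent.Lib.MP_6f5d36_co.C2.N04
import Pool.Agent.Lib.MP_6f5d36_co.C2.N05
import Pool.Agent.Lib.MP_6f5d36_co.C2.N06
import Pool.Agent.Lib.MP_6f5d36_co.C2.N07
import Pool.Agent.Lib.MP_6f5d36_co.C2.N08
import Pool.Agent.Lib.MP_6f5d36_co.C2.N09
import Pool.Agent.Lib.MP_6f5d36_co.C2.N10
import Pool.Agent.Lib.MP_6f5d36_co.C2.N11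

set_option autoImplicit false

/-!
# MP_6f5d36_co, case (ii) : level 9, the conclusion for the 71 open patterns of eight points
-/

namespace CR.C2

theorem xok_nil (O : ℕ) : Xok O [] := fun w hw => absurd hw List.not_mem_nil

theorem x233 : Xok 0o4453440423034422231211000 [0o25134665] := by
  intro w hw F f g L a b H hws
  simp only [List.mem_cons, List.not_mem_nil, or_false] at hw
  subst hw
  · exact xok_one (a := 1) (b := 2) (w := 0o25134665) (h1 := 0x86543210) (C1 := 0x2e76576501076576400676476401975475403f76576300476376300b6547530057537530127536530127657430076547430247637430226537430056536430097535430c376576204b76476200065476202676376202a75376200b64376201476276202c76475200b75475200354375200b64365200c65265202076574203e76474201b75374203176573200074373200876273200574273200675353200675253200a7534320007434320066434320c076576102876476100975376100b74376100365276100173276101b76176102176575100874375100575275101576565100475165105976574103576474100765474100365464100075164100c74164100676254104676573100a76473100375373102774373100976163100c76453100364353100076543100d65343100565472100176372100954272100276172100072172100a76562100564362100165262100b74252100052152100176442100c43232100252132100715002820e)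 (h2 := 0x87654320)
      (C2 := 0x25d95d9407bb23b2030765754056ecaca8069d95d8c0c3b2ba9834754753000ec6ea601dd4dd4c043aa32980b743743034c86c8601dd5150c033b1aa1800765762034ca6ec4061d0dd88123b13b105176575200eec8ea40ad951d4806ba93a900e76565200eca8ca4005d49d0800ba13a100176464207cecaa840edd515080f329aa102b753732006ea4e64041d09cc813b2a31900a753632036e64c64081d8d4c811329a99000762532008ea686400594d0c80c3b1219007732432010ea6ec2001d89d841f3a93b083b73276101cec8ea20bdd51d441aba93a881c742751066ec2ea20c1d45d441b3b2b2880b75465100cca8ca2015d859442b3a8b2880565464103cea4a820054c9504073a0aa0803641541014a82a8200d50dcc409bb1398818752731056ecac6201dd094c400218a1881f754721014e64e4200dd85c8405a18b9080476462100aca2c42005c85884283b2a9080b764521002ec2a42065d850840a3a0a1081032132100615302820d) (h3 := 0x87654310) (C3 := 0xdaffb765765004b68dd91d900a151b76575404f1f11d9595014780b65465400acc19d91d8c09e9a7765753015566dd4dd4c1e3d1576565303affb595194c1faacd65364300c4559d0d90c1e3c1376554301f095dd95d48233dba76565209f3fe19519481a14b365365206ccfc99499480bcea8643642033a8d550d90810dcd4652642039ae09d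95508087a2465354200078a590d50806e5f654254200c5ca994dcc8099f0576553200e3999d094c80a487f542532010ba99cc94c800233563253201104314c94c81529d276543200a1ead8c90c8001997432432004cc7dd95d8404179a7657510031bd1d45d44001b8a76565107e803d95194405fa5f6536510224f2190d94413e31e65265102a457d9099440b0faa6326510655bed0c99440133af761651009b83194594404636764364100ae13dd955040812576545410014dadcc5cc400008e6416310065451d954c400b295432531004a09d5054c4043b11643431029cc9dd090c4000af7432431012955dd85c8408814b65362101d4729509884063462432621012955dd8588400eb9b765521005da7d50d4840057be7625210202f6550948400caf1621521002bdfd48548400aa037524210196871d0908402657d532421005684dc850840538ae621421004f9a548508412569e65332102b3b35948c8406ed8e64232101d31a18c8c84055743532321001613dd84c8406196342132101515302821c) (by norm_num) (by norm_num)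
      (by decide) (by decide +kernel) (by decide +kernel) (by decide +kernel)
      (by decide +kernel) (by decide +kernel) (by decide +kernel) F f g L a b H hws

theorem x676 : Xok 0o444123310351413122231210000 [0o5603156, 0o35603156] := by
  intro w hw F f g L a b H hws
  simp only [List.mem_cons, List.not_mem_nil, or_false] at hw
  rcases hw with rfl | rfl
  · exact xok_one (a := 0) (b := 5) (w := 0o5603156) (h1 := 0x87654210) (C1 := 0xb6084020203a12a102d509d4406e84a820475154100299298805d490c40eea28620575472105ba13908614c9c8406864e420474172100218b90805d0d4840ae84a421554252105b992908455054840eea48421074242106ba8a108015050842ce4284213532321013a8990819cc4c8412e426421552132100411c02840a) (h2 := 0x87654321)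
      (C2 := 0x49d95d940a76576401dd91d901b765754059d91d500775475404dd959503f754763059d51d4c3c76565304d95194c0876365305dd91d0c00763743001d8d90c0265364301dd0d90c1a5435430edd95d8807754762025d8dd88157627620b9d95d480d754752031d0dd4806765652015d8d9080276264201990990811754732071d8d8c81576543200990d0c80175276103dd51d4417763751031d49d4424653651021d4994407761651021d0dd040e75274101d94d9040e6436410098c9904017416410d5d8d50417643541025d895040463254102d90dcc407632731039d958c41065363100150d8c4107526310219098c41f5326310299458c412765531019d8d4c4117435310299454c402765431089d8d0c40974343102190d0c408641431019d4988409642621019cc98840663262100194588402765521051d8d4841064342100d50508400763321031d44c8402651321019c84c842232132100515202820c) (h3 := 0x87643210) (C3 := 0x3dd95d9418ecaca80865465404bb23b1845951d4c02ec6ea60376465305b2a329809d4d94c1eec6e861965464301329b21809d0d90c02c86c8600753762023b2ba900995194806ea6ca40365265206baa3a1019d8dd0808ecac841a542542013a1b99029d8d8c802ec8a640c65353202bb1a1906150d0c80aea8ec212763761013b13b0875d49d843ae64ec20776575104bb1ba8801d4dd4402ea2ea20276165100b21ba080d90d90402e82c8206654541023b1aa080150950402ea2a820c75373100b293988054c9cc420ea2e620354173104398b98815d958c414ea2c620564163102ba8a988019454c40cc8686202721721003b1b1082d94d88412ca2c421e654521023b1a90825d8948416a64a420375152102b18a9083148548400e6484201641421073b2990801908c84008646420563132100414b02820b)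 (by norm_num) (by norm_num)
      (by decide) (by decide +kernel) (by decide +kernel) (by decide +kernel)
      (by decide +kernel) (by decide +kernel) (by decide +kernel) F f g L a b H hws
  · exact xok_one (a := 0) (b := 5) (w := 0o35603156) (h1 := 0x86543210) (C1 := 0xcec8c8601654762003b2b2900dd518c816ca8c640774363209321b19001949d8422864c820263254100ba9a988018c54c412c86c420154362100219310801d8948402e62a421063152102b10a908698c9084008648420674332102b191908090c8c8402ec264203741321022989908350c4c8402e426421e52132100411e02820a) (h2 := 0x87654210)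
      (C2 := 0xb41040404047436520123b13210021d0990804aea4a840167626320083993190001d514c8002ea6a64002743532001b193b080294c9d44006864ea2033742651001b21328800dcc9944042c64ca201a532651016a193288041909d0402ce84a8201454254103a2992a0800dd0d8c408ce84c62007743531001b21a988235d494c4118e84a620fe73253105ca99298816d0c94c4004e868620de53143100232939082414c5c8400eec4c4200a732621004b90b10818dd0d484020c86a420006425210352a12908425cc9484036c64a4201e432521048ba0a908241505484012e62a42004531521002ba12108055d0508418ea42842004753321021ba199080add08c84004a8264203b73132104d29899080fdc84c84198a4264202c42132100813d02840f) (h3 := 0x87643210) (C3 := 0x1765765039d959500f764763021d8dd8c07763743005d9590c1565464300590d90c1376576201d951d8802643762041d95d480076375201150dd480675275200195194801762652011d499480076564201190950808542542021d95cc80d753732021d8d8c80775363202194d4c80c5434320010c90c801654761049d89d840175276108dcc9d8419763751029d4dd4402532751005d45d4402751651001d05d0405632641015d9150400541541049d4dcc4017656310059518c401643631029d498c40a75163100d9058c4007615310059510c40664343100d5050c40a765721015d51c8402743721009c85c84076516210499514840276352101590d4840576252100d4c9484037615210058c548409721521029485484027654210098c9084014314210090c8c840074132100d8c4c840032132100514902820c)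 (by norm_num) (by norm_num)
      (by decide) (by decide +kernel) (by decide +kernel) (by decide +kernel)
      (by decide +kernel) (by decide +kernel) (by decide +kernel) F f g L a b H hws

theorem x883 : Xok 0o430534102121351321431321000 [0o14652623] := by
  intro w hw F f g L a b H hws
  simp only [List.mem_cons, List.not_mem_nil, or_false] at hw
  subst hw
  · exact xok_one (a := 2) (b := 5) (w := 0o14652623) (h1 := 0x87543210) (C1 := 0x5e5cc0244040c070665465300383b2a3290186ad50d90806148a86c64026115434320423532a328800d1d949d04013aeecac8201e6e654641025b7329b20814d6550d9041137ae82c8200346765541021e532a2a0802ded94d50404a84ca2a8209ffa641541005273a0b9880311d9514c401066a86a62064bf64253100a972a129880310d0c94c408eeaec8862027be653431011a5ba1a18803f3d90d0c40068eea4862028706524310731332121880938d0c90c400b54ec28620b8bb65143107624b18a1880068d95188400614a82c420532753162100419321a90800d19d8908416abaa848420815f5414210dbab298a10800d1d885084029f4a846420a92273232105491ba0990801019884c840068ea4264205352421321010131028416) (h2 := 0x87654310)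
      (C2 := 0x1764764035d919501e7546540499519500976464302d95150c0076575200dd49d4805752652001951d0801764642005d8d90807643642005d89908016426420099515080975254200dd4dcc8006526320159098c8076325320059510c80673243201d4c90c801652761011d51d440075275100d949d440174275101d4c9d4411751751029d0994403654741001d91904016546410ad90d9041c6416410659515040765463100d9098c40663263104d0c94c4036324310090c90c40a531431005d49c8405652721001509c840053272102dd45c840f531721049c85c8407763621009d4d884007526210054c988421532521031d454840454152102594d0840a752421005d450840e532321055c84c840852132100514102820c) (h3 := 0x87643210) (C3 := 0xe7657640083aa32a0075d51d4c00aca8ea600575375301a3a9ba18069d9150c010ea6a8600064376200232a329009990d908060e84a840067647320063aa319007dd4d4c8054ca88640556324320033a93b08009909d840d6ea6ea204e653751064aa1ba880794c9d440e4ea2ea208d532651015ba9ba08031d0dd0408aec8c8205b5436410013b0b208001909504062e64a8208a751541033320aa080d5d8dcc40e6ca6e62031543731031a9939880d5d85cc400aea2e6208973173102e3a9a988005d0d4c4070a86a62049642531098ba8a9880459454c4056c82a6208473153105aaa1a1880d99090c40faa6486209e7514310073213908061505c8400cea8c4200264262100c3b0b10809dd05884000862c4200e62162100abb129081394c94840d0864a4201a54152103c298a90810588548406cec48420467524210192a121081cd905084038c42842052521421019ba91908299908c84000a8264200353132100814d02820f)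 (by norm_num) (by norm_num)
      (by decide) (by decide +kernel) (by decide +kernel) (by decide +kernel)
      (by decide +kernel) (by decide +kernel) (by decide +kernel) F f g L a b H hws

theorem d1 (hTab : ∀ F, Tabs F Tab.T5 Tab.RT) : D9 0o425312243521401231032100000 :=
  d9_of_chk hTab cert7_k8 (ok27_spec (by decide +kernel)).1 (ok27_spec (by decide +kernel)).2
    o1 (xok_nil _)

theorem d4 (hTab : ∀ F, Tabs F Tab.T5 Tab.RT) : D9 0o325055553502041233003210100 :=
  d9_of_chk hTab cert7_k8 (ok27_spec (by decide +kernel)).1 (ok27_spec (by decide +kernel)).2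
    o4 (xok_nil _)

theorem d7 (hTab : ∀ F, Tabs F Tab.T5 Tab.RT) : D9 0o121223312531015354321100000 :=
  d9_of_chk hTab cert7_k8 (ok27_spec (by decide +kernel)).1 (ok27_spec (by decide +kernel)).2
    o7 (xok_nil _)

theorem d8 (hTab : ∀ F, Tabs F Tab.T5 Tab.RT) : D9 0o121223552513015354321100000 :=
  d9_of_chk hTab cert7_k8 (ok27_spec (by decide +kernel)).1 (ok27_spec (by decide +kernel)).2
    o8 (xok_nil _)

theorem d10 (hTab : ∀ F, Tabs F Tab.T5 Tab.RT) : D9 0o321523212131025534321100000 :=
  d9_of_chk hTab cert7_k8 (ok27_spec (by decide +kernel)).1 (ok27_spec (by decide +kernel)).2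
    o10 (xok_nil _)

theorem d11 (hTab : ∀ F, Tabs F Tab.T5 Tab.RT) : D9 0o551532212131025534321100000 :=
  d9_of_chk hTab cert7_k8 (ok27_spec (by decide +kernel)).1 (ok27_spec (by decide +kernel)).2
    o11 (xok_nil _)

theorem d16 (hTab : ∀ F, Tabs F Tab.T5 Tab.RT) : D9 0o50025412305312420321320100 :=
  d9_of_chk hTab cert7_k8 (ok27_spec (by decide +kernel)).1 (ok27_spec (by decide +kernel)).2
    o16 (xok_nil _)

theorem d29 (hTab : ∀ F, Tabs F Tab.T5 Tab.RT) : D9 0o52345142311414431031210100 :=
  d9_of_chk hTab cert7_k8 (ok27_spec (by decide +kernel)).1 (ok27_spec (by decide +kernel)).2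
    o29 (xok_nil _)

theorem d32 (hTab : ∀ F, Tabs F Tab.T5 Tab.RT) : D9 0o255214512452150424031210100 :=
  d9_of_chk hTab cert7_k8 (ok27_spec (by decide +kernel)).1 (ok27_spec (by decide +kernel)).2
    o32 (xok_nil _)

theorem d35 (hTab : ∀ F, Tabs F Tab.T5 Tab.RT) : D9 0o125545550142152144321320100 :=
  d9_of_chk hTab cert7_k8 (ok27_spec (by decide +kernel)).1 (ok27_spec (by decide +kernel)).2
    o35 (xok_nil _)

theorem d36 (hTab : ∀ F, Tabs F Tab.T5 Tab.RT) : D9 0o430412514421524313201110000 :=
  d9_of_chk hTab cert7_k8 (ok27_spec (by decide +kernel)).1 (ok27_spec (by decide +kernel)).2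
    o36 (xok_nil _)

theorem d41 (hTab : ∀ F, Tabs F Tab.T5 Tab.RT) : D9 0o433442114132052433121100000 :=
  d9_of_chk hTab cert7_k8 (ok27_spec (by decide +kernel)).1 (ok27_spec (by decide +kernel)).2
    o41 (xok_nil _)

theorem d42 (hTab : ∀ F, Tabs F Tab.T5 Tab.RT) : D9 0o324123433442052433121100000 :=
  d9_of_chk hTab cert7_k8 (ok27_spec (by decide +kernel)).1 (ok27_spec (by decide +kernel)).2
    o42 (xok_nil _)

theorem d52 (hTab : ∀ F, Tabs F Tab.T5 Tab.RT) : D9 0o214435442153343023201320100 :=
  d9_of_chk hTab cert7_k8 (ok27_spec (by decide +kernel)).1 (ok27_spec (by decide +kernel)).2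
    o52 (xok_nil _)

theorem d58 (hTab : ∀ F, Tabs F Tab.T5 Tab.RT) : D9 0o310225522103001051431320100 :=
  d9_of_chk hTab cert7_k8 (ok27_spec (by decide +kernel)).1 (ok27_spec (by decide +kernel)).2
    o58 (xok_nil _)

theorem d71 (hTab : ∀ F, Tabs F Tab.T5 Tab.RT) : D9 0o451543555123153542231210000 :=
  d9_of_chk hTab cert7_k8 (ok27_spec (by decide +kernel)).1 (ok27_spec (by decide +kernel)).2
    o71 (xok_nil _)

theorem d82 (hTab : ∀ F, Tabs F Tab.T5 Tab.RT) : D9 0o13102431011243254123210000 :=
  d9_of_chk hTab cert7_k8 (ok27_spec (by decide +kernel)).1 (ok27_spec (by decide +kernel)).2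
    o82 (xok_nil _)

theorem d83 (hTab : ∀ F, Tabs F Tab.T5 Tab.RT) : D9 0o431014013102243254123210000 :=
  d9_of_chk hTab cert7_k8 (ok27_spec (by decide +kernel)).1 (ok27_spec (by decide +kernel)).2
    o83 (xok_nil _)

theorem d84 (hTab : ∀ F, Tabs F Tab.T5 Tab.RT) : D9 0o431015013102243254123210000 :=
  d9_of_chk hTab cert7_k8 (ok27_spec (by decide +kernel)).1 (ok27_spec (by decide +kernel)).2
    o84 (xok_nil _)

theorem d88 (hTab : ∀ F, Tabs F Tab.T5 Tab.RT) : D9 0o103003341312243254123210000 :=
  d9_of_chk hTab cert7_k8 (ok27_spec (by decide +kernel)).1 (ok27_spec (by decide +kernel)).2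
    o88 (xok_nil _)

theorem d89 (hTab : ∀ F, Tabs F Tab.T5 Tab.RT) : D9 0o144433323021243254123210000 :=
  d9_of_chk hTab cert7_k8 (ok27_spec (by decide +kernel)).1 (ok27_spec (by decide +kernel)).2
    o89 (xok_nil _)

theorem d144 (hTab : ∀ F, Tabs F Tab.T5 Tab.RT) : D9 0o413453141312414332231210000 :=
  d9_of_chk hTab cert7_k8 (ok27_spec (by decide +kernel)).1 (ok27_spec (by decide +kernel)).2
    o144 (xok_nil _)

theorem d148 (hTab : ∀ F, Tabs F Tab.T5 Tab.RT) : D9 0o415354553102515432231210000 :=
  d9_of_chk hTab cert7_k8 (ok27_spec (by decide +kernel)).1 (ok27_spec (by decide +kernel)).2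
    o148 (xok_nil _)

theorem d153 (hTab : ∀ F, Tabs F Tab.T5 Tab.RT) : D9 0o344035430453430130331201100 :=
  d9_of_chk hTab cert7_k8 (ok27_spec (by decide +kernel)).1 (ok27_spec (by decide +kernel)).2
    o153 (xok_nil _)

theorem d155 (hTab : ∀ F, Tabs F Tab.T5 Tab.RT) : D9 0o255305523550412132131201100 :=
  d9_of_chk hTab cert7_k8 (ok27_spec (by decide +kernel)).1 (ok27_spec (by decide +kernel)).2
    o155 (xok_nil _)

theorem d156 (hTab : ∀ F, Tabs F Tab.T5 Tab.RT) : D9 0o355015530551514134131201100 :=
  d9_of_chk hTab cert7_k8 (ok27_spec (by decide +kernel)).1 (ok27_spec (by decide +kernel)).2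
    o156 (xok_nil _)

theorem d158 (hTab : ∀ F, Tabs F Tab.T5 Tab.RT) : D9 0o424123115231043423121100000 :=
  d9_of_chk hTab cert7_k8 (ok27_spec (by decide +kernel)).1 (ok27_spec (by decide +kernel)).2
    o158 (xok_nil _)

theorem d160 (hTab : ∀ F, Tabs F Tab.T5 Tab.RT) : D9 0o442543214132043423121100000 :=
  d9_of_chk hTab cert7_k8 (ok27_spec (by decide +kernel)).1 (ok27_spec (by decide +kernel)).2
    o160 (xok_nil _)

theorem d161 (hTab : ∀ F, Tabs F Tab.T5 Tab.RT) : D9 0o223512432431014432132100000 :=
  d9_of_chk hTab cert7_k8 (ok27_spec (by decide +kernel)).1 (ok27_spec (by decide +kernel)).2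
    o161 (xok_nil _)

theorem d233 (hTab : ∀ F, Tabs F Tab.T5 Tab.RT) : D9 0o4453440423034422231211000 :=
  d9_of_chk hTab cert7_k8 (ok27_spec (by decide +kernel)).1 (ok27_spec (by decide +kernel)).2
    o233 x233

theorem d238 (hTab : ∀ F, Tabs F Tab.T5 Tab.RT) : D9 0o421243110351034422231211000 :=
  d9_of_chk hTab cert7_k8 (ok27_spec (by decide +kernel)).1 (ok27_spec (by decide +kernel)).2
    o238 (xok_nil _)

theorem d239 (hTab : ∀ F, Tabs F Tab.T5 Tab.RT) : D9 0o423243110351034422231211000 :=
  d9_of_chk hTab cert7_k8 (ok27_spec (by decide +kernel)).1 (ok27_spec (by decide +kernel)).2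
    o239 (xok_nil _)

theorem d240 (hTab : ∀ F, Tabs F Tab.T5 Tab.RT) : D9 0o424243110351034422231211000 :=
  d9_of_chk hTab cert7_k8 (ok27_spec (by decide +kernel)).1 (ok27_spec (by decide +kernel)).2
    o240 (xok_nil _)

theorem d241 (hTab : ∀ F, Tabs F Tab.T5 Tab.RT) : D9 0o425243110351034422231211000 :=
  d9_of_chk hTab cert7_k8 (ok27_spec (by decide +kernel)).1 (ok27_spec (by decide +kernel)).2
    o241 (xok_nil _)

theorem d245 (hTab : ∀ F, Tabs F Tab.T5 Tab.RT) : D9 0o440423110351034422231211000 :=
  d9_of_chk hTab cert7_k8 (ok27_spec (by decide +kernel)).1 (ok27_spec (by decide +kernel)).2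
    o245 (xok_nil _)

theorem d265 (hTab : ∀ F, Tabs F Tab.T5 Tab.RT) : D9 0o440423215342034422231211000 :=
  d9_of_chk hTab cert7_k8 (ok27_spec (by decide +kernel)).1 (ok27_spec (by decide +kernel)).2
    o265 (xok_nil _)

theorem d275 (hTab : ∀ F, Tabs F Tab.T5 Tab.RT) : D9 0o423243351312034422231211000 :=
  d9_of_chk hTab cert7_k8 (ok27_spec (by decide +kernel)).1 (ok27_spec (by decide +kernel)).2
    o275 (xok_nil _)

theorem d322 (hTab : ∀ F, Tabs F Tab.T5 Tab.RT) : D9 0o445334151433413123021210000 :=
  d9_of_chk hTab cert7_k8 (ok27_spec (by decide +kernel)).1 (ok27_spec (by decide +kernel)).2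
    o322 (xok_nil _)

theorem d339 (hTab : ∀ F, Tabs F Tab.T5 Tab.RT) : D9 0o424123240532413123021210000 :=
  d9_of_chk hTab cert7_k8 (ok27_spec (by decide +kernel)).1 (ok27_spec (by decide +kernel)).2
    o339 (xok_nil _)

theorem d346 (hTab : ∀ F, Tabs F Tab.T5 Tab.RT) : D9 0o442343254433413123021210000 :=
  d9_of_chk hTab cert7_k8 (ok27_spec (by decide +kernel)).1 (ok27_spec (by decide +kernel)).2
    o346 (xok_nil _)

theorem d371 (hTab : ∀ F, Tabs F Tab.T5 Tab.RT) : D9 0o321253530532055432231211000 :=
  d9_of_chk hTab cert7_k8 (ok27_spec (by decide +kernel)).1 (ok27_spec (by decide +kernel)).2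
    o371 (xok_nil _)

theorem d372 (hTab : ∀ F, Tabs F Tab.T5 Tab.RT) : D9 0o323253530532055432231211000 :=
  d9_of_chk hTab cert7_k8 (ok27_spec (by decide +kernel)).1 (ok27_spec (by decide +kernel)).2
    o372 (xok_nil _)

theorem d373 (hTab : ∀ F, Tabs F Tab.T5 Tab.RT) : D9 0o325253530532055432231211000 :=
  d9_of_chk hTab cert7_k8 (ok27_spec (by decide +kernel)).1 (ok27_spec (by decide +kernel)).2
    o373 (xok_nil _)

theorem d375 (hTab : ∀ F, Tabs F Tab.T5 Tab.RT) : D9 0o214552421101005420431211000 :=
  d9_of_chk hTab cert7_k8 (ok27_spec (by decide +kernel)).1 (ok27_spec (by decide +kernel)).2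
    o375 (xok_nil _)

theorem d377 (hTab : ∀ F, Tabs F Tab.T5 Tab.RT) : D9 0o552214151421005420431211000 :=
  d9_of_chk hTab cert7_k8 (ok27_spec (by decide +kernel)).1 (ok27_spec (by decide +kernel)).2
    o377 (xok_nil _)

theorem d378 (hTab : ∀ F, Tabs F Tab.T5 Tab.RT) : D9 0o552214412241005420431211000 :=
  d9_of_chk hTab cert7_k8 (ok27_spec (by decide +kernel)).1 (ok27_spec (by decide +kernel)).2
    o378 (xok_nil _)

theorem d380 (hTab : ∀ F, Tabs F Tab.T5 Tab.RT) : D9 0o552214214552005420431211000 :=
  d9_of_chk hTab cert7_k8 (ok27_spec (by decide +kernel)).1 (ok27_spec (by decide +kernel)).2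
    o380 (xok_nil _)

theorem d413 (hTab : ∀ F, Tabs F Tab.T5 Tab.RT) : D9 0o53003441312441232231210000 :=
  d9_of_chk hTab cert7_k8 (ok27_spec (by decide +kernel)).1 (ok27_spec (by decide +kernel)).2
    o413 (xok_nil _)

theorem d414 (hTab : ∀ F, Tabs F Tab.T5 Tab.RT) : D9 0o134135143102441232231210000 :=
  d9_of_chk hTab cert7_k8 (ok27_spec (by decide +kernel)).1 (ok27_spec (by decide +kernel)).2
    o414 (xok_nil _)

theorem d421 (hTab : ∀ F, Tabs F Tab.T5 Tab.RT) : D9 0o134135414343441232231210000 :=
  d9_of_chk hTab cert7_k8 (ok27_spec (by decide +kernel)).1 (ok27_spec (by decide +kernel)).2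
    o421 (xok_nil _)

theorem d423 (hTab : ∀ F, Tabs F Tab.T5 Tab.RT) : D9 0o134135441312441232231210000 :=
  d9_of_chk hTab cert7_k8 (ok27_spec (by decide +kernel)).1 (ok27_spec (by decide +kernel)).2
    o423 (xok_nil _)

theorem d429 (hTab : ∀ F, Tabs F Tab.T5 Tab.RT) : D9 0o414345143102441232231210000 :=
  d9_of_chk hTab cert7_k8 (ok27_spec (by decide +kernel)).1 (ok27_spec (by decide +kernel)).2
    o429 (xok_nil _)

theorem d455 (hTab : ∀ F, Tabs F Tab.T5 Tab.RT) : D9 0o320253441312441232231210000 :=
  d9_of_chk hTab cert7_k8 (ok27_spec (by decide +kernel)).1 (ok27_spec (by decide +kernel)).2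
    o455 (xok_nil _)

theorem d459 (hTab : ∀ F, Tabs F Tab.T5 Tab.RT) : D9 0o323253441312441232231210000 :=
  d9_of_chk hTab cert7_k8 (ok27_spec (by decide +kernel)).1 (ok27_spec (by decide +kernel)).2
    o459 (xok_nil _)

theorem d463 (hTab : ∀ F, Tabs F Tab.T5 Tab.RT) : D9 0o324253441312441232231210000 :=
  d9_of_chk hTab cert7_k8 (ok27_spec (by decide +kernel)).1 (ok27_spec (by decide +kernel)).2
    o463 (xok_nil _)

theorem d489 (hTab : ∀ F, Tabs F Tab.T5 Tab.RT) : D9 0o45132504321331023021210000 :=
  d9_of_chk hTab cert7_k8 (ok27_spec (by decide +kernel)).1 (ok27_spec (by decide +kernel)).2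
    o489 (xok_nil _)

theorem d548 (hTab : ∀ F, Tabs F Tab.T5 Tab.RT) : D9 0o514343451433331023021210000 :=
  d9_of_chk hTab cert7_k8 (ok27_spec (by decide +kernel)).1 (ok27_spec (by decide +kernel)).2
    o548 (xok_nil _)

theorem d570 (hTab : ∀ F, Tabs F Tab.T5 Tab.RT) : D9 0o145434451443331023021210000 :=
  d9_of_chk hTab cert7_k8 (ok27_spec (by decide +kernel)).1 (ok27_spec (by decide +kernel)).2
    o570 (xok_nil _)

theorem d588 (hTab : ∀ F, Tabs F Tab.T5 Tab.RT) : D9 0o345132534321331023021210000 :=
  d9_of_chk hTab cert7_k8 (ok27_spec (by decide +kernel)).1 (ok27_spec (by decide +kernel)).2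
    o588 (xok_nil _)

theorem d592 (hTab : ∀ F, Tabs F Tab.T5 Tab.RT) : D9 0o445132544321331023021210000 :=
  d9_of_chk hTab cert7_k8 (ok27_spec (by decide +kernel)).1 (ok27_spec (by decide +kernel)).2
    o592 (xok_nil _)

theorem d625 (hTab : ∀ F, Tabs F Tab.T5 Tab.RT) : D9 0o453424010351304322231211000 :=
  d9_of_chk hTab cert7_k8 (ok27_spec (by decide +kernel)).1 (ok27_spec (by decide +kernel)).2
    o625 (xok_nil _)

theorem d646 (hTab : ∀ F, Tabs F Tab.T5 Tab.RT) : D9 0o404453543001304322231211000 :=
  d9_of_chk hTab cert7_k8 (ok27_spec (by decide +kernel)).1 (ok27_spec (by decide +kernel)).2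
    o646 (xok_nil _)

theorem d647 (hTab : ∀ F, Tabs F Tab.T5 Tab.RT) : D9 0o404453543003304322231211000 :=
  d9_of_chk hTab cert7_k8 (ok27_spec (by decide +kernel)).1 (ok27_spec (by decide +kernel)).2
    o647 (xok_nil _)

theorem d648 (hTab : ∀ F, Tabs F Tab.T5 Tab.RT) : D9 0o453424524243304322231211000 :=
  d9_of_chk hTab cert7_k8 (ok27_spec (by decide +kernel)).1 (ok27_spec (by decide +kernel)).2
    o648 (xok_nil _)

theorem d675 (hTab : ∀ F, Tabs F Tab.T5 Tab.RT) : D9 0o334135310351413122231210000 :=
  d9_of_chk hTab cert7_k8 (ok27_spec (by decide +kernel)).1 (ok27_spec (by decide +kernel)).2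
    o675 (xok_nil _)

theorem d676 (hTab : ∀ F, Tabs F Tab.T5 Tab.RT) : D9 0o444123310351413122231210000 :=
  d9_of_chk hTab cert7_k8 (ok27_spec (by decide +kernel)).1 (ok27_spec (by decide +kernel)).2
    o676 x676

theorem d693 (hTab : ∀ F, Tabs F Tab.T5 Tab.RT) : D9 0o403145030532103412231210000 :=
  d9_of_chk hTab cert7_k8 (ok27_spec (by decide +kernel)).1 (ok27_spec (by decide +kernel)).2
    o693 (xok_nil _)

theorem d883 (hTab : ∀ F, Tabs F Tab.T5 Tab.RT) : D9 0o430534102121351321431321000 :=
  d9_of_chk hTab cert7_k8 (ok27_spec (by decide +kernel)).1 (ok27_spec (by decide +kernel)).2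
    o883 x883

theorem d895 (hTab : ∀ F, Tabs F Tab.T5 Tab.RT) : D9 0o203322015141351321431321000 :=
  d9_of_chk hTab cert7_k8 (ok27_spec (by decide +kernel)).1 (ok27_spec (by decide +kernel)).2
    o895 (xok_nil _)

theorem d974 (hTab : ∀ F, Tabs F Tab.T5 Tab.RT) : D9 0o555444143310442134132321000 :=
  d9_of_chk hTab cert7_k8 (ok27_spec (by decide +kernel)).1 (ok27_spec (by decide +kernel)).2
    o974 (xok_nil _)

theorem d975 (hTab : ∀ F, Tabs F Tab.T5 Tab.RT) : D9 0o555111143310442134132321000 :=
  d9_of_chk hTab cert7_k8 (ok27_spec (by decide +kernel)).1 (ok27_spec (by decide +kernel)).2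
    o975 (xok_nil _)

/-- the open patterns of eight points (27 digits) -/
def OL : List ℕ :=
  [0o425312243521401231032100000, 0o325055553502041233003210100, 0o121223312531015354321100000,
  0o121223552513015354321100000, 0o321523212131025534321100000, 0o551532212131025534321100000,
  0o50025412305312420321320100, 0o52345142311414431031210100, 0o255214512452150424031210100,
  0o125545550142152144321320100, 0o430412514421524313201110000, 0o433442114132052433121100000,
  0o324123433442052433121100000, 0o214435442153343023201320100, 0o310225522103001051431320100,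
  0o451543555123153542231210000, 0o13102431011243254123210000, 0o431014013102243254123210000,
  0o431015013102243254123210000, 0o103003341312243254123210000, 0o144433323021243254123210000,
  0o413453141312414332231210000, 0o415354553102515432231210000, 0o344035430453430130331201100,
  0o255305523550412132131201100, 0o355015530551514134131201100, 0o424123115231043423121100000,
  0o442543214132043423121100000, 0o223512432431014432132100000, 0o4453440423034422231211000,
  0o421243110351034422231211000, 0o423243110351034422231211000, 0o424243110351034422231211000,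
  0o425243110351034422231211000, 0o440423110351034422231211000, 0o440423215342034422231211000,
  0o423243351312034422231211000, 0o445334151433413123021210000, 0o424123240532413123021210000,
  0o442343254433413123021210000, 0o321253530532055432231211000, 0o323253530532055432231211000,
  0o325253530532055432231211000, 0o214552421101005420431211000, 0o552214151421005420431211000,
  0o552214412241005420431211000, 0o552214214552005420431211000, 0o53003441312441232231210000,
  0o134135143102441232231210000, 0o134135414343441232231210000, 0o134135441312441232231210000,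
  0o414345143102441232231210000, 0o320253441312441232231210000, 0o323253441312441232231210000,
  0o324253441312441232231210000, 0o45132504321331023021210000, 0o514343451433331023021210000,
  0o145434451443331023021210000, 0o345132534321331023021210000, 0o445132544321331023021210000,
  0o453424010351304322231211000, 0o404453543001304322231211000, 0o404453543003304322231211000,
  0o453424524243304322231211000, 0o334135310351413122231210000, 0o444123310351413122231210000,
  0o403145030532103412231210000, 0o430534102121351321431321000, 0o203322015141351321431321000,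
  0o555444143310442134132321000, 0o555111143310442134132321000]

/-- **level 9 in case (ii)** -/
theorem d9_all (hTab : ∀ F, Tabs F Tab.T5 Tab.RT) : ∀ O ∈ OL, D9 O := by
  intro O hO
  simp only [OL, List.mem_cons, List.not_mem_nil, or_false] at hO
  rcases hO with rfl | rfl | rfl | rfl | rfl | rfl | rfl | rfl | rfl | rfl | rfl | rfl | rfl | rfl | rfl |
    rfl | rfl | rfl | rfl | rfl | rfl | rfl | rfl | rfl | rfl | rfl | rfl | rfl | rfl | rfl |
    rfl | rfl | rfl | rfl | rfl | rfl | rfl | rfl | rfl | rfl | rfl | rfl | rfl | rfl | rfl |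
    rfl | rfl | rfl | rfl | rfl | rfl | rfl | rfl | rfl | rfl | rfl | rfl | rfl | rfl | rfl |
    rfl | rfl | rfl | rfl | rfl | rfl | rfl | rfl | rfl | rfl | rfl
  · exact d1 hTab
  · exact d4 hTab
  · exact d7 hTab
  · exact d8 hTab
  · exact d10 hTab
  · exact d11 hTab
  · exact d16 hTab
  · exact d29 hTab
  · exact d32 hTab
  · exact d35 hTab
  · exact d36 hTab
  · exact d41 hTab
  · exact d42 hTab
  · exact d52 hTab
  · exact d58 hTab
  · exact d71 hTab
  · exact d82 hTab
  · exact d83 hTab
  · exact d84 hTab
  · exact d88 hTab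
  · exact d89 hTab
  · exact d144 hTab
  · exact d148 hTab
  · exact d153 hTab
  · exact d155 hTab
  · exact d156 hTab
  · exact d158 hTab
  · exact d160 hTab
  · exact d161 hTab
  · exact d233 hTab
  · exact d238 hTab
  · exact d239 hTab
  · exact d240 hTab
  · exact d241 hTab
  · exact d245 hTab
  · exact d265 hTab
  · exact d275 hTab
  · exact d322 hTab
  · exact d339 hTab
  · exact d346 hTab
  · exact d371 hTab
  · exact d372 hTab
  · exact d373 hTab
  · exact d375 hTab
  · exact d377 hTab
  · exact d378 hTab
  · exact d380 hTab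
  · exact d413 hTab
  · exact d414 hTab
  · exact d421 hTab
  · exact d423 hTab
  · exact d429 hTab
  · exact d455 hTab
  · exact d459 hTab
  · exact d463 hTab
  · exact d489 hTab
  · exact d548 hTab
  · exact d570 hTab
  · exact d588 hTab
  · exact d592 hTab
  · exact d625 hTab
  · exact d646 hTab
  · exact d647 hTab
  · exact d648 hTab
  · exact d675 hTab
  · exact d676 hTab
  · exact d693 hTab
  · exact d883 hTab
  · exact d895 hTab
  · exact d974 hTab
  · exact d975 hTab

end CR.C2
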