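import Pool.Agent.Lib.MP_6f5d36_co.C2.Ext
import Pool.Agent.Lib.MP_6f5d36_co.C2.KerN

set_option autoImplicit false

/-!
# MP_6f5d36_co, case (ii) : level 9

`CR.C2.D9 O` : eight points with the pattern `O` (27 digits, all labels big) and a bad edge `67` do not
occur in a configuration.  `CR.C2.d9_of_chk` : the soundness of the checker `chkO`.
-/

namespace CR.C2

open CR.L7 (tb rtC allb allb_spec Pm cond_and cond_or od_add tb_eq bits testBit_bits)
open CR.L9 (pre eI eJ pre_lt pre_congr pre_add od_pre pre_od e_spec e_spec2 surj8 fixg fixg_lt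
  fixg_inj)

/-- the conclusion of level 9 for the pattern `O` of eight points -/
def D9 (O : ℕ) : Prop :=
  ∀ (F : Conf 9) (f : ℕ → Fin 9) (g : ℕ → Fin 8), (∀ i j, i < 9 → j < 9 → f i = f j → i = j) →
    (∀ a b, a < 8 → b < 8 → g a = g b → a = b) → GoodG g →
    (∀ i j, i < j → j < 8 → ¬ (i = 6 ∧ j = 7) → F.c (f i) (f j) = g (lab O i j)) →
    (F.c (f 6) (f 7)).val < 2 → False

/-- nine points with labels: the bad edges are `67`, `a8`, `b8` -/
structure Nin (F : Conf 9) (f : ℕ → Fin 9) (g : ℕ → Fin 8) (L : ℕ → ℕ) (O a b : ℕ) : Prop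
    extends L9.Lab F f g L where
  hab : a < b
  hb : b < 8
  o : ∀ e, e < 27 → L e = od O e
  big27 : ∀ e, e < 27 → L e < 6
  b67 : 6 ≤ L 27
  ba : 6 ≤ L (28 + a)
  bb : 6 ≤ L (28 + b)
  big : ∀ i, i < 8 → i ≠ a → i ≠ b → L (28 + i) < 6
  card : ∀ l, l < 8 → ((Finset.range 36).filter (fun e => L e = l)).card = (g l).val + 1

/-! ### The exact sizes of the classes -/

section lab

variable {F : Conf 9} {f : ℕ → Fin 9} {g : ℕ → Fin 8} {L : ℕ → ℕ} (H : L9.Lab F f g L)

include H in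
theorem sum_g (φ : ℕ → ℕ) : ∑ l ∈ Finset.range 8, φ (g l).val = ∑ c ∈ Finset.range 8, φ c := by
  have h1 : Function.Injective (fun l : Fin 8 => g l.val) := fun a b hab =>
    Fin.ext (H.ginj a b a.isLt b.isLt hab)
  have h2 : Function.Bijective (fun l : Fin 8 => g l.val) :=
    ⟨h1, Finite.injective_iff_surjective.1 h1⟩
  rw [Finset.sum_range, Finset.sum_range]
  exact Fintype.sum_bijective _ h2 _ _ (fun _ => rfl)

include H in
theorem card_eq (l : ℕ) (hl : l < 8) :
    ((Finset.range 36).filter (fun e => L e = l)).card = (g l).val + 1 := by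
  have h1 : ∑ l ∈ Finset.range 8, ((Finset.range 36).filter (fun e => L e = l)).card = 36 := by
    rw [← Finset.card_eq_sum_card_fiberwise (f := L) (s := Finset.range 36)
      (t := Finset.range 8) (fun e _ => by
        rw [Finset.mem_coe, Finset.mem_range]; exact H.lt e), Finset.card_range]
  have h2 : ∑ l ∈ Finset.range 8, ((g l).val + 1) = 36 := by
    rw [sum_g H (fun c => c + 1)]
    decide
  have h3 : ∀ l ∈ Finset.range 8,
      ((Finset.range 36).filter (fun e => L e = l)).card ≤ (g l).val + 1 :=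
    fun l _ => H.card_le le_rfl
  exact (Finset.sum_eq_sum_iff_of_le h3).1 (h1.trans h2.symm) l (Finset.mem_range.2 hl)

end lab

/-- the labels of the nine points -/
theorem exists_nin {O : ℕ} (hO : ∀ e, e < 27 → od O e < 6) {F : Conf 9} {f : ℕ → Fin 9}
    {g : ℕ → Fin 8} (hf : ∀ i j, i < 9 → j < 9 → f i = f j → i = j)
    (hg0 : ∀ a b, a < 8 → b < 8 → g a = g b → a = b) (hg : GoodG g)
    (hc : ∀ i j, i < j → j < 8 → ¬ (i = 6 ∧ j = 7) → F.c (f i) (f j) = g (lab O i j))
    (hb : (F.c (f 6) (f 7)).val < 2) : ∃ L a b, Nin F f (fixg g) L O a b := by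
  have hinj := fixg_inj hg hg0
  choose lbl hl using surj8 hinj
  set L : ℕ → ℕ := fun e => lbl (F.c (f (eI e)) (f (eJ e))) with hL
  have hcol : ∀ i j, i < j → j < 9 → F.c (f i) (f j) = fixg g (L (eo i j)) := by
    intro i j hij hj
    obtain ⟨a1, a2, a3⟩ := e_spec j hj i hij
    simp only [hL, a1, a2]
    exact ((hl _).2).symm
  have hlab : L9.Lab F f (fixg g) L := by
    refine ⟨hf, hinj, ?_, rfl, rfl, fun e => (hl _).1, hcol⟩
    intro a ha
    rw [fixg_lt ha]
    exact hg a ha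
  have hlow : ∀ e, e < 27 → L e = od O e := by
    intro e he
    obtain ⟨a1, a2, a3⟩ := e_spec2 e (by omega)
    have a4 : eJ e < 8 := by
      unfold eJ
      split_ifs <;> omega
    have a5 : ¬ (eI e = 6 ∧ eJ e = 7) := by
      rintro ⟨h1, h2⟩
      rw [h1, h2] at a3
      unfold eo at a3
      omega
    have h2 := hc (eI e) (eJ e) a1 a4 a5
    rw [lab_eq_od, a3, ← fixg_lt (g := g) (hO e he)] at h2
    have h3 := hcol _ _ a1 a2
    rw [a3, h2] at h3
    exact (hinj _ _ (od_lt _ _) (hlab.lt _) h3).symm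
  have hbad : ∀ e, e < 36 → (6 ≤ L e ↔ (F.c (f (eI e)) (f (eJ e))).val < 2) := by
    intro e he
    obtain ⟨a1, a2, a3⟩ := e_spec2 e he
    have h1 := hcol _ _ a1 a2
    rw [a3] at h1
    rw [h1]
    constructor
    · intro h6
      have := hlab.lt e
      have h7 : L e = 6 ∨ L e = 7 := by omega
      rcases h7 with h7 | h7 <;> rw [h7]
      · rw [hlab.g6]; decide
      · rw [hlab.g7]; decide
    · intro h2
      by_contra h6
      have := hlab.good (L e) (by omega)
      omega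
  have h27 : 6 ≤ L 27 := (hbad 27 (by norm_num)).2 hb
  -- the bad edges at the ninth point
  have hcard := card_eq hlab
  have hS : ((Finset.range 36).filter (fun e => 6 ≤ L e)).card = 3 := by
    have h1 : (Finset.range 36).filter (fun e => 6 ≤ L e) =
        (Finset.range 36).filter (fun e => L e = 6) ∪
          (Finset.range 36).filter (fun e => L e = 7) := by
      ext e
      simp only [Finset.mem_filter, Finset.mem_union, Finset.mem_range]
      have := hlab.lt e
      omega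
    rw [h1, Finset.card_union_of_disjoint, hcard 6 (by norm_num), hcard 7 (by norm_num),
      hlab.g6, hlab.g7]
    · rfl
    · rw [Finset.disjoint_left]
      intro e h1 h2
      rw [Finset.mem_filter] at h1 h2
      omega
  have hS2 : ((Finset.range 8).filter (fun i => 6 ≤ L (28 + i))).card = 2 := by
    have h1 : (Finset.range 36).filter (fun e => 6 ≤ L e) =
        insert 27 (((Finset.range 8).filter (fun i => 6 ≤ L (28 + i))).image (28 + ·)) := by
      ext e
      simp only [Finset.mem_filter, Finset.mem_insert, Finset.mem_image, Finset.mem_range]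
      constructor
      · rintro ⟨h1, h2⟩
        rcases Nat.lt_or_ge e 27 with h3 | h3
        · have h4 := hO e h3
          rw [← hlow e h3] at h4
          omega
        · rcases Nat.eq_or_lt_of_le h3 with h4 | h4
          · exact Or.inl h4.symm
          · refine Or.inr ⟨e - 28, ⟨by omega, ?_⟩, by omega⟩
            rw [show 28 + (e - 28) = e by omega]
            exact h2
      · rintro (rfl | ⟨i, ⟨h1, h2⟩, rfl⟩)
        · exact ⟨by norm_num, h27⟩
        · exact ⟨by omega, h2⟩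
    rw [h1, Finset.card_insert_of_notMem, Finset.card_image_of_injective] at hS
    · omega
    · intro x y hxy
      simpa using hxy
    · simp only [Finset.mem_image, Finset.mem_filter, Finset.mem_range]
      rintro ⟨i, _, hi⟩
      omega
  obtain ⟨x, y, hxy, hS3⟩ := Finset.card_eq_two.1 hS2
  have hmem : ∀ i, i < 8 → (6 ≤ L (28 + i) ↔ i = x ∨ i = y) := by
    intro i hi
    have h1 : i ∈ (Finset.range 8).filter (fun i => 6 ≤ L (28 + i)) ↔ i = x ∨ i = y := by
      rw [hS3]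
      simp
    rw [← h1, Finset.mem_filter, Finset.mem_range]
    exact ⟨fun h => ⟨hi, h⟩, fun h => h.2⟩
  have hx : x < 8 := by
    have : x ∈ (Finset.range 8).filter (fun i => 6 ≤ L (28 + i)) := by rw [hS3]; simp
    exact Finset.mem_range.1 (Finset.mem_filter.1 this).1
  have hy : y < 8 := by
    have : y ∈ (Finset.range 8).filter (fun i => 6 ≤ L (28 + i)) := by rw [hS3]; simp
    exact Finset.mem_range.1 (Finset.mem_filter.1 this).1
  rcases Nat.lt_or_gt_of_ne hxy with h | h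
  · exact ⟨L, x, y, hlab, h, hy, hlow, fun e he => by rw [hlow e he]; exact hO e he, h27,
      (hmem x hx).2 (Or.inl rfl), (hmem y hy).2 (Or.inr rfl), fun i hi h1 h2 => by
        have := (hmem i hi).not.2 (by tauto)
        omega, hcard⟩
  · exact ⟨L, y, x, hlab, h, hx, hlow, fun e he => by rw [hlow e he]; exact hO e he, h27,
      (hmem y hy).2 (Or.inr rfl), (hmem x hx).2 (Or.inl rfl), fun i hi h1 h2 => by
        have := (hmem i hi).not.2 (by tauto)
        omega, hcard⟩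

/-! ### The star code of the ninth point -/

/-- the label, bad labels replaced by 6 -/
def mn (L : ℕ → ℕ) (e : ℕ) : ℕ := if L e < 6 then L e else 6

theorem mn_lt (L : ℕ → ℕ) (e : ℕ) : mn L e < 8 := by
  unfold mn
  split_ifs <;> omega

theorem mn_le (L : ℕ → ℕ) (e : ℕ) : mn L e ≤ 6 := by
  unfold mn
  split_ifs <;> omega

theorem mn_of_lt {L : ℕ → ℕ} {e : ℕ} (h : L e < 6) : mn L e = L e := if_pos h

theorem mn_of_le {L : ℕ → ℕ} {e : ℕ} (h : 6 ≤ L e) : mn L e = 6 := if_neg (by omega)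

theorem lt_of_mn {L : ℕ → ℕ} {e : ℕ} (h : mn L e < 6) : L e = mn L e := by
  unfold mn at h ⊢
  split_ifs at h ⊢
  · rfl
  · omega

/-- the star code of the ninth point -/
def ws (L : ℕ → ℕ) : ℕ := pre (fun i => mn L (28 + i)) 8

theorem ws_lt (L : ℕ → ℕ) : ws L < 8 ^ 8 := pre_lt (fun _ => mn_lt _ _) 8

theorem od_ws (L : ℕ → ℕ) {i : ℕ} (hi : i < 8) : od (ws L) i = mn L (28 + i) :=
  od_pre (fun _ => mn_lt _ _) hi

section nin

variable {F : Conf 9} {f : ℕ → Fin 9} {g : ℕ → Fin 8} {L : ℕ → ℕ} {O a b : ℕ}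
  (H : Nin F f g L O a b)

include H in
/-- the code of the eight points -/
theorem od_P (hO : O < 8 ^ 27) {e : ℕ} (he : e < 28) : od (O + 6 * 8 ^ 27) e = mn L e := by
  rw [od_add _ _ _ _ hO]
  split_ifs with h
  · rw [← H.o e h, mn_of_lt (H.big27 e h)]
  · have : e = 27 := by omega
    subst this
    rw [mn_of_le H.b67]
    rfl

include H in
/-- the code of the nine points -/
theorem od_N (hO : O < 8 ^ 27) {e : ℕ} (he : e < 36) :
    od (O + 6 * 8 ^ 27 + ws L * 8 ^ 28) e = mn L e := by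
  have h1 : O + 6 * 8 ^ 27 < 8 ^ 28 := by
    rw [show (8 : ℕ) ^ 28 = 8 * 8 ^ 27 by rw [pow_succ]; ring]
    omega
  rw [od_add _ _ _ _ h1]
  split_ifs with h
  · exact od_P H hO h
  · rw [od_ws L (by omega), show 28 + (e - 28) = e by omega]

include H in
theorem col_mn {i j : ℕ} (hij : i < j) (hj : j < 9) (h : mn L (eo i j) < 6) :
    F.c (f i) (f j) = g (mn L (eo i j)) := by
  rw [H.col i j hij hj, lt_of_mn h]

include H in
theorem colN (hO : O < 8 ^ 27) {i j : ℕ} (hi : i < 9) (hj : j < 9) (hij : i ≠ j)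
    (h : labs (O + 6 * 8 ^ 27 + ws L * 8 ^ 28) i j < 6) :
    F.c (f i) (f j) = g (labs (O + 6 * 8 ^ 27 + ws L * 8 ^ 28) i j) := by
  unfold labs at h ⊢
  rcases Nat.lt_or_gt_of_ne hij with h1 | h1
  · rw [if_pos h1] at h ⊢
    rw [lab_eq_od, od_N H hO (e_spec j hj i h1).2.2] at h ⊢
    exact col_mn H h1 hj h
  · rw [if_neg (by omega)] at h ⊢
    rw [lab_eq_od, od_N H hO (e_spec i hi j h1).2.2] at h ⊢
    rw [F.symm]
    exact col_mn H h1 hi h

end nin

/-! ### The frames -/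

theorem isP8_pm {w : ℕ} (h : isP8 w = true) : Pm 8 w := by
  apply Pm.of
  have e : isP8 w = Nat.beq (bits w 8) 255 := by
    unfold isP8 bits bits bits bits bits bits bits bits bits
    rw [Nat.zero_or]
    rfl
  rw [e] at h
  exact Nat.eq_of_beq_eq_true h

theorem two_pow_pair0 : ∀ a b x y : Fin 8, (a.val < b.val ∧ x.val ≠ y.val ∧
    Nat.shiftLeft 1 x.val + Nat.shiftLeft 1 y.val =
      Nat.shiftLeft 1 a.val + Nat.shiftLeft 1 b.val) →
    (x.val = a.val ∧ y.val = b.val) ∨ (x.val = b.val ∧ y.val = a.val) := by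
  decide +kernel

theorem two_pow_pair (a : ℕ) (ha : a < 8) (b : ℕ) (hb : b < 8) (x : ℕ) (hx : x < 8) (y : ℕ)
    (hy : y < 8) (h1 : a < b) (h2 : x ≠ y)
    (h3 : Nat.add (Nat.shiftLeft 1 x) (Nat.shiftLeft 1 y) =
      Nat.add (Nat.shiftLeft 1 a) (Nat.shiftLeft 1 b)) : (x = a ∧ y = b) ∨ (x = b ∧ y = a) :=
  two_pow_pair0 ⟨a, ha⟩ ⟨b, hb⟩ ⟨x, hx⟩ ⟨y, hy⟩ ⟨h1, h2, h3⟩

/-- a label map does not send 6 to a label less than 6 -/
theorem okq_six {q qi l : ℕ} (h : okq q qi = true) (hl : l < 8) (h6 : od q l < 6) : l < 6 := by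
  obtain ⟨q1, q2⟩ := okq_spec h
  by_contra hc
  have h1 : Function.Injective (fun a : Fin 6 => (⟨od q a.val, q2 _ a.isLt⟩ : Fin 6)) := by
    intro x y hxy
    have h2 := congrArg (od qi) (Fin.mk.inj_iff.1 hxy)
    rw [q1 _ (by omega), q1 _ (by omega)] at h2
    exact Fin.ext h2
  obtain ⟨x, hx⟩ := Finite.injective_iff_surjective.1 h1 ⟨od q l, h6⟩
  have h2 := congrArg (od qi) (Fin.mk.inj_iff.1 hx)
  rw [q1 _ (by omega), q1 _ hl] at h2
  omega

section nin

variable {F : Conf 9} {f : ℕ → Fin 9} {g : ℕ → Fin 8} {L : ℕ → ℕ} {O a b : ℕ}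
  (H : Nin F f g L O a b)

/-- the facts on the points of a frame -/
structure FrS (fr : Fr) (a b : ℕ) : Prop where
  pm : Pm 8 fr.h
  hq : okq fr.q fr.qi = true
  h67 : (od fr.h 6 = a ∧ od fr.h 7 = b) ∨ (od fr.h 6 = b ∧ od fr.h 7 = a)

theorem okF9_spec {P : ℕ} {T5 : ℕ → ℕ} {fr : Fr} (hab : a < b) (hb : b < 8)
    (h : okF9 P T5 a b fr = true) : FrS fr a b ∧ 526 ≤ fr.j ∧ fr.j ≤ 1204 ∧
      CR.L7.lt6 (T5 fr.j) = true ∧ okT P (T5 fr.j) fr.q fr.h = true := by
  obtain ⟨h1, h⟩ := cond_and h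
  obtain ⟨h2, h⟩ := cond_and h
  obtain ⟨h3, h⟩ := cond_and h
  obtain ⟨h4, h⟩ := cond_and h
  obtain ⟨h5, h⟩ := cond_and h
  obtain ⟨h6, h⟩ := cond_and h
  have pm := isP8_pm h3
  have h7 := Nat.eq_of_beq_eq_true h4
  have hlt : ∀ i, i < 8 → od fr.h i < 8 := fun i _ => od_lt _ _
  have hne : od fr.h 6 ≠ od fr.h 7 := fun he => by
    have := pm.inj 6 7 (by norm_num) (by norm_num) (by rw [dg3_eq, dg3_eq]; exact he)
    omega
  rw [dd_eq, dd_eq] at h7
  exact ⟨⟨pm, h6, two_pow_pair a (by omega) b hb _ (hlt 6 (by norm_num)) _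
    (hlt 7 (by norm_num)) hab hne h7⟩, Nat.le_of_ble_eq_true h1, Nat.le_of_ble_eq_true h2, h5, h⟩

theorem FrS.inj {fr : Fr} (h : FrS fr a b) {i j : ℕ} (hi : i < 8) (hj : j < 8)
    (he : od fr.h i = od fr.h j) : i = j :=
  h.pm.inj i j hi hj (by rw [dg3_eq, dg3_eq]; exact he)

theorem FrS.ne {fr : Fr} (h : FrS fr a b) {i : ℕ} (hi : i < 6) :
    od fr.h i ≠ a ∧ od fr.h i ≠ b := by
  rcases h.h67 with ⟨h1, h2⟩ | ⟨h1, h2⟩
  · refine ⟨fun he => ?_, fun he => ?_⟩
    · have := h.inj (i := i) (j := 6) (by omega) (by norm_num) (by rw [he, h1])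
      omega
    · have := h.inj (i := i) (j := 7) (by omega) (by norm_num) (by rw [he, h2])
      omega
  · refine ⟨fun he => ?_, fun he => ?_⟩
    · have := h.inj (i := i) (j := 7) (by omega) (by norm_num) (by rw [he, h2])
      omega
    · have := h.inj (i := i) (j := 6) (by omega) (by norm_num) (by rw [he, h1])
      omega

include H in
/-- the star is allowed in a frame -/
theorem frame_mem9 {T5 : ℕ → ℕ} {RT : ℕ → List ℕ} (hTab : Tabs F T5 RT) (hO : O < 8 ^ 27)
    {fr : Fr} (hF : okF9 (O + 6 * 8 ^ 27) T5 a b fr = true) :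
    ∃ e ∈ RT fr.j, e &&& 32767 = ix fr.q fr.h (ws L) := by
  obtain ⟨hfr, hj1, hj2, h6, hT⟩ := okF9_spec H.hab H.hb hF
  have hd : ∀ i, od fr.h i < 8 := fun i => od_lt _ _
  have hbig : ∀ i, i < 6 → mn L (28 + od fr.h i) = L (28 + od fr.h i) ∧
      L (28 + od fr.h i) < 6 := fun i hi => by
    have h1 := H.big _ (hd i) (hfr.ne hi).1 (hfr.ne hi).2
    exact ⟨mn_of_lt h1, h1⟩
  have ho : Occ F 6 (fun i => if i < 5 then f (od fr.h i) else f 8) (fun b => g (od fr.qi b))
      (T5 fr.j + ix fr.q fr.h (ws L) * 8 ^ 10) := by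
    apply occ_frame (pt := fun i => od fr.h i)
      (l := fun i j => labs (O + 6 * 8 ^ 27) (od fr.h i) (od fr.h j)) (hTab.lt _) hfr.hq H.ginj
      (fun _ _ => rfl)
    · intro i j hi hj hij
      exact hfr.inj (by omega) (by omega) (H.inj _ _ (by have := hd i; omega)
        (by have := hd j; omega) hij)
    · intro i hi he
      have := H.inj _ _ (by have := hd i; omega) (by norm_num) he
      have := hd i
      omega
    · intro j hj i hij
      have hne : od fr.h i ≠ od fr.h j := fun he => by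
        have := hfr.inj (by omega) (by omega) he
        omega
      have h3 := okT_spec hT j hj i hij
      rw [sl_eq _ _ _ (by have := hd i; omega) (by have := hd j; omega) hne] at h3
      have h4 : od fr.q (labs (O + 6 * 8 ^ 27) (od fr.h i) (od fr.h j)) < 6 := by
        rw [h3, lab_eq_od]
        apply CR.L7.lt6_spec h6
        unfold eo
        interval_cases j <;> omega
      have h5 := okq_six hfr.hq (labs_lt _ _ _) h4
      refine ⟨?_, labs_lt _ _ _, h3⟩
      have h7 : labs (O + 6 * 8 ^ 27) (od fr.h i) (od fr.h j) =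
          labs (O + 6 * 8 ^ 27 + ws L * 8 ^ 28) (od fr.h i) (od fr.h j) := by
        have key : ∀ x y, x < y → y < 8 → lab (O + 6 * 8 ^ 27) x y =
            lab (O + 6 * 8 ^ 27 + ws L * 8 ^ 28) x y := by
          intro x y hxy hy
          rw [lab_eq_od, lab_eq_od]
          have h8 : eo x y < 28 := by
            unfold eo
            interval_cases y <;> omega
          rw [od_P H hO h8, od_N H hO (by omega)]
        unfold labs
        split_ifs with h8
        · exact key _ _ h8 (hd j)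
        · exact key _ _ (by omega) (hd i)
      rw [h7] at h5 ⊢
      exact colN H hO (by have := hd i; omega) (by have := hd j; omega) hne h5
    · intro i hi
      obtain ⟨h1, h2⟩ := hbig i (by omega)
      rw [od_ws L (hd i), h1]
      have h3 := H.col (od fr.h i) 8 (hd i) (by norm_num)
      exact h3
  obtain ⟨x1, x2⟩ := ix_spec fr.q fr.h (ws L)
  have hdig : ∀ i, i < 5 → od (ix fr.q fr.h (ws L)) i < 6 := by
    intro i hi
    rw [x2 i hi, od_ws L (hd i)]
    obtain ⟨h1, h2⟩ := hbig i (by omega)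
    rw [h1]
    exact (okq_spec hfr.hq).2 _ h2
  exact hTab.comp _ hj1 (by omega) _ _ _ x1 hdig ho

end nin

/-! ### The sizes -/

/-- the number of the indices in `S` with the label `l` -/
def cn (L : ℕ → ℕ) (S : Finset ℕ) (l : ℕ) : ℕ := (S.filter (fun e => mn L e = l)).card

theorem cn_le (L : ℕ → ℕ) (S : Finset ℕ) (l : ℕ) : cn L S l ≤ S.card := Finset.card_filter_le _ _

theorem sum_c1 (L : ℕ → ℕ) (S : Finset ℕ) : ∑ e ∈ S, 64 ^ mn L e =
    cn L S 0 + cn L S 1 * 64 + cn L S 2 * 64 ^ 2 + cn L S 3 * 64 ^ 3 + cn L S 4 * 64 ^ 4 +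
      cn L S 5 * 64 ^ 5 + cn L S 6 * 64 ^ 6 := by
  have h1 : ∑ e ∈ S, 64 ^ mn L e =
      ∑ l ∈ Finset.range 7, ∑ e ∈ S.filter (fun e => mn L e = l), 64 ^ mn L e := by
    rw [Finset.sum_fiberwise_of_maps_to]
    intro e _
    have := mn_le L e
    rw [Finset.mem_range]
    omega
  rw [h1]
  have h2 : ∀ l, ∑ e ∈ S.filter (fun e => mn L e = l), 64 ^ mn L e = cn L S l * 64 ^ l := by
    intro l
    rw [Finset.sum_congr rfl (fun e he => by rw [(Finset.mem_filter.1 he).2]),
      Finset.sum_const, smul_eq_mul]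
    rfl
  simp only [Finset.sum_range_succ, Finset.sum_range_zero, h2, Nat.zero_add, pow_zero, pow_one,
    Nat.mul_one]

theorem c1_eq (x : ℕ) : c1 x = 64 ^ x := by
  show 1 <<< (6 * x) = _
  rw [Nat.one_shiftLeft, pow_mul]
  norm_num

theorem cnF_eq : ∀ (n P : ℕ), cnF n P = ∑ e ∈ Finset.range n, 64 ^ od P e
  | 0, P => rfl
  | n + 1, P => by
    have h1 : cnF (n + 1) P = 1 <<< (6 * (P &&& 7)) + cnF n (P >>> 3) := rfl
    rw [h1, cnF_eq n, Finset.sum_range_succ']
    have h2 : P &&& 7 = od P 0 := by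
      have := Nat.and_two_pow_sub_one_eq_mod P 3
      unfold od
      rw [pow_zero, Nat.div_one]
      exact this
    have h3 : ∀ e, od (P >>> 3) e = od P (e + 1) := by
      intro e
      unfold od
      rw [Nat.shiftRight_eq_div_pow, Nat.div_div_eq_div_mul, pow_succ' 8 e]
    rw [h2, Nat.add_comm]
    congr 1
    · exact Finset.sum_congr rfl (fun e _ => by rw [h3])
    · exact c1_eq _

/-- the fields -/
theorem pw_eq {c : ℕ → ℕ} (hc : ∀ l, l < 7 → c l < 64) {N : ℕ}
    (hN : N = c 0 + c 1 * 64 + c 2 * 64 ^ 2 + c 3 * 64 ^ 3 + c 4 * 64 ^ 4 + c 5 * 64 ^ 5 +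
      c 6 * 64 ^ 6) {l : ℕ} (hl : l < 6) : pw N l = 2 ^ c l := by
  have h0 := hc 0 (by norm_num)
  have h1 := hc 1 (by norm_num)
  have h2 := hc 2 (by norm_num)
  have h3 := hc 3 (by norm_num)
  have h4 := hc 4 (by norm_num)
  have h5 := hc 5 (by norm_num)
  have h6 := hc 6 (by norm_num)
  have e1 : pw N l = 2 ^ (N / 64 ^ l % 64) := by
    show 1 <<< ((N >>> (6 * l)) &&& 63) = _
    rw [Nat.one_shiftLeft, Nat.shiftRight_eq_div_pow, pow_mul]
    have := Nat.and_two_pow_sub_one_eq_mod (N / (2 ^ 6) ^ l) 6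
    norm_num at this ⊢
    rw [this]
  rw [e1]
  congr 1
  norm_num at hN
  interval_cases l <;> norm_num <;> omega

theorem psum_eq {c : ℕ → ℕ} (hc : ∀ l, l < 7 → c l < 64) {N : ℕ}
    (hN : N = c 0 + c 1 * 64 + c 2 * 64 ^ 2 + c 3 * 64 ^ 3 + c 4 * 64 ^ 4 + c 5 * 64 ^ 5 +
      c 6 * 64 ^ 6) : psum N = ∑ l ∈ Finset.range 6, 2 ^ c l := by
  have h : psum N = pw N 0 + pw N 1 + pw N 2 + pw N 3 + pw N 4 + pw N 5 := rfl
  rw [h, pw_eq hc hN (by norm_num), pw_eq hc hN (by norm_num), pw_eq hc hN (by norm_num),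
    pw_eq hc hN (by norm_num), pw_eq hc hN (by norm_num), pw_eq hc hN (by norm_num)]
  simp only [Finset.sum_range_succ, Finset.sum_range_zero, Nat.zero_add]

section nin

variable {F : Conf 9} {f : ℕ → Fin 9} {g : ℕ → Fin 8} {L : ℕ → ℕ} {O a b : ℕ}
  (H : Nin F f g L O a b)

include H in
/-- the sum of the powers of the sizes -/
theorem sum504 : ∑ l ∈ Finset.range 6, 2 ^ cn L (Finset.range 36) l = 504 := by
  have h1 : ∀ l, l < 6 → cn L (Finset.range 36) l = (g l).val + 1 := by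
    intro l hl
    rw [← H.card l (by omega)]
    unfold cn
    congr 1
    apply Finset.filter_congr
    intro e _
    unfold mn
    split_ifs with h
    · rfl
    · constructor <;> intro h' <;> omega
  have h2 := sum_g H.toLab (fun c => 2 ^ (c + 1))
  rw [Finset.sum_range_succ, Finset.sum_range_succ, H.g6, H.g7] at h2
  have h3 : ∑ l ∈ Finset.range 6, 2 ^ cn L (Finset.range 36) l =
      ∑ l ∈ Finset.range 6, 2 ^ ((g l).val + 1) :=
    Finset.sum_congr rfl (fun l hl => by rw [h1 l (Finset.mem_range.1 hl)])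
  rw [h3]
  have h4 : ∑ c ∈ Finset.range 8, 2 ^ (c + 1) = 510 := by decide
  rw [h4] at h2
  have e1 : (2 : ℕ) ^ ((1 : Fin 8).val + 1) = 4 := rfl
  have e2 : (2 : ℕ) ^ ((0 : Fin 8).val + 1) = 2 := rfl
  rw [e1, e2] at h2
  omega

/-- a sum over the eight points in the order of a frame -/
theorem FrS.sum {fr : Fr} (h : FrS fr a b) (φ : ℕ → ℕ) :
    ∑ i ∈ Finset.range 8, φ (od fr.h i) = ∑ i ∈ Finset.range 8, φ i := by
  have h5 : (Finset.range 8).image (fun i => od fr.h i) = Finset.range 8 := by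
    ext x
    simp only [Finset.mem_image, Finset.mem_range]
    constructor
    · rintro ⟨i, hi, rfl⟩
      exact od_lt _ _
    · intro hx
      obtain ⟨i, hi, h6⟩ := h.pm.surj x hx
      exact ⟨i, hi, by rw [← dg3_eq]; exact h6⟩
  conv_rhs => rw [← h5]
  rw [Finset.sum_image]
  intro i hi j hj hij
  rw [Finset.mem_coe, Finset.mem_range] at hi hj
  exact h.inj hi hj hij

include H in
theorem FrS.bad {fr : Fr} (h : FrS fr a b) : mn L (28 + od fr.h 6) = 6 ∧
    mn L (28 + od fr.h 7) = 6 := by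
  rcases h.h67 with ⟨h1, h2⟩ | ⟨h1, h2⟩ <;> rw [h1, h2]
  · exact ⟨mn_of_le H.ba, mn_of_le H.bb⟩
  · exact ⟨mn_of_le H.bb, mn_of_le H.ba⟩

include H in
theorem FrS.sixth {fr : Fr} (h : FrS fr a b) {i : ℕ} (hi : i < 6) :
    mn L (28 + od fr.h i) < 6 := by
  have h1 := H.big _ (od_lt fr.h i) (h.ne hi).1 (h.ne hi).2
  rw [mn_of_lt h1]
  exact h1

theorem digE {fr : Fr} (h : FrS fr a b) {e : ℕ} (he : e &&& 32767 = ix fr.q fr.h (ws L)) {i : ℕ}
    (hi : i < 5) : dd fr.qi (dd e i) = mn L (28 + od fr.h i) := by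
  obtain ⟨x1, x2⟩ := ix_spec fr.q fr.h (ws L)
  have h1 : e &&& 32767 = e % 8 ^ 5 := by
    have := Nat.and_two_pow_sub_one_eq_mod e 15
    norm_num at this ⊢
    exact this
  have h2 : od e i = od fr.q (od (ws L) (od fr.h i)) := by
    rw [← x2 i hi, ← he, h1, CR.L7.od_mod, if_pos hi]
  rw [dd_eq, dd_eq, h2, (okq_spec h.hq).1 _ (od_lt _ _), od_ws L (od_lt _ _)]

include H in
/-- the counts of the entry -/
theorem count_e (hO : O < 8 ^ 27) {fr : Fr} (h : FrS fr a b) {e : ℕ}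
    (he : e &&& 32767 = ix fr.q fr.h (ws L)) :
    Nat.add (cnF 28 (O + 6 * 8 ^ 27)) (s5 fr.qi e) + 64 ^ mn L (28 + od fr.h 5) + 2 * 64 ^ 6 =
      ∑ e ∈ Finset.range 36, 64 ^ mn L e := by
  have h1 : cnF 28 (O + 6 * 8 ^ 27) = ∑ e ∈ Finset.range 28, 64 ^ mn L e := by
    rw [cnF_eq]
    exact Finset.sum_congr rfl (fun e he => by rw [od_P H hO (Finset.mem_range.1 he)])
  have h2 : s5 fr.qi e = 64 ^ mn L (28 + od fr.h 0) + 64 ^ mn L (28 + od fr.h 1) +
      64 ^ mn L (28 + od fr.h 2) + 64 ^ mn L (28 + od fr.h 3) + 64 ^ mn L (28 + od fr.h 4) := by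
    have h3 : s5 fr.qi e = c1 (dd fr.qi (dd e 0)) + c1 (dd fr.qi (dd e 1)) +
        c1 (dd fr.qi (dd e 2)) + c1 (dd fr.qi (dd e 3)) + c1 (dd fr.qi (dd e 4)) := rfl
    rw [h3, digE h he (by norm_num), digE h he (by norm_num), digE h he (by norm_num),
      digE h he (by norm_num), digE h he (by norm_num), c1_eq, c1_eq, c1_eq, c1_eq, c1_eq]
  have h4 := h.sum (fun i => 64 ^ mn L (28 + i))
  obtain ⟨b6, b7⟩ := h.bad H
  have h5 : ∑ e ∈ Finset.range 36, 64 ^ mn L e = ∑ e ∈ Finset.range 28, 64 ^ mn L e +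
      ∑ i ∈ Finset.range 8, 64 ^ mn L (28 + i) := by
    rw [← Finset.sum_range_add]
  rw [h5, ← h4]
  show cnF 28 (O + 6 * 8 ^ 27) + s5 fr.qi e + _ + _ = _
  rw [h1, h2]
  simp only [Finset.sum_range_succ _ 5, Finset.sum_range_succ _ 6, Finset.sum_range_succ _ 7,
    Finset.sum_range_succ _ 4, Finset.sum_range_succ _ 3, Finset.sum_range_succ _ 2,
    Finset.sum_range_succ _ 1, Finset.sum_range_succ _ 0, Finset.sum_range_zero, b6, b7]
  ring

include H in
/-- the size test of the true star -/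
theorem size_e (hO : O < 8 ^ 27) {fr : Fr} (h : FrS fr a b) {e : ℕ}
    (he : e &&& 32767 = ix fr.q fr.h (ws L)) :
    Nat.land (Nat.sub 504 (psum (Nat.add (cnF 28 (O + 6 * 8 ^ 27)) (s5 fr.qi e))))
      (Nat.pred (Nat.sub 504 (psum (Nat.add (cnF 28 (O + 6 * 8 ^ 27)) (s5 fr.qi e))))) = 0 ∧
    pw (Nat.add (cnF 28 (O + 6 * 8 ^ 27)) (s5 fr.qi e)) (mn L (28 + od fr.h 5)) =
      Nat.sub 504 (psum (Nat.add (cnF 28 (O + 6 * 8 ^ 27)) (s5 fr.qi e))) := by
  have hF := count_e H hO h he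
  set N := Nat.add (cnF 28 (O + 6 * 8 ^ 27)) (s5 fr.qi e) with hN
  set x := mn L (28 + od fr.h 5) with hx
  have hx6 : x < 6 := h.sixth H (by norm_num)
  have h504 := sum504 H
  rw [sum_c1 L (Finset.range 36)] at hF
  have hle : ∀ l, cn L (Finset.range 36) l ≤ 36 := fun l => by
    have := cn_le L (Finset.range 36) l
    rwa [Finset.card_range] at this
  have hcx : 1 ≤ cn L (Finset.range 36) x := by
    apply Finset.card_pos.2
    refine ⟨28 + od fr.h 5, ?_⟩
    rw [Finset.mem_filter, Finset.mem_range]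
    exact ⟨by have := od_lt fr.h 5; omega, hx.symm⟩
  have hc6 : 2 ≤ cn L (Finset.range 36) 6 := by
    have h1 : ({28 + a, 28 + b} : Finset ℕ) ⊆
        (Finset.range 36).filter (fun e => mn L e = 6) := by
      intro e he
      rw [Finset.mem_filter, Finset.mem_range]
      rw [Finset.mem_insert, Finset.mem_singleton] at he
      have := H.hab
      have := H.hb
      rcases he with rfl | rfl
      · exact ⟨by omega, mn_of_le H.ba⟩
      · exact ⟨by omega, mn_of_le H.bb⟩
    have h2 := Finset.card_le_card h1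
    rw [Finset.card_insert_of_notMem (by
      rw [Finset.mem_singleton]
      have := H.hab
      omega), Finset.card_singleton] at h2
    exact h2
  -- the counts without the sixth point
  set c : ℕ → ℕ := fun l => if l = x then cn L (Finset.range 36) l - 1 else
    if l = 6 then cn L (Finset.range 36) l - 2 else cn L (Finset.range 36) l with hc
  have hc64 : ∀ l, l < 7 → c l < 64 := by
    intro l _
    have := hle l
    simp only [hc]
    split_ifs <;> omega
  have hcx' : c x = cn L (Finset.range 36) x - 1 := by simp only [hc, if_true]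
  have hNc : N = c 0 + c 1 * 64 + c 2 * 64 ^ 2 + c 3 * 64 ^ 3 + c 4 * 64 ^ 4 + c 5 * 64 ^ 5 +
      c 6 * 64 ^ 6 := by
    have e6 : c 6 = cn L (Finset.range 36) 6 - 2 := by
      show (if 6 = x then cn L (Finset.range 36) 6 - 1 else
        if 6 = 6 then cn L (Finset.range 36) 6 - 2 else cn L (Finset.range 36) 6) = _
      rw [if_neg (by omega), if_pos rfl]
    rw [e6]
    clear_value x
    simp only [hc]
    clear hcx' hc64 h504 hle hc
    interval_cases x <;> norm_num at hF hcx ⊢ <;> omega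
  have hps : psum N = 504 - 2 ^ c x := by
    rw [psum_eq hc64 hNc]
    have h2 : ∑ l ∈ Finset.range 6, 2 ^ c l + 2 ^ c x =
        ∑ l ∈ Finset.range 6, 2 ^ cn L (Finset.range 36) l := by
      rw [← Finset.add_sum_erase _ _ (Finset.mem_range.2 hx6),
        ← Finset.add_sum_erase _ (fun l => 2 ^ cn L (Finset.range 36) l)
          (Finset.mem_range.2 hx6)]
      have h3 : ∑ l ∈ (Finset.range 6).erase x, 2 ^ c l =
          ∑ l ∈ (Finset.range 6).erase x, 2 ^ cn L (Finset.range 36) l := by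
        apply Finset.sum_congr rfl
        intro l hl
        rw [Finset.mem_erase, Finset.mem_range] at hl
        simp only [hc]
        rw [if_neg hl.1, if_neg (by omega)]
      have h4 : 2 ^ cn L (Finset.range 36) x = 2 ^ c x + 2 ^ c x := by
        rw [hcx']
        obtain ⟨n, hn⟩ := Nat.exists_eq_add_of_le hcx
        rw [hn, Nat.add_sub_cancel_left, pow_add]
        ring
      show 2 ^ c x + _ + 2 ^ c x = 2 ^ cn L (Finset.range 36) x + _
      rw [h3, h4]
      ring
    rw [h504] at h2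
    exact Nat.eq_sub_of_add_eq h2
  have hle504 : 2 ^ c x ≤ 504 := by
    have h2 : 2 ^ c x ≤ 2 ^ cn L (Finset.range 36) x :=
      Nat.pow_le_pow_right (by norm_num) (by rw [hcx']; omega)
    have h3 := Finset.single_le_sum (f := fun l => 2 ^ cn L (Finset.range 36) l)
      (fun l _ => Nat.zero_le _) (Finset.mem_range.2 hx6)
    rw [h504] at h3
    exact h2.trans h3
  have hD : Nat.sub 504 (psum N) = 2 ^ c x := by
    show 504 - psum N = _
    rw [hps, Nat.sub_sub_self hle504]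
  rw [hD, pw_eq hc64 hNc hx6]
  refine ⟨?_, rfl⟩
  show 2 ^ c x &&& (2 ^ c x - 1) = 0
  rw [Nat.and_two_pow_sub_one_eq_mod, Nat.mod_self]

include H in
/-- the star of an entry -/
theorem st9_eq {fr : Fr} (h : FrS fr a b) {e : ℕ}
    (he : e &&& 32767 = ix fr.q fr.h (ws L)) :
    st9 fr.qi fr.h e (mn L (28 + od fr.h 5)) = ws L := by
  have h2 : ∀ x y, Nat.shiftLeft x (Nat.mul 3 y) = x * 8 ^ y := by
    intro x y
    show x <<< (3 * y) = _
    rw [Nat.shiftLeft_eq, pow_mul]
    norm_num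
  have h3 : ∀ i, i < 5 → Nat.shiftLeft (dd fr.qi (dd e i)) (Nat.mul 3 (dd fr.h i)) =
      mn L (28 + od fr.h i) * 8 ^ (od fr.h i) := by
    intro i hi
    rw [h2, digE h he hi, dd_eq]
  obtain ⟨b6, b7⟩ := h.bad H
  have h4 : st9 fr.qi fr.h e (mn L (28 + od fr.h 5)) =
      ∑ i ∈ Finset.range 8, mn L (28 + od fr.h i) * 8 ^ (od fr.h i) := by
    unfold st9 unm
    rw [h3 0 (by norm_num), h3 1 (by norm_num), h3 2 (by norm_num), h3 3 (by norm_num),
      h3 4 (by norm_num), h2, h2, h2, dd_eq, dd_eq, dd_eq]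
    simp only [Finset.sum_range_succ _ 5, Finset.sum_range_succ _ 6, Finset.sum_range_succ _ 7,
      Finset.sum_range_succ _ 4, Finset.sum_range_succ _ 3, Finset.sum_range_succ _ 2,
      Finset.sum_range_succ _ 1, Finset.sum_range_succ _ 0, Finset.sum_range_zero, b6, b7,
      Nat.zero_add]
    rfl
  rw [h4, h.sum (fun i => mn L (28 + i) * 8 ^ i)]
  unfold ws
  simp only [Finset.sum_range_succ _ 5, Finset.sum_range_succ _ 6, Finset.sum_range_succ _ 7,
    Finset.sum_range_succ _ 4, Finset.sum_range_succ _ 3, Finset.sum_range_succ _ 2,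
    Finset.sum_range_succ _ 1, Finset.sum_range_succ _ 0, Finset.sum_range_zero, pre]

end nin

/-! ### The reasons -/

theorem hx_lt (t i : ℕ) : hx t i < 16 := by
  show (t >>> (4 * i)) &&& 15 < 16
  exact Nat.lt_of_le_of_lt Nat.and_le_right (by norm_num)

theorem beq_ne {x y : ℕ} {c : Bool} (h : cond (Nat.beq x y) false c = true) : x ≠ y ∧ c = true := by
  rcases h1 : Nat.beq x y with _ | _
  · rw [h1] at h
    refine ⟨fun he => ?_, h⟩
    have h2 : Nat.beq x y = true := by rw [Nat.beq_eq]; exact he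
    rw [h1] at h2
    exact Bool.false_ne_true h2
  · rw [h1] at h
    exact absurd h Bool.false_ne_true

theorem dis5_spec {i j k l m : ℕ} (h : dis5 i j k l m = true) : (i ≠ j ∧ i ≠ k ∧ i ≠ l ∧ i ≠ m ∧
    j ≠ k ∧ j ≠ l ∧ j ≠ m ∧ k ≠ l ∧ k ≠ m ∧ l ≠ m) ∧ i < 9 ∧ j < 9 ∧ k < 9 ∧ l < 9 ∧ m < 9 := by
  unfold dis5 at h
  obtain ⟨h1, h⟩ := beq_ne h
  obtain ⟨h2, h⟩ := beq_ne h
  obtain ⟨h3, h⟩ := beq_ne h
  obtain ⟨h4, h⟩ := beq_ne h
  obtain ⟨h5, h⟩ := beq_ne h
  obtain ⟨h6, h⟩ := beq_ne h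
  obtain ⟨h7, h⟩ := beq_ne h
  obtain ⟨h8, h⟩ := beq_ne h
  obtain ⟨h9, h⟩ := beq_ne h
  obtain ⟨h10, h⟩ := beq_ne h
  obtain ⟨a1, h⟩ := cond_and h
  obtain ⟨a2, h⟩ := cond_and h
  obtain ⟨a3, h⟩ := cond_and h
  obtain ⟨a4, a5⟩ := cond_and h
  have a1 := Nat.le_of_ble_eq_true a1
  have a2 := Nat.le_of_ble_eq_true a2
  have a3 := Nat.le_of_ble_eq_true a3
  have a4 := Nat.le_of_ble_eq_true a4
  have a5 := Nat.le_of_ble_eq_true a5
  exact ⟨⟨h1, h2, h3, h4, h5, h6, h7, h8, h9, h10⟩, by omega, by omega, by omega, by omega,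
    by omega⟩

theorem kl_spec {N a b : ℕ} {k : ℕ → Bool} (h : kl N a b k = true) :
    sl N a b < 6 ∧ k (sl N a b) = true := by
  unfold kl at h
  rw [frc_eq] at h
  obtain ⟨h1, h2⟩ := cond_and h
  have := Nat.le_of_ble_eq_true h1
  exact ⟨by omega, h2⟩

section nin

variable {F : Conf 9} {f : ℕ → Fin 9} {g : ℕ → Fin 8} {L : ℕ → ℕ} {O a b : ℕ}
  (H : Nin F f g L O a b)

include H in
/-- a known label -/
theorem colS (hO : O < 8 ^ 27) {i j : ℕ} (hi : i < 9) (hj : j < 9) (hij : i ≠ j)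
    (h : sl (O + 6 * 8 ^ 27 + ws L * 8 ^ 28) i j < 6) :
    F.c (f i) (f j) = g (sl (O + 6 * 8 ^ 27 + ws L * 8 ^ 28) i j) := by
  rw [sl_eq _ _ _ hi hj hij] at h ⊢
  exact colN H hO hi hj hij h

include H in
theorem rdeg_false (hO : O < 8 ^ 27) {v x y z u : ℕ}
    (h : rdeg (O + 6 * 8 ^ 27 + ws L * 8 ^ 28) v x y z u = true) : False := by
  unfold rdeg at h
  obtain ⟨h1, h⟩ := cond_and h
  obtain ⟨⟨d1, d2, d3, d4, d5, d6, d7, d8, d9, d10⟩, s1, s2, s3, s4, s5⟩ := dis5_spec h1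
  obtain ⟨h2, h⟩ := kl_spec h
  obtain ⟨h3, h⟩ := cond_and h
  obtain ⟨h4, h5⟩ := cond_and h
  have h3 := Nat.eq_of_beq_eq_true h3
  have h4 := Nat.eq_of_beq_eq_true h4
  have h5 := Nat.eq_of_beq_eq_true h5
  have c1 := colS H hO s1 s2 d1 h2
  have c2 := colS H hO s1 s3 d2 (by rw [h3]; exact h2)
  have c3 := colS H hO s1 s4 d3 (by rw [h4]; exact h2)
  have c4 := colS H hO s1 s5 d4 (by rw [h5]; exact h2)
  rw [h3] at c2
  rw [h4] at c3
  rw [h5] at c4
  exact F.deg_le (f v) (f x) (f y) (f z) (f u) (H.ne s1 s2 d1) (H.ne s1 s3 d2) (H.ne s1 s4 d3)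
    (H.ne s1 s5 d4) (H.ne s2 s3 d5) (H.ne s2 s4 d6) (H.ne s2 s5 d7) (H.ne s3 s4 d8)
    (H.ne s3 s5 d9) (H.ne s4 s5 d10) (c1.trans c2.symm) (c1.trans c3.symm) (c1.trans c4.symm)

include H in
theorem eqe_col (hO : O < 8 ^ 27) {u v x : ℕ} (hu : u < 9) (hv : v < 9) (hx : x < 9)
    (hux : u ≠ x) (hvx : v ≠ x) (h : eqe (O + 6 * 8 ^ 27 + ws L * 8 ^ 28) u v x = true) :
    F.c (f u) (f x) = F.c (f v) (f x) := by
  obtain ⟨h2, h⟩ := kl_spec h
  have h3 := Nat.eq_of_beq_eq_true h
  have c1 := colS H hO hu hx hux h2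
  have c2 := colS H hO hv hx hvx (by rw [h3]; exact h2)
  rw [h3] at c2
  exact c1.trans c2.symm

include H in
theorem rapx_false (hO : O < 8 ^ 27) {u v x y z : ℕ}
    (h : rapx (O + 6 * 8 ^ 27 + ws L * 8 ^ 28) u v x y z = true) : False := by
  unfold rapx at h
  obtain ⟨h1, h⟩ := cond_and h
  obtain ⟨⟨d1, d2, d3, d4, d5, d6, d7, d8, d9, d10⟩, s1, s2, s3, s4, s5⟩ := dis5_spec h1
  obtain ⟨h2, h⟩ := cond_and h
  obtain ⟨h3, h4⟩ := cond_and h
  exact F.apex_le (f u) (f v) (f x) (f y) (f z) (H.ne s1 s2 d1) (H.ne s1 s3 d2) (H.ne s1 s4 d3)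
    (H.ne s1 s5 d4) (H.ne s2 s3 d5) (H.ne s2 s4 d6) (H.ne s2 s5 d7) (H.ne s3 s4 d8)
    (H.ne s3 s5 d9) (H.ne s4 s5 d10) (eqe_col H hO s1 s2 s3 d2 d5 h2)
    (eqe_col H hO s1 s2 s4 d3 d6 h3) (eqe_col H hO s1 s2 s5 d4 d7 h4)

end nin

/-! ### The certificates of seven points -/

theorem sl_lt (P a b : ℕ) : sl P a b < 8 := by
  show (P >>> ((SYM >>> (128 * a + 8 * b)) &&& 127)) &&& 7 < 8
  exact Nat.lt_of_le_of_lt Nat.and_le_right (by norm_num)

theorem c6_aux (P h : ℕ) : ∀ (L : List ℕ) (o e0 : ℕ),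
    (∀ t, ∀ ht : t < L.length, L[t] >>> 10 = 3 * (e0 + t)) → (∀ e, e0 ≤ e → dg3 o e = 0) →
    (∀ e, e < e0 → dg3 (c6 P h L o) e = dg3 o e) ∧
    (∀ e, e0 + L.length ≤ e → dg3 (c6 P h L o) e = 0) ∧
    ∀ t, ∀ ht : t < L.length, dg3 (c6 P h L o) (e0 + t) = el P h L[t] := by
  intro L
  induction L with
  | nil =>
    intro o e0 _ ho
    refine ⟨fun _ _ => rfl, fun e he => ho e (by simpa using he), ?_⟩
    intro t ht
    simp at ht
  | cons q L ih =>
    intro o e0 hq ho
    have hq0 : q >>> 10 = 3 * e0 := by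
      have := hq 0 (by simp)
      simpa using this
    have hq' : ∀ t, ∀ ht : t < L.length, L[t] >>> 10 = 3 * (e0 + 1 + t) := by
      intro t ht
      have := hq (t + 1) (by simpa using ht)
      simp only [List.getElem_cons_succ] at this
      rw [this]
      ring
    have hel : el P h q < 8 := sl_lt _ _ _
    have h0 : c6 P h (q :: L) o = c6 P h L (o ||| (el P h q) <<< (q >>> 10)) := rfl
    have ho1 : ∀ e, dg3 (o ||| el P h q <<< (3 * e0)) e =
        dg3 o e ||| dg3 (el P h q <<< (3 * e0)) e := fun e => dg3_or _ _ _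
    obtain ⟨a1, a2, a3⟩ := ih (o ||| el P h q <<< (3 * e0)) (e0 + 1) hq' (by
      intro e he
      rw [ho1, ho e (by omega), dg3_shift _ _ _ hel, if_neg (by omega), Nat.zero_or])
    rw [h0, hq0]
    refine ⟨?_, ?_, ?_⟩
    · intro e he
      rw [a1 e (by omega), ho1, dg3_shift _ _ _ hel, if_neg (by omega), Nat.or_zero]
    · intro e he
      exact a2 e (by simp only [List.length_cons] at he; omega)
    · intro t ht
      cases t with
      | zero =>
        simp only [List.getElem_cons_zero, Nat.add_zero]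
        rw [a1 e0 (by omega), ho1, ho e0 le_rfl, dg3_shift _ _ _ hel, if_pos rfl,
          Nat.zero_or]
      | succ t =>
        simp only [List.getElem_cons_succ]
        have ht' : t < L.length := by simpa using ht
        have := a3 t ht'
        rw [← this]
        congr 1
        ring

theorem c6_spec (P h : ℕ) : c6 P h EL6 0 < 8 ^ 15 ∧
    ∀ i j, i < j → j < 6 → od (c6 P h EL6 0) (eo i j) = sl P (od h i) (od h j) := by
  obtain ⟨-, N2, N3⟩ := c6_aux P h EL6 0 0
    (fun t ht => by rw [edgeList6.shift t ht, Nat.zero_add]) (fun e _ => dg3_zero e)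
  refine ⟨CR.L7.lt_of_od _ 15 (fun e he => by
    rw [← dg3_eq]
    exact N2 e (by simpa [EL6] using he)), ?_⟩
  intro i j hij hj
  obtain ⟨ht, e1, e2⟩ := edgeList6.edge j hj i hij
  have h6 := N3 (eo i j) ht
  rw [Nat.zero_add, dg3_eq] at h6
  rw [h6]
  show sl P ((h >>> (EL6[eo i j] &&& 31)) &&& 7)
    ((h >>> ((EL6[eo i j] >>> 5) &&& 31)) &&& 7) = _
  rw [e1, e2, ← dg3_eq, ← dg3_eq]
  rfl

theorem w6_spec (w h : ℕ) : w6 w h < 8 ^ 6 ∧
    ∀ i, i < 6 → od (w6 w h) i = od w (od h i) := by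
  have e : w6 w h = dd w (dd h 0) + 8 * (dd w (dd h 1) + 8 * (dd w (dd h 2) +
    8 * (dd w (dd h 3) + 8 * (dd w (dd h 4) + 8 * dd w (dd h 5))))) := rfl
  have h0 := dd_lt w (dd h 0)
  have h1 := dd_lt w (dd h 1)
  have h2 := dd_lt w (dd h 2)
  have h3 := dd_lt w (dd h 3)
  have h4 := dd_lt w (dd h 4)
  have h5 := dd_lt w (dd h 5)
  rw [e]
  refine ⟨by norm_num; omega, fun i hi => ?_⟩
  rw [← dd_eq w, ← dd_eq h]
  unfold od
  interval_cases i <;> norm_num <;> omega

theorem dis6_spec {h : ℕ} (hd : dis6 h = true) : ∀ i j, i < 6 → j < 6 → od h i = od h j →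
    i = j := by
  unfold dis6 at hd
  obtain ⟨h1, hd⟩ := cond_and hd
  obtain ⟨⟨d1, d2, d3, d4, d5, d6, d7, d8, d9, d10⟩, -⟩ := dis5_spec h1
  obtain ⟨c1, hd⟩ := beq_ne hd
  obtain ⟨c2, hd⟩ := beq_ne hd
  obtain ⟨c3, hd⟩ := beq_ne hd
  obtain ⟨c4, hd⟩ := beq_ne hd
  obtain ⟨c5, -⟩ := beq_ne hd
  simp only [dd_eq] at d1 d2 d3 d4 d5 d6 d7 d8 d9 d10 c1 c2 c3 c4 c5
  intro i j hi hj he
  by_contra hne
  interval_cases i <;> interval_cases j <;>
    first
    | exact hne rfl
    | exact d1 he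
    | exact d2 he
    | exact d3 he
    | exact d4 he
    | exact d5 he
    | exact d6 he
    | exact d7 he
    | exact d8 he
    | exact d9 he
    | exact d10 he
    | exact c1 he
    | exact c2 he
    | exact c3 he
    | exact c4 he
    | exact c5 he
    | exact d1 he.symm
    | exact d2 he.symm
    | exact d3 he.symm
    | exact d4 he.symm
    | exact d5 he.symm
    | exact d6 he.symm
    | exact d7 he.symm
    | exact d8 he.symm
    | exact d9 he.symm
    | exact d10 he.symm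
    | exact c1 he.symm
    | exact c2 he.symm
    | exact c3 he.symm
    | exact c4 he.symm
    | exact c5 he.symm

def m21 : ℕ := 0o111111111111111111111

theorem m21_bit : ∀ t, t < 21 → m21.testBit (3 * t) = true := by decide +kernel

theorem one6_spec {N : ℕ} (h : one6 N = true) : ∀ e1 e2, e1 < 21 → e2 < 21 → 6 ≤ od N e1 →
    6 ≤ od N e2 → e1 = e2 := by
  have h0 : (m6 N) &&& (m6 N - 1) = 0 := Nat.eq_of_beq_eq_true h
  have hbit : ∀ e, e < 21 → 6 ≤ od N e → (m6 N).testBit (3 * e) = true := by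
    intro e he h6
    have h1 : m6 N = ((N >>> 1) &&& (N >>> 2)) &&& m21 := rfl
    rw [h1, Nat.testBit_and, m21_bit e he, Bool.and_true, Nat.testBit_and,
      Nat.testBit_shiftRight, Nat.testBit_shiftRight, Nat.add_comm 1, Nat.add_comm 2]
    have h2 : ∀ i, i < 3 → (od N e).testBit i = N.testBit (3 * e + i) := by
      intro i hi
      rw [← dg3_eq]
      unfold dg3
      rw [Nat.testBit_and, Nat.testBit_shiftRight]
      have : (7 : ℕ).testBit i = true := by
        interval_cases i <;> rfl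
      rw [this, Bool.and_true]
    have h3 := od_lt N e
    rw [← h2 1 (by norm_num), ← h2 2 (by norm_num)]
    revert h6 h3
    generalize od N e = d
    intro h6 h3
    interval_cases d <;> decide
  intro e1 e2 he1 he2 h1 h2
  have b1 := hbit e1 he1 h1
  have b2 := hbit e2 he2 h2
  have hne : m6 N ≠ 0 := fun h => by
    rw [h, Nat.zero_testBit] at b1
    exact Bool.false_ne_true b1
  obtain ⟨k, hk⟩ := (Nat.and_sub_one_eq_zero_iff_isPowerOfTwo hne).1 h0
  rw [hk, Nat.testBit_two_pow, decide_eq_true_eq] at b1 b2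
  omega

section nin

variable {F : Conf 9} {f : ℕ → Fin 9} {g : ℕ → Fin 8} {L : ℕ → ℕ} {O a b : ℕ}
  (H : Nin F f g L O a b)

/-- the label of an edge with unordered ends -/
def tl (L : ℕ → ℕ) (x y : ℕ) : ℕ := if x < y then L (eo x y) else L (eo y x)

include H in
theorem col_tl {x y : ℕ} (hx : x < 9) (hy : y < 9) (hxy : x ≠ y) :
    F.c (f x) (f y) = g (tl L x y) := by
  unfold tl
  rcases Nat.lt_or_gt_of_ne hxy with h | h
  · rw [if_pos h]
    exact H.col x y h hy
  · rw [if_neg (by omega), F.symm]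
    exact H.col y x h hx

include H in
theorem labs_tl (hO : O < 8 ^ 27) {x y : ℕ} (hx : x < 9) (hy : y < 9) (hxy : x ≠ y) :
    labs (O + 6 * 8 ^ 27 + ws L * 8 ^ 28) x y = if tl L x y < 6 then tl L x y else 6 := by
  unfold labs tl
  rcases Nat.lt_or_gt_of_ne hxy with h | h
  · rw [if_pos h, if_pos h, lab_eq_od, od_N H hO (e_spec y hy x h).2.2]
    rfl
  · have h' : ¬ x < y := by omega
    rw [if_neg h', if_neg h', lab_eq_od, od_N H hO (e_spec x hx y h).2.2]
    rfl

/-- the exchange of the bad labels -/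
def swp (t : Bool) (l : ℕ) : ℕ := cond t (if l = 6 then 7 else if l = 7 then 6 else l) l

theorem swp_inj (t : Bool) {x y : ℕ} (hxy : swp t x = swp t y) : x = y := by
  unfold swp at hxy
  cases t
  · exact hxy
  · simp only [cond_true] at hxy
    split_ifs at hxy <;> omega

theorem swp_lt (t : Bool) {x : ℕ} (hx : x < 8) : swp t x < 8 := by
  unfold swp
  cases t
  · exact hx
  · simp only [cond_true]
    split_ifs <;> omega

theorem swp_id (t : Bool) {x : ℕ} (hx : x < 6) : swp t x = x := by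
  unfold swp
  cases t
  · rfl
  · simp only [cond_true]
    rw [if_neg (by omega), if_neg (by omega)]

include H in
/-- a pattern with at most one bad edge -/
theorem occ_swap {N : ℕ} {pt : ℕ → ℕ} (pt9 : ∀ i, pt i < 9)
    (ptinj : ∀ i j, i < j → j < 7 → pt i ≠ pt j)
    (hdig : ∀ i j, i < j → j < 7 → od N (eo i j) =
      if tl L (pt i) (pt j) < 6 then tl L (pt i) (pt j) else 6)
    (huni : ∀ e1 e2, e1 < 21 → e2 < 21 → 6 ≤ od N e1 → 6 ≤ od N e2 → e1 = e2) :
    Realk 7 8 N := by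
  have tl8 : ∀ x y, tl L x y < 8 := fun x y => by
    unfold tl
    split_ifs <;> exact H.lt _
  have e21 : ∀ x y, x < y → y < 7 → eo x y < 21 := fun x y hxy hy => by
    unfold eo
    interval_cases y <;> omega
  -- there is a choice of `t`
  obtain ⟨t, ht⟩ : ∃ t : Bool, ∀ i j, i < j → j < 7 → ¬ tl L (pt i) (pt j) < 6 →
      tl L (pt i) (pt j) = swp t 6 := by
    by_cases hsw : ∃ i j, i < j ∧ j < 7 ∧ tl L (pt i) (pt j) = 7
    · obtain ⟨i, j, hij, hj, h7⟩ := hsw
      refine ⟨true, fun i' j' hij' hj' h6 => ?_⟩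
      have h8 := hdig i j hij hj
      rw [if_neg (by omega)] at h8
      have h9 := hdig i' j' hij' hj'
      rw [if_neg h6] at h9
      have h10 := huni _ _ (e21 i j hij hj) (e21 i' j' hij' hj') (by omega) (by omega)
      have a1 := e_spec j (by omega) i hij
      have a2 := e_spec j' (by omega) i' hij'
      rw [h10] at a1
      have e1 : j = j' := by rw [← a1.1, a2.1]
      have e2 : i = i' := by rw [← a1.2.1, a2.2.1]
      rw [← e1, ← e2, h7]
      rfl
    · refine ⟨false, fun i j hij hj h6 => ?_⟩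
      have h7 : tl L (pt i) (pt j) ≠ 7 := fun h => hsw ⟨i, j, hij, hj, h⟩
      have := tl8 (pt i) (pt j)
      show tl L (pt i) (pt j) = 6
      omega
  have hocc : Occ F 7 (fun i => f (pt i)) (fun l => g (swp t l)) N := by
    refine ⟨?_, ?_, ?_⟩
    · intro i j hi hj hij
      have h2 := H.inj _ _ (pt9 i) (pt9 j) hij
      by_contra hne
      rcases Nat.lt_or_gt_of_ne hne with h3 | h3
      · exact ptinj i j h3 hj h2
      · exact ptinj j i h3 hi h2.symm
    · intro x y hx hy hxy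
      exact swp_inj t (H.ginj _ _ (swp_lt t hx) (swp_lt t hy) hxy)
    · intro i j hij hj
      show F.c (f (pt i)) (f (pt j)) = g (swp t (lab N i j))
      rw [col_tl H (pt9 i) (pt9 j) (ptinj i j hij hj), lab_eq_od, hdig i j hij hj]
      congr 1
      by_cases h3 : tl L (pt i) (pt j) < 6
      · rw [if_pos h3, swp_id t h3]
      · rw [if_neg h3]
        exact ht i j hij hj h3
  exact hocc.real

include H in
/-- a sub-pattern of seven points with the ninth point and at most one bad edge -/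
theorem real7 (hO : O < 8 ^ 27) {h : ℕ} (hd : dis6 h = true)
    (h1 : one6 (Nat.add (c6 (O + 6 * 8 ^ 27) h EL6 0)
      (Nat.shiftLeft (w6 (ws L) h) 45)) = true) :
    Realk 7 8 (Nat.add (c6 (O + 6 * 8 ^ 27) h EL6 0) (Nat.shiftLeft (w6 (ws L) h) 45)) := by
  obtain ⟨c1, c2⟩ := c6_spec (O + 6 * 8 ^ 27) h
  obtain ⟨u1, u2⟩ := w6_spec (ws L) h
  have hinj := dis6_spec hd
  have hN : Nat.add (c6 (O + 6 * 8 ^ 27) h EL6 0) (Nat.shiftLeft (w6 (ws L) h) 45) =
      c6 (O + 6 * 8 ^ 27) h EL6 0 + w6 (ws L) h * 8 ^ 15 := by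
    show c6 (O + 6 * 8 ^ 27) h EL6 0 + (w6 (ws L) h) <<< 45 = _
    rw [Nat.shiftLeft_eq, show (2 : ℕ) ^ 45 = 8 ^ 15 by norm_num]
  rw [hN] at h1 ⊢
  have huni := one6_spec h1
  have pt9 : ∀ i, (if i < 6 then od h i else 8) < 9 := fun i => by
    split_ifs
    · have := od_lt h i
      omega
    · norm_num
  have ptinj : ∀ i j, i < j → j < 7 →
      (if i < 6 then od h i else 8) ≠ (if j < 6 then od h j else 8) := fun i j hij hj he => by
    rw [if_pos (by omega)] at he
    split_ifs at he with h2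
    · have := hinj i j (by omega) h2 he
      omega
    · have := od_lt h i
      omega
  refine occ_swap H (pt := fun i => if i < 6 then od h i else 8) pt9 ptinj ?_ huni
  intro i j hij hj
  have hne := ptinj i j hij hj
  show od _ _ = if tl L (if i < 6 then od h i else 8) (if j < 6 then od h j else 8) < 6 then
    tl L (if i < 6 then od h i else 8) (if j < 6 then od h j else 8) else 6
  have hi6 : i < 6 := by omega
  rw [if_pos hi6] at hne ⊢
  have k1 : od h i < 8 := od_lt _ _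
  rw [od_add _ _ _ _ c1]
  by_cases h2 : j < 6
  · rw [if_pos h2] at hne ⊢
    have k2 : od h j < 8 := od_lt _ _
    have he : eo i j < 15 := by
      unfold eo
      interval_cases j <;> omega
    rw [← labs_tl H hO (by omega) (by omega) hne, if_pos he, c2 i j hij h2,
      sl_eq _ _ _ (by omega) (by omega) hne]
    have key : ∀ x y, x < y → y < 8 → lab (O + 6 * 8 ^ 27) x y =
        lab (O + 6 * 8 ^ 27 + ws L * 8 ^ 28) x y := by
      intro x y hxy hy
      rw [lab_eq_od, lab_eq_od]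
      have h8 : eo x y < 28 := by
        unfold eo
        interval_cases y <;> omega
      rw [od_P H hO h8, od_N H hO (by omega)]
    unfold labs
    rcases Nat.lt_or_gt_of_ne hne with h8 | h8
    · rw [if_pos h8, if_pos h8]
      exact key _ _ h8 k2
    · have h9 : ¬ od h i < od h j := by omega
      rw [if_neg h9, if_neg h9]
      exact key _ _ h8 k1
  · rw [if_neg h2] at hne ⊢
    have h3 : j = 6 := by omega
    subst h3
    have he : eo i 6 = 15 + i := by unfold eo; omega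
    have h4 : ¬ (15 + i < 15) := by omega
    rw [← labs_tl H hO (by omega) (by norm_num) hne, he, if_neg h4, Nat.add_sub_cancel_left,
      u2 i hi6]
    unfold labs
    rw [if_pos k1, lab_eq_od]
    have h5 : eo (od h i) 8 = 28 + od h i := by unfold eo; omega
    rw [h5, od_N H hO (by omega), od_ws L k1]

end nin

/-! ### The check -/

theorem memK_spec {w : ℕ} : ∀ {K : List Kr}, memK w K = true → ∃ r ∈ K, r.w = w
  | [], h => absurd h Bool.false_ne_true
  | r :: K, h => by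
    have h' : cond (Nat.beq r.w w) true (memK w K) = true := h
    rcases cond_or h' with h1 | h1
    · exact ⟨r, List.mem_cons_self, Nat.eq_of_beq_eq_true h1⟩
    · obtain ⟨e, he, h2⟩ := memK_spec h1
      exact ⟨e, List.mem_cons_of_mem _ he, h2⟩

theorem okKs_spec {ok : ℕ → ℕ → Bool} {P : ℕ} : ∀ {K : List Kr}, okKs ok P K = true →
    ∀ r ∈ K, okKr ok P r = true
  | [], _, r, h => absurd h List.not_mem_nil
  | a :: K, h, r, hr => by
    have h' : cond (okKr ok P a) (okKs ok P K) false = true := h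
    obtain ⟨h1, h2⟩ := cond_and h'
    rcases List.mem_cons.1 hr with rfl | hr
    · exact h1
    · exact okKs_spec h2 r hr

theorem okFs9_spec {P : ℕ} {T5 : ℕ → ℕ} {a b : ℕ} : ∀ {fs : List Fr},
    okFs9 P T5 a b fs = true → ∀ fr ∈ fs, okF9 P T5 a b fr = true
  | [], _, fr, h => absurd h List.not_mem_nil
  | x :: fs, h, fr, hfr => by
    have h' : cond (okF9 P T5 a b x) (okFs9 P T5 a b fs) false = true := h
    obtain ⟨h1, h2⟩ := cond_and h'
    rcases List.mem_cons.1 hfr with rfl | hfr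
    · exact h1
    · exact okFs9_spec h2 fr hfr

theorem add84 (P w : ℕ) : Nat.add P (Nat.shiftLeft w 84) = P + w * 8 ^ 28 := by
  show P + w <<< 84 = _
  rw [Nat.shiftLeft_eq, show (2 : ℕ) ^ 84 = 8 ^ 28 by norm_num]

section nin

variable {F : Conf 9} {f : ℕ → Fin 9} {g : ℕ → Fin 8} {L : ℕ → ℕ} {O a b : ℕ}
  (H : Nin F f g L O a b)

include H in
theorem kr_false {ok : ℕ → ℕ → Bool} (hok : ∀ P C, ok P C = true → ¬ Realk 7 8 P)
    (hO : O < 8 ^ 27) {r : Kr} (hr : okKr ok (O + 6 * 8 ^ 27) r = true) (hw : r.w = ws L) :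
    False := by
  cases r with
  | deg w t =>
    have hw' : w = ws L := hw
    subst hw'
    have h1 : rdeg (Nat.add (O + 6 * 8 ^ 27) (Nat.shiftLeft (ws L) 84)) (hx t 0) (hx t 1)
      (hx t 2) (hx t 3) (hx t 4) = true := hr
    rw [add84] at h1
    exact rdeg_false H hO h1
  | apx w t =>
    have hw' : w = ws L := hw
    subst hw'
    have h1 : rapx (Nat.add (O + 6 * 8 ^ 27) (Nat.shiftLeft (ws L) 84)) (hx t 0) (hx t 1)
      (hx t 2) (hx t 3) (hx t 4) = true := hr
    rw [add84] at h1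
    exact rapx_false H hO h1
  | c7 w h C =>
    have hw' : w = ws L := hw
    subst hw'
    have h1 : cond (dis6 h) (frc (Nat.add (c6 (O + 6 * 8 ^ 27) h EL6 0)
      (Nat.shiftLeft (w6 (ws L) h) 45)) (fun N => cond (one6 N) (ok N C) false)) false = true :=
      hr
    obtain ⟨h2, h3⟩ := cond_and h1
    rw [frc_eq] at h3
    obtain ⟨h4, h5⟩ := cond_and h3
    exact hok _ _ h5 (real7 H hO h2 h4)

include H in
/-- one pair -/
theorem chkAB_mem {T5 : ℕ → ℕ} {RT : ℕ → List ℕ} (hTab : Tabs F T5 RT)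
    {ok : ℕ → ℕ → Bool} (hok : ∀ P C, ok P C = true → ¬ Realk 7 8 P) (hO : O < 8 ^ 27)
    {m : Fr} {fs : List Fr} {X : List ℕ} {K : List Kr}
    (h : chkAB T5 RT (O + 6 * 8 ^ 27) (cnF 28 (O + 6 * 8 ^ 27)) a b m fs X K = true)
    (hK : okKs ok (O + 6 * 8 ^ 27) K = true) : ws L ∈ X := by
  obtain ⟨h1, h⟩ := cond_and h
  obtain ⟨h2, h⟩ := cond_and h
  obtain ⟨e, he, hev⟩ := frame_mem9 H hTab hO h1
  obtain ⟨hfr, -⟩ := okF9_spec H.hab H.hb h1
  have h3 := allb_spec _ _ h e he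
  simp only [frc_eq] at h3
  obtain ⟨s1, s2⟩ := size_e H hO hfr hev
  unfold chkE at h3
  have s1' : Nat.beq (Nat.land (Nat.sub 504 (psum (Nat.add (cnF 28 (O + 6 * 8 ^ 27))
      (s5 m.qi e)))) (Nat.pred (Nat.sub 504 (psum (Nat.add (cnF 28 (O + 6 * 8 ^ 27))
      (s5 m.qi e)))))) 0 = true := by rw [Nat.beq_eq]; exact s1
  rw [s1', cond_true] at h3
  have h4 := all6_spec h3 _ (hfr.sixth H (i := 5) (by norm_num))
  have s2' : Nat.beq (pw (Nat.add (cnF 28 (O + 6 * 8 ^ 27)) (s5 m.qi e))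
      (mn L (28 + od m.h 5))) (Nat.sub 504 (psum (Nat.add (cnF 28 (O + 6 * 8 ^ 27))
      (s5 m.qi e)))) = true := by rw [Nat.beq_eq]; exact s2
  rw [s2', cond_true, frc_eq, st9_eq H hfr hev] at h4
  have hnx : ∀ L' : List Fr, (∀ fr ∈ L', okF9 (O + 6 * 8 ^ 27) T5 a b fr = true) →
      excl RT L' (ws L) = false := by
    intro L'
    induction L' with
    | nil => intro _; rfl
    | cons fr L' ih =>
      intro hL
      rw [excl_cons, bit_of_mem (frame_mem9 H hTab hO (hL fr List.mem_cons_self)), cond_true]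
      exact ih (fun fr' h' => hL fr' (List.mem_cons_of_mem _ h'))
  unfold chkW at h4
  rw [hnx fs (okFs9_spec h2), cond_false] at h4
  rcases cond_or h4 with h5 | h5
  · exfalso
    obtain ⟨r, hr, hw⟩ := memK_spec h5
    exact kr_false H hok hO (okKs_spec hK r hr) hw
  · exact mem0_spec h5

end nin

theorem chkP_spec {T5 : ℕ → ℕ} {RT : ℕ → List ℕ} {ok : ℕ → ℕ → Bool} {P B : ℕ} {X : List ℕ} :
    ∀ (Q : List ℕ) (L : List AB), chkP T5 RT ok P B X Q L = true → ∀ q ∈ Q,
      ∃ m fs K, chkAB T5 RT P B (q &&& 7) (q >>> 3) m fs X K = true ∧ okKs ok P K = true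
  | [], _, _, q, hq => absurd hq List.not_mem_nil
  | q0 :: Q, [], h, q, hq => absurd h Bool.false_ne_true
  | q0 :: Q, .mk m fs K :: L, h, q, hq => by
    have h' : cond (chkAB T5 RT P B (q0 &&& 7) (q0 >>> 3) m fs X K)
      (cond (okKs ok P K) (chkP T5 RT ok P B X Q L) false) false = true := h
    obtain ⟨h1, h'⟩ := cond_and h'
    obtain ⟨h2, h3⟩ := cond_and h'
    rcases List.mem_cons.1 hq with rfl | hq
    · exact ⟨m, fs, K, h1, h2⟩
    · exact chkP_spec Q L h3 q hq

theorem pab_mem : ∀ a b : Fin 8, a.val < b.val → a.val + 8 * b.val ∈ PAB ∧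
    (a.val + 8 * b.val) &&& 7 = a.val ∧ (a.val + 8 * b.val) >>> 3 = b.val := by
  decide +kernel

/-- the exempted stars of the pattern `O` do not occur -/
def Xok (O : ℕ) (X : List ℕ) : Prop :=
  ∀ w ∈ X, ∀ (F : Conf 9) (f : ℕ → Fin 9) (g : ℕ → Fin 8) (L : ℕ → ℕ) (a b : ℕ),
    Nin F f g L O a b → ws L = w → False

/-- **level 9 in case (ii)** for one pattern -/
theorem d9_of_chk {T5 : ℕ → ℕ} {RT : ℕ → List ℕ} (hTab : ∀ F, Tabs F T5 RT)
    {ok : ℕ → ℕ → Bool} (hok : ∀ P C, ok P C = true → ¬ Realk 7 8 P) {O : ℕ} (hO : O < 8 ^ 27)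
    (hO6 : ∀ e, e < 27 → od O e < 6) {X : List ℕ} {L' : List AB}
    (h : chkO T5 RT ok O X L' = true) (hX : Xok O X) : D9 O := by
  intro F f g hf hg0 hg hc hb
  obtain ⟨L, a, b, H⟩ := exists_nin hO6 hf hg0 hg hc hb
  have h1 : chkP T5 RT ok (O + 6 * 8 ^ 27) (cnF 28 (O + 6 * 8 ^ 27)) X PAB L' = true := by
    unfold chkO at h
    rw [frc_eq, frc_eq] at h
    have e : Nat.add O (Nat.shiftLeft 6 81) = O + 6 * 8 ^ 27 := by
      show O + 6 <<< 81 = _
      rw [Nat.shiftLeft_eq, show (2 : ℕ) ^ 81 = 8 ^ 27 by norm_num]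
    rw [e] at h
    exact h
  obtain ⟨p1, p2, p3⟩ := pab_mem ⟨a, by have := H.hab; have := H.hb; omega⟩ ⟨b, H.hb⟩ H.hab
  obtain ⟨m, fs, K, h2, h3⟩ := chkP_spec PAB L' h1 _ p1
  rw [p2, p3] at h2
  exact hX _ (chkAB_mem H (hTab F) hok hO h2 h3) F f _ L a b H rfl

end CR.C2
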