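import Pool.Agent.Lib.MP_6f5d36_co.C2.Nine
import Pool.Agent.Lib.MP_6f5d36_co.Cert

set_option autoImplicit false

/-!
# MP_6f5d36_co, case (ii) : level 9, the four stars which need certificates of eight points

In the three colourings of the bad edges `67`, `a8`, `b8` (one has the label 7, two the label 6) a
sub-pattern of eight points has a certificate.
-/

namespace CR.C2

open CR.L7 (od_add)
open CR.L9 (pre pre_lt pre_congr pre_od e_spec e_spec2)

theorem pre_one (M : ℕ → ℕ) (k : ℕ) : ∀ n, pre (fun e => M e + if e = k then 1 else 0) n =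
    pre M n + if k < n then 8 ^ k else 0
  | 0 => by simp [pre]
  | n + 1 => by
    rw [pre, pre, pre_one M k n]
    rcases Nat.lt_trichotomy k n with h | h | h
    · have e1 : ¬ n = k := by omega
      have e2 : k < n + 1 := by omega
      rw [if_pos h, if_neg e1, if_pos e2]
      ring
    · subst h
      have e1 : ¬ k < k := by omega
      have e2 : k < k + 1 := by omega
      rw [if_neg e1, if_pos rfl, if_pos e2]
      ring
    · have e0 : ¬ k < n := by omega
      have e1 : ¬ n = k := by omega
      have e2 : ¬ k < n + 1 := by omega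
      rw [if_neg e0, if_neg e1, if_neg e2]
      ring

/-- the star `w` of the pattern `O` does not occur -/
theorem xok_one {O w a b : ℕ} (hO : O < 8 ^ 27) (hab : a < b)
    (hw : ∀ i, i < 8 → i ≠ a → i ≠ b → od w i < 6) {h1 C1 h2 C2 h3 C3 : ℕ}
    (s1 : L9.subv 36 h1 28 = true) (s2 : L9.subv 36 h2 28 = true)
    (s3 : L9.subv 36 h3 28 = true)
    (k1 : Ker.cert8 8 (L9.sub (O + 6 * 8 ^ 27 + w * 8 ^ 28 + 8 ^ 27) h1 28) C1 = true)
    (k2 : Ker.cert8 8 (L9.sub (O + 6 * 8 ^ 27 + w * 8 ^ 28 + 8 ^ (28 + a)) h2 28) C2 = true)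
    (k3 : Ker.cert8 8 (L9.sub (O + 6 * 8 ^ 27 + w * 8 ^ 28 + 8 ^ (28 + b)) h3 28) C3 = true)
    (F : Conf 9) (f : ℕ → Fin 9) (g : ℕ → Fin 8) (L : ℕ → ℕ) (a' b' : ℕ)
    (H : Nin F f g L O a' b') (hws : ws L = w) : False := by
  have hb' := H.hb
  have hab' := H.hab
  have ha6 : od w a' = 6 := by rw [← hws, od_ws L (by omega), mn_of_le H.ba]
  have hb6 : od w b' = 6 := by rw [← hws, od_ws L hb', mn_of_le H.bb]
  have ha : a' = a ∨ a' = b := by
    by_contra hc
    push Not at hc
    have := hw a' (by omega) hc.1 hc.2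
    omega
  have hb2 : b' = a ∨ b' = b := by
    by_contra hc
    push Not at hc
    have := hw b' hb' hc.1 hc.2
    omega
  have ea : a' = a := by omega
  have eb : b' = b := by omega
  rw [ea, eb] at H
  -- the edge with the label 7
  have hc7 := H.card 7 (by norm_num)
  rw [H.g7] at hc7
  obtain ⟨k, hk⟩ := Finset.card_eq_one.1 (show _ = 1 from hc7)
  have hk7 : ∀ e, e < 36 → (L e = 7 ↔ e = k) := by
    intro e he
    have h1 : e ∈ (Finset.range 36).filter (fun e => L e = 7) ↔ e = k := by
      rw [hk, Finset.mem_singleton]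
    rw [← h1, Finset.mem_filter, Finset.mem_range]
    exact ⟨fun h => ⟨he, h⟩, fun h => h.2⟩
  have hkm : k < 36 ∧ L k = 7 := by
    have : k ∈ (Finset.range 36).filter (fun e => L e = 7) := by
      rw [hk, Finset.mem_singleton]
    rw [Finset.mem_filter, Finset.mem_range] at this
    exact this
  have hpre : pre L 36 = O + 6 * 8 ^ 27 + w * 8 ^ 28 + 8 ^ k := by
    have h1 : pre L 36 = pre (fun e => mn L e + if e = k then 1 else 0) 36 := by
      apply pre_congr
      intro e he
      by_cases h2 : e = k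
      · rw [if_pos h2, h2, hkm.2, mn_of_le (by rw [hkm.2]; norm_num)]
      · rw [if_neg h2, Nat.add_zero]
        unfold mn
        split_ifs with h3
        · rfl
        · have := H.lt e
          have h4 := (hk7 e he).not.2 h2
          omega
    rw [h1, pre_one, if_pos hkm.1]
    congr 1
    have h2 : pre (mn L) 36 = pre (od (O + 6 * 8 ^ 27 + w * 8 ^ 28)) 36 := by
      apply pre_congr
      intro e he
      rw [← hws]
      exact (od_N H hO he).symm
    rw [h2, pre_od]
    apply Nat.mod_eq_of_lt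
    have h3 : w < 8 ^ 8 := by rw [← hws]; exact ws_lt L
    calc O + 6 * 8 ^ 27 + w * 8 ^ 28 < 8 ^ 27 + 6 * 8 ^ 27 + w * 8 ^ 28 := by omega
      _ ≤ 8 ^ 28 + w * 8 ^ 28 := by
          apply Nat.add_le_add_right
          norm_num
      _ = (w + 1) * 8 ^ 28 := by ring
      _ ≤ 8 ^ 8 * 8 ^ 28 := Nat.mul_le_mul_right _ h3
      _ = 8 ^ 36 := by norm_num
  have hkk : k = 27 ∨ k = 28 + a ∨ k = 28 + b := by
    by_contra hc
    push Not at hc
    obtain ⟨c1, c2, c3⟩ := hc
    rcases Nat.lt_or_ge k 27 with h1 | h1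
    · have := H.big27 k h1
      omega
    · have h2 := H.big (k - 28) (by omega) (by omega) (by omega)
      rw [show 28 + (k - 28) = k by omega] at h2
      omega
  have real : ∀ h, L9.subv 36 h 28 = true → Realk 8 8 (L9.sub (pre L 36) h 28) := fun h hs =>
    (H.toLab.sub (n := 36) (h := h) (m := 8) (by norm_num) (by norm_num) hs).real
  rcases hkk with rfl | rfl | rfl
  · have := real h1 s1
    rw [hpre] at this
    exact cert8_sound k1 this
  · have := real h2 s2
    rw [hpre] at this
    exact cert8_sound k2 this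
  · have := real h3 s3
    rw [hpre] at this
    exact cert8_sound k3 this

theorem cert7_k8 (P C : ℕ) (h : Ker.cert7 P C = true) : ¬ Realk 7 8 P := fun h1 =>
  cert7_sound h (h1.mono (by norm_num))

/-- the digits are less than 6 (27 digits) -/
def ok27 (O : ℕ) : Bool := Nat.blt O (8 ^ 27) && L9.okR O 27

theorem ok27_spec {O : ℕ} (h : ok27 O = true) : O < 8 ^ 27 ∧ ∀ e, e < 27 → od O e < 6 := by
  unfold ok27 at h
  rw [Bool.and_eq_true, Nat.blt_eq] at h
  exact ⟨h.1, L9.okR_spec 27 h.2⟩

end CR.C2
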