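import Pool.Agent.Lib.MP_6f5d36_co.Ker
import Pool.Agent.Lib.MP_6f5d36_co.RTab
import Pool.Agent.Lib.MP_6f5d36_co.C2.KerC
import Pool.Agent.Lib.MP_6f5d36_co.C2.ETab

/-! MP_6f5d36_co, case (ii), level 7 : the ranks 0, ..., 99 -/

set_option autoImplicit false
set_option maxRecDepth 100000

noncomputable section

namespace CR.C2

/-- the frames and certificates of the ranks 0, ..., 99 -/
def D0 : List It :=
[.mk (.mk 568 0o76542310 0o76542310 0o452310) [.mk 913 0o76524301 0o76532401 0o14532, .mk 568
0o76543210 0o76543210 0o543210] [],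
.mk (.mk 542 0o76532140 0o76514320 0o245013) [.mk 542 0o76532140 0o76514320 0o354102] [],
.mk (.mk 688 0o76542310 0o76542310 0o452310) [.mk 819 0o76432150 0o76154320 0o354102] [],
.mk (.mk 780 0o76432510 0o76254310 0o254130) [.mk 602 0o76534210 0o76534210 0o452310] [],
.mk (.mk 737 0o76543210 0o76543210 0o543210) [.mk 603 0o76354210 0o76435210 0o453210] [],
.mk (.mk 693 0o76432105 0o76054321 0o54321) [.mk 744 0o76435210 0o76354210 0o453210] [],
.mk (.mk 664 0o76340521 0o76245103 0o251304) [.mk 691 0o76543210 0o76543210 0o453210] [],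
.mk (.mk 537 0o76501432 0o76521034 0o201345) [.mk 556 0o76543210 0o76543210 0o543210] [],
.mk (.mk 691 0o76435210 0o76354210 0o452310) [.mk 702 0o76543210 0o76543210 0o543210] [],
.mk (.mk 551 0o76532140 0o76514320 0o354201) [.mk 554 0o76543210 0o76543210 0o543210] [],
.mk (.mk 613 0o76543210 0o76543210 0o543210) [.mk 829 0o76304521 0o76235104 0o341205, .mk 838
0o76305421 0o76325104 0o432105] [],
.mk (.mk 546 0o76543210 0o76543210 0o543210) [.mk 645 0o76320451 0o76125403 0o125304] [],
.mk (.mk 659 0o76413502 0o76253041 0o205431) [.mk 685 0o76230541 0o76214503 0o315204] [],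
.mk (.mk 710 0o76543210 0o76543210 0o543210) [.mk 759 0o76310524 0o76205143 0o201345, .mk 582
0o76512304 0o76502341 0o52341] [],
.mk (.mk 682 0o76435210 0o76354210 0o452310) [.mk 681 0o76301452 0o76125034 0o123045] [],
.mk (.mk 582 0o76543210 0o76543210 0o12345) [.mk 614 0o76524301 0o76532401 0o215034, .mk 582
0o76543210 0o76543210 0o543210] [],
.mk (.mk 549 0o76354021 0o76435102 0o250431) [.mk 704 0o76035421 0o76324105 0o341205] [],
.mk (.mk 671 0o76210345 0o76012543 0o15243) [.mk 746 0o76543210 0o76543210 0o543210] [],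
.mk (.mk 663 0o76451320 0o76452130 0o451320) [.mk 692 0o76543210 0o76543210 0o543210] [],
.mk (.mk 757 0o76123450 0o76123450 0o234501) [.mk 631 0o76540231 0o76541203 0o13425] [],
.mk (.mk 534 0o76543210 0o76543210 0o452301) [.mk 534 0o76543210 0o76543210 0o543210] [],
.mk (.mk 726 0o76341250 0o76145230 0o354021) [.mk 769 0o76504321 0o76532104 0o142305, .mk 769
0o76435021 0o76354102 0o251304] [],
.mk (.mk 551 0o76543210 0o76543210 0o543210) [.mk 1018 0o76541302 0o76542031 0o52341] [],
.mk (.mk 555 0o76543210 0o76543210 0o543210) [.mk 1112 0o76032145 0o76014325 0o12435] [],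
.mk (.mk 541 0o76354210 0o76435210 0o452310) [.mk 689 0o76543210 0o76543210 0o543210] [],
.mk (.mk 702 0o76543210 0o76543210 0o453210) [.mk 681 0o76543210 0o76543210 0o543210] [],
.mk (.mk 671 0o76124053 0o76130452 0o105432) [.mk 567 0o76105324 0o76302154 0o23154] [],
.mk (.mk 549 0o76503421 0o76523104 0o342105) [.mk 982 0o76542310 0o76542310 0o453120] [],
.mk (.mk 650 0o76543210 0o76543210 0o453210) [.mk 683 0o76341025 0o76045132 0o24513] [],
.mk (.mk 657 0o76250314 0o76402513 0o201354) [.mk 1083 0o76540312 0o76542013 0o120534] [],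
.mk (.mk 616 0o76540321 0o76542103 0o13425) [.mk 878 0o76312540 0o76215340 0o325041, .mk 873
0o76543210 0o76543210 0o543210] [],
.mk (.mk 549 0o76543210 0o76543210 0o543210) [.mk 731 0o76432105 0o76054321 0o54321] [],
.mk (.mk 671 0o76134502 0o76234051 0o43152) [.mk 1001 0o76405123 0o76350124 0o132045] [],
.mk (.mk 687 0o76102543 0o76210354 0o13254) [.mk 1002 0o76530241 0o76514203 0o250314, .mk 687
0o76201453 0o76120534 0o102345] [],
.mk (.mk 661 0o76130524 0o76204153 0o14532) [.mk 661 0o76204153 0o76130524 0o231045] [],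
.mk (.mk 753 0o76543210 0o76543210 0o452301) [.mk 753 0o76543210 0o76543210 0o543210, .mk 1153
0o76425031 0o76351402 0o42315] [],
.mk (.mk 535 0o76543210 0o76543210 0o452310) [.mk 549 0o76352410 0o76425310 0o354210] [],
.mk (.mk 739 0o76453210 0o76453210 0o452310) [.mk 878 0o76412305 0o76052341 0o52341, .mk 878
0o76143502 0o76243051 0o230514] [],
.mk (.mk 545 0o76543210 0o76543210 0o543210) [.mk 722 0o76234015 0o76034512 0o35124] [],
.mk (.mk 535 0o76543210 0o76543210 0o543210) [.mk 695 0o76430215 0o76054213 0o52314] [],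
.mk (.mk 539 0o76543210 0o76543210 0o543210) [.mk 698 0o76312045 0o76015342 0o13524] [],
.mk (.mk 539 0o76543210 0o76543210 0o543210) [.mk 734 0o76530214 0o76504213 0o302541] [],
.mk (.mk 538 0o76501423 0o76520134 0o302145) [.mk 737 0o76543210 0o76543210 0o543210] [],
.mk (.mk 676 0o76345021 0o76345102 0o351204) [.mk 559 0o76534210 0o76534210 0o452310] [],
.mk (.mk 682 0o76354210 0o76435210 0o453210) [.mk 938 0o76423150 0o76153420 0o154230] [],
.mk (.mk 669 0o76520341 0o76512403 0o125304) [.mk 981 0o76520341 0o76512403 0o215304] [],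
.mk (.mk 682 0o76543210 0o76543210 0o453210) [.mk 735 0o76130542 0o76214053 0o213540] [],
.mk (.mk 710 0o76543210 0o76543210 0o543210) [.mk 603 0o76354210 0o76435210 0o453210] [],
.mk (.mk 710 0o76543210 0o76543210 0o543210) [.mk 1043 0o76240531 0o76241503 0o135204] [],
.mk (.mk 691 0o76543210 0o76543210 0o452310) [.mk 770 0o76204153 0o76130524 0o103452] [],
.mk (.mk 682 0o76543210 0o76543210 0o452310) [.mk 675 0o76031452 0o76124035 0o120354] [],
.mk (.mk 693 0o76250314 0o76402513 0o15432) [.mk 842 0o76543210 0o76543210 0o453210] [],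
.mk (.mk 537 0o76543210 0o76543210 0o543210) [.mk 741 0o76132045 0o76014352 0o12534] [],
.mk (.mk 989 0o76543120 0o76543120 0o452310) [.mk 926 0o76143025 0o76043152 0o24531] [],
.mk (.mk 582 0o76351024 0o76405132 0o24513) [.mk 883 0o76241503 0o76240531 0o305421] [],
.mk (.mk 645 0o76543210 0o76543210 0o543210) [.mk 698 0o76315402 0o76325041 0o231540] [],
.mk (.mk 683 0o76543210 0o76543210 0o453210) [.mk 1040 0o76143502 0o76243051 0o123450] [],
.mk (.mk 677 0o76205134 0o76301524 0o201534) [.mk 663 0o76451320 0o76452130 0o451320] [],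
.mk (.mk 651 0o76451320 0o76452130 0o451320) [.mk 746 0o76543210 0o76543210 0o543210] [],
.mk (.mk 757 0o76453120 0o76453120 0o452310) [.mk 873 0o76543210 0o76543210 0o543210] [],
.mk (.mk 644 0o76543210 0o76543210 0o543210) [.mk 672 0o76421350 0o76152430 0o154320] [],
.mk (.mk 646 0o76412305 0o76052341 0o35421) [.mk 706 0o76412503 0o76250341 0o305421] [],
.mk (.mk 697 0o76340512 0o76245013 0o320514) [.mk 976 0o76541230 0o76541230 0o21543] [],
.mk (.mk 697 0o76534012 0o76534012 0o320514) [.mk 996 0o76431520 0o76254130 0o154320] [],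
.mk (.mk 661 0o76204153 0o76130524 0o132045) [.mk 671 0o76243510 0o76243510 0o45213] [],
.mk (.mk 573 0o76534210 0o76534210 0o453120) [.mk 762 0o76432150 0o76154320 0o354201, .mk 611
0o76543210 0o76543210 0o543210] [],
.mk (.mk 748 0o76035241 0o76314205 0o103425) [.mk 754 0o76453210 0o76453210 0o453210, .mk 805
0o76342510 0o76245310 0o245310] [],
.mk (.mk 558 0o76354210 0o76435210 0o453210) [.mk 590 0o76351420 0o76425130 0o354012, .mk 876
0o76045231 0o76341205 0o143205] [],
.mk (.mk 691 0o76035124 0o76304125 0o102435) [.mk 574 0o76543210 0o76543210 0o543210, .mk 846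
0o76214530 0o76231540 0o345210] [],
.mk (.mk 702 0o76035241 0o76314205 0o142305) [.mk 996 0o76025134 0o76301425 0o14235] [],
.mk (.mk 726 0o76543210 0o76543210 0o543210) [.mk 957 0o76045231 0o76341205 0o43125] [],
.mk (.mk 726 0o76543210 0o76543210 0o543210) [.mk 735 0o76425310 0o76352410 0o52314, .mk 735
0o76431250 0o76154230 0o152403] [],
.mk (.mk 681 0o76540321 0o76542103 0o243105) [.mk 704 0o76352410 0o76425310 0o354210] [],
.mk (.mk 681 0o76435210 0o76354210 0o452310) [.mk 878 0o76134052 0o76134052 0o130524] [],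
.mk (.mk 530 0o76543210 0o76543210 0o452310) [.mk 684 0o76432150 0o76154320 0o145230] [],
.mk (.mk 546 0o76354210 0o76435210 0o453210) [.mk 996 0o76143502 0o76243051 0o240351] [],
.mk (.mk 692 0o76310425 0o76025143 0o32514) [.mk 840 0o76435210 0o76354210 0o452310] [],
.mk (.mk 673 0o76543210 0o76543210 0o543210) [.mk 888 0o76403152 0o76153024 0o102453] [],
.mk (.mk 691 0o76543210 0o76543210 0o452310) [.mk 875 0o76140352 0o76142053 0o123540] [],
.mk (.mk 546 0o76543210 0o76543210 0o543210) [.mk 711 0o76430251 0o76154203 0o152304] [],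
.mk (.mk 766 0o76543210 0o76543210 0o452310) [.mk 916 0o76023514 0o76203415 0o201534, .mk 1010
0o76140532 0o76241053 0o123540] [],
.mk (.mk 531 0o76543210 0o76543210 0o543210) [.mk 748 0o76231054 0o76104532 0o105342] [],
.mk (.mk 744 0o76543210 0o76543210 0o543210) [.mk 761 0o76340152 0o76145023 0o132540] [],
.mk (.mk 682 0o76543210 0o76543210 0o453210) [.mk 687 0o76140352 0o76142053 0o132450] [],
.mk (.mk 878 0o76541320 0o76542130 0o451320) [.mk 926 0o76412530 0o76251340 0o143502] [],
.mk (.mk 748 0o76325401 0o76325401 0o235104) [.mk 878 0o76134502 0o76234051 0o320514] [],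
.mk (.mk 676 0o76435021 0o76354102 0o250431) [.mk 984 0o76452130 0o76451320 0o452130] [],
.mk (.mk 564 0o76543210 0o76543210 0o543210) [.mk 740 0o76543210 0o76543210 0o453210, .mk 800
0o76432015 0o76054312 0o52431] [],
.mk (.mk 793 0o76542310 0o76542310 0o34215) [.mk 873 0o76453210 0o76453210 0o453210, .mk 793
0o76543210 0o76543210 0o543210]
[0x1800470428084c06a4202118085026020e000121021400628100016301321060428c681100885008a8c1040910e684245500890c39204700000200800440018008198a00008311905,
0x11048008850cf1000990aa941040005881887c9e845c0325c04560b04530124701c0008400439c00b59480d7044808443c8388194880008319825,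
0x342c8a084734a1a4230492104180198778c55c41862c22014400c010200c009ab19220e2e8520981a8429c3002100800ea002111c300828e11c2385b0064180008154bc00082ec222,
0x342c92b8838002040186b30670423846044145428a50d2118001890922214300330051eb588413814c26b020001040006a002115c30082b40088304608c1180008154bc00082ec303],
.mk (.mk 831 0o76452310 0o76452310 0o35214) [.mk 1085 0o76543210 0o76543210 0o543210, .mk 832
0o76023451 0o76123405 0o120453] [],
.mk (.mk 677 0o76405231 0o76351204 0o251304) [.mk 741 0o76543210 0o76543210 0o543210] [],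
.mk (.mk 547 0o76543210 0o76543210 0o452301) [.mk 717 0o76543210 0o76543210 0o245301] [],
.mk (.mk 532 0o76543210 0o76543210 0o543210) [.mk 869 0o76543210 0o76543210 0o354120] [],
.mk (.mk 679 0o76435120 0o76354120 0o354021) [.mk 569 0o76543210 0o76543210 0o543210] [],
.mk (.mk 762 0o76253041 0o76413502 0o123504) [.mk 818 0o76435210 0o76354210 0o453120] [],
.mk (.mk 550 0o76325410 0o76325410 0o345012) [.mk 550 0o76543210 0o76543210 0o543210] [],
.mk (.mk 726 0o76543210 0o76543210 0o543210) [.mk 957 0o76045231 0o76341205 0o43125] [],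
.mk (.mk 666 0o76415320 0o76352140 0o53241) [.mk 726 0o76543210 0o76543210 0o543210] [],
.mk (.mk 701 0o76354210 0o76435210 0o453210) [.mk 980 0o76421305 0o76052431 0o53241] [],
.mk (.mk 689 0o76543210 0o76543210 0o543210) [.mk 737 0o76534210 0o76534210 0o452310] []]

theorem v0 : chkL Tab.T5 Tab.RT Tab.reps Tab.E2 Ker.cert7 D0 0 = true := by
  decide +kernel

end CR.C2
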