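import Pool.Agent.Lib.MP_6f5d36_co.Ker
import Pool.Agent.Lib.MP_6f5d36_co.RTab
import Pool.Agent.Lib.MP_6f5d36_co.C2.KerC
import Pool.Agent.Lib.MP_6f5d36_co.C2.ETab

/-! MP_6f5d36_co, case (ii), level 7 : the ranks 100, ..., 199 -/

set_option autoImplicit false
set_option maxRecDepth 100000

noncomputable section

namespace CR.C2

/-- the frames and certificates of the ranks 100, ..., 199 -/
def D100 : List It :=
[.mk (.mk 693 0o76432150 0o76154320 0o154320) [.mk 608 0o76543210 0o76543210 0o543210] [],
.mk (.mk 690 0o76543210 0o76543210 0o453210) [.mk 757 0o76132054 0o76104352 0o103542] [],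
.mk (.mk 684 0o76423150 0o76153420 0o154320) [.mk 673 0o76534210 0o76534210 0o452310] [],
.mk (.mk 669 0o76420351 0o76152403 0o125304) [.mk 995 0o76452310 0o76452310 0o350214] [],
.mk (.mk 541 0o76543210 0o76543210 0o543210) [.mk 700 0o76543210 0o76543210 0o452310] [],
.mk (.mk 556 0o76543210 0o76543210 0o543210) [.mk 711 0o76430521 0o76254103 0o251304] [],
.mk (.mk 674 0o76241350 0o76142530 0o134502) [.mk 715 0o76543210 0o76543210 0o543210] [],
.mk (.mk 682 0o76543210 0o76543210 0o452310) [.mk 1010 0o76542310 0o76542310 0o354210] [],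
.mk (.mk 702 0o76324105 0o76035421 0o53421) [.mk 735 0o76201543 0o76210534 0o213045] [],
.mk (.mk 691 0o76543210 0o76543210 0o453210) [.mk 687 0o76140352 0o76142053 0o132540] [],
.mk (.mk 582 0o76035412 0o76324015 0o304215) [.mk 1040 0o76351420 0o76425130 0o145230, .mk 1058
0o76035421 0o76324105 0o32415] [],
.mk (.mk 646 0o76304521 0o76235104 0o342105) [.mk 895 0o76340521 0o76245103 0o150432] [],
.mk (.mk 743 0o76304125 0o76035124 0o21435) [.mk 621 0o76504132 0o76531024 0o210435, .mk 621
0o76543210 0o76543210 0o543210] [],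
.mk (.mk 676 0o76325410 0o76325410 0o354210) [.mk 768 0o76451320 0o76452130 0o451320] [],
.mk (.mk 662 0o76543210 0o76543210 0o543210) [.mk 746 0o76451320 0o76452130 0o451320] [],
.mk (.mk 662 0o76451230 0o76451230 0o451230) [.mk 662 0o76543210 0o76543210 0o543210] [],
.mk (.mk 683 0o76543210 0o76543210 0o543210) [.mk 741 0o76452130 0o76451320 0o452130, .mk 685
0o76435210 0o76354210 0o354210] [],
.mk (.mk 657 0o76451230 0o76451230 0o451230) [.mk 657 0o76543210 0o76543210 0o543210] [],
.mk (.mk 706 0o76240531 0o76241503 0o140523) [.mk 722 0o76451320 0o76452130 0o451320] [],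
.mk (.mk 663 0o76542310 0o76542310 0o453120) [.mk 663 0o76543210 0o76543210 0o543210] [],
.mk (.mk 533 0o76352410 0o76425310 0o354120) [.mk 666 0o76240513 0o76240513 0o231045] [],
.mk (.mk 743 0o76435210 0o76354210 0o453210) [.mk 1040 0o76512304 0o76502341 0o123504] [],
.mk (.mk 656 0o76503214 0o76503214 0o120543) [.mk 895 0o76305214 0o76305214 0o210543, .mk 656
0o76345210 0o76345210 0o453210] [],
.mk (.mk 746 0o76215043 0o76310542 0o130254) [.mk 858 0o76342150 0o76145320 0o354120, .mk 753
0o76243510 0o76243510 0o452310] [],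
.mk (.mk 588 0o76235401 0o76324501 0o231504) [.mk 881 0o76543210 0o76543210 0o543210] [],
.mk (.mk 587 0o76354210 0o76435210 0o453210) [.mk 801 0o76524103 0o76530421 0o23451] [],
.mk (.mk 801 0o76124350 0o76132450 0o345012) [.mk 941 0o76345021 0o76345102 0o51342, .mk 1089
0o76542310 0o76542310 0o254310] [],
.mk (.mk 691 0o76510432 0o76521043 0o123054) [.mk 702 0o76410532 0o76251043 0o213054] [],
.mk (.mk 757 0o76135204 0o76304251 0o301542) [.mk 780 0o76354201 0o76435201 0o143205] [],
.mk (.mk 577 0o76534210 0o76534210 0o452310) [.mk 1153 0o76425310 0o76352410 0o42315] [],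
.mk (.mk 577 0o76543210 0o76543210 0o452310) [.mk 883 0o76423150 0o76153420 0o154320] [],
.mk (.mk 1045 0o76304251 0o76135204 0o142305) [.mk 620 0o76543210 0o76543210 0o543210, .mk 1083
0o76325140 0o76315420 0o235401] [],
.mk (.mk 559 0o76534210 0o76534210 0o453210) [.mk 956 0o76432150 0o76154320 0o154320] [],
.mk (.mk 687 0o76152403 0o76420351 0o34512) [.mk 1128 0o76542310 0o76542310 0o453120] [],
.mk (.mk 803 0o76354210 0o76435210 0o452310) [.mk 909 0o76324150 0o76135420 0o154320] [],
.mk (.mk 744 0o76425103 0o76350421 0o45231) [.mk 926 0o76431520 0o76254130 0o352401, .mk 578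
0o76534210 0o76534210 0o452310] [],
.mk (.mk 556 0o76543210 0o76543210 0o543210) [.mk 719 0o76432150 0o76154320 0o145320] [],
.mk (.mk 556 0o76543210 0o76543210 0o543210) [.mk 715 0o76435210 0o76354210 0o453210] [],
.mk (.mk 674 0o76340521 0o76245103 0o251304) [.mk 556 0o76543210 0o76543210 0o543210] [],
.mk (.mk 678 0o76432150 0o76154320 0o145320) [.mk 821 0o76543210 0o76543210 0o543210] [],
.mk (.mk 549 0o76520431 0o76521403 0o321540) [.mk 769 0o76230451 0o76124503 0o123450] [],
.mk (.mk 700 0o76543210 0o76543210 0o543210) [.mk 766 0o76543210 0o76543210 0o453210] [],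
.mk (.mk 710 0o76543210 0o76543210 0o543210) [.mk 579 0o76543210 0o76543210 0o452310] [],
.mk (.mk 681 0o76543210 0o76543210 0o543210) [.mk 1012 0o76315024 0o76305142 0o105432] [],
.mk (.mk 614 0o76354201 0o76435201 0o251304) [.mk 926 0o76241530 0o76241530 0o140235, .mk 878
0o76451320 0o76452130 0o451320] [],
.mk (.mk 794 0o76452310 0o76452310 0o453120) [.mk 920 0o76543210 0o76543210 0o543210, .mk 897
0o76512430 0o76521340 0o31245] [],
.mk (.mk 757 0o76314520 0o76235140 0o124503) [.mk 729 0o76351402 0o76425031 0o35421, .mk 842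
0o76325410 0o76325410 0o215403] [],
.mk (.mk 614 0o76325410 0o76325410 0o354210) [.mk 894 0o76452310 0o76452310 0o453120, .mk 1009
0o76215403 0o76320541 0o35421] [],
.mk (.mk 677 0o76425310 0o76352410 0o354210) [.mk 685 0o76043215 0o76043215 0o23415] [],
.mk (.mk 696 0o76453210 0o76453210 0o354120) [.mk 761 0o76230145 0o76014523 0o13425] [],
.mk (.mk 666 0o76352401 0o76425301 0o215034) [.mk 683 0o76543210 0o76543210 0o543210] [],
.mk (.mk 746 0o76543210 0o76543210 0o543210) [.mk 1004 0o76543120 0o76543120 0o254310] [],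
.mk (.mk 746 0o76543210 0o76543210 0o543210) [.mk 996 0o76510243 0o76510243 0o105423] [],
.mk (.mk 768 0o76451320 0o76452130 0o451320) [.mk 761 0o76324501 0o76235401 0o125034, .mk 777
0o76543210 0o76543210 0o543210] [],
.mk (.mk 650 0o76231045 0o76014532 0o25143) [.mk 650 0o76014532 0o76231045 0o310425] [],
.mk (.mk 672 0o76142305 0o76042351 0o43152) [.mk 747 0o76453120 0o76453120 0o452310] [],
.mk (.mk 696 0o76324510 0o76235410 0o354210) [.mk 771 0o76015243 0o76310245 0o203415] [],
.mk (.mk 663 0o76453120 0o76453120 0o452310) [.mk 878 0o76543210 0o76543210 0o543210] [],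
.mk (.mk 723 0o76452130 0o76451320 0o31254) [.mk 723 0o76452130 0o76451320 0o452130, .mk 789
0o76324150 0o76135420 0o130524] [],
.mk (.mk 678 0o76432105 0o76054321 0o34512) [.mk 978 0o76452310 0o76452310 0o453120] [],
.mk (.mk 653 0o76425310 0o76352410 0o245301) [.mk 548 0o76543210 0o76543210 0o543210] [],
.mk (.mk 780 0o76243510 0o76243510 0o305124) [.mk 604 0o76543210 0o76543210 0o543210, .mk 880
0o76430512 0o76254013 0o215034] [],
.mk (.mk 780 0o76521430 0o76521430 0o325401) [.mk 824 0o76453210 0o76453210 0o453210]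
[0x380181500e81508005400081314c8808819c39000c0080841983936000000829b841e409900417e84083800104a0c60402598808c580685301010498109a00288030508000000081d843881c800c010184007308090194e40008341854,
0x180008200121ac208c118c088309800c0290a1ac298038130220303708330a808278030f62184888400a1748080a0a431452082112854240837108200580f49c002471c500c8002300154d40008301a54,
0x2610590080088046215c020110044401f00401089892200145802d1824054b454808109200d008641f8158105087600108182398004174894000ba05019e003017a84ba3000c2e21d8ce81173c3f201193811d80760128c28010040400400ae13400214e000083d30d4,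
0x104f0100188290471240800843280d10008638084108788c1360703108e6000100900013a010ab00310e13406010026b08608070892060a1511b01282480e08000c2100154c400082eb0d4],
.mk (.mk 875 0o76524031 0o76531402 0o135204) [.mk 880 0o76305214 0o76305214 0o201534, .mk 875
0o76415032 0o76351042 0o312540] [],
.mk (.mk 734 0o76250314 0o76402513 0o41352) [.mk 811 0o76243510 0o76243510 0o305214] [],
.mk (.mk 573 0o76543210 0o76543210 0o543210) [.mk 881 0o76325041 0o76315402 0o231504, .mk 762
0o76352041 0o76415302 0o132405] [],
.mk (.mk 573 0o76325410 0o76325410 0o453120) [.mk 573 0o76543210 0o76543210 0o543210] [],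
.mk (.mk 542 0o76351420 0o76425130 0o354021) [.mk 679 0o76543210 0o76543210 0o543210] [],
.mk (.mk 679 0o76435120 0o76354120 0o453120) [.mk 679 0o76543210 0o76543210 0o543210] [],
.mk (.mk 801 0o76125340 0o76312450 0o345021) [.mk 1045 0o76034251 0o76134205 0o31425] [],
.mk (.mk 980 0o76421305 0o76052431 0o53241) [.mk 804 0o76423510 0o76253410 0o254310] [],
.mk (.mk 764 0o76354210 0o76435210 0o453210) [.mk 1028 0o76234051 0o76134502 0o140523] [],
.mk (.mk 737 0o76543210 0o76543210 0o543210) [.mk 745 0o76430512 0o76254013 0o305214] [],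
.mk (.mk 695 0o76435201 0o76354201 0o350421) [.mk 563 0o76543210 0o76543210 0o543210] [],
.mk (.mk 803 0o76354210 0o76435210 0o452310) [.mk 832 0o76450321 0o76452103 0o302154, .mk 1127
0o76153420 0o76423150 0o243051] [],
.mk (.mk 695 0o76430251 0o76154203 0o152304) [.mk 715 0o76435210 0o76354210 0o453210] [],
.mk (.mk 739 0o76245103 0o76340521 0o42531) [.mk 995 0o76531420 0o76524130 0o352401] [],
.mk (.mk 559 0o76354210 0o76435210 0o453210) [.mk 1043 0o76435021 0o76354102 0o203415] [],
.mk (.mk 687 0o76154320 0o76432150 0o32451) [.mk 803 0o76534210 0o76534210 0o453210, .mk 878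
0o76315240 0o76315240 0o324501] [],
.mk (.mk 655 0o76014523 0o76230145 0o201435) [.mk 662 0o76035412 0o76324015 0o24315] [],
.mk (.mk 692 0o76425103 0o76350421 0o54231) [.mk 700 0o76543210 0o76543210 0o543210] [],
.mk (.mk 578 0o76543210 0o76543210 0o543210) [.mk 942 0o76240351 0o76142503 0o123540, .mk 805
0o76520431 0o76521403 0o321450] [],
.mk (.mk 661 0o76410352 0o76152043 0o132450) [.mk 1056 0o76543210 0o76543210 0o453210] [],
.mk (.mk 678 0o76240351 0o76142503 0o134205) [.mk 886 0o76012534 0o76201345 0o201345] [],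
.mk (.mk 770 0o76024153 0o76130425 0o102543) [.mk 1030 0o76453210 0o76453210 0o452310, .mk 1112
0o76543210 0o76543210 0o543210] [],
.mk (.mk 703 0o76345201 0o76345201 0o251304) [.mk 609 0o76543210 0o76543210 0o543210, .mk 1093
0o76354102 0o76435021 0o123540] [],
.mk (.mk 561 0o76325410 0o76325410 0o354210) [.mk 757 0o76451320 0o76452130 0o451320] [],
.mk (.mk 734 0o76254103 0o76430521 0o132054) [.mk 981 0o76542130 0o76541320 0o452130] [],
.mk (.mk 767 0o76234501 0o76234501 0o325014) [.mk 1047 0o76250134 0o76401523 0o105432] [],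
.mk (.mk 669 0o76541230 0o76541230 0o451230) [.mk 669 0o76543210 0o76543210 0o543210, .mk 788
0o76312405 0o76025341 0o34512] [],
.mk (.mk 1002 0o76402531 0o76251304 0o13452) [.mk 867 0o76543210 0o76543210 0o543210] [],
.mk (.mk 710 0o76435210 0o76354210 0o453210) [.mk 737 0o76543210 0o76543210 0o543210] [],
.mk (.mk 661 0o76214035 0o76031542 0o21435) [.mk 692 0o76451230 0o76451230 0o451230] [],
.mk (.mk 650 0o76543210 0o76543210 0o543210) [.mk 708 0o76432510 0o76254310 0o354210] [],
.mk (.mk 676 0o76342510 0o76245310 0o103245) [.mk 768 0o76451320 0o76452130 0o451320, .mk 842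
0o76543210 0o76543210 0o543210] [],
.mk (.mk 722 0o76543210 0o76543210 0o543210) [.mk 773 0o76423501 0o76253401 0o350412] [],
.mk (.mk 780 0o76342501 0o76245301 0o251430) [.mk 795 0o76524013 0o76530412 0o41352] [],
.mk (.mk 698 0o76312405 0o76025341 0o32514) [.mk 696 0o76435210 0o76354210 0o453210] [],
.mk (.mk 661 0o76240153 0o76140523 0o132045) [.mk 672 0o76321504 0o76205431 0o35241] [],
.mk (.mk 720 0o76453210 0o76453210 0o354201) [.mk 571 0o76532410 0o76524310 0o453210] []]

theorem v100 : chkL Tab.T5 Tab.RT Tab.reps Tab.E2 Ker.cert7 D100 100 = true := by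
  decide +kernel

end CR.C2
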