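import Pool.Agent.Lib.MP_6f5d36_co.Ker
import Pool.Agent.Lib.MP_6f5d36_co.RTab
import Pool.Agent.Lib.MP_6f5d36_co.C2.KerC
import Pool.Agent.Lib.MP_6f5d36_co.C2.ETab

/-! MP_6f5d36_co, case (ii), level 7 : the ranks 200, ..., 299 -/

set_option autoImplicit false
set_option maxRecDepth 100000

noncomputable section

namespace CR.C2

/-- the frames and certificates of the ranks 200, ..., 299 -/
def D200 : List It :=
[.mk (.mk 684 0o76425310 0o76352410 0o254310) [.mk 1015 0o76534120 0o76534120 0o145320, .mk 762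
0o76453210 0o76453210 0o345102] [],
.mk (.mk 687 0o76435120 0o76354120 0o154320) [.mk 805 0o76432510 0o76254310 0o254310] [],
.mk (.mk 769 0o76524031 0o76531402 0o14352) [.mk 612 0o76354210 0o76435210 0o453210, .mk 790
0o76451320 0o76452130 0o354012] [],
.mk (.mk 574 0o76543210 0o76543210 0o543210) [.mk 1104 0o76542310 0o76542310 0o254310, .mk 762
0o76435210 0o76354210 0o453210] [],
.mk (.mk 726 0o76345210 0o76345210 0o453210) [.mk 901 0o76512430 0o76521340 0o21345] [],
.mk (.mk 725 0o76520413 0o76520413 0o23415) [.mk 802 0o76354120 0o76435120 0o453120] [],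
.mk (.mk 590 0o76153420 0o76423150 0o345102) [.mk 940 0o76521403 0o76520431 0o24315, .mk 994
0o76254130 0o76431520 0o145320] [],
.mk (.mk 590 0o76354120 0o76435120 0o453120) [.mk 898 0o76543210 0o76543210 0o543210, .mk 772
0o76325104 0o76305421 0o102435] [],
.mk (.mk 708 0o76345012 0o76345012 0o41523) [.mk 851 0o76321540 0o76215430 0o354201] [],
.mk (.mk 576 0o76534210 0o76534210 0o452310) [.mk 908 0o76432105 0o76054321 0o54321] [],
.mk (.mk 715 0o76452103 0o76450321 0o54321) [.mk 780 0o76432510 0o76254310 0o254310, .mk 602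
0o76534210 0o76534210 0o452310] [],
.mk (.mk 686 0o76423510 0o76253410 0o254130) [.mk 772 0o76145320 0o76342150 0o134052] [],
.mk (.mk 563 0o76543210 0o76543210 0o543210) [.mk 995 0o76415320 0o76352140 0o243501, .mk 602
0o76534210 0o76534210 0o452310] [],
.mk (.mk 701 0o76345021 0o76345102 0o352104) [.mk 592 0o76543210 0o76543210 0o543210, .mk 1005
0o76432150 0o76154320 0o154320] [],
.mk (.mk 744 0o76435210 0o76354210 0o452310) [.mk 592 0o76543210 0o76543210 0o543210] [],
.mk (.mk 658 0o76152043 0o76410352 0o13542) [.mk 764 0o76435210 0o76354210 0o452310] [],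
.mk (.mk 690 0o76543210 0o76543210 0o543210) [.mk 777 0o76234015 0o76034512 0o13452] [],
.mk (.mk 680 0o76543210 0o76543210 0o543210) [.mk 772 0o76354210 0o76435210 0o452310] [],
.mk (.mk 649 0o76432051 0o76154302 0o140532) [.mk 764 0o76543210 0o76543210 0o452310] [],
.mk (.mk 560 0o76534210 0o76534210 0o452310) [.mk 937 0o76324051 0o76135402 0o140532] [],
.mk (.mk 681 0o76543210 0o76543210 0o453210) [.mk 1176 0o76215034 0o76301542 0o104532] [],
.mk (.mk 976 0o76410352 0o76152043 0o132540) [.mk 765 0o76543210 0o76543210 0o452310] [],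
.mk (.mk 681 0o76543210 0o76543210 0o543210) [.mk 980 0o76531024 0o76504132 0o302514] [],
.mk (.mk 678 0o76310542 0o76215043 0o231540) [.mk 875 0o76432150 0o76154320 0o154320] [],
.mk (.mk 649 0o76041352 0o76142035 0o120354) [.mk 1056 0o76453210 0o76453210 0o452310] [],
.mk (.mk 675 0o76301452 0o76125034 0o130245) [.mk 1056 0o76543210 0o76543210 0o543210] [],
.mk (.mk 663 0o76543210 0o76543210 0o453210) [.mk 749 0o76345201 0o76345201 0o251304] [],
.mk (.mk 562 0o76354201 0o76435201 0o251304) [.mk 834 0o76534102 0o76534021 0o123450] [],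
.mk (.mk 729 0o76453210 0o76453210 0o453210) [.mk 859 0o76325410 0o76325410 0o352401] [],
.mk (.mk 830 0o76543210 0o76543210 0o543210) [.mk 926 0o76132540 0o76214350 0o142053] [],
.mk (.mk 741 0o76214035 0o76031542 0o24153) [.mk 621 0o76543210 0o76543210 0o543210] [],
.mk (.mk 657 0o76451230 0o76451230 0o451230) [.mk 662 0o76543210 0o76543210 0o543210] [],
.mk (.mk 582 0o76543210 0o76543210 0o543210) [.mk 809 0o76345012 0o76345012 0o350124] [],
.mk (.mk 692 0o76451230 0o76451230 0o451230) [.mk 692 0o76543210 0o76543210 0o543210] [],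
.mk (.mk 722 0o76453120 0o76453120 0o452310) [.mk 1021 0o76412530 0o76251340 0o153402] [],
.mk (.mk 757 0o76542310 0o76542310 0o305214) [.mk 757 0o76543210 0o76543210 0o543210, .mk 913
0o76204351 0o76132504 0o123540] [],
.mk (.mk 794 0o76451230 0o76451230 0o32154) [.mk 1085 0o76543210 0o76543210 0o543210, .mk 909
0o76123450 0o76123450 0o124053] [],
.mk (.mk 693 0o76423501 0o76253401 0o350412) [.mk 842 0o76543210 0o76543210 0o543210] [],
.mk (.mk 722 0o76543210 0o76543210 0o543210) [.mk 1016 0o76142350 0o76142350 0o142503] [],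
.mk (.mk 719 0o76145302 0o76342051 0o304251) [.mk 996 0o76231450 0o76124530 0o145230] [],
.mk (.mk 741 0o76543210 0o76543210 0o543210) [.mk 1002 0o76402351 0o76152304 0o152304] [],
.mk (.mk 698 0o76250341 0o76412503 0o324015) [.mk 735 0o76432105 0o76054321 0o54321] [],
.mk (.mk 676 0o76453210 0o76453210 0o154230) [.mk 727 0o76345102 0o76345021 0o52143] [],
.mk (.mk 611 0o76543210 0o76543210 0o543210) [.mk 790 0o76341250 0o76145230 0o354021, .mk 814
0o76325410 0o76325410 0o453210] [],
.mk (.mk 684 0o76235401 0o76324501 0o132540) [.mk 856 0o76432501 0o76254301 0o231540] [],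
.mk (.mk 739 0o76035241 0o76314205 0o143205) [.mk 755 0o76345120 0o76345120 0o453120] [],
.mk (.mk 699 0o76413520 0o76253140 0o345102) [.mk 591 0o76534210 0o76534210 0o453210] [],
.mk (.mk 591 0o76534210 0o76534210 0o453210) [.mk 736 0o76431250 0o76154230 0o354201, .mk 827
0o76435021 0o76354102 0o51342] [],
.mk (.mk 558 0o76534120 0o76534120 0o453120) [.mk 1064 0o76304521 0o76235104 0o243105] [],
.mk (.mk 790 0o76543210 0o76543210 0o543210) [.mk 947 0o76302451 0o76125304 0o130542, .mk 851
0o76345210 0o76345210 0o453210] [],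
.mk (.mk 734 0o76352041 0o76415302 0o231540) [.mk 717 0o76305241 0o76315204 0o130542] [],
.mk (.mk 575 0o76543210 0o76543210 0o543210) [.mk 839 0o76432105 0o76054321 0o54321, .mk 766
0o76543210 0o76543210 0o452310] [],
.mk (.mk 576 0o76543210 0o76543210 0o543210) [.mk 1071 0o76534120 0o76534120 0o145320] [],
.mk (.mk 576 0o76543210 0o76543210 0o543210) [.mk 824 0o76435210 0o76354210 0o354120] [],
.mk (.mk 737 0o76543210 0o76543210 0o543210) [.mk 1010 0o76134502 0o76234051 0o123450, .mk 809
0o76432510 0o76254310 0o354120] [],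
.mk (.mk 715 0o76453210 0o76453210 0o453210) [.mk 989 0o76430521 0o76254103 0o134205] [],
.mk (.mk 680 0o76354021 0o76435102 0o342105) [.mk 985 0o76254103 0o76430521 0o45321] [],
.mk (.mk 578 0o76054321 0o76432105 0o423105) [.mk 1093 0o76231045 0o76014532 0o13425, .mk 876
0o76045321 0o76342105 0o243105] [],
.mk (.mk 540 0o76543210 0o76543210 0o452310) [.mk 1035 0o76543120 0o76543120 0o145320] [],
.mk (.mk 728 0o76350241 0o76415203 0o310425) [.mk 597 0o76530241 0o76514203 0o134025, .mk 1047
0o76140532 0o76241053 0o32154] [],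
.mk (.mk 710 0o76354210 0o76435210 0o452310) [.mk 980 0o76241305 0o76042531 0o43251] [],
.mk (.mk 768 0o76153240 0o76413250 0o314502) [.mk 1118 0o76354102 0o76435021 0o45321] [],
.mk (.mk 673 0o76543210 0o76543210 0o543210) [.mk 805 0o76432150 0o76154320 0o154320] [],
.mk (.mk 803 0o76543210 0o76543210 0o543210) [.mk 834 0o76431520 0o76254130 0o352041, .mk 838
0o76435210 0o76354210 0o452310] [],
.mk (.mk 710 0o76543210 0o76543210 0o543210) [.mk 1016 0o76140532 0o76241053 0o132540] [],
.mk (.mk 692 0o76134205 0o76034251 0o52431) [.mk 823 0o76410532 0o76251043 0o312054]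
[0x414820573f71f058483208108c811501c0602553048fd030992c2241319d0e000411ddc6f0a84c082211b096002008004a8c86010c2a431a840110cc00082ed81d],
.mk (.mk 702 0o76543210 0o76543210 0o453210) [.mk 698 0o76310452 0o76125043 0o123450] [],
.mk (.mk 766 0o76345210 0o76345210 0o452310) [.mk 764 0o76543210 0o76543210 0o543210] [],
.mk (.mk 760 0o76314520 0o76235140 0o124503) [.mk 757 0o76541320 0o76542130 0o451320] [],
.mk (.mk 663 0o76243501 0o76243501 0o125304) [.mk 631 0o76325410 0o76325410 0o352401] [],
.mk (.mk 995 0o76231450 0o76124530 0o140325) [.mk 623 0o76254031 0o76431502 0o204531, .mk 878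
0o76451230 0o76451230 0o451230] [],
.mk (.mk 980 0o76543210 0o76543210 0o453210) [.mk 623 0o76524301 0o76532401 0o231540] [],
.mk (.mk 614 0o76354201 0o76435201 0o253104) [.mk 809 0o76034512 0o76234015 0o123405, .mk 842
0o76453210 0o76453210 0o453210] [],
.mk (.mk 644 0o76543120 0o76543120 0o452310) [.mk 719 0o76341025 0o76045132 0o24531] [],
.mk (.mk 645 0o76543210 0o76543210 0o543210) [.mk 741 0o76321504 0o76205431 0o302541] [],
.mk (.mk 770 0o76520341 0o76512403 0o14253) [.mk 767 0o76452310 0o76452310 0o453120] [],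
.mk (.mk 676 0o76514320 0o76532140 0o234051) [.mk 686 0o76304512 0o76235014 0o132405] [],
.mk (.mk 734 0o76204513 0o76230514 0o132045) [.mk 773 0o76514320 0o76532140 0o234051] [],
.mk (.mk 741 0o76543210 0o76543210 0o543210) [.mk 567 0o76305241 0o76315204 0o251304] [],
.mk (.mk 723 0o76543210 0o76543210 0o543210) [.mk 787 0o76015432 0o76321045 0o321405] [],
.mk (.mk 664 0o76241305 0o76042531 0o35412) [.mk 675 0o76251403 0o76420531 0o305412] [],
.mk (.mk 659 0o76301245 0o76015234 0o12534) [.mk 809 0o76543210 0o76543210 0o543210] [],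
.mk (.mk 661 0o76524013 0o76530412 0o320145) [.mk 759 0o76345012 0o76345012 0o450213] [],
.mk (.mk 719 0o76341205 0o76045231 0o35241) [.mk 887 0o76435012 0o76354012 0o450213, .mk 1083
0o76534102 0o76534021 0o320514] [],
.mk (.mk 554 0o76523410 0o76523410 0o453120) [.mk 1094 0o76542310 0o76542310 0o154320] [],
.mk (.mk 749 0o76253041 0o76413502 0o32514) [.mk 801 0o76345120 0o76345120 0o354012, .mk 749
0o76523401 0o76523401 0o240513] [],
.mk (.mk 763 0o76513240 0o76513240 0o345012) [.mk 890 0o76435120 0o76354120 0o453120] [],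
.mk (.mk 754 0o76241530 0o76241530 0o345201) [.mk 1049 0o76453210 0o76453210 0o453210] [],
.mk (.mk 667 0o76142530 0o76241350 0o345201) [.mk 1176 0o76054321 0o76432105 0o43215] [],
.mk (.mk 667 0o76142350 0o76142350 0o345210) [.mk 764 0o76251430 0o76421530 0o215043, .mk 764
0o76241350 0o76142530 0o125043] [],
.mk (.mk 575 0o76543210 0o76543210 0o543210) [.mk 765 0o76432105 0o76054321 0o54321] [],
.mk (.mk 563 0o76534210 0o76534210 0o452310) [.mk 923 0o76453201 0o76453201 0o240531, .mk 576
0o76543210 0o76543210 0o543210] [],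
.mk (.mk 576 0o76543210 0o76543210 0o543210) [.mk 1094 0o76543210 0o76543210 0o254310, .mk 602
0o76534210 0o76534210 0o452310] [],
.mk (.mk 680 0o76425301 0o76352401 0o315024) [.mk 576 0o76543210 0o76543210 0o543210, .mk 1064
0o76523401 0o76523401 0o135024] [],
.mk (.mk 539 0o76543210 0o76543210 0o452310) [.mk 721 0o76543210 0o76543210 0o543210] [],
.mk (.mk 563 0o76534210 0o76534210 0o452310) [.mk 956 0o76452310 0o76452310 0o254130, .mk 613
0o76543210 0o76543210 0o543210] [],
.mk (.mk 772 0o76345210 0o76345210 0o452310) [.mk 855 0o76513240 0o76513240 0o12345] [],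
.mk (.mk 657 0o76012534 0o76201345 0o201345) [.mk 689 0o76543210 0o76543210 0o543210] [],
.mk (.mk 689 0o76543210 0o76543210 0o543210) [.mk 1060 0o76351402 0o76425031 0o35412, .mk 1003
0o76042513 0o76240315 0o132045] [],
.mk (.mk 756 0o76543210 0o76543210 0o543210) [.mk 960 0o76432510 0o76254310 0o254310] []]

theorem v200 : chkL Tab.T5 Tab.RT Tab.reps Tab.E2 Ker.cert7 D200 200 = true := by
  decide +kernel

end CR.C2
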