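import Pool.Agent.Lib.MP_6f5d36_co.Ker
import Pool.Agent.Lib.MP_6f5d36_co.RTab
import Pool.Agent.Lib.MP_6f5d36_co.C2.KerC
import Pool.Agent.Lib.MP_6f5d36_co.C2.ETab

/-! MP_6f5d36_co, case (ii), level 7 : the ranks 300, ..., 399 -/

set_option autoImplicit false
set_option maxRecDepth 100000

noncomputable section

namespace CR.C2

/-- the frames and certificates of the ranks 300, ..., 399 -/
def D300 : List It :=
[.mk (.mk 701 0o76435210 0o76354210 0o453210) [.mk 601 0o76543210 0o76543210 0o543210, .mk 1004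
0o76543210 0o76543210 0o254130] [],
.mk (.mk 655 0o76051423 0o76420135 0o302415) [.mk 989 0o76042513 0o76240315 0o34215] [],
.mk (.mk 577 0o76354210 0o76435210 0o453210) [.mk 1026 0o76430521 0o76254103 0o32154, .mk 878
0o76152340 0o76412350 0o314052] [],
.mk (.mk 578 0o76354210 0o76435210 0o453210) [.mk 1056 0o76253104 0o76403521 0o43521] [],
.mk (.mk 675 0o76501423 0o76520134 0o21354) [.mk 904 0o76234150 0o76134520 0o135402] [],
.mk (.mk 540 0o76543210 0o76543210 0o543210) [.mk 649 0o76534120 0o76534120 0o154230] [],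
.mk (.mk 991 0o76312450 0o76125340 0o134502) [.mk 602 0o76543210 0o76543210 0o543210] [],
.mk (.mk 577 0o76543210 0o76543210 0o543210) [.mk 834 0o76432510 0o76254310 0o354210, .mk 1056
0o76524103 0o76530421 0o45231] [],
.mk (.mk 546 0o76543210 0o76543210 0o452310) [.mk 680 0o76543210 0o76543210 0o543210] [],
.mk (.mk 652 0o76432051 0o76154302 0o140532) [.mk 560 0o76543210 0o76543210 0o452310] [],
.mk (.mk 765 0o76543210 0o76543210 0o452310) [.mk 987 0o76542130 0o76541320 0o145320, .mk 916
0o76023514 0o76203415 0o201534] [],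
.mk (.mk 559 0o76543210 0o76543210 0o543210) [.mk 977 0o76402531 0o76251304 0o243105] [],
.mk (.mk 559 0o76543210 0o76543210 0o543210) [.mk 992 0o76352041 0o76415302 0o150423, .mk 687
0o76541320 0o76542130 0o351402] [],
.mk (.mk 559 0o76543210 0o76543210 0o543210) [.mk 1045 0o76534102 0o76534021 0o54231] [],
.mk (.mk 559 0o76543210 0o76543210 0o543210) [.mk 977 0o76402531 0o76251304 0o241305] [],
.mk (.mk 1000 0o76310452 0o76125043 0o213540) [.mk 943 0o76521430 0o76521430 0o315402, .mk 1102
0o76543102 0o76543021 0o54321] [],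
.mk (.mk 691 0o76543210 0o76543210 0o453210) [.mk 829 0o76543210 0o76543210 0o543210] [],
.mk (.mk 649 0o76041352 0o76142035 0o130245) [.mk 744 0o76543210 0o76543210 0o543210] [],
.mk (.mk 702 0o76543210 0o76543210 0o453210) [.mk 743 0o76031452 0o76124035 0o120354] [],
.mk (.mk 743 0o76530124 0o76504123 0o204135) [.mk 1045 0o76432510 0o76254310 0o354210, .mk 621
0o76543210 0o76543210 0o543210] [],
.mk (.mk 657 0o76451230 0o76451230 0o451230) [.mk 1014 0o76351420 0o76425130 0o145230] [],
.mk (.mk 677 0o76304125 0o76035124 0o24135) [.mk 1033 0o76425013 0o76350412 0o123045] [],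
.mk (.mk 740 0o76320541 0o76215403 0o102543) [.mk 747 0o76452310 0o76452310 0o453120, .mk 565
0o76235401 0o76324501 0o321540] [],
.mk (.mk 564 0o76543210 0o76543210 0o543210) [.mk 1058 0o76543210 0o76543210 0o453210] [],
.mk (.mk 663 0o76450321 0o76452103 0o234105) [.mk 1042 0o76543210 0o76543210 0o543210] [],
.mk (.mk 740 0o76543210 0o76543210 0o543210) [.mk 747 0o76453120 0o76453120 0o452310] [],
.mk (.mk 714 0o76514302 0o76532041 0o34521) [.mk 978 0o76452130 0o76451320 0o452130] [],
.mk (.mk 768 0o76342015 0o76045312 0o35214) [.mk 740 0o76451320 0o76452130 0o451320] [],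
.mk (.mk 661 0o76210345 0o76012543 0o13425) [.mk 747 0o76452130 0o76451320 0o452130] [],
.mk (.mk 663 0o76451230 0o76451230 0o451230) [.mk 750 0o76123405 0o76023451 0o34152] [],
.mk (.mk 652 0o76345012 0o76345012 0o301452) [.mk 1003 0o76241350 0o76142530 0o145230] [],
.mk (.mk 646 0o76543210 0o76543210 0o543210) [.mk 678 0o76150243 0o76410253 0o321054] [],
.mk (.mk 695 0o76425103 0o76350421 0o203514) [.mk 729 0o76543210 0o76543210 0o543210] [],
.mk (.mk 604 0o76205413 0o76320514 0o301542) [.mk 824 0o76203415 0o76023514 0o31542, .mk 1012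
0o76542310 0o76542310 0o453120]
[0x104a601545006042010907ecc00185408130a5c25180220506208408080021cc5405c1230c1e54174009101408444810bd070151240c8b0040c4008165000200563580150d8000830d811,
0x1080001451581025901915310e428808811d63152000420e004e094028e10271a044842240804b0cc018220dd3920002f88d0162108109830a310200102242000080154c000082dd423,
0x8a7412a8f3040414cd9807062d1291960c01d6b816108201540112144081d080a00651008856180141001711641000b852000030188221666c819072202408000133f000009a0e0042c8190d8000835da23],
.mk (.mk 742 0o76435012 0o76354012 0o150243) [.mk 1010 0o76542310 0o76542310 0o254301] [],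
.mk (.mk 987 0o76351204 0o76405231 0o35412) [.mk 882 0o76543210 0o76543210 0o543210, .mk 1029
0o76532410 0o76524310 0o254301] [],
.mk (.mk 1066 0o76502431 0o76521304 0o21543) [.mk 626 0o76350412 0o76425013 0o350214, .mk 859
0o76543210 0o76543210 0o543210] [],
.mk (.mk 778 0o76534210 0o76534210 0o453210) [.mk 778 0o76543210 0o76543210 0o543210, .mk 995
0o76134052 0o76134052 0o230541] [],
.mk (.mk 780 0o76340521 0o76245103 0o243015) [.mk 883 0o76543210 0o76543210 0o452301, .mk 780
0o76340521 0o76245103 0o352104]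
[0x84102c80408140045418c460100573483256063099e45881450091650bd68a3420444546c6b405070cc1060969347108c00068681859039906218c5100150c400082e568d,
0x1405114c12043107188408a880e08e124238800824800c89403603c0100334e224848a81160282d08100c1644206a002408229530d657400a501f0744aea0100aa18806c019813c6188154d4000832c4e9],
.mk (.mk 705 0o76503214 0o76503214 0o120543) [.mk 707 0o76453210 0o76453210 0o354210] [],
.mk (.mk 711 0o76543210 0o76543210 0o543210) [.mk 749 0o76435210 0o76354210 0o453210] [],
.mk (.mk 808 0o76452310 0o76452310 0o35214) [.mk 1094 0o76542310 0o76542310 0o305214, .mk 808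
0o76453210 0o76453210 0o453210] [],
.mk (.mk 687 0o76423510 0o76253410 0o354210) [.mk 988 0o76501324 0o76502134 0o213450] [],
.mk (.mk 976 0o76431052 0o76154032 0o204351) [.mk 834 0o76120543 0o76210453 0o103254] [],
.mk (.mk 729 0o76542310 0o76542310 0o453120) [.mk 1033 0o76215403 0o76320541 0o132054] [],
.mk (.mk 801 0o76354201 0o76435201 0o31425) [.mk 600 0o76325410 0o76325410 0o453201, .mk 600
0o76543210 0o76543210 0o543210] [],
.mk (.mk 543 0o76543210 0o76543210 0o543210) [.mk 763 0o76432150 0o76154320 0o354201] [],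
.mk (.mk 648 0o76542310 0o76542310 0o254310) [.mk 1055 0o76403512 0o76253014 0o23415] [],
.mk (.mk 686 0o76035142 0o76314025 0o104325) [.mk 1144 0o76432510 0o76254310 0o254310] [],
.mk (.mk 790 0o76451320 0o76452130 0o354012) [.mk 947 0o76035421 0o76324105 0o124305, .mk 1015
0o76541230 0o76541230 0o35142] [],
.mk (.mk 587 0o76354210 0o76435210 0o453210) [.mk 865 0o76542301 0o76542301 0o31425, .mk 1104
0o76432510 0o76254310 0o254310] [],
.mk (.mk 749 0o76523401 0o76523401 0o240531) [.mk 762 0o76245031 0o76341502 0o105234] [],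
.mk (.mk 587 0o76534120 0o76534120 0o453120) [.mk 820 0o76145023 0o76340152 0o105342] [],
.mk (.mk 845 0o76345210 0o76345210 0o453210) [.mk 859 0o76235401 0o76324501 0o123540, .mk 565
0o76253401 0o76423501 0o213540] [],
.mk (.mk 699 0o76431520 0o76254130 0o345201) [.mk 607 0o76543210 0o76543210 0o453210] [],
.mk (.mk 671 0o76432510 0o76254310 0o254310) [.mk 606 0o76543210 0o76543210 0o543210] [],
.mk (.mk 671 0o76503124 0o76503124 0o201354) [.mk 727 0o76453210 0o76453210 0o453210] [],
.mk (.mk 690 0o76043251 0o76143205 0o143205) [.mk 1018 0o76432510 0o76254310 0o254310] [],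
.mk (.mk 702 0o76215034 0o76301542 0o14523) [.mk 996 0o76254103 0o76430521 0o205431] [],
.mk (.mk 545 0o76543210 0o76543210 0o543210) [.mk 809 0o76453210 0o76453210 0o354120] [],
.mk (.mk 739 0o76035421 0o76324105 0o134025) [.mk 903 0o76432510 0o76254310 0o254310] [],
.mk (.mk 687 0o76215403 0o76320541 0o120345) [.mk 739 0o76345210 0o76345210 0o452310] [],
.mk (.mk 737 0o76543210 0o76543210 0o543210) [.mk 630 0o76250413 0o76420513 0o305214, .mk 876
0o76453210 0o76453210 0o452310] [],
.mk (.mk 563 0o76354210 0o76435210 0o453210) [.mk 749 0o76543201 0o76543201 0o340521] [],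
.mk (.mk 536 0o76543210 0o76543210 0o452310) [.mk 804 0o76251403 0o76420531 0o305421] [],
.mk (.mk 702 0o76523104 0o76503421 0o45321) [.mk 838 0o76345210 0o76345210 0o453210] [],
.mk (.mk 536 0o76543210 0o76543210 0o543210) [.mk 787 0o76542130 0o76541320 0o154230] [],
.mk (.mk 673 0o76543210 0o76543210 0o543210) [.mk 805 0o76342150 0o76145320 0o145320] [],
.mk (.mk 680 0o76543210 0o76543210 0o543210) [.mk 693 0o76230541 0o76214503 0o231540] [],
.mk (.mk 662 0o76324051 0o76135402 0o104532) [.mk 955 0o76135042 0o76314052 0o13452] [],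
.mk (.mk 715 0o76543210 0o76543210 0o543210) [.mk 719 0o76310452 0o76125043 0o132540] [],
.mk (.mk 743 0o76432051 0o76154302 0o140532) [.mk 764 0o76543210 0o76543210 0o452310, .mk 1091
0o76543210 0o76543210 0o543210] [],
.mk (.mk 735 0o76432150 0o76154320 0o145230) [.mk 1091 0o76543210 0o76543210 0o543210] [],
.mk (.mk 700 0o76543210 0o76543210 0o543210) [.mk 765 0o76543210 0o76543210 0o453210] [],
.mk (.mk 700 0o76543210 0o76543210 0o543210) [.mk 982 0o76321540 0o76215430 0o315402] [],
.mk (.mk 692 0o76235104 0o76304521 0o54231) [.mk 738 0o76435210 0o76354210 0o453210] [],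
.mk (.mk 662 0o76324051 0o76135402 0o104532) [.mk 681 0o76543210 0o76543210 0o543210] [],
.mk (.mk 681 0o76543210 0o76543210 0o543210) [.mk 777 0o76234051 0o76134502 0o103452] [],
.mk (.mk 674 0o76241350 0o76142530 0o134502) [.mk 560 0o76543210 0o76543210 0o453210] [],
.mk (.mk 693 0o76430521 0o76254103 0o352104) [.mk 1030 0o76435210 0o76354210 0o453210, .mk 880
0o76341502 0o76245031 0o205143] [],
.mk (.mk 560 0o76543210 0o76543210 0o543210) [.mk 1028 0o76540321 0o76542103 0o352104] [],
.mk (.mk 682 0o76543210 0o76543210 0o453210) [.mk 835 0o76130542 0o76214053 0o231540] [],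
.mk (.mk 750 0o76524013 0o76530412 0o104532) [.mk 769 0o76234015 0o76034512 0o41532, .mk 765
0o76453210 0o76453210 0o452310] [],
.mk (.mk 805 0o76512043 0o76510342 0o210345) [.mk 811 0o76413025 0o76053142 0o21435, .mk 811
0o76413052 0o76153042 0o120435] [],
.mk (.mk 682 0o76435210 0o76354210 0o452310) [.mk 742 0o76432051 0o76154302 0o150423] [],
.mk (.mk 645 0o76431502 0o76254031 0o120534) [.mk 676 0o76251403 0o76420531 0o12534] [],
.mk (.mk 655 0o76015243 0o76310245 0o201435) [.mk 980 0o76024153 0o76130425 0o24135] [],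
.mk (.mk 670 0o76501342 0o76512034 0o12534) [.mk 767 0o76452310 0o76452310 0o453120] [],
.mk (.mk 650 0o76452310 0o76452310 0o453120) [.mk 860 0o76532401 0o76524301 0o123540] [],
.mk (.mk 878 0o76451230 0o76451230 0o451230) [.mk 861 0o76325410 0o76325410 0o354210] [],
.mk (.mk 668 0o76452310 0o76452310 0o453120) [.mk 985 0o76354021 0o76435102 0o250413] [],
.mk (.mk 651 0o76452130 0o76451320 0o452130) [.mk 984 0o76421053 0o76150432 0o24153] [],
.mk (.mk 723 0o76451320 0o76452130 0o451320) [.mk 830 0o76543210 0o76543210 0o543210, .mk 906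
0o76410523 0o76250143 0o105423] [],
.mk (.mk 675 0o76435201 0o76354201 0o253104) [.mk 789 0o76512340 0o76512340 0o143502] [],
.mk (.mk 675 0o76532410 0o76524310 0o254301) [.mk 779 0o76435210 0o76354210 0o452301] [],
.mk (.mk 668 0o76543210 0o76543210 0o543210) [.mk 794 0o76453210 0o76453210 0o453210] [],
.mk (.mk 719 0o76432510 0o76254310 0o152403) [.mk 746 0o76453210 0o76453210 0o453210] [],
.mk (.mk 675 0o76210543 0o76210543 0o105423) [.mk 567 0o76325410 0o76325410 0o354210] [],
.mk (.mk 984 0o76542310 0o76542310 0o453120) [.mk 996 0o76402531 0o76251304 0o13542] [],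
.mk (.mk 657 0o76452310 0o76452310 0o453120) [.mk 981 0o76543210 0o76543210 0o543210] []]

theorem v300 : chkL Tab.T5 Tab.RT Tab.reps Tab.E2 Ker.cert7 D300 300 = true := by
  decide +kernel

end CR.C2
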