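import Pool.Agent.Lib.MP_6f5d36_co.Ker
import Pool.Agent.Lib.MP_6f5d36_co.RTab
import Pool.Agent.Lib.MP_6f5d36_co.C2.KerC
import Pool.Agent.Lib.MP_6f5d36_co.C2.ETab

/-! MP_6f5d36_co, case (ii), level 7 : the ranks 400, ..., 499 -/

set_option autoImplicit false
set_option maxRecDepth 100000

noncomputable section

namespace CR.C2

/-- the frames and certificates of the ranks 400, ..., 499 -/
def D400 : List It :=
[.mk (.mk 705 0o76203415 0o76023514 0o31524) [.mk 631 0o76305412 0o76325014 0o310254] [],
.mk (.mk 653 0o76435210 0o76354210 0o354210) [.mk 741 0o76542130 0o76541320 0o452130] [],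
.mk (.mk 698 0o76304152 0o76135024 0o123540) [.mk 748 0o76543021 0o76543102 0o302415] [],
.mk (.mk 656 0o76543021 0o76543102 0o250431) [.mk 886 0o76314502 0o76235041 0o132504] [],
.mk (.mk 651 0o76542310 0o76542310 0o453120) [.mk 696 0o76412035 0o76051342 0o25413] [],
.mk (.mk 671 0o76103524 0o76203154 0o210354) [.mk 719 0o76105324 0o76302154 0o102354] [],
.mk (.mk 773 0o76432501 0o76254301 0o251430) [.mk 565 0o76543210 0o76543210 0o543210] [],
.mk (.mk 758 0o76543210 0o76543210 0o452301) [.mk 1094 0o76405123 0o76350124 0o41325] [],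
.mk (.mk 654 0o76304512 0o76235014 0o302541) [.mk 686 0o76340512 0o76245013 0o215034] [],
.mk (.mk 570 0o76524310 0o76532410 0o453210) [.mk 1003 0o76542301 0o76542301 0o54213] [],
.mk (.mk 724 0o76254013 0o76430512 0o103524) [.mk 885 0o76543210 0o76543210 0o354210] [],
.mk (.mk 572 0o76543210 0o76543210 0o543210) [.mk 864 0o76241503 0o76240531 0o23541, .mk 836
0o76152403 0o76420351 0o203451] [],
.mk (.mk 727 0o76435120 0o76354120 0o453120) [.mk 1009 0o76254103 0o76430521 0o41235, .mk 844
0o76543210 0o76543210 0o543210] [],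
.mk (.mk 685 0o76432510 0o76254310 0o254310) [.mk 844 0o76543210 0o76543210 0o543210, .mk 761
0o76205341 0o76312504 0o103245] [],
.mk (.mk 755 0o76431520 0o76254130 0o354012) [.mk 908 0o76502341 0o76512304 0o31425, .mk 832
0o76405231 0o76351204 0o102354] [],
.mk (.mk 737 0o76520413 0o76520413 0o205134) [.mk 898 0o76345120 0o76345120 0o453120] [],
.mk (.mk 714 0o76524301 0o76532401 0o240513) [.mk 782 0o76253014 0o76403512 0o15234, .mk 801
0o76435210 0o76354210 0o453210] [],
.mk (.mk 586 0o76543210 0o76543210 0o543210) [.mk 865 0o76241503 0o76240531 0o204513, .mk 1041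
0o76524130 0o76531420 0o145320] [],
.mk (.mk 673 0o76025143 0o76310425 0o104235) [.mk 885 0o76214530 0o76231540 0o345210] [],
.mk (.mk 759 0o76125034 0o76301452 0o14253) [.mk 759 0o76103254 0o76103254 0o103254] [],
.mk (.mk 762 0o76543210 0o76543210 0o543210) [.mk 782 0o76320541 0o76215403 0o213405] [],
.mk (.mk 558 0o76543210 0o76543210 0o543210) [.mk 1039 0o76230145 0o76014523 0o15234] [],
.mk (.mk 727 0o76543210 0o76543210 0o543210) [.mk 938 0o76201453 0o76120534 0o130254, .mk 1022
0o76253410 0o76423510 0o245130] [],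
.mk (.mk 575 0o76543210 0o76543210 0o543210) [.mk 1030 0o76543210 0o76543210 0o453210] [],
.mk (.mk 703 0o76435210 0o76354210 0o354210) [.mk 575 0o76543210 0o76543210 0o543210, .mk 620
0o76534210 0o76534210 0o452310] [],
.mk (.mk 575 0o76543210 0o76543210 0o543210) [.mk 985 0o76305241 0o76315204 0o142305, .mk 1027
0o76532410 0o76524310 0o254310] [],
.mk (.mk 766 0o76354210 0o76435210 0o452310) [.mk 928 0o76324510 0o76235410 0o254310] [],
.mk (.mk 576 0o76543210 0o76543210 0o543210) [.mk 756 0o76543210 0o76543210 0o453210, .mk 1040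
0o76154302 0o76432051 0o132540] [],
.mk (.mk 721 0o76543210 0o76543210 0o543210) [.mk 737 0o76354210 0o76435210 0o452310] [],
.mk (.mk 729 0o76403521 0o76253104 0o234105) [.mk 583 0o76501432 0o76521034 0o320415] [],
.mk (.mk 795 0o76510432 0o76521043 0o23154) [.mk 772 0o76345210 0o76345210 0o452310] [],
.mk (.mk 578 0o76054321 0o76432105 0o432105) [.mk 908 0o76543210 0o76543210 0o543210] [],
.mk (.mk 689 0o76543210 0o76543210 0o543210) [.mk 1000 0o76143502 0o76243051 0o132540] [],
.mk (.mk 737 0o76534210 0o76534210 0o452310) [.mk 752 0o76203415 0o76023514 0o24135] [],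
.mk (.mk 710 0o76345210 0o76345210 0o452310) [.mk 737 0o76543210 0o76543210 0o543210] [],
.mk (.mk 766 0o76305421 0o76325104 0o342105) [.mk 1029 0o76205314 0o76302514 0o43215, .mk 804
0o76432150 0o76154320 0o154320] [],
.mk (.mk 674 0o76234051 0o76134502 0o140523) [.mk 765 0o76523104 0o76503421 0o54321] [],
.mk (.mk 739 0o76435210 0o76354210 0o453210) [.mk 988 0o76543210 0o76543210 0o254310] [],
.mk (.mk 680 0o76543210 0o76543210 0o543210) [.mk 772 0o76543210 0o76543210 0o453210] [],
.mk (.mk 724 0o76240351 0o76142503 0o123450) [.mk 764 0o76543210 0o76543210 0o452310] [],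
.mk (.mk 710 0o76543210 0o76543210 0o543210) [.mk 1042 0o76423105 0o76053421 0o54231] [],
.mk (.mk 559 0o76543210 0o76543210 0o543210) [.mk 728 0o76435210 0o76354210 0o452310] [],
.mk (.mk 664 0o76241350 0o76142530 0o135402) [.mk 682 0o76543210 0o76543210 0o453210] [],
.mk (.mk 702 0o76543210 0o76543210 0o543210) [.mk 1030 0o76345210 0o76345210 0o452310] [],
.mk (.mk 1032 0o76543210 0o76543210 0o453210) [.mk 894 0o76324501 0o76235401 0o125304, .mk 609
0o76543210 0o76543210 0o543210]
[0x2001028a80187c01c735910502905404cf0041a01002009c0110030a54301e1f500396340781a45a04410150122400024494180641200703d68070613c02418021000150d40008313842,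
0x3384914204c700340a2440090010241e001016164044380b03361cc2c0b466e5c019810068050090c280e10460937006140100a02421c03c88a0a8100608700a4050080400025a0190d00008365461],
.mk (.mk 609 0o76543210 0o76543210 0o543210) [.mk 1144 0o76450213 0o76450213 0o51432, .mk 867
0o76542310 0o76542310 0o453120]
[0x338450060d4700a300001c201110e0060008171420483a8540c06405d8302e60c00b8b466a04c090c380c100181201421c03d8501864dc0088a0a6104600710a604c2001000459c190d00008361b4c,
0x4428011a404e118148db2442188502500003ec200301f41c0111f3586484580c004024008ad40dc040411341e8064580e118a480de26c0029890a1d31423004aaa83221446f830064108190d8000836b842],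
.mk (.mk 777 0o76451230 0o76451230 0o451230) [.mk 841 0o76543210 0o76543210 0o543210, .mk 883
0o76423510 0o76253410 0o352401] [],
.mk (.mk 693 0o76453021 0o76453102 0o250413) [.mk 1001 0o76132450 0o76124350 0o142503, .mk 1014
0o76352041 0o76415302 0o25413] [],
.mk (.mk 748 0o76451230 0o76451230 0o451230) [.mk 1002 0o76032541 0o76214305 0o143205, .mk 1019
0o76543021 0o76543102 0o250413] [],
.mk (.mk 830 0o76453120 0o76453120 0o234501) [.mk 1127 0o76120453 0o76120453 0o12354, .mk 830
0o76543210 0o76543210 0o325401, .mk 1127 0o76120453 0o76120453 0o104532] [],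
.mk (.mk 789 0o76153240 0o76413250 0o241503) [.mk 830 0o76543210 0o76543210 0o543210] [],
.mk (.mk 566 0o76325410 0o76325410 0o354210) [.mk 780 0o76413520 0o76253140 0o134052, .mk 789
0o76315240 0o76315240 0o241503] [],
.mk (.mk 749 0o76345201 0o76345201 0o253104) [.mk 831 0o76541320 0o76542130 0o451320] [],
.mk (.mk 645 0o76543210 0o76543210 0o543210) [.mk 618 0o76315402 0o76325041 0o321504] [],
.mk (.mk 645 0o76543210 0o76543210 0o543210) [.mk 604 0o76325410 0o76325410 0o354210] [],
.mk (.mk 1029 0o76453021 0o76453102 0o24351) [.mk 867 0o76543210 0o76543210 0o543210, .mk 631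
0o76543201 0o76543201 0o231540] [],
.mk (.mk 824 0o76345012 0o76345012 0o150243) [.mk 993 0o76324510 0o76235410 0o245301, .mk 631
0o76543210 0o76543210 0o543210] [],
.mk (.mk 671 0o76521340 0o76512430 0o12534) [.mk 1128 0o76453210 0o76453210 0o453210] [],
.mk (.mk 579 0o76534210 0o76534210 0o452310) [.mk 947 0o76243510 0o76243510 0o254130, .mk 1090
0o76543210 0o76543210 0o543210] [],
.mk (.mk 658 0o76451230 0o76451230 0o451230) [.mk 713 0o76053241 0o76413205 0o243105] [],
.mk (.mk 665 0o76201543 0o76210534 0o213045) [.mk 746 0o76124305 0o76032451 0o52341, .mk 1112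
0o76435210 0o76354210 0o453210] [],
.mk (.mk 722 0o76452310 0o76452310 0o453120) [.mk 777 0o76543210 0o76543210 0o543210] [],
.mk (.mk 770 0o76032541 0o76214305 0o142305) [.mk 777 0o76543210 0o76543210 0o543210] [],
.mk (.mk 666 0o76502431 0o76521304 0o234015) [.mk 740 0o76543210 0o76543210 0o543210] [],
.mk (.mk 740 0o76543210 0o76543210 0o543210) [.mk 747 0o76452130 0o76451320 0o452130] [],
.mk (.mk 713 0o76401523 0o76250134 0o103452) [.mk 716 0o76412503 0o76250341 0o304521, .mk 740
0o76543210 0o76543210 0o543210] [],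
.mk (.mk 681 0o76543210 0o76543210 0o543210) [.mk 740 0o76324051 0o76135402 0o103542, .mk 809
0o76530241 0o76514203 0o312540] [],
.mk (.mk 695 0o76325401 0o76325401 0o350412) [.mk 722 0o76543210 0o76543210 0o543210] [],
.mk (.mk 599 0o76513240 0o76513240 0o235401) [.mk 768 0o76543210 0o76543210 0o543210] [],
.mk (.mk 548 0o76543210 0o76543210 0o452301) [.mk 880 0o76543210 0o76543210 0o245301]
[0x2a0000a600d621d04a0c700a644403e88042421b8002817c63a303076045800853708684000040550c920c82c2809012081401e9351288d2440013202590842000038ae901120000735300160ce0200050c7c41e4040890970a641031001c1d4e80008395a1c,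
0xb106a4000096600049a03d00c600e04420160430018840c41880001cc82cc009854093e900e50f8054215009c219087411b8014a0b114e004102601a088055f8cec4018c2c1614c4c7229b08139805c000194801284283939412514881203f047680f0c214e400083ea163],
.mk (.mk 708 0o76315402 0o76325041 0o125430) [.mk 1017 0o76541230 0o76541230 0o42153] [],
.mk (.mk 714 0o76435120 0o76354120 0o153042) [.mk 566 0o76543210 0o76543210 0o543210] [],
.mk (.mk 701 0o76543210 0o76543210 0o543210) [.mk 1030 0o76345210 0o76345210 0o452310] [],
.mk (.mk 653 0o76430512 0o76254013 0o350124) [.mk 712 0o76345210 0o76345210 0o453210] [],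
.mk (.mk 594 0o76352401 0o76425301 0o245013) [.mk 1035 0o76543210 0o76543210 0o543210] [],
.mk (.mk 562 0o76543210 0o76543210 0o543210) [.mk 780 0o76245310 0o76342510 0o305124] [],
.mk (.mk 742 0o76543210 0o76543210 0o543210) [.mk 749 0o76435210 0o76354210 0o453210] [],
.mk (.mk 976 0o76524103 0o76530421 0o54321) [.mk 734 0o76302541 0o76215304 0o230541, .mk 731
0o76543210 0o76543210 0o543210] [],
.mk (.mk 662 0o76451230 0o76451230 0o451230) [.mk 1010 0o76140235 0o76041253 0o41253] [],
.mk (.mk 800 0o76520314 0o76502413 0o32451) [.mk 800 0o76420513 0o76250413 0o302541] [],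
.mk (.mk 811 0o76453210 0o76453210 0o304125) [.mk 833 0o76543210 0o76543210 0o34125, .mk 811
0o76453210 0o76453210 0o453210]
[0x360805e85a06a0005c40201a22e5490e906418491020622b085d9714480140e1120e24880a8c03820809a8230a6080481320866c40b8a21c07d856142442040038310a43141c872240140190d8000834c15d,
0xc000548a5108523af005891691b8040480718a084c41584a044450502b10c42631061252a404234009d610825001902086d1c56403d24ac7840f847148600c0150cc00083288e9],
.mk (.mk 534 0o76543210 0o76543210 0o543210) [.mk 753 0o76435210 0o76354210 0o453210] [],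
.mk (.mk 753 0o76243510 0o76243510 0o452301) [.mk 753 0o76543210 0o76543210 0o543210, .mk 1204
0o76023541 0o76213405 0o24135] [],
.mk (.mk 773 0o76453210 0o76453210 0o154230) [.mk 818 0o76432510 0o76254310 0o453120, .mk 935
0o76521340 0o76512430 0o345102] [],
.mk (.mk 649 0o76453210 0o76453210 0o154230) [.mk 826 0o76432510 0o76254310 0o453120] [],
.mk (.mk 572 0o76253410 0o76423510 0o453210) [.mk 1095 0o76435210 0o76354210 0o254310, .mk 975
0o76251430 0o76421530 0o345102] [],
.mk (.mk 588 0o76125403 0o76320451 0o204351) [.mk 881 0o76543210 0o76543210 0o543210] [],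
.mk (.mk 689 0o76504321 0o76532104 0o134025) [.mk 1129 0o76542310 0o76542310 0o254130] [],
.mk (.mk 718 0o76345120 0o76345120 0o145230) [.mk 844 0o76543210 0o76543210 0o543210] [],
.mk (.mk 656 0o76315042 0o76315042 0o104253) [.mk 993 0o76432510 0o76254310 0o254310, .mk 844
0o76543210 0o76543210 0o543210] [],
.mk (.mk 544 0o76354210 0o76435210 0o453210) [.mk 784 0o76045231 0o76341205 0o143205] [],
.mk (.mk 844 0o76543210 0o76543210 0o543210) [.mk 896 0o76423510 0o76253410 0o254130, .mk 837
0o76345210 0o76345210 0o453210] [],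
.mk (.mk 596 0o76543210 0o76543210 0o543210) [.mk 769 0o76240513 0o76240513 0o205314, .mk 762
0o76435210 0o76354210 0o453210] [],
.mk (.mk 727 0o76153024 0o76403152 0o15234) [.mk 993 0o76542310 0o76542310 0o254310, .mk 762
0o76435210 0o76354210 0o453210] [],
.mk (.mk 586 0o76543210 0o76543210 0o543210) [.mk 1021 0o76530421 0o76524103 0o35124, .mk 864
0o76243501 0o76243501 0o213504] [],
.mk (.mk 772 0o76145320 0o76342150 0o124053) [.mk 866 0o76213540 0o76213540 0o345012] [],
.mk (.mk 702 0o76142503 0o76240351 0o203451) [.mk 606 0o76543210 0o76543210 0o543210] [],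
.mk (.mk 844 0o76543210 0o76543210 0o543210) [.mk 1160 0o76435210 0o76354210 0o153402, .mk 940
0o76431520 0o76254130 0o354012] [],
.mk (.mk 590 0o76152043 0o76410352 0o105243) [.mk 1015 0o76542310 0o76542310 0o254310] [],
.mk (.mk 654 0o76345012 0o76345012 0o41523) [.mk 726 0o76543210 0o76543210 0o543210] []]

theorem v400 : chkL Tab.T5 Tab.RT Tab.reps Tab.E2 Ker.cert7 D400 400 = true := by
  decide +kernel

end CR.C2
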