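import Pool.Agent.Lib.MP_6f5d36_co.Ker
import Pool.Agent.Lib.MP_6f5d36_co.RTab
import Pool.Agent.Lib.MP_6f5d36_co.C2.KerC
import Pool.Agent.Lib.MP_6f5d36_co.C2.ETab

/-! MP_6f5d36_co, case (ii), level 7 : the ranks 500, ..., 599 -/

set_option autoImplicit false
set_option maxRecDepth 100000

noncomputable section

namespace CR.C2

/-- the frames and certificates of the ranks 500, ..., 599 -/
def D500 : List It :=
[.mk (.mk 721 0o76543210 0o76543210 0o543210) [.mk 756 0o76453210 0o76453210 0o452310] [],
.mk (.mk 738 0o76435210 0o76354210 0o452310) [.mk 1098 0o76543201 0o76543201 0o152304, .mk 613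
0o76543210 0o76543210 0o543210] [],
.mk (.mk 985 0o76253104 0o76403521 0o45321) [.mk 592 0o76354210 0o76435210 0o453210] [],
.mk (.mk 988 0o76325410 0o76325410 0o245130) [.mk 1045 0o76532140 0o76514320 0o154320] [],
.mk (.mk 680 0o76354210 0o76435210 0o453210) [.mk 689 0o76543210 0o76543210 0o543210] [],
.mk (.mk 689 0o76543210 0o76543210 0o543210) [.mk 766 0o76354210 0o76435210 0o452310] [],
.mk (.mk 756 0o76543210 0o76543210 0o543210) [.mk 966 0o76432510 0o76254310 0o254310] [],
.mk (.mk 724 0o76452130 0o76451320 0o154320) [.mk 636 0o76534021 0o76534102 0o351204] [],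
.mk (.mk 690 0o76453210 0o76453210 0o452310) [.mk 693 0o76234150 0o76134520 0o145230, .mk 892
0o76543210 0o76543210 0o543210] [],
.mk (.mk 682 0o76354210 0o76435210 0o452310) [.mk 1004 0o76104253 0o76130254 0o210354] [],
.mk (.mk 728 0o76543210 0o76543210 0o453210) [.mk 821 0o76543210 0o76543210 0o543210] [],
.mk (.mk 715 0o76543210 0o76543210 0o543210) [.mk 876 0o76435210 0o76354210 0o453210, .mk 621
0o76520431 0o76521403 0o315204] [],
.mk (.mk 674 0o76430251 0o76154203 0o143205) [.mk 1091 0o76543210 0o76543210 0o543210] [],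
.mk (.mk 976 0o76510432 0o76521043 0o213540) [.mk 739 0o76453210 0o76453210 0o452310] [],
.mk (.mk 681 0o76543210 0o76543210 0o543210) [.mk 744 0o76435210 0o76354210 0o453210] [],
.mk (.mk 698 0o76432105 0o76054321 0o54321) [.mk 1018 0o76125034 0o76301452 0o104253] [],
.mk (.mk 678 0o76514203 0o76530241 0o52413) [.mk 728 0o76543210 0o76543210 0o543210] [],
.mk (.mk 655 0o76014523 0o76230145 0o302415) [.mk 978 0o76014532 0o76231045 0o32145] [],
.mk (.mk 593 0o76543210 0o76543210 0o543210) [.mk 1016 0o76314520 0o76235140 0o241503, .mk 868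
0o76354102 0o76435021 0o52413]
[0x60483a30000a018021880532c8120e062200040c446180000ca91006201060410e0284d410c860888b4008500081380a1000285802300c4248c00300114c000082900c5,
0x6400791004654b0944222140b640825328a0a433702986cce702a4a690748646781e100d2243089c5203548800a8433dbd1c220f8001027300300110d000082edac2],
.mk (.mk 593 0o76350421 0o76425103 0o342105) [.mk 986 0o76140523 0o76240153 0o32451] [],
.mk (.mk 722 0o76325410 0o76325410 0o235401) [.mk 609 0o76543210 0o76543210 0o543210] [],
.mk (.mk 566 0o76352410 0o76425310 0o352401) [.mk 920 0o76530412 0o76524013 0o14352, .mk 904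
0o76543210 0o76543210 0o543210] [],
.mk (.mk 594 0o76543021 0o76543102 0o250413) [.mk 1001 0o76541023 0o76540132 0o120354, .mk 1015
0o76542031 0o76541302 0o25143] [],
.mk (.mk 804 0o76453021 0o76453102 0o250413) [.mk 1043 0o76451230 0o76451230 0o451230] [],
.mk (.mk 981 0o76543210 0o76543210 0o453210) [.mk 770 0o76201543 0o76210534 0o103542, .mk 830
0o76543210 0o76543210 0o543210] [],
.mk (.mk 681 0o76453210 0o76453210 0o453210) [.mk 715 0o76543210 0o76543210 0o543210] [],
.mk (.mk 991 0o76235401 0o76324501 0o325014) [.mk 1032 0o76541320 0o76542130 0o451320, .mk 1017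
0o76541320 0o76542130 0o154230] [],
.mk (.mk 729 0o76542310 0o76542310 0o453120) [.mk 1009 0o76150234 0o76401253 0o201453, .mk 831
0o76120534 0o76201453 0o102543] [],
.mk (.mk 987 0o76542301 0o76542301 0o253104) [.mk 1032 0o76542310 0o76542310 0o453120, .mk 813
0o76123405 0o76023451 0o34512]
[0x57005400d0058077505c051703083750be07e706502200e8009e00655d2100c67005006c300240011ac5d600d409034dc4020b6c000010c403b01c400000205e108c054335c42411ac08c518449e009c00150e5006433cc00301c82e000545f333481220040250e8000840d229,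
0x4100008164401c00520490c82a02884c00750990d0411086c0a941041444211000ec20220c8042e200908418c504110862121800262330818110c8000829d80b],
.mk (.mk 748 0o76542130 0o76541320 0o452130) [.mk 1019 0o76250143 0o76410523 0o105423, .mk 759
0o76345012 0o76345012 0o350124] [],
.mk (.mk 759 0o76340512 0o76245013 0o350214) [.mk 1039 0o76231045 0o76014532 0o105243] [],
.mk (.mk 567 0o76215340 0o76312540 0o235401) [.mk 1031 0o76543210 0o76543210 0o543210] [],
.mk (.mk 604 0o76205413 0o76320514 0o301542) [.mk 1052 0o76541230 0o76541230 0o451230, .mk 1052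
0o76543210 0o76543210 0o543210] [],
.mk (.mk 621 0o76542130 0o76541320 0o452130) [.mk 1052 0o76354021 0o76435102 0o124305, .mk 618
0o76354012 0o76435012 0o213405] [],
.mk (.mk 565 0o76543210 0o76543210 0o452301) [.mk 923 0o76542301 0o76542301 0o251430, .mk 923
0o76542301 0o76542301 0o340521] [],
.mk (.mk 566 0o76531402 0o76524031 0o231054) [.mk 786 0o76524301 0o76532401 0o152340, .mk 566
0o76531402 0o76524031 0o320145]
[0xb0a00640b0700901180400303a0200a088282250401000c404843825126924628010be25c2084469003421984082408808c90a0b0821043186888a8a8b0963660188310e11a4388154d0000831da22,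
0xd831300640010004200994800304fc07c84ee808890e0080438e150432101848620104180360022100844a0a8a11213d988e0259c16103986a80808687408446302000410a08100090818101262c34ed00010d846310b004010280214d000083eb154],
.mk (.mk 604 0o76532401 0o76524301 0o251430) [.mk 1153 0o76423501 0o76253401 0o21435, .mk 806
0o76425301 0o76352401 0o152340] [],
.mk (.mk 585 0o76354210 0o76435210 0o452301) [.mk 1033 0o76231504 0o76204531 0o125430] [],
.mk (.mk 561 0o76531402 0o76524031 0o231054) [.mk 561 0o76531402 0o76524031 0o320145, .mk 780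
0o76502314 0o76502314 0o31452, .mk 780 0o76502314 0o76502314 0o120543]
[0x1940c4808e1030218629806f01201043464619128b800032112700a80080a230d1078014212002080961006a23e385848000e40e38084704200090830800218005105040817661011b810c0684271b38840a00419016087c060731115001d4e800083930ac,
0x12000103066008d08d84ec00000205e003cc1070818184ec01a07a5012424a94201406002842200608304a460e24308c806500a30208b9c04422c4812a042c0a002d0048018007109404003c002d0b1800850a24006084001d4d8000839a425],
.mk (.mk 811 0o76413502 0o76253041 0o201435) [.mk 880 0o76524013 0o76530412 0o41352] [],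
.mk (.mk 604 0o76530421 0o76524103 0o243015) [.mk 883 0o76543210 0o76543210 0o452301, .mk 604
0o76530421 0o76524103 0o352104]
[0x300800c640031305a24021810a4210024c6001120004c26598c0a35329341c62842845041448399a22303866ca120406c46381b0000e0512800110cc00082e568d,
0x10220068160b828822889002b1c0f0540ae80c8c0011100042400b1003940004128e148478100b030825882098540e885918615ec094b81c21cc0080398e000915111402c2480154cc000832c4e9],
.mk (.mk 666 0o76240315 0o76042513 0o23154) [.mk 1163 0o76543210 0o76543210 0o543210] [],
.mk (.mk 735 0o76325410 0o76325410 0o354210) [.mk 1066 0o76543210 0o76543210 0o453210] [],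
.mk (.mk 705 0o76543210 0o76543210 0o543210) [.mk 567 0o76354210 0o76435210 0o453210] [],
.mk (.mk 698 0o76231504 0o76204531 0o32415) [.mk 996 0o76450231 0o76451203 0o250314] [],
.mk (.mk 585 0o76534210 0o76534210 0o452301) [.mk 1142 0o76425013 0o76350412 0o41352, .mk 926
0o76124503 0o76230451 0o210435] [],
.mk (.mk 572 0o76532410 0o76524310 0o453210) [.mk 818 0o76234501 0o76234501 0o250314, .mk 1028
0o76543210 0o76543210 0o154230] [],
.mk (.mk 554 0o76543210 0o76543210 0o543210) [.mk 1085 0o76352140 0o76415320 0o215403, .mk 595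
0o76532410 0o76524310 0o453120] [],
.mk (.mk 554 0o76543210 0o76543210 0o543210) [.mk 1094 0o76352140 0o76415320 0o235401] [],
.mk (.mk 543 0o76543210 0o76543210 0o543210) [.mk 826 0o76435210 0o76354210 0o453120, .mk 1053
0o76412053 0o76150342 0o32154] [],
.mk (.mk 787 0o76215304 0o76302541 0o204153) [.mk 781 0o76235410 0o76324510 0o453210, .mk 826
0o76543210 0o76543210 0o543210] [],
.mk (.mk 762 0o76354210 0o76435210 0o453210) [.mk 844 0o76531402 0o76524031 0o32145, .mk 801
0o76234501 0o76234501 0o230514] [],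
.mk (.mk 596 0o76351420 0o76425130 0o354012) [.mk 844 0o76543210 0o76543210 0o543210, .mk 755
0o76453120 0o76453120 0o453120] [],
.mk (.mk 720 0o76421530 0o76251430 0o345021) [.mk 574 0o76543210 0o76543210 0o543210] [],
.mk (.mk 574 0o76543210 0o76543210 0o543210) [.mk 930 0o76432510 0o76254310 0o354120, .mk 947
0o76325401 0o76325401 0o135204] [],
.mk (.mk 596 0o76520413 0o76520413 0o201534) [.mk 866 0o76350412 0o76425013 0o120354, .mk 596
0o76543210 0o76543210 0o543210] [],
.mk (.mk 596 0o76543210 0o76543210 0o345021) [.mk 999 0o76425310 0o76352410 0o254310, .mk 1117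
0o76354120 0o76435120 0o145320] [],
.mk (.mk 596 0o76250413 0o76420513 0o203514) [.mk 986 0o76431502 0o76254031 0o132540] [],
.mk (.mk 696 0o76054132 0o76431025 0o140325) [.mk 1014 0o76540312 0o76542013 0o52314] [],
.mk (.mk 612 0o76253401 0o76423501 0o213504) [.mk 845 0o76354210 0o76435210 0o453210, .mk 1086
0o76052314 0o76402315 0o24135] [],
.mk (.mk 709 0o76143520 0o76243150 0o345210) [.mk 751 0o76035421 0o76324105 0o134205, .mk 754
0o76543210 0o76543210 0o543210] [],
.mk (.mk 709 0o76142350 0o76142350 0o345210) [.mk 957 0o76053241 0o76413205 0o234015, .mk 790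
0o76543210 0o76543210 0o543210] [],
.mk (.mk 735 0o76541230 0o76541230 0o35142) [.mk 907 0o76345210 0o76345210 0o453210, .mk 790
0o76451320 0o76452130 0o354012] [],
.mk (.mk 676 0o76423501 0o76253401 0o240531) [.mk 1007 0o76413502 0o76253041 0o132504] [],
.mk (.mk 607 0o76534120 0o76534120 0o453120) [.mk 736 0o76431250 0o76154230 0o354201, .mk 1047
0o76542310 0o76542310 0o254310] [],
.mk (.mk 558 0o76543210 0o76543210 0o543210) [.mk 996 0o76432510 0o76254310 0o254310] [],
.mk (.mk 558 0o76534210 0o76534210 0o354102) [.mk 1093 0o76543120 0o76543120 0o154320, .mk 1146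
0o76305241 0o76315204 0o34125] [],
.mk (.mk 558 0o76534210 0o76534210 0o453210) [.mk 1064 0o76305241 0o76315204 0o143205] [],
.mk (.mk 719 0o76430251 0o76154203 0o135204) [.mk 590 0o76543210 0o76543210 0o543210] [],
.mk (.mk 544 0o76543210 0o76543210 0o543210) [.mk 971 0o76430251 0o76154203 0o153204] [],
.mk (.mk 787 0o76435201 0o76354201 0o152430) [.mk 1023 0o76103452 0o76123054 0o31452, .mk 846
0o76435210 0o76354210 0o453201]
[0x91100d8c03004ca2024010802100a0180a43866900441014a9514c0104a170c60289e1124602a0330890229dc208101380e130ae200521981cb1918469c66108114cc00082d94a1],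
.mk (.mk 764 0o76354210 0o76435210 0o452310) [.mk 798 0o76543210 0o76543210 0o543210] [],
.mk (.mk 773 0o76354021 0o76435102 0o351204) [.mk 608 0o76543210 0o76543210 0o543210, .mk 838
0o76543210 0o76543210 0o453210] [],
.mk (.mk 664 0o76345201 0o76345201 0o350421) [.mk 563 0o76543210 0o76543210 0o543210] [],
.mk (.mk 664 0o76251304 0o76402531 0o25413) [.mk 772 0o76534210 0o76534210 0o453210] [],
.mk (.mk 705 0o76534201 0o76534201 0o350421) [.mk 563 0o76543210 0o76543210 0o543210] [],
.mk (.mk 821 0o76153042 0o76413052 0o321054) [.mk 892 0o76543210 0o76543210 0o543210, .mk 840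
0o76354210 0o76435210 0o453210] [],
.mk (.mk 690 0o76543210 0o76543210 0o543210) [.mk 693 0o76423150 0o76153420 0o154320] [],
.mk (.mk 999 0o76241530 0o76241530 0o235401) [.mk 840 0o76453210 0o76453210 0o452310] [],
.mk (.mk 661 0o76135204 0o76304251 0o43512) [.mk 739 0o76435210 0o76354210 0o453210] [],
.mk (.mk 979 0o76432510 0o76254310 0o354120) [.mk 766 0o76435210 0o76354210 0o452310] [],
.mk (.mk 538 0o76513402 0o76523041 0o305421) [.mk 766 0o76543210 0o76543210 0o452310] [],
.mk (.mk 546 0o76543210 0o76543210 0o543210) [.mk 999 0o76340251 0o76145203 0o152304] [],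
.mk (.mk 979 0o76432510 0o76254310 0o254310) [.mk 739 0o76324105 0o76035421 0o53421] [],
.mk (.mk 710 0o76543210 0o76543210 0o543210) [.mk 1053 0o76140532 0o76241053 0o132540] [],
.mk (.mk 701 0o76435210 0o76354210 0o453210) [.mk 1004 0o76542310 0o76542310 0o254130] [],
.mk (.mk 702 0o76543210 0o76543210 0o452310) [.mk 743 0o76301452 0o76125034 0o130254] [],
.mk (.mk 711 0o76241350 0o76142530 0o135402) [.mk 702 0o76543210 0o76543210 0o452310] [],
.mk (.mk 671 0o76541302 0o76542031 0o350142) [.mk 1010 0o76540231 0o76541203 0o253104] [],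
.mk (.mk 671 0o76514302 0o76532041 0o240153) [.mk 1002 0o76432510 0o76254310 0o354120] [],
.mk (.mk 769 0o76320451 0o76125403 0o132540) [.mk 809 0o76230541 0o76214503 0o213450, .mk 1030
0o76453210 0o76453210 0o452310] [],
.mk (.mk 735 0o76342150 0o76145320 0o154320) [.mk 1030 0o76453210 0o76453210 0o452310] [],
.mk (.mk 869 0o76310452 0o76125043 0o123450) [.mk 1056 0o76453210 0o76453210 0o452310, .mk 886
0o76102534 0o76201354 0o203154] [],
.mk (.mk 752 0o76035412 0o76324015 0o24135) [.mk 771 0o76240351 0o76142503 0o123540, .mk 809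
0o76230541 0o76214503 0o213450] [],
.mk (.mk 722 0o76453210 0o76453210 0o453210) [.mk 685 0o76523140 0o76513420 0o23541] [],
.mk (.mk 711 0o76435201 0o76354201 0o251304) [.mk 609 0o76543210 0o76543210 0o543210] [],
.mk (.mk 677 0o76201534 0o76201534 0o102534) [.mk 663 0o76453120 0o76453120 0o452310] [],
.mk (.mk 811 0o76431520 0o76254130 0o104235) [.mk 878 0o76451320 0o76452130 0o451320] [],
.mk (.mk 771 0o76243501 0o76243501 0o123450) [.mk 745 0o76452310 0o76452310 0o453120] [],
.mk (.mk 581 0o76543210 0o76543210 0o543210) [.mk 1005 0o76523041 0o76513402 0o240513, .mk 769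
0o76250134 0o76401523 0o15423] []]

theorem v500 : chkL Tab.T5 Tab.RT Tab.reps Tab.E2 Ker.cert7 D500 500 = true := by
  decide +kernel

end CR.C2
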