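import Pool.Agent.Lib.MP_6f5d36_co.Ker
import Pool.Agent.Lib.MP_6f5d36_co.RTab
import Pool.Agent.Lib.MP_6f5d36_co.C2.KerC
import Pool.Agent.Lib.MP_6f5d36_co.C2.ETab

/-! MP_6f5d36_co, case (ii), level 7 : the ranks 600, ..., 699 -/

set_option autoImplicit false
set_option maxRecDepth 100000

noncomputable section

namespace CR.C2

/-- the frames and certificates of the ranks 600, ..., 699 -/
def D600 : List It :=
[.mk (.mk 757 0o76451320 0o76452130 0o451320) [.mk 806 0o76142530 0o76241350 0o124053] [],
.mk (.mk 757 0o76543120 0o76543120 0o452310) [.mk 842 0o76314520 0o76235140 0o124503, .mk 1009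
0o76245130 0o76341520 0o24135] [],
.mk (.mk 668 0o76543210 0o76543210 0o543210) [.mk 1016 0o76231054 0o76104532 0o104325] [],
.mk (.mk 996 0o76350124 0o76405123 0o51432) [.mk 923 0o76432510 0o76254310 0o354210] [],
.mk (.mk 768 0o76541320 0o76542130 0o451320) [.mk 1025 0o76532410 0o76524310 0o354210, .mk 621
0o76543210 0o76543210 0o543210] [],
.mk (.mk 730 0o76532410 0o76524310 0o354210) [.mk 614 0o76250134 0o76401523 0o15342, .mk 1027
0o76250143 0o76410523 0o105342] [],
.mk (.mk 703 0o76432510 0o76254310 0o125403) [.mk 683 0o76453210 0o76453210 0o453210] [],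
.mk (.mk 717 0o76435210 0o76354210 0o354210) [.mk 1015 0o76453021 0o76453102 0o52341, .mk 618
0o76543210 0o76543210 0o543210] [],
.mk (.mk 749 0o76520341 0o76512403 0o14253) [.mk 767 0o76452310 0o76452310 0o453120, .mk 901
0o76543210 0o76543210 0o543210] [],
.mk (.mk 768 0o76451320 0o76452130 0o451320) [.mk 863 0o76542013 0o76540312 0o42531] [],
.mk (.mk 769 0o76042531 0o76241305 0o142305) [.mk 777 0o76543210 0o76543210 0o543210] [],
.mk (.mk 552 0o76315420 0o76325140 0o324501) [.mk 857 0o76214503 0o76230541 0o123054] [],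
.mk (.mk 706 0o76025431 0o76321405 0o324015) [.mk 631 0o76205341 0o76312504 0o215034] [],
.mk (.mk 741 0o76543210 0o76543210 0o543210) [.mk 604 0o76305241 0o76315204 0o251304] [],
.mk (.mk 735 0o76501432 0o76521034 0o231450) [.mk 1052 0o76542130 0o76541320 0o452130] [],
.mk (.mk 748 0o76543210 0o76543210 0o543210) [.mk 919 0o76301542 0o76215034 0o310542] [],
.mk (.mk 584 0o76543210 0o76543210 0o452301) [.mk 795 0o76543210 0o76543210 0o245301, .mk 584
0o76543210 0o76543210 0o543210]
[0xf0022800204c052e01288ae03d8008102103010ea6b005790da403881c12e002e137804e02d882a31e0c0013e0c50652840e21334281009802204cc46c09800803c058e139814c00520b4042a400a12800cc030860105000830998214d000083d481d,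
0xc8844020115028821824010300600a485037f20a012406403a01784651061b0000802083a44b0a8216026690120a9c94268188e8414210e63091841021e15d09084181d4a40008355a1c,
0x111001902928290063840f0071182c00608068000b0c3580b10435104380f590420008405d100300078003088d0411140118001009800d04058876081b9048981d8169106c80009c2a000084212c00800298618808940d0841863d88000c03080f040f0476924708d4a42f8c294d8000846212b,
0x1b6014d20104222822000ca01841f195c2bc023b800a00660558001846618181034408847e28e8015840e850204ea11080021bad005801e8a4b1446039d40a0088813c0834166429d806901e811ac80100a300e6015c740ac34580004000014bb23ca270080ca88254dc000842a163],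
.mk (.mk 779 0o76543210 0o76543210 0o452301) [.mk 779 0o76543210 0o76543210 0o543210] [],
.mk (.mk 823 0o76410532 0o76251043 0o230145) [.mk 1113 0o76543210 0o76543210 0o452301, .mk 823
0o76410532 0o76251043 0o321054] [],
.mk (.mk 733 0o76423510 0o76253410 0o354120) [.mk 773 0o76524301 0o76532401 0o245013] [],
.mk (.mk 706 0o76435210 0o76354210 0o453210) [.mk 926 0o76531420 0o76524130 0o351402] [],
.mk (.mk 643 0o76235104 0o76304521 0o45321) [.mk 713 0o76435210 0o76354210 0o453210] [],
.mk (.mk 697 0o76543210 0o76543210 0o453210) [.mk 1068 0o76352104 0o76405321 0o305412] [],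
.mk (.mk 688 0o76543210 0o76543210 0o543210) [.mk 789 0o76534210 0o76534210 0o154320] [],
.mk (.mk 818 0o76542310 0o76542310 0o453210) [.mk 884 0o76234501 0o76234501 0o250314] [],
.mk (.mk 571 0o76253401 0o76423501 0o250314) [.mk 818 0o76432510 0o76254310 0o453210, .mk 1005
0o76453210 0o76453210 0o154230] [],
.mk (.mk 611 0o76352401 0o76425301 0o250314) [.mk 1070 0o76453210 0o76453210 0o154230, .mk 1049
0o76152403 0o76420351 0o25431] [],
.mk (.mk 818 0o76432510 0o76254310 0o453120) [.mk 826 0o76324501 0o76235401 0o250314, .mk 1025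
0o76453210 0o76453210 0o154230] [],
.mk (.mk 727 0o76305412 0o76325014 0o201435) [.mk 815 0o76235410 0o76324510 0o453210] [],
.mk (.mk 588 0o76534210 0o76534210 0o354102) [.mk 1045 0o76305241 0o76315204 0o34125] [],
.mk (.mk 596 0o76534120 0o76534120 0o453120) [.mk 1071 0o76543210 0o76543210 0o254310] [],
.mk (.mk 762 0o76523401 0o76523401 0o123405) [.mk 844 0o76543210 0o76543210 0o543210, .mk 864
0o76324501 0o76235401 0o213405] [],
.mk (.mk 731 0o76453102 0o76453021 0o231054) [.mk 587 0o76534120 0o76534120 0o354012, .mk 725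
0o76435120 0o76354120 0o453120] [],
.mk (.mk 739 0o76503421 0o76523104 0o134025) [.mk 1118 0o76542310 0o76542310 0o254130] [],
.mk (.mk 591 0o76534210 0o76534210 0o453210) [.mk 736 0o76432510 0o76254310 0o354102, .mk 844
0o76543210 0o76543210 0o543210] [],
.mk (.mk 667 0o76143250 0o76143250 0o345201) [.mk 790 0o76543210 0o76543210 0o543210, .mk 736
0o76354210 0o76435210 0o453210] [],
.mk (.mk 802 0o76435120 0o76354120 0o453120) [.mk 1061 0o76054312 0o76432015 0o42315, .mk 844
0o76543210 0o76543210 0o543210] [],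
.mk (.mk 586 0o76524013 0o76530412 0o104325) [.mk 725 0o76543210 0o76543210 0o543210, .mk 1099
0o76345210 0o76345210 0o245130] [],
.mk (.mk 586 0o76534210 0o76534210 0o453210) [.mk 1035 0o76523410 0o76523410 0o245130, .mk 1061
0o76543120 0o76543120 0o53412] [],
.mk (.mk 725 0o76543210 0o76543210 0o543210) [.mk 606 0o76354210 0o76435210 0o453210, .mk 1148
0o76352401 0o76425301 0o31425] [],
.mk (.mk 587 0o76534210 0o76534210 0o453210) [.mk 820 0o76145023 0o76340152 0o105243, .mk 1073
0o76542310 0o76542310 0o254310] [],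
.mk (.mk 587 0o76524031 0o76531402 0o105324) [.mk 801 0o76215340 0o76312540 0o435102, .mk 1061
0o76543210 0o76543210 0o254130] [],
.mk (.mk 724 0o76425310 0o76352410 0o254310) [.mk 587 0o76543210 0o76543210 0o345102] [],
.mk (.mk 667 0o76514230 0o76531240 0o345102) [.mk 1039 0o76542310 0o76542310 0o254310, .mk 736
0o76435210 0o76354210 0o453210] [],
.mk (.mk 588 0o76253401 0o76423501 0o213504) [.mk 999 0o76240513 0o76240513 0o23541, .mk 586
0o76543210 0o76543210 0o543210] [],
.mk (.mk 587 0o76350412 0o76425013 0o230145) [.mk 1040 0o76410523 0o76250143 0o130254, .mk 586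
0o76543210 0o76543210 0o543210] [],
.mk (.mk 588 0o76523401 0o76523401 0o213405) [.mk 931 0o76453210 0o76453210 0o453210, .mk 1025
0o76420513 0o76250413 0o23451] [],
.mk (.mk 782 0o76345210 0o76345210 0o453210) [.mk 1062 0o76302154 0o76105324 0o102435, .mk 827
0o76402513 0o76250314 0o201453] [],
.mk (.mk 851 0o76125043 0o76310452 0o105432) [.mk 1097 0o76403521 0o76253104 0o234105, .mk 858
0o76514230 0o76531240 0o345210] [],
.mk (.mk 687 0o76435210 0o76354210 0o152403) [.mk 1023 0o76103452 0o76123054 0o31452] [],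
.mk (.mk 976 0o76150342 0o76412053 0o132450) [.mk 866 0o76251430 0o76421530 0o345210] [],
.mk (.mk 755 0o76345120 0o76345120 0o453120) [.mk 840 0o76043251 0o76143205 0o143205, .mk 787
0o76312504 0o76205341 0o205341] [],
.mk (.mk 575 0o76543210 0o76543210 0o543210) [.mk 1056 0o76532104 0o76504321 0o53421, .mk 1005
0o76542310 0o76542310 0o254310] [],
.mk (.mk 838 0o76435210 0o76354210 0o452310) [.mk 1079 0o76243105 0o76043521 0o42531] [],
.mk (.mk 838 0o76305421 0o76325104 0o423105) [.mk 620 0o76543210 0o76543210 0o543210, .mk 1064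
0o76305421 0o76325104 0o243105] [],
.mk (.mk 766 0o76435210 0o76354210 0o453210) [.mk 620 0o76543210 0o76543210 0o543210, .mk 991
0o76135402 0o76324051 0o34512] [],
.mk (.mk 592 0o76543210 0o76543210 0o543210) [.mk 1112 0o76543210 0o76543210 0o453210] [],
.mk (.mk 838 0o76453210 0o76453210 0o453210) [.mk 855 0o76423150 0o76153420 0o153402, .mk 1018
0o76132504 0o76204351 0o204351] [],
.mk (.mk 597 0o76053421 0o76423105 0o341205) [.mk 1040 0o76210534 0o76201543 0o21345, .mk 838
0o76053421 0o76423105 0o432105] [],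
.mk (.mk 673 0o76543210 0o76543210 0o543210) [.mk 744 0o76435210 0o76354210 0o453210] [],
.mk (.mk 593 0o76543210 0o76543210 0o452310) [.mk 821 0o76543210 0o76543210 0o543210] [],
.mk (.mk 821 0o76543210 0o76543210 0o543210) [.mk 1175 0o76534102 0o76534021 0o54321, .mk 839
0o76534210 0o76534210 0o452310] [],
.mk (.mk 715 0o76543210 0o76543210 0o543210) [.mk 992 0o76540321 0o76542103 0o351204] [],
.mk (.mk 700 0o76543210 0o76543210 0o543210) [.mk 772 0o76354210 0o76435210 0o452310] [],
.mk (.mk 766 0o76543210 0o76543210 0o452310) [.mk 1166 0o76125304 0o76302451 0o205431] [],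
.mk (.mk 678 0o76432150 0o76154320 0o154320) [.mk 691 0o76543210 0o76543210 0o453210] [],
.mk (.mk 556 0o76543210 0o76543210 0o543210) [.mk 711 0o76241350 0o76142530 0o124503] [],
.mk (.mk 616 0o76325104 0o76305421 0o53412) [.mk 1089 0o76135024 0o76304152 0o104352] [],
.mk (.mk 1003 0o76140253 0o76140253 0o312054) [.mk 1026 0o76543210 0o76543210 0o543210, .mk 916
0o76345210 0o76345210 0o453210] [],
.mk (.mk 1010 0o76410532 0o76251043 0o132450) [.mk 1030 0o76453210 0o76453210 0o452310] [],
.mk (.mk 674 0o76214530 0o76231540 0o325401) [.mk 722 0o76543210 0o76543210 0o543210] [],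
.mk (.mk 583 0o76015324 0o76302145 0o21435) [.mk 987 0o76542310 0o76542310 0o354120, .mk 1012
0o76024135 0o76031425 0o203145] [],
.mk (.mk 716 0o76435201 0o76354201 0o251304) [.mk 1097 0o76543210 0o76543210 0o453210] [],
.mk (.mk 747 0o76452310 0o76452310 0o453120) [.mk 1001 0o76120453 0o76120453 0o14523] [],
.mk (.mk 646 0o76354021 0o76435102 0o250413) [.mk 984 0o76541320 0o76542130 0o451320] [],
.mk (.mk 692 0o76451230 0o76451230 0o451230) [.mk 978 0o76314052 0o76135042 0o21543] [],
.mk (.mk 616 0o76542301 0o76542301 0o213450) [.mk 860 0o76342501 0o76245301 0o123450] [],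
.mk (.mk 656 0o76230541 0o76214503 0o140523) [.mk 767 0o76452310 0o76452310 0o453120, .mk 1074
0o76235401 0o76324501 0o34251] [],
.mk (.mk 648 0o76354201 0o76435201 0o253104) [.mk 635 0o76543210 0o76543210 0o543210] [],
.mk (.mk 729 0o76045312 0o76342015 0o203145) [.mk 1052 0o76045213 0o76340215 0o23415] [],
.mk (.mk 663 0o76452310 0o76452310 0o453120) [.mk 716 0o76452103 0o76450321 0o304512] [],
.mk (.mk 1029 0o76543021 0o76543102 0o25341) [.mk 880 0o76035421 0o76324105 0o314205, .mk 894
0o76453210 0o76453210 0o453210]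
[0x384da00000a030c09ca08c84f01404100405c88108eb0128f34098c9838a805886484e2050409818020030de84a88104c8018c210081a884045a4a0c48c040300b00305101310190194c00008302703],
.mk (.mk 692 0o76543210 0o76543210 0o543210) [.mk 1044 0o76452130 0o76451320 0o452130]
[0x3a2002f8550101908080009225145042032108201131882202210b086840e3c0118002042004088308661cb312300a280b58432826084012034eb80228c00c048853005002c08154cc0008309a5c],
.mk (.mk 583 0o76543210 0o76543210 0o543210) [.mk 824 0o76541023 0o76540132 0o205413] [],
.mk (.mk 980 0o76543210 0o76543210 0o543210) [.mk 742 0o76032541 0o76214305 0o143205] [],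
.mk (.mk 658 0o76543210 0o76543210 0o543210) [.mk 989 0o76541320 0o76542130 0o451320] [],
.mk (.mk 669 0o76543210 0o76543210 0o543210) [.mk 823 0o76413025 0o76053142 0o24153] [],
.mk (.mk 562 0o76543210 0o76543210 0o543210) [.mk 1024 0o76452301 0o76452301 0o254013]
[0x1308e0440404508621440b82004010608487043203b85400c30c801400041242904d0424504a89203e9602094b20c64ca009040a11c0004038603c0780100e8424004b334514230c154d00008301a53,
0x400000d00cc09c0e829415c2c86201440401183149141b40b81801875080803400839c00c41001884281480452e4005ed07555d49084438c854f880ac398c6c0445e00104244fec8482441d0c8000835c113,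
0x100700901c1182885710a12ce39812801000085f10002ca68d402002040019590018030040081502a04241e600429cc09e128c1049154304879002004348e18d18847ae188112424c8404154d8000832c113],
.mk (.mk 748 0o76453120 0o76453120 0o452310) [.mk 824 0o76104352 0o76132054 0o123054, .mk 813
0o76415320 0o76352140 0o352401] [],
.mk (.mk 748 0o76035421 0o76324105 0o134205) [.mk 940 0o76345120 0o76345120 0o453120] [],
.mk (.mk 720 0o76421530 0o76251430 0o345201) [.mk 940 0o76543210 0o76543210 0o453210, .mk 574
0o76543210 0o76543210 0o543210] [],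
.mk (.mk 741 0o76543210 0o76543210 0o543210) [.mk 1097 0o76542310 0o76542310 0o453120, .mk 598
0o76502431 0o76521304 0o321540] [],
.mk (.mk 711 0o76305241 0o76315204 0o251304) [.mk 741 0o76543210 0o76543210 0o543210] [],
.mk (.mk 677 0o76053241 0o76413205 0o243105) [.mk 683 0o76543210 0o76543210 0o543210] [],
.mk (.mk 804 0o76423510 0o76253410 0o254301) [.mk 883 0o76453210 0o76453210 0o453210] [],
.mk (.mk 547 0o76543210 0o76543210 0o543210) [.mk 1019 0o76420315 0o76052413 0o120534] [],
.mk (.mk 677 0o76543210 0o76543210 0o453210) [.mk 996 0o76534201 0o76534201 0o254013] [],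
.mk (.mk 557 0o76352410 0o76425310 0o354120) [.mk 1092 0o76420531 0o76251403 0o23541] [],
.mk (.mk 770 0o76023514 0o76203415 0o214305) [.mk 804 0o76025413 0o76320415 0o124305, .mk 843
0o76543210 0o76543210 0o543210] [],
.mk (.mk 1009 0o76254103 0o76430521 0o41325) [.mk 895 0o76530412 0o76524013 0o123405] []]

theorem v600 : chkL Tab.T5 Tab.RT Tab.reps Tab.E2 Ker.cert7 D600 600 = true := by
  decide +kernel

end CR.C2
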