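import Pool.Agent.Lib.MP_6f5d36_co.Ker
import Pool.Agent.Lib.MP_6f5d36_co.RTab
import Pool.Agent.Lib.MP_6f5d36_co.C2.KerC
import Pool.Agent.Lib.MP_6f5d36_co.C2.ETab

/-! MP_6f5d36_co, case (ii), level 7 : the ranks 700, ..., 799 -/

set_option autoImplicit false
set_option maxRecDepth 100000

noncomputable section

namespace CR.C2

/-- the frames and certificates of the ranks 700, ..., 799 -/
def D700 : List It :=
[.mk (.mk 562 0o76530421 0o76524103 0o243015) [.mk 562 0o76530421 0o76524103 0o352104, .mk 833
0o76530412 0o76524013 0o32541]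
[0x610a60100188106228041902142554a98b500400c090a12200442101100204c3a11103628c0801238c1c4420511604c08581110c1c2f203213e024098a00021044c89604e04c190cc000836568d,
0x11090400c14110600c024500002865221045488600044146430700126c964050a0bc870104c20cae125c130e0d310ea700470089590d05132d210ac0748ac3305b2a8051640150e0000832c4e9],
.mk (.mk 684 0o76230541 0o76214503 0o312540) [.mk 1005 0o76250431 0o76421503 0o132540] [],
.mk (.mk 670 0o76503214 0o76503214 0o120543) [.mk 895 0o76305214 0o76305214 0o210543] [],
.mk (.mk 774 0o76543102 0o76543021 0o215430) [.mk 996 0o76451023 0o76450132 0o51243, .mk 628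
0o76543210 0o76543210 0o543210] [],
.mk (.mk 695 0o76354210 0o76435210 0o453210) [.mk 693 0o76543210 0o76543210 0o543210] [],
.mk (.mk 664 0o76251430 0o76421530 0o145230) [.mk 695 0o76543201 0o76543201 0o253104, .mk 981
0o76451230 0o76451230 0o451230] [],
.mk (.mk 557 0o76354210 0o76435210 0o453210) [.mk 1163 0o76425031 0o76351402 0o104532] [],
.mk (.mk 686 0o76034512 0o76234015 0o304125) [.mk 1028 0o76453210 0o76453210 0o453210] [],
.mk (.mk 687 0o76143025 0o76043152 0o42531) [.mk 752 0o76520341 0o76512403 0o314025] [],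
.mk (.mk 678 0o76451230 0o76451230 0o234051) [.mk 733 0o76542310 0o76542310 0o453120] [],
.mk (.mk 719 0o76143502 0o76243051 0o304251) [.mk 685 0o76453210 0o76453210 0o453210] [],
.mk (.mk 694 0o76435210 0o76354210 0o154230) [.mk 890 0o76452130 0o76451320 0o345102] [],
.mk (.mk 790 0o76435201 0o76354201 0o52413) [.mk 884 0o76542310 0o76542310 0o453120, .mk 783
0o76453210 0o76453210 0o354201] [],
.mk (.mk 572 0o76235410 0o76324510 0o453210) [.mk 929 0o76543210 0o76543210 0o543210, .mk 1154
0o76135420 0o76324150 0o345210] [],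
.mk (.mk 781 0o76452310 0o76452310 0o453210) [.mk 826 0o76543210 0o76543210 0o543210] [],
.mk (.mk 734 0o76543210 0o76543210 0o254310) [.mk 802 0o76345120 0o76345120 0o354012, .mk 1009
0o76543120 0o76543120 0o154320] [],
.mk (.mk 558 0o76520431 0o76521403 0o213405) [.mk 762 0o76543210 0o76543210 0o543210] [],
.mk (.mk 855 0o76512304 0o76502341 0o21435) [.mk 851 0o76431520 0o76254130 0o354012, .mk 934
0o76345210 0o76345210 0o453210] [],
.mk (.mk 725 0o76543210 0o76543210 0o543210) [.mk 885 0o76452310 0o76452310 0o354120] [],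
.mk (.mk 666 0o76542310 0o76542310 0o254310) [.mk 899 0o76245013 0o76340512 0o15234, .mk 641
0o76543210 0o76543210 0o543210] [],
.mk (.mk 1089 0o76542310 0o76542310 0o254310) [.mk 940 0o76125043 0o76310452 0o15342, .mk 641
0o76543210 0o76543210 0o543210] [],
.mk (.mk 558 0o76250431 0o76421503 0o213504) [.mk 606 0o76543210 0o76543210 0o543210] [],
.mk (.mk 680 0o76453210 0o76453210 0o452310) [.mk 798 0o76543210 0o76543210 0o543210] [],
.mk (.mk 602 0o76543210 0o76543210 0o543210) [.mk 772 0o76435210 0o76354210 0o453210, .mk 1019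
0o76352401 0o76425301 0o250413] [],
.mk (.mk 664 0o76241350 0o76142530 0o134502) [.mk 715 0o76543210 0o76543210 0o543210] [],
.mk (.mk 772 0o76345210 0o76345210 0o453210) [.mk 1009 0o76234150 0o76134520 0o145320]
[0x580201c1344c04110230c20184290211419460922040300a2060000000d1820b42000210232c0009f0ac4308681278a304220cf000138220489204146500111232ae29562821100084154d40008304702],
.mk (.mk 849 0o76015243 0o76310245 0o102435) [.mk 838 0o76305421 0o76325104 0o432105, .mk 829
0o76304521 0o76235104 0o341205] [],
.mk (.mk 761 0o76205341 0o76312504 0o103245) [.mk 1056 0o76354210 0o76435210 0o452310, .mk 787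
0o76432510 0o76254310 0o254310] [],
.mk (.mk 715 0o76453210 0o76453210 0o452310) [.mk 722 0o76531240 0o76514230 0o234501, .mk 1051
0o76532140 0o76514320 0o325401] [],
.mk (.mk 739 0o76035421 0o76324105 0o243105) [.mk 1053 0o76201354 0o76102534 0o13245] [],
.mk (.mk 761 0o76250341 0o76412503 0o324015) [.mk 1010 0o76140523 0o76240153 0o32451, .mk 1138
0o76240351 0o76142503 0o234015] [],
.mk (.mk 698 0o76205341 0o76312504 0o324015) [.mk 685 0o76042315 0o76042315 0o13425, .mk 761
0o76415023 0o76350142 0o250143] [],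
.mk (.mk 982 0o76321540 0o76215430 0o235401) [.mk 602 0o76543210 0o76543210 0o543210] [],
.mk (.mk 593 0o76534210 0o76534210 0o453210) [.mk 1051 0o76321450 0o76125430 0o135402, .mk 803
0o76543210 0o76543210 0o543210] [],
.mk (.mk 541 0o76543210 0o76543210 0o543210) [.mk 738 0o76543210 0o76543210 0o453210] [],
.mk (.mk 698 0o76342150 0o76145320 0o145230) [.mk 738 0o76453210 0o76453210 0o452310] [],
.mk (.mk 666 0o76125034 0o76301452 0o214503) [.mk 698 0o76135204 0o76304251 0o302514] [],
.mk (.mk 821 0o76543210 0o76543210 0o543210) [.mk 869 0o76342150 0o76145320 0o145320] [],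
.mk (.mk 710 0o76543210 0o76543210 0o543210) [.mk 901 0o76421305 0o76052431 0o53241] [],
.mk (.mk 743 0o76430521 0o76254103 0o140532) [.mk 618 0o76542310 0o76542310 0o453120, .mk 859
0o76423510 0o76253410 0o354210] [],
.mk (.mk 678 0o76341250 0o76145230 0o143502) [.mk 821 0o76543210 0o76543210 0o543210] [],
.mk (.mk 839 0o76435210 0o76354210 0o452310) [.mk 918 0o76124350 0o76132450 0o102345] [],
.mk (.mk 700 0o76543210 0o76543210 0o543210) [.mk 860 0o76340521 0o76245103 0o231450, .mk 895
0o76320451 0o76125403 0o132540] [],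
.mk (.mk 597 0o76543210 0o76543210 0o543210) [.mk 1043 0o76320541 0o76215403 0o125304, .mk 772
0o76435210 0o76354210 0o453210]
[0x430006020584080a40040101c8b20c072a0a769cac40043b80a5590a110823004c2182a078540480213800008d8528440414220840508dd980441600c408441300114d000082c5742],
.mk (.mk 744 0o76543210 0o76543210 0o543210) [.mk 773 0o76341052 0o76145032 0o130245, .mk 943
0o76531042 0o76514032 0o310245] [],
.mk (.mk 765 0o76543210 0o76543210 0o453210) [.mk 624 0o76315204 0o76305241 0o34152, .mk 987
0o76452130 0o76451320 0o145230] [],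
.mk (.mk 669 0o76453210 0o76453210 0o453210) [.mk 830 0o76543210 0o76543210 0o543210, .mk 1070
0o76021435 0o76021435 0o12435] [],
.mk (.mk 577 0o76543210 0o76543210 0o305124) [.mk 829 0o76543210 0o76543210 0o453210, .mk 829
0o76543210 0o76543210 0o35124] [],
.mk (.mk 691 0o76543210 0o76543210 0o452310) [.mk 771 0o76420351 0o76152403 0o132450] [],
.mk (.mk 560 0o76543210 0o76543210 0o543210) [.mk 780 0o76342051 0o76145302 0o150423, .mk 1010
0o76540231 0o76541203 0o253104] [],
.mk (.mk 686 0o76032154 0o76104325 0o102543) [.mk 960 0o76023145 0o76013425 0o12453] [],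
.mk (.mk 757 0o76541320 0o76542130 0o451320) [.mk 883 0o76435210 0o76354210 0o354210] [],
.mk (.mk 789 0o76135240 0o76314250 0o241503) [.mk 995 0o76241350 0o76142530 0o140325, .mk 792
0o76543210 0o76543210 0o543210] [],
.mk (.mk 650 0o76453210 0o76453210 0o453210) [.mk 567 0o76543201 0o76543201 0o251304] [],
.mk (.mk 878 0o76541230 0o76541230 0o451230) [.mk 1094 0o76314520 0o76235140 0o134502] [],
.mk (.mk 723 0o76451320 0o76452130 0o451320) [.mk 920 0o76543210 0o76543210 0o543210, .mk 932
0o76530214 0o76504213 0o41352] [],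
.mk (.mk 561 0o76523410 0o76523410 0o352401) [.mk 937 0o76450321 0o76452103 0o234015, .mk 807
0o76402531 0o76251304 0o130452] [],
.mk (.mk 668 0o76543210 0o76543210 0o543210) [.mk 745 0o76453120 0o76453120 0o452310] [],
.mk (.mk 653 0o76452103 0o76450321 0o54321) [.mk 1061 0o76534021 0o76534102 0o140532] [],
.mk (.mk 668 0o76543210 0o76543210 0o543210) [.mk 1032 0o76420315 0o76052413 0o203145] [],
.mk (.mk 668 0o76543210 0o76543210 0o543210) [.mk 998 0o76135204 0o76304251 0o132054] [],
.mk (.mk 982 0o76231504 0o76204531 0o305241) [.mk 1028 0o76430521 0o76254103 0o150432] [],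
.mk (.mk 978 0o76213405 0o76023541 0o34251) [.mk 716 0o76430521 0o76254103 0o150432] [],
.mk (.mk 713 0o76432510 0o76254310 0o354210) [.mk 804 0o76435201 0o76354201 0o253104, .mk 989
0o76120543 0o76210453 0o14352] [],
.mk (.mk 653 0o76423015 0o76053412 0o25413) [.mk 1005 0o76542310 0o76542310 0o354210] [],
.mk (.mk 684 0o76425310 0o76352410 0o354210) [.mk 692 0o76543210 0o76543210 0o453210] [],
.mk (.mk 654 0o76451203 0o76450231 0o213054) [.mk 692 0o76451230 0o76451230 0o451230] [],
.mk (.mk 695 0o76345210 0o76345210 0o453210) [.mk 1104 0o76023415 0o76023415 0o204135, .mk 693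
0o76543210 0o76543210 0o543210] [],
.mk (.mk 695 0o76423510 0o76253410 0o354210) [.mk 729 0o76540312 0o76542013 0o203145] [],
.mk (.mk 729 0o76054132 0o76431025 0o210435) [.mk 1018 0o76042153 0o76140325 0o21435, .mk 989
0o76045321 0o76342105 0o124305] [],
.mk (.mk 729 0o76543210 0o76543210 0o453210) [.mk 773 0o76345201 0o76345201 0o253104] [],
.mk (.mk 768 0o76453210 0o76453210 0o453210) [.mk 1098 0o76435201 0o76354201 0o253104, .mk 1015
0o76432510 0o76254310 0o152403] [],
.mk (.mk 716 0o76423510 0o76253410 0o354210) [.mk 740 0o76451320 0o76452130 0o451320, .mk 717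
0o76031542 0o76214035 0o140235] [],
.mk (.mk 662 0o76543210 0o76543210 0o543210) [.mk 980 0o76451320 0o76452130 0o451320] [],
.mk (.mk 662 0o76543210 0o76543210 0o543210) [.mk 982 0o76543210 0o76543210 0o453210] [],
.mk (.mk 743 0o76305241 0o76315204 0o241305) [.mk 582 0o76543210 0o76543210 0o543210] [],
.mk (.mk 880 0o76053421 0o76423105 0o314205) [.mk 1114 0o76435120 0o76354120 0o254310, .mk 877
0o76543210 0o76543210 0o543210] [],
.mk (.mk 692 0o76543210 0o76543210 0o543210) [.mk 980 0o76451320 0o76452130 0o451320] [],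
.mk (.mk 723 0o76451230 0o76451230 0o451230) [.mk 992 0o76524301 0o76532401 0o350412, .mk 1024
0o76241350 0o76142530 0o145230]
[0x100c01409301870080a23c4b401c2108ca620133524170903310803040246c4910e03a08cb43e8100a0d2204200c4856d277045000001138444584010c003084432c440388150dc000830da0a],
.mk (.mk 769 0o76543210 0o76543210 0o543210) [.mk 1131 0o76354120 0o76435120 0o143502] [],
.mk (.mk 604 0o76305241 0o76315204 0o251304) [.mk 1093 0o76425310 0o76352410 0o354210] [],
.mk (.mk 977 0o76403512 0o76253014 0o123405) [.mk 1070 0o76534210 0o76534210 0o354210, .mk 619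
0o76532410 0o76524310 0o254301] [],
.mk (.mk 585 0o76530412 0o76524013 0o231045) [.mk 585 0o76530412 0o76524013 0o320154]
[0x30c129600e4590aa09000a00030067222480e99ab860a8c088090aa11441cd312008c13c1516a05d990850a2045189930421c018192582f94c19628ca4003c08022a3c9228d2004240190d400083530ac,
0x5c01088110330a882901432c00056282124200470020282794a10070c8284610e5448004310e30c41803180538208130040000434688a05c2b08700a110c2880022d2042a4112e6292000154d8000831a425,
0x40a54806068404000982005100410040101d0761ad8034da27247038c053c472004b27941330501001340061138cae15d5138080611f44520b19441010446dc51104150d4000831da22,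
0x24111080a02c0a2390364448308861040c91902a10190389f020053758241b042714600285404057fd4137c0133c0b100525085c6280c21c10200c601c4823403401c00c6c150dc000832b154],
.mk (.mk 926 0o76203514 0o76203514 0o125034) [.mk 1118 0o76542310 0o76542310 0o453120, .mk 926
0o76205314 0o76302514 0o214035] [],
.mk (.mk 760 0o76315402 0o76325041 0o132504) [.mk 860 0o76543210 0o76543210 0o543210] [],
.mk (.mk 914 0o76543210 0o76543210 0o452301) [.mk 926 0o76140532 0o76241053 0o230451, .mk 926
0o76140532 0o76241053 0o321540]
[0x180184300c114630110880040300828c110018c10903242410608c11c068c50ac25800007094218240370460332a8cc00680168850306100c505c0081250289021e118a708e32c7520b98154d80008314ac2,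
0xe04c8330510c6204290161e01400085004638870102102000011247c87481c9703cc09cd10a80f6114088d20a636029aa00261d1a0a4014400208844102001398910000d0408c404004019051102168190e80008362750,
0x9a118038a10401841080001cf047004114410990a802d04001032648039090984004084138c312068ce006800008600b84a6220c8000c004b80420403c2000154bc00082e56a8,
0xc81270901a0c910994060102804523410908a4c551275cea578a9ca0663018d820698040e8507b8a0a466b1040c012711c806428000cc06718148110d000082ec4c5],
.mk (.mk 855 0o76543210 0o76543210 0o543210) [.mk 888 0o76513402 0o76523041 0o125430, .mk 917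
0o76423510 0o76253410 0o354120] [],
.mk (.mk 834 0o76310542 0o76215043 0o230451) [.mk 1133 0o76103245 0o76013254 0o13254, .mk 1133
0o76103254 0o76103254 0o103254] [],
.mk (.mk 703 0o76350214 0o76405213 0o120543) [.mk 895 0o76530214 0o76504213 0o210543] [],
.mk (.mk 687 0o76432105 0o76054321 0o54321) [.mk 1088 0o76420351 0o76152403 0o324015] [],
.mk (.mk 647 0o76345210 0o76345210 0o453210) [.mk 705 0o76543210 0o76543210 0o543210] [],
.mk (.mk 752 0o76231504 0o76204531 0o32415) [.mk 926 0o76345120 0o76345120 0o452301] [],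
.mk (.mk 811 0o76531024 0o76504132 0o103452) [.mk 1152 0o76345102 0o76345021 0o241503, .mk 889
0o76431025 0o76054132 0o13452] [],
.mk (.mk 604 0o76543210 0o76543210 0o453210) [.mk 1094 0o76351240 0o76415230 0o324501] [],
.mk (.mk 604 0o76543210 0o76543210 0o543210) [.mk 1003 0o76542310 0o76542310 0o53214, .mk 926
0o76532410 0o76524310 0o354210] [],
.mk (.mk 803 0o76543210 0o76543210 0o543210) [.mk 1105 0o76412503 0o76250341 0o120345, .mk 829
0o76435210 0o76354210 0o452310] [],
.mk (.mk 775 0o76032514 0o76204315 0o210543) [.mk 775 0o76023514 0o76203415 0o301542, .mk 1081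
0o76534210 0o76534210 0o453210] [],
.mk (.mk 552 0o76510423 0o76520143 0o302154) [.mk 1065 0o76543210 0o76543210 0o453120] [],
.mk (.mk 552 0o76530412 0o76524013 0o350214) [.mk 807 0o76430521 0o76254103 0o230541] [],
.mk (.mk 552 0o76543120 0o76543120 0o314502) [.mk 756 0o76543210 0o76543210 0o543210] []]

theorem v700 : chkL Tab.T5 Tab.RT Tab.reps Tab.E2 Ker.cert7 D700 700 = true := by
  decide +kernel

end CR.C2
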