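import Pool.Agent.Lib.MP_6f5d36_co.Ker
import Pool.Agent.Lib.MP_6f5d36_co.RTab
import Pool.Agent.Lib.MP_6f5d36_co.C2.KerC
import Pool.Agent.Lib.MP_6f5d36_co.C2.ETab

/-! MP_6f5d36_co, case (ii), level 7 : the ranks 800, ..., 899 -/

set_option autoImplicit false
set_option maxRecDepth 100000

noncomputable section

namespace CR.C2

/-- the frames and certificates of the ranks 800, ..., 899 -/
def D800 : List It :=
[.mk (.mk 552 0o76543120 0o76543120 0o314502) [.mk 809 0o76345120 0o76345120 0o134502] [],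
.mk (.mk 987 0o76305412 0o76325014 0o32514) [.mk 918 0o76543210 0o76543210 0o543210, .mk 825
0o76504213 0o76530214 0o230154]
[0x1442c3100500d0920909211101e0044400510824c059c1002e0900442214c0c8309b3a0408818c32820442985102801c24098020034088e00120908508b08403c040011da4488314154d00008311823],
.mk (.mk 996 0o76132045 0o76014352 0o102354) [.mk 926 0o76253041 0o76413502 0o23145] [],
.mk (.mk 753 0o76435210 0o76354210 0o452301) [.mk 610 0o76543210 0o76543210 0o543210, .mk 934
0o76352041 0o76415302 0o21435] [],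
.mk (.mk 753 0o76324510 0o76235410 0o452310) [.mk 753 0o76543210 0o76543210 0o543210, .mk 848
0o76503241 0o76513204 0o124035] [],
.mk (.mk 569 0o76543210 0o76543210 0o543210) [.mk 1053 0o76134502 0o76234051 0o42531] [],
.mk (.mk 648 0o76453210 0o76453210 0o154230) [.mk 1182 0o76521340 0o76512430 0o345102] [],
.mk (.mk 596 0o76351240 0o76415230 0o354021) [.mk 1092 0o76241530 0o76241530 0o35421] [],
.mk (.mk 759 0o76245130 0o76341520 0o235401) [.mk 845 0o76342150 0o76145320 0o354201] [],
.mk (.mk 818 0o76452310 0o76452310 0o453120) [.mk 1059 0o76451320 0o76452130 0o134052, .mk 818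
0o76543210 0o76543210 0o543210] [],
.mk (.mk 595 0o76534210 0o76534210 0o453210) [.mk 902 0o76324501 0o76235401 0o42531, .mk 818
0o76543210 0o76543210 0o543210]
[0x7006030c03484040a48018420011607c8e25852120a87281c1702e92282532de20a481409c2032e108269e88e228c021800370ea108285409e4702c1881e1700114cc00082d5762],
.mk (.mk 990 0o76513402 0o76523041 0o52431) [.mk 1083 0o76451302 0o76452031 0o130425] [],
.mk (.mk 674 0o76453210 0o76453210 0o154230) [.mk 573 0o76532410 0o76524310 0o453120] [],
.mk (.mk 596 0o76354210 0o76435210 0o453210) [.mk 1035 0o76025413 0o76320415 0o24315] [],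
.mk (.mk 762 0o76253410 0o76423510 0o345012) [.mk 820 0o76514203 0o76530241 0o24531] [],
.mk (.mk 544 0o76534210 0o76534210 0o354102) [.mk 555 0o76534120 0o76534120 0o453120] [],
.mk (.mk 707 0o76530421 0o76524103 0o210543) [.mk 837 0o76345210 0o76345210 0o354102, .mk 1083
0o76452130 0o76451320 0o53142]
[0x2b030200d84713035004320c4200043405c13074012c4490c0110041120241344303c06648426086c4104b5015703841509800082eb642],
.mk (.mk 744 0o76503421 0o76523104 0o241305) [.mk 1033 0o76453210 0o76453210 0o153402, .mk 755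
0o76435210 0o76354210 0o453210] [],
.mk (.mk 725 0o76543210 0o76543210 0o543210) [.mk 946 0o76435012 0o76354012 0o104352, .mk 930
0o76352410 0o76425310 0o354120] [],
.mk (.mk 846 0o76435021 0o76354102 0o150432) [.mk 1099 0o76324510 0o76235410 0o245310, .mk 890
0o76435210 0o76354210 0o453210] [],
.mk (.mk 832 0o76405321 0o76352104 0o130452) [.mk 872 0o76435120 0o76354120 0o453120] [],
.mk (.mk 838 0o76435210 0o76354210 0o453210) [.mk 1079 0o76253104 0o76403521 0o43521, .mk 832
0o76532410 0o76524310 0o354120] [],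
.mk (.mk 986 0o76140532 0o76241053 0o132450) [.mk 1056 0o76543210 0o76543210 0o453210] [],
.mk (.mk 1007 0o76140523 0o76240153 0o23154) [.mk 832 0o76453210 0o76453210 0o453210, .mk 619
0o76250413 0o76420513 0o213405] [],
.mk (.mk 824 0o76345210 0o76345210 0o453210) [.mk 1144 0o76204315 0o76032514 0o210453, .mk 880
0o76305214 0o76305214 0o120543]
[0x2500000082404508380a9020410448e284c809b42081842a830da00e04e8000558032f581901480e0489040440038d98440d600919819280a81100601484514080580080a880d470810438c01848059002000c00c008210198194ec0008359619],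
.mk (.mk 704 0o76510432 0o76521043 0o32154) [.mk 837 0o76345210 0o76345210 0o453210] [],
.mk (.mk 720 0o76205314 0o76302514 0o21534) [.mk 762 0o76543210 0o76543210 0o543210, .mk 846
0o76401532 0o76251034 0o210354] [],
.mk (.mk 782 0o76521403 0o76520431 0o23451) [.mk 782 0o76354210 0o76435210 0o453210, .mk 1075
0o76432150 0o76154320 0o154320] [],
.mk (.mk 544 0o76354210 0o76435210 0o453210) [.mk 1033 0o76324105 0o76035421 0o203514, .mk 1112
0o76054231 0o76431205 0o143205] [],
.mk (.mk 542 0o76543210 0o76543210 0o543210) [.mk 1075 0o76354102 0o76435021 0o105234] [],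
.mk (.mk 752 0o76431250 0o76154230 0o152403) [.mk 1048 0o76205413 0o76320514 0o42315] [],
.mk (.mk 667 0o76543210 0o76543210 0o453102) [.mk 1178 0o76134025 0o76034152 0o12453, .mk 667
0o76543210 0o76543210 0o543210] [],
.mk (.mk 655 0o76234501 0o76234501 0o245013) [.mk 1119 0o76201543 0o76210534 0o132045] [],
.mk (.mk 576 0o76543210 0o76543210 0o543210) [.mk 1005 0o76305241 0o76315204 0o142305] [],
.mk (.mk 737 0o76534210 0o76534210 0o452310) [.mk 1015 0o76534120 0o76534120 0o154320] [],
.mk (.mk 592 0o76534102 0o76534021 0o405231) [.mk 1112 0o76543102 0o76543021 0o45231, .mk 841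
0o76324510 0o76235410 0o315402] [],
.mk (.mk 680 0o76543210 0o76543210 0o543210) [.mk 1028 0o76452301 0o76452301 0o350412] [],
.mk (.mk 680 0o76543210 0o76543210 0o543210) [.mk 985 0o76532041 0o76514302 0o140523] [],
.mk (.mk 976 0o76352140 0o76415320 0o145320) [.mk 584 0o76325104 0o76305421 0o53412] [],
.mk (.mk 698 0o76342150 0o76145320 0o154320) [.mk 1079 0o76543210 0o76543210 0o543210] [],
.mk (.mk 666 0o76125034 0o76301452 0o104523) [.mk 1168 0o76432510 0o76254310 0o254310] [],
.mk (.mk 737 0o76543210 0o76543210 0o543210) [.mk 1115 0o76354210 0o76435210 0o453210] [],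
.mk (.mk 605 0o76523410 0o76523410 0o354120) [.mk 1091 0o76534210 0o76534210 0o453210] [],
.mk (.mk 1039 0o76042531 0o76241305 0o31245) [.mk 1060 0o76351240 0o76415230 0o234501, .mk 1091
0o76453210 0o76453210 0o453210] [],
.mk (.mk 602 0o76543210 0o76543210 0o543210) [.mk 1025 0o76452301 0o76452301 0o250413, .mk 806
0o76431520 0o76254130 0o315042] [],
.mk (.mk 602 0o76543210 0o76543210 0o543210) [.mk 1158 0o76541230 0o76541230 0o153402, .mk 821
0o76534210 0o76534210 0o453210] [],
.mk (.mk 608 0o76543210 0o76543210 0o543210) [.mk 1178 0o76543210 0o76543210 0o254310, .mk 913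
0o76423150 0o76153420 0o145320] [],
.mk (.mk 713 0o76345021 0o76345102 0o351204) [.mk 765 0o76435210 0o76354210 0o453210, .mk 608
0o76543210 0o76543210 0o543210] [],
.mk (.mk 765 0o76435210 0o76354210 0o452310) [.mk 608 0o76543210 0o76543210 0o543210, .mk 867
0o76452013 0o76450312 0o14532] [],
.mk (.mk 895 0o76352041 0o76415302 0o321540) [.mk 971 0o76543210 0o76543210 0o543210, .mk 921
0o76234150 0o76134520 0o145230] [],
.mk (.mk 761 0o76534120 0o76534120 0o253401) [.mk 838 0o76453210 0o76453210 0o452310, .mk 886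
0o76351042 0o76415032 0o312504] [],
.mk (.mk 682 0o76354210 0o76435210 0o453210) [.mk 713 0o76250413 0o76420513 0o302541] [],
.mk (.mk 713 0o76405321 0o76352104 0o351204) [.mk 982 0o76543210 0o76543210 0o543210] [],
.mk (.mk 690 0o76543210 0o76543210 0o543210) [.mk 1042 0o76431052 0o76154032 0o312504, .mk 1030
0o76453210 0o76453210 0o452310] [],
.mk (.mk 690 0o76543210 0o76543210 0o543210) [.mk 734 0o76524031 0o76531402 0o315204] [],
.mk (.mk 710 0o76543210 0o76543210 0o543210) [.mk 986 0o76410532 0o76251043 0o132540] [],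
.mk (.mk 561 0o76524310 0o76532410 0o354210) [.mk 1123 0o76351240 0o76415230 0o145320] [],
.mk (.mk 673 0o76543210 0o76543210 0o543210) [.mk 977 0o76405231 0o76351204 0o341205] [],
.mk (.mk 673 0o76543210 0o76543210 0o543210) [.mk 739 0o76345210 0o76345210 0o453210] [],
.mk (.mk 728 0o76543210 0o76543210 0o452310) [.mk 1091 0o76543210 0o76543210 0o543210, .mk 1093
0o76452130 0o76451320 0o145230] [],
.mk (.mk 700 0o76543210 0o76543210 0o543210) [.mk 980 0o76435102 0o76354021 0o54321, .mk 1028
0o76452301 0o76452301 0o350421] [],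
.mk (.mk 597 0o76543210 0o76543210 0o543210) [.mk 840 0o76543210 0o76543210 0o453210] [],
.mk (.mk 773 0o76342051 0o76145302 0o140523) [.mk 1146 0o76543210 0o76543210 0o543210] [],
.mk (.mk 739 0o76354210 0o76435210 0o453210) [.mk 770 0o76352041 0o76415302 0o150423, .mk 788
0o76431520 0o76254130 0o351402] [],
.mk (.mk 743 0o76342051 0o76145302 0o140523) [.mk 764 0o76543210 0o76543210 0o453210] [],
.mk (.mk 743 0o76504321 0o76532104 0o243105) [.mk 839 0o76435210 0o76354210 0o452310] [],
.mk (.mk 839 0o76543210 0o76543210 0o543210) [.mk 1079 0o76345210 0o76345210 0o452310, .mk 917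
0o76521430 0o76521430 0o31254] [],
.mk (.mk 839 0o76543210 0o76543210 0o543210) [.mk 1030 0o76345210 0o76345210 0o452310, .mk 922
0o76241350 0o76142530 0o135042] [],
.mk (.mk 749 0o76504321 0o76532104 0o243105) [.mk 839 0o76435210 0o76354210 0o452310] [],
.mk (.mk 773 0o76431052 0o76154032 0o130254) [.mk 840 0o76543210 0o76543210 0o543210, .mk 1056
0o76543210 0o76543210 0o453210] [],
.mk (.mk 739 0o76543210 0o76543210 0o453210) [.mk 985 0o76031542 0o76214035 0o120354] [],
.mk (.mk 760 0o76521304 0o76502431 0o102543) [.mk 780 0o76453201 0o76453201 0o251304] [],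
.mk (.mk 1028 0o76352041 0o76415302 0o142305) [.mk 624 0o76354120 0o76435120 0o245130] [],
.mk (.mk 659 0o76530124 0o76504123 0o41253) [.mk 882 0o76325410 0o76325410 0o352401] [],
.mk (.mk 981 0o76541230 0o76541230 0o451230) [.mk 1026 0o76521430 0o76521430 0o145230] [],
.mk (.mk 664 0o76502134 0o76501324 0o103254) [.mk 991 0o76214053 0o76130542 0o21453] [],
.mk (.mk 581 0o76543210 0o76543210 0o543210) [.mk 937 0o76435210 0o76354210 0o354210, .mk 887
0o76432105 0o76054321 0o53421] [],
.mk (.mk 773 0o76430521 0o76254103 0o150432) [.mk 635 0o76543210 0o76543210 0o543210, .mk 1042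
0o76543210 0o76543210 0o453210] [],
.mk (.mk 674 0o76532410 0o76524310 0o354210) [.mk 982 0o76543210 0o76543210 0o453210] [],
.mk (.mk 661 0o76204531 0o76231504 0o203145) [.mk 1018 0o76102435 0o76021354 0o120354] [],
.mk (.mk 645 0o76543210 0o76543210 0o543210) [.mk 1140 0o76352014 0o76405312 0o205143] [],
.mk (.mk 650 0o76453210 0o76453210 0o453210) [.mk 683 0o76543210 0o76543210 0o543210] [],
.mk (.mk 663 0o76452130 0o76451320 0o452130) [.mk 761 0o76435210 0o76354210 0o251403] [],
.mk (.mk 711 0o76504231 0o76531204 0o251304) [.mk 719 0o76415320 0o76352140 0o352401] [],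
.mk (.mk 748 0o76453120 0o76453120 0o452310) [.mk 1097 0o76543210 0o76543210 0o543210] [],
.mk (.mk 978 0o76543210 0o76543210 0o543210) [.mk 752 0o76132504 0o76204351 0o302514] [],
.mk (.mk 695 0o76540213 0o76540213 0o210534) [.mk 1086 0o76345210 0o76345210 0o354120] [],
.mk (.mk 664 0o76215403 0o76320541 0o125340) [.mk 713 0o76532410 0o76524310 0o354120] [],
.mk (.mk 715 0o76543210 0o76543210 0o543210) [.mk 1018 0o76420351 0o76152403 0o153204] [],
.mk (.mk 663 0o76541230 0o76541230 0o451230) [.mk 999 0o76231504 0o76204531 0o13425] [],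
.mk (.mk 663 0o76543210 0o76543210 0o543210) [.mk 1083 0o76314502 0o76235041 0o320514] [],
.mk (.mk 1011 0o76425301 0o76352401 0o152340) [.mk 921 0o76543210 0o76543210 0o543210, .mk 922
0o76354210 0o76435210 0o453210] [],
.mk (.mk 735 0o76205431 0o76321504 0o134025) [.mk 987 0o76542310 0o76542310 0o254301] [],
.mk (.mk 778 0o76543210 0o76543210 0o543210) [.mk 850 0o76352041 0o76415302 0o325104] [],
.mk (.mk 817 0o76520314 0o76502413 0o35124) [.mk 810 0o76530214 0o76504213 0o214305, .mk 817
0o76520314 0o76502413 0o124035] [],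
.mk (.mk 823 0o76540132 0o76541023 0o230154) [.mk 810 0o76524103 0o76530421 0o43152, .mk 823
0o76540132 0o76541023 0o321045] [],
.mk (.mk 758 0o76543210 0o76543210 0o543210) [.mk 823 0o76345210 0o76345210 0o453210] [],
.mk (.mk 779 0o76504312 0o76532014 0o123045) [.mk 1080 0o76541320 0o76542130 0o451320, .mk 823
0o76435210 0o76354210 0o354210] [],
.mk (.mk 785 0o76514023 0o76530142 0o15432) [.mk 843 0o76543210 0o76543210 0o543210, .mk 785
0o76514023 0o76530142 0o104523] [],
.mk (.mk 561 0o76534210 0o76534210 0o453210) [.mk 1175 0o76504231 0o76531204 0o243015, .mk 833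
0o76415230 0o76351240 0o134502] []]

theorem v800 : chkL Tab.T5 Tab.RT Tab.reps Tab.E2 Ker.cert7 D800 800 = true := by
  decide +kernel

end CR.C2
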