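import Pool.Agent.Lib.MP_6f5d36_co.Ker
import Pool.Agent.Lib.MP_6f5d36_co.RTab
import Pool.Agent.Lib.MP_6f5d36_co.C2.KerC
import Pool.Agent.Lib.MP_6f5d36_co.C2.ETab

/-! MP_6f5d36_co, case (ii), level 7 : the ranks 900, ..., 999 -/

set_option autoImplicit false
set_option maxRecDepth 100000

noncomputable section

namespace CR.C2

/-- the frames and certificates of the ranks 900, ..., 999 -/
def D900 : List It :=
[.mk (.mk 786 0o76321540 0o76215430 0o204513) [.mk 910 0o76543210 0o76543210 0o543210, .mk 786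
0o76321540 0o76215430 0o315402] [],
.mk (.mk 809 0o76540312 0o76542013 0o350214) [.mk 1084 0o76543102 0o76543021 0o251430, .mk 628
0o76543210 0o76543210 0o543210] [],
.mk (.mk 759 0o76340512 0o76245013 0o350124) [.mk 1002 0o76251034 0o76401532 0o105423, .mk 1019
0o76534210 0o76534210 0o453210] [],
.mk (.mk 603 0o76534210 0o76534210 0o453210) [.mk 1091 0o76543210 0o76543210 0o543210, .mk 1037
0o76512340 0o76512340 0o134502] [],
.mk (.mk 614 0o76523410 0o76523410 0o254301) [.mk 914 0o76453210 0o76453210 0o452301, .mk 913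
0o76543210 0o76543210 0o543210] [],
.mk (.mk 759 0o76304125 0o76035124 0o41235) [.mk 769 0o76543210 0o76543210 0o543210] [],
.mk (.mk 676 0o76435210 0o76354210 0o453210) [.mk 685 0o76250431 0o76421503 0o31254] [],
.mk (.mk 710 0o76543210 0o76543210 0o543210) [.mk 1021 0o76542130 0o76541320 0o145230] [],
.mk (.mk 649 0o76054132 0o76431025 0o320145) [.mk 704 0o76543210 0o76543210 0o543210] [],
.mk (.mk 698 0o76205341 0o76312504 0o314025) [.mk 685 0o76043215 0o76043215 0o23415, .mk 751
0o76543210 0o76543210 0o543210] [],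
.mk (.mk 656 0o76435210 0o76354210 0o154230) [.mk 720 0o76452130 0o76451320 0o345102] [],
.mk (.mk 714 0o76453210 0o76453210 0o154230) [.mk 828 0o76543210 0o76543210 0o354210, .mk 826
0o76432510 0o76254310 0o453120] [],
.mk (.mk 611 0o76354210 0o76435210 0o453210) [.mk 1018 0o76153240 0o76413250 0o34251, .mk 929
0o76543210 0o76543210 0o543210] [],
.mk (.mk 571 0o76543210 0o76543210 0o543210) [.mk 884 0o76435210 0o76354210 0o453210, .mk 935
0o76251403 0o76420531 0o203541] [],
.mk (.mk 572 0o76543210 0o76543210 0o543210) [.mk 1098 0o76450312 0o76452013 0o51234, .mk 975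
0o76524130 0o76531420 0o345210] [],
.mk (.mk 815 0o76253410 0o76423510 0o453120) [.mk 851 0o76510324 0o76502143 0o13245] [],
.mk (.mk 815 0o76245310 0o76342510 0o453210) [.mk 781 0o76543210 0o76543210 0o543210, .mk 1075
0o76453210 0o76453210 0o254130] [],
.mk (.mk 725 0o76453210 0o76453210 0o345021) [.mk 1099 0o76425310 0o76352410 0o43251, .mk 881
0o76543210 0o76543210 0o543210] [],
.mk (.mk 728 0o76350241 0o76415203 0o142305) [.mk 755 0o76543120 0o76543120 0o453120] [],
.mk (.mk 683 0o76503412 0o76523014 0o213405) [.mk 945 0o76435210 0o76354210 0o453210] [],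
.mk (.mk 606 0o76524031 0o76531402 0o104325) [.mk 945 0o76452310 0o76452310 0o354102, .mk 844
0o76543210 0o76543210 0o543210] [],
.mk (.mk 708 0o76531402 0o76524031 0o24351) [.mk 889 0o76431502 0o76254031 0o204351, .mk 790
0o76451320 0o76452130 0o354012] [],
.mk (.mk 574 0o76543210 0o76543210 0o543210) [.mk 725 0o76423510 0o76253410 0o345012] [],
.mk (.mk 828 0o76234501 0o76234501 0o240513) [.mk 890 0o76543210 0o76543210 0o543210, .mk 846
0o76512403 0o76520341 0o24135] [],
.mk (.mk 720 0o76351420 0o76425130 0o354021) [.mk 1159 0o76350142 0o76415023 0o32541] [],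
.mk (.mk 762 0o76345120 0o76345120 0o453120) [.mk 1110 0o76215034 0o76301542 0o104352] [],
.mk (.mk 612 0o76534210 0o76534210 0o453210) [.mk 1065 0o76453201 0o76453201 0o42531, .mk 841
0o76324510 0o76235410 0o215403] [],
.mk (.mk 846 0o76125043 0o76310452 0o15234) [.mk 1053 0o76542310 0o76542310 0o254310, .mk 641
0o76543210 0o76543210 0o543210] [],
.mk (.mk 590 0o76534210 0o76534210 0o453210) [.mk 1002 0o76451302 0o76452031 0o250341] [],
.mk (.mk 590 0o76053412 0o76423015 0o201435) [.mk 866 0o76031452 0o76124035 0o120345] [],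
.mk (.mk 590 0o76534210 0o76534210 0o354102) [.mk 1011 0o76325140 0o76315420 0o145320, .mk 890
0o76435120 0o76354120 0o453120] [],
.mk (.mk 726 0o76543210 0o76543210 0o453210) [.mk 806 0o76452310 0o76452310 0o254130] [],
.mk (.mk 801 0o76543210 0o76543210 0o453210) [.mk 923 0o76452301 0o76452301 0o240513, .mk 1049
0o76512340 0o76512340 0o345021] [],
.mk (.mk 684 0o76235041 0o76314502 0o140523) [.mk 801 0o76345120 0o76345120 0o453120, .mk 898
0o76213540 0o76213540 0o345012] [],
.mk (.mk 612 0o76543210 0o76543210 0o543210) [.mk 1137 0o76354201 0o76435201 0o52431, .mk 941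
0o76240351 0o76142503 0o123540] [],
.mk (.mk 755 0o76435210 0o76354210 0o453210) [.mk 790 0o76543210 0o76543210 0o543210, .mk 876
0o76503421 0o76523104 0o241305] [],
.mk (.mk 790 0o76543210 0o76543210 0o543210) [.mk 888 0o76351042 0o76415032 0o230514] [],
.mk (.mk 802 0o76354210 0o76435210 0o453210) [.mk 1078 0o76420135 0o76051423 0o104325, .mk 852
0o76452013 0o76450312 0o203514] [],
.mk (.mk 737 0o76043251 0o76143205 0o142305) [.mk 1065 0o76250341 0o76412503 0o215304] [],
.mk (.mk 828 0o76345210 0o76345210 0o453210) [.mk 1103 0o76310542 0o76215043 0o32514, .mk 860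
0o76342501 0o76245301 0o254103] [],
.mk (.mk 787 0o76453201 0o76453201 0o254103) [.mk 1055 0o76301452 0o76125034 0o31542, .mk 997
0o76401352 0o76152034 0o130542] [],
.mk (.mk 723 0o76432105 0o76054321 0o54321) [.mk 840 0o76354210 0o76435210 0o453210, .mk 798
0o76543210 0o76543210 0o543210] [],
.mk (.mk 721 0o76543210 0o76543210 0o543210) [.mk 1073 0o76532104 0o76504321 0o54321] [],
.mk (.mk 976 0o76534120 0o76534120 0o154320) [.mk 756 0o76543210 0o76543210 0o543210, .mk 849
0o76432510 0o76254310 0o254310] [],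
.mk (.mk 976 0o76451302 0o76452031 0o132450) [.mk 849 0o76523410 0o76523410 0o345210] [],
.mk (.mk 756 0o76543210 0o76543210 0o543210) [.mk 1158 0o76315240 0o76315240 0o143502] [],
.mk (.mk 976 0o76345120 0o76345120 0o145230) [.mk 721 0o76543210 0o76543210 0o543210] [],
.mk (.mk 701 0o76345210 0o76345210 0o452310) [.mk 756 0o76543210 0o76543210 0o543210] [],
.mk (.mk 821 0o76435210 0o76354210 0o453210) [.mk 1006 0o76543120 0o76543120 0o154320, .mk 620
0o76543210 0o76543210 0o543210] [],
.mk (.mk 766 0o76354210 0o76435210 0o452310) [.mk 1032 0o76243051 0o76143502 0o235104] [],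
.mk (.mk 766 0o76435210 0o76354210 0o452310) [.mk 838 0o76543210 0o76543210 0o543210, .mk 839
0o76325104 0o76305421 0o54321] [],
.mk (.mk 701 0o76253104 0o76403521 0o45321) [.mk 1005 0o76250314 0o76402513 0o203514] [],
.mk (.mk 701 0o76453210 0o76453210 0o452310) [.mk 738 0o76543210 0o76543210 0o543210, .mk 1040
0o76342510 0o76245310 0o245130] [],
.mk (.mk 605 0o76543120 0o76543120 0o315042) [.mk 1079 0o76253104 0o76403521 0o43521] [],
.mk (.mk 690 0o76045321 0o76342105 0o243105) [.mk 791 0o76543210 0o76543210 0o543210, .mk 1119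
0o76432150 0o76154320 0o154320] [],
.mk (.mk 849 0o76051423 0o76420135 0o301425) [.mk 838 0o76350421 0o76425103 0o423105, .mk 1064
0o76350421 0o76425103 0o243105] [],
.mk (.mk 651 0o76352104 0o76405321 0o301542) [.mk 1193 0o76241053 0o76140532 0o231054] [],
.mk (.mk 765 0o76453210 0o76453210 0o452310) [.mk 784 0o76543210 0o76543210 0o543210, .mk 922
0o76523014 0o76503412 0o103425] [],
.mk (.mk 579 0o76543210 0o76543210 0o453210) [.mk 743 0o76342015 0o76045312 0o41523] [],
.mk (.mk 710 0o76543210 0o76543210 0o543210) [.mk 875 0o76142503 0o76240351 0o302514] [],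
.mk (.mk 871 0o76324510 0o76235410 0o452310) [.mk 906 0o76521403 0o76520431 0o104523, .mk 871
0o76543210 0o76543210 0o543210] [],
.mk (.mk 661 0o76140352 0o76142053 0o132540) [.mk 744 0o76543210 0o76543210 0o543210] [],
.mk (.mk 741 0o76210543 0o76210543 0o321054) [.mk 1030 0o76435210 0o76354210 0o452310] [],
.mk (.mk 741 0o76543120 0o76543120 0o452310) [.mk 598 0o76504321 0o76532104 0o341205, .mk 618
0o76543210 0o76543210 0o543210] [],
.mk (.mk 741 0o76541230 0o76541230 0o451230) [.mk 599 0o76514320 0o76532140 0o325401] [],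
.mk (.mk 739 0o76543210 0o76543210 0o452310) [.mk 840 0o76543210 0o76543210 0o543210] [],
.mk (.mk 711 0o76430251 0o76154203 0o142305) [.mk 599 0o76501432 0o76521034 0o320145] [],
.mk (.mk 766 0o76543210 0o76543210 0o543210) [.mk 786 0o76302541 0o76215304 0o210543, .mk 842
0o76512403 0o76520341 0o35412] [],
.mk (.mk 809 0o76230541 0o76214503 0o213450) [.mk 1030 0o76453210 0o76453210 0o452310, .mk 1056
0o76543210 0o76543210 0o543210] [],
.mk (.mk 545 0o76543210 0o76543210 0o543210) [.mk 771 0o76534012 0o76534012 0o350124] [],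
.mk (.mk 659 0o76543021 0o76543102 0o243105) [.mk 769 0o76543210 0o76543210 0o543210] [],
.mk (.mk 580 0o76543210 0o76543210 0o543210) [.mk 995 0o76412530 0o76251340 0o142503] [],
.mk (.mk 780 0o76321540 0o76215430 0o104325) [.mk 1085 0o76451320 0o76452130 0o451320, .mk 861
0o76342510 0o76245310 0o354210] [],
.mk (.mk 780 0o76345201 0o76345201 0o251304) [.mk 995 0o76135402 0o76324051 0o123540, .mk 777
0o76542310 0o76542310 0o453120] [],
.mk (.mk 650 0o76543210 0o76543210 0o543210) [.mk 995 0o76415230 0o76351240 0o241503] [],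
.mk (.mk 548 0o76543210 0o76543210 0o543210) [.mk 995 0o76415203 0o76350241 0o124503] [],
.mk (.mk 777 0o76453210 0o76453210 0o453210) [.mk 920 0o76543210 0o76543210 0o543210, .mk 921
0o76423510 0o76253410 0o354210] [],
.mk (.mk 704 0o76453021 0o76453102 0o250413) [.mk 920 0o76543210 0o76543210 0o543210, .mk 842
0o76452310 0o76452310 0o453120] [],
.mk (.mk 760 0o76314520 0o76235140 0o134502) [.mk 830 0o76543210 0o76543210 0o543210] [],
.mk (.mk 831 0o76453120 0o76453120 0o452310) [.mk 850 0o76034521 0o76234105 0o134205, .mk 830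
0o76543210 0o76543210 0o543210] [],
.mk (.mk 669 0o76543210 0o76543210 0o543210) [.mk 1052 0o76451230 0o76451230 0o451230] [],
.mk (.mk 730 0o76534210 0o76534210 0o453210) [.mk 614 0o76251034 0o76401532 0o15423, .mk 1027
0o76251034 0o76401532 0o105423] [],
.mk (.mk 614 0o76534210 0o76534210 0o453210) [.mk 1093 0o76514203 0o76530241 0o43512] [],
.mk (.mk 669 0o76543210 0o76543210 0o543210) [.mk 1003 0o76431520 0o76254130 0o154320] [],
.mk (.mk 693 0o76345201 0o76345201 0o253104) [.mk 909 0o76412530 0o76251340 0o102354] [],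
.mk (.mk 813 0o76542013 0o76540312 0o103452) [.mk 1043 0o76542130 0o76541320 0o452130] [],
.mk (.mk 693 0o76320451 0o76125403 0o132540) [.mk 1079 0o76543210 0o76543210 0o543210] [],
.mk (.mk 582 0o76543210 0o76543210 0o543210) [.mk 947 0o76325401 0o76325401 0o215304, .mk 991
0o76543210 0o76543210 0o453210] [],
.mk (.mk 614 0o76532401 0o76524301 0o251430) [.mk 630 0o76534210 0o76534210 0o452301, .mk 630
0o76543210 0o76543210 0o543210] [],
.mk (.mk 614 0o76350124 0o76405123 0o51243) [.mk 996 0o76250143 0o76410523 0o105423, .mk 1080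
0o76543210 0o76543210 0o453210] [],
.mk (.mk 761 0o76352104 0o76405321 0o213504) [.mk 1084 0o76342105 0o76045321 0o123504, .mk 849
0o76543210 0o76543210 0o543210] [],
.mk (.mk 660 0o76531420 0o76524130 0o145230) [.mk 668 0o76543210 0o76543210 0o543210] [],
.mk (.mk 653 0o76524130 0o76531420 0o245310) [.mk 1058 0o76543120 0o76543120 0o452310] [],
.mk (.mk 743 0o76350124 0o76405123 0o51243) [.mk 1084 0o76312450 0o76125340 0o143502] [],
.mk (.mk 715 0o76435210 0o76354210 0o453210) [.mk 615 0o76530412 0o76524013 0o305214] [],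
.mk (.mk 723 0o76453210 0o76453210 0o453210) [.mk 883 0o76452103 0o76450321 0o43251, .mk 991
0o76543210 0o76543210 0o543210] [],
.mk (.mk 653 0o76435210 0o76354210 0o354210) [.mk 547 0o76543210 0o76543210 0o543210] [],
.mk (.mk 779 0o76502341 0o76512304 0o21453) [.mk 997 0o76540213 0o76540213 0o350124, .mk 932
0o76345210 0o76345210 0o453210] [],
.mk (.mk 585 0o76354210 0o76435210 0o452301) [.mk 1142 0o76053241 0o76413205 0o324105, .mk 833
0o76145203 0o76340251 0o124503] [],
.mk (.mk 614 0o76534210 0o76534210 0o453210) [.mk 1037 0o76523401 0o76523401 0o245103, .mk 598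
0o76543210 0o76543210 0o543210] []]

theorem v900 : chkL Tab.T5 Tab.RT Tab.reps Tab.E2 Ker.cert7 D900 900 = true := by
  decide +kernel

end CR.C2
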