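import Pool.Agent.Lib.MP_6f5d36_co.Ker
import Pool.Agent.Lib.MP_6f5d36_co.RTab
import Pool.Agent.Lib.MP_6f5d36_co.C2.KerC
import Pool.Agent.Lib.MP_6f5d36_co.C2.ETab

/-! MP_6f5d36_co, case (ii), level 7 : the ranks 1000, ..., 1099 -/

set_option autoImplicit false
set_option maxRecDepth 100000

noncomputable section

namespace CR.C2

/-- the frames and certificates of the ranks 1000, ..., 1099 -/
def D1000 : List It :=
[.mk (.mk 698 0o76423501 0o76253401 0o254103) [.mk 693 0o76543210 0o76543210 0o543210] [],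
.mk (.mk 749 0o76345021 0o76345102 0o351204) [.mk 1138 0o76541032 0o76541032 0o150342, .mk 879
0o76534210 0o76534210 0o453210] [],
.mk (.mk 552 0o76531420 0o76524130 0o324501) [.mk 759 0o76543210 0o76543210 0o453210] [],
.mk (.mk 685 0o76452310 0o76452310 0o453120) [.mk 919 0o76253104 0o76403521 0o305421] [],
.mk (.mk 610 0o76253410 0o76423510 0o452310) [.mk 915 0o76543210 0o76543210 0o543210, .mk 880
0o76043521 0o76243105 0o134205] [],
.mk (.mk 569 0o76543210 0o76543210 0o543210) [.mk 813 0o76253401 0o76423501 0o45123, .mk 993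
0o76543210 0o76543210 0o154320] [],
.mk (.mk 569 0o76543210 0o76543210 0o543210) [.mk 819 0o76435210 0o76354210 0o354201, .mk 595
0o76534210 0o76534210 0o453120] [],
.mk (.mk 595 0o76543210 0o76543210 0o543210) [.mk 815 0o76423510 0o76253410 0o453210, .mk 778
0o76452301 0o76452301 0o52431] [],
.mk (.mk 818 0o76543210 0o76543210 0o453210) [.mk 884 0o76235401 0o76324501 0o250314] [],
.mk (.mk 818 0o76542310 0o76542310 0o453120) [.mk 890 0o76452130 0o76451320 0o345012, .mk 1025
0o76543210 0o76543210 0o154230] [],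
.mk (.mk 1027 0o76453210 0o76453210 0o154230) [.mk 826 0o76324501 0o76235401 0o250314] [],
.mk (.mk 570 0o76543210 0o76543210 0o543210) [.mk 1040 0o76154023 0o76430152 0o21543, .mk 818
0o76532410 0o76524310 0o453210] [],
.mk (.mk 611 0o76543210 0o76543210 0o543210) [.mk 1036 0o76354021 0o76435102 0o251304, .mk 1083
0o76351240 0o76415230 0o134502] [],
.mk (.mk 551 0o76543210 0o76543210 0o543210) [.mk 977 0o76405321 0o76352104 0o142305] [],
.mk (.mk 734 0o76452130 0o76451320 0o53142) [.mk 782 0o76435210 0o76354210 0o453210] [],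
.mk (.mk 789 0o76135240 0o76314250 0o142503) [.mk 844 0o76543210 0o76543210 0o543210, .mk 872
0o76431520 0o76254130 0o354012] [],
.mk (.mk 590 0o76154023 0o76430152 0o104253) [.mk 1144 0o76543210 0o76543210 0o254130, .mk 574
0o76543210 0o76543210 0o543210] [],
.mk (.mk 704 0o76504321 0o76532104 0o241305) [.mk 801 0o76215430 0o76321540 0o435201] [],
.mk (.mk 801 0o76215430 0o76321540 0o435201) [.mk 1045 0o76305421 0o76325104 0o241305] [],
.mk (.mk 885 0o76540213 0o76540213 0o23541) [.mk 1126 0o76523014 0o76503412 0o104523, .mk 941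
0o76450213 0o76450213 0o203514, .mk 975 0o76241530 0o76241530 0o345201]
[0xc32812018ca13042040c2210c4000420080c609900180253052130823343a8000600a0c30080948c211144140c202a001b8460b007708a68100c1d00a0688c2680c12002008061204114e800082e88dd],
.mk (.mk 1018 0o76534120 0o76534120 0o154230) [.mk 885 0o76241530 0o76241530 0o345120] [],
.mk (.mk 1075 0o76452310 0o76452310 0o254310) [.mk 852 0o76402153 0o76150324 0o103524, .mk 1062
0o76354210 0o76435210 0o453210] [],
.mk (.mk 687 0o76342150 0o76145320 0o145230) [.mk 866 0o76241530 0o76241530 0o345210] [],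
.mk (.mk 742 0o76420153 0o76150423 0o103452) [.mk 1062 0o76325014 0o76305412 0o203415] [],
.mk (.mk 738 0o76421350 0o76152430 0o125043) [.mk 837 0o76435210 0o76354210 0o453210] [],
.mk (.mk 545 0o76543210 0o76543210 0o543210) [.mk 771 0o76534012 0o76534012 0o350214] [],
.mk (.mk 545 0o76543210 0o76543210 0o543210) [.mk 730 0o76452103 0o76450321 0o54321] [],
.mk (.mk 662 0o76543210 0o76543210 0o543210) [.mk 730 0o76325410 0o76325410 0o354210] [],
.mk (.mk 759 0o76503142 0o76513024 0o240315) [.mk 1058 0o76543120 0o76543120 0o452310, .mk 740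
0o76543210 0o76543210 0o543210] [],
.mk (.mk 593 0o76534210 0o76534210 0o453210) [.mk 1139 0o76543102 0o76543021 0o45231] [],
.mk (.mk 772 0o76534210 0o76534210 0o453210) [.mk 1035 0o76453201 0o76453201 0o350412] [],
.mk (.mk 772 0o76534210 0o76534210 0o453210) [.mk 1016 0o76130524 0o76204153 0o23451] [],
.mk (.mk 691 0o76354210 0o76435210 0o453210) [.mk 922 0o76321054 0o76105432 0o103425] [],
.mk (.mk 791 0o76543210 0o76543210 0o543210) [.mk 932 0o76251304 0o76402531 0o302514] [],
.mk (.mk 803 0o76534210 0o76534210 0o452310) [.mk 995 0o76415320 0o76352140 0o241503] [],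
.mk (.mk 803 0o76543210 0o76543210 0o543210) [.mk 1011 0o76251340 0o76412530 0o235401, .mk 772
0o76354210 0o76435210 0o453210]
[0x30374c023300a489466010c08ac60081d800780914a0142018400152901c96924091072311184920283a13448140088422b140980110bc00082a0054,
0x12040c5122820319081800b001861a940810f347c514084050f0064104001823404d41361d3025f014c175000c00010bc330091c14e030c40908203c10c041b00784713180c031000005c04600090450008045402e001d8c400083658c2],
.mk (.mk 803 0o76543210 0o76543210 0o453210) [.mk 862 0o76432150 0o76154320 0o154320, .mk 1016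
0o76143520 0o76243150 0o32451]
[0xe061390c04c150901544310990c0a15610998032094202462e91c828c9983103232218c062b19004868043b810e8a1079c9a08200b5c205009f00110d000082c3054,
0x4c31a18c087001840202809d8f10010300090c8742062810108e1063400f0a0841c4104820030130282103013800c87e08010a82341f82ce00514c402a1950a5859826603e00a800c04812e00982bc05001000198cc000835461d],
.mk (.mk 821 0o76543210 0o76543210 0o543210) [.mk 895 0o76320541 0o76215403 0o231540, .mk 1079
0o76543210 0o76543210 0o453210] [],
.mk (.mk 579 0o76534210 0o76534210 0o452310) [.mk 1066 0o76410352 0o76152043 0o132504, .mk 1091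
0o76543210 0o76543210 0o543210] [],
.mk (.mk 579 0o76543210 0o76543210 0o453210) [.mk 744 0o76543210 0o76543210 0o543210] [],
.mk (.mk 654 0o76530412 0o76524013 0o120534) [.mk 1169 0o76435210 0o76354210 0o354102]
[0x601a0240a00400020c4ba1301c24455087210004430011f2129401e8152618841ca0060752018910050c49040000b50054c52202002584309420461351022b148600154c000082eb642],
.mk (.mk 560 0o76534210 0o76534210 0o452310) [.mk 1066 0o76410325 0o76052143 0o32514, .mk 879
0o76403521 0o76253104 0o243105] [],
.mk (.mk 1025 0o76521430 0o76521430 0o315042) [.mk 627 0o76543210 0o76543210 0o543210, .mk 1030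
0o76435210 0o76354210 0o452310] [],
.mk (.mk 738 0o76543210 0o76543210 0o543210) [.mk 765 0o76543210 0o76543210 0o452310] [],
.mk (.mk 789 0o76243150 0o76143520 0o145230) [.mk 840 0o76543210 0o76543210 0o543210, .mk 1079
0o76345210 0o76345210 0o452310] [],
.mk (.mk 630 0o76524310 0o76532410 0o352401) [.mk 1088 0o76342150 0o76145320 0o143502, .mk 841
0o76543210 0o76543210 0o543210] [],
.mk (.mk 978 0o76543201 0o76543201 0o125304) [.mk 841 0o76543210 0o76543210 0o543210] [],
.mk (.mk 663 0o76243501 0o76243501 0o125304) [.mk 848 0o76423510 0o76253410 0o352401] [],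
.mk (.mk 1027 0o76340251 0o76145203 0o140523) [.mk 862 0o76354210 0o76435210 0o235401] [],
.mk (.mk 980 0o76324105 0o76035421 0o35421) [.mk 955 0o76135204 0o76304251 0o302541] [],
.mk (.mk 716 0o76241035 0o76041532 0o13524) [.mk 963 0o76534210 0o76534210 0o354210, .mk 581
0o76543210 0o76543210 0o543210] [],
.mk (.mk 581 0o76543210 0o76543210 0o543210) [.mk 1129 0o76354120 0o76435120 0o134502] [],
.mk (.mk 668 0o76543210 0o76543210 0o543210) [.mk 743 0o76345210 0o76345210 0o354210] [],
.mk (.mk 705 0o76340521 0o76245103 0o150432) [.mk 635 0o76543210 0o76543210 0o543210, .mk 1070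
0o76345201 0o76345201 0o253104]
[0x5004a21e015887543400501e098983603c22a00a806c47a607a00148080610c917410a2413070804b5e44a54a89d802c22a20189d440403d22811608b801e20de01c9224d610140288b0bbd352283c44c001a18091984d038a1eb0988210e400083d3a0a],
.mk (.mk 873 0o76453120 0o76453120 0o452310) [.mk 943 0o76325410 0o76325410 0o354210, .mk 1031
0o76234510 0o76234510 0o125403] [],
.mk (.mk 563 0o76534210 0o76534210 0o135042) [.mk 613 0o76543210 0o76543210 0o543210, .mk 563
0o76534210 0o76534210 0o453210] [],
.mk (.mk 733 0o76140325 0o76042153 0o21345) [.mk 978 0o76541230 0o76541230 0o451230]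
[0x20484c80434008109c601c0c9084843042508426086971848009ac008cc0104222008238400289a100024008cc0148034520a2c4400c24004114b400082ad80d],
.mk (.mk 750 0o76435210 0o76354210 0o354210) [.mk 989 0o76541230 0o76541230 0o451230] [],
.mk (.mk 771 0o76542103 0o76540321 0o43251) [.mk 854 0o76453210 0o76453210 0o453210, .mk 889
0o76435102 0o76354021 0o304251] [],
.mk (.mk 992 0o76205413 0o76320514 0o35214) [.mk 565 0o76315402 0o76325041 0o321054, .mk 799
0o76513402 0o76523041 0o231054] [],
.mk (.mk 651 0o76541230 0o76541230 0o451230) [.mk 1036 0o76231045 0o76014532 0o13425] [],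
.mk (.mk 608 0o76543210 0o76543210 0o543210) [.mk 1036 0o76354021 0o76435102 0o351204, .mk 1086
0o76532140 0o76514320 0o154320] [],
.mk (.mk 668 0o76534021 0o76534102 0o314205) [.mk 1090 0o76543210 0o76543210 0o543210] [],
.mk (.mk 608 0o76534210 0o76534210 0o453210) [.mk 883 0o76452310 0o76452310 0o354120, .mk 968
0o76425130 0o76351420 0o145320]
[0x447883c00005440cc0446400acf8c6b43d01ed20058418c9404547c000c3c400000474c7c40446089420d42d01000426c424131001c36474c0007c4ac09404c52080204410415c8028080354f0004c19c204b843900cc1d0e80008393654],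
.mk (.mk 778 0o76530241 0o76514203 0o130452) [.mk 778 0o76543210 0o76543210 0o543210, .mk 848
0o76350241 0o76415203 0o314025] [],
.mk (.mk 795 0o76514023 0o76530142 0o104253) [.mk 932 0o76345210 0o76345210 0o452301] [],
.mk (.mk 696 0o76504132 0o76531024 0o231405) [.mk 716 0o76435021 0o76354102 0o351204, .mk 1123
0o76451032 0o76451032 0o150342] [],
.mk (.mk 604 0o76354210 0o76435210 0o453210) [.mk 996 0o76153420 0o76423150 0o243051, .mk 1068
0o76531204 0o76504231 0o53412] [],
.mk (.mk 648 0o76354210 0o76435210 0o453210) [.mk 886 0o76452301 0o76452301 0o254013] [],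
.mk (.mk 675 0o76354210 0o76435210 0o453210) [.mk 717 0o76403125 0o76053124 0o51234] [],
.mk (.mk 770 0o76345210 0o76345210 0o453210) [.mk 804 0o76543210 0o76543210 0o543210] [],
.mk (.mk 806 0o76534120 0o76534120 0o315042) [.mk 806 0o76543210 0o76543210 0o543210, .mk 1111
0o76542310 0o76542310 0o35214] [],
.mk (.mk 600 0o76543210 0o76543210 0o543210) [.mk 841 0o76342501 0o76245301 0o103542, .mk 871
0o76423510 0o76253410 0o453210] [],
.mk (.mk 568 0o76253410 0o76423510 0o453210) [.mk 915 0o76543210 0o76543210 0o543210, .mk 883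
0o76541230 0o76541230 0o34152] [],
.mk (.mk 610 0o76523410 0o76523410 0o452310) [.mk 919 0o76325104 0o76305421 0o105432, .mk 610
0o76543210 0o76543210 0o543210] [],
.mk (.mk 835 0o76135042 0o76314052 0o312540) [.mk 897 0o76104325 0o76032154 0o32451] [],
.mk (.mk 573 0o76352401 0o76425301 0o250314) [.mk 1035 0o76345210 0o76345210 0o154230, .mk 929
0o76432510 0o76254310 0o453210] [],
.mk (.mk 554 0o76532410 0o76524310 0o453120) [.mk 780 0o76453210 0o76453210 0o154230, .mk 884
0o76234501 0o76234501 0o250134] [],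
.mk (.mk 550 0o76543210 0o76543210 0o543210) [.mk 736 0o76415230 0o76351240 0o345201] [],
.mk (.mk 769 0o76253401 0o76423501 0o132540) [.mk 856 0o76542301 0o76542301 0o213540, .mk 864
0o76345210 0o76345210 0o354102] [],
.mk (.mk 762 0o76435120 0o76354120 0o453120) [.mk 864 0o76251043 0o76410532 0o15342, .mk 1117
0o76350124 0o76405123 0o203514] [],
.mk (.mk 720 0o76230451 0o76124503 0o123540) [.mk 864 0o76543210 0o76543210 0o543210, .mk 1013
0o76524301 0o76532401 0o52341] [],
.mk (.mk 820 0o76435120 0o76354120 0o354012) [.mk 1073 0o76543210 0o76543210 0o254310, .mk 899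
0o76534210 0o76534210 0o453210] [],
.mk (.mk 802 0o76354210 0o76435210 0o453210) [.mk 910 0o76420153 0o76150423 0o103452, .mk 820
0o76543210 0o76543210 0o543210] [],
.mk (.mk 590 0o76534120 0o76534120 0o354012) [.mk 1068 0o76543210 0o76543210 0o153402, .mk 1007
0o76543120 0o76543120 0o53412] [],
.mk (.mk 590 0o76152043 0o76410352 0o105342) [.mk 1021 0o76542310 0o76542310 0o254310] [],
.mk (.mk 590 0o76534210 0o76534210 0o453210) [.mk 1007 0o76543210 0o76543210 0o254130, .mk 1148
0o76215034 0o76301542 0o15423] [],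
.mk (.mk 574 0o76543210 0o76543210 0o543210) [.mk 1147 0o76542310 0o76542310 0o254310, .mk 940
0o76452301 0o76452301 0o130524] [],
.mk (.mk 919 0o76543120 0o76543120 0o154320) [.mk 940 0o76435210 0o76354210 0o354102, .mk 1168
0o76542130 0o76541320 0o53142] [],
.mk (.mk 802 0o76310524 0o76205143 0o203145) [.mk 844 0o76543210 0o76543210 0o543210, .mk 1038
0o76253410 0o76423510 0o135402] [],
.mk (.mk 596 0o76543210 0o76543210 0o543210) [.mk 856 0o76430512 0o76254013 0o250314, .mk 898
0o76351402 0o76425031 0o130254] [],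
.mk (.mk 1049 0o76534210 0o76534210 0o453210) [.mk 1083 0o76542310 0o76542310 0o254310] [],
.mk (.mk 660 0o76051432 0o76421035 0o210435) [.mk 1049 0o76543210 0o76543210 0o453210] [],
.mk (.mk 762 0o76245031 0o76341502 0o105324) [.mk 1049 0o76534120 0o76534120 0o453120, .mk 1066
0o76542310 0o76542310 0o254310] [],
.mk (.mk 993 0o76542310 0o76542310 0o254310) [.mk 1062 0o76123045 0o76013452 0o15234, .mk 899
0o76435210 0o76354210 0o453210] [],
.mk (.mk 697 0o76534012 0o76534012 0o210534) [.mk 890 0o76245013 0o76340512 0o105234, .mk 940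
0o76435210 0o76354210 0o453210] [],
.mk (.mk 762 0o76245031 0o76341502 0o105234) [.mk 1083 0o76543210 0o76543210 0o254130, .mk 837
0o76435210 0o76354210 0o453210] [],
.mk (.mk 1030 0o76320154 0o76105423 0o104235) [.mk 936 0o76142530 0o76241350 0o345201, .mk 872
0o76354210 0o76435210 0o453210] [],
.mk (.mk 820 0o76145023 0o76340152 0o15432) [.mk 907 0o76531240 0o76514230 0o354201] [],
.mk (.mk 736 0o76431250 0o76154230 0o354201) [.mk 736 0o76534210 0o76534210 0o453210, .mk 1023
0o76542310 0o76542310 0o254310] []]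

theorem v1000 : chkL Tab.T5 Tab.RT Tab.reps Tab.E2 Ker.cert7 D1000 1000 = true := by
  decide +kernel

end CR.C2
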