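import Pool.Agent.Lib.MP_6f5d36_co.Ker
import Pool.Agent.Lib.MP_6f5d36_co.RTab
import Pool.Agent.Lib.MP_6f5d36_co.C2.KerC
import Pool.Agent.Lib.MP_6f5d36_co.C2.ETab

/-! MP_6f5d36_co, case (ii), level 7 : the ranks 1100, ..., 1199 -/

set_option autoImplicit false
set_option maxRecDepth 100000

noncomputable section

namespace CR.C2

/-- the frames and certificates of the ranks 1100, ..., 1199 -/
def D1100 : List It :=
[.mk (.mk 606 0o76543210 0o76543210 0o543210) [.mk 970 0o76430521 0o76254103 0o215034, .mk 950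
0o76435120 0o76354120 0o453120] [],
.mk (.mk 660 0o76432501 0o76254301 0o254103) [.mk 1050 0o76140253 0o76140253 0o13425] [],
.mk (.mk 666 0o76203451 0o76123504 0o134025) [.mk 836 0o76543210 0o76543210 0o543210] [],
.mk (.mk 584 0o76532410 0o76524310 0o354120) [.mk 1040 0o76534120 0o76534120 0o154320, .mk 849
0o76432510 0o76254310 0o254310] [],
.mk (.mk 584 0o76543210 0o76543210 0o543210) [.mk 1142 0o76450132 0o76451023 0o51234, .mk 795
0o76451302 0o76452031 0o125340] [],
.mk (.mk 578 0o76534210 0o76534210 0o453210) [.mk 1112 0o76523104 0o76503421 0o45321] [],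
.mk (.mk 712 0o76250413 0o76420513 0o203451) [.mk 888 0o76530412 0o76524013 0o302451] [],
.mk (.mk 592 0o76543210 0o76543210 0o543210) [.mk 1146 0o76543210 0o76543210 0o453210, .mk 1086
0o76432150 0o76154320 0o154320] [],
.mk (.mk 592 0o76534102 0o76534021 0o405321) [.mk 969 0o76423501 0o76253401 0o240531, .mk 895
0o76325041 0o76315402 0o140532] [],
.mk (.mk 540 0o76543210 0o76543210 0o453210) [.mk 1035 0o76534120 0o76534120 0o145230] [],
.mk (.mk 821 0o76543210 0o76543210 0o543210) [.mk 1118 0o76310452 0o76125043 0o123504, .mk 876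
0o76435210 0o76354210 0o453210] [],
.mk (.mk 706 0o76352410 0o76425310 0o354210) [.mk 798 0o76543210 0o76543210 0o543210] [],
.mk (.mk 798 0o76543210 0o76543210 0o543210) [.mk 1037 0o76451320 0o76452130 0o134502, .mk 618
0o76531402 0o76524031 0o321504] [],
.mk (.mk 594 0o76523410 0o76523410 0o254310) [.mk 1058 0o76513204 0o76503241 0o52431] [],
.mk (.mk 594 0o76325401 0o76325401 0o340512) [.mk 1007 0o76534021 0o76534102 0o24153, .mk 598
0o76524031 0o76531402 0o240513] [],
.mk (.mk 743 0o76523041 0o76513402 0o24153) [.mk 614 0o76235401 0o76324501 0o340512, .mk 767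
0o76453210 0o76453210 0o453210, .mk 1159 0o76532410 0o76524310 0o152403] [],
.mk (.mk 603 0o76534210 0o76534210 0o452310) [.mk 1091 0o76543210 0o76543210 0o543210, .mk 614
0o76502431 0o76521304 0o324015] [],
.mk (.mk 708 0o76534201 0o76534201 0o34251) [.mk 767 0o76452310 0o76452310 0o453120] [],
.mk (.mk 700 0o76543210 0o76543210 0o543210) [.mk 722 0o76425301 0o76352401 0o53241, .mk 764
0o76435210 0o76354210 0o453210] [],
.mk (.mk 691 0o76435210 0o76354210 0o452310) [.mk 1075 0o76045312 0o76342015 0o304215] [],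
.mk (.mk 823 0o76401352 0o76152034 0o132045) [.mk 1039 0o76135204 0o76304251 0o205431, .mk 877
0o76134205 0o76034251 0o52431] [],
.mk (.mk 1029 0o76153204 0o76403251 0o34251) [.mk 1095 0o76543210 0o76543210 0o354210] [],
.mk (.mk 603 0o76543210 0o76543210 0o543210) [.mk 1025 0o76521340 0o76512430 0o135042] [],
.mk (.mk 719 0o76310452 0o76125043 0o123450) [.mk 886 0o76102534 0o76201354 0o203154] [],
.mk (.mk 625 0o76352410 0o76425310 0o354120) [.mk 1104 0o76024315 0o76032415 0o103245, .mk 875
0o76140532 0o76241053 0o230451] [],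
.mk (.mk 605 0o76315204 0o76305241 0o35142) [.mk 1089 0o76215034 0o76301542 0o104253] [],
.mk (.mk 996 0o76431520 0o76254130 0o154320) [.mk 609 0o76543210 0o76543210 0o543210, .mk 1052
0o76543210 0o76543210 0o453210] [],
.mk (.mk 655 0o76015423 0o76320145 0o210345) [.mk 1109 0o76014253 0o76130245 0o21435] [],
.mk (.mk 841 0o76543210 0o76543210 0o325401) [.mk 1165 0o76523401 0o76523401 0o152304, .mk 920
0o76453120 0o76453120 0o452310, .mk 1165 0o76523401 0o76523401 0o34512] [],
.mk (.mk 598 0o76502413 0o76520314 0o103254) [.mk 1098 0o76402513 0o76250314 0o13254, .mk 745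
0o76451320 0o76452130 0o451320] [],
.mk (.mk 598 0o76543210 0o76543210 0o543210) [.mk 1071 0o76543210 0o76543210 0o354210, .mk 629
0o76534210 0o76534210 0o453210] [],
.mk (.mk 978 0o76543210 0o76543210 0o453210) [.mk 769 0o76542013 0o76540312 0o305214] [],
.mk (.mk 582 0o76543120 0o76543120 0o452310) [.mk 1113 0o76352104 0o76405321 0o42315] [],
.mk (.mk 662 0o76452130 0o76451320 0o452130) [.mk 1042 0o76241053 0o76140532 0o21453] [],
.mk (.mk 746 0o76543210 0o76543210 0o453210) [.mk 1035 0o76542310 0o76542310 0o354210] [],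
.mk (.mk 692 0o76453210 0o76453210 0o453210) [.mk 1035 0o76425310 0o76352410 0o354210] [],
.mk (.mk 711 0o76435201 0o76354201 0o253104) [.mk 1042 0o76452310 0o76452310 0o453120] [],
.mk (.mk 625 0o76514302 0o76532041 0o231054) [.mk 1052 0o76542130 0o76541320 0o452130] [],
.mk (.mk 745 0o76451320 0o76452130 0o451320) [.mk 618 0o76531402 0o76524031 0o104235, .mk 878
0o76143502 0o76243051 0o320514] [],
.mk (.mk 759 0o76521340 0o76512430 0o12453) [.mk 964 0o76341520 0o76245130 0o120543, .mk 878
0o76153420 0o76423150 0o214503] [],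
.mk (.mk 705 0o76423510 0o76253410 0o354210) [.mk 991 0o76325410 0o76325410 0o215403, .mk 1017
0o76540321 0o76542103 0o41352] [],
.mk (.mk 705 0o76543210 0o76543210 0o543210) [.mk 1007 0o76530412 0o76524013 0o305124] [],
.mk (.mk 705 0o76452310 0o76452310 0o354120) [.mk 1000 0o76415023 0o76350142 0o41352]
[0x48085a88c00048b559c00440080080cc90000894e5000888413d24842817e41414528840086cc00481c1401001890c0f5148158089cf48045a892c01cd6c5fd039ebc11985105c4044064b1800418d10c3ccd40f5401802c1d0ec000838171b],
.mk (.mk 689 0o76543210 0o76543210 0o543210) [.mk 1119 0o76235140 0o76314520 0o145230] [],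
.mk (.mk 609 0o76543210 0o76543210 0o543210) [.mk 914 0o76423501 0o76253401 0o125034] [],
.mk (.mk 785 0o76530142 0o76514023 0o231045) [.mk 810 0o76524130 0o76531420 0o42153, .mk 785
0o76530142 0o76514023 0o320154] [],
.mk (.mk 645 0o76543210 0o76543210 0o543210) [.mk 1097 0o76542130 0o76541320 0o452130] [],
.mk (.mk 835 0o76415230 0o76351240 0o243501) [.mk 993 0o76504312 0o76532014 0o31452, .mk 1042
0o76543210 0o76543210 0o543210] [],
.mk (.mk 716 0o76532401 0o76524301 0o251430) [.mk 759 0o76345021 0o76345102 0o150342, .mk 993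
0o76542310 0o76542310 0o354210] [],
.mk (.mk 680 0o76435210 0o76354210 0o453210) [.mk 565 0o76532410 0o76524310 0o351402] [],
.mk (.mk 565 0o76524310 0o76532410 0o352401) [.mk 1137 0o76403521 0o76253104 0o31524, .mk 1089
0o76351240 0o76415230 0o145320] [],
.mk (.mk 658 0o76451320 0o76452130 0o451320) [.mk 1045 0o76053421 0o76423105 0o342105] [],
.mk (.mk 696 0o76304512 0o76235014 0o350124) [.mk 1142 0o76034521 0o76234105 0o134205] [],
.mk (.mk 716 0o76512043 0o76510342 0o205413) [.mk 1058 0o76543120 0o76543120 0o452310] [],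
.mk (.mk 696 0o76432501 0o76254301 0o254103) [.mk 1034 0o76243105 0o76043521 0o45321] [],
.mk (.mk 729 0o76541320 0o76542130 0o451320) [.mk 751 0o76324510 0o76235410 0o354210] [],
.mk (.mk 625 0o76514302 0o76532041 0o231054) [.mk 1019 0o76205314 0o76302514 0o32451, .mk 1041
0o76215403 0o76320541 0o132054] [],
.mk (.mk 980 0o76543210 0o76543210 0o543210) [.mk 1007 0o76145302 0o76342051 0o132504] [],
.mk (.mk 794 0o76452130 0o76451320 0o452130) [.mk 842 0o76543210 0o76543210 0o543210, .mk 825
0o76452301 0o76452301 0o53142, .mk 1084 0o76243150 0o76143520 0o245130] [],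
.mk (.mk 991 0o76543210 0o76543210 0o543210) [.mk 1123 0o76142350 0o76142350 0o21345] [],
.mk (.mk 767 0o76325410 0o76325410 0o235401) [.mk 1002 0o76531420 0o76524130 0o154320, .mk 609
0o76543210 0o76543210 0o543210] [],
.mk (.mk 657 0o76234105 0o76034521 0o32451) [.mk 989 0o76543210 0o76543210 0o453210] [],
.mk (.mk 773 0o76425301 0o76352401 0o350412) [.mk 1029 0o76405312 0o76352014 0o132540] [],
.mk (.mk 713 0o76103452 0o76123054 0o123054) [.mk 1031 0o76543210 0o76543210 0o543210, .mk 1018
0o76014253 0o76130245 0o21453] [],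
.mk (.mk 623 0o76543210 0o76543210 0o543210) [.mk 822 0o76435210 0o76354210 0o453210, .mk 786
0o76354102 0o76435021 0o142503] [],
.mk (.mk 705 0o76435210 0o76354210 0o354120) [.mk 616 0o76543210 0o76543210 0o543210] [],
.mk (.mk 694 0o76543210 0o76543210 0o543210) [.mk 1002 0o76034215 0o76034215 0o42315] [],
.mk (.mk 584 0o76543210 0o76543210 0o543210) [.mk 995 0o76412503 0o76250341 0o123504] [],
.mk (.mk 584 0o76520431 0o76521403 0o312450) [.mk 739 0o76543210 0o76543210 0o452310, .mk 849
0o76240531 0o76241503 0o213540] [],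
.mk (.mk 733 0o76315024 0o76305142 0o104523) [.mk 1010 0o76532410 0o76524310 0o254301, .mk 882
0o76543210 0o76543210 0o543210] [],
.mk (.mk 717 0o76432510 0o76254310 0o245301) [.mk 859 0o76543210 0o76543210 0o452301, .mk 717
0o76432510 0o76254310 0o354210]
[0x161640280520c00c01803008318021c308cd20011060068a082101306d4024bc108205ce30d700e26c2f10203212c0008810302c628de1889002600228e2090b84154bc00082d30ab,
0x160280108c00a1040008108e61c0088900201a0000028e401ed0c1024a480288108410cc080100e3282902129a00cc08c33007082004210420c0680518430c230ca40c3540000818e730a208154dc000831a41d],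
.mk (.mk 795 0o76432510 0o76254310 0o245301) [.mk 855 0o76543210 0o76543210 0o452301, .mk 1127
0o76104235 0o76031254 0o13452, .mk 1127 0o76104235 0o76031254 0o102543] [],
.mk (.mk 774 0o76432510 0o76254310 0o354210) [.mk 628 0o76543210 0o76543210 0o543210] [],
.mk (.mk 562 0o76543210 0o76543210 0o543210) [.mk 995 0o76543210 0o76543210 0o354210] [],
.mk (.mk 562 0o76543210 0o76543210 0o543210) [.mk 1110 0o76542130 0o76541320 0o153042] [],
.mk (.mk 562 0o76532401 0o76524301 0o251430) [.mk 1094 0o76534201 0o76534201 0o152430] [],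
.mk (.mk 811 0o76431502 0o76254031 0o231504) [.mk 1127 0o76251304 0o76402531 0o124053] [],
.mk (.mk 704 0o76543210 0o76543210 0o543210) [.mk 1026 0o76034152 0o76134025 0o321045] [],
.mk (.mk 780 0o76521430 0o76521430 0o315402) [.mk 1003 0o76531240 0o76514230 0o235401, .mk 780
0o76543210 0o76543210 0o543210] [],
.mk (.mk 659 0o76351402 0o76425031 0o304512) [.mk 774 0o76543210 0o76543210 0o543210] [],
.mk (.mk 760 0o76235410 0o76324510 0o305214) [.mk 833 0o76534012 0o76534012 0o123450] [],
.mk (.mk 806 0o76543210 0o76543210 0o543210) [.mk 926 0o76345210 0o76345210 0o354210] [],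
.mk (.mk 1038 0o76452130 0o76451320 0o53142) [.mk 837 0o76345210 0o76345210 0o354102, .mk 880
0o76504321 0o76532104 0o234105] [],
.mk (.mk 571 0o76543210 0o76543210 0o543210) [.mk 837 0o76251403 0o76420531 0o23541, .mk 884
0o76425310 0o76352410 0o453210] [],
.mk (.mk 760 0o76314205 0o76035241 0o23514) [.mk 795 0o76543210 0o76543210 0o543210] [],
.mk (.mk 760 0o76543021 0o76543102 0o143205) [.mk 889 0o76453210 0o76453210 0o453210, .mk 995
0o76413052 0o76153042 0o312540] [],
.mk (.mk 665 0o76453210 0o76453210 0o453210) [.mk 660 0o76543210 0o76543210 0o543210] [],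
.mk (.mk 738 0o76350421 0o76425103 0o241305) [.mk 755 0o76543210 0o76543210 0o453210] [],
.mk (.mk 698 0o76451203 0o76450231 0o150234) [.mk 685 0o76425103 0o76350421 0o251043] [],
.mk (.mk 789 0o76205341 0o76312504 0o324015) [.mk 1175 0o76024315 0o76032415 0o120435, .mk 925
0o76543210 0o76543210 0o543210] [],
.mk (.mk 753 0o76253410 0o76423510 0o453201) [.mk 915 0o76543210 0o76543210 0o543210, .mk 1142
0o76053241 0o76413205 0o34215] [],
.mk (.mk 818 0o76543210 0o76543210 0o543210) [.mk 1011 0o76253140 0o76413520 0o235401, .mk 815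
0o76254310 0o76432510 0o453210] [],
.mk (.mk 742 0o76453210 0o76453210 0o154230) [.mk 818 0o76432510 0o76254310 0o453120, .mk 911
0o76432501 0o76254301 0o250314] [],
.mk (.mk 747 0o76514203 0o76530241 0o41253) [.mk 781 0o76245310 0o76342510 0o453210] [],
.mk (.mk 678 0o76150243 0o76410253 0o230154) [.mk 1003 0o76301425 0o76025134 0o31542]
[0xa0042082080e2300500a0a10843580e8140160182088650e128c40dd41d11420848020140a40073061486394101244d0388a10c00824886388409e700600400041b081082054380154d000083088db],
.mk (.mk 727 0o76305412 0o76325014 0o103425) [.mk 814 0o76543210 0o76543210 0o543210, .mk 815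
0o76235410 0o76324510 0o453120] [],
.mk (.mk 814 0o76254310 0o76432510 0o453210) [.mk 1072 0o76253140 0o76413520 0o235401, .mk 818
0o76543210 0o76543210 0o543210] [],
.mk (.mk 588 0o76524103 0o76530421 0o204351) [.mk 1147 0o76345120 0o76345120 0o145230, .mk 881
0o76543210 0o76543210 0o543210] [],
.mk (.mk 588 0o76531240 0o76514230 0o354201) [.mk 1035 0o76420351 0o76152403 0o231540, .mk 885
0o76432051 0o76154302 0o150432] [],
.mk (.mk 588 0o76534210 0o76534210 0o453210) [.mk 1036 0o76524301 0o76532401 0o240531, .mk 820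
0o76435120 0o76354120 0o354012] []]

theorem v1100 : chkL Tab.T5 Tab.RT Tab.reps Tab.E2 Ker.cert7 D1100 1100 = true := by
  decide +kernel

end CR.C2
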