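import Pool.Agent.Lib.MP_6f5d36_co.Ker
import Pool.Agent.Lib.MP_6f5d36_co.RTab
import Pool.Agent.Lib.MP_6f5d36_co.C2.KerC
import Pool.Agent.Lib.MP_6f5d36_co.C2.ETab

/-! MP_6f5d36_co, case (ii), level 7 : the ranks 1200, ..., 1299 -/

set_option autoImplicit false
set_option maxRecDepth 100000

noncomputable section

namespace CR.C2

/-- the frames and certificates of the ranks 1200, ..., 1299 -/
def D1200 : List It :=
[.mk (.mk 1040 0o76543120 0o76543120 0o154320) [.mk 899 0o76534210 0o76534210 0o354102, .mk 1110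
0o76542130 0o76541320 0o53142] [],
.mk (.mk 589 0o76534120 0o76534120 0o453120) [.mk 1169 0o76254013 0o76430512 0o105432, .mk 641
0o76543210 0o76543210 0o543210] [],
.mk (.mk 574 0o76543210 0o76543210 0o543210) [.mk 890 0o76254013 0o76430512 0o14523, .mk 940
0o76245013 0o76340512 0o104523] [],
.mk (.mk 1006 0o76543210 0o76543210 0o254130) [.mk 934 0o76435210 0o76354210 0o453210, .mk 890
0o76245013 0o76340512 0o105234] [],
.mk (.mk 864 0o76324501 0o76235401 0o213405) [.mk 1041 0o76213405 0o76023541 0o21435, .mk 890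
0o76543210 0o76543210 0o543210] [],
.mk (.mk 774 0o76530142 0o76514023 0o140235) [.mk 774 0o76350412 0o76425013 0o250134] [],
.mk (.mk 754 0o76543210 0o76543210 0o543210) [.mk 782 0o76453120 0o76453120 0o453120, .mk 1018
0o76145032 0o76341052 0o41352] [],
.mk (.mk 714 0o76423501 0o76253401 0o240531) [.mk 1013 0o76510432 0o76521043 0o130425, .mk 864
0o76534210 0o76534210 0o453210] [],
.mk (.mk 687 0o76542310 0o76542310 0o254310) [.mk 851 0o76125043 0o76310452 0o15324] [],
.mk (.mk 820 0o76142053 0o76140352 0o105342) [.mk 899 0o76534120 0o76534120 0o453120, .mk 1023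
0o76542310 0o76542310 0o254310] [],
.mk (.mk 607 0o76534210 0o76534210 0o453210) [.mk 736 0o76431250 0o76154230 0o354201] [],
.mk (.mk 719 0o76514032 0o76531042 0o250341) [.mk 1068 0o76352410 0o76425310 0o345210, .mk 996
0o76514032 0o76531042 0o25341] [],
.mk (.mk 699 0o76431520 0o76254130 0o345201) [.mk 736 0o76543210 0o76543210 0o453210] [],
.mk (.mk 587 0o76543210 0o76543210 0o543210) [.mk 991 0o76352104 0o76405321 0o25341] [],
.mk (.mk 802 0o76152403 0o76420351 0o23451) [.mk 1140 0o76351024 0o76405132 0o105342] [],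
.mk (.mk 983 0o76523014 0o76503412 0o14523) [.mk 858 0o76530142 0o76514023 0o123054, .mk 927
0o76453120 0o76453120 0o453120, .mk 975 0o76241530 0o76241530 0o345210] [],
.mk (.mk 763 0o76132540 0o76214350 0o345120) [.mk 1076 0o76514302 0o76532041 0o52341, .mk 782
0o76543210 0o76543210 0o543210] [],
.mk (.mk 865 0o76435210 0o76354210 0o453210) [.mk 879 0o76504321 0o76532104 0o243105, .mk 934
0o76345120 0o76345120 0o354012] [],
.mk (.mk 763 0o76152043 0o76410352 0o15324) [.mk 1020 0o76543210 0o76543210 0o254130, .mk 1106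
0o76354021 0o76435102 0o150432] [],
.mk (.mk 689 0o76534210 0o76534210 0o452310) [.mk 1021 0o76534120 0o76534120 0o154320] [],
.mk (.mk 739 0o76435210 0o76354210 0o453210) [.mk 952 0o76523410 0o76523410 0o135402] [],
.mk (.mk 552 0o76530412 0o76524013 0o350124) [.mk 1151 0o76534210 0o76534210 0o453210] [],
.mk (.mk 563 0o76534210 0o76534210 0o452310) [.mk 963 0o76453201 0o76453201 0o240531, .mk 943
0o76435201 0o76354201 0o350412] [],
.mk (.mk 855 0o76234150 0o76134520 0o145230) [.mk 1193 0o76420531 0o76251403 0o23145, .mk 875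
0o76453210 0o76453210 0o354210] [],
.mk (.mk 592 0o76543102 0o76543021 0o405231) [.mk 895 0o76352401 0o76425301 0o340521, .mk 1125
0o76534102 0o76534021 0o45231] [],
.mk (.mk 681 0o76453210 0o76453210 0o453210) [.mk 992 0o76254103 0o76430521 0o45321] [],
.mk (.mk 563 0o76543210 0o76543210 0o543210) [.mk 1024 0o76543210 0o76543210 0o254310, .mk 766
0o76435210 0o76354210 0o453210] [],
.mk (.mk 691 0o76153042 0o76413052 0o321054) [.mk 892 0o76543210 0o76543210 0o543210] [],
.mk (.mk 803 0o76514230 0o76531240 0o314052) [.mk 803 0o76534210 0o76534210 0o453210, .mk 601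
0o76543210 0o76543210 0o543210] [],
.mk (.mk 803 0o76543210 0o76543210 0o543210) [.mk 995 0o76452310 0o76452310 0o350214] [],
.mk (.mk 732 0o76052143 0o76410325 0o321045) [.mk 823 0o76324150 0o76135420 0o154320] [],
.mk (.mk 580 0o76531204 0o76504231 0o43521) [.mk 1004 0o76512304 0o76502341 0o204531, .mk 779
0o76451203 0o76450231 0o305412] [],
.mk (.mk 690 0o76054321 0o76432105 0o341205) [.mk 1061 0o76435120 0o76354120 0o154320] [],
.mk (.mk 850 0o76051234 0o76401235 0o201354) [.mk 627 0o76543210 0o76543210 0o453210, .mk 879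
0o76340251 0o76145203 0o142305] [],
.mk (.mk 700 0o76534210 0o76534210 0o452310) [.mk 984 0o76543201 0o76543201 0o42531] [],
.mk (.mk 765 0o76543210 0o76543210 0o452310) [.mk 1099 0o76530241 0o76514203 0o132450, .mk 849
0o76240531 0o76241503 0o213540] [],
.mk (.mk 685 0o76513204 0o76503241 0o204153) [.mk 876 0o76435210 0o76354210 0o452310] [],
.mk (.mk 653 0o76530124 0o76504123 0o41523) [.mk 996 0o76420153 0o76150423 0o104523] [],
.mk (.mk 832 0o76405231 0o76351204 0o201354) [.mk 1085 0o76451320 0o76452130 0o451320, .mk 792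
0o76543210 0o76543210 0o543210] [],
.mk (.mk 832 0o76345210 0o76345210 0o453210) [.mk 874 0o76304521 0o76235104 0o203451] [],
.mk (.mk 609 0o76543210 0o76543210 0o543210) [.mk 1111 0o76450213 0o76450213 0o51432, .mk 937
0o76543201 0o76543201 0o251304] [],
.mk (.mk 615 0o76543120 0o76543120 0o452310) [.mk 1026 0o76430215 0o76054213 0o41352] [],
.mk (.mk 980 0o76451320 0o76452130 0o451320) [.mk 920 0o76543210 0o76543210 0o543210] [],
.mk (.mk 669 0o76543210 0o76543210 0o543210) [.mk 982 0o76451230 0o76451230 0o451230] [],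
.mk (.mk 669 0o76543210 0o76543210 0o543210) [.mk 983 0o76451320 0o76452130 0o451320] [],
.mk (.mk 698 0o76234501 0o76234501 0o125034) [.mk 983 0o76543210 0o76543210 0o543210] [],
.mk (.mk 883 0o76425310 0o76352410 0o354210) [.mk 1086 0o76430251 0o76154203 0o140523, .mk 635
0o76543120 0o76543120 0o452310] [],
.mk (.mk 768 0o76451230 0o76451230 0o451230) [.mk 859 0o76325410 0o76325410 0o352401, .mk 598
0o76354021 0o76435102 0o250413] [],
.mk (.mk 616 0o76325410 0o76325410 0o352401) [.mk 830 0o76543210 0o76543210 0o543210, .mk 1031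
0o76453102 0o76453021 0o24315] [],
.mk (.mk 985 0o76453210 0o76453210 0o354120) [.mk 616 0o76543210 0o76543210 0o543210] [],
.mk (.mk 843 0o76543210 0o76543210 0o452301) [.mk 1142 0o76542310 0o76542310 0o245301, .mk 843
0o76543210 0o76543210 0o543210] [],
.mk (.mk 761 0o76430512 0o76254013 0o203451) [.mk 917 0o76540312 0o76542013 0o32451] [],
.mk (.mk 582 0o76542310 0o76542310 0o453120) [.mk 942 0o76243501 0o76243501 0o123450] [],
.mk (.mk 777 0o76543210 0o76543210 0o453210) [.mk 859 0o76234501 0o76234501 0o123450, .mk 882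
0o76253401 0o76423501 0o213450] [],
.mk (.mk 564 0o76543120 0o76543120 0o452310) [.mk 1092 0o76340125 0o76045123 0o41253] [],
.mk (.mk 722 0o76235401 0o76324501 0o325014) [.mk 1088 0o76452310 0o76452310 0o152403] [],
.mk (.mk 693 0o76524310 0o76532410 0o354210) [.mk 968 0o76453201 0o76453201 0o253104] [],
.mk (.mk 695 0o76452031 0o76451302 0o240513) [.mk 867 0o76543210 0o76543210 0o543210, .mk 1124
0o76315402 0o76325041 0o35421] [],
.mk (.mk 705 0o76543210 0o76543210 0o543210) [.mk 961 0o76513024 0o76503142 0o21435] [],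
.mk (.mk 835 0o76142035 0o76041352 0o42153) [.mk 1043 0o76542130 0o76541320 0o452130, .mk 1032
0o76324501 0o76235401 0o235104] [],
.mk (.mk 994 0o76523401 0o76523401 0o34512) [.mk 867 0o76543210 0o76543210 0o543210] [],
.mk (.mk 1034 0o76432510 0o76254310 0o354210) [.mk 1115 0o76543210 0o76543210 0o543210] [],
.mk (.mk 677 0o76421530 0o76251430 0o145230) [.mk 1002 0o76102534 0o76201354 0o13542] [],
.mk (.mk 804 0o76251340 0o76412530 0o12534) [.mk 937 0o76543021 0o76543102 0o250431, .mk 1128
0o76543210 0o76543210 0o453210] [],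
.mk (.mk 982 0o76453210 0o76453210 0o453210) [.mk 1045 0o76524031 0o76531402 0o25341, .mk 895
0o76035421 0o76324105 0o341205] [],
.mk (.mk 692 0o76543210 0o76543210 0o543210) [.mk 982 0o76452130 0o76451320 0o452130] [],
.mk (.mk 713 0o76025143 0o76310425 0o201543) [.mk 1012 0o76543210 0o76543210 0o453210] [],
.mk (.mk 731 0o76523410 0o76523410 0o254310) [.mk 923 0o76452310 0o76452310 0o354210, .mk 798
0o76543210 0o76543210 0o543210] [],
.mk (.mk 689 0o76543210 0o76543210 0o543210) [.mk 838 0o76435210 0o76354210 0o452310] [],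
.mk (.mk 728 0o76543210 0o76543210 0o453210) [.mk 1053 0o76542130 0o76541320 0o145320, .mk 886
0o76314502 0o76235041 0o305421] [],
.mk (.mk 694 0o76435201 0o76354201 0o253104) [.mk 1032 0o76543210 0o76543210 0o453210] [],
.mk (.mk 1032 0o76542130 0o76541320 0o452130) [.mk 1016 0o76214053 0o76130542 0o21435, .mk 1074
0o76415032 0o76351042 0o120435] [],
.mk (.mk 658 0o76541320 0o76542130 0o451320) [.mk 1029 0o76502341 0o76512304 0o243105] [],
.mk (.mk 729 0o76354102 0o76435021 0o210534) [.mk 1128 0o76245301 0o76342501 0o125304] [],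
.mk (.mk 982 0o76543210 0o76543210 0o543210) [.mk 1019 0o76201534 0o76201534 0o13452] [],
.mk (.mk 976 0o76542310 0o76542310 0o254301) [.mk 752 0o76254013 0o76430512 0o15243] [],
.mk (.mk 760 0o76345102 0o76345021 0o142503) [.mk 855 0o76543210 0o76543210 0o543210] [],
.mk (.mk 760 0o76230514 0o76204513 0o213540) [.mk 760 0o76320514 0o76205413 0o302541] [],
.mk (.mk 795 0o76543210 0o76543210 0o543210) [.mk 1175 0o76510243 0o76510243 0o105432, .mk 833
0o76451302 0o76452031 0o305241] [],
.mk (.mk 806 0o76215403 0o76320541 0o132054) [.mk 1155 0o76543210 0o76543210 0o543210, .mk 914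
0o76435210 0o76354210 0o452301] [],
.mk (.mk 806 0o76543210 0o76543210 0o543210) [.mk 834 0o76435120 0o76354120 0o351042, .mk 833
0o76514032 0o76531042 0o123054] [],
.mk (.mk 834 0o76153042 0o76413052 0o312450) [.mk 833 0o76543210 0o76543210 0o543210] [],
.mk (.mk 779 0o76512340 0o76512340 0o21435) [.mk 861 0o76435210 0o76354210 0o452301] [],
.mk (.mk 773 0o76534210 0o76534210 0o453210) [.mk 1003 0o76250143 0o76410523 0o105234] [],
.mk (.mk 773 0o76432510 0o76254310 0o354120) [.mk 1017 0o76532104 0o76504321 0o54321, .mk 943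
0o76435210 0o76354210 0o453210] [],
.mk (.mk 824 0o76045213 0o76340215 0o124305) [.mk 1011 0o76423510 0o76253410 0o354120, .mk 937
0o76054213 0o76430215 0o214305] [],
.mk (.mk 613 0o76543210 0o76543210 0o543210) [.mk 1112 0o76435210 0o76354210 0o452310, .mk 824
0o76534201 0o76534201 0o152304] [],
.mk (.mk 656 0o76423510 0o76253410 0o354210) [.mk 1044 0o76543210 0o76543210 0o453210, .mk 761
0o76204531 0o76231504 0o134025] [],
.mk (.mk 703 0o76543210 0o76543210 0o543210) [.mk 835 0o76250413 0o76420513 0o304125] [],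
.mk (.mk 716 0o76534021 0o76534102 0o352104) [.mk 977 0o76402153 0o76150324 0o231045, .mk 1026
0o76534210 0o76534210 0o453210] [],
.mk (.mk 552 0o76543012 0o76543012 0o450123) [.mk 833 0o76452310 0o76452310 0o354120] [],
.mk (.mk 718 0o76452310 0o76452310 0o453120) [.mk 835 0o76514032 0o76531042 0o250341] [],
.mk (.mk 782 0o76350241 0o76415203 0o213405) [.mk 950 0o76543210 0o76543210 0o543210, .mk 1075
0o76430125 0o76054123 0o12435]
[0x31aa68042630281404205021c42920044040604001c8c1010dc2a4200825832da5898490324106a22a4321b4140e581dc201b39300110bc0008281a8c],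
.mk (.mk 789 0o76215340 0o76312540 0o320415) [.mk 1067 0o76125340 0o76312450 0o234051] [],
.mk (.mk 760 0o76543210 0o76543210 0o543210) [.mk 906 0o76402513 0o76250314 0o125304] [],
.mk (.mk 915 0o76534210 0o76534210 0o453201) [.mk 1111 0o76523410 0o76523410 0o45321, .mk 915
0o76543210 0o76543210 0o543210] [],
.mk (.mk 569 0o76543210 0o76543210 0o543210) [.mk 1004 0o76024513 0o76230415 0o41235] [],
.mk (.mk 985 0o76453210 0o76453210 0o154230) [.mk 762 0o76345102 0o76345021 0o52143] [],
.mk (.mk 570 0o76543210 0o76543210 0o543210) [.mk 1034 0o76452013 0o76450312 0o52134, .mk 1137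
0o76435012 0o76354012 0o250314] [],
.mk (.mk 685 0o76453210 0o76453210 0o453210) [.mk 1000 0o76210345 0o76012543 0o102435] []]

theorem v1200 : chkL Tab.T5 Tab.RT Tab.reps Tab.E2 Ker.cert7 D1200 1200 = true := by
  decide +kernel

end CR.C2
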