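import Pool.Agent.Lib.MP_6f5d36_co.Ker
import Pool.Agent.Lib.MP_6f5d36_co.RTab
import Pool.Agent.Lib.MP_6f5d36_co.C2.KerC
import Pool.Agent.Lib.MP_6f5d36_co.C2.ETab

/-! MP_6f5d36_co, case (ii), level 7 : the ranks 1300, ..., 1399 -/

set_option autoImplicit false
set_option maxRecDepth 100000

noncomputable section

namespace CR.C2

/-- the frames and certificates of the ranks 1300, ..., 1399 -/
def D1300 : List It :=
[.mk (.mk 685 0o76543210 0o76543210 0o254130) [.mk 940 0o76435210 0o76354210 0o453210, .mk 827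
0o76213540 0o76213540 0o345201] [],
.mk (.mk 818 0o76543210 0o76543210 0o543210) [.mk 1060 0o76253140 0o76413520 0o235401, .mk 846
0o76510423 0o76520143 0o13254] [],
.mk (.mk 781 0o76543210 0o76543210 0o543210) [.mk 911 0o76245310 0o76342510 0o453210, .mk 1055
0o76045231 0o76341205 0o241305] [],
.mk (.mk 781 0o76354210 0o76435210 0o453210) [.mk 827 0o76520413 0o76520413 0o103452, .mk 929
0o76543210 0o76543210 0o543210] [],
.mk (.mk 680 0o76235401 0o76324501 0o235014) [.mk 755 0o76154230 0o76431250 0o345201] [],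
.mk (.mk 586 0o76534120 0o76534120 0o453120) [.mk 1025 0o76524130 0o76531420 0o145230, .mk 820
0o76435210 0o76354210 0o354102] [],
.mk (.mk 589 0o76534210 0o76534210 0o453210) [.mk 1068 0o76543120 0o76543120 0o154320, .mk 820
0o76435120 0o76354120 0o354012] [],
.mk (.mk 731 0o76524301 0o76532401 0o240531) [.mk 1084 0o76325140 0o76315420 0o145230] [],
.mk (.mk 670 0o76350214 0o76405213 0o21453) [.mk 712 0o76540213 0o76540213 0o201453] [],
.mk (.mk 725 0o76543210 0o76543210 0o543210) [.mk 1162 0o76425103 0o76350421 0o13452, .mk 927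
0o76453120 0o76453120 0o453120] [],
.mk (.mk 725 0o76543210 0o76543210 0o543210) [.mk 1060 0o76432510 0o76254310 0o254310, .mk 820
0o76514023 0o76530142 0o14235] [],
.mk (.mk 720 0o76245013 0o76340512 0o105324) [.mk 1126 0o76542310 0o76542310 0o254310, .mk 820
0o76435120 0o76354120 0o453120] [],
.mk (.mk 589 0o76521043 0o76510432 0o105243) [.mk 1001 0o76451320 0o76452130 0o253401, .mk 934
0o76341250 0o76145230 0o354201] [],
.mk (.mk 589 0o76534210 0o76534210 0o354102) [.mk 1099 0o76543210 0o76543210 0o254310, .mk 890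
0o76435210 0o76354210 0o453210] [],
.mk (.mk 708 0o76432510 0o76254310 0o254310) [.mk 872 0o76453120 0o76453120 0o453120, .mk 890
0o76543210 0o76543210 0o543210] [],
.mk (.mk 1013 0o76453210 0o76453210 0o254130) [.mk 890 0o76435120 0o76354120 0o453120, .mk 837
0o76215034 0o76301542 0o105324] [],
.mk (.mk 837 0o76345210 0o76345210 0o354102) [.mk 1084 0o76235410 0o76324510 0o135042]
[0x210600404106180110023515b050cc500063a1306410000024480802d10134820480b206dc08e0080020641430863240b041549000082db642],
.mk (.mk 847 0o76541230 0o76541230 0o354021) [.mk 1117 0o76350124 0o76405123 0o203514, .mk 796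
0o76251043 0o76410532 0o15324] [],
.mk (.mk 820 0o76435210 0o76354210 0o453210) [.mk 1148 0o76213054 0o76103542 0o15324, .mk 936
0o76514230 0o76531240 0o345102] [],
.mk (.mk 1000 0o76542310 0o76542310 0o254310) [.mk 872 0o76254013 0o76430512 0o105432] [],
.mk (.mk 617 0o76531240 0o76514230 0o354201) [.mk 1093 0o76542310 0o76542310 0o254310, .mk 1188
0o76543120 0o76543120 0o453120] [],
.mk (.mk 1007 0o76043152 0o76143025 0o104325) [.mk 1061 0o76543210 0o76543210 0o254310, .mk 872
0o76435210 0o76354210 0o453210]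
[0x84821004140120204000912201411908243040a7894958b0830c240144100026200215880b208c038cc11200038880201e010981905e290cad608010840282c114cc00082db642],
.mk (.mk 818 0o76543210 0o76543210 0o543210) [.mk 1062 0o76320514 0o76205413 0o103425, .mk 815
0o76253410 0o76423510 0o453120] [],
.mk (.mk 544 0o76534120 0o76534120 0o453120) [.mk 1064 0o76304521 0o76235104 0o243105, .mk 949
0o76345021 0o76345102 0o51342] [],
.mk (.mk 1033 0o76542310 0o76542310 0o254310) [.mk 934 0o76125034 0o76301452 0o15243, .mk 641
0o76543210 0o76543210 0o543210] [],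
.mk (.mk 677 0o76453210 0o76453210 0o154230) [.mk 826 0o76234501 0o76234501 0o250134] [],
.mk (.mk 589 0o76531240 0o76514230 0o354201) [.mk 1040 0o76542310 0o76542310 0o254310, .mk 935
0o76213054 0o76103542 0o105324, .mk 641 0o76543210 0o76543210 0o543210] [],
.mk (.mk 617 0o76543210 0o76543210 0o543210) [.mk 1075 0o76351204 0o76405231 0o25341, .mk 945
0o76240351 0o76142503 0o123504] [],
.mk (.mk 783 0o76543210 0o76543210 0o543210) [.mk 1136 0o76420513 0o76250413 0o203451, .mk 827
0o76520314 0o76502413 0o23415] [],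
.mk (.mk 716 0o76513240 0o76513240 0o12354) [.mk 1121 0o76350241 0o76415203 0o230541, .mk 923
0o76315240 0o76315240 0o102354] [],
.mk (.mk 769 0o76523401 0o76523401 0o123450) [.mk 921 0o76235410 0o76324510 0o245130, .mk 944
0o76452310 0o76452310 0o354120] [],
.mk (.mk 721 0o76543210 0o76543210 0o543210) [.mk 807 0o76405321 0o76352104 0o210543, .mk 807
0o76450321 0o76452103 0o310542] [],
.mk (.mk 578 0o76543210 0o76543210 0o452310) [.mk 875 0o76453120 0o76453120 0o352401, .mk 1112
0o76542103 0o76540321 0o45231] [],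
.mk (.mk 784 0o76453210 0o76453210 0o452310) [.mk 791 0o76543210 0o76543210 0o543210, .mk 916
0o76520314 0o76502413 0o203415] [],
.mk (.mk 665 0o76425130 0o76351420 0o154230) [.mk 1044 0o76251304 0o76402531 0o305142, .mk 784
0o76543210 0o76543210 0o543210] [],
.mk (.mk 701 0o76435210 0o76354210 0o452310) [.mk 1038 0o76513240 0o76513240 0o214503, .mk 784
0o76543210 0o76543210 0o543210] [],
.mk (.mk 784 0o76453210 0o76453210 0o452310) [.mk 791 0o76543210 0o76543210 0o543210, .mk 916
0o76502314 0o76502314 0o201534] [],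
.mk (.mk 601 0o76543210 0o76543210 0o543210) [.mk 1055 0o76405231 0o76351204 0o241305, .mk 1051
0o76315240 0o76315240 0o314502] [],
.mk (.mk 791 0o76543210 0o76543210 0o543210) [.mk 1045 0o76045231 0o76341205 0o142305] [],
.mk (.mk 772 0o76534210 0o76534210 0o452310) [.mk 994 0o76140523 0o76240153 0o302451, .mk 601
0o76543210 0o76543210 0o543210] [],
.mk (.mk 578 0o76543210 0o76543210 0o453210) [.mk 1140 0o76231504 0o76204531 0o204351, .mk 1125
0o76542103 0o76540321 0o45321] [],
.mk (.mk 1070 0o76405132 0o76351024 0o12453) [.mk 1110 0o76341052 0o76145032 0o231504, .mk 631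
0o76523140 0o76513420 0o153402] [],
.mk (.mk 772 0o76354210 0o76435210 0o452310) [.mk 785 0o76350412 0o76425013 0o302451] [],
.mk (.mk 656 0o76054321 0o76432105 0o341205) [.mk 715 0o76354210 0o76435210 0o453210] [],
.mk (.mk 593 0o76354210 0o76435210 0o452310) [.mk 784 0o76543210 0o76543210 0o543210] [],
.mk (.mk 593 0o76543210 0o76543210 0o453210) [.mk 794 0o76352140 0o76415320 0o315402, .mk 1139
0o76543102 0o76543021 0o45231] [],
.mk (.mk 784 0o76543210 0o76543210 0o543210) [.mk 787 0o76351204 0o76405231 0o305142, .mk 838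
0o76053421 0o76423105 0o423105] [],
.mk (.mk 577 0o76543210 0o76543210 0o543210) [.mk 995 0o76542310 0o76542310 0o354210] [],
.mk (.mk 680 0o76543210 0o76543210 0o543210) [.mk 701 0o76543210 0o76543210 0o453210] [],
.mk (.mk 713 0o76514302 0o76532041 0o35421) [.mk 624 0o76315402 0o76325041 0o305421] [],
.mk (.mk 701 0o76345210 0o76345210 0o453210) [.mk 1122 0o76210435 0o76021543 0o203154] [],
.mk (.mk 996 0o76140352 0o76142053 0o140253) [.mk 942 0o76325410 0o76325410 0o352401] [],
.mk (.mk 878 0o76451230 0o76451230 0o451230) [.mk 822 0o76542031 0o76541302 0o25413] [],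
.mk (.mk 1000 0o76421035 0o76051432 0o41235) [.mk 1025 0o76214530 0o76231540 0o325041] [],
.mk (.mk 675 0o76521043 0o76510432 0o205413) [.mk 1024 0o76321540 0o76215430 0o145230] [],
.mk (.mk 583 0o76541320 0o76542130 0o451320) [.mk 1139 0o76352104 0o76405321 0o42315, .mk 830
0o76543210 0o76543210 0o543210] [],
.mk (.mk 811 0o76423510 0o76253410 0o354120) [.mk 1118 0o76125304 0o76302451 0o125340, .mk 811
0o76453210 0o76453210 0o453210] [],
.mk (.mk 874 0o76041352 0o76142035 0o130425) [.mk 892 0o76543210 0o76543210 0o543210] [],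
.mk (.mk 700 0o76543210 0o76543210 0o543210) [.mk 1064 0o76534210 0o76534210 0o453210] [],
.mk (.mk 809 0o76230541 0o76214503 0o213450) [.mk 1030 0o76453210 0o76453210 0o452310, .mk 874
0o76430521 0o76254103 0o312540] [],
.mk (.mk 716 0o76512043 0o76510342 0o13254) [.mk 904 0o76245310 0o76342510 0o325401] [],
.mk (.mk 609 0o76543210 0o76543210 0o543210) [.mk 1093 0o76532140 0o76514320 0o143502, .mk 921
0o76452310 0o76452310 0o352401] [],
.mk (.mk 677 0o76201534 0o76201534 0o102534) [.mk 894 0o76453210 0o76453210 0o453210] [],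
.mk (.mk 1012 0o76542310 0o76542310 0o453120) [.mk 1145 0o76043125 0o76043125 0o204315]
[0x3986125006cd28707f6000200d22e080c1a1d120421c908120a4098720542041c0220d1104380008540ea004008201060c01b8511420c5283631040860900014c900608960601d402872546154190e0000834d819,
0x401600480806002a428021a119a00c702b201234c0188400498400630206208c8081184750c20510e6100408a31c03d8088212822840383102c0c0f84803af6d81102131a0243030332238c190dc000834d829,
0x8049040c411421520200c49c68442db8438840808411030018428c10528490478088c20450000018c38028078008860850038c28c09019030010042cd8c404381f00e18134280618088004b810055a008c28438c194e0000835d223,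
0x20c010f8fd8c400a40281403818310f9478410180400ae84084099200284180508100b04118580f8d11000088c8a0304504800a04ca860401c289084884200188730518580981a1408c104109f94818f8c404194dc000835da23],
.mk (.mk 1075 0o76104523 0o76230154 0o31452) [.mk 932 0o76425310 0o76352410 0o354210, .mk 1050
0o76452130 0o76451320 0o452130] [],
.mk (.mk 729 0o76453210 0o76453210 0o453210) [.mk 956 0o76543012 0o76543012 0o24153, .mk 841
0o76543210 0o76543210 0o543210] [],
.mk (.mk 1011 0o76432015 0o76054312 0o12435) [.mk 867 0o76452310 0o76452310 0o453120, .mk 841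
0o76543210 0o76543210 0o543210] [],
.mk (.mk 676 0o76324510 0o76235410 0o354210) [.mk 977 0o76032451 0o76124305 0o12453] [],
.mk (.mk 1005 0o76251430 0o76421530 0o145230) [.mk 637 0o76543021 0o76543102 0o250413, .mk 1015
0o76542031 0o76541302 0o25143] [],
.mk (.mk 1005 0o76350124 0o76405123 0o41253) [.mk 1149 0o76543210 0o76543210 0o543210] [],
.mk (.mk 741 0o76543210 0o76543210 0o453210) [.mk 984 0o76543210 0o76543210 0o543210, .mk 630
0o76514320 0o76532140 0o230415] [],
.mk (.mk 767 0o76452310 0o76452310 0o453120) [.mk 1007 0o76352401 0o76425301 0o34521, .mk 1037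
0o76245310 0o76342510 0o235401] [],
.mk (.mk 1010 0o76352401 0o76425301 0o34512) [.mk 767 0o76543210 0o76543210 0o453210] [],
.mk (.mk 621 0o76543210 0o76543210 0o543210) [.mk 1052 0o76351402 0o76425031 0o35421, .mk 1158
0o76532140 0o76514320 0o143502] [],
.mk (.mk 692 0o76543210 0o76543210 0o543210) [.mk 799 0o76401235 0o76051234 0o15324]
[0x125a0300180500e0181105b2383242306728c4684604212864c2684431048c4004901c20028d2b28648001816002164074971245688b184312349468053321110e8610c40946200154d00008309a5c],
.mk (.mk 621 0o76543210 0o76543210 0o543210) [.mk 1068 0o76325140 0o76315420 0o245310, .mk 1051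
0o76543210 0o76543210 0o453210] [],
.mk (.mk 566 0o76513420 0o76523140 0o314052) [.mk 981 0o76543210 0o76543210 0o543210] [],
.mk (.mk 1016 0o76231054 0o76104532 0o104235) [.mk 920 0o76543210 0o76543210 0o543210, .mk 776
0o76325410 0o76325410 0o352401] [],
.mk (.mk 706 0o76435201 0o76354201 0o253104) [.mk 994 0o76431520 0o76254130 0o154230, .mk 599
0o76524310 0o76532410 0o354210] [],
.mk (.mk 791 0o76435210 0o76354210 0o453210) [.mk 832 0o76542310 0o76542310 0o354120] [],
.mk (.mk 650 0o76014523 0o76230145 0o203415) [.mk 1059 0o76031452 0o76124035 0o130524] [],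
.mk (.mk 984 0o76421305 0o76052431 0o53241) [.mk 1004 0o76312504 0o76205341 0o205431] [],
.mk (.mk 784 0o76453210 0o76453210 0o452310) [.mk 791 0o76543210 0o76543210 0o543210, .mk 849
0o76524031 0o76531402 0o213540] [],
.mk (.mk 1010 0o76314205 0o76035241 0o34521) [.mk 1086 0o76453021 0o76453102 0o250431, .mk 875
0o76432510 0o76254310 0o152403] [],
.mk (.mk 977 0o76301254 0o76105234 0o12534) [.mk 894 0o76453210 0o76453210 0o453210, .mk 996
0o76130452 0o76124053 0o140253] [],
.mk (.mk 599 0o76504132 0o76531024 0o203451) [.mk 1123 0o76341520 0o76245130 0o154230] [],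
.mk (.mk 711 0o76430215 0o76054213 0o41352) [.mk 997 0o76425130 0o76351420 0o245310] [],
.mk (.mk 711 0o76354021 0o76435102 0o250431) [.mk 741 0o76451320 0o76452130 0o451320] [],
.mk (.mk 989 0o76541320 0o76542130 0o451320) [.mk 768 0o76543210 0o76543210 0o543210] [],
.mk (.mk 722 0o76253410 0o76423510 0o215403) [.mk 1095 0o76231450 0o76124530 0o12453, .mk 916
0o76324510 0o76235410 0o354210] [],
.mk (.mk 1040 0o76130524 0o76204153 0o15342) [.mk 1031 0o76543210 0o76543210 0o543210, .mk 1032
0o76452310 0o76452310 0o453120] [],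
.mk (.mk 723 0o76453210 0o76453210 0o453210) [.mk 982 0o76543210 0o76543210 0o543210, .mk 789
0o76325410 0o76325410 0o230514] [],
.mk (.mk 616 0o76542301 0o76542301 0o231540) [.mk 901 0o76453210 0o76453210 0o453210, .mk 867
0o76543210 0o76543210 0o543210, .mk 993 0o76451230 0o76451230 0o21435] [],
.mk (.mk 705 0o76425310 0o76352410 0o354210) [.mk 1015 0o76453021 0o76453102 0o42351, .mk 842
0o76542130 0o76541320 0o452130] [],
.mk (.mk 873 0o76452103 0o76450321 0o13425) [.mk 842 0o76543201 0o76543201 0o102345, .mk 878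
0o76135402 0o76324051 0o320514] [],
.mk (.mk 873 0o76543120 0o76543120 0o452310) [.mk 888 0o76453102 0o76453021 0o53241, .mk 878
0o76315420 0o76325140 0o214503] [],
.mk (.mk 747 0o76531402 0o76524031 0o230514) [.mk 809 0o76341025 0o76045132 0o24513, .mk 867
0o76543210 0o76543210 0o543210] [],
.mk (.mk 705 0o76510234 0o76501243 0o15423) [.mk 1023 0o76135240 0o76314250 0o243501] [],
.mk (.mk 673 0o76543210 0o76543210 0o543210) [.mk 809 0o76532041 0o76514302 0o312540] [],
.mk (.mk 832 0o76425310 0o76352410 0o354210) [.mk 867 0o76452130 0o76451320 0o452130, .mk 1043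
0o76254013 0o76430512 0o21453] []]

theorem v1300 : chkL Tab.T5 Tab.RT Tab.reps Tab.E2 Ker.cert7 D1300 1300 = true := by
  decide +kernel

end CR.C2
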