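import Pool.Agent.Lib.MP_6f5d36_co.Ker
import Pool.Agent.Lib.MP_6f5d36_co.RTab
import Pool.Agent.Lib.MP_6f5d36_co.C2.KerC
import Pool.Agent.Lib.MP_6f5d36_co.C2.ETab

/-! MP_6f5d36_co, case (ii), level 7 : the ranks 1400, ..., 1499 -/

set_option autoImplicit false
set_option maxRecDepth 100000

noncomputable section

namespace CR.C2

/-- the frames and certificates of the ranks 1400, ..., 1499 -/
def D1400 : List It :=
[.mk (.mk 729 0o76453120 0o76453120 0o452310) [.mk 832 0o76325410 0o76325410 0o354210, .mk 920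
0o76543210 0o76543210 0o543210] [],
.mk (.mk 1031 0o76541230 0o76541230 0o451230) [.mk 1098 0o76432510 0o76254310 0o354210, .mk 635
0o76543210 0o76543210 0o543210] [],
.mk (.mk 742 0o76523401 0o76523401 0o135024) [.mk 616 0o76543210 0o76543210 0o543210, .mk 1126
0o76350241 0o76415203 0o201543] [],
.mk (.mk 787 0o76312504 0o76205341 0o215340) [.mk 1061 0o76054321 0o76432105 0o42315, .mk 922
0o76435210 0o76354210 0o453210] [],
.mk (.mk 659 0o76413502 0o76253041 0o215430) [.mk 1041 0o76213450 0o76123540 0o21435] [],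
.mk (.mk 696 0o76510423 0o76520143 0o302514) [.mk 717 0o76412305 0o76052341 0o34152, .mk 747
0o76543120 0o76543120 0o452310] [],
.mk (.mk 628 0o76051432 0o76421035 0o201345) [.mk 1137 0o76041325 0o76042135 0o120435, .mk 1070
0o76041532 0o76241035 0o21345] [],
.mk (.mk 672 0o76321540 0o76215430 0o235041) [.mk 1034 0o76534102 0o76534021 0o54321] [],
.mk (.mk 628 0o76534201 0o76534201 0o253104) [.mk 1118 0o76315402 0o76325041 0o35241, .mk 1052
0o76542130 0o76541320 0o452130] [],
.mk (.mk 779 0o76435210 0o76354210 0o453210) [.mk 998 0o76520413 0o76520413 0o53214] [],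
.mk (.mk 808 0o76521430 0o76521430 0o135402) [.mk 923 0o76430521 0o76254103 0o352104, .mk 1048
0o76154230 0o76431250 0o42513] [],
.mk (.mk 770 0o76523401 0o76523401 0o245013) [.mk 1098 0o76543021 0o76543102 0o352104, .mk 1147
0o76350241 0o76415203 0o102534] [],
.mk (.mk 557 0o76354210 0o76435210 0o453210) [.mk 1190 0o76431205 0o76054231 0o53412, .mk 889
0o76345021 0o76345102 0o140532] [],
.mk (.mk 1002 0o76034215 0o76034215 0o120534) [.mk 835 0o76135042 0o76314052 0o321540, .mk 1071
0o76543210 0o76543210 0o543210] [],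
.mk (.mk 986 0o76512304 0o76502341 0o53142) [.mk 1088 0o76541203 0o76540231 0o150234, .mk 787
0o76425103 0o76350421 0o251043] [],
.mk (.mk 568 0o76543210 0o76543210 0o453210) [.mk 1045 0o76432501 0o76254301 0o41523] [],
.mk (.mk 572 0o76253401 0o76423501 0o250314) [.mk 1019 0o76543210 0o76543210 0o154230, .mk 611
0o76532410 0o76524310 0o453210] [],
.mk (.mk 571 0o76523401 0o76523401 0o250134) [.mk 999 0o76453210 0o76453210 0o154230] [],
.mk (.mk 978 0o76214053 0o76130542 0o132054) [.mk 571 0o76543210 0o76543210 0o543210] [],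
.mk (.mk 769 0o76534021 0o76534102 0o251304) [.mk 1065 0o76523041 0o76513402 0o125304, .mk 611
0o76543210 0o76543210 0o543210] [],
.mk (.mk 611 0o76354210 0o76435210 0o453120) [.mk 929 0o76543210 0o76543210 0o543210, .mk 879
0o76534021 0o76534102 0o142305] [],
.mk (.mk 543 0o76543210 0o76543210 0o543210) [.mk 639 0o76531042 0o76514032 0o320154, .mk 1201
0o76351024 0o76405132 0o23514] [],
.mk (.mk 550 0o76543210 0o76543210 0o543210) [.mk 865 0o76251403 0o76420531 0o204531, .mk 1103
0o76534120 0o76534120 0o145230] [],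
.mk (.mk 551 0o76543210 0o76543210 0o543210) [.mk 921 0o76453201 0o76453201 0o231540, .mk 905
0o76435210 0o76354210 0o453210] [],
.mk (.mk 697 0o76534102 0o76534021 0o42513) [.mk 606 0o76534120 0o76534120 0o354012, .mk 574
0o76534120 0o76534120 0o453120] [],
.mk (.mk 801 0o76512340 0o76512340 0o345021) [.mk 1045 0o76304251 0o76135204 0o31425] [],
.mk (.mk 714 0o76524301 0o76532401 0o240531) [.mk 864 0o76435210 0o76354210 0o453210] [],
.mk (.mk 712 0o76503241 0o76513204 0o143205) [.mk 1083 0o76542310 0o76542310 0o254130]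
[0xa004044240021861000690331807cc218b04c10c4689a5183002900a032124c004311072808817000f1c2b89a20072ceb04800211dc5a4c20400804843b2c60c8084154c000082eb642],
.mk (.mk 714 0o76542103 0o76540321 0o204153) [.mk 864 0o76253014 0o76403512 0o15234, .mk 890
0o76245013 0o76340512 0o105234]
[0x182b120140640450010c67713b3002504c050ec30312c400834820c30020084d342069a1502c129240df32083c204a44228088025802c0260003e0110d000082e9765],
.mk (.mk 782 0o76254013 0o76430512 0o15432) [.mk 1073 0o76543210 0o76543210 0o254130, .mk 820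
0o76145023 0o76340152 0o105342] [],
.mk (.mk 782 0o76534210 0o76534210 0o354102) [.mk 849 0o76453210 0o76453210 0o254310] [],
.mk (.mk 587 0o76524031 0o76531402 0o105234) [.mk 1083 0o76543210 0o76543210 0o254130, .mk 865
0o76435120 0o76354120 0o453120] [],
.mk (.mk 1015 0o76240513 0o76240513 0o132045) [.mk 927 0o76340521 0o76245103 0o230415, .mk 872
0o76453210 0o76453210 0o453210] [],
.mk (.mk 1060 0o76432510 0o76254310 0o254310) [.mk 890 0o76543210 0o76543210 0o543210, .mk 940
0o76521043 0o76510432 0o14325] [],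
.mk (.mk 656 0o76035412 0o76324015 0o123045) [.mk 588 0o76152403 0o76420351 0o204153] [],
.mk (.mk 720 0o76245013 0o76340512 0o15243) [.mk 761 0o76542310 0o76542310 0o254310] [],
.mk (.mk 589 0o76543210 0o76543210 0o543210) [.mk 1068 0o76530421 0o76524103 0o135024, .mk 1184
0o76254103 0o76430521 0o203541] [],
.mk (.mk 704 0o76504321 0o76532104 0o243105) [.mk 865 0o76435210 0o76354210 0o453210, .mk 1084
0o76543120 0o76543120 0o154320] [],
.mk (.mk 899 0o76543210 0o76543210 0o543210) [.mk 1088 0o76340521 0o76245103 0o135024, .mk 638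
0o76351420 0o76425130 0o354102, .mk 934 0o76524103 0o76530421 0o23451] [],
.mk (.mk 787 0o76542310 0o76542310 0o254130) [.mk 1013 0o76350142 0o76415023 0o102543, .mk 1006
0o76452130 0o76451320 0o53142] [],
.mk (.mk 820 0o76415023 0o76350142 0o15234) [.mk 1033 0o76451320 0o76452130 0o253401, .mk 836
0o76435120 0o76354120 0o453120] [],
.mk (.mk 720 0o76351240 0o76415230 0o354102) [.mk 1084 0o76350412 0o76425013 0o130542] [],
.mk (.mk 869 0o76310542 0o76215043 0o231540) [.mk 872 0o76503214 0o76503214 0o103254, .mk 872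
0o76543210 0o76543210 0o543210] [],
.mk (.mk 783 0o76543210 0o76543210 0o543210) [.mk 1051 0o76142503 0o76240351 0o240153, .mk 858
0o76453210 0o76453210 0o453210] [],
.mk (.mk 979 0o76453102 0o76453021 0o152430) [.mk 548 0o76543210 0o76543210 0o543210] [],
.mk (.mk 766 0o76435210 0o76354210 0o453210) [.mk 843 0o76432510 0o76254310 0o351402, .mk 1019
0o76043215 0o76043215 0o42315] [],
.mk (.mk 977 0o76524103 0o76530421 0o45321) [.mk 764 0o76543210 0o76543210 0o452310] [],
.mk (.mk 777 0o76541320 0o76542130 0o451320) [.mk 824 0o76453210 0o76453210 0o354210, .mk 1028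
0o76354201 0o76435201 0o253104] [],
.mk (.mk 838 0o76453210 0o76453210 0o452310) [.mk 938 0o76051243 0o76410235 0o310245, .mk 1112
0o76245103 0o76340521 0o42531] [],
.mk (.mk 839 0o76324105 0o76035421 0o53421) [.mk 1030 0o76435210 0o76354210 0o453210, .mk 838
0o76543210 0o76543210 0o543210]
[0x1088cfe8a7040a04e8d0066a2046884670004418df01d349419951080068580152340c8380f34068c47990804e14dd89810a65c0b280215c100349c102254048400004140190c8000831511a],
.mk (.mk 575 0o76543210 0o76543210 0o543210) [.mk 1064 0o76534210 0o76534210 0o453210, .mk 928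
0o76534210 0o76534210 0o354210] [],
.mk (.mk 791 0o76543210 0o76543210 0o543210) [.mk 601 0o76543210 0o76543210 0o453210, .mk 886
0o76351402 0o76425031 0o305421] [],
.mk (.mk 806 0o76543210 0o76543210 0o543210) [.mk 811 0o76352410 0o76425310 0o305124] [],
.mk (.mk 811 0o76531402 0o76524031 0o231504) [.mk 1113 0o76534210 0o76534210 0o452301, .mk 995
0o76451203 0o76450231 0o124503] [],
.mk (.mk 660 0o76051432 0o76421035 0o410325) [.mk 977 0o76513024 0o76503142 0o52341] [],
.mk (.mk 681 0o76153042 0o76413052 0o321054) [.mk 892 0o76543210 0o76543210 0o543210] [],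
.mk (.mk 989 0o76213504 0o76203541 0o201453) [.mk 1022 0o76543120 0o76543120 0o351402] [],
.mk (.mk 772 0o76534210 0o76534210 0o452310) [.mk 994 0o76140523 0o76240153 0o302451, .mk 1060
0o76315240 0o76315240 0o214503] [],
.mk (.mk 673 0o76534210 0o76534210 0o452310) [.mk 784 0o76543210 0o76543210 0o543210] [],
.mk (.mk 680 0o76543210 0o76543210 0o543210) [.mk 1079 0o76543210 0o76543210 0o453210] [],
.mk (.mk 723 0o76543120 0o76543120 0o452310) [.mk 982 0o76543210 0o76543210 0o543210] [],
.mk (.mk 821 0o76543210 0o76543210 0o543210) [.mk 1027 0o76215034 0o76301542 0o15342, .mk 916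
0o76214053 0o76130542 0o105342] [],
.mk (.mk 978 0o76452310 0o76452310 0o453120) [.mk 943 0o76432015 0o76054312 0o32415, .mk 978
0o76543210 0o76543210 0o543210] [],
.mk (.mk 675 0o76534210 0o76534210 0o354210) [.mk 829 0o76432105 0o76054321 0o53421, .mk 1019
0o76432510 0o76254310 0o254310] [],
.mk (.mk 674 0o76340251 0o76145203 0o142305) [.mk 701 0o76543210 0o76543210 0o453210] [],
.mk (.mk 738 0o76534210 0o76534210 0o452310) [.mk 1115 0o76543210 0o76543210 0o543210] [],
.mk (.mk 739 0o76543210 0o76543210 0o452310) [.mk 901 0o76214305 0o76032541 0o53241] [],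
.mk (.mk 724 0o76420351 0o76152403 0o132450) [.mk 764 0o76543210 0o76543210 0o453210, .mk 1146
0o76543210 0o76543210 0o543210] [],
.mk (.mk 558 0o76534120 0o76534120 0o453120) [.mk 1185 0o76215043 0o76310542 0o15432] [],
.mk (.mk 580 0o76543210 0o76543210 0o543210) [.mk 1142 0o76450123 0o76450123 0o51423] [],
.mk (.mk 670 0o76530241 0o76514203 0o140532) [.mk 910 0o76245130 0o76341520 0o245130, .mk 792
0o76543210 0o76543210 0o543210] [],
.mk (.mk 735 0o76542031 0o76541302 0o25143) [.mk 996 0o76410253 0o76150243 0o104523] [],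
.mk (.mk 992 0o76524301 0o76532401 0o350412) [.mk 831 0o76453210 0o76453210 0o453210, .mk 1043
0o76024531 0o76231405 0o214305] [],
.mk (.mk 719 0o76452301 0o76452301 0o125304) [.mk 609 0o76543210 0o76543210 0o543210] [],
.mk (.mk 623 0o76524310 0o76532410 0o352401) [.mk 1109 0o76543102 0o76543021 0o43251, .mk 1053
0o76451320 0o76452130 0o145230] [],
.mk (.mk 1002 0o76102534 0o76201354 0o13542) [.mk 996 0o76210453 0o76120543 0o104523] [],
.mk (.mk 547 0o76054132 0o76431025 0o204135) [.mk 910 0o76425310 0o76352410 0o354210] [],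
.mk (.mk 696 0o76504132 0o76531024 0o240315) [.mk 1116 0o76432105 0o76054321 0o53421] [],
.mk (.mk 564 0o76543210 0o76543210 0o543210) [.mk 1059 0o76543210 0o76543210 0o354210] [],
.mk (.mk 989 0o76541230 0o76541230 0o451230) [.mk 868 0o76120543 0o76210453 0o102435, .mk 1029
0o76502341 0o76512304 0o243105] [],
.mk (.mk 750 0o76532104 0o76504321 0o43521) [.mk 717 0o76405312 0o76352014 0o350214] [],
.mk (.mk 748 0o76543210 0o76543210 0o453210) [.mk 786 0o76325410 0o76325410 0o215403] [],
.mk (.mk 848 0o76354210 0o76435210 0o452301) [.mk 913 0o76543210 0o76543210 0o543210, .mk 928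
0o76324510 0o76235410 0o254301] [],
.mk (.mk 779 0o76541320 0o76542130 0o134052) [.mk 861 0o76453210 0o76453210 0o453210] [],
.mk (.mk 717 0o76034512 0o76234015 0o241305) [.mk 717 0o76430512 0o76254013 0o350214, .mk 1203
0o76530412 0o76524013 0o35214] [],
.mk (.mk 823 0o76514320 0o76532140 0o134052) [.mk 893 0o76314520 0o76235140 0o314052] [],
.mk (.mk 833 0o76413502 0o76253041 0o215340) [.mk 1120 0o76403152 0o76153024 0o15234, .mk 855
0o76543210 0o76543210 0o543210] [],
.mk (.mk 585 0o76354210 0o76435210 0o453210) [.mk 880 0o76043521 0o76243105 0o324105, .mk 807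
0o76245013 0o76340512 0o140253] [],
.mk (.mk 566 0o76543210 0o76543210 0o543210) [.mk 789 0o76513240 0o76513240 0o310524, .mk 789
0o76523140 0o76513420 0o201435] [],
.mk (.mk 711 0o76345210 0o76345210 0o453210) [.mk 769 0o76543210 0o76543210 0o543210] [],
.mk (.mk 624 0o76354102 0o76435021 0o405321) [.mk 1145 0o76432510 0o76254310 0o354210, .mk 1098
0o76543102 0o76543021 0o45321] [],
.mk (.mk 732 0o76432510 0o76254310 0o354210) [.mk 749 0o76543210 0o76543210 0o453210, .mk 1017
0o76103425 0o76023154 0o31452] [],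
.mk (.mk 694 0o76543210 0o76543210 0o543210) [.mk 749 0o76354210 0o76435210 0o453210] [],
.mk (.mk 985 0o76542031 0o76541302 0o140532) [.mk 764 0o76543210 0o76543210 0o452310, .mk 902
0o76325104 0o76305421 0o53412] [],
.mk (.mk 711 0o76354210 0o76435210 0o453210) [.mk 937 0o76543210 0o76543210 0o543210] [],
.mk (.mk 711 0o76251403 0o76420531 0o102543) [.mk 1036 0o76251304 0o76402531 0o12543] [],
.mk (.mk 557 0o76354210 0o76435210 0o453210) [.mk 1066 0o76204153 0o76130524 0o310254, .mk 924
0o76205143 0o76310524 0o130254] [],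
.mk (.mk 742 0o76205134 0o76301524 0o13542) [.mk 1004 0o76025413 0o76320415 0o241035, .mk 770
0o76345210 0o76345210 0o453210] [],
.mk (.mk 687 0o76543120 0o76543120 0o351402) [.mk 1064 0o76534210 0o76534210 0o453210] [],
.mk (.mk 771 0o76052413 0o76420315 0o210543) [.mk 730 0o76453210 0o76453210 0o453210] []]

theorem v1400 : chkL Tab.T5 Tab.RT Tab.reps Tab.E2 Ker.cert7 D1400 1400 = true := by
  decide +kernel

end CR.C2
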