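import Pool.Agent.Lib.MP_6f5d36_co.Ker
import Pool.Agent.Lib.MP_6f5d36_co.RTab
import Pool.Agent.Lib.MP_6f5d36_co.C2.KerC
import Pool.Agent.Lib.MP_6f5d36_co.C2.ETab

/-! MP_6f5d36_co, case (ii), level 7 : the ranks 1500, ..., 1599 -/

set_option autoImplicit false
set_option maxRecDepth 100000

noncomputable section

namespace CR.C2

/-- the frames and certificates of the ranks 1500, ..., 1599 -/
def D1500 : List It :=
[.mk (.mk 724 0o76543210 0o76543210 0o543210) [.mk 1027 0o76420135 0o76051423 0o102453] [],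
.mk (.mk 774 0o76543210 0o76543210 0o543210) [.mk 1078 0o76435120 0o76354120 0o253401, .mk 813
0o76453210 0o76453210 0o354210] [],
.mk (.mk 857 0o76043125 0o76043125 0o42315) [.mk 1020 0o76542310 0o76542310 0o453120, .mk 751
0o76543210 0o76543210 0o543210] [],
.mk (.mk 686 0o76543210 0o76543210 0o453210) [.mk 1067 0o76104325 0o76032154 0o210453] [],
.mk (.mk 686 0o76314205 0o76035241 0o34512) [.mk 888 0o76543210 0o76543210 0o453210] [],
.mk (.mk 752 0o76132504 0o76204351 0o32514) [.mk 1004 0o76052341 0o76412305 0o240315] [],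
.mk (.mk 991 0o76543120 0o76543120 0o452310) [.mk 1004 0o76425013 0o76350412 0o120345] [],
.mk (.mk 986 0o76102354 0o76102354 0o12354) [.mk 1004 0o76102453 0o76120354 0o201354] [],
.mk (.mk 724 0o76345210 0o76345210 0o154230) [.mk 573 0o76253401 0o76423501 0o250134, .mk 929
0o76432510 0o76254310 0o453210] [],
.mk (.mk 826 0o76324501 0o76235401 0o250314) [.mk 1026 0o76453210 0o76453210 0o154230] [],
.mk (.mk 573 0o76534210 0o76534210 0o453210) [.mk 881 0o76432150 0o76154320 0o354201, .mk 818
0o76543210 0o76543210 0o543210] [],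
.mk (.mk 573 0o76543210 0o76543210 0o543210) [.mk 1025 0o76543021 0o76543102 0o253104, .mk 949
0o76350142 0o76415023 0o31254] [],
.mk (.mk 572 0o76543210 0o76543210 0o543210) [.mk 864 0o76251403 0o76420531 0o23541, .mk 1109
0o76350214 0o76405213 0o105324] [],
.mk (.mk 573 0o76543210 0o76543210 0o543210) [.mk 1117 0o76531042 0o76514032 0o32514, .mk 639
0o76531042 0o76514032 0o321054] [],
.mk (.mk 826 0o76532410 0o76524310 0o453120) [.mk 879 0o76453210 0o76453210 0o154230, .mk 1106
0o76543210 0o76543210 0o354210] [],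
.mk (.mk 866 0o76530412 0o76524013 0o130245) [.mk 962 0o76324510 0o76235410 0o254310, .mk 881
0o76543210 0o76543210 0o543210, .mk 931 0o76354210 0o76435210 0o453210] [],
.mk (.mk 864 0o76345210 0o76345210 0o354102) [.mk 962 0o76253401 0o76423501 0o132540, .mk 1072
0o76452130 0o76451320 0o53142] [],
.mk (.mk 704 0o76342501 0o76245301 0o250431) [.mk 864 0o76543210 0o76543210 0o543210] [],
.mk (.mk 670 0o76342501 0o76245301 0o250431) [.mk 994 0o76432150 0o76154320 0o154230] [],
.mk (.mk 704 0o76532410 0o76524310 0o354210) [.mk 793 0o76431205 0o76054231 0o53421, .mk 1019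
0o76423510 0o76253410 0o254310] [],
.mk (.mk 623 0o76534201 0o76534201 0o235104) [.mk 1042 0o76453210 0o76453210 0o453210, .mk 895
0o76324501 0o76235401 0o123540] [],
.mk (.mk 652 0o76350412 0o76425013 0o120354) [.mk 724 0o76523410 0o76523410 0o245130, .mk 1066
0o76452130 0o76451320 0o53142] [],
.mk (.mk 755 0o76543210 0o76543210 0o453210) [.mk 821 0o76430521 0o76254103 0o243105, .mk 1188
0o76543210 0o76543210 0o543210] [],
.mk (.mk 771 0o76523410 0o76523410 0o245130) [.mk 1040 0o76453120 0o76453120 0o154320, .mk 845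
0o76435210 0o76354210 0o453210, .mk 1122 0o76452130 0o76451320 0o53142] [],
.mk (.mk 744 0o76543210 0o76543210 0o543210) [.mk 765 0o76543210 0o76543210 0o452310] [],
.mk (.mk 706 0o76504231 0o76531204 0o143205) [.mk 1011 0o76542310 0o76542310 0o254130] [],
.mk (.mk 828 0o76543201 0o76543201 0o240531) [.mk 1059 0o76345120 0o76345120 0o145230, .mk 844
0o76543210 0o76543210 0o543210] [],
.mk (.mk 696 0o76401523 0o76250134 0o201534) [.mk 887 0o76501423 0o76520134 0o21354] [],
.mk (.mk 574 0o76543210 0o76543210 0o543210) [.mk 1093 0o76531402 0o76524031 0o132540, .mk 885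
0o76450312 0o76452013 0o230154] [],
.mk (.mk 724 0o76524310 0o76532410 0o245130) [.mk 586 0o76254013 0o76430512 0o105234] [],
.mk (.mk 1018 0o76045321 0o76342105 0o142305) [.mk 852 0o76431520 0o76254130 0o354012] [],
.mk (.mk 606 0o76543210 0o76543210 0o543210) [.mk 945 0o76240531 0o76241503 0o213504, .mk 899
0o76250431 0o76421503 0o123504] [],
.mk (.mk 617 0o76543210 0o76543210 0o543210) [.mk 942 0o76240351 0o76142503 0o123540, .mk 1131
0o76405321 0o76352104 0o34215] [],
.mk (.mk 727 0o76514203 0o76530241 0o23541) [.mk 1023 0o76512034 0o76501342 0o105432]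
[0x10042802a200c0220c2a3802320180084e008d01184e50a8690806080660188c10146801007689015ad00304c60dca148800214c8050a0500114b400082a8a65],
.mk (.mk 694 0o76342501 0o76245301 0o250431) [.mk 864 0o76543210 0o76543210 0o543210, .mk 1072
0o76524301 0o76532401 0o52341] [],
.mk (.mk 742 0o76142530 0o76241350 0o214053) [.mk 763 0o76123540 0o76213450 0o345102, .mk 1188
0o76543210 0o76543210 0o543210] [],
.mk (.mk 858 0o76354210 0o76435210 0o453210) [.mk 1073 0o76504132 0o76531024 0o150324, .mk 949
0o76543210 0o76543210 0o543210] [],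
.mk (.mk 597 0o76534210 0o76534210 0o452310) [.mk 1156 0o76423105 0o76053421 0o42513] [],
.mk (.mk 791 0o76435210 0o76354210 0o453210) [.mk 1090 0o76543210 0o76543210 0o543210] [],
.mk (.mk 838 0o76543210 0o76543210 0o453210) [.mk 1079 0o76523104 0o76503421 0o45321, .mk 601
0o76543210 0o76543210 0o543210] [],
.mk (.mk 673 0o76543210 0o76543210 0o543210) [.mk 1028 0o76250314 0o76402513 0o305214] [],
.mk (.mk 673 0o76543210 0o76543210 0o543210) [.mk 889 0o76423150 0o76153420 0o154230] [],
.mk (.mk 702 0o76543210 0o76543210 0o453210) [.mk 738 0o76543210 0o76543210 0o543210] [],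
.mk (.mk 876 0o76543210 0o76543210 0o543210) [.mk 966 0o76203514 0o76203514 0o201453, .mk 922
0o76241305 0o76042531 0o35142] [],
.mk (.mk 821 0o76543210 0o76543210 0o543210) [.mk 876 0o76435210 0o76354210 0o452310, .mk 1034
0o76432150 0o76154320 0o154320] [],
.mk (.mk 1024 0o76503421 0o76523104 0o31452) [.mk 925 0o76403251 0o76153204 0o130542, .mk 1091
0o76543210 0o76543210 0o453210]
[0x6a030e06bb411b802404e744027848840600901184242041ae11394188ea22768a802464824f0ac8244e4216b083803820a0e5113001c2ac27b012b4f000011d105301c87900e014008839024123485f41a40230c6800432c1011ba041d4e400083882ed,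
0x1983041b03615a802404c7440270408010123091842464e0020d71dd400c42668a802427800020e0828c0e73c68700a004414122788902b00904b58c8400c00f082839479012600385ec04a1567be034c4d00230c6800032e275080081d4e40008388664,
0x18400c110824000400e305806845002900c1c2ce014ac6082851800b148810178039c38820ca00084111400f00d8c28431c205981e00e0c10041088e98401068112650008070d481680500084080980194d40008348764,
0x60020812c2840001500c007240ce2100a147c40a42f013004c614222190049c03401100408a480a12222c183001c12900304aca42a1208184900023035c4843405c958003004841a00105f8140034034087801d4cc00083888ed],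
.mk (.mk 710 0o76543210 0o76543210 0o543210) [.mk 901 0o76412305 0o76052341 0o52341] [],
.mk (.mk 761 0o76340152 0o76145023 0o123450) [.mk 1112 0o76543210 0o76543210 0o543210] [],
.mk (.mk 765 0o76543210 0o76543210 0o543210) [.mk 906 0o76452013 0o76450312 0o105423, .mk 943
0o76523014 0o76503412 0o51423] [],
.mk (.mk 756 0o76543210 0o76543210 0o543210) [.mk 807 0o76403521 0o76253104 0o210543, .mk 807
0o76453021 0o76453102 0o310542] [],
.mk (.mk 989 0o76541320 0o76542130 0o451320) [.mk 943 0o76512430 0o76521340 0o325401] [],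
.mk (.mk 756 0o76543210 0o76543210 0o543210) [.mk 966 0o76315420 0o76325140 0o124503] [],
.mk (.mk 658 0o76432105 0o76054321 0o54321) [.mk 695 0o76052413 0o76420315 0o302415, .mk 765
0o76453210 0o76453210 0o453210] [],
.mk (.mk 695 0o76342105 0o76045321 0o54321) [.mk 1056 0o76534210 0o76534210 0o452310] [],
.mk (.mk 655 0o76124305 0o76032451 0o52341) [.mk 1112 0o76435210 0o76354210 0o453210] [],
.mk (.mk 767 0o76543210 0o76543210 0o453210) [.mk 1074 0o76324051 0o76135402 0o24513, .mk 895
0o76325041 0o76315402 0o240513] [],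
.mk (.mk 1056 0o76453210 0o76453210 0o452310) [.mk 902 0o76230541 0o76214503 0o213450, .mk 895
0o76320541 0o76215403 0o312540] [],
.mk (.mk 702 0o76543210 0o76543210 0o453210) [.mk 829 0o76543210 0o76543210 0o543210] [],
.mk (.mk 728 0o76354210 0o76435210 0o452310) [.mk 829 0o76543210 0o76543210 0o543210, .mk 1033
0o76254130 0o76431520 0o145230] [],
.mk (.mk 743 0o76540321 0o76542103 0o352104) [.mk 1002 0o76432510 0o76254310 0o254130] [],
.mk (.mk 876 0o76435210 0o76354210 0o452310) [.mk 918 0o76124305 0o76032451 0o12345, .mk 1090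
0o76543210 0o76543210 0o543210] [],
.mk (.mk 685 0o76541230 0o76541230 0o21534) [.mk 1128 0o76453210 0o76453210 0o453210] [],
.mk (.mk 719 0o76431205 0o76054231 0o53412) [.mk 1112 0o76534210 0o76534210 0o453210] [],
.mk (.mk 689 0o76543210 0o76543210 0o543210) [.mk 731 0o76342510 0o76245310 0o354120] [],
.mk (.mk 690 0o76534210 0o76534210 0o452310) [.mk 784 0o76543210 0o76543210 0o543210] [],
.mk (.mk 658 0o76354201 0o76435201 0o315024) [.mk 729 0o76345102 0o76345021 0o130524, .mk 689
0o76543210 0o76543210 0o543210] [],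
.mk (.mk 690 0o76543210 0o76543210 0o543210) [.mk 764 0o76345210 0o76345210 0o452310, .mk 1026
0o76034152 0o76134025 0o312045] [],
.mk (.mk 734 0o76251403 0o76420531 0o35421) [.mk 1098 0o76350421 0o76425103 0o150432, .mk 1097
0o76542130 0o76541320 0o452130] [],
.mk (.mk 835 0o76534201 0o76534201 0o53412) [.mk 966 0o76201534 0o76201534 0o210354, .mk 1028
0o76542301 0o76542301 0o350412] [],
.mk (.mk 724 0o76543210 0o76543210 0o543210) [.mk 999 0o76450312 0o76452013 0o250134, .mk 1028
0o76435210 0o76354210 0o453210] [],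
.mk (.mk 562 0o76543210 0o76543210 0o543210) [.mk 1003 0o76542310 0o76542310 0o53214, .mk 1076
0o76452301 0o76452301 0o254013] [],
.mk (.mk 678 0o76250143 0o76410523 0o321045) [.mk 1003 0o76301452 0o76125034 0o21543]
[0x13140238110824d89085082540118221da02003012016226299de0b0a082701008003c2010109ad1040800626010020e0006300220070020104300154ac00082c171b],
.mk (.mk 761 0o76205431 0o76321504 0o214035) [.mk 1018 0o76104253 0o76130254 0o21453, .mk 1044
0o76541320 0o76542130 0o451320] [],
.mk (.mk 663 0o76451230 0o76451230 0o451230) [.mk 916 0o76403251 0o76153204 0o251304] [],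
.mk (.mk 715 0o76543210 0o76543210 0o543210) [.mk 1021 0o76542130 0o76541320 0o145230, .mk 603
0o76543210 0o76543210 0o452310] [],
.mk (.mk 710 0o76543210 0o76543210 0o543210) [.mk 603 0o76543210 0o76543210 0o453210, .mk 625
0o76502413 0o76520314 0o201534] [],
.mk (.mk 774 0o76452031 0o76451302 0o135024) [.mk 1027 0o76543210 0o76543210 0o453210, .mk 717
0o76542031 0o76541302 0o315204] [],
.mk (.mk 1030 0o76345210 0o76345210 0o452310) [.mk 876 0o76543210 0o76543210 0o543210] [],
.mk (.mk 768 0o76135420 0o76324150 0o234501) [.mk 1066 0o76205413 0o76320514 0o120354, .mk 792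
0o76543210 0o76543210 0o543210] [],
.mk (.mk 645 0o76451230 0o76451230 0o451230) [.mk 1070 0o76251430 0o76421530 0o145230] [],
.mk (.mk 706 0o76453201 0o76453201 0o253104) [.mk 567 0o76523410 0o76523410 0o354210, .mk 1119
0o76201543 0o76210534 0o13452] [],
.mk (.mk 683 0o76451320 0o76452130 0o451320) [.mk 972 0o76543210 0o76543210 0o543210] [],
.mk (.mk 645 0o76543210 0o76543210 0o543210) [.mk 1016 0o76154023 0o76430152 0o24531] [],
.mk (.mk 976 0o76450132 0o76451023 0o230451) [.mk 567 0o76542310 0o76542310 0o354120] [],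
.mk (.mk 706 0o76345210 0o76345210 0o453210) [.mk 1123 0o76351420 0o76425130 0o135042, .mk 1145
0o76042351 0o76142305 0o234105] [],
.mk (.mk 761 0o76312540 0o76215340 0o143502) [.mk 904 0o76543210 0o76543210 0o543210] [],
.mk (.mk 1035 0o76325401 0o76325401 0o123450) [.mk 792 0o76543210 0o76543210 0o543210] [],
.mk (.mk 743 0o76452301 0o76452301 0o251430) [.mk 1037 0o76340512 0o76245013 0o350214] [],
.mk (.mk 1004 0o76310254 0o76105243 0o105432) [.mk 835 0o76205143 0o76310524 0o204135] [],
.mk (.mk 981 0o76452130 0o76451320 0o452130) [.mk 1149 0o76543210 0o76543210 0o543210] [],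
.mk (.mk 693 0o76352401 0o76425301 0o231540) [.mk 1028 0o76351024 0o76405132 0o42153] [],
.mk (.mk 594 0o76254130 0o76431520 0o245130) [.mk 1035 0o76452031 0o76451302 0o142305] [],
.mk (.mk 1027 0o76032541 0o76214305 0o143205) [.mk 1108 0o76532041 0o76514302 0o25413, .mk 1035
0o76543021 0o76543102 0o250413] [],
.mk (.mk 848 0o76530412 0o76524013 0o231045) [.mk 932 0o76512043 0o76510342 0o104532, .mk 860
0o76543210 0o76543210 0o452301, .mk 932 0o76512043 0o76510342 0o15423]
[0x2200004c600c1114cc502c029508040042414c111ccc018860340100cc860c0f1284872a806048db4c43104018554418cc02069102c0641101315cea390142c4150cc000830302c,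
0xe5b35108d100031481282a01809a4210189826124b8cc9697003490621898038012069840861400902656122d9ac6010908007280028110c00008298025],
.mk (.mk 978 0o76453120 0o76453120 0o452310) [.mk 1004 0o76510234 0o76501243 0o104523] [],
.mk (.mk 548 0o76154302 0o76432051 0o210345) [.mk 1164 0o76154203 0o76430251 0o21435, .mk 831
0o76451320 0o76452130 0o451320] [],
.mk (.mk 712 0o76435201 0o76354201 0o253104) [.mk 1041 0o76432510 0o76254310 0o152403, .mk 1051
0o76453210 0o76453210 0o453210] [],
.mk (.mk 658 0o76543210 0o76543210 0o543210) [.mk 1141 0o76354201 0o76435201 0o35142] [],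
.mk (.mk 766 0o76543210 0o76543210 0o543210) [.mk 786 0o76302541 0o76215304 0o230541, .mk 1112
0o76345210 0o76345210 0o453210] [],
.mk (.mk 619 0o76325410 0o76325410 0o354210) [.mk 1095 0o76042315 0o76042315 0o203145] []]

theorem v1500 : chkL Tab.T5 Tab.RT Tab.reps Tab.E2 Ker.cert7 D1500 1500 = true := by
  decide +kernel

end CR.C2
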