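import Pool.Agent.Lib.MP_6f5d36_co.Ker
import Pool.Agent.Lib.MP_6f5d36_co.RTab
import Pool.Agent.Lib.MP_6f5d36_co.C2.KerC
import Pool.Agent.Lib.MP_6f5d36_co.C2.ETab

/-! MP_6f5d36_co, case (ii), level 7 : the ranks 1600, ..., 1699 -/

set_option autoImplicit false
set_option maxRecDepth 100000

noncomputable section

namespace CR.C2

/-- the frames and certificates of the ranks 1600, ..., 1699 -/
def D1600 : List It :=
[.mk (.mk 733 0o76453210 0o76453210 0o354210) [.mk 877 0o76543210 0o76543210 0o543210] [],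
.mk (.mk 746 0o76543210 0o76543210 0o543210) [.mk 1051 0o76452310 0o76452310 0o453120] [],
.mk (.mk 746 0o76543210 0o76543210 0o543210) [.mk 1042 0o76451320 0o76452130 0o451320] [],
.mk (.mk 723 0o76541320 0o76542130 0o451320) [.mk 984 0o76543210 0o76543210 0o543210, .mk 779
0o76340215 0o76045213 0o41352] [],
.mk (.mk 779 0o76514302 0o76532041 0o123054) [.mk 848 0o76345210 0o76345210 0o352401, .mk 799
0o76315402 0o76325041 0o213054] [],
.mk (.mk 779 0o76540321 0o76542103 0o134025) [.mk 902 0o76543210 0o76543210 0o543210, .mk 822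
0o76350421 0o76425103 0o310452] [],
.mk (.mk 565 0o76543210 0o76543210 0o543210) [.mk 1121 0o76350214 0o76405213 0o302541, .mk 879
0o76451320 0o76452130 0o25413] [],
.mk (.mk 743 0o76432501 0o76254301 0o251430) [.mk 970 0o76052341 0o76412305 0o12345, .mk 630
0o76543210 0o76543210 0o543210] [],
.mk (.mk 696 0o76014523 0o76230145 0o210435) [.mk 716 0o76241503 0o76240531 0o304521, .mk 1026
0o76251403 0o76420531 0o34521] [],
.mk (.mk 1010 0o76543210 0o76543210 0o254301) [.mk 616 0o76543210 0o76543210 0o543210] [],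
.mk (.mk 779 0o76453210 0o76453210 0o452301) [.mk 717 0o76540231 0o76541203 0o234015] [],
.mk (.mk 678 0o76152043 0o76410352 0o321054) [.mk 1073 0o76203154 0o76103524 0o12453] [],
.mk (.mk 552 0o76510423 0o76520143 0o302154) [.mk 855 0o76543210 0o76543210 0o543210] [],
.mk (.mk 775 0o76521430 0o76521430 0o135402) [.mk 1139 0o76345210 0o76345210 0o452301] [],
.mk (.mk 717 0o76420531 0o76251403 0o235014) [.mk 914 0o76543210 0o76543210 0o543210, .mk 1133
0o76534210 0o76534210 0o453210] [],
.mk (.mk 648 0o76354021 0o76435102 0o352104) [.mk 879 0o76543210 0o76543210 0o453210] [],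
.mk (.mk 652 0o76534021 0o76534102 0o352104) [.mk 997 0o76542031 0o76541302 0o253014] [],
.mk (.mk 1029 0o76410235 0o76051243 0o210354) [.mk 886 0o76542130 0o76541320 0o153042, .mk 624
0o76543210 0o76543210 0o543210] [],
.mk (.mk 656 0o76431520 0o76254130 0o234051) [.mk 624 0o76531420 0o76524130 0o324051] [],
.mk (.mk 664 0o76215403 0o76320541 0o215430) [.mk 895 0o76543210 0o76543210 0o543210] [],
.mk (.mk 696 0o76501423 0o76520134 0o301524) [.mk 717 0o76453210 0o76453210 0o453210] [],
.mk (.mk 761 0o76241305 0o76042531 0o41325) [.mk 849 0o76543210 0o76543210 0o543210] [],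
.mk (.mk 795 0o76543210 0o76543210 0o543210) [.mk 888 0o76541203 0o76540231 0o35241] [],
.mk (.mk 718 0o76420315 0o76052413 0o41352) [.mk 751 0o76543210 0o76543210 0o543210] [],
.mk (.mk 665 0o76542310 0o76542310 0o453120) [.mk 1159 0o76321045 0o76015432 0o205413] [],
.mk (.mk 733 0o76543210 0o76543210 0o543210) [.mk 835 0o76205143 0o76310524 0o321045] [],
.mk (.mk 654 0o76305142 0o76315024 0o320514) [.mk 707 0o76354021 0o76435102 0o420531] [],
.mk (.mk 834 0o76145032 0o76341052 0o204351) [.mk 1018 0o76124035 0o76031452 0o120354] [],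
.mk (.mk 780 0o76325104 0o76305421 0o102435) [.mk 1127 0o76254103 0o76430521 0o215430] [],
.mk (.mk 780 0o76520143 0o76510423 0o12453) [.mk 926 0o76450132 0o76451023 0o203541, .mk 1027
0o76420135 0o76051423 0o102453] [],
.mk (.mk 1009 0o76240531 0o76241503 0o25134) [.mk 1009 0o76204531 0o76231504 0o134025, .mk 942
0o76534210 0o76534210 0o452301] [],
.mk (.mk 578 0o76534210 0o76534210 0o452310) [.mk 1146 0o76523104 0o76503421 0o45231, .mk 914
0o76432510 0o76254310 0o354120] [],
.mk (.mk 682 0o76435210 0o76354210 0o453210) [.mk 925 0o76423510 0o76253410 0o254130, .mk 914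
0o76432510 0o76254310 0o351402] [],
.mk (.mk 1018 0o76012345 0o76012345 0o13245) [.mk 1006 0o76213504 0o76203541 0o125340] [],
.mk (.mk 747 0o76453120 0o76453120 0o452310) [.mk 1037 0o76245130 0o76341520 0o245130] [],
.mk (.mk 661 0o76540213 0o76540213 0o320154) [.mk 812 0o76543210 0o76543210 0o543210] [],
.mk (.mk 652 0o76432051 0o76154302 0o140532) [.mk 764 0o76543210 0o76543210 0o452310] [],
.mk (.mk 742 0o76435210 0o76354210 0o453210) [.mk 1000 0o76401325 0o76052134 0o210453] [],
.mk (.mk 978 0o76541230 0o76541230 0o451230) [.mk 897 0o76214305 0o76032541 0o35421, .mk 981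
0o76543210 0o76543210 0o543210] [],
.mk (.mk 599 0o76514320 0o76532140 0o325401) [.mk 1000 0o76305412 0o76325014 0o123540] [],
.mk (.mk 718 0o76342510 0o76245310 0o125043) [.mk 972 0o76543210 0o76543210 0o543210, .mk 842
0o76453210 0o76453210 0o453210] [],
.mk (.mk 688 0o76543210 0o76543210 0o543210) [.mk 610 0o76235410 0o76324510 0o452301] [],
.mk (.mk 569 0o76543210 0o76543210 0o543210) [.mk 1178 0o76143502 0o76243051 0o42531, .mk 845
0o76534210 0o76534210 0o354201] [],
.mk (.mk 646 0o76350421 0o76425103 0o142305) [.mk 611 0o76532410 0o76524310 0o453120] [],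
.mk (.mk 611 0o76543210 0o76543210 0o543210) [.mk 881 0o76432150 0o76154320 0o354201, .mk 826
0o76534210 0o76534210 0o453210] [],
.mk (.mk 588 0o76532401 0o76524301 0o231504) [.mk 1045 0o76402315 0o76052314 0o21543, .mk 881
0o76543210 0o76543210 0o543210] [],
.mk (.mk 743 0o76453210 0o76453210 0o154230) [.mk 1197 0o76543210 0o76543210 0o354210] [],
.mk (.mk 571 0o76543210 0o76543210 0o543210) [.mk 1041 0o76451302 0o76452031 0o52431, .mk 826
0o76435210 0o76354210 0o453210] [],
.mk (.mk 571 0o76543210 0o76543210 0o543210) [.mk 759 0o76251403 0o76420531 0o25431, .mk 1017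
0o76135042 0o76314052 0o130542] [],
.mk (.mk 989 0o76451230 0o76451230 0o451230) [.mk 745 0o76543210 0o76543210 0o543210]
[0x1c40e00a10c003443610a00310204284081b000446b002b19a01d421414601b8120847734156801000420910c9591e3800f4bb84782b02000212404230696206004c034017219842d0b802100c818c614724000082c2004100a4881d4e00008389a5c],
.mk (.mk 572 0o76543210 0o76543210 0o543210) [.mk 1098 0o76340512 0o76245013 0o51234] [],
.mk (.mk 572 0o76543210 0o76543210 0o543210) [.mk 804 0o76251403 0o76420531 0o104523, .mk 781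
0o76534210 0o76534210 0o453210] [],
.mk (.mk 781 0o76543210 0o76543210 0o543210) [.mk 1043 0o76412503 0o76250341 0o51243] [],
.mk (.mk 771 0o76524310 0o76532410 0o245310) [.mk 1158 0o76453120 0o76453120 0o154320, .mk 845
0o76435210 0o76354210 0o453210] [],
.mk (.mk 982 0o76542310 0o76542310 0o453120) [.mk 771 0o76015243 0o76310245 0o201435] [],
.mk (.mk 771 0o76510234 0o76501243 0o12435) [.mk 1028 0o76345210 0o76345210 0o453210] [],
.mk (.mk 1015 0o76201345 0o76012534 0o14325) [.mk 1028 0o76435021 0o76354102 0o250413, .mk 1037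
0o76301452 0o76125034 0o140325] [],
.mk (.mk 697 0o76530412 0o76524013 0o210534) [.mk 940 0o76435210 0o76354210 0o453210, .mk 1013
0o76530412 0o76524013 0o120534] [],
.mk (.mk 1038 0o76542310 0o76542310 0o254130) [.mk 865 0o76435120 0o76354120 0o453120] [],
.mk (.mk 586 0o76534120 0o76534120 0o453120) [.mk 1071 0o76543210 0o76543210 0o254130] [],
.mk (.mk 666 0o76543120 0o76543120 0o154320) [.mk 1121 0o76350124 0o76405123 0o21534, .mk 940
0o76435120 0o76354120 0o453120] [],
.mk (.mk 1047 0o76543120 0o76543120 0o154320) [.mk 1074 0o76542130 0o76541320 0o53142, .mk 872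
0o76435210 0o76354210 0o354102]
[0x841c83084100e104158520841003000d0101943e9c314618d400c010251a600c618200410062204888249256406041548800082c3642,
0xc035040600449109661301921f00829846494161802b0103b00050160022042c208101d80678d013042278a214002a120b13402f180150ac00082d3642],
.mk (.mk 754 0o76524130 0o76531420 0o345201) [.mk 1020 0o76235140 0o76314520 0o145230, .mk 844
0o76435120 0o76354120 0o453120] [],
.mk (.mk 795 0o76514023 0o76530142 0o14253) [.mk 851 0o76431520 0o76254130 0o354012, .mk 934
0o76345120 0o76345120 0o453120] [],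
.mk (.mk 844 0o76543210 0o76543210 0o543210) [.mk 866 0o76534021 0o76534102 0o140532, .mk 1099
0o76432510 0o76254310 0o254310] [],
.mk (.mk 725 0o76543210 0o76543210 0o543210) [.mk 1088 0o76342501 0o76245301 0o135024, .mk 927
0o76354120 0o76435120 0o453120] [],
.mk (.mk 858 0o76543210 0o76543210 0o453210) [.mk 1097 0o76412503 0o76250341 0o240153, .mk 1095
0o76403152 0o76153024 0o130524] [],
.mk (.mk 762 0o76543210 0o76543210 0o543210) [.mk 1031 0o76512304 0o76502341 0o25341] [],
.mk (.mk 858 0o76543210 0o76543210 0o453210) [.mk 1043 0o76421503 0o76250431 0o241053, .mk 1074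
0o76410253 0o76150243 0o32154] [],
.mk (.mk 858 0o76543210 0o76543210 0o543210) [.mk 926 0o76135024 0o76304152 0o14253, .mk 926
0o76153024 0o76403152 0o104253] [],
.mk (.mk 821 0o76543210 0o76543210 0o543210) [.mk 897 0o76432510 0o76254310 0o254310] [],
.mk (.mk 606 0o76254031 0o76431502 0o105234) [.mk 942 0o76524310 0o76532410 0o245130, .mk 1180
0o76153042 0o76413052 0o15324] [],
.mk (.mk 1038 0o76542310 0o76542310 0o254310) [.mk 845 0o76521340 0o76512430 0o345021, .mk 845
0o76251043 0o76410532 0o15324] [],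
.mk (.mk 1060 0o76542310 0o76542310 0o254310) [.mk 1049 0o76534210 0o76534210 0o453210] [],
.mk (.mk 555 0o76543210 0o76543210 0o543210) [.mk 1033 0o76420513 0o76250413 0o132045, .mk 927
0o76350421 0o76425103 0o230415] [],
.mk (.mk 733 0o76432510 0o76254310 0o254310) [.mk 890 0o76543210 0o76543210 0o543210, .mk 931
0o76540321 0o76542103 0o130425] [],
.mk (.mk 801 0o76125430 0o76321450 0o435201) [.mk 1045 0o76045321 0o76342105 0o241305] [],
.mk (.mk 654 0o76432510 0o76254310 0o254310) [.mk 1169 0o76453120 0o76453120 0o453120, .mk 641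
0o76150432 0o76421053 0o301254] [],
.mk (.mk 1038 0o76432510 0o76254310 0o254310) [.mk 846 0o76512043 0o76510342 0o14235] [],
.mk (.mk 755 0o76431250 0o76154230 0o354201) [.mk 784 0o76502431 0o76521304 0o234015, .mk 949
0o76342051 0o76145302 0o150423] [],
.mk (.mk 755 0o76543210 0o76543210 0o543210) [.mk 821 0o76430521 0o76254103 0o251304, .mk 866
0o76501432 0o76521034 0o130254] [],
.mk (.mk 865 0o76543120 0o76543120 0o453120) [.mk 1082 0o76542310 0o76542310 0o254130, .mk 928
0o76350241 0o76415203 0o143205] [],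
.mk (.mk 865 0o76354120 0o76435120 0o453120) [.mk 1095 0o76230541 0o76214503 0o32451, .mk 963
0o76045231 0o76341205 0o143205] [],
.mk (.mk 725 0o76543210 0o76543210 0o543210) [.mk 899 0o76532401 0o76524301 0o132504, .mk 930
0o76413502 0o76253041 0o213054] [],
.mk (.mk 1017 0o76542310 0o76542310 0o254310) [.mk 950 0o76342150 0o76145320 0o354021, .mk 899
0o76452013 0o76450312 0o15432] [],
.mk (.mk 589 0o76254013 0o76430512 0o15432) [.mk 945 0o76342150 0o76145320 0o354021, .mk 1088
0o76542310 0o76542310 0o254310] [],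
.mk (.mk 1001 0o76542310 0o76542310 0o254310) [.mk 934 0o76513024 0o76503142 0o105324, .mk 851
0o76435120 0o76354120 0o453120] [],
.mk (.mk 1006 0o76543210 0o76543210 0o254310) [.mk 1023 0o76543210 0o76543210 0o153402] [],
.mk (.mk 656 0o76342501 0o76245301 0o250431) [.mk 864 0o76543210 0o76543210 0o543210, .mk 1071
0o76410532 0o76251043 0o132504] [],
.mk (.mk 1038 0o76452130 0o76451320 0o53142) [.mk 864 0o76345210 0o76345210 0o354102, .mk 931
0o76435210 0o76354210 0o453210] [],
.mk (.mk 790 0o76435120 0o76354120 0o453120) [.mk 1190 0o76314520 0o76235140 0o241503, .mk 622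
0o76543210 0o76543210 0o543210] [],
.mk (.mk 699 0o76412350 0o76152340 0o345102) [.mk 607 0o76534120 0o76534120 0o453120] [],
.mk (.mk 1044 0o76231045 0o76014532 0o102453) [.mk 1197 0o76534210 0o76534210 0o453210, .mk 975
0o76431520 0o76254130 0o354201] [],
.mk (.mk 756 0o76543210 0o76543210 0o543210) [.mk 987 0o76534120 0o76534120 0o154320, .mk 1090
0o76534210 0o76534210 0o453210] [],
.mk (.mk 784 0o76543210 0o76543210 0o543210) [.mk 1088 0o76312405 0o76025341 0o301524, .mk 1056
0o76435210 0o76354210 0o453210] [],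
.mk (.mk 673 0o76543210 0o76543210 0o543210) [.mk 1204 0o76432150 0o76154320 0o154320, .mk 855
0o76230415 0o76024513 0o32541] [],
.mk (.mk 1010 0o76120534 0o76201453 0o32154) [.mk 857 0o76413502 0o76253041 0o215430, .mk 855
0o76543210 0o76543210 0o543210] [],
.mk (.mk 989 0o76403251 0o76153204 0o234105) [.mk 619 0o76315240 0o76315240 0o134052] [],
.mk (.mk 721 0o76543210 0o76543210 0o543210) [.mk 1014 0o76532104 0o76504321 0o54321] [],
.mk (.mk 658 0o76543210 0o76543210 0o453210) [.mk 731 0o76503241 0o76513204 0o241305] []]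

theorem v1600 : chkL Tab.T5 Tab.RT Tab.reps Tab.E2 Ker.cert7 D1600 1600 = true := by
  decide +kernel

end CR.C2
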