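import Pool.Agent.Lib.MP_6f5d36_co.Ker
import Pool.Agent.Lib.MP_6f5d36_co.RTab
import Pool.Agent.Lib.MP_6f5d36_co.C2.KerC
import Pool.Agent.Lib.MP_6f5d36_co.C2.ETab

/-! MP_6f5d36_co, case (ii), level 7 : the ranks 1700, ..., 1799 -/

set_option autoImplicit false
set_option maxRecDepth 100000

noncomputable section

namespace CR.C2

/-- the frames and certificates of the ranks 1700, ..., 1799 -/
def D1700 : List It :=
[.mk (.mk 658 0o76541320 0o76542130 0o451320) [.mk 1029 0o76312045 0o76015342 0o25413] [],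
.mk (.mk 646 0o76053421 0o76423105 0o432105) [.mk 1014 0o76402351 0o76152304 0o13254] [],
.mk (.mk 676 0o76413520 0o76253140 0o302154) [.mk 1028 0o76345210 0o76345210 0o453210] [],
.mk (.mk 713 0o76543210 0o76543210 0o453210) [.mk 752 0o76230514 0o76204513 0o214305] [],
.mk (.mk 795 0o76432105 0o76054321 0o54321) [.mk 1003 0o76103425 0o76023154 0o120453, .mk 1026
0o76354210 0o76435210 0o453210] [],
.mk (.mk 775 0o76453210 0o76453210 0o453210) [.mk 795 0o76543210 0o76543210 0o543210, .mk 1120
0o76410253 0o76150243 0o105342] [],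
.mk (.mk 731 0o76451320 0o76452130 0o201354) [.mk 716 0o76531420 0o76524130 0o21354, .mk 816
0o76543210 0o76543210 0o543210] [],
.mk (.mk 1010 0o76054231 0o76431205 0o243105) [.mk 839 0o76543210 0o76543210 0o543210] [],
.mk (.mk 615 0o76543210 0o76543210 0o453210) [.mk 859 0o76425310 0o76352410 0o354210, .mk 1040
0o76143502 0o76243051 0o123540] [],
.mk (.mk 978 0o76451320 0o76452130 0o451320) [.mk 1004 0o76423501 0o76253401 0o152304] [],
.mk (.mk 789 0o76250134 0o76401523 0o42135) [.mk 824 0o76543021 0o76543102 0o250431, .mk 1043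
0o76541230 0o76541230 0o451230] [],
.mk (.mk 789 0o76132540 0o76214350 0o143502) [.mk 804 0o76345201 0o76345201 0o253104, .mk 1077
0o76452310 0o76452310 0o453120] [],
.mk (.mk 777 0o76542130 0o76541320 0o452130) [.mk 634 0o76543210 0o76543210 0o543210, .mk 973
0o76530124 0o76504123 0o301524] [],
.mk (.mk 1004 0o76104253 0o76130254 0o310254) [.mk 1005 0o76214053 0o76130542 0o15243, .mk 1029
0o76410352 0o76152043 0o203451] [],
.mk (.mk 631 0o76543021 0o76543102 0o204351) [.mk 1133 0o76241530 0o76241530 0o145230, .mk 920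
0o76451230 0o76451230 0o451230] [],
.mk (.mk 1032 0o76453210 0o76453210 0o453210) [.mk 867 0o76214503 0o76230541 0o120354, .mk 631
0o76325410 0o76325410 0o352401]
[0x5f0822104840580451a2eb160e020c75005405ec01a06480000000460084010800115c004002db0820044219281208223000803846510a450044170c2429f2406841694a51002601443800550002007c03f140408989108255101a0896207020080243148312880704254e00008414469],
.mk (.mk 993 0o76502314 0o76502314 0o13524) [.mk 867 0o76452310 0o76452310 0o453120, .mk 631
0o76325410 0o76325410 0o354210]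
[0xba0000422800e0812004848b185948e805e40150035048c1004c020000180230042000057001000b5420041100675190429b01200202000600042e000e309067c981c18aa01c0000007e003e612861710a530082004202944209546068025881c08001088a5208000894303800080254ec000841190d],
.mk (.mk 713 0o76401523 0o76250134 0o103452) [.mk 729 0o76450312 0o76452013 0o201345, .mk 1043
0o76451230 0o76451230 0o451230] [],
.mk (.mk 787 0o76143502 0o76243051 0o123504) [.mk 1043 0o76451230 0o76451230 0o451230, .mk 1042
0o76543210 0o76543210 0o543210] [],
.mk (.mk 761 0o76425310 0o76352410 0o354210) [.mk 955 0o76543210 0o76543210 0o543210, .mk 1031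
0o76541230 0o76541230 0o451230] [],
.mk (.mk 878 0o76134502 0o76234051 0o210534) [.mk 1094 0o76431502 0o76254031 0o32415, .mk 1042
0o76314502 0o76235041 0o123504] [],
.mk (.mk 573 0o76543210 0o76543210 0o543210) [.mk 1071 0o76431052 0o76154032 0o132504, .mk 931
0o76452031 0o76451302 0o230514] [],
.mk (.mk 742 0o76254130 0o76431520 0o145230) [.mk 931 0o76345120 0o76345120 0o453120, .mk 927
0o76345210 0o76345210 0o354102] [],
.mk (.mk 712 0o76432510 0o76254310 0o254130) [.mk 1040 0o76401523 0o76250134 0o130254, .mk 1013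
0o76401523 0o76250134 0o31254] [],
.mk (.mk 731 0o76543102 0o76543021 0o213054) [.mk 588 0o76254013 0o76430512 0o105243] [],
.mk (.mk 820 0o76451023 0o76450132 0o15432) [.mk 1141 0o76542310 0o76542310 0o254310, .mk 820
0o76542013 0o76540312 0o105342] [],
.mk (.mk 725 0o76543210 0o76543210 0o543210) [.mk 1188 0o76432501 0o76254301 0o132504, .mk 845
0o76354210 0o76435210 0o453210] [],
.mk (.mk 979 0o76423501 0o76253401 0o152304) [.mk 767 0o76253410 0o76423510 0o235401, .mk 841
0o76543210 0o76543210 0o543210] [],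
.mk (.mk 655 0o76451320 0o76452130 0o451320) [.mk 999 0o76345021 0o76345102 0o250413] [],
.mk (.mk 649 0o76543210 0o76543210 0o453210) [.mk 1003 0o76321540 0o76215430 0o235401, .mk 999
0o76543210 0o76543210 0o543210] [],
.mk (.mk 770 0o76354210 0o76435210 0o453210) [.mk 1019 0o76521403 0o76520431 0o305412, .mk 1003
0o76104235 0o76031254 0o210354] [],
.mk (.mk 981 0o76543210 0o76543210 0o543210) [.mk 1060 0o76541203 0o76540231 0o43512, .mk 768
0o76542130 0o76541320 0o452130] [],
.mk (.mk 768 0o76324510 0o76235410 0o125403) [.mk 794 0o76325410 0o76325410 0o215403, .mk 996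
0o76014523 0o76230145 0o31245] [],
.mk (.mk 619 0o76354210 0o76435210 0o453210) [.mk 1089 0o76432105 0o76054321 0o54321, .mk 1123
0o76513402 0o76523041 0o251430] [],
.mk (.mk 760 0o76213540 0o76213540 0o325401) [.mk 1176 0o76312450 0o76125340 0o235041] [],
.mk (.mk 571 0o76543210 0o76543210 0o543210) [.mk 1104 0o76534012 0o76534012 0o31524, .mk 884
0o76435210 0o76354210 0o453120] [],
.mk (.mk 788 0o76534120 0o76534120 0o253401) [.mk 812 0o76453120 0o76453120 0o352401, .mk 838
0o76453210 0o76453210 0o452310] [],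
.mk (.mk 772 0o76354210 0o76435210 0o452310) [.mk 994 0o76453120 0o76453120 0o352401, .mk 1104
0o76503421 0o76523104 0o201534] [],
.mk (.mk 750 0o76210543 0o76210543 0o105423) [.mk 1058 0o76014523 0o76230145 0o31425, .mk 582
0o76035412 0o76324015 0o304215] [],
.mk (.mk 759 0o76251430 0o76421530 0o145230) [.mk 1031 0o76315024 0o76305142 0o32514] [],
.mk (.mk 677 0o76345021 0o76345102 0o250431) [.mk 618 0o76543210 0o76543210 0o543210] [],
.mk (.mk 547 0o76203541 0o76213504 0o132540) [.mk 1163 0o76204531 0o76231504 0o213540] [],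
.mk (.mk 683 0o76304512 0o76235014 0o213405) [.mk 1031 0o76204513 0o76230514 0o123045] [],
.mk (.mk 985 0o76452130 0o76451320 0o23451) [.mk 633 0o76542130 0o76541320 0o230451] [],
.mk (.mk 624 0o76352410 0o76425310 0o125043) [.mk 1050 0o76451230 0o76451230 0o451230, .mk 1084
0o76312504 0o76205341 0o32514] [],
.mk (.mk 696 0o76504321 0o76532104 0o31254) [.mk 565 0o76524310 0o76532410 0o352401] [],
.mk (.mk 758 0o76413205 0o76053241 0o35421) [.mk 981 0o76543210 0o76543210 0o543210] [],
.mk (.mk 693 0o76425310 0o76352410 0o354210) [.mk 1042 0o76453210 0o76453210 0o453210] [],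
.mk (.mk 717 0o76051342 0o76412035 0o140235) [.mk 1137 0o76435012 0o76354012 0o350214] [],
.mk (.mk 809 0o76543012 0o76543012 0o350214) [.mk 1047 0o76250134 0o76401523 0o105423, .mk 615
0o76543210 0o76543210 0o543210] [],
.mk (.mk 553 0o76543021 0o76543102 0o420531) [.mk 1134 0o76024351 0o76132405 0o102354] [],
.mk (.mk 553 0o76543210 0o76543210 0o543210) [.mk 1150 0o76143520 0o76243150 0o13254, .mk 789
0o76253410 0o76423510 0o102345] [],
.mk (.mk 985 0o76324510 0o76235410 0o354210) [.mk 831 0o76453210 0o76453210 0o453210] [],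
.mk (.mk 662 0o76543210 0o76543210 0o543210) [.mk 809 0o76324501 0o76235401 0o123540] [],
.mk (.mk 749 0o76423501 0o76253401 0o240531) [.mk 1123 0o76523140 0o76513420 0o145230] [],
.mk (.mk 747 0o76453210 0o76453210 0o453210) [.mk 1158 0o76541302 0o76542031 0o123540, .mk 841
0o76543210 0o76543210 0o543210] [],
.mk (.mk 730 0o76512034 0o76501342 0o102354) [.mk 1058 0o76541320 0o76542130 0o451320, .mk 747
0o76543210 0o76543210 0o543210] [],
.mk (.mk 767 0o76543210 0o76543210 0o453210) [.mk 1075 0o76354201 0o76435201 0o34512, .mk 792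
0o76543210 0o76543210 0o543210] [],
.mk (.mk 746 0o76543210 0o76543210 0o543210) [.mk 752 0o76152034 0o76401352 0o203514] [],
.mk (.mk 752 0o76235104 0o76304521 0o302415) [.mk 1067 0o76451032 0o76451032 0o250341, .mk 869
0o76134205 0o76034251 0o34251] [],
.mk (.mk 648 0o76201534 0o76201534 0o102534) [.mk 992 0o76201453 0o76120534 0o12534, .mk 859
0o76432510 0o76254310 0o352401] [],
.mk (.mk 982 0o76130254 0o76104253 0o104253) [.mk 618 0o76542130 0o76541320 0o230451] [],
.mk (.mk 628 0o76354021 0o76435102 0o240531) [.mk 1093 0o76451320 0o76452130 0o145230, .mk 618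
0o76543210 0o76543210 0o453210] [],
.mk (.mk 1012 0o76543210 0o76543210 0o453210) [.mk 868 0o76021345 0o76012435 0o14235, .mk 1003
0o76345120 0o76345120 0o254310] [],
.mk (.mk 794 0o76543210 0o76543210 0o543210) [.mk 1105 0o76450213 0o76450213 0o201435, .mk 1040
0o76415320 0o76352140 0o352401] [],
.mk (.mk 696 0o76014523 0o76230145 0o210435) [.mk 887 0o76215403 0o76320541 0o125340] [],
.mk (.mk 581 0o76543210 0o76543210 0o543210) [.mk 1092 0o76450123 0o76450123 0o51243, .mk 921
0o76425301 0o76352401 0o321540] [],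
.mk (.mk 883 0o76241530 0o76241530 0o205143) [.mk 751 0o76524301 0o76532401 0o152340, .mk 921
0o76543210 0o76543210 0o543210] [],
.mk (.mk 767 0o76452310 0o76452310 0o453120) [.mk 951 0o76534201 0o76534201 0o34521] [],
.mk (.mk 625 0o76513402 0o76523041 0o215340) [.mk 1161 0o76543210 0o76543210 0o452301, .mk 887
0o76430512 0o76254013 0o350214] [],
.mk (.mk 914 0o76435210 0o76354210 0o453210) [.mk 859 0o76543210 0o76543210 0o543210, .mk 1164
0o76314502 0o76235041 0o125340] [],
.mk (.mk 782 0o76231540 0o76214530 0o345012) [.mk 1022 0o76135240 0o76314250 0o143502, .mk 845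
0o76543210 0o76543210 0o543210] [],
.mk (.mk 805 0o76532410 0o76524310 0o245130) [.mk 1015 0o76453120 0o76453120 0o154320, .mk 782
0o76345210 0o76345210 0o354102] [],
.mk (.mk 855 0o76543210 0o76543210 0o543210) [.mk 1015 0o76502143 0o76510324 0o15324, .mk 857
0o76413502 0o76253041 0o215430] [],
.mk (.mk 799 0o76514023 0o76530142 0o14532) [.mk 860 0o76543210 0o76543210 0o452301, .mk 799
0o76514023 0o76530142 0o105423]
[0x308763c46431860648a2414621143020442414320a0506d03408502048b34402b088180f8501cc3308836314c4104204c162104115d2025081210096248915c4150cc000830302c,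
0x12c8c806141d10804122b824e2602b3442872190148230409d08009410084440104486e47019844c2c09920680217840800032880d4b80008258025,
0xc00a1384c1290213082680c039844c31461b8d801010180462104c6281a0184e15044480824308456b0d028ca3d8c4218c29084a01000360123598cd11480002a0000114d400082db0ec,
0x203da08804608c404099fc0dc000c91088349a4c180928e0505da01304d5959ca045409841c940599c0d4dd8082d29d0255809cc80d0d0000829b625],
.mk (.mk 776 0o76543210 0o76543210 0o452301) [.mk 997 0o76543210 0o76543210 0o245301, .mk 997
0o76543210 0o76543210 0o354210] [],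
.mk (.mk 787 0o76210534 0o76201543 0o104352) [.mk 841 0o76543210 0o76543210 0o543210, .mk 804
0o76345201 0o76345201 0o251304] [],
.mk (.mk 684 0o76543210 0o76543210 0o543210) [.mk 724 0o76254013 0o76430512 0o401523] [],
.mk (.mk 703 0o76543210 0o76543210 0o543210) [.mk 850 0o76025314 0o76302415 0o214035] [],
.mk (.mk 703 0o76453210 0o76453210 0o453210) [.mk 1187 0o76543201 0o76543201 0o135204] [],
.mk (.mk 676 0o76453210 0o76453210 0o453210) [.mk 1102 0o76243501 0o76243501 0o245013, .mk 1009
0o76531204 0o76504231 0o53412] [],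
.mk (.mk 1009 0o76215403 0o76320541 0o35421) [.mk 877 0o76451320 0o76452130 0o451320, .mk 928
0o76423510 0o76253410 0o354210] [],
.mk (.mk 982 0o76451230 0o76451230 0o451230) [.mk 877 0o76543210 0o76543210 0o543210] [],
.mk (.mk 989 0o76542130 0o76541320 0o452130) [.mk 1010 0o76325140 0o76315420 0o245130, .mk 1043
0o76543210 0o76543210 0o543210] [],
.mk (.mk 732 0o76501243 0o76510234 0o321045) [.mk 1010 0o76541230 0o76541230 0o153042] [],
.mk (.mk 675 0o76543210 0o76543210 0o543210) [.mk 1174 0o76235401 0o76324501 0o245103, .mk 928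
0o76345210 0o76345210 0o453210] [],
.mk (.mk 835 0o76134025 0o76034152 0o42531) [.mk 997 0o76104325 0o76032154 0o201534, .mk 717
0o76543210 0o76543210 0o543210] [],
.mk (.mk 779 0o76543210 0o76543210 0o543210) [.mk 717 0o76420531 0o76251403 0o235014, .mk 717
0o76502431 0o76521304 0o324105] [],
.mk (.mk 702 0o76543210 0o76543210 0o543210) [.mk 1030 0o76435210 0o76354210 0o452310] [],
.mk (.mk 835 0o76201435 0o76021534 0o23145) [.mk 1074 0o76401352 0o76152034 0o320415, .mk 992
0o76543210 0o76543210 0o453210] [],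
.mk (.mk 718 0o76425310 0o76352410 0o354120) [.mk 835 0o76541032 0o76541032 0o205431] [],
.mk (.mk 732 0o76543210 0o76543210 0o543210) [.mk 835 0o76152043 0o76410352 0o321054] [],
.mk (.mk 673 0o76534210 0o76534210 0o452310) [.mk 1178 0o76543210 0o76543210 0o354120, .mk 843
0o76423150 0o76153420 0o154320] [],
.mk (.mk 793 0o76543210 0o76543210 0o543210) [.mk 888 0o76453012 0o76453012 0o301452, .mk 992
0o76234051 0o76134502 0o240513] [],
.mk (.mk 731 0o76342510 0o76245310 0o354120) [.mk 882 0o76543210 0o76543210 0o543210] [],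
.mk (.mk 1003 0o76513204 0o76503241 0o215430) [.mk 1076 0o76351402 0o76425031 0o35142, .mk 893
0o76345210 0o76345210 0o453210] [],
.mk (.mk 806 0o76543210 0o76543210 0o543210) [.mk 1100 0o76234510 0o76234510 0o35124, .mk 995
0o76543210 0o76543210 0o354210] [],
.mk (.mk 735 0o76415032 0o76351042 0o250341) [.mk 1165 0o76532104 0o76504321 0o53412] [],
.mk (.mk 775 0o76453210 0o76453210 0o453210) [.mk 886 0o76543210 0o76543210 0o543210] [],
.mk (.mk 753 0o76524310 0o76532410 0o452310) [.mk 879 0o76432510 0o76254310 0o154320, .mk 600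
0o76543210 0o76543210 0o543210] []]

theorem v1700 : chkL Tab.T5 Tab.RT Tab.reps Tab.E2 Ker.cert7 D1700 1700 = true := by
  decide +kernel

end CR.C2
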