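import Pool.Agent.Lib.MP_6f5d36_co.Ker
import Pool.Agent.Lib.MP_6f5d36_co.RTab
import Pool.Agent.Lib.MP_6f5d36_co.C2.KerC
import Pool.Agent.Lib.MP_6f5d36_co.C2.ETab

/-! MP_6f5d36_co, case (ii), level 7 : the ranks 1800, ..., 1899 -/

set_option autoImplicit false
set_option maxRecDepth 100000

noncomputable section

namespace CR.C2

/-- the frames and certificates of the ranks 1800, ..., 1899 -/
def D1800 : List It :=
[.mk (.mk 753 0o76543210 0o76543210 0o543210) [.mk 1066 0o76014253 0o76130245 0o120345, .mk 783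
0o76432150 0o76154320 0o354102] [],
.mk (.mk 782 0o76523041 0o76513402 0o213405) [.mk 911 0o76453210 0o76453210 0o453210, .mk 1022
0o76513402 0o76523041 0o52431]
[0x211cf0280da60843a0591c01473129602895093cc2491882057cb500a144157700a813807c80524a0d9200b40d002e6e011c160000b108380110c800082ad6a2],
.mk (.mk 543 0o76523401 0o76523401 0o250314) [.mk 1019 0o76453210 0o76453210 0o154230] [],
.mk (.mk 815 0o76345210 0o76345210 0o453120) [.mk 1044 0o76432501 0o76254301 0o54213] [],
.mk (.mk 804 0o76501324 0o76502134 0o201345) [.mk 912 0o76432150 0o76154320 0o354210, .mk 1166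
0o76102435 0o76021354 0o103254] [],
.mk (.mk 802 0o76453210 0o76453210 0o453210) [.mk 993 0o76054132 0o76431025 0o41325, .mk 907
0o76543210 0o76543210 0o543210] [],
.mk (.mk 809 0o76452310 0o76452310 0o245130) [.mk 845 0o76543210 0o76543210 0o453210, .mk 1015
0o76543120 0o76543120 0o154320] [],
.mk (.mk 708 0o76350142 0o76415023 0o102543) [.mk 805 0o76542310 0o76542310 0o254130, .mk 1006
0o76452130 0o76451320 0o53142] [],
.mk (.mk 712 0o76452103 0o76450321 0o24351) [.mk 714 0o76542103 0o76540321 0o204351] [],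
.mk (.mk 697 0o76452130 0o76451320 0o53142) [.mk 697 0o76543210 0o76543210 0o254310] [],
.mk (.mk 755 0o76534120 0o76534120 0o453120) [.mk 1119 0o76543210 0o76543210 0o254310, .mk 1064
0o76305241 0o76315204 0o143205] [],
.mk (.mk 708 0o76530142 0o76514023 0o103452) [.mk 855 0o76235410 0o76324510 0o245130, .mk 912
0o76452310 0o76452310 0o354120] [],
.mk (.mk 725 0o76543210 0o76543210 0o543210) [.mk 1083 0o76432510 0o76254310 0o254310] [],
.mk (.mk 820 0o76145023 0o76340152 0o15234) [.mk 1040 0o76542310 0o76542310 0o254310, .mk 935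
0o76253014 0o76403512 0o105324] [],
.mk (.mk 589 0o76534120 0o76534120 0o453120) [.mk 820 0o76145023 0o76340152 0o105342] [],
.mk (.mk 720 0o76345021 0o76345102 0o150423) [.mk 1045 0o76304521 0o76235104 0o243105, .mk 865
0o76435210 0o76354210 0o453210] [],
.mk (.mk 589 0o76524013 0o76530412 0o105243) [.mk 1121 0o76352014 0o76405312 0o201543, .mk 940
0o76435120 0o76354120 0o453120] [],
.mk (.mk 724 0o76240513 0o76240513 0o203514) [.mk 1025 0o76230514 0o76204513 0o23514, .mk 1066
0o76410523 0o76250143 0o130245] [],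
.mk (.mk 648 0o76352410 0o76425310 0o254130) [.mk 931 0o76543210 0o76543210 0o543210] [],
.mk (.mk 783 0o76345021 0o76345102 0o51324) [.mk 937 0o76503421 0o76523104 0o243105, .mk 865
0o76435210 0o76354210 0o453210] [],
.mk (.mk 783 0o76543210 0o76543210 0o543210) [.mk 1152 0o76420315 0o76052413 0o214035, .mk 853
0o76453210 0o76453210 0o354102] [],
.mk (.mk 1044 0o76231045 0o76014532 0o12453) [.mk 1185 0o76453120 0o76453120 0o453120, .mk 950
0o76543210 0o76543210 0o543210] [],
.mk (.mk 762 0o76543210 0o76543210 0o543210) [.mk 1104 0o76345012 0o76345012 0o41523] [],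
.mk (.mk 617 0o76543210 0o76543210 0o543210) [.mk 926 0o76140352 0o76142053 0o123540, .mk 1024
0o76321504 0o76205431 0o25431] [],
.mk (.mk 986 0o76410352 0o76152043 0o231450) [.mk 872 0o76103254 0o76103254 0o103245] [],
.mk (.mk 706 0o76421503 0o76250431 0o205413) [.mk 940 0o76543210 0o76543210 0o543210, .mk 1062
0o76354210 0o76435210 0o453210] [],
.mk (.mk 1013 0o76432510 0o76254310 0o254310) [.mk 940 0o76453120 0o76453120 0o453120, .mk 890
0o76543210 0o76543210 0o543210] [],
.mk (.mk 1001 0o76402531 0o76251304 0o134025) [.mk 1106 0o76230514 0o76204513 0o23514, .mk 931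
0o76543210 0o76543210 0o543210] [],
.mk (.mk 763 0o76543210 0o76543210 0o543210) [.mk 930 0o76245013 0o76340512 0o123540, .mk 1108
0o76025134 0o76301425 0o14325] [],
.mk (.mk 763 0o76543210 0o76543210 0o543210) [.mk 858 0o76250413 0o76420513 0o203541, .mk 1126
0o76435102 0o76354021 0o152403, .mk 975 0o76241350 0o76142530 0o345201] [],
.mk (.mk 768 0o76401532 0o76251034 0o213045) [.mk 1059 0o76103542 0o76213054 0o32514] [],
.mk (.mk 694 0o76514320 0o76532140 0o314052) [.mk 768 0o76541320 0o76542130 0o451320] [],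
.mk (.mk 748 0o76451320 0o76452130 0o451320) [.mk 1084 0o76312540 0o76215340 0o325041, .mk 768
0o76543210 0o76543210 0o543210] [],
.mk (.mk 764 0o76453210 0o76453210 0o453210) [.mk 969 0o76432051 0o76154302 0o140523, .mk 1123
0o76534210 0o76534210 0o254310] [],
.mk (.mk 669 0o76543210 0o76543210 0o543210) [.mk 714 0o76342510 0o76245310 0o354210] [],
.mk (.mk 740 0o76451320 0o76452130 0o451320) [.mk 800 0o76241530 0o76241530 0o145230] [],
.mk (.mk 564 0o76541320 0o76542130 0o451320) [.mk 1163 0o76451023 0o76450132 0o42513, .mk 830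
0o76543210 0o76543210 0o543210] [],
.mk (.mk 564 0o76543210 0o76543210 0o543210) [.mk 1200 0o76543120 0o76543120 0o452310] [],
.mk (.mk 856 0o76543210 0o76543210 0o543210) [.mk 887 0o76453210 0o76453210 0o453120] [],
.mk (.mk 647 0o76435210 0o76354210 0o453210) [.mk 694 0o76543210 0o76543210 0o543210] [],
.mk (.mk 738 0o76543210 0o76543210 0o543210) [.mk 869 0o76432150 0o76154320 0o154320] [],
.mk (.mk 694 0o76534201 0o76534201 0o253104) [.mk 980 0o76234105 0o76034521 0o32451] [],
.mk (.mk 647 0o76354210 0o76435210 0o453210) [.mk 1033 0o76342150 0o76145320 0o230514] [],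
.mk (.mk 686 0o76054132 0o76431025 0o123045) [.mk 918 0o76543210 0o76543210 0o543210] [],
.mk (.mk 798 0o76543210 0o76543210 0o543210) [.mk 967 0o76341502 0o76245031 0o321504] [],
.mk (.mk 704 0o76502431 0o76521304 0o13254) [.mk 961 0o76423510 0o76253410 0o354120] [],
.mk (.mk 613 0o76543210 0o76543210 0o543210) [.mk 1112 0o76435210 0o76354210 0o453210] [],
.mk (.mk 689 0o76543210 0o76543210 0o543210) [.mk 1030 0o76453210 0o76453210 0o452310] [],
.mk (.mk 689 0o76240513 0o76240513 0o205314) [.mk 1083 0o76410523 0o76250143 0o130245] [],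
.mk (.mk 764 0o76543210 0o76543210 0o543210) [.mk 1095 0o76214035 0o76031542 0o201354] [],
.mk (.mk 707 0o76340521 0o76245103 0o230541) [.mk 908 0o76543210 0o76543210 0o543210] [],
.mk (.mk 707 0o76402513 0o76250314 0o231045) [.mk 782 0o76534210 0o76534210 0o453210, .mk 1015
0o76402513 0o76250314 0o132045] [],
.mk (.mk 555 0o76524013 0o76530412 0o105234) [.mk 1006 0o76543210 0o76543210 0o254130, .mk 1188
0o76523014 0o76503412 0o15234] [],
.mk (.mk 738 0o76453210 0o76453210 0o452310) [.mk 756 0o76543210 0o76543210 0o543210] [],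
.mk (.mk 728 0o76421350 0o76152430 0o125043) [.mk 738 0o76421530 0o76251430 0o215043] [],
.mk (.mk 783 0o76453210 0o76453210 0o354210) [.mk 884 0o76543210 0o76543210 0o453120, .mk 937
0o76435210 0o76354210 0o154230] [],
.mk (.mk 728 0o76302541 0o76215304 0o210435) [.mk 784 0o76402351 0o76152304 0o124035] [],
.mk (.mk 824 0o76543201 0o76543201 0o350412) [.mk 1030 0o76534210 0o76534210 0o453210, .mk 620
0o76543210 0o76543210 0o543210] [],
.mk (.mk 601 0o76543210 0o76543210 0o543210) [.mk 1088 0o76312405 0o76025341 0o201534] [],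
.mk (.mk 579 0o76534210 0o76534210 0o453210) [.mk 1091 0o76543210 0o76543210 0o543210, .mk 1054
0o76135024 0o76304152 0o102435] [],
.mk (.mk 792 0o76543210 0o76543210 0o325401) [.mk 792 0o76543210 0o76543210 0o543210, .mk 1149
0o76453120 0o76453120 0o234501]
[0x6a16c040919190c8c4e846cc549fc0400fc00002403c46c00480482c82c00c0000046d88a4804074086e8d0010d8002129478c32c6c09d4010f56f107418c48443b07c4048dc45c43c80140c4068c6c1080001400081d0e40008391b64,
0x81a501c9140a00bc8b96f557c0490a4058824425084284d345bc03000886233811c0943862681701584988504f0218cbe4fc50ec410f81a0051d108fca8063945025049d77d434069c9e09dcdc4c840d40d00241d0e000083ad464],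
.mk (.mk 977 0o76301254 0o76105234 0o12534) [.mk 859 0o76435210 0o76354210 0o352401] [],
.mk (.mk 977 0o76302541 0o76215304 0o13452) [.mk 1042 0o76543210 0o76543210 0o543210] [],
.mk (.mk 734 0o76530214 0o76504213 0o201543) [.mk 1001 0o76453210 0o76453210 0o153402, .mk 934
0o76345210 0o76345210 0o354102]
[0x200ca198110041023049086610020010025091301901871c0128800c02420d4b3a65062118453c4785184c0a010c410470023014804b0040360300154ac00082eb642],
.mk (.mk 670 0o76530124 0o76504123 0o203154) [.mk 727 0o76435210 0o76354210 0o453210] [],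
.mk (.mk 583 0o76543210 0o76543210 0o453210) [.mk 792 0o76543210 0o76543210 0o543210, .mk 1000
0o76534120 0o76534120 0o254310] [],
.mk (.mk 609 0o76543210 0o76543210 0o543210) [.mk 1081 0o76542310 0o76542310 0o354210, .mk 1050
0o76542130 0o76541320 0o452130] [],
.mk (.mk 1002 0o76032415 0o76024315 0o31425) [.mk 1107 0o76543210 0o76543210 0o452301] [],
.mk (.mk 733 0o76305142 0o76315024 0o201543) [.mk 1012 0o76542130 0o76541320 0o452130, .mk 1110
0o76204153 0o76130524 0o21453] [],
.mk (.mk 686 0o76501324 0o76502134 0o103542) [.mk 984 0o76453210 0o76453210 0o453210] [],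
.mk (.mk 657 0o76452130 0o76451320 0o452130) [.mk 841 0o76543210 0o76543210 0o543210] [],
.mk (.mk 847 0o76502413 0o76520314 0o130254) [.mk 841 0o76341502 0o76245031 0o241503, .mk 941
0o76543210 0o76543210 0o543210] [],
.mk (.mk 747 0o76451320 0o76452130 0o451320) [.mk 841 0o76543210 0o76543210 0o543210, .mk 854
0o76342501 0o76245301 0o125304] [],
.mk (.mk 745 0o76451230 0o76451230 0o451230) [.mk 1107 0o76324510 0o76235410 0o352401, .mk 867
0o76253041 0o76413502 0o205413] [],
.mk (.mk 830 0o76543210 0o76543210 0o543210) [.mk 910 0o76425310 0o76352410 0o352401, .mk 842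
0o76452130 0o76451320 0o452130] [],
.mk (.mk 674 0o76354210 0o76435210 0o354210) [.mk 668 0o76543210 0o76543210 0o543210] [],
.mk (.mk 1044 0o76120543 0o76210453 0o13452) [.mk 972 0o76541320 0o76542130 0o451320, .mk 636
0o76352410 0o76425310 0o354210] [],
.mk (.mk 1083 0o76142350 0o76142350 0o23154) [.mk 896 0o76253140 0o76413520 0o245310, .mk 1098
0o76340251 0o76145203 0o140523] [],
.mk (.mk 981 0o76543210 0o76543210 0o543210) [.mk 747 0o76542130 0o76541320 0o452130] [],
.mk (.mk 745 0o76543210 0o76543210 0o543210) [.mk 1003 0o76435120 0o76354120 0o254310]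
[0x4a04cceca03a0029b438100c60092b58260168a04c771481088a0950ce082e0a40e184455894c327048d50a0342129562761000100e188e4863e058040110d800082c9a5c],
.mk (.mk 729 0o76453210 0o76453210 0o453210) [.mk 967 0o76543210 0o76543210 0o543210, .mk 913
0o76523104 0o76503421 0o34251] [],
.mk (.mk 992 0o76345201 0o76345201 0o253104) [.mk 842 0o76541320 0o76542130 0o451320, .mk 913
0o76240531 0o76241503 0o105432] [],
.mk (.mk 746 0o76543210 0o76543210 0o543210) [.mk 1042 0o76541320 0o76542130 0o451320] [],
.mk (.mk 749 0o76302541 0o76215304 0o142305) [.mk 1024 0o76452301 0o76452301 0o251304] [],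
.mk (.mk 645 0o76543210 0o76543210 0o543210) [.mk 674 0o76324510 0o76235410 0o354210] [],
.mk (.mk 1052 0o76541230 0o76541230 0o451230) [.mk 919 0o76104532 0o76231054 0o130452, .mk 1081
0o76041235 0o76041235 0o201354] [],
.mk (.mk 869 0o76341205 0o76045231 0o34521) [.mk 970 0o76542310 0o76542310 0o453120, .mk 919
0o76351204 0o76405231 0o304521] [],
.mk (.mk 733 0o76452310 0o76452310 0o453120) [.mk 886 0o76543210 0o76543210 0o543210] [],
.mk (.mk 676 0o76354021 0o76435102 0o250413) [.mk 823 0o76524310 0o76532410 0o354210] [],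
.mk (.mk 779 0o76502314 0o76502314 0o31452) [.mk 1175 0o76540231 0o76541203 0o250314, .mk 823
0o76435210 0o76354210 0o452301] [],
.mk (.mk 669 0o76543210 0o76543210 0o543210) [.mk 1052 0o76541230 0o76541230 0o451230] [],
.mk (.mk 1027 0o76352041 0o76415302 0o142305) [.mk 1045 0o76153042 0o76413052 0o24153, .mk 922
0o76425310 0o76352410 0o354210] [],
.mk (.mk 768 0o76451320 0o76452130 0o451320) [.mk 1083 0o76423510 0o76253410 0o354120, .mk 1014
0o76452013 0o76450312 0o42531] [],
.mk (.mk 768 0o76541320 0o76542130 0o451320) [.mk 1044 0o76251034 0o76401532 0o205341, .mk 948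
0o76435210 0o76354210 0o354120] [],
.mk (.mk 717 0o76324510 0o76235410 0o354210) [.mk 897 0o76534120 0o76534120 0o254130] [],
.mk (.mk 1112 0o76435210 0o76354210 0o452310) [.mk 1115 0o76543210 0o76543210 0o543210, .mk 904
0o76124305 0o76032451 0o52341] [],
.mk (.mk 728 0o76543210 0o76543210 0o453210) [.mk 901 0o76215304 0o76302541 0o53241, .mk 886
0o76514302 0o76532041 0o305421] [],
.mk (.mk 984 0o76543210 0o76543210 0o543210) [.mk 1137 0o76415230 0o76351240 0o23415, .mk 630
0o76514320 0o76532140 0o230415] [],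
.mk (.mk 649 0o76345201 0o76345201 0o251304) [.mk 1031 0o76542310 0o76542310 0o453120] [],
.mk (.mk 991 0o76543210 0o76543210 0o543210) [.mk 1019 0o76403512 0o76253014 0o31425, .mk 1071
0o76103542 0o76213054 0o213504] []]

theorem v1800 : chkL Tab.T5 Tab.RT Tab.reps Tab.E2 Ker.cert7 D1800 1800 = true := by
  decide +kernel

end CR.C2
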