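import Pool.Agent.Lib.MP_6f5d36_co.Ker
import Pool.Agent.Lib.MP_6f5d36_co.RTab
import Pool.Agent.Lib.MP_6f5d36_co.C2.KerC
import Pool.Agent.Lib.MP_6f5d36_co.C2.ETab

/-! MP_6f5d36_co, case (ii), level 7 : the ranks 1900, ..., 1999 -/

set_option autoImplicit false
set_option maxRecDepth 100000

noncomputable section

namespace CR.C2

/-- the frames and certificates of the ranks 1900, ..., 1999 -/
def D1900 : List It :=
[.mk (.mk 977 0o76305214 0o76305214 0o35214) [.mk 717 0o76325410 0o76325410 0o354210, .mk 825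
0o76534120 0o76534120 0o254130] [],
.mk (.mk 605 0o76315240 0o76315240 0o235041) [.mk 1038 0o76125043 0o76310452 0o120345] [],
.mk (.mk 548 0o76504321 0o76532104 0o321450) [.mk 1038 0o76342105 0o76045321 0o53421, .mk 1052
0o76542310 0o76542310 0o453120] [],
.mk (.mk 717 0o76453201 0o76453201 0o152340) [.mk 883 0o76521430 0o76521430 0o205143] [],
.mk (.mk 979 0o76512403 0o76520341 0o125340) [.mk 843 0o76543210 0o76543210 0o543210] [],
.mk (.mk 692 0o76543210 0o76543210 0o543210) [.mk 843 0o76314502 0o76235041 0o132054, .mk 1097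
0o76542310 0o76542310 0o453120]
[0x74416005e120151002452842020546608200513214891151171d4b00a80124840104520b812324ba08ca13084324405148b3200c75c0350c06024c550140060c150cc000830b32d,
0x2c0088c1080608806328d84101c000582304009104651000484e019c824b604280e3080247042058420332a05d842014a140d6241584528c1195a10a1c07860198800000114d800082cb52d,
0x201394420334b145c100538868ca0603882611480c8ac164b2c82e1522cae629019018a2510123d4a810d5018e913204000d29a00405323060c110d000082cbb2d],
.mk (.mk 729 0o76543120 0o76543120 0o452310) [.mk 983 0o76543210 0o76543210 0o543210, .mk 1084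
0o76534102 0o76534021 0o120543] [],
.mk (.mk 823 0o76512304 0o76502341 0o123504) [.mk 1114 0o76430125 0o76054123 0o14325, .mk 1081
0o76435210 0o76354210 0o453210] [],
.mk (.mk 678 0o76145230 0o76341250 0o143052) [.mk 1129 0o76213450 0o76123540 0o24153]
[0xd208041705330a12403248dc8206112e9800c7308046a00028dc240771b09183000040ecc8011022590808600201802882c54705010a3e31a41203220444110dc00082da2c4,
0x18041551008380914140a02c0088510a02046903012404a3d8b00e100108020842780e8e1088504030814165040e0c028c434aa083285a00e004109e1344204154b800082dd2c4],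
.mk (.mk 1047 0o76241530 0o76241530 0o32145) [.mk 909 0o76452310 0o76452310 0o354120, .mk 957
0o76405231 0o76351204 0o120453]
[0xb0020080000709c00c6008001c004050c4788014200400050342305363801ca8153102440048454824084135a08050ca01c218a0048010f21a3104001029003c010195221245704154d0000832b654,
0x108108630500029102008a01aadb272c4a80500a0500190678c21b408d60940444bb2a0025044e22c0283180408949c0480788504e0300083802c0ac0280154b400082eba54],
.mk (.mk 585 0o76543210 0o76543210 0o453210) [.mk 1033 0o76240351 0o76142503 0o25314] [],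
.mk (.mk 1004 0o76142053 0o76140352 0o310254) [.mk 834 0o76152043 0o76410352 0o103254] [],
.mk (.mk 703 0o76543210 0o76543210 0o543210) [.mk 1059 0o76351240 0o76415230 0o134502, .mk 594
0o76543210 0o76543210 0o453210] [],
.mk (.mk 743 0o76543210 0o76543210 0o453210) [.mk 977 0o76452031 0o76451302 0o352104, .mk 629
0o76543210 0o76543210 0o543210] [],
.mk (.mk 768 0o76543210 0o76543210 0o543210) [.mk 1053 0o76413250 0o76153240 0o253401, .mk 1005
0o76351204 0o76405231 0o102435] [],
.mk (.mk 745 0o76543210 0o76543210 0o543210) [.mk 1016 0o76413025 0o76053142 0o52341] [],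
.mk (.mk 745 0o76035142 0o76314025 0o204315) [.mk 904 0o76543210 0o76543210 0o543210, .mk 1058
0o76014253 0o76130245 0o21435] [],
.mk (.mk 745 0o76543210 0o76543210 0o543210) [.mk 1065 0o76245130 0o76341520 0o245310, .mk 1058
0o76453120 0o76453120 0o452310] [],
.mk (.mk 598 0o76534201 0o76534201 0o251304) [.mk 1058 0o76543120 0o76543120 0o452310, .mk 841
0o76543210 0o76543210 0o543210] [],
.mk (.mk 581 0o76542310 0o76542310 0o453120) [.mk 1137 0o76451023 0o76450132 0o42513, .mk 841
0o76543210 0o76543210 0o543210] [],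
.mk (.mk 730 0o76350142 0o76415023 0o230145) [.mk 1013 0o76542103 0o76540321 0o54321, .mk 1086
0o76543210 0o76543210 0o453210] [],
.mk (.mk 976 0o76324501 0o76235401 0o245013) [.mk 999 0o76354210 0o76435210 0o453210, .mk 1060
0o76351402 0o76425031 0o35412] [],
.mk (.mk 777 0o76451230 0o76451230 0o451230) [.mk 817 0o76341520 0o76245130 0o145230, .mk 937
0o76450321 0o76452103 0o234015] [],
.mk (.mk 664 0o76453210 0o76453210 0o453210) [.mk 1009 0o76431205 0o76054231 0o53412] [],
.mk (.mk 1010 0o76432510 0o76254310 0o254301) [.mk 1026 0o76342510 0o76245310 0o354120, .mk 897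
0o76425301 0o76352401 0o153204] [],
.mk (.mk 684 0o76543210 0o76543210 0o543210) [.mk 1029 0o76154230 0o76431250 0o134052] [],
.mk (.mk 1025 0o76450321 0o76452103 0o150432) [.mk 1098 0o76543201 0o76543201 0o253104, .mk 939
0o76350241 0o76415203 0o15342] [],
.mk (.mk 1026 0o76542301 0o76542301 0o350412) [.mk 1026 0o76345210 0o76345210 0o453210, .mk 1054
0o76120435 0o76021453 0o123054] [],
.mk (.mk 1073 0o76405213 0o76350214 0o204135) [.mk 916 0o76345210 0o76345210 0o453210, .mk 897
0o76431520 0o76254130 0o352401] [],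
.mk (.mk 759 0o76435012 0o76354012 0o450213) [.mk 1040 0o76413052 0o76153042 0o204351, .mk 887
0o76543210 0o76543210 0o543210] [],
.mk (.mk 759 0o76214035 0o76031542 0o14532) [.mk 1071 0o76532410 0o76524310 0o354210] [],
.mk (.mk 1040 0o76201435 0o76021534 0o203145) [.mk 1070 0o76345210 0o76345210 0o453210, .mk 937
0o76543210 0o76543210 0o543210] [],
.mk (.mk 1122 0o76240153 0o76140523 0o230154) [.mk 637 0o76354210 0o76435210 0o453210, .mk 1129
0o76354102 0o76435021 0o45321] [],
.mk (.mk 805 0o76543210 0o76543210 0o543210) [.mk 835 0o76541032 0o76541032 0o205341] [],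
.mk (.mk 732 0o76543210 0o76543210 0o543210) [.mk 977 0o76401235 0o76051234 0o302145] [],
.mk (.mk 761 0o76524031 0o76531402 0o301245) [.mk 824 0o76435210 0o76354210 0o453210, .mk 957
0o76425103 0o76350421 0o54231] [],
.mk (.mk 662 0o76543210 0o76543210 0o543210) [.mk 831 0o76453210 0o76453210 0o453210] [],
.mk (.mk 610 0o76352410 0o76425310 0o452301) [.mk 915 0o76543210 0o76543210 0o543210, .mk 914
0o76540231 0o76541203 0o34125] [],
.mk (.mk 571 0o76354210 0o76435210 0o453120) [.mk 1121 0o76532410 0o76524310 0o154320, .mk 929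
0o76543210 0o76543210 0o543210] [],
.mk (.mk 884 0o76243510 0o76243510 0o453210) [.mk 936 0o76510324 0o76502143 0o13245, .mk 975
0o76251430 0o76421530 0o345102] [],
.mk (.mk 573 0o76543210 0o76543210 0o543210) [.mk 999 0o76543021 0o76543102 0o253104, .mk 1199
0o76534210 0o76534210 0o453210] [],
.mk (.mk 814 0o76254310 0o76432510 0o453210) [.mk 1041 0o76245310 0o76342510 0o245130] [],
.mk (.mk 1014 0o76345120 0o76345120 0o145230) [.mk 865 0o76512403 0o76520341 0o204531, .mk 866
0o76452310 0o76452310 0o354201] [],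
.mk (.mk 727 0o76543210 0o76543210 0o354102) [.mk 1013 0o76543210 0o76543210 0o254310, .mk 786
0o76352140 0o76415320 0o145320] [],
.mk (.mk 647 0o76503421 0o76523104 0o243105) [.mk 865 0o76435210 0o76354210 0o453210] [],
.mk (.mk 864 0o76523401 0o76523401 0o213405) [.mk 1057 0o76421305 0o76052431 0o24153, .mk 905
0o76543210 0o76543210 0o543210] [],
.mk (.mk 694 0o76351420 0o76425130 0o234051) [.mk 931 0o76521430 0o76521430 0o345201] [],
.mk (.mk 1098 0o76352410 0o76425310 0o254130) [.mk 936 0o76504123 0o76530124 0o13425, .mk 950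
0o76345210 0o76345210 0o453210, .mk 975 0o76214530 0o76231540 0o345102] [],
.mk (.mk 574 0o76543210 0o76543210 0o543210) [.mk 880 0o76435120 0o76354120 0o145230, .mk 816
0o76453201 0o76453201 0o240513] [],
.mk (.mk 574 0o76543210 0o76543210 0o543210) [.mk 1068 0o76532401 0o76524301 0o135024, .mk 827
0o76450312 0o76452013 0o32154] [],
.mk (.mk 774 0o76351420 0o76425130 0o234501) [.mk 1049 0o76543210 0o76543210 0o453210] [],
.mk (.mk 845 0o76543210 0o76543210 0o543210) [.mk 1150 0o76153240 0o76413250 0o142503, .mk 837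
0o76354210 0o76435210 0o453210] [],
.mk (.mk 837 0o76543210 0o76543210 0o453210) [.mk 1082 0o76542310 0o76542310 0o254130, .mk 1130
0o76405231 0o76351204 0o43125] [],
.mk (.mk 774 0o76503142 0o76513024 0o13452) [.mk 837 0o76345210 0o76345210 0o453210] [],
.mk (.mk 685 0o76542310 0o76542310 0o254310) [.mk 945 0o76435210 0o76354210 0o453210] [],
.mk (.mk 685 0o76542310 0o76542310 0o254130) [.mk 993 0o76452130 0o76451320 0o53142, .mk 934
0o76345120 0o76345120 0o354012] [],
.mk (.mk 606 0o76534120 0o76534120 0o453120) [.mk 940 0o76215043 0o76310542 0o105432, .mk 1167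
0o76523140 0o76513420 0o345012] [],
.mk (.mk 727 0o76152043 0o76410352 0o15342) [.mk 1007 0o76542310 0o76542310 0o254310] [],
.mk (.mk 646 0o76034512 0o76234015 0o204315) [.mk 864 0o76543210 0o76543210 0o543210] [],
.mk (.mk 782 0o76543210 0o76543210 0o543210) [.mk 1126 0o76345012 0o76345012 0o41523, .mk 912
0o76520341 0o76512403 0o123540] [],
.mk (.mk 802 0o76154023 0o76430152 0o15432) [.mk 1121 0o76350214 0o76405213 0o203541, .mk 899
0o76245013 0o76340512 0o105342] [],
.mk (.mk 808 0o76504312 0o76532014 0o42315) [.mk 802 0o76345120 0o76345120 0o453120, .mk 790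
0o76543210 0o76543210 0o543210] [],
.mk (.mk 679 0o76543210 0o76543210 0o543210) [.mk 1100 0o76251430 0o76421530 0o35421] [],
.mk (.mk 851 0o76125043 0o76310452 0o105432) [.mk 1118 0o76542310 0o76542310 0o254310, .mk 1062
0o76214053 0o76130542 0o15342] [],
.mk (.mk 1001 0o76320451 0o76125403 0o235014) [.mk 851 0o76543210 0o76543210 0o543210, .mk 958
0o76204153 0o76130524 0o103542] [],
.mk (.mk 652 0o76342510 0o76245310 0o254130) [.mk 586 0o76543210 0o76543210 0o543210] [],
.mk (.mk 712 0o76540213 0o76540213 0o203451) [.mk 720 0o76245013 0o76340512 0o105234] [],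
.mk (.mk 899 0o76245013 0o76340512 0o105243) [.mk 1181 0o76123450 0o76123450 0o345021, .mk 898
0o76253014 0o76403512 0o15243, .mk 1121 0o76352014 0o76405312 0o201543] [],
.mk (.mk 872 0o76435120 0o76354120 0o453120) [.mk 1074 0o76543210 0o76543210 0o254130, .mk 934
0o76215034 0o76301542 0o105324] [],
.mk (.mk 617 0o76534210 0o76534210 0o453210) [.mk 1109 0o76315042 0o76315042 0o14532, .mk 914
0o76432510 0o76254310 0o254130] [],
.mk (.mk 731 0o76423501 0o76253401 0o240531) [.mk 864 0o76534210 0o76534210 0o453210, .mk 1041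
0o76402513 0o76250314 0o132045] [],
.mk (.mk 589 0o76543210 0o76543210 0o543210) [.mk 1093 0o76530412 0o76524013 0o132540, .mk 1185
0o76254103 0o76430521 0o23541] [],
.mk (.mk 787 0o76452310 0o76452310 0o254310) [.mk 1041 0o76123045 0o76013452 0o12534, .mk 1088
0o76123045 0o76013452 0o102534] [],
.mk (.mk 790 0o76435210 0o76354210 0o453210) [.mk 966 0o76512340 0o76512340 0o214503, .mk 899
0o76543210 0o76543210 0o543210] [],
.mk (.mk 712 0o76542013 0o76540312 0o201453) [.mk 950 0o76435210 0o76354210 0o453210, .mk 899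
0o76245013 0o76340512 0o105243] [],
.mk (.mk 607 0o76354210 0o76435210 0o453210) [.mk 1034 0o76420351 0o76152403 0o152304, .mk 919
0o76251304 0o76402531 0o205431] [],
.mk (.mk 782 0o76543210 0o76543210 0o543210) [.mk 882 0o76512403 0o76520341 0o23514, .mk 1022
0o76503124 0o76503124 0o105324] [],
.mk (.mk 820 0o76543210 0o76543210 0o543210) [.mk 960 0o76501243 0o76510234 0o31245, .mk 1053
0o76402315 0o76052314 0o102354] [],
.mk (.mk 858 0o76540213 0o76540213 0o203451) [.mk 1158 0o76514023 0o76530142 0o150243, .mk 1136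
0o76534210 0o76534210 0o453210] [],
.mk (.mk 700 0o76302514 0o76205314 0o210435) [.mk 1045 0o76215304 0o76302541 0o25143, .mk 1125
0o76502314 0o76502314 0o124035] [],
.mk (.mk 1036 0o76534201 0o76534201 0o240513) [.mk 620 0o76534210 0o76534210 0o452310] [],
.mk (.mk 601 0o76543210 0o76543210 0o543210) [.mk 1044 0o76213504 0o76203541 0o204153, .mk 1031
0o76312405 0o76025341 0o24513] [],
.mk (.mk 597 0o76543210 0o76543210 0o452310) [.mk 906 0o76453210 0o76453210 0o354120, .mk 1133
0o76523140 0o76513420 0o154320] [],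
.mk (.mk 765 0o76435210 0o76354210 0o453210) [.mk 821 0o76543210 0o76543210 0o543210] [],
.mk (.mk 1053 0o76452310 0o76452310 0o354120) [.mk 956 0o76430251 0o76154203 0o152304, .mk 627
0o76543210 0o76543210 0o543210] [],
.mk (.mk 876 0o76543210 0o76543210 0o543210) [.mk 957 0o76320541 0o76215403 0o235014, .mk 1079
0o76345210 0o76345210 0o452310] [],
.mk (.mk 744 0o76543210 0o76543210 0o543210) [.mk 807 0o76430215 0o76054213 0o31542, .mk 1151
0o76534210 0o76534210 0o453210] [],
.mk (.mk 715 0o76543210 0o76543210 0o543210) [.mk 906 0o76431520 0o76254130 0o253401] [],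
.mk (.mk 619 0o76534210 0o76534210 0o354210) [.mk 1119 0o76542103 0o76540321 0o53421, .mk 879
0o76435201 0o76354201 0o253104] [],
.mk (.mk 1035 0o76320541 0o76215403 0o132540) [.mk 1064 0o76453210 0o76453210 0o452310] [],
.mk (.mk 619 0o76253401 0o76423501 0o245013) [.mk 1040 0o76410532 0o76251043 0o31245, .mk 1035
0o76543210 0o76543210 0o543210] [],
.mk (.mk 580 0o76543210 0o76543210 0o543210) [.mk 1080 0o76543120 0o76543120 0o452310, .mk 807
0o76451230 0o76451230 0o23514] [],
.mk (.mk 981 0o76320451 0o76125403 0o104523) [.mk 1051 0o76130452 0o76124053 0o12453, .mk 830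
0o76543210 0o76543210 0o543210] [],
.mk (.mk 581 0o76541230 0o76541230 0o451230) [.mk 1092 0o76340125 0o76045123 0o41253, .mk 1155
0o76423510 0o76253410 0o352401] [],
.mk (.mk 767 0o76542310 0o76542310 0o453120) [.mk 1145 0o76320451 0o76125403 0o14523] [],
.mk (.mk 707 0o76452103 0o76450321 0o231054) [.mk 718 0o76534210 0o76534210 0o354210] [],
.mk (.mk 668 0o76543210 0o76543210 0o543210) [.mk 707 0o76504231 0o76531204 0o210453] [],
.mk (.mk 982 0o76542130 0o76541320 0o452130) [.mk 825 0o76312540 0o76215340 0o142503] [],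
.mk (.mk 978 0o76452130 0o76451320 0o452130) [.mk 946 0o76304521 0o76235104 0o310542] [],
.mk (.mk 723 0o76543120 0o76543120 0o452310) [.mk 1050 0o76543210 0o76543210 0o543210, .mk 778
0o76342015 0o76045312 0o42351] []]

theorem v1900 : chkL Tab.T5 Tab.RT Tab.reps Tab.E2 Ker.cert7 D1900 1900 = true := by
  decide +kernel

end CR.C2
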