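import Pool.Agent.Lib.MP_6f5d36_co.Ker
import Pool.Agent.Lib.MP_6f5d36_co.RTab
import Pool.Agent.Lib.MP_6f5d36_co.C2.KerC
import Pool.Agent.Lib.MP_6f5d36_co.C2.ETab

/-! MP_6f5d36_co, case (ii), level 7 : the ranks 2000, ..., 2099 -/

set_option autoImplicit false
set_option maxRecDepth 100000

noncomputable section

namespace CR.C2

/-- the frames and certificates of the ranks 2000, ..., 2099 -/
def D2000 : List It :=
[.mk (.mk 708 0o76315402 0o76325041 0o125340) [.mk 874 0o76430521 0o76254103 0o230541] [],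
.mk (.mk 998 0o76513024 0o76503142 0o51342) [.mk 843 0o76543210 0o76543210 0o543210] [],
.mk (.mk 686 0o76315204 0o76305241 0o125430) [.mk 861 0o76534210 0o76534210 0o453210] [],
.mk (.mk 686 0o76431025 0o76054132 0o52413) [.mk 874 0o76543210 0o76543210 0o543210, .mk 1095
0o76543210 0o76543210 0o453210] [],
.mk (.mk 1038 0o76412530 0o76251340 0o21345) [.mk 909 0o76245130 0o76341520 0o145230, .mk 896
0o76523410 0o76523410 0o254130] [],
.mk (.mk 1038 0o76024513 0o76230415 0o210354) [.mk 1044 0o76541230 0o76541230 0o451230] [],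
.mk (.mk 1094 0o76354102 0o76435021 0o142503) [.mk 926 0o76542103 0o76540321 0o213504, .mk 822
0o76435210 0o76354210 0o453210] [],
.mk (.mk 897 0o76432510 0o76254310 0o245031) [.mk 1113 0o76034251 0o76134205 0o12354, .mk 897
0o76432510 0o76254310 0o354120, .mk 1113 0o76034251 0o76134205 0o103245] [],
.mk (.mk 1139 0o76152043 0o76410352 0o14523) [.mk 1139 0o76410352 0o76152043 0o321054, .mk 1139
0o76152043 0o76410352 0o105432] [],
.mk (.mk 742 0o76124503 0o76230451 0o215340) [.mk 1129 0o76432510 0o76254310 0o354210] [],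
.mk (.mk 703 0o76543210 0o76543210 0o543210) [.mk 990 0o76453210 0o76453210 0o354210] [],
.mk (.mk 619 0o76543210 0o76543210 0o543210) [.mk 1045 0o76435210 0o76354210 0o453210] [],
.mk (.mk 619 0o76543210 0o76543210 0o543210) [.mk 850 0o76350412 0o76425013 0o25314, .mk 1073
0o76250413 0o76420513 0o205134] [],
.mk (.mk 788 0o76451032 0o76451032 0o250341) [.mk 1029 0o76253140 0o76413520 0o24315, .mk 1047
0o76351420 0o76425130 0o342501] [],
.mk (.mk 716 0o76354210 0o76435210 0o453210) [.mk 1092 0o76504123 0o76530124 0o51234] [],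
.mk (.mk 570 0o76542301 0o76542301 0o250134) [.mk 716 0o76543210 0o76543210 0o154230] [],
.mk (.mk 805 0o76543210 0o76543210 0o543210) [.mk 857 0o76504321 0o76532104 0o243105, .mk 1130
0o76405321 0o76352104 0o423105] [],
.mk (.mk 707 0o76543210 0o76543210 0o453210) [.mk 1002 0o76253104 0o76403521 0o124503, .mk 1071
0o76543210 0o76543210 0o543210] [],
.mk (.mk 883 0o76254103 0o76430521 0o105423) [.mk 1199 0o76235401 0o76324501 0o250314, .mk 884
0o76532410 0o76524310 0o453120] [],
.mk (.mk 1001 0o76452013 0o76450312 0o230145) [.mk 1104 0o76453012 0o76453012 0o32415, .mk 1066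
0o76541032 0o76541032 0o132504] [],
.mk (.mk 777 0o76235401 0o76324501 0o203451) [.mk 884 0o76423510 0o76253410 0o453210, .mk 884
0o76543210 0o76543210 0o543210] [],
.mk (.mk 646 0o76453210 0o76453210 0o154230) [.mk 815 0o76542310 0o76542310 0o453120] [],
.mk (.mk 814 0o76543210 0o76543210 0o543210) [.mk 1011 0o76352140 0o76415320 0o125403, .mk 815
0o76542310 0o76542310 0o453120] [],
.mk (.mk 572 0o76543210 0o76543210 0o543210) [.mk 1009 0o76314520 0o76235140 0o142503] [],
.mk (.mk 553 0o76532410 0o76524310 0o125043) [.mk 1011 0o76421503 0o76250431 0o14325] [],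
.mk (.mk 835 0o76541032 0o76541032 0o250341) [.mk 1075 0o76531024 0o76504132 0o52431] [],
.mk (.mk 754 0o76543210 0o76543210 0o543210) [.mk 727 0o76453210 0o76453210 0o453210]
[0x54340130140c84d22f01a01400218112d34168090100002488100e40c0388749410c4224108e6094000211868402856000010e100228210c09a840850014394f006108458020406084100154d8000831c72b],
.mk (.mk 675 0o76453210 0o76453210 0o154230) [.mk 815 0o76543201 0o76543201 0o250134] [],
.mk (.mk 1000 0o76250431 0o76421503 0o134025) [.mk 1008 0o76024135 0o76031425 0o203145] [],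
.mk (.mk 864 0o76543210 0o76543210 0o543210) [.mk 1108 0o76524301 0o76532401 0o52341, .mk 866
0o76430251 0o76154203 0o123540] [],
.mk (.mk 864 0o76543210 0o76543210 0o543210) [.mk 1086 0o76542301 0o76542301 0o250431, .mk 936
0o76304152 0o76135024 0o103452] [],
.mk (.mk 1061 0o76351240 0o76415230 0o145230) [.mk 1086 0o76345120 0o76345120 0o23451, .mk 841
0o76543210 0o76543210 0o543210] [],
.mk (.mk 826 0o76452310 0o76452310 0o453120) [.mk 1066 0o76450132 0o76451023 0o231405, .mk 884
0o76543210 0o76543210 0o543210] [],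
.mk (.mk 705 0o76352410 0o76425310 0o354120) [.mk 1055 0o76432510 0o76254310 0o254301, .mk 1066
0o76205134 0o76301524 0o12453] [],
.mk (.mk 986 0o76021453 0o76120435 0o21354) [.mk 751 0o76012543 0o76210345 0o320145] [],
.mk (.mk 866 0o76543021 0o76543102 0o41325) [.mk 956 0o76235401 0o76324501 0o235014, .mk 865
0o76154230 0o76431250 0o345201] [],
.mk (.mk 864 0o76532401 0o76524301 0o231504) [.mk 1060 0o76341502 0o76245031 0o32514, .mk 881
0o76543210 0o76543210 0o543210] [],
.mk (.mk 801 0o76451320 0o76452130 0o354012) [.mk 844 0o76543210 0o76543210 0o543210] [],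
.mk (.mk 680 0o76543210 0o76543210 0o543210) [.mk 1120 0o76423150 0o76153420 0o145230] [],
.mk (.mk 773 0o76521430 0o76521430 0o325041) [.mk 1039 0o76213045 0o76013542 0o15432, .mk 1027
0o76534210 0o76534210 0o453210] [],
.mk (.mk 655 0o76452310 0o76452310 0o453120) [.mk 708 0o76531024 0o76504132 0o104235] [],
.mk (.mk 751 0o76432510 0o76254310 0o245301) [.mk 1155 0o76543210 0o76543210 0o452301, .mk 1107
0o76103245 0o76013254 0o13254] [],
.mk (.mk 976 0o76045213 0o76340215 0o120345) [.mk 983 0o76543120 0o76543120 0o452310] [],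
.mk (.mk 748 0o76543210 0o76543210 0o453210) [.mk 968 0o76314502 0o76235041 0o132054, .mk 632
0o76502413 0o76520314 0o301452] [],
.mk (.mk 615 0o76543210 0o76543210 0o543210) [.mk 955 0o76314025 0o76035142 0o32514, .mk 1050
0o76542130 0o76541320 0o452130] [],
.mk (.mk 750 0o76501432 0o76521034 0o13452) [.mk 1073 0o76435210 0o76354210 0o354210] [],
.mk (.mk 1025 0o76341502 0o76245031 0o23145) [.mk 942 0o76543210 0o76543210 0o543210, .mk 1045
0o76420315 0o76052413 0o120543] [],
.mk (.mk 650 0o76543210 0o76543210 0o543210) [.mk 1059 0o76431025 0o76054132 0o52413] [],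
.mk (.mk 623 0o76205341 0o76312504 0o213540) [.mk 1158 0o76245130 0o76341520 0o31245] [],
.mk (.mk 747 0o76543210 0o76543210 0o543210) [.mk 1150 0o76132540 0o76214350 0o143502, .mk 1019
0o76512043 0o76510342 0o205413] [],
.mk (.mk 770 0o76053241 0o76413205 0o243105) [.mk 1019 0o76325410 0o76325410 0o354210, .mk 1021
0o76152340 0o76412350 0o142503] [],
.mk (.mk 690 0o76543210 0o76543210 0o543210) [.mk 787 0o76514032 0o76531042 0o213504, .mk 636
0o76530214 0o76504213 0o43215] [],
.mk (.mk 732 0o76021543 0o76210435 0o104325) [.mk 1032 0o76543210 0o76543210 0o453210, .mk 1025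
0o76543201 0o76543201 0o253104] [],
.mk (.mk 1019 0o76241530 0o76241530 0o145230) [.mk 634 0o76543120 0o76543120 0o230541, .mk 841
0o76543210 0o76543210 0o543210] [],
.mk (.mk 766 0o76543210 0o76543210 0o453210) [.mk 613 0o76543210 0o76543210 0o543210, .mk 634
0o76531402 0o76524031 0o213504] [],
.mk (.mk 613 0o76543210 0o76543210 0o543210) [.mk 1051 0o76351402 0o76425031 0o25413, .mk 953
0o76345201 0o76345201 0o152304] [],
.mk (.mk 1023 0o76123405 0o76023451 0o21435) [.mk 1067 0o76251304 0o76402531 0o124053, .mk 1051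
0o76412503 0o76250341 0o240153] [],
.mk (.mk 768 0o76451230 0o76451230 0o451230) [.mk 874 0o76543102 0o76543021 0o43251, .mk 1130
0o76435210 0o76354210 0o354210] [],
.mk (.mk 747 0o76452130 0o76451320 0o452130) [.mk 1000 0o76210543 0o76210543 0o13425, .mk 1041
0o76120453 0o76120453 0o104352] [],
.mk (.mk 696 0o76423510 0o76253410 0o354120) [.mk 966 0o76240315 0o76042513 0o41352] [],
.mk (.mk 1119 0o76042531 0o76241305 0o13524) [.mk 637 0o76305421 0o76325104 0o342105, .mk 952
0o76325410 0o76325410 0o215403] [],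
.mk (.mk 732 0o76510234 0o76501243 0o14523) [.mk 1128 0o76453210 0o76453210 0o453210] [],
.mk (.mk 1002 0o76013524 0o76203145 0o31245) [.mk 626 0o76325410 0o76325410 0o354210, .mk 938
0o76014523 0o76230145 0o130245] [],
.mk (.mk 730 0o76543210 0o76543210 0o453210) [.mk 1037 0o76354021 0o76435102 0o253014, .mk 629
0o76543210 0o76543210 0o543210] [],
.mk (.mk 771 0o76520431 0o76521403 0o203541) [.mk 1156 0o76453210 0o76453210 0o453210] [],
.mk (.mk 774 0o76543210 0o76543210 0o543210) [.mk 875 0o76453120 0o76453120 0o352401, .mk 1055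
0o76543012 0o76543012 0o45213] [],
.mk (.mk 1006 0o76532410 0o76524310 0o154320) [.mk 1041 0o76143502 0o76243051 0o41532, .mk 884
0o76453210 0o76453210 0o453120] [],
.mk (.mk 815 0o76543210 0o76543210 0o453120) [.mk 1176 0o76312504 0o76205341 0o205431, .mk 952
0o76312504 0o76205341 0o25431] [],
.mk (.mk 815 0o76342510 0o76245310 0o453120) [.mk 997 0o76042513 0o76240315 0o140325, .mk 826
0o76543210 0o76543210 0o543210] [],
.mk (.mk 815 0o76243501 0o76243501 0o250134) [.mk 824 0o76453210 0o76453210 0o154230, .mk 911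
0o76532410 0o76524310 0o453210] [],
.mk (.mk 655 0o76051243 0o76410235 0o102435) [.mk 1062 0o76453120 0o76453120 0o453120] [],
.mk (.mk 589 0o76534210 0o76534210 0o453210) [.mk 1073 0o76542310 0o76542310 0o254310, .mk 940
0o76215043 0o76310542 0o105423] [],
.mk (.mk 1087 0o76542310 0o76542310 0o254310) [.mk 890 0o76435210 0o76354210 0o453210, .mk 885
0o76435021 0o76354102 0o150432] [],
.mk (.mk 1001 0o76540123 0o76540123 0o130254) [.mk 890 0o76543210 0o76543210 0o543210] [],
.mk (.mk 851 0o76125043 0o76310452 0o105423) [.mk 1118 0o76543210 0o76543210 0o254130, .mk 934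
0o76435120 0o76354120 0o453120] [],
.mk (.mk 1001 0o76520413 0o76520413 0o230145) [.mk 927 0o76534120 0o76534120 0o453120, .mk 1121
0o76530412 0o76524013 0o32415]
[0xd03e308740282c138cc02aca2300e260b8511c20483e12540b401ec50ca400fa0201c07044208900213682a8262a5441008288827f15c138c20408e1180114c4000829bae1],
.mk (.mk 1001 0o76132450 0o76124350 0o143502) [.mk 1009 0o76435120 0o76354120 0o254310] [],
.mk (.mk 606 0o76534210 0o76534210 0o453210) [.mk 1140 0o76542310 0o76542310 0o254310, .mk 852
0o76435021 0o76354102 0o150432] [],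
.mk (.mk 865 0o76253140 0o76413520 0o345021) [.mk 1072 0o76432510 0o76254310 0o254310, .mk 890
0o76543210 0o76543210 0o543210] [],
.mk (.mk 706 0o76342510 0o76245310 0o254130) [.mk 912 0o76205413 0o76320514 0o130254, .mk 931
0o76543210 0o76543210 0o543210] [],
.mk (.mk 762 0o76435210 0o76354210 0o453210) [.mk 1121 0o76542310 0o76542310 0o254310, .mk 885
0o76523410 0o76523410 0o345021] [],
.mk (.mk 727 0o76543120 0o76543120 0o453120) [.mk 1007 0o76410523 0o76250143 0o32154] [],
.mk (.mk 1007 0o76425013 0o76350412 0o41253) [.mk 927 0o76543120 0o76543120 0o453120]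
[0xa064128020c828001842194eac8000082e438040100a4200215000933c89584641008621801b0ae06014d20100499b1184212386cc8ca1510c0084a1080114c400082a4acc],
.mk (.mk 762 0o76431250 0o76154230 0o354201) [.mk 1000 0o76542310 0o76542310 0o254310] [],
.mk (.mk 984 0o76351024 0o76405132 0o213504) [.mk 936 0o76543210 0o76543210 0o543210] [],
.mk (.mk 986 0o76542310 0o76542310 0o254310) [.mk 762 0o76543210 0o76543210 0o453210] [],
.mk (.mk 606 0o76531240 0o76514230 0o354201) [.mk 1093 0o76542310 0o76542310 0o254310, .mk 936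
0o76342051 0o76145302 0o150432] [],
.mk (.mk 1021 0o76542310 0o76542310 0o254310) [.mk 1192 0o76435021 0o76354102 0o51342, .mk 899
0o76431250 0o76154230 0o354201] [],
.mk (.mk 1001 0o76340521 0o76245103 0o135024) [.mk 899 0o76543210 0o76543210 0o543210, .mk 945
0o76124503 0o76230451 0o203451, .mk 945 0o76354210 0o76435210 0o453210] [],
.mk (.mk 783 0o76435021 0o76354102 0o51324) [.mk 1159 0o76542310 0o76542310 0o254310, .mk 865
0o76435120 0o76354120 0o453120] [],
.mk (.mk 807 0o76521430 0o76521430 0o32154) [.mk 893 0o76342510 0o76245310 0o352401] [],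
.mk (.mk 983 0o76325014 0o76305412 0o14523) [.mk 1044 0o76235014 0o76304512 0o104253, .mk 1055
0o76542310 0o76542310 0o254310] [],
.mk (.mk 983 0o76543210 0o76543210 0o543210) [.mk 631 0o76504321 0o76532104 0o234015, .mk 1098
0o76324501 0o76235401 0o125034] [],
.mk (.mk 801 0o76532401 0o76524301 0o230514) [.mk 881 0o76543210 0o76543210 0o543210, .mk 1122
0o76341502 0o76245031 0o132504] [],
.mk (.mk 731 0o76524301 0o76532401 0o240513) [.mk 949 0o76345021 0o76345102 0o150423, .mk 801
0o76435210 0o76354210 0o453210] [],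
.mk (.mk 762 0o76543210 0o76543210 0o543210) [.mk 906 0o76412503 0o76250341 0o205431, .mk 1103
0o76435012 0o76354012 0o104352] [],
.mk (.mk 725 0o76423510 0o76253410 0o345012) [.mk 725 0o76543210 0o76543210 0o543210] [],
.mk (.mk 778 0o76453102 0o76453021 0o205431) [.mk 927 0o76354210 0o76435210 0o453210, .mk 902
0o76543102 0o76543021 0o24513] [],
.mk (.mk 927 0o76425103 0o76350421 0o23541) [.mk 1126 0o76215034 0o76301542 0o105423, .mk 945
0o76514203 0o76530241 0o203451] [],
.mk (.mk 858 0o76540312 0o76542013 0o213054) [.mk 927 0o76543210 0o76543210 0o543210, .mk 1191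
0o76430512 0o76254013 0o123054] []]

theorem v2000 : chkL Tab.T5 Tab.RT Tab.reps Tab.E2 Ker.cert7 D2000 2000 = true := by
  decide +kernel

end CR.C2
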