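import Pool.Agent.Lib.MP_6f5d36_co.Ker
import Pool.Agent.Lib.MP_6f5d36_co.RTab
import Pool.Agent.Lib.MP_6f5d36_co.C2.KerC
import Pool.Agent.Lib.MP_6f5d36_co.C2.ETab

/-! MP_6f5d36_co, case (ii), level 7 : the ranks 2100, ..., 2199 -/

set_option autoImplicit false
set_option maxRecDepth 100000

noncomputable section

namespace CR.C2

/-- the frames and certificates of the ranks 2100, ..., 2199 -/
def D2100 : List It :=
[.mk (.mk 706 0o76340512 0o76245013 0o250134) [.mk 1109 0o76021345 0o76012435 0o102345, .mk 941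
0o76543210 0o76543210 0o543210] [],
.mk (.mk 828 0o76354210 0o76435210 0o453201) [.mk 827 0o76543210 0o76543210 0o543210, .mk 902
0o76450312 0o76452013 0o125304] [],
.mk (.mk 786 0o76325140 0o76315420 0o145320) [.mk 1129 0o76532410 0o76524310 0o254310, .mk 910
0o76542310 0o76542310 0o354120] [],
.mk (.mk 772 0o76354210 0o76435210 0o453210) [.mk 896 0o76432150 0o76154320 0o154320, .mk 1084
0o76352140 0o76415320 0o235041]
[0x381c0111003904108c030882201466218a8000e1a14e6e01c12802330084000221850240c6102c443958049099104c1260c05044571024108114b400082a3654,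
0x60608001008300401290060842e218a42c9852a0a0084e1a0041505e10010008d4020c420040249060282e43d80008403021a528920195c688581108e008c41300114d000082e3854,
0x98020a623802013026350279c2222a482184608e414858a204624808014106b09208400803400a0411a20183112a002320e105113a92c208a083430464040184064281c6180620e508154d40008323a54],
.mk (.mk 1016 0o76154230 0o76431250 0o42153) [.mk 917 0o76423510 0o76253410 0o354120, .mk 909
0o76435210 0o76354210 0o453210]
[0x35476318f01d5031886160ca310c312044241430694330c1030a05709014048b24403a0f8c531044104720d0220c43058131104125920250c1124047248905c4150cc000830188b,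
0x10400808c60880080588202004ca08c0084550e208110e330238070980040708a012628010c938620446c8132630c008018a0018058c40a86101190010240042a4e41c6046584154cc000830388b,
0xd31c879294b1178e60b8922c0240d090300c20587390c3058082005713c4102c44218832119ba124c62a0216452150095285b7f09c2148f1800515050104cb0100150d0000830588b],
.mk (.mk 1002 0o76024513 0o76230415 0o124035) [.mk 786 0o76543210 0o76543210 0o543210, .mk 1084
0o76425310 0o76352410 0o354210] [],
.mk (.mk 900 0o76453210 0o76453210 0o452310) [.mk 947 0o76503421 0o76523104 0o201534, .mk 942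
0o76234150 0o76134520 0o145230] [],
.mk (.mk 605 0o76543120 0o76543120 0o325041) [.mk 1117 0o76532140 0o76514320 0o154320] [],
.mk (.mk 1039 0o76042531 0o76241305 0o31245) [.mk 922 0o76452310 0o76452310 0o354120, .mk 961
0o76235140 0o76314520 0o145320]
[0x244a806000810e030522ecad91b903091148382165c44c8a01554cc51400240580488418020b0308a3011062980100aa2c1085d80b32842945103242045c082481602c0db8b232cd04190d4000836b654],
.mk (.mk 829 0o76453210 0o76453210 0o453210) [.mk 1025 0o76542130 0o76541320 0o235041, .mk 1147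
0o76532140 0o76514320 0o154320] [],
.mk (.mk 793 0o76453120 0o76453120 0o452310) [.mk 841 0o76543210 0o76543210 0o543210, .mk 1129
0o76321504 0o76205431 0o102543] [],
.mk (.mk 673 0o76543210 0o76543210 0o543210) [.mk 807 0o76430251 0o76154203 0o130542] [],
.mk (.mk 664 0o76543210 0o76543210 0o543210) [.mk 879 0o76421530 0o76251430 0o235041] [],
.mk (.mk 1021 0o76245103 0o76340521 0o41325) [.mk 1098 0o76032415 0o76024315 0o120534, .mk 619
0o76052413 0o76420315 0o210534] [],
.mk (.mk 690 0o76543210 0o76543210 0o543210) [.mk 902 0o76532041 0o76514302 0o312540] [],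
.mk (.mk 561 0o76521430 0o76521430 0o205143) [.mk 1156 0o76421350 0o76152430 0o21534] [],
.mk (.mk 611 0o76543210 0o76543210 0o543210) [.mk 1204 0o76532041 0o76514302 0o125034, .mk 921
0o76524130 0o76531420 0o230514] [],
.mk (.mk 572 0o76543210 0o76543210 0o543210) [.mk 1109 0o76350214 0o76405213 0o105234, .mk 1195
0o76452310 0o76452310 0o354021] [],
.mk (.mk 883 0o76241530 0o76241530 0o205143) [.mk 1142 0o76524301 0o76532401 0o152340, .mk 810
0o76423510 0o76253410 0o354120] [],
.mk (.mk 616 0o76543210 0o76543210 0o543210) [.mk 993 0o76325410 0o76325410 0o245301, .mk 862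
0o76354201 0o76435201 0o43521] [],
.mk (.mk 580 0o76543210 0o76543210 0o543210) [.mk 1142 0o76450132 0o76451023 0o51243, .mk 855
0o76251430 0o76421530 0o142503] [],
.mk (.mk 583 0o76542130 0o76541320 0o452130) [.mk 1107 0o76524310 0o76532410 0o354210] [],
.mk (.mk 830 0o76543210 0o76543210 0o543210) [.mk 1066 0o76253140 0o76413520 0o23451] [],
.mk (.mk 1027 0o76340251 0o76145203 0o140523) [.mk 922 0o76425310 0o76352410 0o354210, .mk 1129
0o76024531 0o76231405 0o32145] [],
.mk (.mk 1047 0o76432510 0o76254310 0o354120) [.mk 850 0o76054231 0o76431205 0o143025, .mk 1016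
0o76324510 0o76235410 0o245031] [],
.mk (.mk 1007 0o76542310 0o76542310 0o254130) [.mk 1047 0o76543120 0o76543120 0o154320, .mk 872
0o76534120 0o76534120 0o453120] [],
.mk (.mk 734 0o76342510 0o76245310 0o254310) [.mk 1047 0o76402513 0o76250314 0o132045]
[0x201702408884928c6119e6301ca09806010c433000920857194028890040863200448852c104871a4c200041085721ae652810000881080a2080114b800082a4463],
.mk (.mk 815 0o76354210 0o76435210 0o453120) [.mk 1122 0o76241053 0o76140532 0o32154, .mk 826
0o76543210 0o76543210 0o543210] [],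
.mk (.mk 704 0o76435210 0o76354210 0o154230) [.mk 911 0o76543210 0o76543210 0o453210, .mk 815
0o76254301 0o76432501 0o250134] [],
.mk (.mk 720 0o76345021 0o76345102 0o150432) [.mk 1049 0o76534120 0o76534120 0o453120, .mk 1122
0o76542310 0o76542310 0o254310] [],
.mk (.mk 830 0o76543210 0o76543210 0o543210) [.mk 1017 0o76351240 0o76415230 0o145320] [],
.mk (.mk 714 0o76435210 0o76354210 0o453210) [.mk 786 0o76504231 0o76531204 0o143025] [],
.mk (.mk 594 0o76154230 0o76431250 0o203154) [.mk 999 0o76135240 0o76314250 0o23154] [],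
.mk (.mk 732 0o76250143 0o76410523 0o204135) [.mk 1043 0o76451230 0o76451230 0o451230] [],
.mk (.mk 732 0o76024513 0o76230415 0o304215) [.mk 749 0o76435210 0o76354210 0o453210, .mk 773
0o76543210 0o76543210 0o543210] [],
.mk (.mk 622 0o76534210 0o76534210 0o354102) [.mk 1129 0o76325140 0o76315420 0o145320, .mk 890
0o76435120 0o76354120 0o453120] [],
.mk (.mk 802 0o76435120 0o76354120 0o453120) [.mk 1009 0o76451320 0o76452130 0o253401, .mk 622
0o76154023 0o76430152 0o15234] [],
.mk (.mk 581 0o76543210 0o76543210 0o543210) [.mk 1023 0o76532140 0o76514320 0o245310] [],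
.mk (.mk 813 0o76425031 0o76351402 0o104253) [.mk 956 0o76352410 0o76425310 0o354120, .mk 993
0o76254310 0o76432510 0o245301]
[0x4d01224c1c40018808400304011c80821520008190b6223008015000280f203e041c08405142167c4006573020000808808b93a02c0524021391006cb6204002100c402a21204814cd1821f32c01f54256070065038c2480a00500180210e400083db30b],
.mk (.mk 987 0o76035412 0o76324015 0o34215) [.mk 867 0o76543210 0o76543210 0o543210, .mk 882
0o76253401 0o76423501 0o231540]
[0x14062064834100000130948014054043101404030f441126d8cab028cc5000440002040c006138814000003eb02000311e90229034009d95441801c01be017015850f4c0c300700b1004401114880d2144002002a4002005c27029dc01203801160744250e40008410743],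
.mk (.mk 992 0o76542301 0o76542301 0o350412) [.mk 1102 0o76021435 0o76021435 0o123045, .mk 1026
0o76345210 0o76345210 0o453210] [],
.mk (.mk 703 0o76431250 0o76154230 0o135402) [.mk 1056 0o76543210 0o76543210 0o453210] [],
.mk (.mk 724 0o76425310 0o76352410 0o354210) [.mk 636 0o76534201 0o76534201 0o253104, .mk 1042
0o76453210 0o76453210 0o453210] [],
.mk (.mk 695 0o76052134 0o76401325 0o13425) [.mk 985 0o76534210 0o76534210 0o453210] [],
.mk (.mk 991 0o76543210 0o76543210 0o543210) [.mk 636 0o76514320 0o76532140 0o325401] [],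
.mk (.mk 788 0o76351204 0o76405231 0o35412) [.mk 1025 0o76453012 0o76453012 0o150243, .mk 631
0o76543210 0o76543210 0o543210] [],
.mk (.mk 978 0o76451320 0o76452130 0o451320) [.mk 963 0o76345201 0o76345201 0o253104] [],
.mk (.mk 824 0o76543210 0o76543210 0o453210) [.mk 1084 0o76130524 0o76204153 0o213540, .mk 812
0o76452310 0o76452310 0o354120] [],
.mk (.mk 1017 0o76351240 0o76415230 0o145320) [.mk 637 0o76524310 0o76532410 0o354210, .mk 867
0o76543210 0o76543210 0o543210] [],
.mk (.mk 691 0o76453210 0o76453210 0o452310) [.mk 690 0o76543210 0o76543210 0o543210, .mk 1098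
0o76423150 0o76153420 0o154320] [],
.mk (.mk 978 0o76543120 0o76543120 0o452310) [.mk 1122 0o76315402 0o76325041 0o132504] [],
.mk (.mk 901 0o76451230 0o76451230 0o451230) [.mk 1117 0o76351420 0o76425130 0o145230, .mk 1086
0o76435120 0o76354120 0o23541] [],
.mk (.mk 1025 0o76345201 0o76345201 0o253104) [.mk 854 0o76543210 0o76543210 0o453210] [],
.mk (.mk 981 0o76543210 0o76543210 0o543210) [.mk 955 0o76543120 0o76543120 0o452310] [],
.mk (.mk 763 0o76530412 0o76524013 0o31245) [.mk 972 0o76423501 0o76253401 0o204531, .mk 881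
0o76543210 0o76543210 0o543210] [],
.mk (.mk 807 0o76432150 0o76154320 0o154320) [.mk 1030 0o76543210 0o76543210 0o453210, .mk 857
0o76531042 0o76514032 0o312504] [],
.mk (.mk 673 0o76543210 0o76543210 0o543210) [.mk 925 0o76340251 0o76145203 0o130542] [],
.mk (.mk 731 0o76435210 0o76354210 0o453210) [.mk 1061 0o76153420 0o76423150 0o21435, .mk 925
0o76234501 0o76234501 0o245013] [],
.mk (.mk 714 0o76523104 0o76503421 0o103524) [.mk 923 0o76425103 0o76350421 0o13524, .mk 885
0o76543210 0o76543210 0o543210] [],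
.mk (.mk 670 0o76351204 0o76405231 0o24153) [.mk 1013 0o76530412 0o76524013 0o120534] [],
.mk (.mk 703 0o76543210 0o76543210 0o543210) [.mk 1193 0o76241530 0o76241530 0o32154] [],
.mk (.mk 744 0o76124503 0o76230451 0o204153) [.mk 1039 0o76021543 0o76210435 0o130254, .mk 1185
0o76435210 0o76354210 0o453210] [],
.mk (.mk 697 0o76543210 0o76543210 0o254130) [.mk 890 0o76245013 0o76340512 0o105234, .mk 945
0o76253014 0o76403512 0o15234] [],
.mk (.mk 774 0o76354210 0o76435210 0o354120) [.mk 745 0o76543210 0o76543210 0o543210] [],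
.mk (.mk 745 0o76543210 0o76543210 0o543210) [.mk 1052 0o76451230 0o76451230 0o451230, .mk 1093
0o76210354 0o76102543 0o102435] [],
.mk (.mk 745 0o76241305 0o76042531 0o42351) [.mk 1092 0o76241503 0o76240531 0o204531, .mk 1115
0o76435210 0o76354210 0o453210] [],
.mk (.mk 769 0o76524310 0o76532410 0o354210) [.mk 745 0o76453210 0o76453210 0o453210, .mk 1158
0o76431520 0o76254130 0o154230] [],
.mk (.mk 734 0o76215430 0o76321540 0o23154) [.mk 770 0o76345210 0o76345210 0o453210, .mk 961
0o76314520 0o76235140 0o203514] [],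
.mk (.mk 770 0o76354210 0o76435210 0o453210) [.mk 1084 0o76350142 0o76415023 0o310542] [],
.mk (.mk 1083 0o76531402 0o76524031 0o230514) [.mk 1084 0o76341205 0o76045231 0o23514, .mk 1074
0o76413502 0o76253041 0o130425]
[0x1fa50f806800f2ee2ba92ddc5c802815105d0020d904a09c510a440b6aa09d0000370078849c0e6035c305ec00c213048ea18c9c007a0122be16ae9e4258a1845a31f0311807d0c64304308ccc210bc0008389ae1],
.mk (.mk 1011 0o76534102 0o76534021 0o231504) [.mk 912 0o76543210 0o76543210 0o543210, .mk 1074
0o76415203 0o76350241 0o31245] [],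
.mk (.mk 728 0o76345210 0o76345210 0o452310) [.mk 989 0o76123504 0o76203451 0o301452] [],
.mk (.mk 876 0o76543210 0o76543210 0o543210) [.mk 1158 0o76450132 0o76451023 0o132450] [],
.mk (.mk 755 0o76431250 0o76154230 0o354201) [.mk 876 0o76502431 0o76521304 0o234015, .mk 1181
0o76352041 0o76415302 0o150432] [],
.mk (.mk 842 0o76543120 0o76543120 0o452310) [.mk 910 0o76253041 0o76413502 0o24513, .mk 1019
0o76450321 0o76452103 0o150432] [],
.mk (.mk 766 0o76534210 0o76534210 0o453210) [.mk 910 0o76240513 0o76240513 0o203451, .mk 913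
0o76230415 0o76024513 0o23451] [],
.mk (.mk 1010 0o76540213 0o76540213 0o251034) [.mk 637 0o76543210 0o76543210 0o543210] [],
.mk (.mk 690 0o76345210 0o76345210 0o452310) [.mk 1126 0o76523410 0o76523410 0o254130] [],
.mk (.mk 838 0o76435210 0o76354210 0o453210) [.mk 1112 0o76253104 0o76403521 0o43521] [],
.mk (.mk 1104 0o76032451 0o76124305 0o102435) [.mk 637 0o76354201 0o76435201 0o253104, .mk 1097
0o76135402 0o76324051 0o32451] [],
.mk (.mk 729 0o76452310 0o76452310 0o453120) [.mk 1104 0o76425310 0o76352410 0o354120, .mk 1042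
0o76543210 0o76543210 0o543210] [],
.mk (.mk 741 0o76210543 0o76210543 0o213054) [.mk 1042 0o76310542 0o76215043 0o123504] [],
.mk (.mk 1032 0o76314052 0o76135042 0o21543) [.mk 867 0o76452130 0o76451320 0o452130] [],
.mk (.mk 724 0o76402513 0o76250314 0o301524) [.mk 733 0o76304512 0o76235014 0o130524, .mk 1070
0o76435201 0o76354201 0o253104, .mk 972 0o76543210 0o76543210 0o543210]
[0x1011868140541189ea088a03040030c4040d21184228040200c2c500a60006568422000c0380220d98218803080000086308829581c600085384290a88628f46f0c114d000082d340a],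
.mk (.mk 1026 0o76350421 0o76425103 0o150432) [.mk 634 0o76543210 0o76543210 0o543210, .mk 786
0o76351024 0o76405132 0o42513] [],
.mk (.mk 823 0o76043512 0o76243015 0o123045) [.mk 1042 0o76543210 0o76543210 0o543210, .mk 1097
0o76451320 0o76452130 0o451320]
[0x24011018440800180500100006c8380708a70e4010a110314618070aa2408220000a40c890804822082398308230020a0548620422881102628628020c00042880224121c0088154cc000832414c],
.mk (.mk 746 0o76543210 0o76543210 0o543210) [.mk 1051 0o76542310 0o76542310 0o453120, .mk 774
0o76513420 0o76523140 0o314502] [],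
.mk (.mk 823 0o76145302 0o76342051 0o213054) [.mk 751 0o76420315 0o76052413 0o41352] [],
.mk (.mk 758 0o76543210 0o76543210 0o543210) [.mk 923 0o76415023 0o76350142 0o104523] [],
.mk (.mk 650 0o76543210 0o76543210 0o543210) [.mk 718 0o76502143 0o76510324 0o13524] [],
.mk (.mk 1015 0o76150324 0o76402153 0o15342) [.mk 1031 0o76543210 0o76543210 0o543210, .mk 1123
0o76240315 0o76042513 0o103524] [],
.mk (.mk 1031 0o76241053 0o76140532 0o123054) [.mk 1042 0o76341052 0o76145032 0o213504, .mk 1060
0o76412053 0o76150342 0o31245] [],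
.mk (.mk 731 0o76453210 0o76453210 0o154230) [.mk 929 0o76324501 0o76235401 0o250314, .mk 927
0o76345102 0o76345021 0o52143] [],
.mk (.mk 718 0o76543210 0o76543210 0o254310) [.mk 910 0o76254130 0o76431520 0o145230] [],
.mk (.mk 740 0o76543210 0o76543210 0o543210) [.mk 897 0o76135240 0o76314250 0o243501] [],
.mk (.mk 670 0o76423501 0o76253401 0o350412) [.mk 842 0o76543210 0o76543210 0o543210] [],
.mk (.mk 1018 0o76351042 0o76415032 0o205413) [.mk 857 0o76423510 0o76253410 0o354120, .mk 874
0o76543210 0o76543210 0o543210] [],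
.mk (.mk 770 0o76215403 0o76320541 0o125340) [.mk 843 0o76543210 0o76543210 0o543210, .mk 916
0o76214503 0o76230541 0o215340] [],
.mk (.mk 788 0o76312045 0o76015342 0o24513) [.mk 1159 0o76320154 0o76105423 0o104532, .mk 1076
0o76425031 0o76351402 0o352104] [],
.mk (.mk 653 0o76352410 0o76425310 0o354210) [.mk 1122 0o76302154 0o76105324 0o12543] []]

theorem v2100 : chkL Tab.T5 Tab.RT Tab.reps Tab.E2 Ker.cert7 D2100 2100 = true := by
  decide +kernel

end CR.C2
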