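import Pool.Agent.Lib.MP_6f5d36_co.Ker
import Pool.Agent.Lib.MP_6f5d36_co.RTab
import Pool.Agent.Lib.MP_6f5d36_co.C2.KerC
import Pool.Agent.Lib.MP_6f5d36_co.C2.ETab

/-! MP_6f5d36_co, case (ii), level 7 : the ranks 2200, ..., 2299 -/

set_option autoImplicit false
set_option maxRecDepth 100000

noncomputable section

namespace CR.C2

/-- the frames and certificates of the ranks 2200, ..., 2299 -/
def D2200 : List It :=
[.mk (.mk 652 0o76342510 0o76245310 0o254130) [.mk 931 0o76543210 0o76543210 0o543210] [],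
.mk (.mk 976 0o76320451 0o76125403 0o25134) [.mk 1108 0o76531402 0o76524031 0o125430] [],
.mk (.mk 724 0o76543210 0o76543210 0o543210) [.mk 731 0o76340512 0o76245013 0o250134, .mk 1054
0o76534201 0o76534201 0o43512] [],
.mk (.mk 704 0o76534021 0o76534102 0o341205) [.mk 952 0o76315024 0o76305142 0o104352] [],
.mk (.mk 718 0o76254301 0o76432501 0o245013) [.mk 751 0o76405231 0o76351204 0o130452] [],
.mk (.mk 694 0o76531420 0o76524130 0o214053) [.mk 676 0o76451320 0o76452130 0o124053, .mk 1062
0o76354210 0o76435210 0o354102] [],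
.mk (.mk 809 0o76301452 0o76125034 0o123405) [.mk 1108 0o76103542 0o76213054 0o32514, .mk 1062
0o76534120 0o76534120 0o453120] [],
.mk (.mk 686 0o76542310 0o76542310 0o254130) [.mk 1009 0o76543120 0o76543120 0o154320, .mk 1062
0o76345210 0o76345210 0o354102] [],
.mk (.mk 1027 0o76354021 0o76435102 0o351204) [.mk 1036 0o76543210 0o76543210 0o453210, .mk 1076
0o76543102 0o76543021 0o54321] [],
.mk (.mk 676 0o76435210 0o76354210 0o453210) [.mk 1099 0o76234501 0o76234501 0o245013, .mk 918
0o76315240 0o76315240 0o134502] [],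
.mk (.mk 774 0o76543210 0o76543210 0o543210) [.mk 717 0o76435012 0o76354012 0o450213] [],
.mk (.mk 994 0o76254310 0o76432510 0o345210) [.mk 923 0o76543210 0o76543210 0o543210, .mk 751
0o76452301 0o76452301 0o254013] [],
.mk (.mk 1013 0o76452310 0o76452310 0o254130) [.mk 1182 0o76543210 0o76543210 0o453210, .mk 994
0o76543120 0o76543120 0o154320] [],
.mk (.mk 657 0o76451320 0o76452130 0o451320) [.mk 994 0o76354210 0o76435210 0o253401] [],
.mk (.mk 686 0o76542310 0o76542310 0o453120) [.mk 1022 0o76104325 0o76032154 0o210453] [],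
.mk (.mk 814 0o76543210 0o76543210 0o543210) [.mk 994 0o76453210 0o76453210 0o254130, .mk 1117
0o76510342 0o76512043 0o32514] [],
.mk (.mk 826 0o76524301 0o76532401 0o250314) [.mk 1045 0o76453210 0o76453210 0o154230, .mk 890
0o76435102 0o76354021 0o52143] [],
.mk (.mk 1005 0o76453210 0o76453210 0o154230) [.mk 820 0o76345201 0o76345201 0o52413, .mk 826
0o76254301 0o76432501 0o250134] [],
.mk (.mk 800 0o76520431 0o76521403 0o32541) [.mk 922 0o76245130 0o76341520 0o125043, .mk 922
0o76254130 0o76431520 0o215043] [],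
.mk (.mk 994 0o76245031 0o76341502 0o25341) [.mk 751 0o76425310 0o76352410 0o354120] [],
.mk (.mk 1139 0o76125034 0o76301452 0o15432) [.mk 1139 0o76301452 0o76125034 0o230154, .mk 1139
0o76301452 0o76125034 0o321045] [],
.mk (.mk 694 0o76354210 0o76435210 0o453210) [.mk 1150 0o76253401 0o76423501 0o254103] [],
.mk (.mk 708 0o76351042 0o76415032 0o320514) [.mk 888 0o76504123 0o76530124 0o12453] [],
.mk (.mk 716 0o76354210 0o76435210 0o453210) [.mk 1040 0o76210453 0o76120543 0o310245] [],
.mk (.mk 585 0o76543210 0o76543210 0o453210) [.mk 1002 0o76521304 0o76502431 0o34512] [],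
.mk (.mk 665 0o76301524 0o76205134 0o301524) [.mk 1013 0o76401325 0o76052134 0o103254] [],
.mk (.mk 619 0o76543210 0o76543210 0o543210) [.mk 1078 0o76453120 0o76453120 0o153402] [],
.mk (.mk 696 0o76543210 0o76543210 0o543210) [.mk 887 0o76453210 0o76453210 0o453210] [],
.mk (.mk 553 0o76543210 0o76543210 0o453210) [.mk 998 0o76143025 0o76043152 0o52431] [],
.mk (.mk 553 0o76354120 0o76435120 0o245130) [.mk 1071 0o76345012 0o76345012 0o123405] [],
.mk (.mk 1009 0o76521043 0o76510432 0o123054) [.mk 871 0o76543210 0o76543210 0o543210, .mk 1135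
0o76432510 0o76254310 0o453210] [],
.mk (.mk 670 0o76342510 0o76245310 0o254130) [.mk 1011 0o76204315 0o76032514 0o13254] [],
.mk (.mk 1009 0o76502413 0o76520314 0o132045) [.mk 1074 0o76401523 0o76250134 0o31254] [],
.mk (.mk 619 0o76543210 0o76543210 0o453210) [.mk 1040 0o76150324 0o76402153 0o23451, .mk 1121
0o76352104 0o76405321 0o125430] [],
.mk (.mk 759 0o76345210 0o76345210 0o453210) [.mk 1126 0o76452301 0o76452301 0o251340, .mk 856
0o76543210 0o76543210 0o543210] [],
.mk (.mk 659 0o76543210 0o76543210 0o543210) [.mk 1023 0o76352410 0o76425310 0o345210, .mk 869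
0o76514032 0o76531042 0o250341] [],
.mk (.mk 654 0o76504312 0o76532014 0o301452) [.mk 1083 0o76504213 0o76530214 0o31542] [],
.mk (.mk 1003 0o76321504 0o76205431 0o204513) [.mk 776 0o76325140 0o76315420 0o153402] [],
.mk (.mk 710 0o76543210 0o76543210 0o452310) [.mk 868 0o76423150 0o76153420 0o153402] [],
.mk (.mk 605 0o76504312 0o76532014 0o210534) [.mk 1123 0o76405321 0o76352104 0o23145, .mk 1061
0o76504312 0o76532014 0o120534] [],
.mk (.mk 769 0o76425310 0o76352410 0o354210) [.mk 745 0o76543210 0o76543210 0o453210, .mk 1158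
0o76413025 0o76053142 0o42351] [],
.mk (.mk 981 0o76325401 0o76325401 0o235104) [.mk 991 0o76234501 0o76234501 0o325014, .mk 1097
0o76541230 0o76541230 0o451230, .mk 635 0o76543210 0o76543210 0o543210]
[0xc2530804860b2318c0000803948c42b300456288032000c1200b8036c240044e01203040d2640180804d2180003210001a0a806098c14626c1d58110d000082eaac3],
.mk (.mk 978 0o76452130 0o76451320 0o452130) [.mk 991 0o76543210 0o76543210 0o543210, .mk 1070
0o76504312 0o76532014 0o31425, .mk 636 0o76325401 0o76325401 0o350412]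
[0x20c42c848508422a04c6280a160824180e1000242844208460190c0b88250988043c012880a00ce12242ca012b010c62c0023b0021002200c114b40008294869],
.mk (.mk 1035 0o76430521 0o76254103 0o150432) [.mk 972 0o76352401 0o76425301 0o304521, .mk 635
0o76543210 0o76543210 0o543210] [],
.mk (.mk 1038 0o76423510 0o76253410 0o354120) [.mk 1070 0o76453102 0o76453021 0o45231, .mk 636
0o76354102 0o76435021 0o405231] [],
.mk (.mk 773 0o76534210 0o76534210 0o453210) [.mk 939 0o76351042 0o76415032 0o15432, .mk 1098
0o76345021 0o76345102 0o351204] [],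
.mk (.mk 842 0o76543210 0o76543210 0o453210) [.mk 751 0o76024513 0o76230415 0o120354, .mk 1050
0o76543210 0o76543210 0o543210] [],
.mk (.mk 780 0o76543210 0o76543210 0o543210) [.mk 1118 0o76301524 0o76205134 0o210534, .mk 879
0o76354210 0o76435210 0o453210] [],
.mk (.mk 1001 0o76420513 0o76250413 0o230145) [.mk 1095 0o76430512 0o76254013 0o32415, .mk 950
0o76543210 0o76543210 0o543210] [],
.mk (.mk 721 0o76543210 0o76543210 0o543210) [.mk 1141 0o76352140 0o76415320 0o145230] [],
.mk (.mk 597 0o76534210 0o76534210 0o452310) [.mk 1127 0o76532410 0o76524310 0o354120, .mk 803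
0o76543210 0o76543210 0o543210] [],
.mk (.mk 839 0o76543210 0o76543210 0o543210) [.mk 1204 0o76320541 0o76215403 0o235014] [],
.mk (.mk 681 0o76453210 0o76453210 0o452310) [.mk 1204 0o76432150 0o76154320 0o154320, .mk 892
0o76543210 0o76543210 0o543210] [],
.mk (.mk 712 0o76502341 0o76512304 0o314025) [.mk 879 0o76435210 0o76354210 0o453210] [],
.mk (.mk 764 0o76543210 0o76543210 0o543210) [.mk 1054 0o76235104 0o76304521 0o201435, .mk 879
0o76542031 0o76541302 0o150423] [],
.mk (.mk 824 0o76345210 0o76345210 0o453210) [.mk 1066 0o76204153 0o76130524 0o310254, .mk 879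
0o76214035 0o76031542 0o14352] [],
.mk (.mk 687 0o76453210 0o76453210 0o354120) [.mk 1114 0o76140532 0o76241053 0o32154, .mk 810
0o76453210 0o76453210 0o453210] [],
.mk (.mk 760 0o76543210 0o76543210 0o453210) [.mk 1153 0o76514230 0o76531240 0o243051] [],
.mk (.mk 817 0o76521340 0o76512430 0o14235) [.mk 1085 0o76451320 0o76452130 0o451320] [],
.mk (.mk 687 0o76423510 0o76253410 0o354210) [.mk 1067 0o76401523 0o76250134 0o213540] [],
.mk (.mk 986 0o76543210 0o76543210 0o543210) [.mk 825 0o76321504 0o76205431 0o32514] [],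
.mk (.mk 829 0o76453210 0o76453210 0o452310) [.mk 1081 0o76423150 0o76153420 0o154320, .mk 897
0o76513204 0o76503241 0o201435] [],
.mk (.mk 727 0o76435210 0o76354210 0o453210) [.mk 1030 0o76235014 0o76304512 0o204315, .mk 900
0o76245013 0o76340512 0o24315] [],
.mk (.mk 690 0o76534210 0o76534210 0o452310) [.mk 882 0o76423150 0o76153420 0o154320, .mk 900
0o76543210 0o76543210 0o543210] [],
.mk (.mk 875 0o76543210 0o76543210 0o354120) [.mk 900 0o76543210 0o76543210 0o543210, .mk 1125
0o76534210 0o76534210 0o453210] [],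
.mk (.mk 803 0o76534210 0o76534210 0o452310) [.mk 893 0o76423150 0o76153420 0o154320, .mk 1094
0o76315240 0o76315240 0o214503] [],
.mk (.mk 803 0o76543210 0o76543210 0o543210) [.mk 1083 0o76251340 0o76412530 0o235401, .mk 1056
0o76354210 0o76435210 0o452310] [],
.mk (.mk 829 0o76543210 0o76543210 0o543210) [.mk 1099 0o76450231 0o76451203 0o132450, .mk 874
0o76540321 0o76542103 0o312540] [],
.mk (.mk 750 0o76453210 0o76453210 0o453210) [.mk 1055 0o76102354 0o76102354 0o12354, .mk 774
0o76543210 0o76543210 0o543210] [],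
.mk (.mk 718 0o76324510 0o76235410 0o354210) [.mk 1009 0o76523104 0o76503421 0o125340] [],
.mk (.mk 610 0o76543210 0o76543210 0o452310) [.mk 1140 0o76523410 0o76523410 0o154230, .mk 783
0o76452130 0o76451320 0o345102] [],
.mk (.mk 814 0o76345210 0o76345210 0o453210) [.mk 818 0o76543210 0o76543210 0o543210, .mk 938
0o76510423 0o76520143 0o103524] [],
.mk (.mk 818 0o76254310 0o76432510 0o453210) [.mk 1072 0o76435210 0o76354210 0o254310, .mk 1132
0o76423510 0o76253410 0o154230, .mk 929 0o76543210 0o76543210 0o543210] [],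
.mk (.mk 815 0o76543210 0o76543210 0o543210) [.mk 954 0o76012534 0o76201345 0o13245, .mk 912
0o76342150 0o76145320 0o345210] [],
.mk (.mk 802 0o76453120 0o76453120 0o453120) [.mk 1073 0o76054312 0o76432015 0o42315, .mk 975
0o76241530 0o76241530 0o345210] [],
.mk (.mk 802 0o76345210 0o76345210 0o354102) [.mk 1037 0o76254130 0o76431520 0o145320, .mk 1145
0o76453120 0o76453120 0o53412] [],
.mk (.mk 706 0o76241503 0o76240531 0o205431) [.mk 1036 0o76251403 0o76420531 0o25431, .mk 802
0o76534120 0o76534120 0o453120] [],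
.mk (.mk 1084 0o76213045 0o76013542 0o105423) [.mk 936 0o76543210 0o76543210 0o543210, .mk 912
0o76250134 0o76401523 0o203154] [],
.mk (.mk 550 0o76543210 0o76543210 0o543210) [.mk 1035 0o76532410 0o76524310 0o254310] [],
.mk (.mk 550 0o76543210 0o76543210 0o345102) [.mk 886 0o76534120 0o76534120 0o43512] [],
.mk (.mk 1071 0o76034512 0o76234015 0o123405) [.mk 905 0o76543210 0o76543210 0o543210, .mk 930
0o76245301 0o76342501 0o240531] [],
.mk (.mk 574 0o76543210 0o76543210 0o543210) [.mk 945 0o76452301 0o76452301 0o132504, .mk 1130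
0o76452013 0o76450312 0o51243] [],
.mk (.mk 586 0o76534210 0o76534210 0o453210) [.mk 1035 0o76524310 0o76532410 0o245130, .mk 936
0o76435021 0o76354102 0o150423] [],
.mk (.mk 805 0o76543210 0o76543210 0o254130) [.mk 898 0o76435210 0o76354210 0o453210, .mk 1188
0o76251034 0o76401532 0o15243] [],
.mk (.mk 683 0o76503412 0o76523014 0o231405) [.mk 1136 0o76214530 0o76231540 0o345210, .mk 940
0o76435210 0o76354210 0o453210] [],
.mk (.mk 586 0o76543210 0o76543210 0o543210) [.mk 1025 0o76532410 0o76524310 0o254130, .mk 958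
0o76453021 0o76453102 0o41352] [],
.mk (.mk 555 0o76543210 0o76543210 0o543210) [.mk 1162 0o76523401 0o76523401 0o240531, .mk 820
0o76413520 0o76253140 0o345102] [],
.mk (.mk 1022 0o76021453 0o76120435 0o31254) [.mk 1020 0o76532401 0o76524301 0o254103, .mk 1109
0o76031452 0o76124035 0o130524]
[0x2824002140c29588042060001000010063996722c5419e2868480904e1100221a0e07e064490213922169d801094100b0690080a0560600114b400082ad71d],
.mk (.mk 660 0o76432510 0o76254310 0o254310) [.mk 1185 0o76350421 0o76425103 0o130425] [],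
.mk (.mk 733 0o76253410 0o76423510 0o254130) [.mk 1106 0o76345021 0o76345102 0o41325] [],
.mk (.mk 819 0o76534210 0o76534210 0o453210) [.mk 1123 0o76342510 0o76245310 0o254310, .mk 836
0o76521340 0o76512430 0o354201] [],
.mk (.mk 813 0o76120435 0o76021453 0o14532) [.mk 751 0o76543210 0o76543210 0o543210, .mk 1057
0o76210534 0o76201543 0o105423] [],
.mk (.mk 1061 0o76513402 0o76523041 0o130425) [.mk 1104 0o76452013 0o76450312 0o41253]
[0x2c12004268087008a93906138c40210060104300c0220424214c91812308c0303820200215904009440204ac88418898a34092000d0300440109a1000114c00008289ae1],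
.mk (.mk 820 0o76142053 0o76140352 0o105342) [.mk 1123 0o76542310 0o76542310 0o254310] [],
.mk (.mk 708 0o76543210 0o76543210 0o543210) [.mk 1176 0o76542310 0o76542310 0o453120] [],
.mk (.mk 782 0o76543210 0o76543210 0o543210) [.mk 997 0o76502143 0o76510324 0o150324, .mk 816
0o76142530 0o76241350 0o345210] [],
.mk (.mk 842 0o76240351 0o76142503 0o102345) [.mk 1050 0o76140253 0o76140253 0o13425, .mk 1062
0o76534120 0o76534120 0o453120] [],
.mk (.mk 720 0o76543210 0o76543210 0o543210) [.mk 906 0o76423501 0o76253401 0o254103] [],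
.mk (.mk 1025 0o76203154 0o76103524 0o13524) [.mk 1122 0o76401253 0o76150234 0o230145, .mk 936
0o76543210 0o76543210 0o543210] [],
.mk (.mk 683 0o76412503 0o76250341 0o250143) [.mk 1093 0o76120543 0o76210453 0o130245, .mk 1117
0o76120543 0o76210453 0o31245] []]

theorem v2200 : chkL Tab.T5 Tab.RT Tab.reps Tab.E2 Ker.cert7 D2200 2200 = true := by
  decide +kernel

end CR.C2
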