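import Pool.Agent.Lib.MP_6f5d36_co.Ker
import Pool.Agent.Lib.MP_6f5d36_co.RTab
import Pool.Agent.Lib.MP_6f5d36_co.C2.KerC
import Pool.Agent.Lib.MP_6f5d36_co.C2.ETab

/-! MP_6f5d36_co, case (ii), level 7 : the ranks 2300, ..., 2399 -/

set_option autoImplicit false
set_option maxRecDepth 100000

noncomputable section

namespace CR.C2

/-- the frames and certificates of the ranks 2300, ..., 2399 -/
def D2300 : List It :=
[.mk (.mk 720 0o76435210 0o76354210 0o453210) [.mk 1031 0o76253104 0o76403521 0o215430] [],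
.mk (.mk 846 0o76501342 0o76512034 0o130245) [.mk 1093 0o76310542 0o76215043 0o231540, .mk 1185
0o76543120 0o76543120 0o453120] [],
.mk (.mk 1060 0o76214350 0o76132540 0o13254) [.mk 971 0o76435210 0o76354210 0o453210] [],
.mk (.mk 829 0o76543210 0o76543210 0o453210) [.mk 1060 0o76352140 0o76415320 0o235401, .mk 1108
0o76532140 0o76514320 0o154320] [],
.mk (.mk 839 0o76453210 0o76453210 0o452310) [.mk 918 0o76432150 0o76154320 0o154320, .mk 962
0o76540321 0o76542103 0o243105] [],
.mk (.mk 1028 0o76250431 0o76421503 0o15342) [.mk 634 0o76543210 0o76543210 0o543210, .mk 928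
0o76435021 0o76354102 0o250431] [],
.mk (.mk 575 0o76543210 0o76543210 0o543210) [.mk 577 0o76532104 0o76504321 0o53421, .mk 766
0o76543210 0o76543210 0o453210] [],
.mk (.mk 772 0o76354210 0o76435210 0o453210) [.mk 1043 0o76430521 0o76254103 0o203415, .mk 832
0o76450321 0o76452103 0o301254]
[0xe0286100403c014098c6202000c2888480308c8a030a04486284009c808a380408e300030c110e020210c20105002f8c2146204a030b0169082544f026548c98420a4028000270063202800154dc0008323054,
0xf01047228060440f3084d320819058022000514017380d1609222c0230686d108a01481020404194089c81b144150d1062041615c425c8912080909021004150c800082e3a54],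
.mk (.mk 832 0o76432510 0o76254310 0o354210) [.mk 1016 0o76152403 0o76420351 0o34152, .mk 904
0o76543210 0o76543210 0o543210]
[0xc18144f005135408314580404470090223888208c34504713a0336c4400c4e404c52134001407110a761505e28a125c0910c4310a0e16885149534101061091004233100150dc000830b302,
0x4093114082d4c245c352d4500406114860140250c0213c422108834c06740031390b630484180124c5112c864009361c4f07031a930001dc6100c1044c315c06442511d50150e0000830bb02],
.mk (.mk 839 0o76543210 0o76543210 0o543210) [.mk 1100 0o76253104 0o76403521 0o45321, .mk 1079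
0o76435210 0o76354210 0o452310] [],
.mk (.mk 839 0o76543210 0o76543210 0o543210) [.mk 966 0o76203514 0o76203514 0o201453, .mk 1056
0o76435210 0o76354210 0o452310] [],
.mk (.mk 1068 0o76245310 0o76342510 0o23145) [.mk 632 0o76532401 0o76524301 0o325014, .mk 962
0o76453201 0o76453201 0o253104] [],
.mk (.mk 770 0o76345210 0o76345210 0o453210) [.mk 916 0o76543210 0o76543210 0o543210] [],
.mk (.mk 616 0o76540231 0o76541203 0o312450) [.mk 821 0o76543210 0o76543210 0o543210] [],
.mk (.mk 575 0o76543210 0o76543210 0o543210) [.mk 616 0o76532410 0o76524310 0o245130, .mk 962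
0o76543210 0o76543210 0o354210] [],
.mk (.mk 675 0o76532410 0o76524310 0o354120) [.mk 1011 0o76312504 0o76205341 0o125340] [],
.mk (.mk 583 0o76543210 0o76543210 0o543210) [.mk 1028 0o76251034 0o76401532 0o105234] [],
.mk (.mk 700 0o76512304 0o76502341 0o24153) [.mk 583 0o76501432 0o76521034 0o302145] [],
.mk (.mk 623 0o76543210 0o76543210 0o543210) [.mk 1076 0o76543102 0o76543021 0o53421, .mk 1036
0o76543210 0o76543210 0o354210] [],
.mk (.mk 977 0o76310524 0o76205143 0o105432) [.mk 1000 0o76543210 0o76543210 0o354210] [],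
.mk (.mk 977 0o76403512 0o76253014 0o124305) [.mk 749 0o76542310 0o76542310 0o254301, .mk 623
0o76543210 0o76543210 0o543210] [],
.mk (.mk 1005 0o76432510 0o76254310 0o354120) [.mk 1083 0o76254103 0o76430521 0o45321] [],
.mk (.mk 597 0o76543210 0o76543210 0o453210) [.mk 1083 0o76352140 0o76415320 0o235401] [],
.mk (.mk 981 0o76543210 0o76543210 0o543210) [.mk 1053 0o76014325 0o76032145 0o201354, .mk 1005
0o76423510 0o76253410 0o354210] [],
.mk (.mk 713 0o76051423 0o76420135 0o210354) [.mk 999 0o76543210 0o76543210 0o543210, .mk 1005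
0o76031524 0o76204135 0o120354] [],
.mk (.mk 788 0o76532410 0o76524310 0o130524) [.mk 1098 0o76435210 0o76354210 0o453210, .mk 1158
0o76530421 0o76524103 0o210543] [],
.mk (.mk 1027 0o76241530 0o76241530 0o145320) [.mk 841 0o76543210 0o76543210 0o543210, .mk 1014
0o76345120 0o76345120 0o23541] [],
.mk (.mk 706 0o76435021 0o76354102 0o250431) [.mk 1077 0o76452310 0o76452310 0o453120] [],
.mk (.mk 876 0o76543210 0o76543210 0o543210) [.mk 1064 0o76435210 0o76354210 0o452310, .mk 909
0o76241305 0o76042531 0o35142] [],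
.mk (.mk 1038 0o76453021 0o76453102 0o32415) [.mk 1089 0o76305124 0o76305124 0o123540, .mk 875
0o76135042 0o76314052 0o204351] [],
.mk (.mk 865 0o76435120 0o76354120 0o453120) [.mk 923 0o76504231 0o76531204 0o143205] [],
.mk (.mk 1045 0o76305241 0o76315204 0o34125) [.mk 1160 0o76543120 0o76543120 0o154320] [],
.mk (.mk 578 0o76543210 0o76543210 0o452310) [.mk 1125 0o76532104 0o76504321 0o45231, .mk 914
0o76423150 0o76153420 0o154320] [],
.mk (.mk 682 0o76453210 0o76453210 0o453210) [.mk 1131 0o76341052 0o76145032 0o231504] [],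
.mk (.mk 742 0o76521430 0o76521430 0o325041) [.mk 821 0o76543210 0o76543210 0o543210, .mk 1000
0o76351204 0o76405231 0o43512] [],
.mk (.mk 742 0o76345210 0o76345210 0o453210) [.mk 1066 0o76210435 0o76021543 0o203154, .mk 1053
0o76135420 0o76324150 0o341502] [],
.mk (.mk 881 0o76543210 0o76543210 0o543210) [.mk 1175 0o76524130 0o76531420 0o145320, .mk 1123
0o76312504 0o76205341 0o25431] [],
.mk (.mk 674 0o76254103 0o76430521 0o105243) [.mk 826 0o76534201 0o76534201 0o250134] [],
.mk (.mk 703 0o76435210 0o76354210 0o154230) [.mk 814 0o76543210 0o76543210 0o453210] [],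
.mk (.mk 820 0o76145023 0o76340152 0o105342) [.mk 950 0o76435120 0o76354120 0o453120, .mk 1095
0o76543210 0o76543210 0o254130] [],
.mk (.mk 1006 0o76342510 0o76245310 0o254310) [.mk 950 0o76534210 0o76534210 0o453210, .mk 1061
0o76510432 0o76521043 0o130425]
[0x34348060ca460082252904400823528610061211cc6308650000e20800105215886508840a016c880074806178ca7084e3488a5609e008c4550080186e0584114c8000829ba63],
.mk (.mk 707 0o76452310 0o76452310 0o254130) [.mk 950 0o76534120 0o76534120 0o354012, .mk 1071
0o76341502 0o76245031 0o123504] [],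
.mk (.mk 783 0o76520413 0o76520413 0o23514) [.mk 1153 0o76524301 0o76532401 0o152304, .mk 931
0o76543210 0o76543210 0o543210] [],
.mk (.mk 587 0o76543210 0o76543210 0o543210) [.mk 1098 0o76354012 0o76435012 0o51243, .mk 1201
0o76530421 0o76524103 0o231540] [],
.mk (.mk 846 0o76503124 0o76503124 0o13524) [.mk 1088 0o76320451 0o76125403 0o235014, .mk 851
0o76543210 0o76543210 0o543210] [],
.mk (.mk 851 0o76435210 0o76354210 0o453210) [.mk 1088 0o76543120 0o76543120 0o154320, .mk 1119
0o76542310 0o76542310 0o254130]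
[0x6024220060a8034240830500a44508018c14c008013102088e1411a623880b5412e7445c04b592200e000715601a009c238a3002104a222228055110224114600154c000082db642],
.mk (.mk 1003 0o76025413 0o76320415 0o240135) [.mk 1005 0o76435210 0o76354210 0o453210, .mk 1088
0o76123054 0o76103452 0o12534] [],
.mk (.mk 846 0o76345021 0o76345102 0o150423) [.mk 1099 0o76235410 0o76324510 0o245130, .mk 890
0o76435210 0o76354210 0o453210] [],
.mk (.mk 622 0o76543210 0o76543210 0o543210) [.mk 846 0o76451032 0o76451032 0o230154, .mk 1158
0o76530142 0o76514023 0o132540] [],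
.mk (.mk 622 0o76530421 0o76524103 0o230415) [.mk 890 0o76543210 0o76543210 0o543210, .mk 1047
0o76240513 0o76240513 0o132045] [],
.mk (.mk 890 0o76435210 0o76354210 0o453210) [.mk 1099 0o76453210 0o76453210 0o254130, .mk 935
0o76215034 0o76301542 0o105324]
[0x710c141184a2144f16000108892a402170040700a10c101829713459070c5808cd906c300dc3110800051630e4206f84f1c09300c55184347043024c003d0655a471580150d8000832510b],
.mk (.mk 1060 0o76210345 0o76012543 0o103254) [.mk 927 0o76340521 0o76245103 0o230415, .mk 890
0o76543210 0o76543210 0o543210] [],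
.mk (.mk 622 0o76153420 0o76423150 0o345102) [.mk 930 0o76243501 0o76243501 0o240531, .mk 1071
0o76034512 0o76234015 0o123405] [],
.mk (.mk 622 0o76514023 0o76530142 0o105243) [.mk 1118 0o76543210 0o76543210 0o254130, .mk 927
0o76435120 0o76354120 0o453120, .mk 1195 0o76315420 0o76325140 0o345120] [],
.mk (.mk 1061 0o76543210 0o76543210 0o254130) [.mk 935 0o76435210 0o76354210 0o453210, .mk 934
0o76215034 0o76301542 0o105234] [],
.mk (.mk 661 0o76542310 0o76542310 0o254310) [.mk 899 0o76245013 0o76340512 0o15234] [],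
.mk (.mk 1033 0o76543120 0o76543120 0o154320) [.mk 1110 0o76542310 0o76542310 0o254130, .mk 935
0o76345210 0o76345210 0o354102]
[0x100201800119ce04006020120640600362380040000210054033882388c4204e07a0a370483485400000111143398f4004200024208c04102421b5460a423000114cc00082c3642,
0x301800c098040084006082402210404040a04288e005200610c0410401a0504388058441829a83002148a29c6008128818842144046094b20200427243020000023455027048400154d0000830b642],
.mk (.mk 899 0o76245013 0o76340512 0o105342) [.mk 899 0o76435120 0o76354120 0o453120, .mk 1126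
0o76542310 0o76542310 0o254310] [],
.mk (.mk 846 0o76125043 0o76310452 0o105243) [.mk 1095 0o76542310 0o76542310 0o254310, .mk 899
0o76435210 0o76354210 0o453210] [],
.mk (.mk 717 0o76430512 0o76254013 0o250314) [.mk 899 0o76345210 0o76345210 0o453210, .mk 845
0o76543210 0o76543210 0o543210] [],
.mk (.mk 727 0o76543210 0o76543210 0o543210) [.mk 1015 0o76410352 0o76152043 0o231450, .mk 846
0o76401352 0o76152034 0o130254]
[0x8023080a0698617178020cef18a00901a18002500d030a92a000c7194a00904069c2008884000410248014d030840408aa1104c168121088236942348063000114cc00082d9a9c],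
.mk (.mk 846 0o76503124 0o76503124 0o13425) [.mk 1068 0o76320541 0o76215403 0o235014, .mk 638
0o76321540 0o76215430 0o354201] [],
.mk (.mk 1013 0o76532410 0o76524310 0o254310) [.mk 820 0o76453210 0o76453210 0o453210] [],
.mk (.mk 846 0o76501342 0o76512034 0o130254) [.mk 1053 0o76310452 0o76125043 0o231540, .mk 1185
0o76453210 0o76453210 0o453210] [],
.mk (.mk 851 0o76435120 0o76354120 0o453120) [.mk 1088 0o76542310 0o76542310 0o254310, .mk 641
0o76543210 0o76543210 0o543210] [],
.mk (.mk 571 0o76543210 0o76543210 0o543210) [.mk 826 0o76324510 0o76235410 0o453210, .mk 1106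
0o76215340 0o76312540 0o345210] [],
.mk (.mk 739 0o76214503 0o76230541 0o201543) [.mk 1110 0o76301542 0o76215034 0o132405, .mk 1146
0o76215304 0o76302541 0o25143] [],
.mk (.mk 722 0o76402513 0o76250314 0o210345) [.mk 1045 0o76215304 0o76302541 0o25143, .mk 1042
0o76401532 0o76251034 0o123405] [],
.mk (.mk 1061 0o76103452 0o76123054 0o130425) [.mk 1089 0o76201543 0o76210534 0o32154, .mk 1185
0o76345120 0o76345120 0o453120] [],
.mk (.mk 735 0o76542310 0o76542310 0o254310) [.mk 872 0o76124053 0o76130452 0o105423, .mk 945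
0o76431250 0o76154230 0o354201] [],
.mk (.mk 1055 0o76052341 0o76412305 0o142305) [.mk 945 0o76154203 0o76430251 0o203451, .mk 950
0o76543210 0o76543210 0o543210] [],
.mk (.mk 1017 0o76432150 0o76154320 0o154230) [.mk 950 0o76345120 0o76345120 0o453120, .mk 1154
0o76523410 0o76523410 0o354021] [],
.mk (.mk 1040 0o76410532 0o76251043 0o231450) [.mk 846 0o76401352 0o76152034 0o130254, .mk 638
0o76521430 0o76521430 0o345210] [],
.mk (.mk 717 0o76052413 0o76420315 0o204135) [.mk 846 0o76251430 0o76421530 0o435120] [],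
.mk (.mk 992 0o76534210 0o76534210 0o453210) [.mk 1120 0o76430521 0o76254103 0o135204, .mk 879
0o76543210 0o76543210 0o543210] [],
.mk (.mk 747 0o76543210 0o76543210 0o543210) [.mk 992 0o76412035 0o76051342 0o102354, .mk 799
0o76415032 0o76351042 0o205143] [],
.mk (.mk 701 0o76543210 0o76543210 0o453210) [.mk 943 0o76340251 0o76145203 0o142305, .mk 821
0o76543210 0o76543210 0o543210] [],
.mk (.mk 840 0o76543210 0o76543210 0o453210) [.mk 812 0o76452310 0o76452310 0o354120, .mk 627
0o76543210 0o76543210 0o543210, .mk 943 0o76340251 0o76145203 0o152304] [],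
.mk (.mk 789 0o76243105 0o76043521 0o45231) [.mk 840 0o76543210 0o76543210 0o543210, .mk 1064
0o76435210 0o76354210 0o452310] [],
.mk (.mk 789 0o76132540 0o76214350 0o143502) [.mk 804 0o76435021 0o76354102 0o250431, .mk 1077
0o76452310 0o76452310 0o453120] [],
.mk (.mk 718 0o76534021 0o76534102 0o320541) [.mk 1077 0o76135042 0o76314052 0o24351] [],
.mk (.mk 983 0o76305214 0o76305214 0o13524) [.mk 782 0o76543210 0o76543210 0o543210] [],
.mk (.mk 700 0o76543210 0o76543210 0o543210) [.mk 1064 0o76543210 0o76543210 0o453210] [],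
.mk (.mk 701 0o76543210 0o76543210 0o543210) [.mk 1025 0o76340251 0o76145203 0o152304, .mk 1001
0o76153204 0o76403251 0o43512] [],
.mk (.mk 1027 0o76534210 0o76534210 0o453210) [.mk 1070 0o76205134 0o76301524 0o13542] [],
.mk (.mk 627 0o76543210 0o76543210 0o543210) [.mk 1064 0o76534210 0o76534210 0o452310, .mk 862
0o76351204 0o76405231 0o24513] [],
.mk (.mk 1025 0o76524301 0o76532401 0o245013) [.mk 1068 0o76325041 0o76315402 0o14532, .mk 632
0o76524301 0o76532401 0o425013] [],
.mk (.mk 1018 0o76150423 0o76420153 0o140253) [.mk 1123 0o76514320 0o76532140 0o352401] [],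
.mk (.mk 746 0o76543210 0o76543210 0o543210) [.mk 1051 0o76451320 0o76452130 0o451320] [],
.mk (.mk 785 0o76532410 0o76524310 0o352401) [.mk 1044 0o76130254 0o76104253 0o104352, .mk 1043
0o76541320 0o76542130 0o451320] [],
.mk (.mk 720 0o76542103 0o76540321 0o24153) [.mk 952 0o76345012 0o76345012 0o120534, .mk 828
0o76254301 0o76432501 0o240513] [],
.mk (.mk 1060 0o76204351 0o76132504 0o12354) [.mk 922 0o76245130 0o76341520 0o145230, .mk 1081
0o76452310 0o76452310 0o354120] [],
.mk (.mk 765 0o76453210 0o76453210 0o453210) [.mk 1027 0o76235014 0o76304512 0o41523, .mk 902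
0o76432510 0o76254310 0o351402] [],
.mk (.mk 1125 0o76534210 0o76534210 0o453210) [.mk 900 0o76543210 0o76543210 0o543210, .mk 860
0o76423150 0o76153420 0o154320] [],
.mk (.mk 979 0o76214035 0o76031542 0o25341) [.mk 877 0o76543210 0o76543210 0o543210] [],
.mk (.mk 1002 0o76402351 0o76152304 0o12453) [.mk 947 0o76504231 0o76531204 0o120453, .mk 877
0o76543210 0o76543210 0o543210] [],
.mk (.mk 838 0o76453210 0o76453210 0o452310) [.mk 1079 0o76243105 0o76043521 0o42531] [],
.mk (.mk 755 0o76435120 0o76354120 0o453120) [.mk 900 0o76504231 0o76531204 0o142305, .mk 905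
0o76543210 0o76543210 0o543210] [],
.mk (.mk 579 0o76534210 0o76534210 0o452310) [.mk 1115 0o76543210 0o76543210 0o543210, .mk 946
0o76514302 0o76532041 0o305241] [],
.mk (.mk 647 0o76501423 0o76520134 0o102543) [.mk 984 0o76453120 0o76453120 0o452310] []]

theorem v2300 : chkL Tab.T5 Tab.RT Tab.reps Tab.E2 Ker.cert7 D2300 2300 = true := by
  decide +kernel

end CR.C2
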