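import Pool.Agent.Lib.MP_6f5d36_co.Ker
import Pool.Agent.Lib.MP_6f5d36_co.RTab
import Pool.Agent.Lib.MP_6f5d36_co.C2.KerC
import Pool.Agent.Lib.MP_6f5d36_co.C2.ETab

/-! MP_6f5d36_co, case (ii), level 7 : the ranks 2400, ..., 2499 -/

set_option autoImplicit false
set_option maxRecDepth 100000

noncomputable section

namespace CR.C2

/-- the frames and certificates of the ranks 2400, ..., 2499 -/
def D2400 : List It :=
[.mk (.mk 1042 0o76543210 0o76543210 0o453210) [.mk 968 0o76453201 0o76453201 0o253104, .mk 895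
0o76534210 0o76534210 0o354210] [],
.mk (.mk 825 0o76213045 0o76013542 0o24513) [.mk 1042 0o76543210 0o76543210 0o543210]
[0x108020cf806314060c2a0040800d891a2204028c0c0330000108f0fa130444588a00c60c860b0313c0c0d81921e23b80890218070488644300444538b02609c05fc343a00cc190cc000834985d],
.mk (.mk 805 0o76532104 0o76504321 0o54321) [.mk 1118 0o76345201 0o76345201 0o245013] [],
.mk (.mk 762 0o76531240 0o76514230 0o354201) [.mk 1158 0o76542310 0o76542310 0o254310, .mk 936
0o76352041 0o76415302 0o150432] [],
.mk (.mk 1061 0o76542310 0o76542310 0o254310) [.mk 1106 0o76453021 0o76453102 0o150432, .mk 1167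
0o76251043 0o76410532 0o15324] [],
.mk (.mk 652 0o76342501 0o76245301 0o250431) [.mk 864 0o76543210 0o76543210 0o543210] [],
.mk (.mk 982 0o76452130 0o76451320 0o452130) [.mk 1092 0o76345210 0o76345210 0o354210] [],
.mk (.mk 716 0o76354210 0o76435210 0o453210) [.mk 1018 0o76052431 0o76421305 0o342105] [],
.mk (.mk 653 0o76251304 0o76402531 0o35241) [.mk 1119 0o76450123 0o76450123 0o150234] [],
.mk (.mk 745 0o76452130 0o76451320 0o452130) [.mk 1037 0o76120345 0o76012453 0o14253, .mk 1037
0o76452130 0o76451320 0o245310] [],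
.mk (.mk 717 0o76425310 0o76352410 0o354210) [.mk 964 0o76543210 0o76543210 0o543210, .mk 854
0o76543210 0o76543210 0o453210] [],
.mk (.mk 651 0o76541320 0o76542130 0o451320) [.mk 952 0o76325410 0o76325410 0o215403] [],
.mk (.mk 782 0o76543210 0o76543210 0o543210) [.mk 1073 0o76430512 0o76254013 0o32415, .mk 1144
0o76410532 0o76251043 0o132504] [],
.mk (.mk 774 0o76543210 0o76543210 0o543210) [.mk 850 0o76425130 0o76351420 0o253041, .mk 1001
0o76543120 0o76543120 0o352401] [],
.mk (.mk 846 0o76435021 0o76354102 0o150432) [.mk 1144 0o76452310 0o76452310 0o254310, .mk 912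
0o76532410 0o76524310 0o345210] [],
.mk (.mk 782 0o76435120 0o76354120 0o453120) [.mk 1074 0o76542310 0o76542310 0o254310, .mk 950
0o76251043 0o76410532 0o15342] [],
.mk (.mk 782 0o76435120 0o76354120 0o453120) [.mk 823 0o76342510 0o76245310 0o251403] [],
.mk (.mk 782 0o76342150 0o76145320 0o354021) [.mk 1007 0o76401352 0o76152034 0o213405, .mk 622
0o76512043 0o76510342 0o105342] [],
.mk (.mk 782 0o76354210 0o76435210 0o453210) [.mk 1095 0o76435210 0o76354210 0o254310, .mk 836
0o76510234 0o76501243 0o13245] [],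
.mk (.mk 782 0o76543210 0o76543210 0o543210) [.mk 1126 0o76543012 0o76543012 0o41523, .mk 1075
0o76524130 0o76531420 0o145230] [],
.mk (.mk 1018 0o76432150 0o76154320 0o154320) [.mk 1062 0o76215403 0o76320541 0o23541, .mk 945
0o76124503 0o76230451 0o203451] [],
.mk (.mk 548 0o76543210 0o76543210 0o543210) [.mk 788 0o76351204 0o76405231 0o124503] [],
.mk (.mk 548 0o76543210 0o76543210 0o543210) [.mk 1093 0o76315204 0o76305241 0o213504] [],
.mk (.mk 1000 0o76352140 0o76415320 0o143502) [.mk 904 0o76543210 0o76543210 0o543210] [],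
.mk (.mk 785 0o76412035 0o76051342 0o23514) [.mk 1039 0o76452310 0o76452310 0o354120, .mk 1052
0o76451230 0o76451230 0o451230]
[0x70439550038229049068819558cd8068088478a40408918ca0c18710448068920458cd821891002108aa8c080408a3006088852a4e117b4098980a8440478018168df0928e80008e280b9c010d0c721010784200194e00008349a8c],
.mk (.mk 793 0o76543210 0o76543210 0o543210) [.mk 1011 0o76452310 0o76452310 0o354210, .mk 825
0o76502314 0o76502314 0o12453]
[0x258c143022100f207242000029329c049444059812c090c2021110828e7901402809414088480070085830b8600a2140405002133107004d00681f481804ca2011f001881d4a80008350205],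
.mk (.mk 793 0o76543210 0o76543210 0o543210) [.mk 786 0o76401235 0o76051234 0o41235] [],
.mk (.mk 1008 0o76542310 0o76542310 0o453120) [.mk 1144 0o76204531 0o76231504 0o231450, .mk 1131
0o76053124 0o76403125 0o42315]
[0x4849003520611cc1261080500308c320024c018024447089184104221c31660982205b1a20bc2084300a240a090b00e00800141104154350020880044310e0820008015c214b10438022820048300154e40008308149,
0x704231000c0185420a31c6104b1b6b0400049002244c4c02180514390301b41a054845086008c110f09601ce0903390250a6902016738200470a200403004388514008010841000300154d40008318743],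
.mk (.mk 1011 0o76435102 0o76354021 0o23415) [.mk 1060 0o76341502 0o76245031 0o132504, .mk 902
0o76543210 0o76543210 0o543210] [],
.mk (.mk 991 0o76543210 0o76543210 0o453210) [.mk 629 0o76325401 0o76325401 0o340512, .mk 897
0o76431520 0o76254130 0o154230] [],
.mk (.mk 776 0o76435210 0o76354210 0o453210) [.mk 843 0o76543210 0o76543210 0o543210] [],
.mk (.mk 676 0o76435210 0o76354210 0o453210) [.mk 810 0o76234501 0o76234501 0o245013] [],
.mk (.mk 874 0o76430521 0o76254103 0o312540) [.mk 1056 0o76453210 0o76453210 0o452310] [],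
.mk (.mk 695 0o76532410 0o76524310 0o354120) [.mk 1028 0o76345012 0o76345012 0o150243, .mk 1075
0o76403215 0o76053214 0o31425] [],
.mk (.mk 676 0o76543210 0o76543210 0o453210) [.mk 788 0o76451032 0o76451032 0o150342] [],
.mk (.mk 1014 0o76351204 0o76405231 0o35412) [.mk 1025 0o76215403 0o76320541 0o125430, .mk 1045
0o76532410 0o76524310 0o354120] [],
.mk (.mk 1014 0o76032514 0o76204315 0o124305) [.mk 1070 0o76345210 0o76345210 0o453210] [],
.mk (.mk 566 0o76534210 0o76534210 0o354210) [.mk 1025 0o76453120 0o76453120 0o134052] [],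
.mk (.mk 835 0o76415032 0o76351042 0o105432) [.mk 843 0o76543210 0o76543210 0o543210] [],
.mk (.mk 980 0o76543210 0o76543210 0o543210) [.mk 843 0o76315402 0o76325041 0o231054] [],
.mk (.mk 717 0o76432510 0o76254310 0o354120) [.mk 997 0o76012435 0o76021345 0o120345, .mk 859
0o76543210 0o76543210 0o543210] [],
.mk (.mk 1095 0o76430512 0o76254013 0o132405) [.mk 888 0o76532410 0o76524310 0o354210, .mk 822
0o76453210 0o76453210 0o452301] [],
.mk (.mk 914 0o76240531 0o76241503 0o205134) [.mk 1107 0o76435210 0o76354210 0o453210, .mk 942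
0o76543210 0o76543210 0o543210] [],
.mk (.mk 833 0o76413502 0o76253041 0o215340) [.mk 850 0o76513402 0o76523041 0o125340] [],
.mk (.mk 566 0o76543210 0o76543210 0o452301) [.mk 1005 0o76345120 0o76345120 0o42153] [],
.mk (.mk 848 0o76430512 0o76254013 0o231045) [.mk 848 0o76430512 0o76254013 0o320154, .mk 1155
0o76543210 0o76543210 0o452301, .mk 1175 0o76320514 0o76205413 0o32514, .mk 1175 0o76320514
0o76205413 0o123405] [],
.mk (.mk 1005 0o76201534 0o76201534 0o102534) [.mk 877 0o76453120 0o76453120 0o452310] [],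
.mk (.mk 802 0o76345201 0o76345201 0o52413) [.mk 992 0o76453210 0o76453210 0o154230, .mk 949
0o76543210 0o76543210 0o354201] [],
.mk (.mk 730 0o76510234 0o76501243 0o15432) [.mk 1077 0o76453210 0o76453210 0o453210, .mk 1019
0o76510243 0o76510243 0o105432] [],
.mk (.mk 1001 0o76041523 0o76240135 0o120354) [.mk 1092 0o76340125 0o76045123 0o41253, .mk 854
0o76453210 0o76453210 0o453210] [],
.mk (.mk 854 0o76542310 0o76542310 0o453120) [.mk 1041 0o76215403 0o76320541 0o132054, .mk 886
0o76513402 0o76523041 0o231504] [],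
.mk (.mk 730 0o76532140 0o76514320 0o21534) [.mk 956 0o76453021 0o76453102 0o250431, .mk 854
0o76452310 0o76452310 0o453120] [],
.mk (.mk 730 0o76542301 0o76542301 0o251430) [.mk 1014 0o76453210 0o76453210 0o354120] [],
.mk (.mk 730 0o76520143 0o76510423 0o103452) [.mk 1037 0o76450312 0o76452013 0o350124, .mk 1025
0o76420135 0o76051423 0o13452] [],
.mk (.mk 769 0o76354021 0o76435102 0o250413) [.mk 932 0o76423510 0o76253410 0o354210, .mk 920
0o76543210 0o76543210 0o543210] [],
.mk (.mk 1052 0o76543210 0o76543210 0o543210) [.mk 1120 0o76413205 0o76053241 0o53421, .mk 859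
0o76304251 0o76135204 0o132540] [],
.mk (.mk 774 0o76514320 0o76532140 0o314502) [.mk 887 0o76415302 0o76352041 0o132504, .mk 1152
0o76254103 0o76430521 0o45231] [],
.mk (.mk 747 0o76543210 0o76543210 0o543210) [.mk 906 0o76415023 0o76350142 0o205413, .mk 854
0o76453120 0o76453120 0o452310] [],
.mk (.mk 705 0o76354210 0o76435210 0o453210) [.mk 1098 0o76542103 0o76540321 0o125340] [],
.mk (.mk 694 0o76543210 0o76543210 0o543210) [.mk 1016 0o76453120 0o76453120 0o351402, .mk 1109
0o76435120 0o76354120 0o153402] [],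
.mk (.mk 759 0o76501423 0o76520134 0o31245) [.mk 717 0o76543210 0o76543210 0o543210, .mk 1057
0o76402351 0o76152304 0o102354] [],
.mk (.mk 759 0o76352410 0o76425310 0o254310) [.mk 845 0o76543210 0o76543210 0o543210] [],
.mk (.mk 570 0o76543210 0o76543210 0o543210) [.mk 1196 0o76542310 0o76542310 0o154320, .mk 845
0o76254013 0o76430512 0o203514] [],
.mk (.mk 845 0o76543210 0o76543210 0o543210) [.mk 1137 0o76352410 0o76425310 0o254310, .mk 852
0o76502143 0o76510324 0o103425] [],
.mk (.mk 1122 0o76543210 0o76543210 0o254130) [.mk 940 0o76435120 0o76354120 0o453120, .mk 940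
0o76215043 0o76310542 0o105423] [],
.mk (.mk 707 0o76432510 0o76254310 0o254310) [.mk 1016 0o76305124 0o76305124 0o105234] [],
.mk (.mk 696 0o76542103 0o76540321 0o43251) [.mk 854 0o76453210 0o76453210 0o453210] [],
.mk (.mk 696 0o76543210 0o76543210 0o543210) [.mk 1193 0o76315240 0o76315240 0o314502] [],
.mk (.mk 696 0o76543210 0o76543210 0o543210) [.mk 887 0o76420315 0o76052413 0o32541] [],
.mk (.mk 991 0o76154320 0o76432150 0o124503) [.mk 1092 0o76324510 0o76235410 0o354120] [],
.mk (.mk 560 0o76534210 0o76534210 0o453210) [.mk 1090 0o76543210 0o76543210 0o543210] [],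
.mk (.mk 1051 0o76541320 0o76542130 0o451320) [.mk 913 0o76305421 0o76325104 0o213540] [],
.mk (.mk 878 0o76243510 0o76243510 0o305124) [.mk 878 0o76543210 0o76543210 0o543210, .mk 955
0o76152430 0o76421350 0o31254] [],
.mk (.mk 1036 0o76230514 0o76204513 0o25314) [.mk 962 0o76240513 0o76240513 0o205314, .mk 1059
0o76412503 0o76250341 0o132054] [],
.mk (.mk 1001 0o76150432 0o76421053 0o21543) [.mk 1061 0o76014523 0o76230145 0o130245, .mk 942
0o76543210 0o76543210 0o543210] [],
.mk (.mk 585 0o76520431 0o76521403 0o205134) [.mk 1133 0o76435210 0o76354210 0o453210, .mk 942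
0o76543210 0o76543210 0o543210] [],
.mk (.mk 758 0o76543210 0o76543210 0o543210) [.mk 850 0o76405123 0o76350124 0o150234, .mk 932
0o76435210 0o76354210 0o452301] [],
.mk (.mk 704 0o76543210 0o76543210 0o543210) [.mk 810 0o76423105 0o76053421 0o54231] [],
.mk (.mk 992 0o76321540 0o76215430 0o13425) [.mk 877 0o76543210 0o76543210 0o543210, .mk 918
0o76453210 0o76453210 0o354210] [],
.mk (.mk 1005 0o76435210 0o76354210 0o453210) [.mk 825 0o76432510 0o76254310 0o354210, .mk 1073
0o76054312 0o76432015 0o24315] [],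
.mk (.mk 594 0o76543210 0o76543210 0o543210) [.mk 1039 0o76542301 0o76542301 0o254103, .mk 1070
0o76435210 0o76354210 0o453210] [],
.mk (.mk 773 0o76435210 0o76354210 0o453210) [.mk 1193 0o76412035 0o76051342 0o210345, .mk 879
0o76543210 0o76543210 0o543210] [],
.mk (.mk 879 0o76435021 0o76354102 0o250431) [.mk 966 0o76234510 0o76234510 0o125403, .mk 1097
0o76451320 0o76452130 0o451320] [],
.mk (.mk 746 0o76543210 0o76543210 0o543210) [.mk 1097 0o76541320 0o76542130 0o451320, .mk 1054
0o76152034 0o76401352 0o203514] [],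
.mk (.mk 746 0o76452130 0o76451320 0o452130) [.mk 788 0o76532410 0o76524310 0o152403] [],
.mk (.mk 695 0o76543210 0o76543210 0o543210) [.mk 749 0o76345210 0o76345210 0o453210, .mk 1138
0o76503124 0o76503124 0o301452] [],
.mk (.mk 899 0o76125043 0o76310452 0o104253) [.mk 966 0o76452310 0o76452310 0o254310, .mk 898
0o76543210 0o76543210 0o543210] [],
.mk (.mk 1004 0o76412305 0o76052341 0o53142) [.mk 973 0o76543210 0o76543210 0o543210] [],
.mk (.mk 1053 0o76352140 0o76415320 0o143502) [.mk 1083 0o76402531 0o76251304 0o32145] [],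
.mk (.mk 874 0o76234510 0o76234510 0o245130) [.mk 1053 0o76534120 0o76534120 0o154320] [],
.mk (.mk 1011 0o76431025 0o76054132 0o52413) [.mk 1014 0o76345102 0o76345021 0o125340, .mk 874
0o76543210 0o76543210 0o543210] [],
.mk (.mk 1047 0o76542310 0o76542310 0o354120) [.mk 879 0o76435210 0o76354210 0o453210, .mk 874
0o76235104 0o76304521 0o45231] [],
.mk (.mk 732 0o76421035 0o76051432 0o52143) [.mk 874 0o76543210 0o76543210 0o543210, .mk 1084
0o76134205 0o76034251 0o213504] [],
.mk (.mk 1007 0o76410253 0o76150243 0o130245) [.mk 1011 0o76240135 0o76041523 0o23154, .mk 1099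
0o76350124 0o76405123 0o203514] [],
.mk (.mk 728 0o76453210 0o76453210 0o452310) [.mk 908 0o76543210 0o76543210 0o543210, .mk 902
0o76432510 0o76254310 0o351402] [],
.mk (.mk 620 0o76543210 0o76543210 0o543210) [.mk 1146 0o76534210 0o76534210 0o453210, .mk 879
0o76543201 0o76543201 0o350412] [],
.mk (.mk 857 0o76043125 0o76043125 0o24315) [.mk 1032 0o76542310 0o76542310 0o453120, .mk 1074
0o76043125 0o76043125 0o204315]
[0x10002400805391e80a3018915180238eade3003010ae03533cd4c8301b2c3400051242ca306914101803e4258e010b089068821391c2a460088110d000082dd80b],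
.mk (.mk 686 0o76315204 0o76305241 0o125340) [.mk 1161 0o76534210 0o76534210 0o453210] [],
.mk (.mk 1079 0o76534210 0o76534210 0o452310) [.mk 1097 0o76214305 0o76032541 0o53241, .mk 1115
0o76543210 0o76543210 0o543210]
[0x42f0a8466834b834422408110e212511c82c631088172301a0c8486479c00800308145aac12311ea21789849ee5031188e53140018064710840110cc00082e36a5],
.mk (.mk 829 0o76435210 0o76354210 0o453210) [.mk 1126 0o76032541 0o76214305 0o210543] []]

theorem v2400 : chkL Tab.T5 Tab.RT Tab.reps Tab.E2 Ker.cert7 D2400 2400 = true := by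
  decide +kernel

end CR.C2
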