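import Pool.Agent.Lib.MP_6f5d36_co.Ker
import Pool.Agent.Lib.MP_6f5d36_co.RTab
import Pool.Agent.Lib.MP_6f5d36_co.C2.KerC
import Pool.Agent.Lib.MP_6f5d36_co.C2.ETab

/-! MP_6f5d36_co, case (ii), level 7 : the ranks 2500, ..., 2599 -/

set_option autoImplicit false
set_option maxRecDepth 100000

noncomputable section

namespace CR.C2

/-- the frames and certificates of the ranks 2500, ..., 2599 -/
def D2500 : List It :=
[.mk (.mk 589 0o76524013 0o76530412 0o105342) [.mk 945 0o76435120 0o76354120 0o453120, .mk 1126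
0o76543210 0o76543210 0o254130] [],
.mk (.mk 842 0o76543120 0o76543120 0o452310) [.mk 1022 0o76531420 0o76524130 0o154230, .mk 913
0o76245031 0o76341502 0o205431] [],
.mk (.mk 799 0o76413502 0o76253041 0o215340) [.mk 1081 0o76240315 0o76042513 0o31542, .mk 859
0o76240513 0o76240513 0o305124] [],
.mk (.mk 1041 0o76524103 0o76530421 0o215340) [.mk 960 0o76315402 0o76325041 0o132504, .mk 925
0o76423510 0o76253410 0o354120] [],
.mk (.mk 998 0o76401325 0o76052134 0o210543) [.mk 919 0o76253104 0o76403521 0o305421] [],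
.mk (.mk 795 0o76543210 0o76543210 0o543210) [.mk 1096 0o76510342 0o76512043 0o150342, .mk 833
0o76541302 0o76542031 0o305241] [],
.mk (.mk 996 0o76215403 0o76320541 0o305421) [.mk 1013 0o76421503 0o76250431 0o142053] [],
.mk (.mk 1003 0o76425031 0o76351402 0o352104) [.mk 946 0o76350421 0o76425103 0o410532, .mk 1089
0o76320541 0o76215403 0o14532] [],
.mk (.mk 822 0o76503241 0o76513204 0o13245) [.mk 897 0o76543210 0o76543210 0o245031, .mk 893
0o76543210 0o76543210 0o452301, .mk 897 0o76543210 0o76543210 0o354120]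
[0x210002078c00101e3090c000cc41148450d2520000404402010210c8140001788b0610a200942190310262e101600858210828b8b41b04400868122c0a38c114c8000829cad9,
0x1e00018099005119989a004111c8021109801c47550100528200183420722c1d6c05391c02c690da8420252089482034908c22632711060971108c110d000082e374b,
0x4b2f00a8008bc24d14c300023304c00a896018c017268518170188200841c80cf08e2f02000e08341954759403d0ca901a8b4404888c272110078480f8d3d000e71c40388455105603a841d004d114a10782f70045280c225922908254c400083e570d,
0xc44d44351e08388e866f0000ab204204e142124c87c084009907302a03f24b985c436737321900c42a02a11810fc838411d1e180c0c045907b1ab853e82381588c189875e5b69a1089ea1202221348ac6a0427c84c8210d400083ec8e9],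
.mk (.mk 978 0o76453210 0o76453210 0o453210) [.mk 1021 0o76415320 0o76352140 0o352401, .mk 1051
0o76543210 0o76543210 0o543210] [],
.mk (.mk 1021 0o76543120 0o76543120 0o154320) [.mk 931 0o76543210 0o76543210 0o453210, .mk 895
0o76452310 0o76452310 0o245130, .mk 640 0o76543210 0o76543210 0o543210] [],
.mk (.mk 1031 0o76241503 0o76240531 0o123054) [.mk 1072 0o76412503 0o76250341 0o31245] [],
.mk (.mk 1042 0o76543210 0o76543210 0o543210) [.mk 959 0o76420315 0o76052413 0o41352, .mk 1097
0o76451320 0o76452130 0o451320]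
[0x450e1044301500a034608c3602000c22880024302104b08a2006d04d000118240450e01102585018021c2040f600604bd285102101668c138e0588184708a1000401b10216c2004154d0000832414c],
.mk (.mk 1068 0o76351420 0o76425130 0o342501) [.mk 947 0o76520134 0o76501423 0o213045] [],
.mk (.mk 605 0o76543210 0o76543210 0o543210) [.mk 1108 0o76541032 0o76541032 0o52143, .mk 1075
0o76405132 0o76351024 0o123045] [],
.mk (.mk 605 0o76054312 0o76432015 0o210534) [.mk 1105 0o76045213 0o76340215 0o120354, .mk 1059
0o76035421 0o76324105 0o32415] [],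
.mk (.mk 784 0o76345210 0o76345210 0o452310) [.mk 908 0o76543210 0o76543210 0o543210, .mk 1072
0o76415203 0o76350241 0o12435] [],
.mk (.mk 908 0o76543210 0o76543210 0o315042) [.mk 1168 0o76532410 0o76524310 0o31542, .mk 900
0o76435210 0o76354210 0o135042] [],
.mk (.mk 584 0o76532410 0o76524310 0o351402) [.mk 1041 0o76201534 0o76201534 0o23145] [],
.mk (.mk 895 0o76532041 0o76514302 0o312540) [.mk 900 0o76543210 0o76543210 0o543210, .mk 1125
0o76534210 0o76534210 0o453210] [],
.mk (.mk 669 0o76543210 0o76543210 0o543210) [.mk 1000 0o76352140 0o76415320 0o143502] [],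
.mk (.mk 675 0o76503421 0o76523104 0o21354) [.mk 577 0o76543210 0o76543210 0o452310] [],
.mk (.mk 675 0o76543210 0o76543210 0o543210) [.mk 976 0o76054312 0o76432015 0o43215] [],
.mk (.mk 602 0o76543210 0o76543210 0o543210) [.mk 627 0o76534210 0o76534210 0o452310, .mk 878
0o76524310 0o76532410 0o305124] [],
.mk (.mk 563 0o76543210 0o76543210 0o543210) [.mk 577 0o76514230 0o76531240 0o314052, .mk 602
0o76534210 0o76534210 0o453210] [],
.mk (.mk 742 0o76345210 0o76345210 0o453210) [.mk 751 0o76023514 0o76203415 0o214035, .mk 824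
0o76543210 0o76543210 0o543210] [],
.mk (.mk 742 0o76514203 0o76530241 0o215340) [.mk 962 0o76543210 0o76543210 0o543210, .mk 943
0o76534210 0o76534210 0o453210] [],
.mk (.mk 1047 0o76420153 0o76150423 0o231045) [.mk 1110 0o76410523 0o76250143 0o32514, .mk 1079
0o76543210 0o76543210 0o453210] [],
.mk (.mk 807 0o76430521 0o76254103 0o130542) [.mk 929 0o76543210 0o76543210 0o543210, .mk 807
0o76435021 0o76354102 0o230541] [],
.mk (.mk 716 0o76452310 0o76452310 0o210534) [.mk 944 0o76543210 0o76543210 0o543210, .mk 853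
0o76452310 0o76452310 0o453120] [],
.mk (.mk 809 0o76532041 0o76514302 0o231540) [.mk 815 0o76543210 0o76543210 0o543210, .mk 944
0o76432150 0o76154320 0o354210] [],
.mk (.mk 666 0o76541320 0o76542130 0o351402) [.mk 1183 0o76435102 0o76354021 0o54321] [],
.mk (.mk 702 0o76543210 0o76543210 0o452310) [.mk 942 0o76420351 0o76152403 0o132450] [],
.mk (.mk 814 0o76543210 0o76543210 0o543210) [.mk 1067 0o76543210 0o76543210 0o254130, .mk 1023
0o76534210 0o76534210 0o154230]
[0x1d00881181500781a00381d00285c80902388900094c9c200084a10cb8005800080120e800a860839c00c42cb0c304580388b88600680a8018000468c78c7083c8728bb0348400120200080194c8000832dad4],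
.mk (.mk 985 0o76542301 0o76542301 0o251430) [.mk 948 0o76452310 0o76452310 0o354120] [],
.mk (.mk 814 0o76245310 0o76342510 0o453210) [.mk 1108 0o76524301 0o76532401 0o45123, .mk 960
0o76423510 0o76253410 0o154230] [],
.mk (.mk 814 0o76543210 0o76543210 0o543210) [.mk 1013 0o76503142 0o76513024 0o130524, .mk 1105
0o76432501 0o76254301 0o54213] [],
.mk (.mk 984 0o76543210 0o76543210 0o543210) [.mk 917 0o76325410 0o76325410 0o354210] [],
.mk (.mk 823 0o76543210 0o76543210 0o543210) [.mk 1105 0o76205314 0o76302514 0o32451, .mk 1118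
0o76205314 0o76302514 0o302451] [],
.mk (.mk 811 0o76425310 0o76352410 0o354120) [.mk 1024 0o76450231 0o76451203 0o41253, .mk 811
0o76452310 0o76452310 0o453120]
[0x38081580fd480d5107209216483011910802854858053a1b04f8050468510041578d185001101d89905a0739c389c00495416e814b890c206c81400080500104304a90308d0c194bc000830849b,
0x911ba008180451a80a0120222e2189732a7010029e6891506d45eb6901201509000202a8d8291c12e0080540f21e25466000000a058080410a009033121009008190bc000830869b,
0xf46f0008e05ac80c008f49ac3ce130ab4c02921d08b02808182b31562a88895828320086a9453c6a81890317b0d063001303b0c819098000830a0a4,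
0x9019630c170010401141a1600661857b2a27b620540b537ae030066901201109001000e898281c32c0084538e22a23c6600030ec48c0140200c048080430a0088190bc000830c0a4],
.mk (.mk 781 0o76543210 0o76543210 0o543210) [.mk 1033 0o76420153 0o76150423 0o231045, .mk 1097
0o76421503 0o76250431 0o52143] [],
.mk (.mk 1014 0o76410253 0o76150243 0o32154) [.mk 1073 0o76420153 0o76150423 0o132045, .mk 1040
0o76410253 0o76150243 0o230154] [],
.mk (.mk 652 0o76345210 0o76345210 0o154230) [.mk 936 0o76543210 0o76543210 0o354210] [],
.mk (.mk 713 0o76453210 0o76453210 0o154230) [.mk 911 0o76432501 0o76254301 0o250314, .mk 958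
0o76543210 0o76543210 0o354210] [],
.mk (.mk 670 0o76345210 0o76345210 0o154230) [.mk 1199 0o76543210 0o76543210 0o453210, .mk 1062
0o76345102 0o76345021 0o52143] [],
.mk (.mk 815 0o76543210 0o76543210 0o543210) [.mk 1196 0o76041253 0o76140235 0o120345, .mk 993
0o76041253 0o76140235 0o210345] [],
.mk (.mk 1027 0o76543210 0o76543210 0o154230) [.mk 797 0o76453210 0o76453210 0o354201] [],
.mk (.mk 730 0o76453210 0o76453210 0o154230) [.mk 845 0o76345102 0o76345021 0o52143, .mk 1181
0o76543210 0o76543210 0o354210] [],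
.mk (.mk 705 0o76435210 0o76354210 0o154230) [.mk 815 0o76534210 0o76534210 0o453120] [],
.mk (.mk 815 0o76543210 0o76543210 0o543210) [.mk 1122 0o76412053 0o76150342 0o31245, .mk 1144
0o76431052 0o76154032 0o231504] [],
.mk (.mk 741 0o76321504 0o76205431 0o203541) [.mk 881 0o76543210 0o76543210 0o543210, .mk 945
0o76354210 0o76435210 0o453210] [],
.mk (.mk 1082 0o76534120 0o76534120 0o145320) [.mk 905 0o76453210 0o76453210 0o354102, .mk 905
0o76543120 0o76543120 0o453120] [],
.mk (.mk 707 0o76543210 0o76543210 0o254310) [.mk 966 0o76253140 0o76413520 0o145320, .mk 927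
0o76345210 0o76345210 0o354102] [],
.mk (.mk 1045 0o76305421 0o76325104 0o243105) [.mk 1104 0o76043251 0o76143205 0o103425, .mk 865
0o76435210 0o76354210 0o453210]
[0x30422000012016008082580c0285e031d891158170827414c518024714e0008c3989008ac0130c00086010072e18ca10c4e132c00200a10882a018220000060421094114d400082db642],
.mk (.mk 865 0o76521043 0o76510432 0o14325) [.mk 952 0o76435210 0o76354210 0o254310, .mk 905
0o76543210 0o76543210 0o543210] [],
.mk (.mk 905 0o76543210 0o76543210 0o543210) [.mk 1103 0o76435210 0o76354210 0o254310, .mk 931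
0o76453120 0o76453120 0o453120] [],
.mk (.mk 788 0o76415320 0o76352140 0o352401) [.mk 835 0o76542031 0o76541302 0o52143, .mk 993
0o76453210 0o76453210 0o453210] [],
.mk (.mk 725 0o76543210 0o76543210 0o543210) [.mk 922 0o76235140 0o76314520 0o142503, .mk 930
0o76452310 0o76452310 0o354120] [],
.mk (.mk 762 0o76354210 0o76435210 0o453210) [.mk 922 0o76321504 0o76205431 0o203415, .mk 725
0o76543210 0o76543210 0o543210] [],
.mk (.mk 1059 0o76425031 0o76351402 0o41352) [.mk 1119 0o76523401 0o76523401 0o245013, .mk 1072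
0o76543021 0o76543102 0o140532]
[0x400d0020200800104a10c2401112c03c1a10e04e500c284b10442c010571860140200702c86c052001980246018541232007b98196404208c8b0ad2ca1941108258218010c40284020154d4000832dad4],
.mk (.mk 725 0o76543210 0o76543210 0o543210) [.mk 1129 0o76432510 0o76254310 0o254310, .mk 934
0o76153240 0o76413250 0o345201] [],
.mk (.mk 1066 0o76542310 0o76542310 0o254310) [.mk 1169 0o76534120 0o76534120 0o453120, .mk 934
0o76215034 0o76301542 0o105324] [],
.mk (.mk 763 0o76152340 0o76412350 0o345012) [.mk 905 0o76543210 0o76543210 0o543210, .mk 1044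
0o76052341 0o76412305 0o34125] [],
.mk (.mk 1027 0o76534021 0o76534102 0o250413) [.mk 1053 0o76203145 0o76013524 0o102345] [],
.mk (.mk 738 0o76543210 0o76543210 0o543210) [.mk 1120 0o76423510 0o76253410 0o245130] [],
.mk (.mk 798 0o76543210 0o76543210 0o543210) [.mk 1064 0o76354210 0o76435210 0o452310] [],
.mk (.mk 1053 0o76201435 0o76021534 0o203145) [.mk 1056 0o76345210 0o76345210 0o452310, .mk 932
0o76423150 0o76153420 0o153402] [],
.mk (.mk 683 0o76451230 0o76451230 0o451230) [.mk 1126 0o76534210 0o76534210 0o354210, .mk 1129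
0o76351240 0o76415230 0o145230] [],
.mk (.mk 770 0o76354210 0o76435210 0o453210) [.mk 888 0o76351042 0o76415032 0o320514, .mk 1122
0o76241053 0o76140532 0o230154] [],
.mk (.mk 681 0o76543210 0o76543210 0o543210) [.mk 1056 0o76534210 0o76534210 0o453210] [],
.mk (.mk 670 0o76523140 0o76513420 0o21534) [.mk 1128 0o76452310 0o76452310 0o453120] [],
.mk (.mk 704 0o76543210 0o76543210 0o543210) [.mk 928 0o76354210 0o76435210 0o453210, .mk 1100
0o76215430 0o76321540 0o120435] [],
.mk (.mk 671 0o76345021 0o76345102 0o352104) [.mk 970 0o76543210 0o76543210 0o543210, .mk 946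
0o76314025 0o76035142 0o25431] [],
.mk (.mk 771 0o76524310 0o76532410 0o245130) [.mk 845 0o76435210 0o76354210 0o453210] [],
.mk (.mk 845 0o76543210 0o76543210 0o543210) [.mk 1065 0o76532410 0o76524310 0o254310, .mk 1119
0o76231054 0o76104532 0o104253] [],
.mk (.mk 763 0o76402513 0o76250314 0o13524) [.mk 781 0o76543210 0o76543210 0o543210, .mk 911
0o76342510 0o76245310 0o453210] [],
.mk (.mk 1066 0o76543210 0o76543210 0o254130) [.mk 934 0o76435120 0o76354120 0o453120, .mk 950
0o76251034 0o76401532 0o15243] [],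
.mk (.mk 874 0o76453210 0o76453210 0o254310) [.mk 1158 0o76543120 0o76543120 0o154320, .mk 1130
0o76542130 0o76541320 0o53142] [],
.mk (.mk 1053 0o76340512 0o76245013 0o132540) [.mk 935 0o76514203 0o76530241 0o203541, .mk 638
0o76351420 0o76425130 0o354120] [],
.mk (.mk 734 0o76542310 0o76542310 0o254310) [.mk 851 0o76125043 0o76310452 0o105423, .mk 950
0o76435210 0o76354210 0o453210] [],
.mk (.mk 1034 0o76435102 0o76354021 0o52431) [.mk 1062 0o76453120 0o76453120 0o453120, .mk 950
0o76543210 0o76543210 0o543210] [],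
.mk (.mk 1023 0o76532104 0o76504321 0o205431) [.mk 1192 0o76504123 0o76530124 0o103542, .mk 936
0o76504123 0o76530124 0o13524] [],
.mk (.mk 771 0o76014523 0o76230145 0o203415) [.mk 1037 0o76013524 0o76203145 0o23145, .mk 1185
0o76543210 0o76543210 0o543210] [],
.mk (.mk 707 0o76530421 0o76524103 0o230541) [.mk 1073 0o76405321 0o76352104 0o124305] [],
.mk (.mk 718 0o76452103 0o76450321 0o241053) [.mk 1006 0o76351024 0o76405132 0o25431, .mk 912
0o76543210 0o76543210 0o543210] [],
.mk (.mk 707 0o76504213 0o76530214 0o421035) [.mk 1158 0o76543120 0o76543120 0o352401, .mk 1066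
0o76532104 0o76504321 0o43521] [],
.mk (.mk 553 0o76543210 0o76543210 0o543210) [.mk 1060 0o76452103 0o76450321 0o251043] [],
.mk (.mk 853 0o76453210 0o76453210 0o354201) [.mk 961 0o76543102 0o76543021 0o230514, .mk 884
0o76543210 0o76543210 0o543210] [],
.mk (.mk 826 0o76543210 0o76543210 0o543210) [.mk 963 0o76035142 0o76314025 0o230145, .mk 911
0o76345210 0o76345210 0o453210]
[0x20844484a80b09010403d5a5020042088b0026584d10100a4800d80cc10031608cd0022012420558a4044480800401429acb03830c2280c00030406043032220210200861040600154d00008315662],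
.mk (.mk 761 0o76342150 0o76145320 0o154320) [.mk 1079 0o76543210 0o76543210 0o543210, .mk 1112
0o76453210 0o76453210 0o452310] [],
.mk (.mk 619 0o76543210 0o76543210 0o543210) [.mk 817 0o76453120 0o76453120 0o153402, .mk 1054
0o76514203 0o76530241 0o43512] [],
.mk (.mk 817 0o76512304 0o76502341 0o12345) [.mk 1127 0o76215403 0o76320541 0o215430, .mk 1094
0o76413205 0o76053241 0o102435] [],
.mk (.mk 571 0o76543210 0o76543210 0o543210) [.mk 1187 0o76351204 0o76405231 0o25431, .mk 911
0o76543210 0o76543210 0o453210] [],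
.mk (.mk 718 0o76543210 0o76543210 0o543210) [.mk 938 0o76435102 0o76354021 0o251403] [],
.mk (.mk 1032 0o76453120 0o76453120 0o452310) [.mk 1138 0o76502314 0o76502314 0o103452, .mk 848
0o76425310 0o76352410 0o352401] [],
.mk (.mk 717 0o76432510 0o76254310 0o354120) [.mk 1034 0o76534012 0o76534012 0o41523, .mk 848
0o76543210 0o76543210 0o453210] [],
.mk (.mk 793 0o76453120 0o76453120 0o452310) [.mk 1168 0o76241530 0o76241530 0o32154, .mk 893
0o76452310 0o76452310 0o352401] [],
.mk (.mk 814 0o76543210 0o76543210 0o543210) [.mk 1054 0o76453210 0o76453210 0o254130, .mk 1102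
0o76432501 0o76254301 0o54213]
[0x1d00881a80300281101581d00785800180008694e04090b90b80608418600a00000190709c8230098431000cca498408c304694c903a0210588000a3079400c7acb843f83c8484188200080194c8000832d8d4],
.mk (.mk 707 0o76542310 0o76542310 0o254310) [.mk 1185 0o76453120 0o76453120 0o453120, .mk 899
0o76254013 0o76430512 0o105243] [],
.mk (.mk 899 0o76531240 0o76514230 0o354201) [.mk 1158 0o76542310 0o76542310 0o254310, .mk 852
0o76435021 0o76354102 0o51324] []]

theorem v2500 : chkL Tab.T5 Tab.RT Tab.reps Tab.E2 Ker.cert7 D2500 2500 = true := by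
  decide +kernel

end CR.C2
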