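import Pool.Agent.Lib.MP_6f5d36_co.Ker
import Pool.Agent.Lib.MP_6f5d36_co.RTab
import Pool.Agent.Lib.MP_6f5d36_co.C2.KerC
import Pool.Agent.Lib.MP_6f5d36_co.C2.ETab

/-! MP_6f5d36_co, case (ii), level 7 : the ranks 2600, ..., 2699 -/

set_option autoImplicit false
set_option maxRecDepth 100000

noncomputable section

namespace CR.C2

/-- the frames and certificates of the ranks 2600, ..., 2699 -/
def D2600 : List It :=
[.mk (.mk 670 0o76531024 0o76504132 0o201354) [.mk 931 0o76251034 0o76401532 0o15234] [],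
.mk (.mk 885 0o76504123 0o76530124 0o13452) [.mk 1119 0o76523104 0o76503421 0o205143, .mk 927
0o76543210 0o76543210 0o543210] [],
.mk (.mk 763 0o76543210 0o76543210 0o543210) [.mk 1050 0o76543102 0o76543021 0o251403, .mk 1197
0o76405123 0o76350124 0o13452] [],
.mk (.mk 851 0o76435210 0o76354210 0o453210) [.mk 885 0o76213450 0o76123540 0o345210, .mk 879
0o76124053 0o76130452 0o104253] [],
.mk (.mk 1104 0o76542310 0o76542310 0o254310) [.mk 936 0o76514320 0o76532140 0o345120, .mk 958
0o76435021 0o76354102 0o150432] [],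
.mk (.mk 983 0o76350124 0o76405123 0o123405) [.mk 1031 0o76140235 0o76041253 0o210345, .mk 1083
0o76410253 0o76150243 0o32154] [],
.mk (.mk 1017 0o76542310 0o76542310 0o254310) [.mk 934 0o76341250 0o76145230 0o354201, .mk 851
0o76435120 0o76354120 0o453120] [],
.mk (.mk 1025 0o76214530 0o76231540 0o325041) [.mk 1080 0o76451320 0o76452130 0o451320, .mk 1031
0o76543210 0o76543210 0o543210] [],
.mk (.mk 927 0o76152034 0o76401352 0o15243) [.mk 1122 0o76543210 0o76543210 0o254130, .mk 1185
0o76534120 0o76534120 0o453120]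
[0x4004c00d449886232032861489520305a010099d1ea240b9406216113b0a232d014826233b0fcc2043118222b09120884711080a284318e44408216650110d800082dcadd],
.mk (.mk 827 0o76435021 0o76354102 0o150423) [.mk 1162 0o76123450 0o76123450 0o345021, .mk 935
0o76435210 0o76354210 0o453210, .mk 1130 0o76405321 0o76352104 0o214305] [],
.mk (.mk 782 0o76453210 0o76453210 0o453210) [.mk 1015 0o76340512 0o76245013 0o132540]
[0xc3040590c073384120012710c10088100005308c103c017248100c4900573b040f60503114cb00c4c104540281a020155104780d4185e8a07c6365a594044100cc6505400008b01c0150e800083138e9],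
.mk (.mk 734 0o76532014 0o76504312 0o201543) [.mk 899 0o76245013 0o76340512 0o105243, .mk 851
0o76435210 0o76354210 0o453210]
[0x200e10c6388221011c420052809002080018e2090088328603c2080b124514e18c808ac0020840508016408cf08030c40aec0e22140198101e204468b41085080100419222c4400154d000083190e9],
.mk (.mk 734 0o76045321 0o76342105 0o124305) [.mk 1157 0o76402351 0o76152304 0o31452, .mk 1130
0o76045321 0o76342105 0o214305]
[0x4c0880b10e2740789601a024290004660a40295b0022201100210e2216208e10c9700518941241ca38cb0803406004409a02c2410400c506600060814080708200621806047006500400591340300180154e8000832c70d],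
.mk (.mk 734 0o76210543 0o76210543 0o231054) [.mk 1040 0o76120543 0o76210453 0o130245, .mk 1185
0o76543210 0o76543210 0o543210] [],
.mk (.mk 1119 0o76513024 0o76503142 0o105243) [.mk 927 0o76524103 0o76530421 0o23541, .mk 1184
0o76524103 0o76530421 0o203541] [],
.mk (.mk 1009 0o76501423 0o76520134 0o132045) [.mk 927 0o76534120 0o76534120 0o453120, .mk 1066
0o76501432 0o76521034 0o231405] [],
.mk (.mk 826 0o76453210 0o76453210 0o453120) [.mk 1105 0o76451032 0o76451032 0o31425, .mk 1201
0o76543021 0o76543102 0o231540] [],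
.mk (.mk 1061 0o76542310 0o76542310 0o254310) [.mk 899 0o76435120 0o76354120 0o453120, .mk 1169
0o76152043 0o76410352 0o105432] [],
.mk (.mk 1071 0o76341502 0o76245031 0o123504) [.mk 1169 0o76543210 0o76543210 0o453210, .mk 1111
0o76543120 0o76543120 0o53412] [],
.mk (.mk 790 0o76543210 0o76543210 0o543210) [.mk 1164 0o76315042 0o76315042 0o32514, .mk 1169
0o76345120 0o76345120 0o453120] [],
.mk (.mk 1054 0o76543120 0o76543120 0o154320) [.mk 1103 0o76452310 0o76452310 0o254130, .mk 1119
0o76543120 0o76543120 0o53412] [],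
.mk (.mk 1039 0o76543120 0o76543120 0o53412) [.mk 1041 0o76543120 0o76543120 0o154320, .mk 935
0o76543210 0o76543210 0o453210] [],
.mk (.mk 656 0o76351402 0o76425031 0o123054) [.mk 731 0o76541302 0o76542031 0o213054, .mk 1117
0o76530214 0o76504213 0o21543] [],
.mk (.mk 756 0o76310542 0o76215043 0o213054) [.mk 821 0o76310452 0o76125043 0o123054] [],
.mk (.mk 805 0o76021453 0o76120435 0o130254) [.mk 805 0o76012543 0o76210345 0o230145, .mk 1082
0o76021354 0o76102435 0o13254] [],
.mk (.mk 844 0o76543210 0o76543210 0o543210) [.mk 1110 0o76432510 0o76254310 0o254310, .mk 897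
0o76435210 0o76354210 0o153402] [],
.mk (.mk 647 0o76042513 0o76240315 0o201543) [.mk 1039 0o76412503 0o76250341 0o130245] [],
.mk (.mk 864 0o76543210 0o76543210 0o453210) [.mk 963 0o76452301 0o76452301 0o240531, .mk 866
0o76432051 0o76154302 0o150423] [],
.mk (.mk 714 0o76523140 0o76513420 0o12435) [.mk 956 0o76235041 0o76314502 0o140532] [],
.mk (.mk 805 0o76041532 0o76241035 0o213405) [.mk 1118 0o76012543 0o76210345 0o31254, .mk 1062
0o76354210 0o76435210 0o453210] [],
.mk (.mk 844 0o76543210 0o76543210 0o543210) [.mk 949 0o76530421 0o76524103 0o32541] [],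
.mk (.mk 865 0o76125043 0o76310452 0o105423) [.mk 886 0o76543210 0o76543210 0o254130, .mk 931
0o76345120 0o76345120 0o453120] [],
.mk (.mk 659 0o76351402 0o76425031 0o123504) [.mk 774 0o76531420 0o76524130 0o214503] [],
.mk (.mk 697 0o76542310 0o76542310 0o254310) [.mk 950 0o76435210 0o76354210 0o453210, .mk 945
0o76251034 0o76401532 0o15243] [],
.mk (.mk 852 0o76432051 0o76154302 0o150423) [.mk 1123 0o76542310 0o76542310 0o254310, .mk 935
0o76341250 0o76145230 0o354201] [],
.mk (.mk 1033 0o76401523 0o76250134 0o132045) [.mk 1126 0o76503412 0o76523014 0o31524, .mk 1066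
0o76401532 0o76251034 0o231405]
[0x28108240088c108420680431d4010842548c0101827218c362d0038447004450041110400008043a6024808a69cc1680622086350540114440810000121884114c800082a4ae1],
.mk (.mk 852 0o76504132 0o76531024 0o13452) [.mk 1113 0o76352410 0o76425310 0o254130, .mk 936
0o76305142 0o76315024 0o103452] [],
.mk (.mk 763 0o76530124 0o76504123 0o23145) [.mk 983 0o76523014 0o76503412 0o104523, .mk 975
0o76241530 0o76241530 0o345201] [],
.mk (.mk 827 0o76540321 0o76542103 0o23145) [.mk 930 0o76354210 0o76435210 0o453210, .mk 885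
0o76450321 0o76452103 0o203154] [],
.mk (.mk 1018 0o76452310 0o76452310 0o254310) [.mk 950 0o76543210 0o76543210 0o543210, .mk 958
0o76204153 0o76130524 0o103542] [],
.mk (.mk 1000 0o76542310 0o76542310 0o254310) [.mk 899 0o76431250 0o76154230 0o354201] [],
.mk (.mk 1089 0o76301452 0o76125034 0o31542) [.mk 958 0o76510342 0o76512043 0o132045, .mk 1185
0o76543120 0o76543120 0o453120] [],
.mk (.mk 733 0o76410235 0o76051243 0o31245) [.mk 1066 0o76452310 0o76452310 0o453120, .mk 1122
0o76410235 0o76051243 0o301245] [],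
.mk (.mk 684 0o76301452 0o76125034 0o123045) [.mk 968 0o76301542 0o76215034 0o213045, .mk 1071
0o76102543 0o76210354 0o32154] [],
.mk (.mk 787 0o76542310 0o76542310 0o254310) [.mk 934 0o76215034 0o76301542 0o105234, .mk 1184
0o76123054 0o76103452 0o15324] [],
.mk (.mk 1066 0o76351420 0o76425130 0o25413) [.mk 1155 0o76534210 0o76534210 0o452301, .mk 1117
0o76425301 0o76352401 0o152340] [],
.mk (.mk 648 0o76452301 0o76452301 0o251430) [.mk 1121 0o76302514 0o76205314 0o301542, .mk 1122
0o76203415 0o76023514 0o31452] [],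
.mk (.mk 1013 0o76425301 0o76352401 0o152340) [.mk 942 0o76534210 0o76534210 0o452301] [],
.mk (.mk 876 0o76435210 0o76354210 0o452310) [.mk 1100 0o76432150 0o76154320 0o154320, .mk 1115
0o76543210 0o76543210 0o543210] [],
.mk (.mk 775 0o76534021 0o76534102 0o41523) [.mk 861 0o76345210 0o76345210 0o453210] [],
.mk (.mk 600 0o76543210 0o76543210 0o543210) [.mk 1135 0o76324510 0o76235410 0o453210, .mk 1136
0o76534210 0o76534210 0o354120] [],
.mk (.mk 1026 0o76245130 0o76341520 0o23541) [.mk 920 0o76543210 0o76543210 0o543210, .mk 1092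
0o76041352 0o76142035 0o140235] [],
.mk (.mk 777 0o76542130 0o76541320 0o452130) [.mk 1100 0o76542031 0o76541302 0o52413, .mk 920
0o76543210 0o76543210 0o543210] [],
.mk (.mk 777 0o76453210 0o76453210 0o453210) [.mk 792 0o76543210 0o76543210 0o543210, .mk 921
0o76453210 0o76453210 0o354210] [],
.mk (.mk 985 0o76542130 0o76541320 0o23541) [.mk 1005 0o76251430 0o76421530 0o145230] [],
.mk (.mk 1027 0o76542301 0o76542301 0o350412) [.mk 812 0o76534201 0o76534201 0o53412, .mk 1026
0o76345210 0o76345210 0o453210] [],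
.mk (.mk 600 0o76543210 0o76543210 0o543210) [.mk 1086 0o76542310 0o76542310 0o154320, .mk 783
0o76453210 0o76453210 0o354102] [],
.mk (.mk 1038 0o76204135 0o76031524 0o13254) [.mk 911 0o76543210 0o76543210 0o543210, .mk 1066
0o76401253 0o76150234 0o230145] [],
.mk (.mk 714 0o76345210 0o76345210 0o453210) [.mk 1110 0o76310524 0o76205143 0o32514, .mk 1099
0o76542301 0o76542301 0o254013]
[0x68510900082384139311861a05006200029d90041c00e0df1b01500202d0980300904820e100ea116110b1e0780c1001192a98b11a0200604c11201cc110100210c028460108008498154d4000832b359],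
.mk (.mk 1062 0o76124053 0o76130452 0o15342) [.mk 1110 0o76542310 0o76542310 0o254310, .mk 945
0o76534120 0o76534120 0o453120] [],
.mk (.mk 685 0o76342510 0o76245310 0o254310) [.mk 1109 0o76012345 0o76012345 0o12354, .mk 945
0o76534210 0o76534210 0o453210] [],
.mk (.mk 697 0o76401523 0o76250134 0o231045) [.mk 1040 0o76402513 0o76250314 0o130254, .mk 945
0o76543210 0o76543210 0o543210] [],
.mk (.mk 667 0o76514230 0o76531240 0o345201) [.mk 736 0o76435210 0o76354210 0o453210, .mk 905
0o76543210 0o76543210 0o543210] [],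
.mk (.mk 699 0o76413520 0o76253140 0o345102) [.mk 736 0o76534210 0o76534210 0o453210] [],
.mk (.mk 827 0o76520134 0o76501423 0o13425) [.mk 1130 0o76435210 0o76354210 0o254310, .mk 905
0o76543210 0o76543210 0o543210] [],
.mk (.mk 827 0o76435021 0o76354102 0o150432) [.mk 930 0o76512430 0o76521340 0o345120, .mk 1169
0o76534120 0o76534120 0o453120] [],
.mk (.mk 761 0o76502341 0o76512304 0o102345) [.mk 868 0o76432510 0o76254310 0o254130, .mk 827
0o76231540 0o76214530 0o345102] [],
.mk (.mk 738 0o76430521 0o76254103 0o243105) [.mk 755 0o76543210 0o76543210 0o453210, .mk 1167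
0o76301452 0o76125034 0o31245] [],
.mk (.mk 744 0o76503421 0o76523104 0o243105) [.mk 755 0o76435210 0o76354210 0o453210] [],
.mk (.mk 744 0o76453210 0o76453210 0o453210) [.mk 971 0o76543210 0o76543210 0o543210] [],
.mk (.mk 765 0o76354210 0o76435210 0o453210) [.mk 1158 0o76431520 0o76254130 0o351402, .mk 1025
0o76352014 0o76405312 0o41523] [],
.mk (.mk 765 0o76543210 0o76543210 0o453210) [.mk 969 0o76325014 0o76305412 0o41523] [],
.mk (.mk 560 0o76534210 0o76534210 0o453210) [.mk 1146 0o76543210 0o76543210 0o543210, .mk 883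
0o76412350 0o76152340 0o134052] [],
.mk (.mk 770 0o76432501 0o76254301 0o251430) [.mk 925 0o76425301 0o76352401 0o152340, .mk 883
0o76435210 0o76354210 0o453210] [],
.mk (.mk 1056 0o76453210 0o76453210 0o452310) [.mk 1064 0o76543210 0o76543210 0o543210, .mk 1158
0o76340152 0o76145023 0o123450] [],
.mk (.mk 620 0o76543210 0o76543210 0o543210) [.mk 1187 0o76352401 0o76425301 0o35412, .mk 900
0o76543210 0o76543210 0o453210] [],
.mk (.mk 784 0o76543210 0o76543210 0o543210) [.mk 1064 0o76453210 0o76453210 0o453210] [],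
.mk (.mk 784 0o76543210 0o76543210 0o543210) [.mk 1125 0o76534210 0o76534210 0o453210] [],
.mk (.mk 856 0o76543210 0o76543210 0o543210) [.mk 1014 0o76532410 0o76524310 0o354210] [],
.mk (.mk 855 0o76423150 0o76153420 0o154320) [.mk 1196 0o76012534 0o76201345 0o21345, .mk 1125
0o76534210 0o76534210 0o453210] [],
.mk (.mk 1014 0o76024351 0o76132405 0o13245) [.mk 908 0o76543210 0o76543210 0o543210] [],
.mk (.mk 766 0o76543210 0o76543210 0o452310) [.mk 1119 0o76213504 0o76203541 0o204153] [],
.mk (.mk 730 0o76501243 0o76510234 0o12534) [.mk 854 0o76453210 0o76453210 0o453210] [],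
.mk (.mk 768 0o76543210 0o76543210 0o453210) [.mk 1035 0o76453021 0o76453102 0o250431] [],
.mk (.mk 668 0o76543210 0o76543210 0o543210) [.mk 1147 0o76351420 0o76425130 0o145320] [],
.mk (.mk 1032 0o76452310 0o76452310 0o453120) [.mk 1138 0o76543210 0o76543210 0o251403, .mk 902
0o76512403 0o76520341 0o31425]
[0x838b11e2100c82321003a8228d91060e0580500824049ac01166740c102051a140080541643c00996340001062934136344de8310c8074d01430c208028800164a00501f1242a44190d0000835ab03],
.mk (.mk 832 0o76543210 0o76543210 0o453210) [.mk 1084 0o76541203 0o76540231 0o142053, .mk 843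
0o76543210 0o76543210 0o543210] [],
.mk (.mk 695 0o76543210 0o76543210 0o543210) [.mk 869 0o76310425 0o76025143 0o23541, .mk 824
0o76453210 0o76453210 0o453210] [],
.mk (.mk 824 0o76203415 0o76023514 0o31524) [.mk 631 0o76305412 0o76325014 0o310254, .mk 1032
0o76542310 0o76542310 0o453120]
[0x304390c8058038809408401c100b1c51809008c6881a870050024e02009418198801820450408480420000038009c68029020828028090050011838039038860421408499440c088b1c080280010194d0000834d211],
.mk (.mk 778 0o76543210 0o76543210 0o543210) [.mk 1011 0o76402135 0o76051324 0o32145] [],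
.mk (.mk 696 0o76510423 0o76520143 0o302514) [.mk 887 0o76412305 0o76052341 0o34512] [],
.mk (.mk 581 0o76543210 0o76543210 0o543210) [.mk 1092 0o76542103 0o76540321 0o53241, .mk 937
0o76452301 0o76452301 0o235014] [],
.mk (.mk 660 0o76014532 0o76231045 0o310425) [.mk 1029 0o76254310 0o76432510 0o42315] [],
.mk (.mk 613 0o76543210 0o76543210 0o543210) [.mk 1025 0o76542310 0o76542310 0o254130, .mk 620
0o76534210 0o76534210 0o453210] [],
.mk (.mk 594 0o76543210 0o76543210 0o543210) [.mk 1158 0o76541320 0o76542130 0o351402, .mk 928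
0o76534210 0o76534210 0o453210] [],
.mk (.mk 594 0o76514230 0o76531240 0o201354) [.mk 909 0o76512430 0o76521340 0o102354, .mk 964
0o76543120 0o76543120 0o452310] [],
.mk (.mk 805 0o76543210 0o76543210 0o543210) [.mk 1138 0o76312045 0o76015342 0o203514, .mk 1034
0o76431502 0o76254031 0o152430] [],
.mk (.mk 857 0o76543210 0o76543210 0o543210) [.mk 1075 0o76512043 0o76510342 0o25341, .mk 924
0o76052431 0o76421305 0o413025] [],
.mk (.mk 1029 0o76432510 0o76254310 0o254301) [.mk 857 0o76305124 0o76305124 0o102543] [],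
.mk (.mk 884 0o76453210 0o76453210 0o453120) [.mk 1147 0o76534210 0o76534210 0o254310, .mk 1072
0o76451302 0o76452031 0o31425] []]

theorem v2600 : chkL Tab.T5 Tab.RT Tab.reps Tab.E2 Ker.cert7 D2600 2600 = true := by
  decide +kernel

end CR.C2
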