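import Pool.Agent.Lib.MP_6f5d36_co.Ker
import Pool.Agent.Lib.MP_6f5d36_co.RTab
import Pool.Agent.Lib.MP_6f5d36_co.C2.KerC
import Pool.Agent.Lib.MP_6f5d36_co.C2.ETab

/-! MP_6f5d36_co, case (ii), level 7 : the ranks 2700, ..., 2799 -/

set_option autoImplicit false
set_option maxRecDepth 100000

noncomputable section

namespace CR.C2

/-- the frames and certificates of the ranks 2700, ..., 2799 -/
def D2700 : List It :=
[.mk (.mk 1023 0o76132045 0o76014352 0o12435) [.mk 1095 0o76342510 0o76245310 0o254310]
[0xc029804a00219904e01160248f015090c00018502c120100b904e01c09010201e3b302d855428d624131a15504281920446170080d8200093c142d100580110dc00082cc90d,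
0x3c02c2080d00203c0216309c8148800b014200051c0214e088424c11a80025a8700a224008c408a408011452ae03c4600f30c052a10c4096014a29041c01480281c006104c205b08e0040b80154dc0008312a63],
.mk (.mk 668 0o76451230 0o76451230 0o451230) [.mk 992 0o76451230 0o76451230 0o145230] [],
.mk (.mk 572 0o76543210 0o76543210 0o453120) [.mk 1109 0o76534210 0o76534210 0o254310, .mk 1036
0o76340512 0o76245013 0o42135] [],
.mk (.mk 1036 0o76253401 0o76423501 0o240531) [.mk 864 0o76345210 0o76345210 0o453210, .mk 898
0o76543210 0o76543210 0o543210] [],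
.mk (.mk 982 0o76102435 0o76021354 0o21345) [.mk 1036 0o76214053 0o76130542 0o104352, .mk 984
0o76301524 0o76205134 0o203415] [],
.mk (.mk 815 0o76354210 0o76435210 0o453120) [.mk 1054 0o76413502 0o76253041 0o52431, .mk 1201
0o76543021 0o76543102 0o231540] [],
.mk (.mk 1106 0o76354021 0o76435102 0o150423) [.mk 1122 0o76542310 0o76542310 0o254310, .mk 936
0o76152034 0o76401352 0o15234] [],
.mk (.mk 861 0o76342501 0o76245301 0o251430) [.mk 1106 0o76354210 0o76435210 0o453210, .mk 796
0o76543210 0o76543210 0o543210] [],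
.mk (.mk 1066 0o76542310 0o76542310 0o254310) [.mk 1182 0o76534210 0o76534210 0o453210, .mk 931
0o76251043 0o76410532 0o15324] [],
.mk (.mk 667 0o76513420 0o76523140 0o345210) [.mk 639 0o76543210 0o76543210 0o543210, .mk 1126
0o76542310 0o76542310 0o254310] [],
.mk (.mk 697 0o76342510 0o76245310 0o254310) [.mk 1068 0o76420513 0o76250413 0o32154] [],
.mk (.mk 805 0o76452310 0o76452310 0o254310) [.mk 912 0o76542310 0o76542310 0o354210, .mk 935
0o76215034 0o76301542 0o105324] [],
.mk (.mk 1095 0o76435012 0o76354012 0o132405) [.mk 1084 0o76514023 0o76530142 0o230154, .mk 912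
0o76543210 0o76543210 0o543210] [],
.mk (.mk 704 0o76342510 0o76245310 0o254130) [.mk 931 0o76543210 0o76543210 0o543210, .mk 912
0o76502413 0o76520314 0o130254] [],
.mk (.mk 1073 0o76453012 0o76453012 0o142305) [.mk 910 0o76251034 0o76401532 0o204513, .mk 912
0o76543210 0o76543210 0o543210] [],
.mk (.mk 814 0o76543210 0o76543210 0o543210) [.mk 1164 0o76432501 0o76254301 0o54213, .mk 906
0o76453120 0o76453120 0o251403] [],
.mk (.mk 1018 0o76452031 0o76451302 0o251304) [.mk 1095 0o76024135 0o76031425 0o102345, .mk 911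
0o76543210 0o76543210 0o543210]
[0x1100781a81d00281d01580300884084988c94982301ca8008288a80090c20084e28688310004000181824680100080a806087a04a8710b0038c580380b1062431c3c87b0bac104418208080194c8000832d0d4],
.mk (.mk 855 0o76534210 0o76534210 0o452301) [.mk 1095 0o76231504 0o76204531 0o34251, .mk 1034
0o76534102 0o76534021 0o152430] [],
.mk (.mk 1055 0o76524301 0o76532401 0o152304) [.mk 941 0o76540213 0o76540213 0o203514, .mk 1185
0o76435120 0o76354120 0o453120] [],
.mk (.mk 773 0o76352410 0o76425310 0o254130) [.mk 931 0o76543210 0o76543210 0o543210] [],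
.mk (.mk 685 0o76321504 0o76205431 0o205341) [.mk 912 0o76201453 0o76120534 0o130254, .mk 945
0o76543210 0o76543210 0o543210] [],
.mk (.mk 845 0o76543210 0o76543210 0o543210) [.mk 1092 0o76342510 0o76245310 0o254130, .mk 1118
0o76203154 0o76103524 0o103452] [],
.mk (.mk 914 0o76432510 0o76254310 0o251403) [.mk 949 0o76123540 0o76213450 0o345012, .mk 935
0o76435210 0o76354210 0o453210] [],
.mk (.mk 899 0o76543210 0o76543210 0o543210) [.mk 1178 0o76430512 0o76254013 0o132540, .mk 935
0o76214503 0o76230541 0o203541] [],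
.mk (.mk 845 0o76240513 0o76240513 0o201534) [.mk 852 0o76520143 0o76510423 0o102435, .mk 845
0o76543210 0o76543210 0o543210] [],
.mk (.mk 1022 0o76215043 0o76310542 0o15432) [.mk 816 0o76152340 0o76412350 0o345120, .mk 1114
0o76432510 0o76254310 0o254310] [],
.mk (.mk 979 0o76213405 0o76023541 0o34512) [.mk 875 0o76534210 0o76534210 0o251403, .mk 894
0o76542310 0o76542310 0o453120] [],
.mk (.mk 1068 0o76543120 0o76543120 0o154320) [.mk 1111 0o76543210 0o76543210 0o254310] [],
.mk (.mk 1108 0o76542310 0o76542310 0o254310) [.mk 940 0o76543120 0o76543120 0o453120, .mk 940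
0o76251043 0o76410532 0o105423] [],
.mk (.mk 1018 0o76352104 0o76405321 0o205341) [.mk 1067 0o76215034 0o76301542 0o15243]
[0x3c0000080e1160300284f30a588c598a0160402088a4002212684d400908611042ac52ce304f00a120001050086080200a008414e204c11e350235c21401100e81208000ccd80408211c0b80154dc0008312ae1],
.mk (.mk 1018 0o76534120 0o76534120 0o154230) [.mk 898 0o76543210 0o76543210 0o543210, .mk 622
0o76543210 0o76543210 0o453210] [],
.mk (.mk 622 0o76514023 0o76530142 0o105342) [.mk 1121 0o76543210 0o76543210 0o254130, .mk 950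
0o76435120 0o76354120 0o453120] [],
.mk (.mk 708 0o76305412 0o76325014 0o130524) [.mk 949 0o76143520 0o76243150 0o345210]
[0x4041104060ad1008c282a1811122148524414283a420c94c660541505043832030545524454800038020080c35842030060204114a4000829c30a],
.mk (.mk 622 0o76543210 0o76543210 0o543210) [.mk 1076 0o76542310 0o76542310 0o254130, .mk 1122
0o76042315 0o76042315 0o102345] [],
.mk (.mk 828 0o76253014 0o76403512 0o23514) [.mk 1180 0o76534210 0o76534210 0o453210, .mk 1129
0o76350124 0o76405123 0o103542] [],
.mk (.mk 855 0o76352410 0o76425310 0o251403) [.mk 622 0o76354210 0o76435210 0o453210, .mk 891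
0o76543210 0o76543210 0o543210] [],
.mk (.mk 988 0o76153024 0o76403152 0o123540) [.mk 1082 0o76543210 0o76543210 0o543210] [],
.mk (.mk 1140 0o76521304 0o76502431 0o205341) [.mk 949 0o76502143 0o76510324 0o13425, .mk 1185
0o76345120 0o76345120 0o453120] [],
.mk (.mk 685 0o76021543 0o76210435 0o210354) [.mk 1140 0o76450312 0o76452013 0o42315, .mk 802
0o76534120 0o76534120 0o453120] [],
.mk (.mk 727 0o76543210 0o76543210 0o543210) [.mk 1158 0o76514023 0o76530142 0o51243, .mk 912
0o76540231 0o76541203 0o213540] [],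
.mk (.mk 1011 0o76312045 0o76015342 0o105243) [.mk 912 0o76520134 0o76501423 0o203154, .mk 936
0o76543210 0o76543210 0o543210] [],
.mk (.mk 993 0o76321054 0o76105432 0o105342) [.mk 912 0o76201534 0o76201534 0o203154, .mk 958
0o76543210 0o76543210 0o543210] [],
.mk (.mk 739 0o76543210 0o76543210 0o453210) [.mk 1151 0o76543210 0o76543210 0o543210, .mk 938
0o76513204 0o76503241 0o304152] [],
.mk (.mk 739 0o76453210 0o76453210 0o453210) [.mk 902 0o76432510 0o76254310 0o351402] [],
.mk (.mk 601 0o76534210 0o76534210 0o452310) [.mk 1155 0o76452310 0o76452310 0o351402, .mk 1057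
0o76514203 0o76530241 0o43512] [],
.mk (.mk 994 0o76253104 0o76403521 0o45321) [.mk 908 0o76543210 0o76543210 0o543210, .mk 1064
0o76435210 0o76354210 0o453210] [],
.mk (.mk 660 0o76543210 0o76543210 0o543210) [.mk 1120 0o76435012 0o76354012 0o125304] [],
.mk (.mk 1038 0o76450321 0o76452103 0o42315) [.mk 843 0o76543210 0o76543210 0o543210, .mk 922
0o76534210 0o76534210 0o453210] [],
.mk (.mk 1042 0o76543120 0o76543120 0o452310) [.mk 1107 0o76102543 0o76210354 0o13254] [],
.mk (.mk 1010 0o76134205 0o76034251 0o34251) [.mk 1086 0o76453021 0o76453102 0o250431] [],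
.mk (.mk 1011 0o76423510 0o76253410 0o354120) [.mk 857 0o76415023 0o76350142 0o105243] [],
.mk (.mk 730 0o76352401 0o76425301 0o245013) [.mk 1093 0o76315042 0o76315042 0o13425, .mk 632
0o76542301 0o76542301 0o425013] [],
.mk (.mk 605 0o76532410 0o76524310 0o125043) [.mk 1072 0o76240315 0o76042513 0o41352] [],
.mk (.mk 774 0o76532140 0o76514320 0o21453) [.mk 1085 0o76154320 0o76432150 0o124503, .mk 873
0o76451320 0o76452130 0o451320] [],
.mk (.mk 873 0o76453120 0o76453120 0o452310) [.mk 1037 0o76325410 0o76325410 0o354210, .mk 964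
0o76543210 0o76543210 0o543210] [],
.mk (.mk 805 0o76543210 0o76543210 0o543210) [.mk 994 0o76512304 0o76502341 0o214503, .mk 1158
0o76512304 0o76502341 0o124503] [],
.mk (.mk 1060 0o76324051 0o76135402 0o235014) [.mk 888 0o76325041 0o76315402 0o325014, .mk 954
0o76543210 0o76543210 0o543210] [],
.mk (.mk 1034 0o76435210 0o76354210 0o354210) [.mk 1168 0o76042315 0o76042315 0o203145, .mk 888
0o76042315 0o76042315 0o23145] [],
.mk (.mk 1074 0o76214503 0o76230541 0o35412) [.mk 897 0o76425013 0o76350412 0o251034, .mk 888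
0o76543210 0o76543210 0o543210] [],
.mk (.mk 766 0o76354210 0o76435210 0o453210) [.mk 1138 0o76534120 0o76534120 0o253401] [],
.mk (.mk 784 0o76534210 0o76534210 0o452310) [.mk 1187 0o76312405 0o76025341 0o24513, .mk 1155
0o76523140 0o76513420 0o154320] [],
.mk (.mk 775 0o76435102 0o76354021 0o251403) [.mk 1038 0o76314502 0o76235041 0o35142] [],
.mk (.mk 708 0o76312405 0o76025341 0o34512) [.mk 888 0o76543210 0o76543210 0o453210] [],
.mk (.mk 1093 0o76102543 0o76210354 0o21354) [.mk 1114 0o76312504 0o76205341 0o125340, .mk 626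
0o76532410 0o76524310 0o354120] [],
.mk (.mk 685 0o76524130 0o76531420 0o253041) [.mk 970 0o76351042 0o76415032 0o312504, .mk 862
0o76543210 0o76543210 0o543210] [],
.mk (.mk 807 0o76512304 0o76502341 0o124053) [.mk 833 0o76401325 0o76052134 0o15234, .mk 850
0o76543210 0o76543210 0o543210] [],
.mk (.mk 761 0o76315042 0o76315042 0o204531) [.mk 961 0o76543210 0o76543210 0o543210, .mk 1123
0o76315042 0o76315042 0o24531] [],
.mk (.mk 779 0o76451023 0o76450132 0o51234) [.mk 1031 0o76541230 0o76541230 0o451230] [],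
.mk (.mk 659 0o76543210 0o76543210 0o543210) [.mk 1054 0o76423015 0o76053412 0o54213] [],
.mk (.mk 627 0o76543210 0o76543210 0o543210) [.mk 1064 0o76435210 0o76354210 0o453210, .mk 882
0o76520341 0o76512403 0o125034] [],
.mk (.mk 821 0o76543210 0o76543210 0o543210) [.mk 812 0o76452310 0o76452310 0o354210, .mk 627
0o76543210 0o76543210 0o452310] [],
.mk (.mk 1004 0o76534021 0o76534102 0o250413) [.mk 812 0o76423510 0o76253410 0o354210] [],
.mk (.mk 812 0o76534210 0o76534210 0o251403) [.mk 1037 0o76541023 0o76540132 0o42153, .mk 854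
0o76542310 0o76542310 0o453120] [],
.mk (.mk 712 0o76435210 0o76354210 0o453210) [.mk 733 0o76504312 0o76532014 0o142305, .mk 1158
0o76403521 0o76253104 0o210453] [],
.mk (.mk 781 0o76543210 0o76543210 0o543210) [.mk 1054 0o76125304 0o76302451 0o102534, .mk 1051
0o76421503 0o76250431 0o52143] [],
.mk (.mk 1025 0o76345210 0o76345210 0o453210) [.mk 961 0o76410532 0o76251043 0o201345, .mk 1084
0o76452310 0o76452310 0o354210] [],
.mk (.mk 861 0o76452310 0o76452310 0o354120) [.mk 908 0o76543210 0o76543210 0o543210, .mk 1110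
0o76340521 0o76245103 0o32514, .mk 961 0o76532410 0o76524310 0o254310]
[0x1c010000615482d040560001c680e8180100180208d680c85707040644910c4e11d47011130dd413559100c83100d00058151807b05100200e1701f12cc0208c92004150d4000832b054,
0x815094140305b0080600141744452050062806351c50040020d8e01404310c531041404cb21341114c050161a6d812101354a4434007608038100e00844900c5010c150d4000832b854,
0x1281700500001380098002284205184504c8428878458c68c08400841800ca81a01181502481000480b00a80014100881700380100608084284681c1c2943a820843161c00c8000887084900bc958d1c20c210390194e0000836ba54],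
.mk (.mk 665 0o76453210 0o76453210 0o453210) [.mk 938 0o76253014 0o76403512 0o123450, .mk 1147
0o76054123 0o76430125 0o240135] [],
.mk (.mk 1004 0o76213504 0o76203541 0o305412) [.mk 786 0o76351402 0o76425031 0o105234, .mk 1129
0o76241503 0o76240531 0o15324] [],
.mk (.mk 659 0o76342510 0o76245310 0o254310) [.mk 845 0o76543210 0o76543210 0o543210, .mk 1167
0o76301452 0o76125034 0o31254] [],
.mk (.mk 719 0o76510342 0o76512043 0o213450) [.mk 936 0o76342051 0o76145302 0o150423] [],
.mk (.mk 1059 0o76421503 0o76250431 0o32145) [.mk 947 0o76342510 0o76245310 0o254310, .mk 1073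
0o76412503 0o76250341 0o132054] [],
.mk (.mk 1093 0o76543120 0o76543120 0o154320) [.mk 1183 0o76453210 0o76453210 0o254310, .mk 1119
0o76543120 0o76543120 0o53412, .mk 945 0o76534210 0o76534210 0o354102] [],
.mk (.mk 697 0o76430512 0o76254013 0o230514) [.mk 1099 0o76510432 0o76521043 0o130425] [],
.mk (.mk 805 0o76352410 0o76425310 0o245310) [.mk 846 0o76345021 0o76345102 0o150423, .mk 1173
0o76542310 0o76542310 0o354210] [],
.mk (.mk 1104 0o76342510 0o76245310 0o254310) [.mk 1122 0o76413502 0o76253041 0o132504, .mk 950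
0o76534210 0o76534210 0o453210]
[0x840886881b00e21c4086d48c1b4189bd836e03c2b043020581e064030c045628430262c0880005a21c8209a90c80d0728913009cc1919a115245029de498b04380650623c8190c80008309a63],
.mk (.mk 1013 0o76410253 0o76150243 0o32154) [.mk 1053 0o76410253 0o76150243 0o230154, .mk 936
0o76543210 0o76543210 0o543210] [],
.mk (.mk 719 0o76452310 0o76452310 0o254310) [.mk 936 0o76432051 0o76154302 0o150423] [],
.mk (.mk 742 0o76235014 0o76304512 0o124305) [.mk 1175 0o76215034 0o76301542 0o14523, .mk 937
0o76254013 0o76430512 0o214305] [],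
.mk (.mk 1055 0o76042135 0o76041325 0o210345) [.mk 1098 0o76023145 0o76013425 0o102435, .mk 1086
0o76024135 0o76031425 0o12435]
[0x102481505c0640b01100e20962181104454608940120200384d08a3002414238040820058202520028c129641da60c511031c2200109040d2681002300de20040920688a0163141042600154d8000832d0d4],
.mk (.mk 684 0o76452310 0o76452310 0o245130) [.mk 931 0o76543210 0o76543210 0o453210, .mk 1173
0o76542310 0o76542310 0o354210] [],
.mk (.mk 1021 0o76425013 0o76350412 0o152034) [.mk 1095 0o76402153 0o76150324 0o231045, .mk 936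
0o76543210 0o76543210 0o543210] [],
.mk (.mk 756 0o76543210 0o76543210 0o543210) [.mk 1021 0o76351240 0o76415230 0o143502] [],
.mk (.mk 866 0o76543210 0o76543210 0o543210) [.mk 1051 0o76352401 0o76425301 0o245103, .mk 1197
0o76504123 0o76530124 0o13542] [],
.mk (.mk 864 0o76534210 0o76534210 0o453210) [.mk 841 0o76324510 0o76235410 0o215403, .mk 1051
0o76325410 0o76325410 0o125403] [],
.mk (.mk 1031 0o76124035 0o76031452 0o210354) [.mk 1072 0o76421053 0o76150432 0o32145, .mk 936
0o76543210 0o76543210 0o543210] [],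
.mk (.mk 981 0o76542130 0o76541320 0o452130) [.mk 1156 0o76524310 0o76532410 0o352401, .mk 1050
0o76431052 0o76154032 0o21543] [],
.mk (.mk 724 0o76452031 0o76451302 0o240513) [.mk 972 0o76543210 0o76543210 0o543210, .mk 1122
0o76354021 0o76435102 0o24513, .mk 968 0o76423510 0o76253410 0o354210]
[0x84430080128c2388103008e00a107088c33088029040601e020523300e570c0d020a329c00300c02b12134c0d10c2330cc0201e6010a450022088c1204114c4000829131c],
.mk (.mk 657 0o76452130 0o76451320 0o452130) [.mk 1110 0o76043215 0o76043215 0o43215] [],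
.mk (.mk 1026 0o76340251 0o76145203 0o140523) [.mk 786 0o76253140 0o76413520 0o245310] []]

theorem v2700 : chkL Tab.T5 Tab.RT Tab.reps Tab.E2 Ker.cert7 D2700 2700 = true := by
  decide +kernel

end CR.C2
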