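import Pool.Agent.Lib.MP_6f5d36_co.Ker
import Pool.Agent.Lib.MP_6f5d36_co.RTab
import Pool.Agent.Lib.MP_6f5d36_co.C2.KerC
import Pool.Agent.Lib.MP_6f5d36_co.C2.ETab

/-! MP_6f5d36_co, case (ii), level 7 : the ranks 2800, ..., 2899 -/

set_option autoImplicit false
set_option maxRecDepth 100000

noncomputable section

namespace CR.C2

/-- the frames and certificates of the ranks 2800, ..., 2899 -/
def D2800 : List It :=
[.mk (.mk 687 0o76145032 0o76341052 0o312450) [.mk 786 0o76405132 0o76351024 0o250314] [],
.mk (.mk 779 0o76534210 0o76534210 0o453210) [.mk 795 0o76402531 0o76251304 0o234015] [],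
.mk (.mk 738 0o76350421 0o76425103 0o243105) [.mk 755 0o76543210 0o76543210 0o453210] [],
.mk (.mk 846 0o76125043 0o76310452 0o105243) [.mk 1122 0o76542310 0o76542310 0o254310, .mk 1169
0o76534120 0o76534120 0o453120] [],
.mk (.mk 712 0o76042513 0o76240315 0o201453) [.mk 1045 0o76042315 0o76042315 0o21453]
[0xe01188d01402c41b0a31033c4021310210404002004044292c000cb3087c450180648080400e5200485810001021182000007158cd214229568d4080148ac0c609008c4100154c800082c9463],
.mk (.mk 1021 0o76542310 0o76542310 0o254310) [.mk 936 0o76452031 0o76451302 0o150423, .mk 836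
0o76543120 0o76543120 0o453120] [],
.mk (.mk 847 0o76502314 0o76502314 0o13254) [.mk 883 0o76421503 0o76250431 0o205413] [],
.mk (.mk 1018 0o76325140 0o76315420 0o145320) [.mk 931 0o76543210 0o76543210 0o543210, .mk 941
0o76240513 0o76240513 0o203514] [],
.mk (.mk 801 0o76512340 0o76512340 0o435102) [.mk 1110 0o76542310 0o76542310 0o254310, .mk 1201
0o76452031 0o76451302 0o51342] [],
.mk (.mk 1020 0o76543210 0o76543210 0o254130) [.mk 1169 0o76251043 0o76410532 0o105432, .mk 927
0o76152043 0o76410352 0o15342] [],
.mk (.mk 852 0o76504132 0o76531024 0o13542) [.mk 1148 0o76354210 0o76435210 0o453210, .mk 936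
0o76403152 0o76153024 0o103542, .mk 950 0o76543210 0o76543210 0o543210] [],
.mk (.mk 977 0o76052341 0o76412305 0o143205) [.mk 868 0o76412503 0o76250341 0o203514] [],
.mk (.mk 755 0o76543210 0o76543210 0o543210) [.mk 764 0o76430521 0o76254103 0o253104, .mk 941
0o76501432 0o76521034 0o31254] [],
.mk (.mk 1136 0o76240513 0o76240513 0o203451) [.mk 1136 0o76534210 0o76534210 0o453210, .mk 1198
0o76214305 0o76032541 0o124503, .mk 975 0o76431250 0o76154230 0o354201] [],
.mk (.mk 1028 0o76240513 0o76240513 0o23451) [.mk 1177 0o76543210 0o76543210 0o543210] [],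
.mk (.mk 811 0o76425031 0o76351402 0o51342) [.mk 903 0o76532401 0o76524301 0o254103, .mk 811
0o76452031 0o76451302 0o150342] [],
.mk (.mk 659 0o76354201 0o76435201 0o251430) [.mk 1130 0o76453012 0o76453012 0o142305, .mk 1082
0o76432051 0o76154302 0o52431] [],
.mk (.mk 784 0o76543210 0o76543210 0o543210) [.mk 1125 0o76534210 0o76534210 0o453210] [],
.mk (.mk 779 0o76543210 0o76543210 0o453210) [.mk 879 0o76453210 0o76453210 0o354120] [],
.mk (.mk 998 0o76523401 0o76523401 0o254103) [.mk 879 0o76534210 0o76534210 0o453210] [],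
.mk (.mk 977 0o76543102 0o76543021 0o251430) [.mk 874 0o76543210 0o76543210 0o543210] [],
.mk (.mk 993 0o76450312 0o76452013 0o132405) [.mk 843 0o76543210 0o76543210 0o543210] [],
.mk (.mk 669 0o76543210 0o76543210 0o543210) [.mk 722 0o76542103 0o76540321 0o230154] [],
.mk (.mk 723 0o76542130 0o76541320 0o31254) [.mk 757 0o76542310 0o76542310 0o305214, .mk 723
0o76542130 0o76541320 0o452130] [],
.mk (.mk 1102 0o76205143 0o76310524 0o12453) [.mk 908 0o76543210 0o76543210 0o543210, .mk 888
0o76305142 0o76315024 0o102543]
[0x620c000344411982314819344e0b5c5a240500a002014166005c2d820690114a090480825451d64c801184240862380246401518010e21c018912011029401000820180150d8000832b054,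
0x211c4e2004620a8b95499e2c82004442008420c671004f0208b164de0750d38806215e6000d5141025088f0440323e9d18448749c1039572746c00494405109281823c633300150e0000832b654,
0xc0040b01c122284230dc0b14440b4c0d080b100825000d538d645145114421845374996318423501243f57b6811120033019b2140205046188077000612811a3d120100150d8000832b854,
0x201062021034038c0984282015c100f21436c2e809044328800c600a1311604d1861008081b00c650400cc422140508653b8544200020383086a2360002002e8050042806424a81a0c00104154dc000832ba54],
.mk (.mk 1031 0o76542130 0o76541320 0o452130) [.mk 1145 0o76102453 0o76120354 0o13524, .mk 1042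
0o76543210 0o76543210 0o543210]
[0x8a1d0184700a04c06180080800632c80803300d84201e2182400518202c618000801c1c08051160444010719c00262801af4204c608142801c618c708a0000485d00236c0004154cc00083222e5,
0x1000620384000480208684700580780b841819483a401090c89052020050c3046854851840a418430488041448d3881801000902841940882100805800901940185a4b8c50440008200500430008e144080788194dc00083652e5],
.mk (.mk 857 0o76543210 0o76543210 0o543210) [.mk 1122 0o76041235 0o76041235 0o301245, .mk 888
0o76041235 0o76041235 0o31245] [],
.mk (.mk 1060 0o76401253 0o76150234 0o230145) [.mk 1079 0o76203154 0o76103524 0o13524, .mk 1090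
0o76205143 0o76310524 0o105324] [],
.mk (.mk 776 0o76425130 0o76351420 0o143502) [.mk 888 0o76530412 0o76524013 0o302451] [],
.mk (.mk 830 0o76543210 0o76543210 0o543210) [.mk 1183 0o76451023 0o76450132 0o42513, .mk 1026
0o76352041 0o76415302 0o142305] [],
.mk (.mk 557 0o76534210 0o76534210 0o453210) [.mk 1137 0o76523401 0o76523401 0o245103] [],
.mk (.mk 802 0o76543210 0o76543210 0o453210) [.mk 1022 0o76543120 0o76543120 0o154320, .mk 1121
0o76543120 0o76543120 0o53412]
[0x21337014880613005c4ab8038a8c62618009ee0571008e25e882c024026998c02180818580b13ecc042e1121c062510814827231820e686336404110d000082eb642],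
.mk (.mk 776 0o76543210 0o76543210 0o543210) [.mk 751 0o76053241 0o76413205 0o314205, .mk 1102
0o76042351 0o76142305 0o134025] [],
.mk (.mk 840 0o76543210 0o76543210 0o543210) [.mk 1079 0o76435210 0o76354210 0o452310, .mk 1114
0o76432105 0o76054321 0o54321] [],
.mk (.mk 872 0o76435120 0o76354120 0o453120) [.mk 1165 0o76205341 0o76312504 0o143205, .mk 905
0o76543210 0o76543210 0o543210] [],
.mk (.mk 805 0o76534210 0o76534210 0o245130) [.mk 898 0o76435210 0o76354210 0o453210, .mk 872
0o76125043 0o76310452 0o105423] [],
.mk (.mk 788 0o76342150 0o76145320 0o154320) [.mk 1079 0o76543210 0o76543210 0o543210, .mk 1056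
0o76453210 0o76453210 0o452310] [],
.mk (.mk 1064 0o76453210 0o76453210 0o452310) [.mk 1079 0o76543210 0o76543210 0o543210, .mk 1158
0o76342150 0o76145320 0o154320] [],
.mk (.mk 774 0o76543210 0o76543210 0o543210) [.mk 1014 0o76042531 0o76241305 0o32145] [],
.mk (.mk 774 0o76341520 0o76245130 0o324501) [.mk 1037 0o76341502 0o76245031 0o231504, .mk 1037
0o76453210 0o76453210 0o453210] [],
.mk (.mk 795 0o76543210 0o76543210 0o543210) [.mk 1015 0o76510342 0o76512043 0o105432, .mk 857
0o76451302 0o76452031 0o305421] [],
.mk (.mk 815 0o76543210 0o76543210 0o543210) [.mk 1015 0o76412053 0o76150342 0o231054, .mk 1095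
0o76421053 0o76150432 0o32145]
[0x1424082891036690000031146140e8c2214008218001021106300f10c6500ba420aa100001d108c2046190c102a0aa290101030cc0c4113060c6324020e13c2288154bc00082d4b11],
.mk (.mk 815 0o76452310 0o76452310 0o453120) [.mk 910 0o76524013 0o76530412 0o102453, .mk 911
0o76543210 0o76543210 0o543210] [],
.mk (.mk 1001 0o76342051 0o76145302 0o235014) [.mk 826 0o76543210 0o76543210 0o543210, .mk 911
0o76254310 0o76432510 0o453210] [],
.mk (.mk 815 0o76543210 0o76543210 0o543210) [.mk 944 0o76421350 0o76152430 0o354021, .mk 786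
0o76350241 0o76415203 0o230541] [],
.mk (.mk 774 0o76354201 0o76435201 0o251430) [.mk 1072 0o76532401 0o76524301 0o152430, .mk 1117
0o76532041 0o76514302 0o52431] [],
.mk (.mk 815 0o76352410 0o76425310 0o453210) [.mk 1142 0o76053214 0o76403215 0o24135, .mk 911
0o76543210 0o76543210 0o543210] [],
.mk (.mk 846 0o76401352 0o76152034 0o130245) [.mk 1178 0o76410352 0o76152043 0o231450, .mk 851
0o76543210 0o76543210 0o453210] [],
.mk (.mk 684 0o76543210 0o76543210 0o543210) [.mk 1098 0o76435210 0o76354210 0o453210, .mk 810
0o76513402 0o76523041 0o125340] [],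
.mk (.mk 797 0o76354210 0o76435210 0o453210) [.mk 1114 0o76142503 0o76240351 0o31254] [],
.mk (.mk 686 0o76425301 0o76352401 0o152340) [.mk 797 0o76345210 0o76345210 0o453201] [],
.mk (.mk 756 0o76310524 0o76205143 0o210354) [.mk 1091 0o76310524 0o76205143 0o123054, .mk 1082
0o76210435 0o76021543 0o21354] [],
.mk (.mk 876 0o76543210 0o76543210 0o543210) [.mk 1112 0o76435210 0o76354210 0o452310, .mk 910
0o76241305 0o76042531 0o35142] [],
.mk (.mk 691 0o76534210 0o76534210 0o453210) [.mk 1203 0o76423150 0o76153420 0o145320] [],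
.mk (.mk 839 0o76543210 0o76543210 0o543210) [.mk 1075 0o76052431 0o76421305 0o243105]
[0x1881043005841943901885004802a96b4088e0a791614008000980789088014602515530494504688880400940e85b8959468850c205c0031811830080050cc80100580c00180500280194c40008300ae2,
0x3305816240562043310051204d11648010430048b2711f34c1d119c125824506823140c5905e088991154c1881200048812d30605503d4b02c1470607016010b1a4058060000150e00008309ad4],
.mk (.mk 1047 0o76245013 0o76340512 0o132045) [.mk 792 0o76543210 0o76543210 0o543210, .mk 785
0o76453210 0o76453210 0o354210] [],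
.mk (.mk 1022 0o76102354 0o76102354 0o12453) [.mk 792 0o76543210 0o76543210 0o543210, .mk 1037
0o76301452 0o76125034 0o140235] [],
.mk (.mk 716 0o76435021 0o76354102 0o250431) [.mk 967 0o76543210 0o76543210 0o543210, .mk 933
0o76435210 0o76354210 0o354210] [],
.mk (.mk 987 0o76035142 0o76314025 0o24315) [.mk 877 0o76543210 0o76543210 0o543210, .mk 717
0o76035142 0o76314025 0o240315]
[0x14828c8036008e298305007184bc3102460288860da454238480380382000500e6402183609ab24200ca08a038ea0290a4380128868822682400f168034050110040a00784154c800082c8b03,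
0x2800408ae0124a02882b488210000012840288c11004220562a9551188410302500c00a9c233282300421189c4104444206e1008178688a08114b4000829076c],
.mk (.mk 1014 0o76035241 0o76314205 0o23415) [.mk 1051 0o76541230 0o76541230 0o451230, .mk 1129
0o76314520 0o76235140 0o124503] [],
.mk (.mk 841 0o76543210 0o76543210 0o543210) [.mk 1092 0o76241530 0o76241530 0o145230, .mk 1108
0o76345120 0o76345120 0o23541] [],
.mk (.mk 813 0o76402513 0o76250314 0o103452) [.mk 954 0o76415032 0o76351042 0o204531, .mk 861
0o76503214 0o76503214 0o31542]
[0x20ae10128710460301612382108dc018d18284801014128861000091a86012400021010004409400a90c212063028250880370085a0463a90114b4000828046b],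
.mk (.mk 987 0o76432510 0o76254310 0o254301) [.mk 1138 0o76523041 0o76513402 0o104253, .mk 861
0o76354210 0o76435210 0o453210]
[0x50280b020021044131cc021402a2800008047080652d0297b034814d02d120702835c06200001060e10d43425020041120d83022ce5088a8280144c0e21e52318c150d0000831d70b],
.mk (.mk 859 0o76240513 0o76240513 0o305124) [.mk 932 0o76514203 0o76530241 0o125340, .mk 1139
0o76345210 0o76345210 0o452301] [],
.mk (.mk 845 0o76354210 0o76435210 0o453210) [.mk 1108 0o76052314 0o76402315 0o24315, .mk 898
0o76543210 0o76543210 0o543210] [],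
.mk (.mk 731 0o76541302 0o76542031 0o231054) [.mk 1110 0o76315024 0o76305142 0o105243, .mk 898
0o76543210 0o76543210 0o543210] [],
.mk (.mk 554 0o76543210 0o76543210 0o543210) [.mk 1094 0o76523140 0o76513420 0o235401, .mk 941
0o76450231 0o76451203 0o31524] [],
.mk (.mk 714 0o76541203 0o76540231 0o204351) [.mk 1106 0o76453021 0o76453102 0o150423] [],
.mk (.mk 716 0o76421503 0o76250431 0o204531) [.mk 941 0o76501234 0o76501234 0o13254, .mk 1181
0o76401235 0o76051234 0o103254] [],
.mk (.mk 790 0o76354210 0o76435210 0o453210) [.mk 845 0o76543210 0o76543210 0o543210, .mk 1048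
0o76520413 0o76520413 0o52314] [],
.mk (.mk 856 0o76430512 0o76254013 0o250314) [.mk 1147 0o76320514 0o76205413 0o25314, .mk 845
0o76543210 0o76543210 0o543210] [],
.mk (.mk 856 0o76452301 0o76452301 0o231540) [.mk 944 0o76542310 0o76542310 0o354210, .mk 885
0o76435021 0o76354102 0o150432] [],
.mk (.mk 866 0o76301452 0o76125034 0o130254) [.mk 947 0o76321504 0o76205431 0o205341, .mk 945
0o76543210 0o76543210 0o543210] [],
.mk (.mk 805 0o76401532 0o76251034 0o231405) [.mk 1121 0o76540312 0o76542013 0o42315, .mk 802
0o76534120 0o76534120 0o453120] [],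
.mk (.mk 874 0o76253410 0o76423510 0o245130) [.mk 1053 0o76543120 0o76543120 0o154320]
[0x801c420041812013004453009722c8e00c990400514d80200512020a219541c406810228144040906448451174432c82e1a0654c443249413c8792840a734150c800082e3642],
.mk (.mk 666 0o76420513 0o76250413 0o230145) [.mk 1140 0o76430512 0o76254013 0o32415, .mk 1110
0o76410532 0o76251043 0o132504] [],
.mk (.mk 665 0o76452310 0o76452310 0o254130) [.mk 1105 0o76041523 0o76240135 0o120345] [],
.mk (.mk 801 0o76432501 0o76254301 0o230514) [.mk 881 0o76543210 0o76543210 0o543210, .mk 1108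
0o76421503 0o76250431 0o132054] [],
.mk (.mk 801 0o76215430 0o76321540 0o435201) [.mk 895 0o76504321 0o76532104 0o241305, .mk 827
0o76435021 0o76354102 0o150423] [],
.mk (.mk 699 0o76543210 0o76543210 0o453102) [.mk 962 0o76503214 0o76503214 0o120543] [],
.mk (.mk 980 0o76531024 0o76504132 0o203514) [.mk 727 0o76543210 0o76543210 0o543210] [],
.mk (.mk 1013 0o76542310 0o76542310 0o254310) [.mk 936 0o76512340 0o76512340 0o345021, .mk 1201
0o76321054 0o76105432 0o15324] [],
.mk (.mk 596 0o76543210 0o76543210 0o543210) [.mk 1163 0o76532410 0o76524310 0o254310, .mk 936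
0o76453021 0o76453102 0o140532] [],
.mk (.mk 580 0o76543210 0o76543210 0o543210) [.mk 1006 0o76352140 0o76415320 0o23541, .mk 1095
0o76231540 0o76214530 0o145230] [],
.mk (.mk 1015 0o76352140 0o76415320 0o143502) [.mk 904 0o76543210 0o76543210 0o543210, .mk 1109
0o76014352 0o76132045 0o21345] [],
.mk (.mk 1012 0o76452310 0o76452310 0o453120) [.mk 1157 0o76342510 0o76245310 0o354210, .mk 904
0o76543210 0o76543210 0o543210] [],
.mk (.mk 779 0o76543210 0o76543210 0o543210) [.mk 1083 0o76401235 0o76051234 0o32145] [],
.mk (.mk 979 0o76531420 0o76524130 0o154320) [.mk 1000 0o76241035 0o76041532 0o41235, .mk 752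
0o76435120 0o76354120 0o254310] [],
.mk (.mk 792 0o76543210 0o76543210 0o325401) [.mk 792 0o76543210 0o76543210 0o543210, .mk 868
0o76510243 0o76510243 0o14253, .mk 868 0o76510243 0o76510243 0o102435]
[0x405808009d651a0c0000230100240c011018008003018020a00138824284620a42119d602908940823170e6080222045310700b04c228440480c068002000114c800082914a5,
0x4c080ce288d04a088128e008888c3084460410c301e00c449830900506000e10a0004491a004068210022b6038420d32822134280714c214628d311453ca2100088444221042c40400200154d8000831246c],
.mk (.mk 793 0o76451320 0o76452130 0o451320) [.mk 861 0o76530412 0o76524013 0o120354] [],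
.mk (.mk 862 0o76351204 0o76405231 0o43512) [.mk 1070 0o76345201 0o76345201 0o253104, .mk 1123
0o76541320 0o76542130 0o154230] [],
.mk (.mk 843 0o76342105 0o76045321 0o34251) [.mk 877 0o76543210 0o76543210 0o543210, .mk 1097
0o76543210 0o76543210 0o453210]
[0x604388289005b98080180084314484609c8008d00c580b84680d0c88808a704400304e8440c026008a05a84200e14780788084501b08688ed4b1928c80830060118008d88ce860100b0791b048aca08520c10588200194e4000834a765],
.mk (.mk 1071 0o76052314 0o76402315 0o124035) [.mk 897 0o76120435 0o76021453 0o14532, .mk 1105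
0o76042315 0o76042315 0o214035] [],
.mk (.mk 1042 0o76543210 0o76543210 0o543210) [.mk 862 0o76421305 0o76052431 0o43152, .mk 862
0o76124503 0o76230451 0o123054, .mk 1097 0o76452310 0o76452310 0o453120]
[0x84209e112218cc80b60860d50102204c280928130220ec7c90c1a01d0180c26642444410017401418996200304e0e201e6600c08f3216408530c05204c44f4243620c8190c4000830b564],
.mk (.mk 584 0o76543210 0o76543210 0o543210) [.mk 993 0o76450132 0o76451023 0o51234] [],
.mk (.mk 902 0o76543210 0o76543210 0o452301) [.mk 1134 0o76514302 0o76532041 0o152430, .mk 1134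
0o76514302 0o76532041 0o43521]
[0x488700e01d037831264188130b11400842005426cd103339404c05448920267d84a081200e8d0500302a82c026132bf86159aa200b210c0119018c1c8b42000e0000190c0000830202b,
0x38010038498030019c280128280c0430018472c20010443c12121021808c08808038068e0d008408c78028040428511868e61c21010401000c18120068840001419c948000d80b00194c0000831001d,
0xd002007060a20308fa02c00471208c8c28002318104001800850f10404310966141008008e1253c0828864a44f1801a80cc0123120048408502201000891401e01c005002d88c5532a1005060c512180801443d222006841d4d8000839361d,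
0x1c80c00080a8038018421588631c000ca039c684100108088c803818001916141013029941041841a0098981f0c0c000808020028cc8090060d7189846002b90a8d00314b14614d0880cca8680e80304194d4000835a0eb],
.mk (.mk 993 0o76520143 0o76510423 0o13542) [.mk 902 0o76543210 0o76543210 0o543210, .mk 922
0o76354210 0o76435210 0o452301]
[0x2c41406c08441841c04247901c02d8000898584080e9489062018052c808144354014b681ca1d06107001ccb807c01d0f142ed0c814030084110d114000d90108114b400b09211002003c41d0c8000835d70a],
.mk (.mk 843 0o76543210 0o76543210 0o543210) [.mk 1107 0o76215403 0o76320541 0o125340, .mk 922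
0o76213504 0o76203541 0o213504] [],
.mk (.mk 831 0o76543210 0o76543210 0o453210) [.mk 1155 0o76203541 0o76213504 0o213450, .mk 1032
0o76543210 0o76543210 0o543210] [],
.mk (.mk 831 0o76453120 0o76453120 0o452310) [.mk 1134 0o76521340 0o76512430 0o23514] []]

theorem v2800 : chkL Tab.T5 Tab.RT Tab.reps Tab.E2 Ker.cert7 D2800 2800 = true := by
  decide +kernel

end CR.C2
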