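import Pool.Agent.Lib.MP_6f5d36_co.Ker
import Pool.Agent.Lib.MP_6f5d36_co.RTab
import Pool.Agent.Lib.MP_6f5d36_co.C2.KerC
import Pool.Agent.Lib.MP_6f5d36_co.C2.ETab

/-! MP_6f5d36_co, case (ii), level 7 : the ranks 2900, ..., 2999 -/

set_option autoImplicit false
set_option maxRecDepth 100000

noncomputable section

namespace CR.C2

/-- the frames and certificates of the ranks 2900, ..., 2999 -/
def D2900 : List It :=
[.mk (.mk 1045 0o76152340 0o76412350 0o24153) [.mk 922 0o76354210 0o76435210 0o452301, .mk 1133
0o76543210 0o76543210 0o543210] [],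
.mk (.mk 1015 0o76451230 0o76451230 0o143052) [.mk 909 0o76543210 0o76543210 0o453210, .mk 1059
0o76542310 0o76542310 0o354210] [],
.mk (.mk 593 0o76534210 0o76534210 0o452310) [.mk 776 0o76543102 0o76543021 0o43512, .mk 896
0o76523410 0o76523410 0o135402, .mk 843 0o76532410 0o76524310 0o351402]
[0x18010300430c46410803094f1b70d1128402002b6085600805040306cc114b8b84809024d504644240063080e100598648402140418788704600091644e5000820180150d4000832a942,
0x710c0000a800084708c38402008008601a40001c0028018a3042115628a1640400309c21a630441ee04ca011060e354a880218611a2301001c1742f80a1004084490154c400082eb942],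
.mk (.mk 1013 0o76543210 0o76543210 0o453210) [.mk 897 0o76352014 0o76405312 0o124305, .mk 1015
0o76435210 0o76354210 0o354120] [],
.mk (.mk 998 0o76143205 0o76043251 0o120543) [.mk 998 0o76523140 0o76513420 0o254301] [],
.mk (.mk 998 0o76401235 0o76051234 0o120534) [.mk 783 0o76543210 0o76543210 0o543210] [],
.mk (.mk 783 0o76453210 0o76453210 0o453210) [.mk 936 0o76150324 0o76402153 0o203154, .mk 1114
0o76153204 0o76403251 0o125430] [],
.mk (.mk 659 0o76543210 0o76543210 0o543210) [.mk 897 0o76413025 0o76053142 0o52431, .mk 1096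
0o76025134 0o76301425 0o140235] [],
.mk (.mk 593 0o76543210 0o76543210 0o452310) [.mk 1072 0o76352140 0o76415320 0o235401] [],
.mk (.mk 1071 0o76310542 0o76215043 0o105423) [.mk 1092 0o76524130 0o76531420 0o245310, .mk 867
0o76543210 0o76543210 0o543210] [],
.mk (.mk 865 0o76251043 0o76410532 0o105423) [.mk 1071 0o76543210 0o76543210 0o254130, .mk 931
0o76543120 0o76543120 0o453120] [],
.mk (.mk 795 0o76502431 0o76521304 0o234015) [.mk 1133 0o76435210 0o76354210 0o453210] [],
.mk (.mk 1074 0o76140253 0o76140253 0o23154) [.mk 848 0o76453210 0o76453210 0o453210, .mk 888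
0o76432510 0o76254310 0o354210] [],
.mk (.mk 825 0o76543210 0o76543210 0o245031) [.mk 817 0o76524130 0o76531420 0o42153, .mk 825
0o76543210 0o76543210 0o354120, .mk 893 0o76543210 0o76543210 0o452301]
[0x8038540019a1204ac081c1308424c425080c1206c002c4409423288e1214006200130dcd58163584c2300c402d160840a088e238c114a8000829cad9,
0x26204e010cc02802930062000001842701803500c101126511000142418d003004300004d088a7844c5900601438384a253c630058200480100114b800082a374b,
0x8e8000240458066003060148c00e05220fa00087c0010d50028e008b215d80040f41c10a89c9c0060016875d2d4a030101284086f430600190a047a510080805840631a003802800224318180f8000702501081d4cc00083a560d,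
0x8401480c00020548c200080510805800e1524682800204c200ed6043c23384011848005001301a0000880240810c1149400082a56cd,
0x88455cc100618480101144c82773c01802006088120000ae02241c40d0018010c0a9190860b0070435402906229a21222880107212804440400161340906110405f4488154c400082ec0e9,
0x12104610520414840340480f0ac0502008035c004048091acd00400660002c8c188a2061a80380e00e2343c8d669432c6000e0943148291628f90460f8154b000082ec6e9],
.mk (.mk 823 0o76543210 0o76543210 0o543210) [.mk 1144 0o76302451 0o76125304 0o230541] [],
.mk (.mk 1013 0o76534210 0o76534210 0o254310) [.mk 884 0o76453210 0o76453210 0o453120, .mk 929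
0o76543210 0o76543210 0o543210] [],
.mk (.mk 570 0o76543210 0o76543210 0o543210) [.mk 809 0o76453210 0o76453210 0o254310, .mk 929
0o76534210 0o76534210 0o453210] [],
.mk (.mk 781 0o76345210 0o76345210 0o453210) [.mk 884 0o76543210 0o76543210 0o543210, .mk 916
0o76512403 0o76520341 0o104253] [],
.mk (.mk 981 0o76543210 0o76543210 0o543210) [.mk 786 0o76024531 0o76231405 0o120453] [],
.mk (.mk 989 0o76452130 0o76451320 0o452130) [.mk 786 0o76243105 0o76043521 0o53241, .mk 1097
0o76543210 0o76543210 0o543210, .mk 951 0o76215403 0o76320541 0o230154]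
[0x1d604148182196423e00020e9c204ca10f0830cd0c1a01b2118c200140071051460430135156142c2e803708801848ee5460158c54c12358331806401652002e925862e03228d804801a10b0210c602032000088c0004810a124881d4e000083918d9],
.mk (.mk 825 0o76512403 0o76520341 0o125430) [.mk 928 0o76324510 0o76235410 0o254301, .mk 923
0o76342510 0o76245310 0o354210] [],
.mk (.mk 856 0o76532014 0o76504312 0o32541) [.mk 1141 0o76350412 0o76425013 0o130542] [],
.mk (.mk 813 0o76524310 0o76532410 0o345120) [.mk 1078 0o76314025 0o76035142 0o123504, .mk 717
0o76543210 0o76543210 0o543210]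
[0xd1d10404480209d742091098400408f186250008444d0bd481120821400a4fa72d09640ed25808028b133841684078c801e3148244110bc000829d562,
0x3004148071348002c000320070d0912c412020531899104c1348480005021f221420700e410761222343b2ac171043218c9004013204c121c47100306c040180150cc000832a741],
.mk (.mk 987 0o76542031 0o76541302 0o352104) [.mk 857 0o76543210 0o76543210 0o543210]
[0x18872d004a84600d0868049c094730410688500314985908e80d880085248816044f8114b94011581f80700510500088710109099c8b800a80020414700b81689682285f04b08580804508504188194d000083550a2,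
0x8414704002a423ac2240c8424920809806c940c00c0440400909c00e0048316815000e88cce16889a16f8c64157c44803f8c6e24d040653c0cd0a56951a01e80f051a0c18157827427b80d00010098205904800e00122000028072803e001807c14380214e400083dd113],
.mk (.mk 1014 0o76041352 0o76142035 0o103452) [.mk 1072 0o76543210 0o76543210 0o453210, .mk 1066
0o76051342 0o76412035 0o13452] [],
.mk (.mk 666 0o76253104 0o76403521 0o305412) [.mk 752 0o76514032 0o76531042 0o250341] [],
.mk (.mk 876 0o76453210 0o76453210 0o452310) [.mk 1147 0o76432150 0o76154320 0o154320] [],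
.mk (.mk 1093 0o76134025 0o76034152 0o14352) [.mk 914 0o76543210 0o76543210 0o543210] [],
.mk (.mk 1014 0o76532140 0o76514320 0o154320) [.mk 876 0o76453210 0o76453210 0o453210, .mk 1166
0o76534210 0o76534210 0o254310] [],
.mk (.mk 775 0o76521403 0o76520431 0o35412) [.mk 880 0o76431502 0o76254031 0o305142, .mk 1134
0o76521034 0o76501432 0o104523] [],
.mk (.mk 656 0o76543210 0o76543210 0o543210) [.mk 1070 0o76524301 0o76532401 0o340512] [],
.mk (.mk 1014 0o76542310 0o76542310 0o453120) [.mk 1054 0o76425031 0o76351402 0o253014, .mk 886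
0o76543210 0o76543210 0o543210] [],
.mk (.mk 1033 0o76123054 0o76103452 0o13524) [.mk 961 0o76251340 0o76412530 0o325401, .mk 916
0o76354210 0o76435210 0o453210] [],
.mk (.mk 818 0o76543210 0o76543210 0o543210) [.mk 961 0o76410532 0o76251043 0o21345, .mk 938
0o76510423 0o76520143 0o201435] [],
.mk (.mk 571 0o76543210 0o76543210 0o543210) [.mk 938 0o76251304 0o76402531 0o104253, .mk 781
0o76534210 0o76534210 0o453210] [],
.mk (.mk 781 0o76245310 0o76342510 0o453210) [.mk 1092 0o76412503 0o76250341 0o104523] [],
.mk (.mk 775 0o76450132 0o76451023 0o250314) [.mk 1104 0o76321405 0o76025431 0o34521, .mk 1110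
0o76231504 0o76204531 0o304251] [],
.mk (.mk 834 0o76543210 0o76543210 0o543210) [.mk 1003 0o76052341 0o76412305 0o243015] [],
.mk (.mk 651 0o76452130 0o76451320 0o452130) [.mk 1088 0o76532410 0o76524310 0o152403, .mk 968
0o76453021 0o76453102 0o250431] [],
.mk (.mk 765 0o76543210 0o76543210 0o543210) [.mk 1056 0o76435210 0o76354210 0o453210] [],
.mk (.mk 787 0o76401532 0o76251034 0o231405) [.mk 1047 0o76401523 0o76250134 0o132045, .mk 1126
0o76402513 0o76250314 0o31254] [],
.mk (.mk 569 0o76543210 0o76543210 0o543210) [.mk 1183 0o76524310 0o76532410 0o145320] [],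
.mk (.mk 769 0o76240513 0o76240513 0o205314) [.mk 845 0o76543210 0o76543210 0o543210, .mk 1036
0o76230514 0o76204513 0o25314] [],
.mk (.mk 611 0o76543210 0o76543210 0o543210) [.mk 1036 0o76543021 0o76543102 0o251304, .mk 1201
0o76530142 0o76514023 0o130524] [],
.mk (.mk 656 0o76513042 0o76513042 0o104352) [.mk 868 0o76432510 0o76254310 0o254130] [],
.mk (.mk 802 0o76543120 0o76543120 0o453120) [.mk 1016 0o76542310 0o76542310 0o254310, .mk 949
0o76345021 0o76345102 0o51342] [],
.mk (.mk 826 0o76453210 0o76453210 0o453210) [.mk 1040 0o76451032 0o76451032 0o231450, .mk 884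
0o76543210 0o76543210 0o543210] [],
.mk (.mk 1007 0o76043152 0o76143025 0o204315) [.mk 830 0o76543210 0o76543210 0o543210] [],
.mk (.mk 708 0o76342510 0o76245310 0o254310) [.mk 802 0o76543120 0o76543120 0o453120]
[0x51800810c191e14ed8110004714801284021784d002000080a8b9819850059c98090450038010059c68c684b14496680f841a038031469869060d30d980710c00d1cb01e0008408c004194c4000830ba5a],
.mk (.mk 570 0o76543210 0o76543210 0o543210) [.mk 1137 0o76435210 0o76354210 0o254310, .mk 853
0o76450321 0o76452103 0o130542] [],
.mk (.mk 826 0o76453210 0o76453210 0o453210) [.mk 1071 0o76435210 0o76354210 0o254310, .mk 929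
0o76543210 0o76543210 0o543210] [],
.mk (.mk 889 0o76435210 0o76354210 0o254310) [.mk 924 0o76524031 0o76531402 0o124035, .mk 911
0o76345210 0o76345210 0o453210] [],
.mk (.mk 884 0o76543210 0o76543210 0o543210) [.mk 1152 0o76430251 0o76154203 0o124305, .mk 911
0o76432510 0o76254310 0o453210] [],
.mk (.mk 543 0o76543210 0o76543210 0o543210) [.mk 783 0o76532140 0o76514320 0o354210] [],
.mk (.mk 1009 0o76415023 0o76350142 0o250143) [.mk 997 0o76512304 0o76502341 0o53142] [],
.mk (.mk 595 0o76543210 0o76543210 0o543210) [.mk 799 0o76452301 0o76452301 0o52431, .mk 879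
0o76543201 0o76543201 0o250431] [],
.mk (.mk 879 0o76354210 0o76435210 0o453210) [.mk 1089 0o76432510 0o76254310 0o354210, .mk 1104
0o76352104 0o76405321 0o45231] [],
.mk (.mk 722 0o76543210 0o76543210 0o543210) [.mk 636 0o76514320 0o76532140 0o325401, .mk 831
0o76541320 0o76542130 0o451320] [],
.mk (.mk 729 0o76543210 0o76543210 0o543210) [.mk 1073 0o76024351 0o76132405 0o214305, .mk 831
0o76453210 0o76453210 0o453210] [],
.mk (.mk 1017 0o76051423 0o76420135 0o130254) [.mk 1099 0o76543210 0o76543210 0o543210, .mk 903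
0o76314025 0o76035142 0o25413] [],
.mk (.mk 712 0o76430512 0o76254013 0o250134) [.mk 1099 0o76401523 0o76250134 0o31254, .mk 941
0o76543210 0o76543210 0o543210] [],
.mk (.mk 588 0o76534210 0o76534210 0o453210) [.mk 1036 0o76523401 0o76523401 0o240531, .mk 941
0o76435021 0o76354102 0o150423] [],
.mk (.mk 846 0o76125034 0o76301452 0o105324) [.mk 1098 0o76305412 0o76325014 0o241035, .mk 638
0o76543210 0o76543210 0o543210] [],
.mk (.mk 714 0o76430512 0o76254013 0o250134) [.mk 1158 0o76402513 0o76250314 0o31254, .mk 941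
0o76543210 0o76543210 0o543210] [],
.mk (.mk 1019 0o76540312 0o76542013 0o250134) [.mk 846 0o76345210 0o76345210 0o453210] [],
.mk (.mk 941 0o76435012 0o76354012 0o150234) [.mk 962 0o76504213 0o76530214 0o214305, .mk 941
0o76435210 0o76354210 0o453201, .mk 1189 0o76314025 0o76035142 0o15243] [],
.mk (.mk 725 0o76543210 0o76543210 0o543210) [.mk 1059 0o76523410 0o76523410 0o254130] [],
.mk (.mk 591 0o76534210 0o76534210 0o453210) [.mk 1045 0o76304521 0o76235104 0o243105] [],
.mk (.mk 591 0o76534210 0o76534210 0o354102) [.mk 895 0o76504231 0o76531204 0o34125, .mk 591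
0o76534210 0o76534210 0o453210] [],
.mk (.mk 1036 0o76241503 0o76240531 0o125340) [.mk 1050 0o76210534 0o76201543 0o23154, .mk 941
0o76543210 0o76543210 0o543210] [],
.mk (.mk 1007 0o76310542 0o76215043 0o123504) [.mk 772 0o76435210 0o76354210 0o453210]
[0x98440a60380980208463c4995418c010e105308c341011c1106c2c3182202204c6a1031a22704802308e304151c108245008080090124208431201666d84108c628608a14024212508154d40008305742,
0x111184f02807010815344803d42400048044050088519c202d807340e2649289c802000112506502441100b610c42588944600124c88044530e0170d001084150c800082ed742],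
.mk (.mk 772 0o76534210 0o76534210 0o452310) [.mk 1019 0o76453201 0o76453201 0o350412, .mk 620
0o76543210 0o76543210 0o543210] [],
.mk (.mk 680 0o76543210 0o76543210 0o543210) [.mk 1151 0o76534210 0o76534210 0o453210] [],
.mk (.mk 947 0o76350241 0o76415203 0o102534) [.mk 1188 0o76345210 0o76345210 0o354102, .mk 1147
0o76350241 0o76415203 0o12534] [],
.mk (.mk 1015 0o76543120 0o76543120 0o145230) [.mk 912 0o76352410 0o76425310 0o345120, .mk 905
0o76543210 0o76543210 0o543210] [],
.mk (.mk 827 0o76251430 0o76421530 0o345210) [.mk 1057 0o76421305 0o76052431 0o24153, .mk 905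
0o76543210 0o76543210 0o543210] [],
.mk (.mk 555 0o76534210 0o76534210 0o453210) [.mk 1144 0o76543210 0o76543210 0o254130, .mk 872
0o76215043 0o76310542 0o105423] [],
.mk (.mk 555 0o76540312 0o76542013 0o130245) [.mk 851 0o76543120 0o76543120 0o453120, .mk 888
0o76542310 0o76542310 0o254310] [],
.mk (.mk 836 0o76152034 0o76401352 0o15243) [.mk 950 0o76534210 0o76534210 0o453210, .mk 1073
0o76542310 0o76542310 0o254310] [],
.mk (.mk 1055 0o76042531 0o76241305 0o241305) [.mk 1147 0o76305214 0o76305214 0o13524] [],
.mk (.mk 881 0o76543210 0o76543210 0o543210) [.mk 955 0o76321504 0o76205431 0o203541, .mk 1136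
0o76430512 0o76254013 0o31254] [],
.mk (.mk 1060 0o76543210 0o76543210 0o254130) [.mk 865 0o76435120 0o76354120 0o453120, .mk 941
0o76435021 0o76354102 0o150423] [],
.mk (.mk 865 0o76543210 0o76543210 0o543210) [.mk 1154 0o76504132 0o76531024 0o13542, .mk 943
0o76430521 0o76254103 0o253104] [],
.mk (.mk 865 0o76543120 0o76543120 0o453120) [.mk 1059 0o76542310 0o76542310 0o254310, .mk 941
0o76453021 0o76453102 0o150423] [],
.mk (.mk 846 0o76521043 0o76510432 0o105243) [.mk 1105 0o76543210 0o76543210 0o254130, .mk 1167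
0o76521034 0o76501432 0o15234] [],
.mk (.mk 1086 0o76452310 0o76452310 0o254130) [.mk 931 0o76543210 0o76543210 0o543210, .mk 1185
0o76543120 0o76543120 0o453120] [],
.mk (.mk 1093 0o76542310 0o76542310 0o254310) [.mk 1180 0o76543120 0o76543120 0o453120, .mk 945
0o76531240 0o76514230 0o354201] [],
.mk (.mk 887 0o76543210 0o76543210 0o453210) [.mk 1093 0o76130245 0o76014253 0o12543, .mk 1072
0o76450123 0o76450123 0o150234] [],
.mk (.mk 1039 0o76453210 0o76453210 0o453210) [.mk 1134 0o76052431 0o76421305 0o243105, .mk 897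
0o76435120 0o76354120 0o351402] [],
.mk (.mk 1121 0o76543210 0o76543210 0o254130) [.mk 934 0o76435210 0o76354210 0o453210, .mk 949
0o76345021 0o76345102 0o150423] [],
.mk (.mk 890 0o76543210 0o76543210 0o543210) [.mk 1134 0o76245130 0o76341520 0o145230] [],
.mk (.mk 866 0o76530421 0o76524103 0o213450) [.mk 1046 0o76534102 0o76534021 0o52413, .mk 1148
0o76543210 0o76543210 0o453210] [],
.mk (.mk 836 0o76435210 0o76354210 0o453210) [.mk 1148 0o76123054 0o76103452 0o15324, .mk 938
0o76542310 0o76542310 0o254310] [],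
.mk (.mk 789 0o76153420 0o76423150 0o130524) [.mk 1062 0o76453120 0o76453120 0o453120] [],
.mk (.mk 846 0o76521043 0o76510432 0o105342) [.mk 1039 0o76543210 0o76543210 0o254130] [],
.mk (.mk 847 0o76502413 0o76520314 0o31254) [.mk 914 0o76421503 0o76250431 0o205431, .mk 945
0o76543210 0o76543210 0o543210] [],
.mk (.mk 865 0o76543210 0o76543210 0o453210) [.mk 1154 0o76501432 0o76521034 0o31425, .mk 936
0o76301452 0o76125034 0o130245, .mk 968 0o76430521 0o76254103 0o243105, .mk 1188 0o76543210
0o76543210 0o543210] [],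
.mk (.mk 853 0o76423510 0o76253410 0o354120) [.mk 1161 0o76240315 0o76042513 0o21543, .mk 941
0o76543210 0o76543210 0o543210] [],
.mk (.mk 608 0o76534210 0o76534210 0o452310) [.mk 1045 0o76345021 0o76345102 0o241305, .mk 1119
0o76215043 0o76310542 0o14253] [],
.mk (.mk 842 0o76351204 0o76405231 0o214530) [.mk 1136 0o76453012 0o76453012 0o150243, .mk 941
0o76543210 0o76543210 0o453210] []]

theorem v2900 : chkL Tab.T5 Tab.RT Tab.reps Tab.E2 Ker.cert7 D2900 2900 = true := by
  decide +kernel

end CR.C2
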