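import Pool.Agent.Lib.MP_6f5d36_co.Ker
import Pool.Agent.Lib.MP_6f5d36_co.RTab
import Pool.Agent.Lib.MP_6f5d36_co.C2.KerC
import Pool.Agent.Lib.MP_6f5d36_co.C2.ETab

/-! MP_6f5d36_co, case (ii), level 7 : the ranks 3000, ..., 3099 -/

set_option autoImplicit false
set_option maxRecDepth 100000

noncomputable section

namespace CR.C2

/-- the frames and certificates of the ranks 3000, ..., 3099 -/
def D3000 : List It :=
[.mk (.mk 783 0o76543210 0o76543210 0o543210) [.mk 1140 0o76302415 0o76025314 0o21543, .mk 853
0o76453210 0o76453210 0o354102] [],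
.mk (.mk 783 0o76543210 0o76543210 0o543210) [.mk 1126 0o76023415 0o76023415 0o24135, .mk 853
0o76453210 0o76453210 0o354102] [],
.mk (.mk 1075 0o76513204 0o76503241 0o25431) [.mk 907 0o76543210 0o76543210 0o543210, .mk 958
0o76410352 0o76152043 0o123054] [],
.mk (.mk 1086 0o76502314 0o76502314 0o124035) [.mk 841 0o76412503 0o76250341 0o250143, .mk 1136
0o76543210 0o76543210 0o543210] [],
.mk (.mk 821 0o76301524 0o76205134 0o210345) [.mk 1090 0o76301524 0o76205134 0o123045, .mk 1082
0o76102543 0o76210354 0o32154] [],
.mk (.mk 647 0o76503421 0o76523104 0o241305) [.mk 801 0o76215430 0o76321540 0o435201] [],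
.mk (.mk 817 0o76435120 0o76354120 0o145320) [.mk 1090 0o76543210 0o76543210 0o543210] [],
.mk (.mk 738 0o76453210 0o76453210 0o452310) [.mk 971 0o76543210 0o76543210 0o543210] [],
.mk (.mk 799 0o76310542 0o76215043 0o321054) [.mk 932 0o76310542 0o76215043 0o231054] [],
.mk (.mk 792 0o76543210 0o76543210 0o543210) [.mk 848 0o76435210 0o76354210 0o354210, .mk 1084
0o76413025 0o76053142 0o12345]
[0x68180684072a429000a500c23684611000399022184e181141105401088718aa158c4368903d0640100201840700049207c219082789111842468403110001118011843e0580200114e400082d3702,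
0x121281890104d04880148ee303c14091a090006000884de42201040b0207b4aec4a4dd80006e48644a30b1149e824a861bc502120a150110c000082a94a5],
.mk (.mk 1043 0o76452130 0o76451320 0o452130) [.mk 848 0o76435210 0o76354210 0o352401]
[0x1016020c045a003184c20892200003094600818008807000282006309c013902228163234a9408241a8e70802124c7410321b04c1200413012068401000114c40008293702,
0x121281814500b748345c005781812ea2a8104240108851c03418bd644110892f7207b228826f483a80567789c7426a8613cd021102150110c000082aa46c],
.mk (.mk 609 0o76542310 0o76542310 0o325401) [.mk 1140 0o76325140 0o76315420 0o23541] [],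
.mk (.mk 807 0o76425310 0o76352410 0o354120) [.mk 1043 0o76542130 0o76541320 0o452130, .mk 857
0o76514302 0o76532041 0o132504] [],
.mk (.mk 670 0o76345201 0o76345201 0o253104) [.mk 1077 0o76452310 0o76452310 0o453120] [],
.mk (.mk 712 0o76354201 0o76435201 0o253104) [.mk 968 0o76423510 0o76253410 0o354210, .mk 1061
0o76045321 0o76342105 0o21345] [],
.mk (.mk 1053 0o76430152 0o76154023 0o203451) [.mk 922 0o76354210 0o76435210 0o453210, .mk 882
0o76543210 0o76543210 0o543210] [],
.mk (.mk 712 0o76534210 0o76534210 0o453210) [.mk 1158 0o76541320 0o76542130 0o351402, .mk 1038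
0o76405213 0o76350214 0o142035] [],
.mk (.mk 1061 0o76543120 0o76543120 0o53412) [.mk 1142 0o76542310 0o76542310 0o254130] [],
.mk (.mk 792 0o76543210 0o76543210 0o543210) [.mk 1108 0o76340215 0o76045213 0o41532] [],
.mk (.mk 615 0o76541230 0o76541230 0o451230) [.mk 1045 0o76542103 0o76540321 0o43251, .mk 1149
0o76543210 0o76543210 0o543210] [],
.mk (.mk 730 0o76350142 0o76415023 0o231045) [.mk 1045 0o76543210 0o76543210 0o453210, .mk 1099
0o76542103 0o76540321 0o54321] [],
.mk (.mk 849 0o76504231 0o76531204 0o312540) [.mk 917 0o76352104 0o76405321 0o53421, .mk 1163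
0o76205341 0o76312504 0o123540] [],
.mk (.mk 618 0o76543210 0o76543210 0o543210) [.mk 1097 0o76542130 0o76541320 0o452130, .mk 1202
0o76542310 0o76542310 0o152403] [],
.mk (.mk 1031 0o76543210 0o76543210 0o543210) [.mk 1121 0o76501423 0o76520134 0o31425, .mk 1097
0o76452130 0o76451320 0o452130]
[0x40865342d04620a1c060808118330c20c102c6ec239050020000598102a13523007084b14a21400021002000051120487d8412011c8080b1003004309a0120002d8021021102008154d0000830c86b,
0xf0458070838078188021020058478038408c905104b8448050428100420450812a10c688520080420604b5c01c00002d4808020845143842b018001430811008028c88048438d328180120080790094194d4000836c86b],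
.mk (.mk 1039 0o76145023 0o76340152 0o120345) [.mk 1097 0o76452130 0o76451320 0o452130, .mk 1083
0o76421035 0o76051432 0o42153] [],
.mk (.mk 824 0o76435021 0o76354102 0o250431) [.mk 1032 0o76451320 0o76452130 0o451320, .mk 850
0o76510423 0o76520143 0o14352] [],
.mk (.mk 747 0o76543210 0o76543210 0o543210) [.mk 887 0o76425310 0o76352410 0o354120] [],
.mk (.mk 887 0o76142530 0o76241350 0o204513) [.mk 1193 0o76504231 0o76531204 0o143025, .mk 922
0o76345210 0o76345210 0o452301] [],
.mk (.mk 1029 0o76501243 0o76510234 0o105234) [.mk 1138 0o76253410 0o76423510 0o345120, .mk 850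
0o76543210 0o76543210 0o543210] [],
.mk (.mk 824 0o76435210 0o76354210 0o453210) [.mk 1054 0o76541320 0o76542130 0o351402, .mk 1144
0o76013425 0o76023145 0o210435] [],
.mk (.mk 731 0o76415302 0o76352041 0o213054) [.mk 836 0o76435120 0o76354120 0o453120] [],
.mk (.mk 696 0o76540123 0o76540123 0o203514) [.mk 927 0o76435210 0o76354210 0o453210] [],
.mk (.mk 844 0o76543210 0o76543210 0o543210) [.mk 1122 0o76345012 0o76345012 0o41523, .mk 927
0o76435120 0o76354120 0o453120] [],
.mk (.mk 544 0o76534120 0o76534120 0o453120) [.mk 555 0o76524013 0o76530412 0o105324] [],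
.mk (.mk 744 0o76453210 0o76453210 0o452310) [.mk 971 0o76543210 0o76543210 0o543210, .mk 1020
0o76253104 0o76403521 0o45321] [],
.mk (.mk 876 0o76543210 0o76543210 0o543210) [.mk 1064 0o76345210 0o76345210 0o452310, .mk 896
0o76521403 0o76520431 0o35412] [],
.mk (.mk 706 0o76435210 0o76354210 0o453210) [.mk 969 0o76543210 0o76543210 0o543210, .mk 880
0o76514302 0o76532041 0o304152] [],
.mk (.mk 745 0o76354012 0o76435012 0o305214) [.mk 1021 0o76351240 0o76415230 0o243501] [],
.mk (.mk 750 0o76210543 0o76210543 0o104532) [.mk 745 0o76542310 0o76542310 0o453120] [],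
.mk (.mk 1059 0o76543210 0o76543210 0o354210) [.mk 895 0o76350421 0o76425103 0o150432, .mk 901
0o76542130 0o76541320 0o452130] [],
.mk (.mk 1009 0o76532410 0o76524310 0o152403) [.mk 842 0o76453120 0o76453120 0o452310, .mk 861
0o76523041 0o76513402 0o24513]
[0x24304a03842241022285001902000d41228013082119c006d002008a208004814030800058961608210a8c40ac043890108022c94a081006101250040000401004415846030c114e000082e22dc],
.mk (.mk 992 0o76432510 0o76254310 0o354210) [.mk 861 0o76345210 0o76345210 0o452301, .mk 1138
0o76532041 0o76514302 0o14352]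
[0x9820185001044308140600a010822008005108310d4000422280212b14520120008c030903480c1040a2009a28ac650046402580010e3684a42182528d8a42880300114d400082e9425],
.mk (.mk 861 0o76341502 0o76245031 0o231054) [.mk 1150 0o76231504 0o76204531 0o123504, .mk 1155
0o76543210 0o76543210 0o452301, .mk 1150 0o76231504 0o76204531 0o32415] [],
.mk (.mk 1059 0o76531204 0o76504231 0o43512) [.mk 1120 0o76231540 0o76214530 0o145230, .mk 1041
0o76451203 0o76450231 0o304152] [],
.mk (.mk 1001 0o76532410 0o76524310 0o152403) [.mk 1097 0o76452130 0o76451320 0o452130, .mk 1121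
0o76503214 0o76503214 0o301542]
[0x1e18f040a21b10d198885601430e807804a000020483d4a827a21b00a90ec29520000a842c0035071ebccba419103010450a24a1188000c8e22751c089c41da59205aef1d204060018b5d54821f30d100347800313a11448b2a5cc1e889d4210e800083e3612],
.mk (.mk 1029 0o76432510 0o76254310 0o254301) [.mk 1161 0o76354210 0o76435210 0o453210] [],
.mk (.mk 799 0o76543210 0o76543210 0o452301) [.mk 1161 0o76215043 0o76310542 0o105432, .mk 799
0o76543210 0o76543210 0o543210, .mk 1114 0o76452031 0o76451302 0o240315] [],
.mk (.mk 825 0o76432510 0o76254310 0o245031) [.mk 1100 0o76351240 0o76415230 0o153042, .mk 825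
0o76432510 0o76254310 0o354120, .mk 1161 0o76543210 0o76543210 0o452301] [],
.mk (.mk 1038 0o76431025 0o76054132 0o42513) [.mk 1042 0o76543210 0o76543210 0o543210] [],
.mk (.mk 993 0o76401253 0o76150234 0o310245) [.mk 776 0o76543210 0o76543210 0o543210, .mk 1158
0o76402315 0o76052314 0o12354] [],
.mk (.mk 776 0o76543210 0o76543210 0o543210) [.mk 1102 0o76240315 0o76042513 0o35124, .mk 1102
0o76205314 0o76302514 0o210453]
[0x220400b0780304000290701e0d0a504620e108400cb0002040304100a23c0388309035c650022061282000a0821244080e7000380a14f124300040c328ab102ac1f28ea3040a00102528c210154dc0008308512],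
.mk (.mk 843 0o76543210 0o76543210 0o543210) [.mk 1084 0o76541203 0o76540231 0o132054, .mk 1158
0o76413205 0o76053241 0o34152] [],
.mk (.mk 823 0o76453210 0o76453210 0o453210) [.mk 1073 0o76403152 0o76153024 0o130524, .mk 997
0o76253410 0o76423510 0o245031] [],
.mk (.mk 1038 0o76321540 0o76215430 0o325401) [.mk 1175 0o76032154 0o76104325 0o103425, .mk 1089
0o76415023 0o76350142 0o51432] [],
.mk (.mk 881 0o76543210 0o76543210 0o543210) [.mk 923 0o76425310 0o76352410 0o254310] [],
.mk (.mk 779 0o76543210 0o76543210 0o543210) [.mk 1150 0o76512034 0o76501342 0o15432, .mk 825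
0o76521034 0o76501432 0o104523] [],
.mk (.mk 857 0o76453210 0o76453210 0o453210) [.mk 1075 0o76152043 0o76410352 0o24531, .mk 924
0o76542031 0o76541302 0o324015] [],
.mk (.mk 857 0o76045321 0o76342105 0o34215) [.mk 1162 0o76125430 0o76321450 0o345021, .mk 906
0o76124503 0o76230451 0o204513] [],
.mk (.mk 751 0o76210543 0o76210543 0o231054) [.mk 1158 0o76420513 0o76250413 0o130245, .mk 1107
0o76345210 0o76345210 0o452301] [],
.mk (.mk 684 0o76354021 0o76435102 0o250431) [.mk 888 0o76504312 0o76532014 0o301452, .mk 1117
0o76345021 0o76345102 0o25341]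
[0x6058e12060040080805500420c02a4440e02ee38842120006188210e02081105006a348e84602a61c2404508a6608722f120510460200a00304101110001c8c84468007c4008154cc000832a21c,
0x81040184508835c6204e8862288f04739e20000ac209a0280200008202003849192031c8801000524028c2116b340001600c5304280b010400681df4541cc29947280338200913023b00380154dc000832a2dc,
0x88252442015c2018000005301301105cf6000541000d684d128403040d43c1c104c310041304026650722e02125c8011c057c90104c4004460a856308874145f110c000e4f3244150e4000832a31c,
0x825f80080588218b8cc1c700482e8c289210f1c406388f28d00390700480c0278ce91908280244a8050c2b0480180680304984b0cd88c000101804802a9029900680c0471c90c024b14605484194cc000836a35c],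
.mk (.mk 843 0o76543210 0o76543210 0o543210) [.mk 910 0o76435210 0o76354210 0o452301, .mk 1121
0o76213450 0o76123540 0o24153]
[0x911809a484f52cc03104300dc001dc102cc05a040564434040551980315014318712c4410c51b45c00b4c81340543851004520000a104880004ba05c5108074240260d400200150e000083182c4,
0xf2368054608131020945a058160585101a11446c0140e40c82c0490131a0145110030421e4a1108166444da8512420041aa52467490490c40063e0901034525c0390b03200444a0a50646c8190dc000835a2c4,
0x388208a40c080080221016208718c1002100b382004228000904886000841a305410d3282358c39450ca12a2403300c1040b107080010430471801058710c0800440180010242c640401160344708154e4000831b2c4,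
0xa6254980e10a068046899220088510e006619418120160a80302c1026850db8562e4a41180600243cd430502889c0402191953d5ba8e100204140a044057c63aa00082058ac4933523c4190d8000835d2c4],
.mk (.mk 807 0o76430521 0o76254103 0o320541) [.mk 860 0o76543210 0o76543210 0o543210, .mk 855
0o76530241 0o76514203 0o203451] [],
.mk (.mk 1004 0o76312504 0o76205341 0o305421) [.mk 850 0o76543210 0o76543210 0o543210] [],
.mk (.mk 834 0o76124305 0o76032451 0o32154) [.mk 1165 0o76213405 0o76023541 0o103245, .mk 850
0o76452310 0o76452310 0o453120] [],
.mk (.mk 812 0o76542031 0o76541302 0o25413) [.mk 1066 0o76453210 0o76453210 0o453210, .mk 1057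
0o76510234 0o76501243 0o104523] [],
.mk (.mk 1060 0o76354120 0o76435120 0o134502) [.mk 792 0o76543210 0o76543210 0o543210, .mk 1057
0o76204153 0o76130524 0o24135] [],
.mk (.mk 1044 0o76451230 0o76451230 0o451230) [.mk 1097 0o76543210 0o76543210 0o543210, .mk 896
0o76243105 0o76043521 0o53241]
[0x40cb4118d3284010505112430054647c0604dc00881d000c3225181144684d851104b30808055842050b23482660400250a3354310c0422c454280051907405433608150d400083118e1],
.mk (.mk 1055 0o76435102 0o76354021 0o251430) [.mk 1099 0o76543210 0o76543210 0o543210, .mk 1118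
0o76541230 0o76541230 0o41235]
[0x2d4b0401043682281a3ae10c6584f080230210d0136f2862042286050270d5196000400c718a3042990a486010218c319a2d040ac12c27002249d00a23c458481161184100154c800082d842b],
.mk (.mk 902 0o76512430 0o76521340 0o13245) [.mk 1077 0o76452310 0o76452310 0o453120, .mk 896
0o76423510 0o76253410 0o354120]
[0x2b385c440c4900d02d80e22008109a0401060250200a8c2254244906979442d850060423a00670080268d00080a100c0030405180a2104400802058420080114c8000828d01d,
0x22d398100188500400608084088316f80400381110790a0021c21804019dd9019028c211a9010078870020c304109c00180e9c640039590314e00098780404980302500408600281b80280901304380194d4000835c2ab],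
.mk (.mk 1011 0o76423150 0o76153420 0o14235) [.mk 902 0o76543210 0o76543210 0o543210, .mk 862
0o76541230 0o76541230 0o134052]
[0x30038838049034011c18090c300504100504280210995a98114094315c9801911848098498bb08a04080580104a8c2005acc95914298982fa1128210004600c9c380b21004380000194c0000830570a,
0x60028831480e88c904705500688380a0968011000038010470c388c017043844c418cd80205408288088214080b854243003ac10c00810409009c78801429c78041881c194090018684404694990194d0000836801d],
.mk (.mk 896 0o76325410 0o76325410 0o354210) [.mk 888 0o76543102 0o76543021 0o215340, .mk 917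
0o76543210 0o76543210 0o453210]
[0x720684881181100e4e41e0c002410001122180250719150a00cc79824174304b08216c0344398e05e804d1aa14c4a0440888216430ce80771e29446a0bd016008391a2340004190cc000835d084,
0x64f5168013c07000810548a404c120183608183758180c4013c8b9400039c0a5241913c1000cc0010c0244c6a20c580d4d7041f9542201083006d4074473080150cc0008325084],
.mk (.mk 896 0o76543210 0o76543210 0o453210) [.mk 1121 0o76452130 0o76451320 0o42135, .mk 917
0o76325410 0o76325410 0o354210]
[0x39410490811c90400804c18860400800020890860440c70c784120898280100589b8468030870578c0a4608b0410919908f10ce0439870128469c000084410580614534028010380d08d04004194cc0008358702,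
0xe590020012a0e568020344310423304826194509a030092d864d20f54b0a01910c50a781a3004976c885150005500a34894006f604f608408216e22bc0b3100150cc0008320702],
.mk (.mk 799 0o76452310 0o76452310 0o352401) [.mk 904 0o76543210 0o76543210 0o543210, .mk 1070
0o76201543 0o76210534 0o102543] [],
.mk (.mk 704 0o76053214 0o76403215 0o210534) [.mk 1098 0o76034215 0o76034215 0o120534, .mk 1061
0o76451203 0o76450231 0o41235] [],
.mk (.mk 732 0o76530412 0o76524013 0o23541) [.mk 825 0o76405213 0o76350214 0o103452, .mk 816
0o76543210 0o76543210 0o543210] [],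
.mk (.mk 809 0o76452310 0o76452310 0o245310) [.mk 845 0o76543210 0o76543210 0o453210] [],
.mk (.mk 1040 0o76532140 0o76514320 0o143502) [.mk 904 0o76543210 0o76543210 0o543210, .mk 1054
0o76204153 0o76130524 0o24135] [],
.mk (.mk 1047 0o76320154 0o76105423 0o104523) [.mk 1107 0o76432510 0o76254310 0o352401] [],
.mk (.mk 605 0o76513420 0o76523140 0o204153) [.mk 1102 0o76512430 0o76521340 0o24513] [],
.mk (.mk 825 0o76135240 0o76314250 0o243501) [.mk 1022 0o76301254 0o76105234 0o104325, .mk 1058
0o76543210 0o76543210 0o543210] [],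
.mk (.mk 775 0o76453210 0o76453210 0o453210) [.mk 1120 0o76413205 0o76053241 0o53421] [],
.mk (.mk 1013 0o76452130 0o76451320 0o53142) [.mk 1180 0o76543210 0o76543210 0o354102, .mk 948
0o76452130 0o76451320 0o145320] [],
.mk (.mk 899 0o76534120 0o76534120 0o453120) [.mk 1169 0o76251043 0o76410532 0o105432, .mk 1119
0o76543210 0o76543210 0o254130] [],
.mk (.mk 864 0o76543210 0o76543210 0o453210) [.mk 1147 0o76534201 0o76534201 0o42531, .mk 1072
0o76351420 0o76425130 0o124503] [],
.mk (.mk 864 0o76543210 0o76543210 0o543210) [.mk 1057 0o76432150 0o76154320 0o154230, .mk 1132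
0o76524301 0o76532401 0o52341]
[0x70031289d030050001100d0240029030017000a008001108b2000071152715478525002c45104007040e6004b0200112dc70058082a02c6b8000d80216c23044150cc0008312ae1],
.mk (.mk 1025 0o76532410 0o76524310 0o254130) [.mk 931 0o76543210 0o76543210 0o543210] [],
.mk (.mk 992 0o76241530 0o76241530 0o145230) [.mk 792 0o76543210 0o76543210 0o543210] [],
.mk (.mk 713 0o76501243 0o76510234 0o102543) [.mk 983 0o76453120 0o76453120 0o452310, .mk 1086
0o76401253 0o76150234 0o12543] [],
.mk (.mk 985 0o76352041 0o76415302 0o142305) [.mk 1161 0o76542310 0o76542310 0o354210] [],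
.mk (.mk 1023 0o76320154 0o76105423 0o104523) [.mk 904 0o76543210 0o76543210 0o543210, .mk 1054
0o76435120 0o76354120 0o254310] [],
.mk (.mk 1054 0o76213054 0o76103542 0o102435) [.mk 905 0o76543210 0o76543210 0o543210, .mk 852
0o76152340 0o76412350 0o345012] [],
.mk (.mk 1054 0o76543120 0o76543120 0o154320) [.mk 1180 0o76543210 0o76543210 0o453210, .mk 1140
0o76543120 0o76543120 0o53412] [],
.mk (.mk 754 0o76453120 0o76453120 0o453120) [.mk 1060 0o76253140 0o76413520 0o145230, .mk 1108
0o76301452 0o76125034 0o31524] [],
.mk (.mk 707 0o76354012 0o76435012 0o213540) [.mk 1102 0o76042513 0o76240315 0o24315] [],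
.mk (.mk 742 0o76324510 0o76235410 0o254310) [.mk 881 0o76543210 0o76543210 0o543210, .mk 852
0o76342510 0o76245310 0o354201] [],
.mk (.mk 865 0o76215403 0o76320541 0o204531) [.mk 881 0o76543210 0o76543210 0o543210, .mk 1046
0o76534120 0o76534120 0o145230] [],
.mk (.mk 727 0o76543210 0o76543210 0o543210) [.mk 1149 0o76314025 0o76035142 0o21534, .mk 1032
0o76124035 0o76031452 0o203154] [],
.mk (.mk 732 0o76452310 0o76452310 0o254310) [.mk 1179 0o76542310 0o76542310 0o354210, .mk 727
0o76543210 0o76543210 0o453210] [],
.mk (.mk 885 0o76214530 0o76231540 0o345210) [.mk 1105 0o76014523 0o76230145 0o130245, .mk 1046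
0o76012453 0o76120345 0o31245]
[0x1c0310a0889a009004101c300001000a0084410986307402280805082518c8101843028c218048180292052109902680a308042084a1318832846d280004040200461188114d800082c94a1],
.mk (.mk 727 0o76543210 0o76543210 0o543210) [.mk 997 0o76542013 0o76540312 0o250314] []]

theorem v3000 : chkL Tab.T5 Tab.RT Tab.reps Tab.E2 Ker.cert7 D3000 3000 = true := by
  decide +kernel

end CR.C2
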