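import Pool.Agent.Lib.MP_6f5d36_co.Ker
import Pool.Agent.Lib.MP_6f5d36_co.RTab
import Pool.Agent.Lib.MP_6f5d36_co.C2.KerC
import Pool.Agent.Lib.MP_6f5d36_co.C2.ETab

/-! MP_6f5d36_co, case (ii), level 7 : the ranks 3100, ..., 3199 -/

set_option autoImplicit false
set_option maxRecDepth 100000

noncomputable section

namespace CR.C2

/-- the frames and certificates of the ranks 3100, ..., 3199 -/
def D3100 : List It :=
[.mk (.mk 706 0o76052134 0o76401325 0o201534) [.mk 1140 0o76453012 0o76453012 0o142305] [],
.mk (.mk 825 0o76435210 0o76354210 0o253401) [.mk 1055 0o76053421 0o76423105 0o143205, .mk 904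
0o76543210 0o76543210 0o543210] [],
.mk (.mk 1037 0o76042153 0o76140325 0o12453) [.mk 1037 0o76240153 0o76140523 0o103542, .mk 1157
0o76345210 0o76345210 0o452301] [],
.mk (.mk 727 0o76543210 0o76543210 0o543210) [.mk 1044 0o76513024 0o76503142 0o105243, .mk 792
0o76523014 0o76503412 0o12543] [],
.mk (.mk 843 0o76543210 0o76543210 0o543210) [.mk 1203 0o76432510 0o76254310 0o254301, .mk 1107
0o76215043 0o76310542 0o105342] [],
.mk (.mk 758 0o76543210 0o76543210 0o543210) [.mk 997 0o76024513 0o76230415 0o340125] [],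
.mk (.mk 1095 0o76542310 0o76542310 0o254310) [.mk 1106 0o76354021 0o76435102 0o150423, .mk 852
0o76152034 0o76401352 0o15234] [],
.mk (.mk 775 0o76521034 0o76501432 0o103542) [.mk 1139 0o76435210 0o76354210 0o354210] [],
.mk (.mk 1018 0o76432510 0o76254310 0o254301) [.mk 1107 0o76215043 0o76310542 0o105342] [],
.mk (.mk 989 0o76452130 0o76451320 0o452130) [.mk 799 0o76315042 0o76315042 0o204153, .mk 904
0o76543210 0o76543210 0o543210] [],
.mk (.mk 1040 0o76450132 0o76451023 0o230451) [.mk 843 0o76543210 0o76543210 0o543210, .mk 1133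
0o76543210 0o76543210 0o453210] [],
.mk (.mk 1133 0o76241530 0o76241530 0o145230) [.mk 937 0o76543201 0o76543201 0o251304, .mk 1143
0o76405231 0o76351204 0o23451] [],
.mk (.mk 1032 0o76541230 0o76541230 0o451230) [.mk 1057 0o76435120 0o76354120 0o254310, .mk 1023
0o76120354 0o76102453 0o104523] [],
.mk (.mk 779 0o76543210 0o76543210 0o543210) [.mk 1142 0o76320541 0o76215403 0o235014, .mk 825
0o76521043 0o76510432 0o14523] [],
.mk (.mk 792 0o76543210 0o76543210 0o543210) [.mk 1073 0o76325140 0o76315420 0o23541, .mk 904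
0o76452310 0o76452310 0o325401] [],
.mk (.mk 584 0o76015423 0o76320145 0o302145) [.mk 1044 0o76541230 0o76541230 0o451230] [],
.mk (.mk 845 0o76543210 0o76543210 0o543210) [.mk 1050 0o76210534 0o76201543 0o23154, .mk 964
0o76320514 0o76205413 0o205314] [],
.mk (.mk 1008 0o76542130 0o76541320 0o452130) [.mk 1108 0o76053214 0o76403215 0o43215, .mk 825
0o76435120 0o76354120 0o254310] [],
.mk (.mk 1023 0o76314520 0o76235140 0o240513) [.mk 922 0o76435210 0o76354210 0o452301, .mk 1046
0o76045321 0o76342105 0o143205] [],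
.mk (.mk 1000 0o76420153 0o76150423 0o130245) [.mk 751 0o76210543 0o76210543 0o231054] [],
.mk (.mk 731 0o76342510 0o76245310 0o254130) [.mk 931 0o76543210 0o76543210 0o543210, .mk 796
0o76231540 0o76214530 0o345021]
[0x182500408221c238090800044204400402c8188128610c0080929a00401948096024e312488060d05844086820808c22881282130030ea740285a2863650200908a088070ca0a40000404600610c0304154e8000832b45d],
.mk (.mk 1039 0o76542310 0o76542310 0o254310) [.mk 1186 0o76251043 0o76410532 0o15324, .mk 949
0o76512430 0o76521340 0o345201] [],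
.mk (.mk 1022 0o76543120 0o76543120 0o154320) [.mk 872 0o76543210 0o76543210 0o453210, .mk 1102
0o76543120 0o76543120 0o53412] [],
.mk (.mk 727 0o76543120 0o76543120 0o453120) [.mk 1078 0o76324105 0o76035421 0o104325]
[0x28024810041b0112a03e0303a001040e1080150084024c831cc1540011258030d83420010608740f046080440c023848d10ad2f4842960204390220013504d30744102c8150d80008312acc],
.mk (.mk 852 0o76204153 0o76130524 0o103425) [.mk 1202 0o76320541 0o76215403 0o235014, .mk 1106
0o76203154 0o76103524 0o13425] [],
.mk (.mk 1046 0o76542310 0o76542310 0o254130) [.mk 1169 0o76543210 0o76543210 0o354102, .mk 1147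
0o76452130 0o76451320 0o53142, .mk 640 0o76543210 0o76543210 0o543210] [],
.mk (.mk 785 0o76350412 0o76425013 0o120354) [.mk 1066 0o76452130 0o76451320 0o53142, .mk 848
0o76540312 0o76542013 0o210354] [],
.mk (.mk 1044 0o76453210 0o76453210 0o453210) [.mk 955 0o76543210 0o76543210 0o543210, .mk 882
0o76204351 0o76132504 0o215034] [],
.mk (.mk 1117 0o76351024 0o76405132 0o201534) [.mk 934 0o76512034 0o76501342 0o105324, .mk 1169
0o76435120 0o76354120 0o453120] [],
.mk (.mk 874 0o76543210 0o76543210 0o254130) [.mk 1186 0o76251034 0o76401532 0o15234, .mk 935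
0o76152034 0o76401352 0o105324] [],
.mk (.mk 1119 0o76543210 0o76543210 0o254130) [.mk 1106 0o76354021 0o76435102 0o150432, .mk 1169
0o76435210 0o76354210 0o453210] [],
.mk (.mk 707 0o76342510 0o76245310 0o254310) [.mk 1130 0o76023415 0o76023415 0o21453]
[0x3202d083c32801808401f485253104f056cc0a7071091050c2a62d20d801846e5480be80d4016088a178c302460420098c1847c51e181903165600b29490d540c901226301c80c02f2088c1d4b800083494cc],
.mk (.mk 654 0o76342510 0o76245310 0o254310) [.mk 1119 0o76410532 0o76251043 0o32514, .mk 1180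
0o76543120 0o76543120 0o453120]
[0xd160d02372a082201402288660b180061e64348b4a423198040602402c86a13140c1e852a82a125110204ce4912b30820f4121014030b8ac4110c8000829b4cc],
.mk (.mk 830 0o76543210 0o76543210 0o543210) [.mk 1029 0o76510234 0o76501243 0o15243, .mk 877
0o76451320 0o76452130 0o451320] [],
.mk (.mk 1008 0o76453210 0o76453210 0o453210) [.mk 830 0o76543210 0o76543210 0o543210, .mk 824
0o76410523 0o76250143 0o105423] [],
.mk (.mk 1031 0o76541230 0o76541230 0o451230) [.mk 848 0o76403512 0o76253014 0o310254, .mk 799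
0o76304512 0o76235014 0o132045] [],
.mk (.mk 1008 0o76453210 0o76453210 0o453210) [.mk 1042 0o76543210 0o76543210 0o543210, .mk 1038
0o76501324 0o76502134 0o41325] [],
.mk (.mk 799 0o76543210 0o76543210 0o543210) [.mk 951 0o76052314 0o76402315 0o304215, .mk 1071
0o76403215 0o76053214 0o120543]
[0x2380705b8160140278470d01d084988285084d1c1042890ba48079af0ca0138029108958c88cd95108084300b0440540850041ca0012400026838079018c000784580600300008910411484414094d00228194d8000834171b],
.mk (.mk 914 0o76543210 0o76543210 0o543210) [.mk 938 0o76213504 0o76203541 0o214053, .mk 919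
0o76130542 0o76214053 0o320541] [],
.mk (.mk 1032 0o76542130 0o76541320 0o452130) [.mk 1078 0o76543210 0o76543210 0o354210, .mk 877
0o76543210 0o76543210 0o543210]
[0xc0090710b183044a408053300073d39dd1e28060421220911cf817845803800b0904990e83004005904008008f80c08500a0950950000c30098141169808d58440c60888da14a84a00d81b00194cc0008358b03,
0x2800101440288875096c19003a8002088c0b8042306842008218c4103d060040000444188250486418dc4194220a1000b84619c80706a2a0c114b40008298b43],
.mk (.mk 822 0o76504321 0o76532104 0o310452) [.mk 1165 0o76542310 0o76542310 0o254301, .mk 932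
0o76305421 0o76325104 0o134025] [],
.mk (.mk 1028 0o76301452 0o76125034 0o130254) [.mk 1109 0o76201435 0o76021534 0o31254, .mk 1133
0o76543210 0o76543210 0o543210] [],
.mk (.mk 730 0o76043521 0o76243105 0o341205) [.mk 1203 0o76043521 0o76243105 0o143205, .mk 747
0o76543210 0o76543210 0o543210] [],
.mk (.mk 730 0o76532401 0o76524301 0o340512) [.mk 1100 0o76231045 0o76014532 0o123054] [],
.mk (.mk 1088 0o76130542 0o76214053 0o132450) [.mk 1129 0o76021435 0o76021435 0o32145, .mk 1133
0o76543210 0o76543210 0o543210] [],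
.mk (.mk 718 0o76532410 0o76524310 0o354210) [.mk 953 0o76453210 0o76453210 0o453210] [],
.mk (.mk 665 0o76510324 0o76502143 0o302514) [.mk 1060 0o76435102 0o76354021 0o241503] [],
.mk (.mk 733 0o76451023 0o76450132 0o230145) [.mk 707 0o76452310 0o76452310 0o453120] [],
.mk (.mk 735 0o76453120 0o76453120 0o351402) [.mk 1076 0o76145203 0o76340251 0o241053] [],
.mk (.mk 793 0o76543210 0o76543210 0o543210) [.mk 1011 0o76542310 0o76542310 0o354210]
[0x50849c348346140018014e2c00120688240280050028c2062670d283807c656113188009ca430027938809002206101801820e216388063802212a180041120016208080002bc72c00700240080291a9806c02c050001041d4d8000838522a],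
.mk (.mk 799 0o76543210 0o76543210 0o543210) [.mk 1134 0o76243510 0o76243510 0o245031, .mk 897
0o76524031 0o76531402 0o153024] [],
.mk (.mk 793 0o76543120 0o76543120 0o452310) [.mk 1175 0o76403521 0o76253104 0o31542, .mk 861
0o76523410 0o76523410 0o352401] [],
.mk (.mk 991 0o76541320 0o76542130 0o451320) [.mk 953 0o76320541 0o76215403 0o140523, .mk 1081
0o76140235 0o76041253 0o203154] [],
.mk (.mk 1044 0o76135204 0o76304251 0o204153) [.mk 1050 0o76324105 0o76035421 0o21543, .mk 1102
0o76253104 0o76403521 0o102543] [],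
.mk (.mk 665 0o76542310 0o76542310 0o254310) [.mk 1185 0o76453120 0o76453120 0o453120, .mk 1185
0o76214035 0o76031542 0o15243] [],
.mk (.mk 742 0o76352410 0o76425310 0o254130) [.mk 931 0o76543210 0o76543210 0o543210] [],
.mk (.mk 698 0o76542310 0o76542310 0o254310) [.mk 945 0o76431250 0o76154230 0o354201, .mk 1185
0o76543210 0o76543210 0o453210] [],
.mk (.mk 1005 0o76452310 0o76452310 0o354120) [.mk 882 0o76543210 0o76543210 0o543210, .mk 1054
0o76415302 0o76352041 0o152340] [],
.mk (.mk 1038 0o76423051 0o76153402 0o24135) [.mk 1108 0o76514302 0o76532041 0o125340, .mk 1137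
0o76450312 0o76452013 0o350214] [],
.mk (.mk 778 0o76543210 0o76543210 0o543210) [.mk 1175 0o76425031 0o76351402 0o253014, .mk 808
0o76521034 0o76501432 0o104532] [],
.mk (.mk 998 0o76534210 0o76534210 0o354120) [.mk 1175 0o76140253 0o76140253 0o203451, .mk 817
0o76543210 0o76543210 0o543210] [],
.mk (.mk 600 0o76543210 0o76543210 0o543210) [.mk 923 0o76452310 0o76452310 0o154320, .mk 1135
0o76532410 0o76524310 0o453210] [],
.mk (.mk 779 0o76435210 0o76354210 0o452301) [.mk 1111 0o76125034 0o76301452 0o14523, .mk 1165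
0o76205431 0o76321504 0o342105] [],
.mk (.mk 1002 0o76523140 0o76513420 0o134502) [.mk 1109 0o76204531 0o76231504 0o31254, .mk 947
0o76305421 0o76325104 0o301524] [],
.mk (.mk 1020 0o76423501 0o76253401 0o245013) [.mk 1082 0o76425031 0o76351402 0o41352] [],
.mk (.mk 733 0o76543210 0o76543210 0o543210) [.mk 961 0o76541203 0o76540231 0o104235, .mk 1104
0o76542310 0o76542310 0o453120] [],
.mk (.mk 733 0o76234501 0o76234501 0o245013) [.mk 763 0o76123540 0o76213450 0o345012, .mk 828
0o76345210 0o76345210 0o453201]
[0x2064ca2058720449600cd01e86020c210c0512c1e80053309072000980cc10804330743014001569421c021208701c561045e90c8421d06308c03484f3484704c4c3110d728430300150e800083226ac],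
.mk (.mk 763 0o76435210 0o76354210 0o453201) [.mk 1150 0o76521403 0o76520431 0o125430, .mk 1119
0o76254103 0o76430521 0o42153] [],
.mk (.mk 1029 0o76153024 0o76403152 0o24351) [.mk 751 0o76543210 0o76543210 0o543210, .mk 1118
0o76214350 0o76132540 0o134052, .mk 960 0o76315240 0o76315240 0o314502]
[0x1043a0e03281c0989b72c2081b801122028570e11a9ca0419a45266511488150e0784b01321c20408b1004606407d1340c62802124234048581de4ac95f99022210201880082584800321a58b0d04190e400083690e0],
.mk (.mk 752 0o76435120 0o76354120 0o351402) [.mk 1088 0o76241035 0o76041532 0o120345] [],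
.mk (.mk 1003 0o76031452 0o76124035 0o12435) [.mk 951 0o76543210 0o76543210 0o543210, .mk 1118
0o76214350 0o76132540 0o134052]
[0x755c105014024f2180011d0090208a12510004605c25030e8145c441883a35440457c2408387844404c5301861a8680440510a810100116d4a0400030d4150c400082e90e0],
.mk (.mk 1012 0o76452310 0o76452310 0o453120) [.mk 960 0o76243105 0o76043521 0o53241, .mk 1097
0o76543210 0o76543210 0o543210]
[0x4805502612448002d1ac4856053775fc22c23105f465219140c692400418a030d988a433511096614481ca8c73612cc824bc8c404400113c120b0f0840110d800082d18d9],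
.mk (.mk 785 0o76543210 0o76543210 0o543210) [.mk 1168 0o76503241 0o76513204 0o310542] [],
.mk (.mk 673 0o76543210 0o76543210 0o543210) [.mk 840 0o76435210 0o76354210 0o453210] [],
.mk (.mk 795 0o76543210 0o76543210 0o543210) [.mk 960 0o76452310 0o76452310 0o453120, .mk 1010
0o76152430 0o76421350 0o143052] [],
.mk (.mk 1010 0o76302415 0o76025314 0o31524) [.mk 810 0o76542013 0o76540312 0o140253, .mk 848
0o76453210 0o76453210 0o453210] [],
.mk (.mk 932 0o76301542 0o76215034 0o230154) [.mk 1113 0o76543210 0o76543210 0o452301, .mk 932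
0o76301542 0o76215034 0o321045] [],
.mk (.mk 998 0o76052431 0o76421305 0o42315) [.mk 860 0o76543210 0o76543210 0o543210] [],
.mk (.mk 869 0o76451032 0o76451032 0o250341) [.mk 1067 0o76210345 0o76012543 0o15243, .mk 1067
0o76245310 0o76342510 0o345210] [],
.mk (.mk 786 0o76315042 0o76315042 0o205143) [.mk 1118 0o76542310 0o76542310 0o453120, .mk 888
0o76543210 0o76543210 0o543210]
[0x8090490801448c0803806a88143909a440c90010011408458401080e5302a0a0038805438420c30460d40000479028458412c10008019410839c085b1400038038042c000280580084104000780194d0000834a6ac],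
.mk (.mk 751 0o76543210 0o76543210 0o543210) [.mk 1121 0o76214350 0o76132540 0o134052, .mk 1145
0o76310452 0o76125043 0o15423]
[0x100c12c08204cc12c06400111040e50c41059081010561400008467c82a32040904166480d37cd1301090000fc19c42164f004ac400070315f42cc720d89846450088522d4150dc0008329160],
.mk (.mk 785 0o76543210 0o76543210 0o543210) [.mk 1133 0o76435210 0o76354210 0o453210] [],
.mk (.mk 1047 0o76321450 0o76125430 0o230514) [.mk 1102 0o76453210 0o76453210 0o453210, .mk 1120
0o76431052 0o76154032 0o105324] [],
.mk (.mk 869 0o76135204 0o76304251 0o214053) [.mk 1067 0o76452031 0o76451302 0o52143, .mk 939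
0o76425310 0o76352410 0o354210] [],
.mk (.mk 1016 0o76453210 0o76453210 0o354120) [.mk 1108 0o76302451 0o76125304 0o12534, .mk 810
0o76453210 0o76453210 0o453210] [],
.mk (.mk 797 0o76354210 0o76435210 0o453210) [.mk 1050 0o76041532 0o76241035 0o32415] [],
.mk (.mk 818 0o76453210 0o76453210 0o453210) [.mk 929 0o76543210 0o76543210 0o543210, .mk 1082
0o76435210 0o76354210 0o254310] [],
.mk (.mk 818 0o76543210 0o76543210 0o543210) [.mk 951 0o76021534 0o76201435 0o13245, .mk 782
0o76432150 0o76154320 0o354201]
[0x180180c75800801cc0520000882d388a000523704272862210c21509803a8e0020f12908161823a9c0018009f9c2200d82a8021c1e6328640305a068060400114c8000829510a],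
.mk (.mk 570 0o76543210 0o76543210 0o543210) [.mk 845 0o76524013 0o76530412 0o201534, .mk 754
0o76521430 0o76521430 0o345102] [],
.mk (.mk 826 0o76534210 0o76534210 0o453120) [.mk 1176 0o76312504 0o76205341 0o205431, .mk 884
0o76543210 0o76543210 0o543210]
[0x21e410063da284e211c888f40631e9202a848024172017a8450f50133996a01400ec088258ec1025c78628060c58022e212c060402b008380110c800082aa55a],
.mk (.mk 818 0o76534201 0o76534201 0o250314) [.mk 884 0o76542310 0o76542310 0o453210, .mk 526
0o76543210 0o76543210 0o543210] [],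
.mk (.mk 818 0o76324510 0o76235410 0o453210) [.mk 1076 0o76342501 0o76245301 0o45213, .mk 1046
0o76423510 0o76253410 0o154230] [],
.mk (.mk 814 0o76543210 0o76543210 0o543210) [.mk 1057 0o76453210 0o76453210 0o254130, .mk 1132
0o76432501 0o76254301 0o54213] [],
.mk (.mk 1013 0o76503412 0o76523014 0o302541) [.mk 952 0o76502413 0o76520314 0o32451, .mk 1122
0o76452310 0o76452310 0o453120] [],
.mk (.mk 846 0o76125043 0o76310452 0o105342) [.mk 1184 0o76534210 0o76534210 0o453210, .mk 1110
0o76542310 0o76542310 0o254310] [],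
.mk (.mk 1061 0o76543210 0o76543210 0o254130) [.mk 1184 0o76435210 0o76354210 0o453210, .mk 934
0o76512034 0o76501342 0o105234] [],
.mk (.mk 802 0o76523140 0o76513420 0o345021) [.mk 1011 0o76342510 0o76245310 0o254310, .mk 949
0o76325041 0o76315402 0o140532] [],
.mk (.mk 1147 0o76542310 0o76542310 0o254310) [.mk 949 0o76512340 0o76512340 0o345021, .mk 1182
0o76543210 0o76543210 0o453210] [],
.mk (.mk 596 0o76543210 0o76543210 0o543210) [.mk 1037 0o76532410 0o76524310 0o254310, .mk 949
0o76354021 0o76435102 0o41352] [],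
.mk (.mk 783 0o76421530 0o76251430 0o345102) [.mk 1102 0o76534201 0o76534201 0o152430, .mk 868
0o76432501 0o76254301 0o251430] []]

theorem v3100 : chkL Tab.T5 Tab.RT Tab.reps Tab.E2 Ker.cert7 D3100 3100 = true := by
  decide +kernel

end CR.C2
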