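import Pool.Agent.Lib.MP_6f5d36_co.Ker
import Pool.Agent.Lib.MP_6f5d36_co.RTab
import Pool.Agent.Lib.MP_6f5d36_co.C2.KerC
import Pool.Agent.Lib.MP_6f5d36_co.C2.ETab

/-! MP_6f5d36_co, case (ii), level 7 : the ranks 3200, ..., 3299 -/

set_option autoImplicit false
set_option maxRecDepth 100000

noncomputable section

namespace CR.C2

/-- the frames and certificates of the ranks 3200, ..., 3299 -/
def D3200 : List It :=
[.mk (.mk 792 0o76543210 0o76543210 0o543210) [.mk 1065 0o76425130 0o76351420 0o23541, .mk 1122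
0o76321540 0o76215430 0o145230] [],
.mk (.mk 651 0o76543120 0o76543120 0o452310) [.mk 960 0o76325410 0o76325410 0o215403] [],
.mk (.mk 1044 0o76452310 0o76452310 0o453120) [.mk 997 0o76321450 0o76125430 0o154230, .mk 906
0o76325140 0o76315420 0o254310] [],
.mk (.mk 987 0o76352104 0o76405321 0o125403) [.mk 807 0o76543210 0o76543210 0o543210, .mk 906
0o76103425 0o76023154 0o31452] [],
.mk (.mk 1036 0o76435210 0o76354210 0o453210) [.mk 960 0o76510432 0o76521043 0o123054] [],
.mk (.mk 804 0o76435210 0o76354210 0o453210) [.mk 1078 0o76402351 0o76152304 0o234105] [],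
.mk (.mk 751 0o76524301 0o76532401 0o152340) [.mk 1172 0o76523410 0o76523410 0o354120, .mk 1078
0o76341520 0o76245130 0o21534] [],
.mk (.mk 769 0o76542013 0o76540312 0o305124) [.mk 745 0o76543210 0o76543210 0o543210, .mk 1097
0o76542310 0o76542310 0o453120]
[0x1141401885001c80482845481802083413000088c43cc18518ca05700184e04b40e94724a0e2401700b058c1884954483617c864118c00de00008340200500490a401c0d640004b528464048544821c74825c300ecc1d0e4000838b72d,
0x40850fac2408140da4201c4c40199b0d2461b8a4482440100986b09c105cc08ac0d8126148d5584455894c802321a95607700081c0818064c61e158040110d800082cb92d],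
.mk (.mk 769 0o76354021 0o76435102 0o250431) [.mk 1092 0o76034251 0o76134205 0o21345, .mk 961
0o76231540 0o76214530 0o145230]
[0x950eac9978220240540f82b00226513389534261cb82050a2b14309961c0544727a1d427d4ba87406024008b20244ec4901c82a11481083114c281c00002f4b41fc861415512119807e9b0bc2aa1021b40190ec000836a25c,
0x95d0382002806827a0400100721b4414b81070a63583005282910040c100000467025400018038110540a4e10c5088300e08451022040d0c208024405a0223c110e308154c400082ea2dc],
.mk (.mk 758 0o76130524 0o76204153 0o203154) [.mk 1090 0o76543210 0o76543210 0o543210, .mk 1079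
0o76435210 0o76354210 0o453210] [],
.mk (.mk 1081 0o76041325 0o76042135 0o201354) [.mk 1079 0o76435210 0o76354210 0o453210, .mk 917
0o76324150 0o76135420 0o154320] [],
.mk (.mk 579 0o76534210 0o76534210 0o453210) [.mk 1125 0o76543210 0o76543210 0o543210, .mk 883
0o76412305 0o76052341 0o34152] [],
.mk (.mk 671 0o76432510 0o76254310 0o254301) [.mk 1131 0o76315420 0o76325140 0o134502] [],
.mk (.mk 1007 0o76014532 0o76231045 0o213405) [.mk 1150 0o76452301 0o76452301 0o53142, .mk 992
0o76524301 0o76532401 0o350412] [],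
.mk (.mk 825 0o76410235 0o76051243 0o51243) [.mk 1121 0o76534102 0o76534021 0o241503] [],
.mk (.mk 848 0o76531204 0o76504231 0o123504) [.mk 942 0o76451203 0o76450231 0o213504, .mk 946
0o76432510 0o76254310 0o354210] [],
.mk (.mk 1047 0o76103452 0o76123054 0o21453) [.mk 997 0o76543210 0o76543210 0o354120, .mk 776
0o76543210 0o76543210 0o543210] [],
.mk (.mk 881 0o76543210 0o76543210 0o543210) [.mk 1117 0o76314502 0o76235041 0o25341, .mk 930
0o76542310 0o76542310 0o354210] [],
.mk (.mk 1071 0o76425031 0o76351402 0o41352) [.mk 930 0o76543210 0o76543210 0o453210, .mk 1130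
0o76403152 0o76153024 0o130524] [],
.mk (.mk 1057 0o76543120 0o76543120 0o154320) [.mk 1169 0o76543210 0o76543210 0o453210, .mk 1130
0o76542130 0o76541320 0o53142] [],
.mk (.mk 807 0o76432510 0o76254310 0o254310) [.mk 844 0o76543210 0o76543210 0o543210, .mk 1153
0o76403521 0o76253104 0o34125] [],
.mk (.mk 708 0o76453102 0o76453021 0o251403) [.mk 1131 0o76340521 0o76245103 0o140532] [],
.mk (.mk 866 0o76251034 0o76401532 0o15234) [.mk 1105 0o76543210 0o76543210 0o254130, .mk 1106
0o76453021 0o76453102 0o150423] [],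
.mk (.mk 718 0o76312405 0o76025341 0o34512) [.mk 863 0o76543210 0o76543210 0o543210, .mk 1138
0o76542103 0o76540321 0o142053] [],
.mk (.mk 605 0o76015432 0o76321045 0o320415) [.mk 1051 0o76541320 0o76542130 0o451320, .mk 957
0o76043521 0o76243105 0o103254] [],
.mk (.mk 857 0o76543210 0o76543210 0o543210) [.mk 993 0o76324051 0o76135402 0o325104]
[0x6200881540820e10218404f820401d204900080c40810a8c0ca6431d416ac7468250e0062c00228112196003405627302e935407a28010e04006a800b1f9047c7721140340cac0c207611a02204343750b5844808610b088801d4dc000839d113,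
0x124041074c70034af808681d81f4b14b00180ac0a401050c8c642045b81082a07200589f811a1411053403cc2c02d4600940f000028c128c9426905807c1d8584c4480c4740348a007001bc10c7001401d0d4000839d153],
.mk (.mk 1075 0o76102543 0o76210354 0o13542) [.mk 1175 0o76102453 0o76120354 0o103542, .mk 889
0o76542310 0o76542310 0o453120] [],
.mk (.mk 555 0o76543210 0o76543210 0o543210) [.mk 1023 0o76530421 0o76524103 0o35124, .mk 958
0o76451302 0o76452031 0o132054] [],
.mk (.mk 845 0o76543210 0o76543210 0o543210) [.mk 1065 0o76352410 0o76425310 0o254310, .mk 950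
0o76345210 0o76345210 0o453210] [],
.mk (.mk 781 0o76543210 0o76543210 0o543210) [.mk 1044 0o76531402 0o76524031 0o52413, .mk 911
0o76435210 0o76354210 0o453210] [],
.mk (.mk 1121 0o76350214 0o76405213 0o203541) [.mk 958 0o76435021 0o76354102 0o150432, .mk 1169
0o76534120 0o76534120 0o453120] [],
.mk (.mk 1095 0o76405132 0o76351024 0o150324) [.mk 1165 0o76203154 0o76103524 0o15324, .mk 1114
0o76420513 0o76250413 0o241035] [],
.mk (.mk 1075 0o76041235 0o76041235 0o120354) [.mk 958 0o76543210 0o76543210 0o453210, .mk 1073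
0o76021435 0o76021435 0o201354] [],
.mk (.mk 1047 0o76502431 0o76521304 0o34125) [.mk 934 0o76543120 0o76543120 0o453120, .mk 1188
0o76543210 0o76543210 0o543210] [],
.mk (.mk 788 0o76542310 0o76542310 0o254310) [.mk 936 0o76352041 0o76415302 0o150423, .mk 1184
0o76543210 0o76543210 0o453210] [],
.mk (.mk 906 0o76254103 0o76430521 0o204513) [.mk 927 0o76345210 0o76345210 0o453210, .mk 959
0o76405231 0o76351204 0o31452] [],
.mk (.mk 1033 0o76421503 0o76250431 0o132054) [.mk 1147 0o76342510 0o76245310 0o254310, .mk 927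
0o76543120 0o76543120 0o453120, .mk 1130 0o76425013 0o76350412 0o41253]
[0x4405423041090118c3ac140a424460411081000000b094b208498200091c070c108600883340006010480420807012d9091020020280000c7044e90e082030c710400c1542000154cc0008309acc],
.mk (.mk 727 0o76534120 0o76534120 0o453120) [.mk 1023 0o76152304 0o76402351 0o205431, .mk 1072
0o76234105 0o76034521 0o14235, .mk 1109 0o76325104 0o76305421 0o104325]
[0x2002a304028022140050782028c015019002001040304a10640866007000005629c010a00c8000188a34c000070086002da9a028528c01c209c22021ace18413800ad701e11c0084154d00008312ae1,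
0x15050a1010a109c6001800004100cc00254060c003180414601111851945273e4250c181545411d44004c013d40132406200c1390306bc31144360c4c010917000150d0000831cb1c],
.mk (.mk 1072 0o76431502 0o76254031 0o231504) [.mk 885 0o76543210 0o76543210 0o453210, .mk 1104
0o76452013 0o76450312 0o140253] [],
.mk (.mk 1073 0o76403152 0o76153024 0o130524) [.mk 1099 0o76301524 0o76205134 0o203415, .mk 1129
0o76201435 0o76021534 0o23145] [],
.mk (.mk 872 0o76435120 0o76354120 0o453120) [.mk 1138 0o76451320 0o76452130 0o253401, .mk 1181
0o76534021 0o76534102 0o51342] [],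
.mk (.mk 1055 0o76012435 0o76021345 0o201354) [.mk 1065 0o76215043 0o76310542 0o14352, .mk 1137
0o76014235 0o76031245 0o102534] [],
.mk (.mk 1033 0o76402531 0o76251304 0o34125) [.mk 950 0o76543210 0o76543210 0o543210, .mk 958
0o76410352 0o76152043 0o132054, .mk 638 0o76512430 0o76521340 0o345012] [],
.mk (.mk 820 0o76435210 0o76354210 0o453210) [.mk 1172 0o76134025 0o76034152 0o15243, .mk 852
0o76514230 0o76531240 0o345102] [],
.mk (.mk 763 0o76513420 0o76523140 0o345210) [.mk 820 0o76435120 0o76354120 0o453120, .mk 1097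
0o76403521 0o76253104 0o234105] [],
.mk (.mk 720 0o76435210 0o76354210 0o453201) [.mk 1159 0o76453201 0o76453201 0o254103, .mk 816
0o76514320 0o76532140 0o345120] [],
.mk (.mk 827 0o76241350 0o76142530 0o345120) [.mk 1156 0o76502134 0o76501324 0o15234, .mk 860
0o76502134 0o76501324 0o105234] [],
.mk (.mk 1006 0o76312054 0o76105342 0o14352) [.mk 1053 0o76420153 0o76150423 0o231045, .mk 958
0o76534210 0o76534210 0o453201] [],
.mk (.mk 836 0o76435120 0o76354120 0o453120) [.mk 1088 0o76451320 0o76452130 0o253401, .mk 958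
0o76532041 0o76514302 0o150423] [],
.mk (.mk 774 0o76452310 0o76452310 0o254310) [.mk 1181 0o76435021 0o76354102 0o41352, .mk 1186
0o76541230 0o76541230 0o345201] [],
.mk (.mk 1042 0o76120534 0o76201453 0o123054) [.mk 1155 0o76310524 0o76205143 0o23145, .mk 904
0o76210534 0o76201543 0o210354] [],
.mk (.mk 935 0o76435210 0o76354210 0o453210) [.mk 1126 0o76543210 0o76543210 0o254130, .mk 1154
0o76314025 0o76035142 0o15243] [],
.mk (.mk 749 0o76320514 0o76205413 0o204135) [.mk 1086 0o76520314 0o76502413 0o24135] [],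
.mk (.mk 802 0o76435120 0o76354120 0o453120) [.mk 1138 0o76451320 0o76452130 0o253401, .mk 949
0o76453021 0o76453102 0o51342] [],
.mk (.mk 1076 0o76452013 0o76450312 0o251034) [.mk 936 0o76543210 0o76543210 0o543210, .mk 1113
0o76215043 0o76310542 0o14532] [],
.mk (.mk 985 0o76543210 0o76543210 0o453210) [.mk 807 0o76543201 0o76543201 0o254103] [],
.mk (.mk 985 0o76412305 0o76052341 0o34152) [.mk 1073 0o76401253 0o76150234 0o230145, .mk 879
0o76512403 0o76520341 0o304152] [],
.mk (.mk 1041 0o76534210 0o76534210 0o152403) [.mk 868 0o76432510 0o76254310 0o254130, .mk 1158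
0o76204351 0o76132504 0o12345] [],
.mk (.mk 820 0o76125043 0o76310452 0o104253) [.mk 1193 0o76542310 0o76542310 0o254310, .mk 898
0o76543210 0o76543210 0o543210] [],
.mk (.mk 1014 0o76421053 0o76150432 0o231054) [.mk 1035 0o76205143 0o76310524 0o105324] [],
.mk (.mk 1060 0o76210453 0o76120543 0o231054) [.mk 1079 0o76230145 0o76014523 0o102435, .mk 1125
0o76250134 0o76401523 0o14235] [],
.mk (.mk 800 0o76543210 0o76543210 0o543210) [.mk 1065 0o76534210 0o76534210 0o453120, .mk 906
0o76412305 0o76052341 0o35421] [],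
.mk (.mk 889 0o76413250 0o76153240 0o12354) [.mk 1065 0o76543201 0o76543201 0o251340, .mk 924
0o76532401 0o76524301 0o152430] [],
.mk (.mk 1011 0o76541203 0o76540231 0o23514) [.mk 817 0o76451203 0o76450231 0o203514] [],
.mk (.mk 1001 0o76420135 0o76051423 0o103425) [.mk 1033 0o76143520 0o76243150 0o342501, .mk 825
0o76510234 0o76501243 0o14352] [],
.mk (.mk 818 0o76543210 0o76543210 0o543210) [.mk 1071 0o76541320 0o76542130 0o35421, .mk 639
0o76541230 0o76541230 0o354021] [],
.mk (.mk 689 0o76325014 0o76305412 0o201453) [.mk 1201 0o76543210 0o76543210 0o543210] [],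
.mk (.mk 620 0o76543210 0o76543210 0o543210) [.mk 1146 0o76543210 0o76543210 0o453210] [],
.mk (.mk 725 0o76543210 0o76543210 0o543210) [.mk 965 0o76415230 0o76351240 0o124053] [],
.mk (.mk 683 0o76453120 0o76453120 0o452310) [.mk 942 0o76524310 0o76532410 0o352401] [],
.mk (.mk 890 0o76435210 0o76354210 0o453210) [.mk 1099 0o76542310 0o76542310 0o254310, .mk 1197
0o76435021 0o76354102 0o150432] [],
.mk (.mk 984 0o76015324 0o76302145 0o203415) [.mk 1045 0o76152034 0o76401352 0o105243] [],
.mk (.mk 780 0o76351024 0o76405132 0o120345) [.mk 824 0o76531024 0o76504132 0o210345, .mk 1127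
0o76132054 0o76104352 0o13254] [],
.mk (.mk 851 0o76253140 0o76413520 0o345021) [.mk 1129 0o76432510 0o76254310 0o254310, .mk 890
0o76543210 0o76543210 0o543210] [],
.mk (.mk 862 0o76452310 0o76452310 0o254310) [.mk 1182 0o76215034 0o76301542 0o14523, .mk 898
0o76543210 0o76543210 0o543210] [],
.mk (.mk 703 0o76425310 0o76352410 0o254310) [.mk 881 0o76543210 0o76543210 0o543210, .mk 1169
0o76514230 0o76531240 0o345201] [],
.mk (.mk 880 0o76452310 0o76452310 0o254130) [.mk 940 0o76543210 0o76543210 0o453210, .mk 1150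
0o76543120 0o76543120 0o154320] [],
.mk (.mk 1007 0o76045312 0o76342015 0o204315) [.mk 1192 0o76432051 0o76154302 0o150432, .mk 872
0o76435120 0o76354120 0o453120] [],
.mk (.mk 1038 0o76210435 0o76021543 0o203154) [.mk 949 0o76543210 0o76543210 0o543210, .mk 1099
0o76410253 0o76150243 0o32154] [],
.mk (.mk 1013 0o76350124 0o76405123 0o203514) [.mk 930 0o76152043 0o76410352 0o15432] [],
.mk (.mk 1140 0o76012435 0o76021345 0o21345) [.mk 1140 0o76405132 0o76351024 0o150324, .mk 1108
0o76012435 0o76021345 0o201345, .mk 949 0o76543210 0o76543210 0o543210]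
[0x1e02a05c0500d0480bc0000d098a200000229e418618011123002b00f0824984310a10a704410161009048194f88000c6005808751c0805018a500020c518a20542049038124230163841042900154e0000832d0d4],
.mk (.mk 820 0o76435120 0o76354120 0o453120) [.mk 1068 0o76541320 0o76542130 0o253401, .mk 1177
0o76453021 0o76453102 0o51342] [],
.mk (.mk 733 0o76405123 0o76350124 0o140235) [.mk 1150 0o76305124 0o76305124 0o14325]
[0x604443018044847262948360008a0962030900821110432800920914c88085f94c2007410c0421735854065e018884ef308904829008680110c4000829075a,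
0xc0e02c44010034468011c880184900c44254462258944c00119cb20a0220404355410116400440301da900043048f4ce910490832c42001c5138c2706cc700003840f0680150dc0008318499],
.mk (.mk 1036 0o76530412 0o76524013 0o250134) [.mk 941 0o76543210 0o76543210 0o543210, .mk 1197
0o76453210 0o76453210 0o453210] [],
.mk (.mk 1036 0o76423501 0o76253401 0o240531) [.mk 864 0o76534210 0o76534210 0o453210, .mk 1046
0o76452301 0o76452301 0o42351]
[0x2204a0080200f00203c030400820c808854086508c388c084d100180d00001000058532a18642932042040600b01e92c8001400e038202c274581026282188300200c20800000088154d00008312a63],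
.mk (.mk 1078 0o76543021 0o76543102 0o140532) [.mk 1102 0o76423501 0o76253401 0o245013, .mk 1109
0o76425031 0o76351402 0o41352]
[0x4010a03900b022800e00c055822c298003017044003601c014881c00c20420282501002850c4903011c412014860023c2a114e0608320184143021c40c38a041ce201040100808a083080990c882480000000c2020011608e00198dc000836d4d4,
0x800005880905000380604d8498a400480708102985490780010018004284f04020014308200b044248801001a8b8031040c50cb2472000450800c1800480ac0100a8b9830418c98420020808430c184400194dc000836d6d4],
.mk (.mk 1108 0o76542310 0o76542310 0o254310) [.mk 934 0o76543120 0o76543120 0o453120, .mk 1169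
0o76215043 0o76310542 0o105423] [],
.mk (.mk 731 0o76451302 0o76452031 0o231054) [.mk 941 0o76521430 0o76521430 0o345201, .mk 1191
0o76435021 0o76354102 0o150432, .mk 1169 0o76543210 0o76543210 0o453210]
[0x1203a20264429000c400189058102510180225570180e015298703430130008a08019e06668298956104200802a7739ac8e0043298d000329948110cc00082e10e9],
.mk (.mk 656 0o76342510 0o76245310 0o254130) [.mk 931 0o76543210 0o76543210 0o543210, .mk 1169
0o76543210 0o76543210 0o453210] [],
.mk (.mk 790 0o76523140 0o76513420 0o345021) [.mk 1167 0o76435021 0o76354102 0o41325, .mk 783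
0o76325041 0o76315402 0o140532] [],
.mk (.mk 783 0o76235041 0o76314502 0o140523) [.mk 918 0o76253410 0o76423510 0o254130, .mk 1148
0o76153240 0o76413250 0o345201] [],
.mk (.mk 1015 0o76542310 0o76542310 0o254310) [.mk 872 0o76214053 0o76130542 0o105423, .mk 899
0o76431250 0o76154230 0o354201] [],
.mk (.mk 875 0o76120453 0o76120453 0o130245) [.mk 1046 0o76120453 0o76120453 0o31245, .mk 1148
0o76543210 0o76543210 0o543210] [],
.mk (.mk 1066 0o76452310 0o76452310 0o453120) [.mk 1134 0o76420153 0o76150423 0o104352, .mk 1123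
0o76125043 0o76310452 0o25431] [],
.mk (.mk 1123 0o76425013 0o76350412 0o152034) [.mk 936 0o76543210 0o76543210 0o543210, .mk 1114
0o76452013 0o76450312 0o251034] [],
.mk (.mk 830 0o76543210 0o76543210 0o543210) [.mk 1097 0o76541320 0o76542130 0o451320, .mk 1123
0o76543120 0o76543120 0o254310] [],
.mk (.mk 862 0o76354120 0o76435120 0o423501) [.mk 1123 0o76031452 0o76124035 0o104235, .mk 1072
0o76532410 0o76524310 0o354210] [],
.mk (.mk 785 0o76432501 0o76254301 0o254103) [.mk 1123 0o76140532 0o76241053 0o23154, .mk 796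
0o76543210 0o76543210 0o543210] [],
.mk (.mk 1131 0o76432510 0o76254310 0o354210) [.mk 951 0o76504123 0o76530124 0o13452, .mk 943
0o76352401 0o76425301 0o251430] [],
.mk (.mk 887 0o76543012 0o76543012 0o450123) [.mk 918 0o76412035 0o76051342 0o31245, .mk 1137
0o76543210 0o76543210 0o543210] []]

theorem v3200 : chkL Tab.T5 Tab.RT Tab.reps Tab.E2 Ker.cert7 D3200 3200 = true := by
  decide +kernel

end CR.C2
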