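import Pool.Agent.Lib.MP_6f5d36_co.Ker
import Pool.Agent.Lib.MP_6f5d36_co.RTab
import Pool.Agent.Lib.MP_6f5d36_co.C2.KerC
import Pool.Agent.Lib.MP_6f5d36_co.C2.ETab

/-! MP_6f5d36_co, case (ii), level 7 : the ranks 3300, ..., 3399 -/

set_option autoImplicit false
set_option maxRecDepth 100000

noncomputable section

namespace CR.C2

/-- the frames and certificates of the ranks 3300, ..., 3399 -/
def D3300 : List It :=
[.mk (.mk 778 0o76543210 0o76543210 0o543210) [.mk 1139 0o76354210 0o76435210 0o452301, .mk 808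
0o76512043 0o76510342 0o104523] [],
.mk (.mk 793 0o76541320 0o76542130 0o451320) [.mk 1096 0o76510234 0o76501243 0o51423, .mk 830
0o76543210 0o76543210 0o543210] [],
.mk (.mk 924 0o76543210 0o76543210 0o543210) [.mk 918 0o76452310 0o76452310 0o453120, .mk 1122
0o76421305 0o76052431 0o53142] [],
.mk (.mk 1082 0o76542310 0o76542310 0o254130) [.mk 1148 0o76543210 0o76543210 0o453210, .mk 1184
0o76354210 0o76435210 0o354102] [],
.mk (.mk 1062 0o76543210 0o76543210 0o453210) [.mk 951 0o76542310 0o76542310 0o254310, .mk 1113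
0o76213045 0o76013542 0o12534] [],
.mk (.mk 1062 0o76453120 0o76453120 0o453120) [.mk 1102 0o76435102 0o76354021 0o52413] [],
.mk (.mk 749 0o76430512 0o76254013 0o250134) [.mk 941 0o76543210 0o76543210 0o543210, .mk 1173
0o76201453 0o76120534 0o31254] [],
.mk (.mk 686 0o76504312 0o76532014 0o204315) [.mk 949 0o76345021 0o76345102 0o51324] [],
.mk (.mk 718 0o76431250 0o76154230 0o125043) [.mk 1046 0o76250143 0o76410523 0o14325] [],
.mk (.mk 1051 0o76512430 0o76521340 0o124503) [.mk 901 0o76432510 0o76254310 0o210543, .mk 1148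
0o76435210 0o76354210 0o453210] [],
.mk (.mk 819 0o76543210 0o76543210 0o543210) [.mk 933 0o76513420 0o76523140 0o214053, .mk 1038
0o76512430 0o76521340 0o124503] [],
.mk (.mk 846 0o76521430 0o76521430 0o435120) [.mk 1054 0o76543102 0o76543021 0o251430, .mk 1154
0o76132054 0o76104352 0o15324] [],
.mk (.mk 1072 0o76531402 0o76524031 0o231504) [.mk 1106 0o76534210 0o76534210 0o453201, .mk 949
0o76512340 0o76512340 0o345021] [],
.mk (.mk 828 0o76534021 0o76534102 0o41325) [.mk 959 0o76405123 0o76350124 0o201534, .mk 905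
0o76543210 0o76543210 0o543210] [],
.mk (.mk 718 0o76253410 0o76423510 0o254130) [.mk 949 0o76235041 0o76314502 0o140523, .mk 1062
0o76153240 0o76413250 0o345201] [],
.mk (.mk 1023 0o76342150 0o76145320 0o154230) [.mk 906 0o76431520 0o76254130 0o251403, .mk 1148
0o76543210 0o76543210 0o543210] [],
.mk (.mk 787 0o76045132 0o76341025 0o312405) [.mk 973 0o76543210 0o76543210 0o543210, .mk 906
0o76104235 0o76031254 0o23541] [],
.mk (.mk 831 0o76451320 0o76452130 0o451320) [.mk 1133 0o76325410 0o76325410 0o354210, .mk 1096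
0o76341520 0o76245130 0o154230] [],
.mk (.mk 1023 0o76425013 0o76350412 0o152034) [.mk 1073 0o76042135 0o76041325 0o201345, .mk 936
0o76543210 0o76543210 0o543210]
[0x40110001300002501000c280091ce0386b83401e41005882280708058971060140201700c930240802b41290004909ed150495809660420a4549322cc194110835801041014088601c154d4000832d0a3],
.mk (.mk 721 0o76543210 0o76543210 0o543210) [.mk 840 0o76453210 0o76453210 0o452310, .mk 889
0o76452310 0o76452310 0o354120] [],
.mk (.mk 557 0o76503421 0o76523104 0o243015) [.mk 1204 0o76513402 0o76523041 0o125430, .mk 855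
0o76543210 0o76543210 0o543210] [],
.mk (.mk 771 0o76014523 0o76230145 0o210435) [.mk 800 0o76215403 0o76320541 0o125340] [],
.mk (.mk 1053 0o76032451 0o76124305 0o24135) [.mk 1113 0o76543210 0o76543210 0o543210, .mk 1023
0o76410523 0o76250143 0o132054] [],
.mk (.mk 1090 0o76543210 0o76543210 0o543210) [.mk 1121 0o76032154 0o76104325 0o102453, .mk 1102
0o76023145 0o76013425 0o12543] [],
.mk (.mk 779 0o76543210 0o76543210 0o543210) [.mk 1015 0o76250341 0o76412503 0o134205] [],
.mk (.mk 1059 0o76412053 0o76150342 0o31245) [.mk 1190 0o76312054 0o76105342 0o103425, .mk 1095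
0o76421053 0o76150432 0o231054] [],
.mk (.mk 1059 0o76523410 0o76523410 0o254130) [.mk 890 0o76543210 0o76543210 0o543210, .mk 1177
0o76423051 0o76153402 0o140523] [],
.mk (.mk 605 0o76501432 0o76521034 0o103542) [.mk 1044 0o76541230 0o76541230 0o451230, .mk 901
0o76543210 0o76543210 0o543210] [],
.mk (.mk 779 0o76543210 0o76543210 0o543210) [.mk 1025 0o76431052 0o76154032 0o130254, .mk 1059
0o76421035 0o76051432 0o31254] [],
.mk (.mk 1081 0o76435210 0o76354210 0o453210) [.mk 1121 0o76021534 0o76201435 0o120354, .mk 862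
0o76012543 0o76210345 0o230145] [],
.mk (.mk 800 0o76453210 0o76453210 0o453120) [.mk 856 0o76543210 0o76543210 0o543210, .mk 833
0o76452301 0o76452301 0o251340] [],
.mk (.mk 800 0o76543210 0o76543210 0o453120) [.mk 1163 0o76543210 0o76543210 0o543210, .mk 833
0o76413205 0o76053241 0o34152] [],
.mk (.mk 850 0o76543210 0o76543210 0o543210) [.mk 1111 0o76453210 0o76453210 0o453210, .mk 897
0o76502341 0o76512304 0o12543] [],
.mk (.mk 1010 0o76543210 0o76543210 0o354120) [.mk 925 0o76543210 0o76543210 0o453210] [],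
.mk (.mk 1024 0o76542103 0o76540321 0o152043) [.mk 1096 0o76510324 0o76502143 0o41532, .mk 1088
0o76143520 0o76243150 0o342501] [],
.mk (.mk 1021 0o76524013 0o76530412 0o152034) [.mk 751 0o76502143 0o76510324 0o231045, .mk 785
0o76543210 0o76543210 0o543210] [],
.mk (.mk 820 0o76534120 0o76534120 0o453120) [.mk 1023 0o76542310 0o76542310 0o254310, .mk 1177
0o76354021 0o76435102 0o51342] [],
.mk (.mk 1045 0o76304521 0o76235104 0o243105) [.mk 865 0o76534210 0o76534210 0o453210] [],
.mk (.mk 845 0o76543210 0o76543210 0o543210) [.mk 887 0o76352410 0o76425310 0o254310, .mk 1181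
0o76435021 0o76354102 0o41352] [],
.mk (.mk 725 0o76543210 0o76543210 0o543210) [.mk 1082 0o76532410 0o76524310 0o254310, .mk 890
0o76451230 0o76451230 0o345201] [],
.mk (.mk 707 0o76450123 0o76450123 0o240135) [.mk 1082 0o76543210 0o76543210 0o543210] [],
.mk (.mk 1060 0o76402153 0o76150324 0o231045) [.mk 1050 0o76201354 0o76102534 0o13254, .mk 949
0o76543210 0o76543210 0o543210] [],
.mk (.mk 772 0o76354210 0o76435210 0o453210) [.mk 1009 0o76534120 0o76534120 0o253401, .mk 850
0o76501342 0o76512034 0o12354]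
[0xa029829c08c8fc014238180d8440528d00a188c0541500511881d914e05f85c24700807881200098580500208c0080418c081309885284c00310085700880501184981804101885600500194c80008315803],
.mk (.mk 1016 0o76125034 0o76301452 0o123054) [.mk 1138 0o76253410 0o76423510 0o345120, .mk 850
0o76543210 0o76543210 0o543210]
[0x4e10e008820a9c5a31c045630000220128024106100000e08e202f008801d80ce06b003a15d809012a849420a08d200c0a80d23943142a300e20cd82a513881af1704fe40d806c1220474711843620c085c40a148200b00214c8000838a4ab],
.mk (.mk 601 0o76543210 0o76543210 0o452310) [.mk 1187 0o76351402 0o76425031 0o34512, .mk 886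
0o76351402 0o76425031 0o304512] [],
.mk (.mk 823 0o76453210 0o76453210 0o453210) [.mk 1150 0o76312045 0o76015342 0o13425, .mk 751
0o76251043 0o76410532 0o231054] [],
.mk (.mk 1047 0o76532410 0o76524310 0o345210) [.mk 1041 0o76201345 0o76012534 0o15324] [],
.mk (.mk 791 0o76543210 0o76543210 0o543210) [.mk 876 0o76453210 0o76453210 0o452310, .mk 946
0o76351402 0o76425031 0o305241] [],
.mk (.mk 1002 0o76435102 0o76354021 0o350142) [.mk 925 0o76542310 0o76542310 0o453120, .mk 946
0o76314025 0o76035142 0o25431] [],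
.mk (.mk 660 0o76150324 0o76402153 0o203154) [.mk 808 0o76140235 0o76041253 0o23514] [],
.mk (.mk 1038 0o76504231 0o76531204 0o130452) [.mk 862 0o76534120 0o76534120 0o423501, .mk 957
0o76504321 0o76532104 0o310542] [],
.mk (.mk 1014 0o76310452 0o76125043 0o104352) [.mk 1078 0o76210543 0o76210543 0o14532] [],
.mk (.mk 723 0o76453210 0o76453210 0o453210) [.mk 1156 0o76452103 0o76450321 0o42315] [],
.mk (.mk 1082 0o76013452 0o76123045 0o12354) [.mk 1149 0o76543210 0o76543210 0o543210, .mk 922
0o76425310 0o76352410 0o354210] [],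
.mk (.mk 807 0o76324510 0o76235410 0o354210) [.mk 1032 0o76541320 0o76542130 0o451320, .mk 857
0o76315402 0o76325041 0o231504]
[0xcd1d8b1c545349080b4014620405055473c62e24404c0440493d16c4c09500588290a8048140c180dd0000086f848c0fc5bc804ce0c5d04440405c44258d6f48b482d15dc044844d0c884d80ac0001b09b001d0dc000838070a,
0x1f04b04c2084b81b022628020900909500c8c1130910c78c91160100199018a18c05bc401a0001008521620c8988562c0070090401803c2409879a2a8428020d2004090061be028058c154d4000831a343],
.mk (.mk 807 0o76250134 0o76401523 0o204135) [.mk 1138 0o76253410 0o76423510 0o345120]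
[0x1407412d1049818404025012084c406129019801c00a42050c08b8c22219009801c634d05207193841810908b896420010004a94a4e54227084041300c40b001816421602271e15c400421c0919c9c21860f096041d4d0000839b881,
0x41880640980e0e82282001f332078c50d310232d03800158100628441227219584d208618a40508024240385f1d0b2c0a0842a2100038c90ce5d04a83000c5900180c38800c0088154d000083234eb],
.mk (.mk 829 0o76534210 0o76534210 0o452310) [.mk 1156 0o76532104 0o76504321 0o45231, .mk 1142
0o76523410 0o76523410 0o254130] [],
.mk (.mk 854 0o76542310 0o76542310 0o453120) [.mk 1141 0o76341520 0o76245130 0o154230, .mk 1065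
0o76341205 0o76045231 0o43152] [],
.mk (.mk 785 0o76514203 0o76530241 0o123504) [.mk 1157 0o76514203 0o76530241 0o215340, .mk 1150
0o76512034 0o76501342 0o15432] [],
.mk (.mk 977 0o76132504 0o76204351 0o34251) [.mk 860 0o76543210 0o76543210 0o543210] [],
.mk (.mk 887 0o76142530 0o76241350 0o204513) [.mk 1065 0o76152340 0o76412350 0o24153, .mk 910
0o76345210 0o76345210 0o452301] [],
.mk (.mk 887 0o76543210 0o76543210 0o543210) [.mk 1065 0o76534210 0o76534210 0o453120, .mk 960
0o76521340 0o76512430 0o325401] [],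
.mk (.mk 759 0o76243510 0o76243510 0o125403) [.mk 1080 0o76453120 0o76453120 0o452310, .mk 1037
0o76245310 0o76342510 0o215403] [],
.mk (.mk 1002 0o76351402 0o76425031 0o251340) [.mk 1055 0o76145230 0o76341250 0o143052, .mk 910
0o76345210 0o76345210 0o453210] [],
.mk (.mk 1033 0o76204531 0o76231504 0o134025) [.mk 860 0o76543210 0o76543210 0o543210] [],
.mk (.mk 1076 0o76432510 0o76254310 0o254310) [.mk 907 0o76543210 0o76543210 0o543210, .mk 910
0o76512034 0o76501342 0o13524] [],
.mk (.mk 1004 0o76052314 0o76402315 0o123405) [.mk 960 0o76423510 0o76253410 0o354120] [],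
.mk (.mk 910 0o76435210 0o76354210 0o452301) [.mk 1138 0o76503124 0o76503124 0o301452, .mk 868
0o76543210 0o76543210 0o543210] [],
.mk (.mk 827 0o76345210 0o76345210 0o453201) [.mk 885 0o76543210 0o76543210 0o543210, .mk 930
0o76245103 0o76340521 0o13542] [],
.mk (.mk 1030 0o76543210 0o76543210 0o453210) [.mk 925 0o76403251 0o76153204 0o130542, .mk 786
0o76502341 0o76512304 0o310452]
[0x508594988d08130010280a88800b0c68860800098418028d48c901284090684010010788000608108000b18d8ca0480a990100404881b0470c6842005a069cf0c286580e80001c8d8191801104388dc800194d800083482ed,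
0x62091017c34a30001001086401a22b0911cb0200b02180044963607a20c080da84203701047c6b010a08c8c2403230e1d180400123aa0820314622108147004423c00e0e58a3084e3a600500c47a602d02701e000202900c801d4dc0008388624],
.mk (.mk 822 0o76425103 0o76350421 0o123504) [.mk 1168 0o76532410 0o76524310 0o354210, .mk 860
0o76543210 0o76543210 0o543210] [],
.mk (.mk 1059 0o76140352 0o76142053 0o21345) [.mk 1082 0o76543210 0o76543210 0o543210, .mk 965
0o76453210 0o76453210 0o453210] [],
.mk (.mk 876 0o76543210 0o76543210 0o543210) [.mk 1161 0o76241305 0o76042531 0o35142, .mk 1079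
0o76435210 0o76354210 0o452310] [],
.mk (.mk 857 0o76543210 0o76543210 0o543210) [.mk 1147 0o76310542 0o76215043 0o105432] [],
.mk (.mk 665 0o76530124 0o76504123 0o401523) [.mk 752 0o76205341 0o76312504 0o324015] [],
.mk (.mk 787 0o76453210 0o76453210 0o453210) [.mk 1061 0o76034215 0o76034215 0o31452] [],
.mk (.mk 711 0o76325410 0o76325410 0o254310) [.mk 940 0o76154230 0o76431250 0o345201] [],
.mk (.mk 905 0o76543210 0o76543210 0o543210) [.mk 959 0o76425310 0o76352410 0o254130, .mk 940
0o76435120 0o76354120 0o453120] [],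
.mk (.mk 905 0o76543210 0o76543210 0o543210) [.mk 1152 0o76425310 0o76352410 0o254130, .mk 796
0o76251340 0o76412530 0o345012] [],
.mk (.mk 1046 0o76542310 0o76542310 0o254130) [.mk 934 0o76543120 0o76543120 0o453120, .mk 1126
0o76543120 0o76543120 0o53412, .mk 640 0o76543210 0o76543210 0o543210] [],
.mk (.mk 707 0o76530421 0o76524103 0o230541) [.mk 827 0o76435021 0o76354102 0o150423] [],
.mk (.mk 820 0o76543210 0o76543210 0o543210) [.mk 966 0o76320154 0o76105423 0o103542, .mk 836
0o76354210 0o76435210 0o453210] [],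
.mk (.mk 1060 0o76324051 0o76135402 0o235014) [.mk 1104 0o76452310 0o76452310 0o453120, .mk 954
0o76543210 0o76543210 0o543210] [],
.mk (.mk 747 0o76543210 0o76543210 0o543210) [.mk 887 0o76423510 0o76253410 0o354210] [],
.mk (.mk 887 0o76543210 0o76543210 0o543210) [.mk 1092 0o76534210 0o76534210 0o453120, .mk 952
0o76521340 0o76512430 0o325401] [],
.mk (.mk 785 0o76534210 0o76534210 0o452301) [.mk 1168 0o76534102 0o76534021 0o152403, .mk 997
0o76524310 0o76532410 0o345120] [],
.mk (.mk 901 0o76234501 0o76234501 0o245013) [.mk 1136 0o76435210 0o76354210 0o453210, .mk 1057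
0o76523401 0o76523401 0o120435] [],
.mk (.mk 883 0o76425310 0o76352410 0o354210) [.mk 1057 0o76532140 0o76514320 0o143502, .mk 1141
0o76315042 0o76315042 0o24531] [],
.mk (.mk 767 0o76543210 0o76543210 0o453210) [.mk 1109 0o76532041 0o76514302 0o24153, .mk 895
0o76523041 0o76513402 0o240513] [],
.mk (.mk 548 0o76543210 0o76543210 0o543210) [.mk 822 0o76452103 0o76450321 0o123504] [],
.mk (.mk 1038 0o76214035 0o76031542 0o213054) [.mk 1147 0o76302154 0o76105324 0o15324, .mk 949
0o76543210 0o76543210 0o543210] [],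
.mk (.mk 828 0o76125034 0o76301452 0o105423) [.mk 1038 0o76235104 0o76304521 0o215430, .mk 949
0o76435210 0o76354210 0o453210] [],
.mk (.mk 1014 0o76420153 0o76150423 0o230154) [.mk 1130 0o76410253 0o76150243 0o130245, .mk 949
0o76543210 0o76543210 0o543210] [],
.mk (.mk 1005 0o76421350 0o76152430 0o135042) [.mk 1161 0o76543210 0o76543210 0o543210, .mk 1158
0o76032451 0o76124305 0o24135] [],
.mk (.mk 724 0o76543210 0o76543210 0o543210) [.mk 1039 0o76354102 0o76435021 0o45231, .mk 1014
0o76532410 0o76524310 0o354210] [],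
.mk (.mk 999 0o76543210 0o76543210 0o543210) [.mk 1175 0o76302451 0o76125304 0o130524] [],
.mk (.mk 985 0o76421350 0o76152430 0o135042) [.mk 751 0o76210543 0o76210543 0o231054, .mk 1107
0o76345210 0o76345210 0o452301] [],
.mk (.mk 1103 0o76543210 0o76543210 0o254310) [.mk 1147 0o76452130 0o76451320 0o53142, .mk 953
0o76452130 0o76451320 0o145230] [],
.mk (.mk 1009 0o76541320 0o76542130 0o351402) [.mk 1028 0o76345210 0o76345210 0o453210] [],
.mk (.mk 817 0o76135402 0o76324051 0o125340) [.mk 946 0o76134502 0o76234051 0o215340, .mk 880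
0o76043521 0o76243105 0o324105] []]

theorem v3300 : chkL Tab.T5 Tab.RT Tab.reps Tab.E2 Ker.cert7 D3300 3300 = true := by
  decide +kernel

end CR.C2
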