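import Pool.Agent.Lib.MP_6f5d36_co.Ker
import Pool.Agent.Lib.MP_6f5d36_co.RTab
import Pool.Agent.Lib.MP_6f5d36_co.C2.KerC
import Pool.Agent.Lib.MP_6f5d36_co.C2.ETab

/-! MP_6f5d36_co, case (ii), level 7 : the ranks 3400, ..., 3499 -/

set_option autoImplicit false
set_option maxRecDepth 100000

noncomputable section

namespace CR.C2

/-- the frames and certificates of the ranks 3400, ..., 3499 -/
def D3400 : List It :=
[.mk (.mk 625 0o76543210 0o76543210 0o543210) [.mk 953 0o76435210 0o76354210 0o453210, .mk 1093
0o76541032 0o76541032 0o150342] [],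
.mk (.mk 887 0o76543210 0o76543210 0o453120) [.mk 1093 0o76150243 0o76410253 0o12543, .mk 626
0o76543210 0o76543210 0o543210] [],
.mk (.mk 985 0o76430125 0o76054123 0o51243) [.mk 615 0o76543210 0o76543210 0o543210, .mk 1129
0o76354120 0o76435120 0o134502] [],
.mk (.mk 985 0o76532401 0o76524301 0o251430) [.mk 730 0o76031524 0o76204135 0o301245, .mk 630
0o76543210 0o76543210 0o543210] [],
.mk (.mk 1037 0o76130254 0o76104253 0o103245) [.mk 1192 0o76345210 0o76345210 0o453201, .mk 1163
0o76140253 0o76140253 0o13425] [],
.mk (.mk 807 0o76325410 0o76325410 0o354210) [.mk 1044 0o76541320 0o76542130 0o451320, .mk 1068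
0o76342510 0o76245310 0o152403] [],
.mk (.mk 723 0o76541230 0o76541230 0o451230) [.mk 1200 0o76543210 0o76543210 0o543210, .mk 789
0o76531420 0o76524130 0o210534] [],
.mk (.mk 889 0o76315042 0o76315042 0o205341) [.mk 918 0o76543210 0o76543210 0o354210, .mk 877
0o76543210 0o76543210 0o543210]
[0x72141184400c1286181501a15840805006034018aa016701c3a0120438448903284a1c0a04202eb28258020c004407b0111010d2d01f40cda42480a01415c2384803c0080684154cc0008308b43,
0x1631589800784190182a04494000f04faab108447040084884807a8d8bc8c32e305288794f04785910380d0db8590900420c087d00085f88b814a5901c9460408cb80090f08b04082080d05182200194d0000835076c],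
.mk (.mk 857 0o76543210 0o76543210 0o543210) [.mk 1078 0o76315042 0o76315042 0o25431]
[0x85414503305086811400e00d00a80800640063ab004424a61b488051843870c3908418400604000801093c0001241114272004205883e82a1043920c4c274037086800802c010094019c4040200060c5403a789022081d4d4000838d153,
0x4e30e0850020c0202f1108880838724005c42000400f00fb44023c22e088809486132368d1c05226a0810f860800800602484b426e005190289043c2240178144424119027907401a032000845404c01101f081d4cc000839356c],
.mk (.mk 1009 0o76453120 0o76453120 0o351402) [.mk 1074 0o76542310 0o76542310 0o453120, .mk 1060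
0o76410325 0o76052143 0o120435] [],
.mk (.mk 860 0o76234150 0o76134520 0o145230) [.mk 1196 0o76041532 0o76241035 0o31245, .mk 938
0o76051423 0o76420135 0o301425] [],
.mk (.mk 1060 0o76154320 0o76432150 0o124503) [.mk 1051 0o76452130 0o76451320 0o452130, .mk 918
0o76154230 0o76431250 0o214053] [],
.mk (.mk 997 0o76024513 0o76230415 0o340125) [.mk 1134 0o76540321 0o76542103 0o120543, .mk 1107
0o76435210 0o76354210 0o453210] [],
.mk (.mk 663 0o76542310 0o76542310 0o453120) [.mk 984 0o76543210 0o76543210 0o543210] [],
.mk (.mk 1054 0o76150432 0o76421053 0o132450) [.mk 914 0o76543210 0o76543210 0o543210, .mk 1102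
0o76231405 0o76024531 0o35142] [],
.mk (.mk 880 0o76513402 0o76523041 0o304152) [.mk 1142 0o76502341 0o76512304 0o234015, .mk 914
0o76534210 0o76534210 0o453210] [],
.mk (.mk 808 0o76154320 0o76432150 0o210435) [.mk 1120 0o76512304 0o76502341 0o35421, .mk 808
0o76453210 0o76453210 0o453210] [],
.mk (.mk 860 0o76543210 0o76543210 0o452301) [.mk 1157 0o76215034 0o76301542 0o14532, .mk 1142
0o76532410 0o76524310 0o245301, .mk 1157 0o76215034 0o76301542 0o105423]
[0x1e6208450d010831c9f82e1423c08c88106a0cc508e024234c20084320185799c0062088ec23b1b00c1081402c42c43b0431c669c60a13005189631500a0a0429034260100190c8000830302c,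
0x62510030906c024030ad7a40090f83c0a20840642a22800d40889116431410130034200121f102858812b522c6114c201320400c012230a221473ad212480cc808311200000a31220645684106821c8190012a0480190f800083530ac,
0xd010c420456a2c4403c083044730d8e410ce0084121150508001090a12d45104c191c40901873c9c84350221401510c04040972483108cb1154c240013044e9044150d00008318025,
0x400000c001e330114090921084384311238a228552a09080100988e00468482107118261430011122294019e41ec344008603e02044b00204e6591d004290158108503c8058608200800000881301210c190ec000835a425],
.mk (.mk 1013 0o76512403 0o76520341 0o35412) [.mk 1119 0o76504231 0o76531204 0o134205, .mk 938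
0o76543210 0o76543210 0o453210] [],
.mk (.mk 801 0o76435210 0o76354210 0o453210) [.mk 933 0o76435210 0o76354210 0o125043, .mk 921
0o76532410 0o76524310 0o251403, .mk 1204 0o76453201 0o76453201 0o24153] [],
.mk (.mk 927 0o76543120 0o76543120 0o453120) [.mk 1046 0o76435012 0o76354012 0o41523, .mk 1158
0o76534210 0o76534210 0o152403] [],
.mk (.mk 782 0o76543210 0o76543210 0o543210) [.mk 1103 0o76305124 0o76305124 0o15324, .mk 1078
0o76304125 0o76035124 0o105324]
[0x3c104060070ba11466243034604820090080040604000001063006104028000041846180584d182431200d81161054490000021825809514334221c828c021560d48b05142fa950a624c0100154dc0008312ae1],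
.mk (.mk 779 0o76453210 0o76453210 0o453210) [.mk 1027 0o76041352 0o76142035 0o21345] [],
.mk (.mk 727 0o76435210 0o76354210 0o453210) [.mk 1149 0o76143025 0o76043152 0o21435, .mk 1008
0o76241035 0o76041532 0o203145] [],
.mk (.mk 779 0o76345210 0o76345210 0o453210) [.mk 1142 0o76053241 0o76413205 0o324105] [],
.mk (.mk 993 0o76014253 0o76130245 0o310245) [.mk 810 0o76543210 0o76543210 0o543210, .mk 1102
0o76015243 0o76310245 0o130245] [],
.mk (.mk 724 0o76325410 0o76325410 0o254310) [.mk 881 0o76543210 0o76543210 0o543210, .mk 1197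
0o76543021 0o76543102 0o140532] [],
.mk (.mk 714 0o76325410 0o76325410 0o254310) [.mk 881 0o76543210 0o76543210 0o543210, .mk 836
0o76345210 0o76345210 0o453210] [],
.mk (.mk 927 0o76543210 0o76543210 0o543210) [.mk 1134 0o76243150 0o76143520 0o145320, .mk 816
0o76524013 0o76530412 0o23514, .mk 1180 0o76354210 0o76435210 0o453210] [],
.mk (.mk 727 0o76543210 0o76543210 0o543210) [.mk 1141 0o76415023 0o76350142 0o51243, .mk 1173
0o76430251 0o76154203 0o231540] [],
.mk (.mk 1062 0o76345120 0o76345120 0o453120) [.mk 1119 0o76513204 0o76503241 0o205143, .mk 1147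
0o76413205 0o76053241 0o25143]
[0x1e034370288330aab2c1028c0180240c00e0a6010401c002821e830c54a0604600630021dc4c148106014408c100c2084084202c120a60d652c10872008188220641422081408585820645c0180154e000083128ec],
.mk (.mk 799 0o76351402 0o76425031 0o123054) [.mk 861 0o76531402 0o76524031 0o210345, .mk 1105
0o76452130 0o76451320 0o53142] [],
.mk (.mk 1013 0o76423510 0o76253410 0o354120) [.mk 961 0o76534021 0o76534102 0o240531, .mk 874
0o76543210 0o76543210 0o543210] [],
.mk (.mk 1104 0o76302541 0o76215304 0o103524) [.mk 901 0o76453120 0o76453120 0o452310, .mk 901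
0o76543210 0o76543210 0o543210, .mk 961 0o76523410 0o76523410 0o354120]
[0x394382784c82e82102180610594a2c594904284220080194c08b00184794005181a0010821cb8830d9b0980104405189718b04900089300488018f0c38cc9028c88520000dd859017c0584900820a28080500194dc000836c2ab],
.mk (.mk 844 0o76543210 0o76543210 0o543210) [.mk 1103 0o76410532 0o76251043 0o23154, .mk 891
0o76345120 0o76345120 0o453120] [],
.mk (.mk 725 0o76543210 0o76543210 0o543210) [.mk 810 0o76432510 0o76254310 0o254310] [],
.mk (.mk 898 0o76543210 0o76543210 0o543210) [.mk 961 0o76452310 0o76452310 0o254310, .mk 1169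
0o76412053 0o76150342 0o104523, .mk 1184 0o76153240 0o76413250 0o345201] [],
.mk (.mk 999 0o76523410 0o76523410 0o254310) [.mk 820 0o76452130 0o76451320 0o345021] [],
.mk (.mk 1053 0o76410352 0o76152043 0o231450) [.mk 927 0o76543210 0o76543210 0o543210, .mk 1169
0o76543210 0o76543210 0o453210] [],
.mk (.mk 851 0o76435120 0o76354120 0o453120) [.mk 1095 0o76543210 0o76543210 0o254130, .mk 852
0o76435021 0o76354102 0o150423]
[0x130986011290006000002c4008e091906460001c04663388a02034793141e34041f0020209052040328004a230708886b204484c247902ad4110c8000829b15a],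
.mk (.mk 930 0o76253401 0o76423501 0o240531) [.mk 954 0o76045312 0o76342015 0o123405, .mk 898
0o76543210 0o76543210 0o543210] [],
.mk (.mk 930 0o76543210 0o76543210 0o453210) [.mk 1117 0o76524031 0o76531402 0o41352, .mk 1147
0o76530142 0o76514023 0o132405] [],
.mk (.mk 866 0o76543210 0o76543210 0o543210) [.mk 930 0o76354210 0o76435210 0o453210, .mk 952
0o76345021 0o76345102 0o140532] [],
.mk (.mk 797 0o76345021 0o76345102 0o51342) [.mk 1053 0o76542310 0o76542310 0o254310, .mk 846
0o76352041 0o76415302 0o150423] [],
.mk (.mk 1103 0o76425031 0o76351402 0o41352) [.mk 930 0o76543210 0o76543210 0o453210, .mk 1046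
0o76523401 0o76523401 0o245013]
[0xf04480e00600201f84801380e0038a10178190d084690480600294888a84004184300da0304e080111802a430492083488c50078001c6904808007b42149c40880a42c480c600b0020810c50c400194d0000836dad4],
.mk (.mk 610 0o76543210 0o76543210 0o543210) [.mk 942 0o76542103 0o76540321 0o103524, .mk 1135
0o76325410 0o76325410 0o453210] [],
.mk (.mk 755 0o76345120 0o76345120 0o453120) [.mk 1129 0o76025314 0o76302415 0o201453] [],
.mk (.mk 828 0o76354021 0o76435102 0o150423) [.mk 1117 0o76453210 0o76453210 0o254130, .mk 1186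
0o76543120 0o76543120 0o453120] [],
.mk (.mk 754 0o76543210 0o76543210 0o543210) [.mk 973 0o76301524 0o76205134 0o201534, .mk 782
0o76501234 0o76501234 0o103254]
[0x44300ce0120501434b04a0096988629401c1180918e104028c2108114621c149020440880004228a314243410c08802000608200c498203c01841480a14c50430022000481a0027000000154d80008318553],
.mk (.mk 790 0o76124503 0o76230451 0o23451) [.mk 884 0o76543210 0o76543210 0o543210, .mk 884
0o76432510 0o76254310 0o453210] [],
.mk (.mk 666 0o76320541 0o76215403 0o235014) [.mk 940 0o76543210 0o76543210 0o543210, .mk 1184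
0o76354210 0o76435210 0o453210, .mk 638 0o76321540 0o76215430 0o354201] [],
.mk (.mk 1057 0o76451023 0o76450132 0o41253) [.mk 936 0o76534210 0o76534210 0o453201, .mk 1103
0o76543201 0o76543201 0o254103, .mk 1100 0o76541023 0o76540132 0o140523]
[0x200e00f0120683004401601c0319c5040140214708a1046188c10600c848191841040108c404000458c6204100615062104044e8c701a0202230c10450181b88000110e10013140140a00154d8000832daa3],
.mk (.mk 830 0o76543210 0o76543210 0o543210) [.mk 1088 0o76351240 0o76415230 0o145320, .mk 861
0o76524310 0o76532410 0o354210] [],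
.mk (.mk 858 0o76345210 0o76345210 0o453210) [.mk 1149 0o76214503 0o76230541 0o240153, .mk 914
0o76512304 0o76502341 0o21435] [],
.mk (.mk 914 0o76324510 0o76235410 0o354210) [.mk 1109 0o76152043 0o76410352 0o24153, .mk 894
0o76452310 0o76452310 0o453120] [],
.mk (.mk 1015 0o76435210 0o76354210 0o152403) [.mk 1109 0o76301452 0o76125034 0o31524, .mk 851
0o76354210 0o76435210 0o453210]
[0x220c8701c853000811c8400a036004120447a15c21200f02c0114a8120d4301484a0440306c4c09cf0050d2026d3c474015400004f30443714c4008025248b0200150d000083094a1,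
0x18400016020548101211e2100300000b01c4338b016093c110631320bc790600443c0aa0f10420546014c0c20903088305e08019c731e3a015883804450cd00101a4b4c001a0800080800310a6244190e40008355a62,
0x4610de20004538841184c600c4c00860580000018308500084a330c00030603900031041028023450508408280a10046470062184e090823808210bd45094114c8000829c30a,
0x1c20892328c00909a428ca13080210120284431a80038c002908561de20002008c81182ad38c0048de2368800a04200420904a39836290c0708566281a01084c400114d000082e14a1,
0x8521b0100b004094268859e017b18159c3f0843000b4015fa1980411420cb08bc003d0e1f0c01f000004574602b01311883880c062ac527319490017c4114603f10ef2413c811400000003842e0313e100b020b04e800e90068d206a047f8409c61f7052b881304830118b0d950d15c21da119507af082d4e000084a5a62,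
0x4083b030224280930640e0180918012c009850114222044208500e2708c90d51c6244128d81a424950b490e80904a1330423942284407614da95021d2744029191e070061850164688190d4000836da62],
.mk (.mk 833 0o76524031 0o76531402 0o41352) [.mk 1179 0o76134250 0o76134250 0o345120, .mk 924
0o76405123 0o76350124 0o150234] [],
.mk (.mk 905 0o76543210 0o76543210 0o543210) [.mk 1164 0o76421053 0o76150432 0o32154, .mk 1169
0o76534120 0o76534120 0o453120] [],
.mk (.mk 738 0o76543210 0o76543210 0o543210) [.mk 1187 0o76521430 0o76521430 0o135402] [],
.mk (.mk 776 0o76543210 0o76543210 0o543210) [.mk 1102 0o76534012 0o76534012 0o41532] [],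
.mk (.mk 807 0o76543210 0o76543210 0o543210) [.mk 1061 0o76543102 0o76543021 0o251403] [],
.mk (.mk 1001 0o76452013 0o76450312 0o310245) [.mk 897 0o76231054 0o76104532 0o213504] [],
.mk (.mk 758 0o76521430 0o76521430 0o142503) [.mk 1164 0o76413052 0o76153042 0o13254] [],
.mk (.mk 984 0o76543210 0o76543210 0o543210) [.mk 1129 0o76513420 0o76523140 0o234501, .mk 806
0o76324510 0o76235410 0o354210] [],
.mk (.mk 806 0o76412530 0o76251340 0o134052) [.mk 1164 0o76231450 0o76124530 0o14235, .mk 1085
0o76541320 0o76542130 0o451320] [],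
.mk (.mk 1028 0o76340251 0o76145203 0o140523) [.mk 861 0o76425310 0o76352410 0o354210] [],
.mk (.mk 1033 0o76204531 0o76231504 0o134025) [.mk 860 0o76543210 0o76543210 0o543210] [],
.mk (.mk 1033 0o76351240 0o76415230 0o145320) [.mk 861 0o76425310 0o76352410 0o354210, .mk 1071
0o76204531 0o76231504 0o31254] [],
.mk (.mk 774 0o76354120 0o76435120 0o314502) [.mk 1037 0o76453120 0o76453120 0o134502] [],
.mk (.mk 1133 0o76534210 0o76534210 0o453210) [.mk 893 0o76543210 0o76543210 0o543210, .mk 1111
0o76534120 0o76534120 0o153402] [],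
.mk (.mk 860 0o76543210 0o76543210 0o543210) [.mk 897 0o76521043 0o76510432 0o104532, .mk 1139
0o76435210 0o76354210 0o453210] [],
.mk (.mk 1042 0o76102354 0o76102354 0o103245) [.mk 860 0o76301524 0o76205134 0o203154, .mk 1149
0o76201345 0o76012534 0o12345] [],
.mk (.mk 1052 0o76451230 0o76451230 0o451230) [.mk 904 0o76543210 0o76543210 0o543210] [],
.mk (.mk 842 0o76521304 0o76502431 0o215430) [.mk 1150 0o76530214 0o76504213 0o25314, .mk 1167
0o76453210 0o76453210 0o453210] [],
.mk (.mk 735 0o76543120 0o76543120 0o145230) [.mk 1173 0o76452310 0o76452310 0o354120, .mk 905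
0o76543210 0o76543210 0o543210] [],
.mk (.mk 607 0o76354210 0o76435210 0o453210) [.mk 1063 0o76143520 0o76243150 0o345210, .mk 965
0o76345210 0o76345210 0o125043] [],
.mk (.mk 758 0o76325410 0o76325410 0o352401) [.mk 1080 0o76451320 0o76452130 0o451320, .mk 1120
0o76251430 0o76421530 0o145230] [],
.mk (.mk 999 0o76435210 0o76354210 0o453210) [.mk 1111 0o76014352 0o76132045 0o130425] [],
.mk (.mk 1054 0o76431520 0o76254130 0o154230) [.mk 1120 0o76412305 0o76052341 0o35421, .mk 1070
0o76345201 0o76345201 0o253104] [],
.mk (.mk 728 0o76543210 0o76543210 0o453210) [.mk 1093 0o76542130 0o76541320 0o145320, .mk 625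
0o76513402 0o76523041 0o305241] [],
.mk (.mk 728 0o76435210 0o76354210 0o453210) [.mk 991 0o76521340 0o76512430 0o315402, .mk 964
0o76352104 0o76405321 0o21543] [],
.mk (.mk 603 0o76534210 0o76534210 0o453210) [.mk 1115 0o76543210 0o76543210 0o543210] [],
.mk (.mk 728 0o76354210 0o76435210 0o452310) [.mk 737 0o76543210 0o76543210 0o543210] [],
.mk (.mk 737 0o76543210 0o76543210 0o543210) [.mk 603 0o76534210 0o76534210 0o453210] [],
.mk (.mk 774 0o76453012 0o76453012 0o350214) [.mk 745 0o76543210 0o76543210 0o543210, .mk 777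
0o76425031 0o76351402 0o203541] [],
.mk (.mk 745 0o76543210 0o76543210 0o543210) [.mk 887 0o76453210 0o76453210 0o354210, .mk 1160
0o76523041 0o76513402 0o24513] [],
.mk (.mk 730 0o76345201 0o76345201 0o253104) [.mk 1160 0o76532140 0o76514320 0o143502, .mk 1168
0o76215403 0o76320541 0o35241] [],
.mk (.mk 581 0o76542130 0o76541320 0o452130) [.mk 1058 0o76351042 0o76415032 0o24513, .mk 1113
0o76524310 0o76532410 0o354210] [],
.mk (.mk 747 0o76451230 0o76451230 0o451230) [.mk 1116 0o76241530 0o76241530 0o145320, .mk 1113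
0o76524310 0o76532410 0o352401] [],
.mk (.mk 882 0o76524031 0o76531402 0o205143) [.mk 1157 0o76251340 0o76412530 0o142503, .mk 1149
0o76451230 0o76451230 0o451230] [],
.mk (.mk 785 0o76035412 0o76324015 0o210354) [.mk 1134 0o76035412 0o76324015 0o21354, .mk 1080
0o76451320 0o76452130 0o451320] [],
.mk (.mk 779 0o76453210 0o76453210 0o453210) [.mk 1072 0o76241035 0o76041532 0o123054, .mk 1041
0o76213045 0o76013542 0o13425] [],
.mk (.mk 694 0o76543210 0o76543210 0o543210) [.mk 1183 0o76435120 0o76354120 0o153402, .mk 1072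
0o76325140 0o76315420 0o315402] [],
.mk (.mk 1086 0o76103542 0o76213054 0o23154) [.mk 948 0o76421530 0o76251430 0o315402, .mk 1092
0o76301542 0o76215034 0o132045] [],
.mk (.mk 827 0o76240513 0o76240513 0o203451) [.mk 1186 0o76543210 0o76543210 0o543210, .mk 950
0o76534120 0o76534120 0o453120, .mk 1203 0o76425130 0o76351420 0o145320] [],
.mk (.mk 758 0o76543210 0o76543210 0o543210) [.mk 1103 0o76425013 0o76350412 0o41352] [],
.mk (.mk 836 0o76124503 0o76230451 0o203451) [.mk 907 0o76543210 0o76543210 0o543210, .mk 1062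
0o76215403 0o76320541 0o23541] [],
.mk (.mk 1081 0o76435210 0o76354210 0o453210) [.mk 1099 0o76401253 0o76150234 0o132045, .mk 862
0o76102543 0o76210354 0o203154] [],
.mk (.mk 1000 0o76403125 0o76053124 0o210453) [.mk 953 0o76543210 0o76543210 0o543210, .mk 1070
0o76435210 0o76354210 0o453210]
[0x8884a90c000c0187843e40c034424474a280f863d01cd3040502c8cc0490d7a78c0402c8000e09804958104014b4d6048496ce0c84cd041701058a04b44d28008058248c10e117c028400c2490080c16c42002000c18001d0e8000838160b],
.mk (.mk 855 0o76453210 0o76453210 0o452301) [.mk 1104 0o76352410 0o76425310 0o245301, .mk 902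
0o76543210 0o76543210 0o543210] []]

theorem v3400 : chkL Tab.T5 Tab.RT Tab.reps Tab.E2 Ker.cert7 D3400 3400 = true := by
  decide +kernel

end CR.C2
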