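import Pool.Agent.Lib.MP_6f5d36_co.Ker
import Pool.Agent.Lib.MP_6f5d36_co.RTab
import Pool.Agent.Lib.MP_6f5d36_co.C2.KerC
import Pool.Agent.Lib.MP_6f5d36_co.C2.ETab

/-! MP_6f5d36_co, case (ii), level 7 : the ranks 3500, ..., 3599 -/

set_option autoImplicit false
set_option maxRecDepth 100000

noncomputable section

namespace CR.C2

/-- the frames and certificates of the ranks 3500, ..., 3599 -/
def D3500 : List It :=
[.mk (.mk 855 0o76230451 0o76124503 0o123450) [.mk 1056 0o76453210 0o76453210 0o452310] [],
.mk (.mk 808 0o76543210 0o76543210 0o453210) [.mk 1096 0o76035241 0o76314205 0o120354] [],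
.mk (.mk 751 0o76543210 0o76543210 0o543210) [.mk 1111 0o76510243 0o76510243 0o105423, .mk 1111
0o76453210 0o76453210 0o453210] [],
.mk (.mk 1057 0o76420153 0o76150423 0o32154) [.mk 1111 0o76410352 0o76152043 0o130425, .mk 1117
0o76530142 0o76514023 0o230514] [],
.mk (.mk 850 0o76502341 0o76512304 0o234015) [.mk 1133 0o76435210 0o76354210 0o453210, .mk 822
0o76543210 0o76543210 0o543210] [],
.mk (.mk 790 0o76543210 0o76543210 0o543210) [.mk 1200 0o76532410 0o76524310 0o210543, .mk 842
0o76512430 0o76521340 0o124503] [],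
.mk (.mk 805 0o76012534 0o76201345 0o203145) [.mk 1144 0o76021453 0o76120435 0o130254, .mk 1082
0o76021354 0o76102435 0o13254] [],
.mk (.mk 1041 0o76453102 0o76453021 0o251430) [.mk 1106 0o76534210 0o76534210 0o453201, .mk 936
0o76512340 0o76512340 0o345021, .mk 1192 0o76453012 0o76453012 0o150234] [],
.mk (.mk 823 0o76520413 0o76520413 0o301542) [.mk 1133 0o76534210 0o76534210 0o453210, .mk 1134
0o76540312 0o76542013 0o130542] [],
.mk (.mk 998 0o76042351 0o76142305 0o21435) [.mk 810 0o76543210 0o76543210 0o543210] [],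
.mk (.mk 1096 0o76320145 0o76015423 0o32154) [.mk 1156 0o76543210 0o76543210 0o543210, .mk 1096
0o76230154 0o76104523 0o132045, .mk 1139 0o76340152 0o76145023 0o230154] [],
.mk (.mk 787 0o76453210 0o76453210 0o453210) [.mk 951 0o76305214 0o76305214 0o305214, .mk 1122
0o76305214 0o76305214 0o35214] [],
.mk (.mk 1008 0o76542130 0o76541320 0o452130) [.mk 1071 0o76043215 0o76043215 0o43215, .mk 951
0o76425310 0o76352410 0o354120] [],
.mk (.mk 750 0o76435210 0o76354210 0o453120) [.mk 1147 0o76314052 0o76135042 0o105342, .mk 1104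
0o76402351 0o76152304 0o314205] [],
.mk (.mk 1029 0o76453021 0o76453102 0o42351) [.mk 1129 0o76214350 0o76132540 0o134052, .mk 751
0o76543210 0o76543210 0o543210] [],
.mk (.mk 799 0o76543210 0o76543210 0o543210) [.mk 1110 0o76203451 0o76123504 0o21453, .mk 751
0o76352041 0o76415302 0o315204] [],
.mk (.mk 799 0o76034512 0o76234015 0o123045) [.mk 1050 0o76543210 0o76543210 0o543210, .mk 1051
0o76451320 0o76452130 0o451320] [],
.mk (.mk 1011 0o76452013 0o76450312 0o140253) [.mk 848 0o76453210 0o76453210 0o453210, .mk 1129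
0o76153042 0o76413052 0o21435] [],
.mk (.mk 981 0o76543210 0o76543210 0o543210) [.mk 1080 0o76543210 0o76543210 0o453210] [],
.mk (.mk 1080 0o76541320 0o76542130 0o451320) [.mk 897 0o76435120 0o76354120 0o254310, .mk 904
0o76543210 0o76543210 0o543210] [],
.mk (.mk 1101 0o76542013 0o76540312 0o51243) [.mk 1168 0o76543210 0o76543210 0o254130, .mk 1169
0o76435120 0o76354120 0o453120]
[0x305602100944e8a23c991ae3b11140f01028b490003429190013089ec3004680910a806004e44f008405488131184da1158918209d3145c110c400082a2315],
.mk (.mk 792 0o76543210 0o76543210 0o543210) [.mk 1098 0o76425130 0o76351420 0o23451, .mk 1105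
0o76251340 0o76412530 0o145320] [],
.mk (.mk 785 0o76532410 0o76524310 0o354210) [.mk 1022 0o76534210 0o76534210 0o253401, .mk 1104
0o76351240 0o76415230 0o145320] [],
.mk (.mk 999 0o76430251 0o76154203 0o140523) [.mk 904 0o76543210 0o76543210 0o543210, .mk 1141
0o76310542 0o76215043 0o15432] [],
.mk (.mk 1022 0o76140523 0o76240153 0o23541) [.mk 1120 0o76541302 0o76542031 0o152430, .mk 941
0o76543210 0o76543210 0o543210] [],
.mk (.mk 732 0o76154032 0o76431052 0o205341) [.mk 1173 0o76543210 0o76543210 0o543210, .mk 853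
0o76452310 0o76452310 0o453120] [],
.mk (.mk 883 0o76432501 0o76254301 0o254103) [.mk 796 0o76543210 0o76543210 0o543210, .mk 941
0o76534210 0o76534210 0o453201] [],
.mk (.mk 776 0o76521043 0o76510432 0o104325) [.mk 1043 0o76542130 0o76541320 0o452130] [],
.mk (.mk 776 0o76543210 0o76543210 0o543210) [.mk 1175 0o76024531 0o76231405 0o240315, .mk 1134
0o76540312 0o76542013 0o130542] [],
.mk (.mk 1061 0o76401253 0o76150234 0o132045) [.mk 1139 0o76543210 0o76543210 0o543210, .mk 1070
0o76104352 0o76132054 0o23154] [],
.mk (.mk 991 0o76543210 0o76543210 0o543210) [.mk 1193 0o76532104 0o76504321 0o43521, .mk 799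
0o76105432 0o76321054 0o213054] [],
.mk (.mk 553 0o76543210 0o76543210 0o543210) [.mk 997 0o76542103 0o76540321 0o152403] [],
.mk (.mk 553 0o76531420 0o76524130 0o204153) [.mk 553 0o76531420 0o76524130 0o315042] [],
.mk (.mk 1011 0o76420135 0o76051423 0o213045) [.mk 810 0o76520134 0o76501423 0o123045, .mk 994
0o76543210 0o76543210 0o354120] [],
.mk (.mk 810 0o76203514 0o76203514 0o214035) [.mk 1107 0o76345210 0o76345210 0o452301, .mk 1143
0o76215430 0o76321540 0o25431] [],
.mk (.mk 799 0o76543210 0o76543210 0o543210) [.mk 1117 0o76314025 0o76035142 0o15342, .mk 1118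
0o76530214 0o76504213 0o302541]
[0x803b83c00714580084400201f81084224c14484200b00900820401404788a8821821469488401049448028552c1ac300b042dc08c0848841000003c000800418090450888008880c11c018a90194cc0008341923],
.mk (.mk 810 0o76203514 0o76203514 0o214035) [.mk 1113 0o76543210 0o76543210 0o543210, .mk 1107
0o76345210 0o76345210 0o452301] [],
.mk (.mk 799 0o76354210 0o76435210 0o452301) [.mk 1139 0o76145203 0o76340251 0o125340, .mk 932
0o76153204 0o76403251 0o213504] [],
.mk (.mk 684 0o76543210 0o76543210 0o543210) [.mk 959 0o76540123 0o76540123 0o302514]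
[0x14000c281c40407088000000a080f03e3220710339619200840181c1600dc318820e028403075020044028302462e1d396317e258388c406200009048020188210d21008c8091f7060044190d8000834d362,
0xc0018892088d250151591c02c02000584090d61c13185403000a000031054527844c00008090221082425c50209e1359d1654c19901558c10239424465061293780125ec50000150e4000831d362,
0x172047104d37045824c0f26e4c418f0215c500002002431108102c4164110128c174cc423667a08c2135035048e0280f3108d1008d748c2004035541d4501252c800280150d80008325362,
0xe10230427806294218201580000486781618221ca50020460186085308510103a0f006810a1814202760200c40901000298700250c41880080104202844845144100d29a7140284154d0000832d362],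
.mk (.mk 1009 0o76521043 0o76510432 0o203154) [.mk 896 0o76542031 0o76541302 0o41253, .mk 902
0o76543210 0o76543210 0o543210, .mk 861 0o76354210 0o76435210 0o453210]
[0xe0000004502c1200090801e1088204201224003801084048238002420140c0020321008c047080200210c019401d2600270292420b800883000010009c64d028141926200008450870e0990154e0000832a0ab],
.mk (.mk 902 0o76543210 0o76543210 0o543210) [.mk 917 0o76542031 0o76541302 0o140352, .mk 1084
0o76431052 0o76154032 0o13425, .mk 861 0o76354210 0o76435210 0o452301]
[0xa00026108900290c1280413054202060d80406808108061702402824200422900a100420000640084052901324c00c42a00c4201840890e4319a108de8228461ac05790114d800082ea41d],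
.mk (.mk 825 0o76245130 0o76341520 0o240315) [.mk 1072 0o76453210 0o76453210 0o453210, .mk 1108
0o76543210 0o76543210 0o543210] [],
.mk (.mk 844 0o76543210 0o76543210 0o543210) [.mk 1204 0o76024351 0o76132405 0o13245, .mk 861
0o76245130 0o76341520 0o145230] [],
.mk (.mk 865 0o76534120 0o76534120 0o453120) [.mk 1154 0o76543012 0o76543012 0o51423, .mk 1193
0o76543210 0o76543210 0o254130] [],
.mk (.mk 830 0o76543210 0o76543210 0o543210) [.mk 1096 0o76510243 0o76510243 0o51243, .mk 918
0o76541230 0o76541230 0o214053] [],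
.mk (.mk 733 0o76053142 0o76413025 0o201543) [.mk 1139 0o76324510 0o76235410 0o354210, .mk 1044
0o76453120 0o76453120 0o452310] [],
.mk (.mk 1045 0o76425130 0o76351420 0o23541) [.mk 1200 0o76451320 0o76452130 0o451320, .mk 920
0o76543210 0o76543210 0o543210] [],
.mk (.mk 733 0o76514320 0o76532140 0o314052) [.mk 1020 0o76514230 0o76531240 0o134502, .mk 1123
0o76512403 0o76520341 0o35241] [],
.mk (.mk 1008 0o76234051 0o76134502 0o25143) [.mk 867 0o76542130 0o76541320 0o452130, .mk 822
0o76425310 0o76352410 0o352401]
[0xf36c00028021000231c8a6090000005004037040120900004478084030de222e00701402110211c844114061c4a1004080901510451448630c0750145200cb206c20040150d80008309b54,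
0x4239c00c3720001000810100820b0d0084640218242c1803998d408d15184e2649d94004c4438923c327116510cbd9061263358955e23168b88110d000082d9b54,
0x16c07808048000810250440a4850c411469c8108791a00c02500d182b440809004a7c9621220c034c002b530694d019c1172a70d01391a0274880a00e0398810701d23840e852040084190d4000836b682],
.mk (.mk 1032 0o76543120 0o76543120 0o452310) [.mk 822 0o76425310 0o76352410 0o354210, .mk 1131
0o76315402 0o76325041 0o132504]
[0x600a030c210403600c5228020014351400200444084111e0218c8a00303604444088830501710c460041d10851448622801a080631403b14800004b207020040150cc000830d462,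
0x600200e0850d2000008c420a080040063881100a00101a300a2842000004d6805012365408c10c211400951f8a01c419840802002080608c1106018418020460887200401c20820161040290154dc0008313682,
0x83304c080ae20012509000004a3b012038400d016018061c0cc44014c388e0392631940742448080226080185589105c22844940f620992418963295e1181a070c114d400082dd462],
.mk (.mk 1054 0o76541230 0o76541230 0o145320) [.mk 861 0o76425310 0o76352410 0o354210, .mk 901
0o76452130 0o76451320 0o452130] [],
.mk (.mk 1070 0o76532041 0o76514302 0o142305) [.mk 861 0o76425310 0o76352410 0o354210, .mk 1117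
0o76205431 0o76321504 0o31254] [],
.mk (.mk 1013 0o76452103 0o76450321 0o45231) [.mk 1086 0o76543210 0o76543210 0o543210, .mk 1060
0o76420153 0o76150423 0o230154] [],
.mk (.mk 908 0o76543210 0o76543210 0o543210) [.mk 1108 0o76410532 0o76251043 0o23154, .mk 900
0o76435210 0o76354210 0o452310] [],
.mk (.mk 1050 0o76542130 0o76541320 0o452130) [.mk 1129 0o76321504 0o76205431 0o102543, .mk 841
0o76543210 0o76543210 0o543210] [],
.mk (.mk 758 0o76543210 0o76543210 0o543210) [.mk 1099 0o76410235 0o76051243 0o32154] [],
.mk (.mk 1014 0o76302514 0o76205314 0o124305) [.mk 1107 0o76345210 0o76345210 0o452301] [],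
.mk (.mk 848 0o76520341 0o76512403 0o205134) [.mk 1133 0o76435210 0o76354210 0o453210] [],
.mk (.mk 1068 0o76420153 0o76150423 0o130245) [.mk 1093 0o76032451 0o76124305 0o24135, .mk 954
0o76210543 0o76210543 0o231054] [],
.mk (.mk 825 0o76420135 0o76051423 0o52134) [.mk 1108 0o76053214 0o76403215 0o124305]
[0x284802042022cc21800108048180435845000c8728002b28e0180a280360181ed0802119c42b212148c6660522281044000031422480e40886008286012e0081e411084204114dc00082d2354],
.mk (.mk 823 0o76543210 0o76543210 0o453210) [.mk 1099 0o76352140 0o76415320 0o135402, .mk 997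
0o76523410 0o76523410 0o245031] [],
.mk (.mk 790 0o76543210 0o76543210 0o543210) [.mk 1077 0o76251430 0o76421530 0o125403, .mk 865
0o76345210 0o76345210 0o453210] [],
.mk (.mk 828 0o76354210 0o76435210 0o453210) [.mk 866 0o76543210 0o76543210 0o543210, .mk 954
0o76045321 0o76342105 0o143205] [],
.mk (.mk 566 0o76530412 0o76524013 0o302451) [.mk 1030 0o76534210 0o76534210 0o453210, .mk 839
0o76543210 0o76543210 0o543210]
[0x800e3019818008026010485242c6001020808c35a4611a49100cc004f02789117802a60a18184340e811100b8a8c42450b006021460c1880b802744063160008118228107200001423c527003021000223e01382a404216000a801d4e00008380ae2],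
.mk (.mk 566 0o76534210 0o76534210 0o452301) [.mk 1138 0o76534210 0o76534210 0o245031, .mk 1028
0o76354120 0o76435120 0o42153]
[0x130800200780000c76280a4202a06c0081a09a1082084219c208450800125290008400404c65a03a20004000d601253870dd208a16883846104204820074043342288154c000082ea422],
.mk (.mk 1008 0o76453210 0o76453210 0o453210) [.mk 1059 0o76401235 0o76051234 0o41235, .mk 1022
0o76301254 0o76105234 0o104325] [],
.mk (.mk 732 0o76025143 0o76310425 0o204315) [.mk 1077 0o76542310 0o76542310 0o453120] [],
.mk (.mk 784 0o76453210 0o76453210 0o452310) [.mk 798 0o76543210 0o76543210 0o543210] [],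
.mk (.mk 1019 0o76543210 0o76543210 0o543210) [.mk 925 0o76234501 0o76234501 0o245103, .mk 928
0o76345210 0o76345210 0o453210] [],
.mk (.mk 670 0o76543210 0o76543210 0o543210) [.mk 1187 0o76315240 0o76315240 0o314502] [],
.mk (.mk 874 0o76014523 0o76230145 0o203415) [.mk 1108 0o76031452 0o76124035 0o130524, .mk 1162
0o76543210 0o76543210 0o543210]
[0x200406058b4560202b290209700b884a0209014e0210900884400982c6e015a418b6c1a0b00408702144608e1e4642617930cec76201280110c400082ad51d],
.mk (.mk 866 0o76543210 0o76543210 0o543210) [.mk 1072 0o76531204 0o76504231 0o204531, .mk 1192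
0o76502134 0o76501324 0o103524]
[0x6022040443700090a5a0480a238c00988e61a0c7389a4a140703180099a1100030203328006091e64044010140030430092160001a0721000c2080114bc00082a8b25],
.mk (.mk 817 0o76154203 0o76430251 0o214503) [.mk 1126 0o76305241 0o76315204 0o310542, .mk 1020
0o76304251 0o76135204 0o130542] [],
.mk (.mk 869 0o76102543 0o76210354 0o230154) [.mk 1142 0o76102543 0o76210354 0o32154, .mk 1142
0o76201543 0o76210534 0o132045] [],
.mk (.mk 801 0o76512430 0o76521340 0o435201) [.mk 1045 0o76305421 0o76325104 0o241305] [],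
.mk (.mk 825 0o76035142 0o76314025 0o204135) [.mk 1102 0o76405231 0o76351204 0o134205, .mk 1105
0o76314502 0o76235041 0o35142] [],
.mk (.mk 825 0o76254031 0o76431502 0o253014) [.mk 1132 0o76453210 0o76453210 0o453210, .mk 1071
0o76543210 0o76543210 0o543210] [],
.mk (.mk 808 0o76532410 0o76524310 0o354210) [.mk 1075 0o76345012 0o76345012 0o214305, .mk 785
0o76534210 0o76534210 0o453210] [],
.mk (.mk 1098 0o76450312 0o76452013 0o250134) [.mk 1134 0o76531402 0o76524031 0o152340, .mk 1153
0o76340215 0o76045213 0o25314] [],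
.mk (.mk 823 0o76453210 0o76453210 0o453210) [.mk 1134 0o76421035 0o76051432 0o14352, .mk 810
0o76250314 0o76402513 0o214035] [],
.mk (.mk 825 0o76531420 0o76524130 0o341502) [.mk 1111 0o76435021 0o76354102 0o41523, .mk 1153
0o76453021 0o76453102 0o140523] [],
.mk (.mk 1000 0o76352041 0o76415302 0o315024) [.mk 833 0o76543210 0o76543210 0o543210] [],
.mk (.mk 833 0o76513402 0o76523041 0o215340) [.mk 1096 0o76502143 0o76510324 0o51234, .mk 855
0o76543210 0o76543210 0o543210] [],
.mk (.mk 795 0o76402531 0o76251304 0o234015) [.mk 1096 0o76135402 0o76324051 0o152340] [],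
.mk (.mk 775 0o76520314 0o76502413 0o302541) [.mk 1111 0o76543210 0o76543210 0o453210] [],
.mk (.mk 807 0o76523410 0o76523410 0o354120) [.mk 1096 0o76502134 0o76501324 0o51324] [],
.mk (.mk 776 0o76530412 0o76524013 0o23451) [.mk 822 0o76350412 0o76425013 0o203451, .mk 816
0o76543210 0o76543210 0o543210] [],
.mk (.mk 1038 0o76451302 0o76452031 0o23415) [.mk 860 0o76543210 0o76543210 0o543210] [],
.mk (.mk 726 0o76153240 0o76413250 0o345021) [.mk 844 0o76345120 0o76345120 0o453120, .mk 844
0o76543210 0o76543210 0o543210] [],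
.mk (.mk 782 0o76345120 0o76345120 0o453120) [.mk 1155 0o76214053 0o76130542 0o13425, .mk 868
0o76215043 0o76310542 0o103425] [],
.mk (.mk 1011 0o76245103 0o76340521 0o43152) [.mk 822 0o76453210 0o76453210 0o452301, .mk 1084
0o76341205 0o76045231 0o123504] [],
.mk (.mk 855 0o76543210 0o76543210 0o543210) [.mk 1126 0o76213405 0o76023541 0o34152, .mk 848
0o76543210 0o76543210 0o453210] [],
.mk (.mk 1120 0o76543210 0o76543210 0o245301) [.mk 1156 0o76103254 0o76103254 0o12345, .mk 1156
0o76543210 0o76543210 0o452301] [],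
.mk (.mk 1120 0o76452310 0o76452310 0o254301) [.mk 1156 0o76013245 0o76013245 0o102354, .mk 1156
0o76013245 0o76013245 0o13245, .mk 1120 0o76452310 0o76452310 0o345210] [],
.mk (.mk 595 0o76543210 0o76543210 0o543210) [.mk 1156 0o76352401 0o76425301 0o52431, .mk 941
0o76254031 0o76431502 0o213540, .mk 1199 0o76543210 0o76543210 0o453210]
[0xa2090c88218101f860000b1c1a2d68c081812e28900e50119820e0206485494a60900802b28940437377a005085008950e8b45040020d068300110cc00082e4742],
.mk (.mk 758 0o76534210 0o76534210 0o452301) [.mk 1120 0o76124503 0o76230451 0o125340] [],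
.mk (.mk 758 0o76543210 0o76543210 0o543210) [.mk 1164 0o76405123 0o76350124 0o150234, .mk 1120
0o76403125 0o76053124 0o15324] [],
.mk (.mk 694 0o76452310 0o76452310 0o254130) [.mk 931 0o76543210 0o76543210 0o543210, .mk 1186
0o76541230 0o76541230 0o345201] [],
.mk (.mk 1049 0o76543120 0o76543120 0o453120) [.mk 638 0o76350241 0o76415203 0o132450, .mk 1167
0o76453021 0o76453102 0o51342] [],
.mk (.mk 720 0o76541023 0o76540132 0o105234) [.mk 1041 0o76410253 0o76150243 0o213054] []]

theorem v3500 : chkL Tab.T5 Tab.RT Tab.reps Tab.E2 Ker.cert7 D3500 3500 = true := by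
  decide +kernel

end CR.C2
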