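import Pool.Agent.Lib.MP_6f5d36_co.Ker
import Pool.Agent.Lib.MP_6f5d36_co.RTab
import Pool.Agent.Lib.MP_6f5d36_co.C2.KerC
import Pool.Agent.Lib.MP_6f5d36_co.C2.ETab

/-! MP_6f5d36_co, case (ii), level 7 : the ranks 3600, ..., 3699 -/

set_option autoImplicit false
set_option maxRecDepth 100000

noncomputable section

namespace CR.C2

/-- the frames and certificates of the ranks 3600, ..., 3699 -/
def D3600 : List It :=
[.mk (.mk 1047 0o76543201 0o76543201 0o254103) [.mk 846 0o76125034 0o76301452 0o105324, .mk 1192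
0o76123054 0o76103452 0o15324] [],
.mk (.mk 1086 0o76342510 0o76245310 0o254130) [.mk 931 0o76543210 0o76543210 0o543210, .mk 1100
0o76241305 0o76042531 0o25143]
[0x80410400240e09f08000c6388e18a6040418901610405000018008238142082342c80230890ae111308003d44a10012608038824884240511a388a188511a100034e40c101202c2280154d40008312acc],
.mk (.mk 1020 0o76230541 0o76214503 0o32451) [.mk 898 0o76543210 0o76543210 0o543210, .mk 796
0o76241530 0o76241530 0o345201, .mk 1103 0o76315042 0o76315042 0o105243] [],
.mk (.mk 1088 0o76402531 0o76251304 0o134025) [.mk 898 0o76543210 0o76543210 0o543210, .mk 1169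
0o76534120 0o76534120 0o453120] [],
.mk (.mk 833 0o76342510 0o76245310 0o254310) [.mk 1101 0o76201453 0o76120534 0o31254] [],
.mk (.mk 1036 0o76524310 0o76532410 0o254310) [.mk 1096 0o76513402 0o76523041 0o52341, .mk 881
0o76543210 0o76543210 0o543210] [],
.mk (.mk 1096 0o76452310 0o76452310 0o254301) [.mk 1143 0o76125034 0o76301452 0o14532, .mk 1096
0o76543210 0o76543210 0o354210] [],
.mk (.mk 1171 0o76041325 0o76042135 0o21543) [.mk 1180 0o76543120 0o76543120 0o453120, .mk 1180
0o76543210 0o76543210 0o543210, .mk 1191 0o76130542 0o76214053 0o123054] [],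
.mk (.mk 844 0o76543210 0o76543210 0o543210) [.mk 1054 0o76210534 0o76201543 0o21345, .mk 898
0o76432510 0o76254310 0o354102] [],
.mk (.mk 1122 0o76543120 0o76543120 0o53412) [.mk 1105 0o76041523 0o76240135 0o120345, .mk 973
0o76452310 0o76452310 0o254130] [],
.mk (.mk 1086 0o76352410 0o76425310 0o254130) [.mk 931 0o76543210 0o76543210 0o543210, .mk 1154
0o76105234 0o76301254 0o13425] [],
.mk (.mk 940 0o76543210 0o76543210 0o453210) [.mk 970 0o76342510 0o76245310 0o254310, .mk 1154
0o76401523 0o76250134 0o130245] [],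
.mk (.mk 866 0o76543210 0o76543210 0o543210) [.mk 1054 0o76453102 0o76453021 0o251430] [],
.mk (.mk 746 0o76210534 0o76201543 0o213054) [.mk 1155 0o76130254 0o76104253 0o13245] [],
.mk (.mk 986 0o76012453 0o76120345 0o130254) [.mk 1142 0o76012453 0o76120345 0o31254, .mk 850
0o76021543 0o76210435 0o231045] [],
.mk (.mk 1041 0o76532140 0o76514320 0o143502) [.mk 861 0o76425310 0o76352410 0o354210, .mk 1082
0o76204531 0o76231504 0o31254] [],
.mk (.mk 1039 0o76213450 0o76123540 0o24153) [.mk 776 0o76543210 0o76543210 0o543210] [],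
.mk (.mk 881 0o76543210 0o76543210 0o543210) [.mk 997 0o76042153 0o76140325 0o140325] [],
.mk (.mk 1039 0o76543210 0o76543210 0o254130) [.mk 935 0o76435210 0o76354210 0o453210] [],
.mk (.mk 763 0o76543210 0o76543210 0o543210) [.mk 1147 0o76524103 0o76530421 0o152043, .mk 1136
0o76520413 0o76520413 0o203541] [],
.mk (.mk 775 0o76512043 0o76510342 0o104523) [.mk 1139 0o76354210 0o76435210 0o452301, .mk 902
0o76543210 0o76543210 0o543210] [],
.mk (.mk 775 0o76534120 0o76534120 0o153402) [.mk 1081 0o76435210 0o76354210 0o453210] [],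
.mk (.mk 1081 0o76435210 0o76354210 0o453210) [.mk 1093 0o76012453 0o76120345 0o23145, .mk 862
0o76012543 0o76210345 0o230145] [],
.mk (.mk 989 0o76543210 0o76543210 0o453210) [.mk 830 0o76543210 0o76543210 0o543210] [],
.mk (.mk 855 0o76534210 0o76534210 0o452301) [.mk 1014 0o76425301 0o76352401 0o152340, .mk 924
0o76423510 0o76253410 0o354120] [],
.mk (.mk 1054 0o76532140 0o76514320 0o143502) [.mk 841 0o76543210 0o76543210 0o543210, .mk 921
0o76425310 0o76352410 0o352401] [],
.mk (.mk 781 0o76345210 0o76345210 0o453210) [.mk 967 0o76214503 0o76230541 0o41253, .mk 884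
0o76543210 0o76543210 0o543210] [],
.mk (.mk 884 0o76543210 0o76543210 0o543210) [.mk 953 0o76412503 0o76250341 0o25341, .mk 1201
0o76325140 0o76315420 0o345210] [],
.mk (.mk 1023 0o76213405 0o76023541 0o31425) [.mk 848 0o76453210 0o76453210 0o453210] [],
.mk (.mk 848 0o76354210 0o76435210 0o452301) [.mk 1084 0o76314025 0o76035142 0o103425] [],
.mk (.mk 691 0o76453210 0o76453210 0o452310) [.mk 892 0o76543210 0o76543210 0o543210] [],
.mk (.mk 876 0o76543210 0o76543210 0o543210) [.mk 1112 0o76345210 0o76345210 0o452310, .mk 880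
0o76431502 0o76254031 0o305142] [],
.mk (.mk 785 0o76543210 0o76543210 0o543210) [.mk 1110 0o76203415 0o76023514 0o31452, .mk 1102
0o76203514 0o76203514 0o301452]
[0x6025a33200e043c26071f00c0824016513381884403220900e802400c30010d8830a102302080cb428840400184d820e02e002100821431a1ce040c27a707209b07467e14f28889182024023809c52614120306141d4d000083888db],
.mk (.mk 785 0o76543210 0o76543210 0o543210) [.mk 1153 0o76312054 0o76105342 0o15423, .mk 1041
0o76104352 0o76132054 0o130452] [],
.mk (.mk 1007 0o76430512 0o76254013 0o132405) [.mk 785 0o76342510 0o76245310 0o254130] [],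
.mk (.mk 1039 0o76423510 0o76253410 0o354120) [.mk 1026 0o76342501 0o76245301 0o251430, .mk 1102
0o76435201 0o76354201 0o152430] [],
.mk (.mk 785 0o76534210 0o76534210 0o452301) [.mk 1120 0o76135402 0o76324051 0o152340, .mk 1150
0o76542013 0o76540312 0o43125] [],
.mk (.mk 819 0o76543210 0o76543210 0o543210) [.mk 1168 0o76420315 0o76052413 0o24135] [],
.mk (.mk 1059 0o76543210 0o76543210 0o543210) [.mk 1150 0o76243105 0o76043521 0o42315] [],
.mk (.mk 758 0o76534210 0o76534210 0o452301) [.mk 1152 0o76450132 0o76451023 0o41235] [],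
.mk (.mk 561 0o76543210 0o76543210 0o452301) [.mk 1132 0o76543021 0o76543102 0o140532] [],
.mk (.mk 585 0o76543210 0o76543210 0o452301) [.mk 1103 0o76351204 0o76405231 0o124503] [],
.mk (.mk 776 0o76543210 0o76543210 0o543210) [.mk 1144 0o76342051 0o76145302 0o321540, .mk 1121
0o76032451 0o76124305 0o204315] [],
.mk (.mk 758 0o76543210 0o76543210 0o543210) [.mk 1036 0o76203145 0o76013524 0o15324] [],
.mk (.mk 1110 0o76052314 0o76402315 0o124035) [.mk 1150 0o76420135 0o76051423 0o52134, .mk 1129
0o76452310 0o76452310 0o453120]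
[0x440b0000248200945ca5442a1460a081013fa000280442c1010b0a00268c89a566281086a300a050a0119e944e4f1100c2a0c73034524151944064c01964566a669184110f000082d2354],
.mk (.mk 1041 0o76435120 0o76354120 0o351402) [.mk 1059 0o76543210 0o76543210 0o543210, .mk 1122
0o76124305 0o76032451 0o124053] [],
.mk (.mk 1020 0o76452301 0o76452301 0o254013) [.mk 1046 0o76401352 0o76152034 0o31524, .mk 816
0o76543210 0o76543210 0o543210] [],
.mk (.mk 1046 0o76315204 0o76305241 0o25143) [.mk 1203 0o76502341 0o76512304 0o142305, .mk 1185
0o76543210 0o76543210 0o543210]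
[0x1e0342407981c02a5283024803213809044000530461d400021d62d460002dc4c148006044e08c00c6010209062040054b00e190060418170106008b0c5090520a70c40a24040c08b18635c0180154e0000831291d],
.mk (.mk 1061 0o76325104 0o76305421 0o215430) [.mk 1111 0o76532410 0o76524310 0o354210, .mk 860
0o76543210 0o76543210 0o543210] [],
.mk (.mk 997 0o76234510 0o76234510 0o245031) [.mk 1193 0o76431052 0o76154032 0o130524, .mk 1107
0o76345210 0o76345210 0o452301] [],
.mk (.mk 648 0o76254130 0o76431520 0o145230) [.mk 931 0o76345120 0o76345120 0o453120] [],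
.mk (.mk 734 0o76543210 0o76543210 0o254130) [.mk 949 0o76345021 0o76345102 0o150423, .mk 1185
0o76534210 0o76534210 0o453210] [],
.mk (.mk 851 0o76354120 0o76435120 0o453120) [.mk 860 0o76352410 0o76425310 0o251403, .mk 1191
0o76142530 0o76241350 0o345120] [],
.mk (.mk 1067 0o76215034 0o76301542 0o105243) [.mk 860 0o76543210 0o76543210 0o543210, .mk 1104
0o76245103 0o76340521 0o43152] [],
.mk (.mk 836 0o76543210 0o76543210 0o543210) [.mk 1108 0o76340215 0o76045213 0o21543, .mk 1129
0o76350214 0o76405213 0o201543] [],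
.mk (.mk 1059 0o76325014 0o76305412 0o125304) [.mk 936 0o76543210 0o76543210 0o543210, .mk 1152
0o76234015 0o76034512 0o215034] [],
.mk (.mk 825 0o76315420 0o76325140 0o341502) [.mk 1132 0o76402315 0o76052314 0o214035, .mk 1110
0o76502314 0o76502314 0o124035] [],
.mk (.mk 803 0o76543210 0o76543210 0o543210) [.mk 1094 0o76321540 0o76215430 0o315402, .mk 829
0o76534210 0o76534210 0o452310] [],
.mk (.mk 1025 0o76042153 0o76140325 0o12543) [.mk 1045 0o76042135 0o76041325 0o102543, .mk 1139
0o76543210 0o76543210 0o543210] [],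
.mk (.mk 585 0o76325410 0o76325410 0o354210) [.mk 1074 0o76124053 0o76130452 0o24153]
[0x20051028ce8011430520c380015000b84290288200080020580000084008c9dd8871001888411c888d08808108000018084004f8900c194114580c06b01485c84684a88518b8080520420cc04378094518194d8000835192d,
0x180508e000004c188006627d8008220042c0310f12404d4c88001443c5090e205454bd48012a228914101140064518222a0d00111004281801ba81b409478d04308e7840980f0840d5e09e6166484190e4000835992d,
0x1d85d813b80ae61d1c082190410041818c14580c040b806600e10206068014001045202d0e321170d84039843421800da0540494810160421828060650d6625d8432018088018c84205109c9c30d850452b085e11da8a40278ca2d0a008e601c8214dc00083e3342],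
.mk (.mk 585 0o76325410 0o76325410 0o352401) [.mk 1012 0o76453210 0o76453210 0o453210, .mk 857
0o76124503 0o76230451 0o123054]
[0x2103881f40960581168004e44212180043441e10114e886420a014027008c00610b009800c000000881040028853517200a824c0cc2012fb004807a314084884c400000000008860152588444ba82720ea03944203101e281840c0010008c1d4e80008393342,
0x800a0420c740042800038a1804a285040801032e020082800080000b00082002325100010ee821e2000c08e0400011f01002402361900418600206302145844002e124042066010c119054815827208d00a822a10228a14198d8000835446d,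
0x100518301e0044088216407cc13801248644008a10c43c4900d122684071808006000a00a344658bde0b2006d00ab901148084001114660c02484400880c002714a168b8d04f084159f09e4128484190e4000835c46d],
.mk (.mk 983 0o76543120 0o76543120 0o452310) [.mk 1118 0o76031254 0o76104235 0o102453, .mk 868
0o76524310 0o76532410 0o352401] [],
.mk (.mk 1079 0o76543210 0o76543210 0o543210) [.mk 1112 0o76354210 0o76435210 0o452310, .mk 1118
0o76510423 0o76520143 0o32415]
[0x489c842621b67060240187824750014400343988094813894c2270228e8c01861004062643884023819a80064342bc1e0b1601044a4719840110c800082a374c],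
.mk (.mk 776 0o76543210 0o76543210 0o543210) [.mk 1132 0o76235014 0o76304512 0o123450, .mk 1118
0o76235014 0o76304512 0o213450] [],
.mk (.mk 776 0o76543210 0o76543210 0o543210) [.mk 1110 0o76012453 0o76120345 0o21345] [],
.mk (.mk 1030 0o76435210 0o76354210 0o452310) [.mk 876 0o76543210 0o76543210 0o543210, .mk 861
0o76241305 0o76042531 0o35142]
[0xd1c10858c988504980008604280a88b0080818069400c28c79060000800469810001148d2809080b9c0989818110840061cf84210000780284614514e9290888018880448088659cb80080d25b00a4c800194d80008340ae2],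
.mk (.mk 1002 0o76540321 0o76542103 0o250314) [.mk 1138 0o76532041 0o76514302 0o104253]
[0x5c83004220204b1081232c472240b40cc49440d23d4c12485b0607a14022948001c4671d0e21488000c701040d140b406520a50112c4501c46514068081a004061019aa2c0150dc000831d8cb],
.mk (.mk 776 0o76543210 0o76543210 0o543210) [.mk 1138 0o76134520 0o76234150 0o341502, .mk 1120
0o76423510 0o76253410 0o245031] [],
.mk (.mk 606 0o76534210 0o76534210 0o453210) [.mk 970 0o76425310 0o76352410 0o254130, .mk 905
0o76543210 0o76543210 0o543210] [],
.mk (.mk 822 0o76345210 0o76345210 0o453210) [.mk 942 0o76543210 0o76543210 0o543210, .mk 1102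
0o76240531 0o76241503 0o25314] [],
.mk (.mk 1075 0o76034125 0o76034125 0o102435) [.mk 822 0o76453210 0o76453210 0o452301, .mk 860
0o76543210 0o76543210 0o543210] [],
.mk (.mk 799 0o76514032 0o76531042 0o105243) [.mk 1196 0o76452310 0o76452310 0o254310, .mk 1049
0o76453120 0o76453120 0o453120] [],
.mk (.mk 1119 0o76023415 0o76023415 0o120453) [.mk 1139 0o76543210 0o76543210 0o543210] [],
.mk (.mk 799 0o76301452 0o76125034 0o132045) [.mk 1079 0o76435210 0o76354210 0o452310, .mk 1146
0o76543210 0o76543210 0o543210] [],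
.mk (.mk 801 0o76534120 0o76534120 0o354012) [.mk 1036 0o76523041 0o76513402 0o32514, .mk 1057
0o76543120 0o76543120 0o154320] [],
.mk (.mk 1049 0o76543120 0o76543120 0o453120) [.mk 1117 0o76542310 0o76542310 0o254310, .mk 927
0o76512340 0o76512340 0o345012] [],
.mk (.mk 852 0o76354210 0o76435210 0o453210) [.mk 1157 0o76352401 0o76425301 0o254103, .mk 1195
0o76412530 0o76251340 0o354012]
[0x80020440860dab0560810004620215208640a04c1ca04608600e06c06402600601c0011c5c000824430a,
0x8008180c20189223024120500702e4d94a4031e528fe3098402a40124cc31904118066314020808829ce2b8cc008241301014944043c0009da9303a1100114c4000829c30a],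
.mk (.mk 1027 0o76104532 0o76231054 0o23154) [.mk 961 0o76401523 0o76250134 0o312045, .mk 1119
0o76401532 0o76251034 0o132405] [],
.mk (.mk 583 0o76542130 0o76541320 0o452130) [.mk 1149 0o76543210 0o76543210 0o543210, .mk 910
0o76523410 0o76523410 0o352401, .mk 1157 0o76540213 0o76540213 0o43125] [],
.mk (.mk 758 0o76543210 0o76543210 0o543210) [.mk 1095 0o76405132 0o76351024 0o150324] [],
.mk (.mk 1054 0o76153402 0o76423051 0o251430) [.mk 936 0o76543210 0o76543210 0o453201, .mk 1167
0o76204153 0o76130524 0o13425] [],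
.mk (.mk 1038 0o76401235 0o76051234 0o213045) [.mk 1118 0o76102453 0o76120354 0o32154, .mk 1099
0o76401235 0o76051234 0o123045] [],
.mk (.mk 938 0o76123504 0o76203451 0o204153) [.mk 1169 0o76543210 0o76543210 0o543210, .mk 1185
0o76453210 0o76453210 0o453210, .mk 1197 0o76301542 0o76215034 0o130254] [],
.mk (.mk 754 0o76543210 0o76543210 0o543210) [.mk 816 0o76432501 0o76254301 0o240531, .mk 1022
0o76542130 0o76541320 0o145320] [],
.mk (.mk 819 0o76543210 0o76543210 0o543210) [.mk 1095 0o76214305 0o76032541 0o103254, .mk 1164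
0o76315204 0o76305241 0o13524] [],
.mk (.mk 1098 0o76354201 0o76435201 0o253104) [.mk 901 0o76541320 0o76542130 0o451320, .mk 968
0o76453210 0o76453210 0o354210, .mk 1204 0o76453102 0o76453021 0o53241] [],
.mk (.mk 557 0o76534021 0o76534102 0o250431) [.mk 1058 0o76543120 0o76543120 0o452310, .mk 807
0o76435210 0o76354210 0o354210] [],
.mk (.mk 771 0o76543210 0o76543210 0o543210) [.mk 807 0o76430521 0o76254103 0o320541, .mk 1116
0o76534210 0o76534210 0o453210] [],
.mk (.mk 1057 0o76532410 0o76524310 0o21534) [.mk 921 0o76543210 0o76543210 0o543210, .mk 822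
0o76435210 0o76354210 0o453210] [],
.mk (.mk 862 0o76502143 0o76510324 0o321045) [.mk 1117 0o76542103 0o76540321 0o45321, .mk 1057
0o76402153 0o76150324 0o132045] [],
.mk (.mk 1038 0o76541032 0o76541032 0o21534) [.mk 860 0o76543210 0o76543210 0o543210, .mk 1023
0o76321045 0o76015432 0o102534] [],
.mk (.mk 916 0o76345210 0o76345210 0o453210) [.mk 1126 0o76543201 0o76543201 0o254013, .mk 1147
0o76023451 0o76123405 0o134025] [],
.mk (.mk 860 0o76543210 0o76543210 0o543210) [.mk 1124 0o76120435 0o76021453 0o32154, .mk 1138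
0o76234510 0o76234510 0o245031]
[0xc00a2204c230c0030a060ac239004630c62b8d8048060888606004038d4110a03100e728dad090c1190f10ac2028001210a2d9041100626050259ccd19400202a0000114d400082d988b],
.mk (.mk 1009 0o76510243 0o76510243 0o203154) [.mk 1024 0o76435102 0o76354021 0o152430, .mk 860
0o76543210 0o76543210 0o543210]
[0x203da088402004598c05c001784cccd0c8345e6410dd20980c0d2955d0d744dca045409d5c4d4c5c818d8148186caa1464d8498cc0d0d0000829988b],
.mk (.mk 848 0o76453210 0o76453210 0o453210) [.mk 1088 0o76042153 0o76140325 0o21354, .mk 1126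
0o76452013 0o76450312 0o140253] [],
.mk (.mk 855 0o76543210 0o76543210 0o543210) [.mk 1130 0o76513204 0o76503241 0o125340, .mk 1014
0o76302154 0o76105324 0o15234] [],
.mk (.mk 811 0o76421305 0o76052431 0o53142) [.mk 924 0o76543210 0o76543210 0o543210, .mk 811
0o76451302 0o76452031 0o320415]
[0x5420400083818b2146048826008e1010203a806802a607d25705af001800200109431005a6cc8193806d01f21028203901f180e917802f002f189e004422a00f82d3815a028104f42dba502800014262680146823080c8000814d407517280445076423184254d80008400ad0,
0x1984136465193f1393603000681c601d8636acc9483208c64c2c013024808e8a8ac002325b20c620eb9b1d8f72a0e31dc40644d319160c3072600c311068fa420c1f861dd8212800081d7269a2b3850a03ae00ee8a9444609aa515044ba55131fa007c27444290d80008440ad2,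
0xd0839ab8682040214189c05230c301a418b2201810aa8f04d6314004081821c30718c8c54ce55075d8037c4222c91a6968c2008a1183800c04cba2781841820e307083841d4ac000835a525,
0x70128840d785c85808200704f18084b845082c4c84010084d9a084c9e48170950888c38cf18f9453860429421c089e8408091770429d71828c284014501e84484e0cc80280600496c8cc05994c0c194d0000835a925],
.mk (.mk 752 0o76254310 0o76432510 0o345210) [.mk 1055 0o76340251 0o76145203 0o230514] [],
.mk (.mk 833 0o76421305 0o76052431 0o53142) [.mk 1109 0o76542310 0o76542310 0o453120, .mk 903
0o76531042 0o76514032 0o321504] [],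
.mk (.mk 727 0o76543210 0o76543210 0o453210) [.mk 1109 0o76352410 0o76425310 0o254310, .mk 1167
0o76204153 0o76130524 0o13425] []]

theorem v3600 : chkL Tab.T5 Tab.RT Tab.reps Tab.E2 Ker.cert7 D3600 3600 = true := by
  decide +kernel

end CR.C2
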