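import Pool.Agent.Lib.MP_6f5d36_co.Ker
import Pool.Agent.Lib.MP_6f5d36_co.RTab
import Pool.Agent.Lib.MP_6f5d36_co.C2.KerC
import Pool.Agent.Lib.MP_6f5d36_co.C2.ETab

/-! MP_6f5d36_co, case (ii), level 7 : the ranks 3700, ..., 3799 -/

set_option autoImplicit false
set_option maxRecDepth 100000

noncomputable section

namespace CR.C2

/-- the frames and certificates of the ranks 3700, ..., 3799 -/
def D3700 : List It :=
[.mk (.mk 1055 0o76325140 0o76315420 0o145320) [.mk 1188 0o76534120 0o76534120 0o453120, .mk 1186
0o76543210 0o76543210 0o543210] [],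
.mk (.mk 1055 0o76251034 0o76401532 0o14253) [.mk 1139 0o76345210 0o76345210 0o452301, .mk 1123
0o76410523 0o76250143 0o132054] [],
.mk (.mk 580 0o76543210 0o76543210 0o543210) [.mk 877 0o76541320 0o76542130 0o451320, .mk 924
0o76451320 0o76452130 0o145320]
[0xcc95203208102c01e80b21818240376222690b6801a0300088078444e21867980500a258301000c55e580343701441a01ff0f09e1202206f030b7543421b074820d0dd61452c8c2851233810d802c25c14b13f00044210d400083eb8c2],
.mk (.mk 580 0o76543210 0o76543210 0o543210) [.mk 1008 0o76543210 0o76543210 0o453210]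
[0x1001e8110d3801094012a6c0800030411000828419070000880018021aa94004a8468839cd88884484014580439c88e05080ef4184027929e4829c388204204200314680104084194bc00083138c2],
.mk (.mk 1039 0o76105342 0o76312054 0o23514) [.mk 1102 0o76501432 0o76521034 0o132405, .mk 1139
0o76345210 0o76345210 0o452301] [],
.mk (.mk 782 0o76534210 0o76534210 0o453210) [.mk 1109 0o76320154 0o76105423 0o104325, .mk 1130
0o76351204 0o76405231 0o24351]
[0xc414814044321c120390030d4110c001008f0150520400800c3004094cb4803c41114c6a080a0004d028141500906c0370003312d96069f028a230dc085c0115887505000004b21c0150e8000830cb0c,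
0x3005c8580200a3080b90a48e028008001022102280218830061006004104c00c148802044800390104230c020a01d648490a401d64840100588c8412108618a2006206260409cf02213c2100154dc0008312a63],
.mk (.mk 898 0o76543210 0o76543210 0o543210) [.mk 1130 0o76452310 0o76452310 0o254310, .mk 1188
0o76345210 0o76345210 0o453210]
[0x4c230500142740789631802009041134000448020441c81404528c121a280f41261d2e84a116300481c920e40003805096034440c508c70423040481a0c270020862180684300e500200591341300180154e80008328b25],
.mk (.mk 1014 0o76543210 0o76543210 0o254310) [.mk 959 0o76051243 0o76410235 0o102435, .mk 1117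
0o76452130 0o76451320 0o53142] [],
.mk (.mk 872 0o76435120 0o76354120 0o453120) [.mk 1074 0o76542310 0o76542310 0o254310, .mk 1181
0o76215430 0o76321540 0o345120] [],
.mk (.mk 885 0o76521430 0o76521430 0o345120) [.mk 1105 0o76401532 0o76251034 0o230415, .mk 1106
0o76543210 0o76543210 0o453210] [],
.mk (.mk 852 0o76205143 0o76310524 0o103425) [.mk 1204 0o76253410 0o76423510 0o254130, .mk 950
0o76345210 0o76345210 0o453210, .mk 1186 0o76543210 0o76543210 0o543210] [],
.mk (.mk 763 0o76502413 0o76520314 0o13524) [.mk 1119 0o76521304 0o76502431 0o205143, .mk 1199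
0o76245310 0o76342510 0o453210] [],
.mk (.mk 1055 0o76342510 0o76245310 0o254310) [.mk 1103 0o76034125 0o76034125 0o12453, .mk 1102
0o76035124 0o76304125 0o102453]
[0x701509c14180c132c9e0040820e19001c202e07114481588121c81f0cc0d18030010c0100232091429573415d01040b38142305441a427054a44d000845a12c8d02c163600150dc00083120e1,
0x141002a0a4220004d004c711c1270d5b021900300303c021088d008c404280815130102191a0b050c425001e0504534198198e3340a588c442805505c62804e8000b5340b01c0150e000083122e1],
.mk (.mk 843 0o76543210 0o76543210 0o543210) [.mk 1102 0o76213450 0o76123540 0o24153, .mk 1131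
0o76450321 0o76452103 0o143205] [],
.mk (.mk 1023 0o76053421 0o76423105 0o24135) [.mk 932 0o76453210 0o76453210 0o453210, .mk 1103
0o76043215 0o76043215 0o120543] [],
.mk (.mk 834 0o76150432 0o76421053 0o104352) [.mk 1055 0o76301254 0o76105234 0o203541] [],
.mk (.mk 1047 0o76543201 0o76543201 0o254103) [.mk 846 0o76521430 0o76521430 0o435021, .mk 1167
0o76521340 0o76512430 0o345021] [],
.mk (.mk 827 0o76241530 0o76241530 0o345120) [.mk 918 0o76241503 0o76240531 0o231054] [],
.mk (.mk 837 0o76543210 0o76543210 0o453210) [.mk 1059 0o76542310 0o76542310 0o254310, .mk 1167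
0o76435021 0o76354102 0o150423] [],
.mk (.mk 1022 0o76032154 0o76104325 0o104235) [.mk 1062 0o76435120 0o76354120 0o453120, .mk 1186
0o76543210 0o76543210 0o543210] [],
.mk (.mk 1036 0o76230145 0o76014523 0o104235) [.mk 1086 0o76250134 0o76401523 0o14235, .mk 1108
0o76421035 0o76051432 0o210354]
[0x1004114501204000ea272818442a2000214200270148a0223a9042223590684013098109e005a00850592f048aa0213849f28320084006150b85c04462300110dc00082d211d],
.mk (.mk 732 0o76342510 0o76245310 0o254310) [.mk 1062 0o76453210 0o76453210 0o453210, .mk 1167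
0o76103254 0o76103254 0o13245, .mk 1186 0o76543210 0o76543210 0o543210] [],
.mk (.mk 1073 0o76342510 0o76245310 0o254310) [.mk 1102 0o76032154 0o76104325 0o102453, .mk 1119
0o76023145 0o76013425 0o12543]
[0x280245a014801048e0ac8213a83104c040401238890110821d0070d4324400025c1c15090600111d834100230c42487d20084c20a52b8018538c224c00504dd04c4b0048150d80008312263],
.mk (.mk 875 0o76410532 0o76251043 0o231450) [.mk 940 0o76543210 0o76543210 0o453210, .mk 1188
0o76543210 0o76543210 0o543210] [],
.mk (.mk 1014 0o76012453 0o76120345 0o230145) [.mk 1093 0o76012453 0o76120345 0o32145, .mk 1197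
0o76543210 0o76543210 0o543210] [],
.mk (.mk 1014 0o76310542 0o76215043 0o23514) [.mk 1193 0o76210453 0o76120543 0o203154, .mk 893
0o76543210 0o76543210 0o543210] [],
.mk (.mk 784 0o76531204 0o76504231 0o210453) [.mk 1195 0o76452310 0o76452310 0o453120, .mk 908
0o76351204 0o76405231 0o120453] [],
.mk (.mk 892 0o76543210 0o76543210 0o543210) [.mk 1112 0o76453210 0o76453210 0o452310, .mk 889
0o76413025 0o76053142 0o14253] [],
.mk (.mk 756 0o76543210 0o76543210 0o543210) [.mk 1151 0o76534210 0o76534210 0o453210, .mk 889
0o76423510 0o76253410 0o254130] [],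
.mk (.mk 756 0o76543210 0o76543210 0o543210) [.mk 892 0o76354210 0o76435210 0o453210, .mk 889
0o76453210 0o76453210 0o354120] [],
.mk (.mk 892 0o76543210 0o76543210 0o543210) [.mk 1112 0o76354210 0o76435210 0o452310, .mk 889
0o76413052 0o76153042 0o104253] [],
.mk (.mk 821 0o76453210 0o76453210 0o452310) [.mk 1152 0o76523104 0o76503421 0o54231, .mk 892
0o76543210 0o76543210 0o543210] [],
.mk (.mk 840 0o76543210 0o76543210 0o543210) [.mk 1112 0o76345210 0o76345210 0o452310] [],
.mk (.mk 840 0o76543210 0o76543210 0o543210) [.mk 1112 0o76435210 0o76354210 0o452310, .mk 906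
0o76412035 0o76051342 0o15432] [],
.mk (.mk 821 0o76543210 0o76543210 0o543210) [.mk 1151 0o76534210 0o76534210 0o453210, .mk 906
0o76431520 0o76254130 0o253401] [],
.mk (.mk 750 0o76534210 0o76534210 0o453210) [.mk 1037 0o76543210 0o76543210 0o543210, .mk 906
0o76532410 0o76524310 0o354210] [],
.mk (.mk 580 0o76543210 0o76543210 0o543210) [.mk 1132 0o76540123 0o76540123 0o51423, .mk 901
0o76543120 0o76543120 0o452310] [],
.mk (.mk 813 0o76402513 0o76250314 0o103452) [.mk 1008 0o76453210 0o76453210 0o453210, .mk 893
0o76502413 0o76520314 0o31542]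
[0x3106025228c230021d418c13821208000018a31c628c858923d2200020a114c4369002714e184110041401b8138c0041188c0008293222,
0x46a6289cc640329188c8241b28524123d0cc64300495920051084c0218011042c700c1cca642390040e0110860221000a6800331900242310140c110d000082d3422,
0xe018bb24011c20c5100a408474ac04512a11ce394f4021040284101e25c2000172a2888400143250420d8803a0058190a59e030029891a01186010154b000082d3a22],
.mk (.mk 987 0o76532410 0o76524310 0o254301) [.mk 1131 0o76354120 0o76435120 0o143502]
[0x3842031861082214086733c405856300ce90008358cc27000c89c25ac1c27006373935002a1209a0308c5308863a1222841149c000828b153,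
0x2a000028020087100484211e000a9a10394224010824963008394b01950c638559c800c61017008604a80800110002794000210c2580013c0604004c1ba8044184154bc00082e3153,
0x1e308800080c108821101e4084e428545410004044622d81480402006620900005e3220110288300563181606000110c28b8344b802110080aa20f1182b384114c800082ab153],
.mk (.mk 1023 0o76103452 0o76123054 0o21453) [.mk 1099 0o76425130 0o76351420 0o153042, .mk 893
0o76543210 0o76543210 0o543210] [],
.mk (.mk 836 0o76124503 0o76230451 0o203451) [.mk 899 0o76543210 0o76543210 0o543210, .mk 1188
0o76534210 0o76534210 0o453210] [],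
.mk (.mk 898 0o76251034 0o76401532 0o15234) [.mk 1117 0o76351024 0o76405132 0o201534, .mk 1182
0o76152034 0o76401352 0o105324, .mk 1182 0o76435210 0o76354210 0o453210] [],
.mk (.mk 898 0o76543210 0o76543210 0o543210) [.mk 1157 0o76215043 0o76310542 0o105243, .mk 1139
0o76213045 0o76013542 0o12534] [],
.mk (.mk 828 0o76354021 0o76435102 0o150432) [.mk 1186 0o76345120 0o76345120 0o453120, .mk 1046
0o76543210 0o76543210 0o254130] [],
.mk (.mk 881 0o76543210 0o76543210 0o543210) [.mk 895 0o76324510 0o76235410 0o254310, .mk 1186
0o76534210 0o76534210 0o453210] [],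
.mk (.mk 825 0o76245130 0o76341520 0o145320) [.mk 1177 0o76453201 0o76453201 0o42315, .mk 1180
0o76134520 0o76234150 0o345102] [],
.mk (.mk 836 0o76523140 0o76513420 0o345021) [.mk 1083 0o76342510 0o76245310 0o254310, .mk 1177
0o76324051 0o76135402 0o140532] [],
.mk (.mk 1184 0o76153240 0o76413250 0o345201) [.mk 965 0o76253410 0o76423510 0o254130, .mk 1177
0o76234051 0o76134502 0o140523] [],
.mk (.mk 899 0o76534210 0o76534210 0o453210) [.mk 1130 0o76542310 0o76542310 0o254310, .mk 1192
0o76534021 0o76534102 0o150432] [],
.mk (.mk 665 0o76310542 0o76215043 0o231504) [.mk 1187 0o76140352 0o76142053 0o103245, .mk 1162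
0o76543210 0o76543210 0o543210] [],
.mk (.mk 851 0o76435120 0o76354120 0o453120) [.mk 861 0o76315402 0o76325041 0o210345, .mk 1192
0o76214530 0o76231540 0o345120]
[0x1880a805134098190e10645406a8e600415c908f6062180091520420003884004e184ae8f0140290320740e4910190222ac05a388e1060090d02b00c221c136811a0b4818100042112081b002024c190e4000835c15a],
.mk (.mk 1015 0o76513042 0o76513042 0o15423) [.mk 861 0o76345210 0o76345210 0o452301, .mk 1138
0o76234510 0o76234510 0o245031]
[0x200a20100501b4030045d5d4f82841d80616880000fc011d50ca042184400a81845087542404809c01d1accb20f1cb00294cc002081079960c4d814d10c24448500c380bd042d1008c4c0164598204438c148100a409801d0e8000839588b],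
.mk (.mk 1083 0o76532410 0o76524310 0o254310) [.mk 861 0o76542310 0o76542310 0o354120] [],
.mk (.mk 836 0o76345210 0o76345210 0o453210) [.mk 907 0o76543210 0o76543210 0o543210, .mk 1095
0o76032451 0o76124305 0o214305]
[0x102a0d046408c40a82e421023002062884050584509003000411000038c9080e018207081264110118d60188064acc054807330e20082a094e0600114bc00082aa29d],
.mk (.mk 907 0o76543210 0o76543210 0o543210) [.mk 897 0o76123504 0o76203451 0o203514, .mk 1138
0o76123405 0o76023451 0o23514]
[0x5840c7048410016b8c4116b80e1191c021008010403900210704ba600000b255a80c200005081c001a0130446008802800301ee4029e460c008502490834599105202b908c00d911e716108e04f80540290056026813413288214cc00083cd0e1,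
0x2002124c2119090605348052342d01d471049318801090121140102c8512001a0d4b100c40008106441256821080e00d0a20a04002d4358997383221c80918402000f40c4150dc000831511a],
.mk (.mk 717 0o76420513 0o76250413 0o215034) [.mk 1137 0o76502413 0o76520314 0o124305] [],
.mk (.mk 1110 0o76542310 0o76542310 0o254310) [.mk 935 0o76534210 0o76534210 0o453210, .mk 1167
0o76521340 0o76512430 0o345021]
[0x6008a94027919341a0102004cc4084094540a00804ce00462884303a009886230a105576042a8e1a0400838124600008ca00601108000320849c84418540428305cd0110ec00082dc4e5],
.mk (.mk 1053 0o76201453 0o76120534 0o231045) [.mk 1121 0o76102453 0o76120354 0o32154, .mk 1192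
0o76345210 0o76345210 0o453201]
[0x423a0120499410182731620208030840402c4d5288038060008473a06989ca068641080c5682287e8644898010564007042064058281600114b400082a411d],
.mk (.mk 881 0o76543210 0o76543210 0o543210) [.mk 895 0o76425310 0o76352410 0o254310, .mk 1197
0o76543021 0o76543102 0o140532] [],
.mk (.mk 1103 0o76542310 0o76542310 0o254310) [.mk 1154 0o76132045 0o76014352 0o15234, .mk 935
0o76543210 0o76543210 0o453210] [],
.mk (.mk 1039 0o76102345 0o76012354 0o13524) [.mk 1053 0o76351420 0o76425130 0o342501] [],
.mk (.mk 1108 0o76103542 0o76213054 0o32514) [.mk 959 0o76432501 0o76254301 0o254103, .mk 1162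
0o76543210 0o76543210 0o543210, .mk 1183 0o76401523 0o76250134 0o123405] [],
.mk (.mk 1066 0o76451032 0o76451032 0o230415) [.mk 959 0o76542310 0o76542310 0o354210] [],
.mk (.mk 1119 0o76231540 0o76214530 0o145320) [.mk 841 0o76543210 0o76543210 0o543210, .mk 1200
0o76451320 0o76452130 0o451320] [],
.mk (.mk 1052 0o76451230 0o76451230 0o451230) [.mk 1097 0o76543210 0o76543210 0o543210, .mk 1140
0o76150324 0o76402153 0o104253]
[0x604285010384080188390481b98d14890600005c80091000500b0c6800b1a80a80200e14782700480384e0c406098b99208784004581b8468ce60801b24a00804385100000615888e860180840a47845a0c8c008584200194e800083518d1,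
0x3130ad10451102041344e02242300171396a2648996e46070050880601c639548820d1316da0134c20990141e8503659920046489726952658c40845d09023a100150d000083118e1,
0x108400308f8420468c8a018c098d8058838988018048c400504834208194110c0055c0850985041901344009008845053809806884000ab200894804f80688c00c807a4836180d28184194c400083118e9],
.mk (.mk 1044 0o76542130 0o76541320 0o452130) [.mk 901 0o76543210 0o76543210 0o543210, .mk 933
0o76432510 0o76254310 0o125043] [],
.mk (.mk 776 0o76543210 0o76543210 0o543210) [.mk 1057 0o76450312 0o76452013 0o130452] [],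
.mk (.mk 628 0o76501432 0o76521034 0o320145) [.mk 1037 0o76301524 0o76205134 0o32145, .mk 914
0o76543210 0o76543210 0o543210] [],
.mk (.mk 1081 0o76435210 0o76354210 0o453210) [.mk 948 0o76421530 0o76251430 0o315402, .mk 1108
0o76103542 0o76213054 0o23514] [],
.mk (.mk 1020 0o76135042 0o76314052 0o25341) [.mk 862 0o76420531 0o76251403 0o134025] [],
.mk (.mk 584 0o76543210 0o76543210 0o543210) [.mk 924 0o76451302 0o76452031 0o125430, .mk 857
0o76541302 0o76542031 0o215430]
[0x4088a5981b900f88018403800004180c888c031a4c046000098109002f8451100a0809080d04648803982302e180621040005b041784cd05ea883444790c39056a181f80f400d38815053c80f4805704c304519428acc9087980010058044389fceee999cda139800308294d4000846c6ca,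
0x19c1db001802004008892847a000b842d0487049604d8805f843508698407140a0c03801684a20c2b0412a4a40c0380008009840584051427c0080cb7815b00769441a80634658465802588b884760803809984cc801308ac021db49490e30825846b05091ca488294d0000846d6ca],
.mk (.mk 584 0o76543210 0o76543210 0o543210) [.mk 1074 0o76041352 0o76142035 0o201435, .mk 1024
0o76541302 0o76542031 0o152340]
[0x3d4008803c00f80d4000805400a826a02204201218126027070a01a006c01900300050000001000a006074e04d01b806614b805c184c046801f8c19c8800083146ca,
0xf004504b009040009922b81ec40a00400e4864cd86074ac0ab901e21702e089c0de25b10a98f080247c003089ac50ea4504f054003001811d96c50b00050901e00080c7239002814d825103581886020a102204d4210d000083d56ca],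
.mk (.mk 1020 0o76521430 0o76521430 0o135402) [.mk 1157 0o76345210 0o76345210 0o452301, .mk 1141
0o76035412 0o76324015 0o21453] [],
.mk (.mk 898 0o76543210 0o76543210 0o543210) [.mk 1157 0o76215043 0o76310542 0o105243, .mk 959
0o76542310 0o76542310 0o254310] [],
.mk (.mk 1014 0o76014352 0o76132045 0o12345) [.mk 908 0o76543210 0o76543210 0o543210, .mk 1060
0o76532410 0o76524310 0o254310] [],
.mk (.mk 1095 0o76450132 0o76451023 0o250314) [.mk 1121 0o76214350 0o76132540 0o134052, .mk 1129
0o76210453 0o76120543 0o15243]
[0x203000b75866e1941a04e44c2e3440db6c4f01964004672640851002411683280f64581301171002407c0307c488001f630011385a8546e2048aa18ad1480495054048442a0c150e00008329060,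
0x1920f120010060091268188c184208001a784620e20083008b246c58490312c214c290032e068d059813e400cb11857a4288080f502261408a9015a7c80306038a548718f312774c519830a4984190e00008369160],
.mk (.mk 1095 0o76452310 0o76452310 0o453120) [.mk 888 0o76312405 0o76025341 0o34512, .mk 1110
0o76213504 0o76203541 0o304152]
[0xb88305c8cb20d00101e00980625210190108204998c9c10c9a819011418098030898578c80530032068c988708c0458490178c08c05c301794b84880380e0400011c085608e00785e02580800294d0189c284194dc000835a684,
0x55004901a850090d3041040c874100f61c0e0008d640121164304015155a0108c30058f0024117540108c002502110014284e4385c999a8d3c060a443158031780d02044204440f4dd3644150f0000831d684],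
.mk (.mk 1003 0o76321504 0o76205431 0o304512) [.mk 1129 0o76450132 0o76451023 0o250314, .mk 1130
0o76452310 0o76452310 0o453120]
[0x84b0605c12c48c200aa0c00020835108031846a0881314532008252ccc23c8172896028d334097a584116c8f08e5d10984315470144302a4022850218cb5280f3088a0744150dc000831a684,
0x4f883c13601f121090840204335a8198c9c05ba0600e403b44060a910241c05a003087950c002013834840ce5971fc81363421714eb118c24c0140c0231c12e590052d380606bc32c1034c5c005631b07dc210c8000839c684],
.mk (.mk 1088 0o76420135 0o76051423 0o52134) [.mk 1187 0o76315240 0o76315240 0o314502, .mk 957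
0o76534021 0o76534102 0o420531]
[0x30a03c0584411e208a610d3101402300112204ca08410b80040014538011c61040080004c2842324a3d0110a00200ca284631c3bc8189910070ce1185190044600109101680000154d00008329060,
0x108d1010c301400f0420871928800040c18c714004088104338668114a847c401c00838b580b85808f08e89d8013c00828a70092820820051000c70400448438c194ac0008329120],
.mk (.mk 830 0o76543210 0o76543210 0o543210) [.mk 1130 0o76321540 0o76215430 0o145230, .mk 901
0o76543120 0o76543120 0o230541] [],
.mk (.mk 758 0o76543210 0o76543210 0o543210) [.mk 1130 0o76405132 0o76351024 0o150324] [],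
.mk (.mk 885 0o76543210 0o76543210 0o453210) [.mk 1119 0o76435012 0o76354012 0o41523, .mk 1167
0o76543210 0o76543210 0o543210]
[0x1c07805848144008060570100f44439a13401422947006135a11f810c6201c84f09e220428060c615c230c90141984a08d1884142380c00235d051c128215840c916261100008e00aa388100154dc000832d0cc],
.mk (.mk 992 0o76142503 0o76240351 0o125340) [.mk 1109 0o76021435 0o76021435 0o21354, .mk 953
0o76142503 0o76240351 0o215340] [],
.mk (.mk 865 0o76543210 0o76543210 0o453210) [.mk 1154 0o76543012 0o76543012 0o51423, .mk 953
0o76350421 0o76425103 0o243105] [],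
.mk (.mk 847 0o76520134 0o76501423 0o23154) [.mk 1161 0o76512034 0o76501342 0o105423, .mk 936
0o76543210 0o76543210 0o543210] [],
.mk (.mk 1007 0o76542310 0o76542310 0o254310) [.mk 872 0o76534120 0o76534120 0o453120, .mk 1192
0o76534021 0o76534102 0o150432] [],
.mk (.mk 865 0o76543210 0o76543210 0o453210) [.mk 953 0o76430521 0o76254103 0o243105, .mk 1177
0o76301452 0o76125034 0o31245] [],
.mk (.mk 726 0o76543210 0o76543210 0o453210) [.mk 806 0o76452310 0o76452310 0o254310, .mk 1167
0o76435021 0o76354102 0o150423] [],
.mk (.mk 1101 0o76201453 0o76120534 0o31254) [.mk 906 0o76243501 0o76243501 0o254103, .mk 1167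
0o76543210 0o76543210 0o543210] [],
.mk (.mk 725 0o76543210 0o76543210 0o543210) [.mk 946 0o76432510 0o76254310 0o254310, .mk 836
0o76453120 0o76453120 0o453120] [],
.mk (.mk 725 0o76543210 0o76543210 0o543210) [.mk 1053 0o76341502 0o76245031 0o132540, .mk 898
0o76453210 0o76453210 0o453210] [],
.mk (.mk 881 0o76543210 0o76543210 0o543210) [.mk 921 0o76235401 0o76324501 0o231540, .mk 885
0o76543021 0o76543102 0o140532] [],
.mk (.mk 885 0o76543210 0o76543210 0o453210) [.mk 1046 0o76435012 0o76354012 0o41523, .mk 796
0o76543210 0o76543210 0o543210]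
[0x16010081800e048531540a0dc96004cb026083060017c421445120504164c911018d2d86108ccb4e020389965c514100371582311479144761dc6550ce14c001000a100c150d8000832dacc],
.mk (.mk 660 0o76453210 0o76453210 0o453210) [.mk 1183 0o76543210 0o76543210 0o543210] [],
.mk (.mk 725 0o76543210 0o76543210 0o543210) [.mk 946 0o76345120 0o76345120 0o145230, .mk 827
0o76452310 0o76452310 0o354120] [],
.mk (.mk 725 0o76543210 0o76543210 0o543210) [.mk 1099 0o76432510 0o76254310 0o254310, .mk 866
0o76452310 0o76452310 0o354120] [],
.mk (.mk 881 0o76543210 0o76543210 0o543210) [.mk 882 0o76234510 0o76234510 0o245130, .mk 891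
0o76354210 0o76435210 0o453210] [],
.mk (.mk 1073 0o76235104 0o76304521 0o215430) [.mk 1099 0o76543210 0o76543210 0o543210, .mk 1046
0o76543210 0o76543210 0o453210] [],
.mk (.mk 1046 0o76120453 0o76120453 0o31245) [.mk 1192 0o76435210 0o76354210 0o453210, .mk 1162
0o76543210 0o76543210 0o543210] [],
.mk (.mk 927 0o76543210 0o76543210 0o543210) [.mk 1105 0o76435102 0o76354021 0o52413, .mk 1182
0o76543210 0o76543210 0o453210]
[0x2810230441030e0480013080119041280e2428e0009230882112442380a1e040111040001000a0c000000024c406061908412842310288a001238340184c17000028d8138480188114e400082c452a]]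

theorem v3700 : chkL Tab.T5 Tab.RT Tab.reps Tab.E2 Ker.cert7 D3700 3700 = true := by
  decide +kernel

end CR.C2
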