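import Pool.Agent.Lib.MP_6f5d36_co.Ker
import Pool.Agent.Lib.MP_6f5d36_co.RTab
import Pool.Agent.Lib.MP_6f5d36_co.C2.KerC
import Pool.Agent.Lib.MP_6f5d36_co.C2.ETab

/-! MP_6f5d36_co, case (ii), level 7 : the ranks 3800, ..., 3899 -/

set_option autoImplicit false
set_option maxRecDepth 100000

noncomputable section

namespace CR.C2

/-- the frames and certificates of the ranks 3800, ..., 3899 -/
def D3800 : List It :=
[.mk (.mk 720 0o76435210 0o76354210 0o453201) [.mk 1104 0o76530412 0o76524013 0o230514, .mk 949
0o76514320 0o76532140 0o345120] [],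
.mk (.mk 763 0o76543210 0o76543210 0o543210) [.mk 1044 0o76453201 0o76453201 0o254103, .mk 1192
0o76354210 0o76435210 0o453201] [],
.mk (.mk 833 0o76134025 0o76034152 0o14253) [.mk 1125 0o76543210 0o76543210 0o543210, .mk 840
0o76435210 0o76354210 0o452310] [],
.mk (.mk 805 0o76543210 0o76543210 0o543210) [.mk 1131 0o76405321 0o76352104 0o243105, .mk 833
0o76425310 0o76352410 0o354120] [],
.mk (.mk 833 0o76415302 0o76352041 0o305241) [.mk 1142 0o76543210 0o76543210 0o543210] [],
.mk (.mk 833 0o76134052 0o76134052 0o104253) [.mk 840 0o76435210 0o76354210 0o452310, .mk 1146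
0o76543210 0o76543210 0o543210] [],
.mk (.mk 805 0o76543210 0o76543210 0o543210) [.mk 1152 0o76251043 0o76410532 0o25431, .mk 833
0o76452310 0o76452310 0o453120] [],
.mk (.mk 649 0o76345210 0o76345210 0o453210) [.mk 1034 0o76154023 0o76430152 0o140253] [],
.mk (.mk 1103 0o76350214 0o76405213 0o124305) [.mk 1134 0o76531042 0o76514032 0o41352, .mk 1152
0o76240315 0o76042513 0o214035] [],
.mk (.mk 580 0o76543210 0o76543210 0o543210) [.mk 1050 0o76542130 0o76541320 0o452130] [],
.mk (.mk 580 0o76543210 0o76543210 0o325401) [.mk 580 0o76543210 0o76543210 0o543210]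
[0x9809a02c0170014a6802f1b88c24008802189180440000708b801800630013698684221140068c08814309311003c29012411280bd201c915a72814200a01482a02840a0060820420a22104001841d4c00008351b5c,
0x1400da30404c10030c1c1986100a5879e380140324a801417c16843805716c18182616f410264004022440c1f86254ce086e8bf40fd544539820108479449c045acc4880828c57449823cb9874410079041d0d800083ad463],
.mk (.mk 561 0o76534210 0o76534210 0o452301) [.mk 1074 0o76410235 0o76051243 0o32154, .mk 824
0o76403521 0o76253104 0o243015]
[0x860340ae808c400000332831800a4a12ba02a405c30c1190c1400e33c00008ac026036093819901401800002dd252046022242407614220590246ae43809c844ca1e004280190805b000013a83cc3cc061000c08658009002a81d4dc000839a424],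
.mk (.mk 561 0o76534210 0o76534210 0o453210) [.mk 1029 0o76504231 0o76531204 0o243015, .mk 857
0o76415230 0o76351240 0o134052]
[0x15408437508100b519237c00383e0c7c1071c980f01aa30b00708080981350a3005c26208040600c80b2158385807c0021714000db488c04710b852859040d106941802250010018c542a25501d4c98200908100080881a038003a81d4e0000839b0a4],
.mk (.mk 825 0o76425031 0o76351402 0o253014) [.mk 1078 0o76543210 0o76543210 0o453210, .mk 857
0o76543210 0o76543210 0o543210]
[0x401a06d6a82353421013c1ec843006ba8046d0046120a0011143aa04019863a010289840a84a2a01e041e2180060310c070c114a00008290a62,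
0xec54a41230a838076245013900405e071109803c86240333e804a06461e6640840450045322000755ce530192840000009406a0144040aa13c002883821860290040302351009a7c70a00054908604e8020c1008a8800008220286486a40161402980210f400083d8acb,
0x588959104800d78b172a4441680f10663444a2103d1e0883160281080200015e648481862518640e8a260e660058003568b0410be8042385118322a804daa1c245028c231640a869628930201480190e40008358b0b],
.mk (.mk 799 0o76153402 0o76423051 0o215340) [.mk 1111 0o76453120 0o76453120 0o42513] [],
.mk (.mk 934 0o76435210 0o76354210 0o453210) [.mk 933 0o76435210 0o76354210 0o125043, .mk 891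
0o76543210 0o76543210 0o543210] [],
.mk (.mk 622 0o76534210 0o76534210 0o453210) [.mk 1130 0o76543210 0o76543210 0o254130, .mk 852
0o76435021 0o76354102 0o150423]
[0x124608200c0d85a0821102098080a100100464003388184410218c88141202124e818400431cc18461081a8388884020484d80504010004a8801c1200500108a0540204154c400082db15a],
.mk (.mk 1054 0o76501342 0o76512034 0o31452) [.mk 1201 0o76340521 0o76245103 0o213450, .mk 934
0o76543210 0o76543210 0o453210] [],
.mk (.mk 1062 0o76305124 0o76305124 0o103425) [.mk 919 0o76310542 0o76215043 0o230541, .mk 1062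
0o76345120 0o76345120 0o453120] [],
.mk (.mk 1130 0o76014235 0o76031245 0o120345) [.mk 1177 0o76534210 0o76534210 0o453201, .mk 1203
0o76012345 0o76012345 0o12345, .mk 1108 0o76014235 0o76031245 0o210345]
[0x1000680288501f80e00701380300e88f00692181901790808a00104284400380618484d9c300e880989a08852002283045801007a06b49880804007808782989ac2bc008000804604300b0c00008450c400194d8000836d0a3],
.mk (.mk 1041 0o76321405 0o76025431 0o31524) [.mk 1157 0o76345210 0o76345210 0o452301, .mk 1130
0o76032415 0o76024315 0o120543] [],
.mk (.mk 648 0o76524301 0o76532401 0o245013) [.mk 1003 0o76254310 0o76432510 0o42315] [],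
.mk (.mk 687 0o76314205 0o76035241 0o35241) [.mk 1122 0o76543210 0o76543210 0o453210, .mk 751
0o76543210 0o76543210 0o543210] [],
.mk (.mk 751 0o76543210 0o76543210 0o543210) [.mk 938 0o76215304 0o76302541 0o305241, .mk 810
0o76314205 0o76035241 0o35421] [],
.mk (.mk 1025 0o76345210 0o76345210 0o453210) [.mk 965 0o76524031 0o76531402 0o31254, .mk 1104
0o76534021 0o76534102 0o301524] [],
.mk (.mk 732 0o76051243 0o76410235 0o312045) [.mk 993 0o76345201 0o76345201 0o245013] [],
.mk (.mk 1060 0o76453021 0o76453102 0o143205) [.mk 863 0o76543210 0o76543210 0o543210, .mk 889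
0o76543210 0o76543210 0o453210] [],
.mk (.mk 778 0o76543210 0o76543210 0o543210) [.mk 1113 0o76345210 0o76345210 0o452301] [],
.mk (.mk 1047 0o76254031 0o76431502 0o143025) [.mk 902 0o76543210 0o76543210 0o543210, .mk 799
0o76435210 0o76354210 0o453210] [],
.mk (.mk 833 0o76513402 0o76523041 0o14253) [.mk 871 0o76243510 0o76243510 0o452310] [],
.mk (.mk 801 0o76543210 0o76543210 0o453210) [.mk 969 0o76452301 0o76452301 0o240513, .mk 1177
0o76435021 0o76354102 0o150423] [],
.mk (.mk 799 0o76342501 0o76245301 0o251430) [.mk 1046 0o76410532 0o76251043 0o32514, .mk 1130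
0o76430512 0o76254013 0o132405] [],
.mk (.mk 799 0o76315402 0o76325041 0o231054) [.mk 861 0o76415302 0o76352041 0o320145] [],
.mk (.mk 1022 0o76035124 0o76304125 0o104235) [.mk 872 0o76435210 0o76354210 0o453210, .mk 1118
0o76025314 0o76302415 0o201453] [],
.mk (.mk 1066 0o76543120 0o76543120 0o53412) [.mk 1041 0o76543120 0o76543120 0o154320, .mk 945
0o76543210 0o76543210 0o453210] [],
.mk (.mk 1022 0o76102453 0o76120354 0o21354) [.mk 1139 0o76543210 0o76543210 0o453210, .mk 893
0o76543210 0o76543210 0o543210] [],
.mk (.mk 756 0o76540213 0o76540213 0o214305) [.mk 900 0o76450213 0o76450213 0o124305] [],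
.mk (.mk 764 0o76453210 0o76453210 0o453210) [.mk 1152 0o76423105 0o76053421 0o54231, .mk 892
0o76543210 0o76543210 0o543210] [],
.mk (.mk 1016 0o76542103 0o76540321 0o152043) [.mk 810 0o76542103 0o76540321 0o251043, .mk 1152
0o76541203 0o76540231 0o51234] [],
.mk (.mk 860 0o76532401 0o76524301 0o254103) [.mk 1165 0o76541320 0o76542130 0o21543, .mk 796
0o76543210 0o76543210 0o543210] [],
.mk (.mk 924 0o76243510 0o76243510 0o254130) [.mk 1188 0o76345210 0o76345210 0o453210, .mk 1186
0o76543210 0o76543210 0o543210] [],
.mk (.mk 846 0o76125043 0o76310452 0o105342) [.mk 836 0o76435210 0o76354210 0o453210, .mk 1119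
0o76542310 0o76542310 0o254310] [],
.mk (.mk 849 0o76523410 0o76523410 0o245310) [.mk 846 0o76453021 0o76453102 0o150423] [],
.mk (.mk 851 0o76534120 0o76534120 0o453120) [.mk 827 0o76240513 0o76240513 0o203451, .mk 1106
0o76230514 0o76204513 0o23415] [],
.mk (.mk 1055 0o76042531 0o76241305 0o241305) [.mk 927 0o76543210 0o76543210 0o543210, .mk 1184
0o76354210 0o76435210 0o453210] [],
.mk (.mk 754 0o76543210 0o76543210 0o543210) [.mk 1075 0o76325140 0o76315420 0o145230, .mk 853
0o76530421 0o76524103 0o230541] [],
.mk (.mk 792 0o76543210 0o76543210 0o543210) [.mk 1046 0o76014352 0o76132045 0o21345, .mk 959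
0o76015243 0o76310245 0o201435] [],
.mk (.mk 886 0o76543210 0o76543210 0o543210) [.mk 1104 0o76243051 0o76143502 0o325104] [],
.mk (.mk 1068 0o76420135 0o76051423 0o52134) [.mk 1118 0o76214350 0o76132540 0o134052]
[0xb1a08450c99108e204500b0408c588585304a1d70a18ca1830128d51800098c200208a1c484211b280991c0a0080430c30da84c805a02085a418460ca00181d884856812849b810c004a84101300500194d40008369060,
0x248074010d1478010120048280902002c0221526c2108003ec2c611472022160051400d43e6080730340464418a011246048d1105228054308f0252181209e24d0104938111e26c032082520954190e000083690a0,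
0x880040200782d08988b8900cb82401581510389b0c38501dba409000e184080002a8460dd080983143816007a1884184000c88a14381814394204418204c005b9c04618604400980594484e80800080608000128194e00008369120],
.mk (.mk 758 0o76102534 0o76201354 0o102345) [.mk 1050 0o76543210 0o76543210 0o543210] [],
.mk (.mk 1072 0o76432510 0o76254310 0o354210) [.mk 1113 0o76054321 0o76432105 0o124035, .mk 1050
0o76543210 0o76543210 0o543210] [],
.mk (.mk 920 0o76243510 0o76243510 0o325401) [.mk 955 0o76453120 0o76453120 0o452310, .mk 920
0o76543210 0o76543210 0o543210] [],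
.mk (.mk 984 0o76543210 0o76543210 0o543210) [.mk 1198 0o76412035 0o76051342 0o52413, .mk 955
0o76543120 0o76543120 0o452310] [],
.mk (.mk 977 0o76532410 0o76524310 0o254301) [.mk 882 0o76543210 0o76543210 0o543210] [],
.mk (.mk 1020 0o76354102 0o76435021 0o45231) [.mk 1086 0o76543210 0o76543210 0o543210, .mk 1117
0o76503142 0o76513024 0o231405] [],
.mk (.mk 887 0o76543210 0o76543210 0o543210) [.mk 1037 0o76354012 0o76435012 0o450123, .mk 1142
0o76531240 0o76514230 0o235041] [],
.mk (.mk 759 0o76425310 0o76352410 0o354120) [.mk 1160 0o76532140 0o76514320 0o143502, .mk 1142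
0o76015342 0o76312045 0o23145] [],
.mk (.mk 1111 0o76453210 0o76453210 0o453210) [.mk 1143 0o76304251 0o76135204 0o130524, .mk 1096
0o76413205 0o76053241 0o53421] [],
.mk (.mk 1143 0o76250431 0o76421503 0o14523) [.mk 1143 0o76250431 0o76421503 0o105432, .mk 1143
0o76521430 0o76521430 0o234501] [],
.mk (.mk 889 0o76542301 0o76542301 0o254013) [.mk 1179 0o76432150 0o76154320 0o354210, .mk 1111
0o76450213 0o76450213 0o124305] [],
.mk (.mk 853 0o76523410 0o76523410 0o354120) [.mk 1164 0o76450123 0o76450123 0o41235, .mk 1167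
0o76543210 0o76543210 0o543210] [],
.mk (.mk 1122 0o76123504 0o76203451 0o125340) [.mk 1129 0o76201435 0o76021534 0o23145, .mk 959
0o76201534 0o76201534 0o203145] [],
.mk (.mk 806 0o76534201 0o76534201 0o251430) [.mk 1050 0o76251403 0o76420531 0o14325] [],
.mk (.mk 719 0o76452103 0o76450321 0o152043) [.mk 880 0o76542103 0o76540321 0o251043] [],
.mk (.mk 732 0o76543102 0o76543021 0o251403) [.mk 786 0o76351402 0o76425031 0o105234] [],
.mk (.mk 763 0o76543210 0o76543210 0o453201) [.mk 1051 0o76452301 0o76452301 0o245103, .mk 1167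
0o76543210 0o76543210 0o543210] [],
.mk (.mk 1060 0o76435201 0o76354201 0o245103) [.mk 1096 0o76145302 0o76342051 0o152430, .mk 816
0o76435210 0o76354210 0o453210] [],
.mk (.mk 1038 0o76514032 0o76531042 0o130425) [.mk 1150 0o76243501 0o76243501 0o254103, .mk 1167
0o76543210 0o76543210 0o543210]
[0x212c583054871c81904c703487025020140312c1e8004112652408c600e83010403800120c813569411c82020c3210076184221c072584107a805480f4480714c0c2110d928030300150e8000832516c],
.mk (.mk 828 0o76345210 0o76345210 0o453210) [.mk 822 0o76135402 0o76324051 0o125340, .mk 893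
0o76143502 0o76243051 0o215340] [],
.mk (.mk 828 0o76152034 0o76401352 0o105423) [.mk 1154 0o76453210 0o76453210 0o354120, .mk 1193
0o76253104 0o76403521 0o215430, .mk 949 0o76435210 0o76354210 0o453210]
[0x104b1100300c4e2029111e0804c47150084240811c05109040059430a020004692c41414412388176980215010908140e40524c312880314ce0ca530434d3050003c211680150dc0008308959],
.mk (.mk 1046 0o76542301 0o76542301 0o254013) [.mk 1134 0o76230154 0o76104523 0o104325, .mk 816
0o76543210 0o76543210 0o543210]
[0x182c0b1a0c81e1a0c8042c6f812101a042088dc42d6080cbb5411200082518a190000000980261316c04741438008f4890b80c9ee02090026f5081c0c00140b00110e400082edaa3],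
.mk (.mk 893 0o76543210 0o76543210 0o452301) [.mk 1150 0o76543210 0o76543210 0o245031, .mk 1150
0o76543210 0o76543210 0o354120, .mk 893 0o76543210 0o76543210 0o543210]
[0x261080008811405c22047008b340288618c50060a4228c3382310152292c0d8430d83114208a1a8a144680329e248000407264480140900c629438c154ac00082dcad9,
0x84114300200f801800903004a5a847804180885941142800081ada0d2040ac08c290c8150240df0458812179008c308588f8d22c305c0438494c88a7a4914699104a08d85504194bc000832374b],
.mk (.mk 1118 0o76231450 0o76124530 0o135042) [.mk 1161 0o76543210 0o76543210 0o543210, .mk 1139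
0o76345210 0o76345210 0o452301] [],
.mk (.mk 758 0o76354210 0o76435210 0o452301) [.mk 1164 0o76540123 0o76540123 0o41325, .mk 868
0o76152403 0o76420351 0o213504] [],
.mk (.mk 660 0o76501432 0o76521034 0o230415) [.mk 1148 0o76543210 0o76543210 0o453210, .mk 1154
0o76135042 0o76314052 0o15432] [],
.mk (.mk 801 0o76215430 0o76321540 0o435201) [.mk 1062 0o76123054 0o76103452 0o15324, .mk 879
0o76504321 0o76532104 0o241305] [],
.mk (.mk 1105 0o76235104 0o76304521 0o45231) [.mk 959 0o76501243 0o76510234 0o310245, .mk 1146
0o76543210 0o76543210 0o453210] [],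
.mk (.mk 1073 0o76452310 0o76452310 0o453120) [.mk 966 0o76210435 0o76021543 0o15243, .mk 1118
0o76053142 0o76413025 0o321405]
[0x190c584f0df81499000c8491053d088880710690d08b0c594224f0d301f8c085090c4e315e8a285905804001105ca5a0400c000690494484884f08a90304109894480595110581680288290282a00194d0000835c684],
.mk (.mk 1071 0o76543210 0o76543210 0o543210) [.mk 888 0o76452310 0o76452310 0o453120, .mk 1145
0o76120453 0o76120453 0o14523]
[0x804c0021405c0c00ec4883401408c43042806140a87846d45641c04c8084190f441800c8004580ba82846020cc2cc8409dcd080d4310044c480085580c00481ccb050a01c01e8bd5880ac0784504194e041041d0dc0008399b1d],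
.mk (.mk 1057 0o76024513 0o76230415 0o21354) [.mk 959 0o76012543 0o76210345 0o320145, .mk 1122
0o76231450 0o76124530 0o135042] [],
.mk (.mk 1059 0o76104253 0o76130254 0o21435) [.mk 1149 0o76543210 0o76543210 0o543210] [],
.mk (.mk 785 0o76514023 0o76530142 0o103524) [.mk 1113 0o76354210 0o76435210 0o452301] [],
.mk (.mk 847 0o76502143 0o76510324 0o32154) [.mk 1113 0o76521043 0o76510432 0o105432, .mk 958
0o76543210 0o76543210 0o543210] [],
.mk (.mk 997 0o76234510 0o76234510 0o245031) [.mk 1107 0o76345210 0o76345210 0o452301, .mk 1134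
0o76412305 0o76052341 0o35142] [],
.mk (.mk 565 0o76543210 0o76543210 0o543210) [.mk 1161 0o76543210 0o76543210 0o453210, .mk 1086
0o76352401 0o76425301 0o251430] [],
.mk (.mk 825 0o76530142 0o76514023 0o104235) [.mk 1081 0o76435210 0o76354210 0o453210] [],
.mk (.mk 1022 0o76321405 0o76025431 0o31524) [.mk 1139 0o76345210 0o76345210 0o452301, .mk 1078
0o76431502 0o76254031 0o130524] [],
.mk (.mk 776 0o76543210 0o76543210 0o543210) [.mk 1100 0o76153042 0o76413052 0o140352] [],
.mk (.mk 1036 0o76230154 0o76104523 0o104325) [.mk 1081 0o76435210 0o76354210 0o453210] [],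
.mk (.mk 946 0o76532410 0o76524310 0o354210) [.mk 868 0o76453210 0o76453210 0o452301, .mk 1100
0o76520431 0o76521403 0o52314] [],
.mk (.mk 1060 0o76320154 0o76105423 0o12543) [.mk 942 0o76543210 0o76543210 0o543210, .mk 1155
0o76534210 0o76534210 0o452301] [],
.mk (.mk 914 0o76432510 0o76254310 0o354210) [.mk 1145 0o76314052 0o76135042 0o24513]
[0x10000801515c31184580180404c750d040a445535001148267cc60a081631c21058114a49010482bc86140c034c8012c8d308c0904d615005144c110097005154580150d40008309b64,
0x438040040805000d014214118e028009a20b000420a865ce314030892bc00c460d8116420c5810180290350b380c42881a0010237002853222114699411000100080154c000082d1b64],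
.mk (.mk 1012 0o76543210 0o76543210 0o453210) [.mk 903 0o76314502 0o76235041 0o123504, .mk 904
0o76543210 0o76543210 0o543210]
[0x10482005c2018c7c11c150487608c410405209a8214cd635c22045e31c6800401804d2824522040b3350210005220af01891203414581411411204c005d555580150d0000830d464,
0x418080102801002910c020110e0280096313011d400814be0084689821619862046012824a5850200718659030ca2a859c001823140e093222010499411001100080154c000082d5464],
.mk (.mk 711 0o76543210 0o76543210 0o543210) [.mk 970 0o76452301 0o76452301 0o245103, .mk 1053
0o76532410 0o76524310 0o354210] [],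
.mk (.mk 1057 0o76543120 0o76543120 0o154320) [.mk 1182 0o76543210 0o76543210 0o453210, .mk 1140
0o76542130 0o76541320 0o53142, .mk 1196 0o76452310 0o76452310 0o254130] [],
.mk (.mk 1060 0o76134052 0o76134052 0o21435) [.mk 1113 0o76543210 0o76543210 0o543210, .mk 1057
0o76241035 0o76041532 0o104253] [],
.mk (.mk 1057 0o76352041 0o76415302 0o12435) [.mk 1102 0o76532401 0o76524301 0o254103, .mk 1141
0o76351042 0o76415032 0o104253]
[0x40490528448400898000cd1409c30411008c100a0428814c201020584d849842a0995804894e0430c48078000410c394694a802841840001108847109085015c04ac29ce8a60cf0ca10704300194cc000835271d,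
0x18060101c22210380c820038004c80d60129480322180422711908412001180502030d80d08220a0dc22021986c4c0718374c4350d0004630501c5402442a00110e000082d291d],
.mk (.mk 1041 0o76534210 0o76534210 0o152403) [.mk 868 0o76532410 0o76524310 0o254130, .mk 1057
0o76204351 0o76132504 0o12345] [],
.mk (.mk 855 0o76543210 0o76543210 0o543210) [.mk 1147 0o76413205 0o76053241 0o34152] [],
.mk (.mk 688 0o76543210 0o76543210 0o543210) [.mk 1059 0o76543120 0o76543120 0o135042, .mk 905
0o76532140 0o76514320 0o354102] []]

theorem v3800 : chkL Tab.T5 Tab.RT Tab.reps Tab.E2 Ker.cert7 D3800 3800 = true := by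
  decide +kernel

end CR.C2
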