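import Pool.Agent.Lib.MP_6f5d36_co.Ker
import Pool.Agent.Lib.MP_6f5d36_co.RTab
import Pool.Agent.Lib.MP_6f5d36_co.C2.KerC
import Pool.Agent.Lib.MP_6f5d36_co.C2.ETab

/-! MP_6f5d36_co, case (ii), level 7 : the ranks 3900, ..., 3999 -/

set_option autoImplicit false
set_option maxRecDepth 100000

noncomputable section

namespace CR.C2

/-- the frames and certificates of the ranks 3900, ..., 3999 -/
def D3900 : List It :=
[.mk (.mk 815 0o76354210 0o76435210 0o453210) [.mk 1015 0o76341052 0o76145032 0o231540] [],
.mk (.mk 826 0o76543210 0o76543210 0o543210) [.mk 1110 0o76341052 0o76145032 0o132504, .mk 851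
0o76531042 0o76514032 0o230154] [],
.mk (.mk 771 0o76523410 0o76523410 0o245310) [.mk 845 0o76435210 0o76354210 0o453210, .mk 1197
0o76345021 0o76345102 0o150432] [],
.mk (.mk 1057 0o76153402 0o76423051 0o251430) [.mk 1177 0o76204153 0o76130524 0o13425, .mk 1181
0o76204153 0o76130524 0o103452] [],
.mk (.mk 769 0o76324510 0o76235410 0o254310) [.mk 845 0o76354210 0o76435210 0o453210, .mk 881
0o76543210 0o76543210 0o543210] [],
.mk (.mk 611 0o76543210 0o76543210 0o543210) [.mk 1110 0o76531240 0o76514230 0o35241, .mk 881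
0o76253041 0o76413502 0o213504, .mk 1188 0o76243051 0o76143502 0o123504] [],
.mk (.mk 1055 0o76124035 0o76031452 0o201354) [.mk 1156 0o76142035 0o76041352 0o102534, .mk 1192
0o76345210 0o76345210 0o453201]
[0x40840000920490cd9000c08499019c390114080180a8c285004298588980d002d0390614a0418c98c88181028c380e0c0004807801944c418400c70089890850958823ce8a608f04a98700300194cc000835211d],
.mk (.mk 1084 0o76534210 0o76534210 0o152403) [.mk 810 0o76521430 0o76521430 0o21354, .mk 893
0o76342510 0o76245310 0o251403] [],
.mk (.mk 1130 0o76043251 0o76143205 0o13425) [.mk 1155 0o76523410 0o76523410 0o245130, .mk 945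
0o76345210 0o76345210 0o354102] [],
.mk (.mk 1067 0o76534120 0o76534120 0o154230) [.mk 914 0o76432510 0o76254310 0o254130, .mk 945
0o76534210 0o76534210 0o453210] [],
.mk (.mk 683 0o76532014 0o76504312 0o204153) [.mk 942 0o76251034 0o76401532 0o104235, .mk 642
0o76543120 0o76543120 0o453201] [],
.mk (.mk 722 0o76513204 0o76503241 0o214530) [.mk 941 0o76435210 0o76354210 0o453210] [],
.mk (.mk 771 0o76015234 0o76301245 0o203145) [.mk 1037 0o76015234 0o76301245 0o23145, .mk 1121
0o76403512 0o76253014 0o142305] [],
.mk (.mk 1095 0o76504132 0o76531024 0o150324) [.mk 949 0o76543210 0o76543210 0o543210, .mk 958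
0o76354210 0o76435210 0o453210, .mk 975 0o76241350 0o76142530 0o345201] [],
.mk (.mk 724 0o76520134 0o76501423 0o204135) [.mk 731 0o76452103 0o76450321 0o125340, .mk 999
0o76520134 0o76501423 0o24135] [],
.mk (.mk 1123 0o76524013 0o76530412 0o152034) [.mk 936 0o76543210 0o76543210 0o543210, .mk 1181
0o76534210 0o76534210 0o453210] [],
.mk (.mk 931 0o76435210 0o76354210 0o453210) [.mk 963 0o76524310 0o76532410 0o245130, .mk 936
0o76345021 0o76345102 0o150423] [],
.mk (.mk 731 0o76305214 0o76305214 0o214305) [.mk 1035 0o76504213 0o76530214 0o124305, .mk 1117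
0o76125403 0o76320451 0o31245] [],
.mk (.mk 1106 0o76354021 0o76435102 0o150432) [.mk 1111 0o76542310 0o76542310 0o254310, .mk 816
0o76152043 0o76410352 0o15324] [],
.mk (.mk 997 0o76234510 0o76234510 0o245031) [.mk 1111 0o76230145 0o76014523 0o13542, .mk 1107
0o76345210 0o76345210 0o452301] [],
.mk (.mk 823 0o76345210 0o76345210 0o452301) [.mk 997 0o76520413 0o76520413 0o251304, .mk 823
0o76543210 0o76543210 0o543210] [],
.mk (.mk 817 0o76215043 0o76310542 0o132054) [.mk 1105 0o76425301 0o76352401 0o245103, .mk 1086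
0o76543210 0o76543210 0o543210] [],
.mk (.mk 664 0o76543210 0o76543210 0o543210) [.mk 1105 0o76012453 0o76120345 0o310245] [],
.mk (.mk 557 0o76534210 0o76534210 0o453210) [.mk 795 0o76425103 0o76350421 0o54321, .mk 1153
0o76405231 0o76351204 0o342105] [],
.mk (.mk 771 0o76543210 0o76543210 0o543210) [.mk 800 0o76435210 0o76354210 0o453210] [],
.mk (.mk 754 0o76543210 0o76543210 0o543210) [.mk 1075 0o76325140 0o76315420 0o145320, .mk 853
0o76430521 0o76254103 0o230541] [],
.mk (.mk 1102 0o76025134 0o76301425 0o102543) [.mk 1108 0o76342510 0o76245310 0o254310, .mk 1046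
0o76034125 0o76034125 0o12453]
[0x700e8000140142180c21809c81091106e1c4504020a02c008040000002904138a31d0a509180200079020800240504b02201025081b0230dcd20209460041084300408208c154c800082d20cc,
0x780b138051000c104a2414cff440a02c401000a22b833344d800c8b0409410053084a91c8500d0555c8fe08cd03946152051140b514c44805307005008407101b01c4105c0150dc00083124cc,
0xf01d0980146380113400d2614700e1144300801a000018412844280200438232c2684110233021286616320a00870960240b80a617061161d410a72084006208178609930aa04c4200154d400083126cc,
0xb01b8090458068440408900159c288fb0484288004110680680184200904c2000828800461710420088ca80600390200090820f8c50c780005b80c80704b2ca4428093020030c08c008f10111709a30984384a80194e000083528cc],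
.mk (.mk 914 0o76543210 0o76543210 0o543210) [.mk 1046 0o76531204 0o76504231 0o35142, .mk 1157
0o76543210 0o76543210 0o453210] [],
.mk (.mk 947 0o76234510 0o76234510 0o245301) [.mk 942 0o76345210 0o76345210 0o452301, .mk 942
0o76543210 0o76543210 0o543210, .mk 947 0o76432510 0o76254310 0o354210]
[0x20420830080082c8100a21043d00a080018010270221506208318600441004108198490022a612c2f85158a01c60c880a6b0d08150382625a70210385584280b10c04c45943218a046294154dc00083138cb,
0x44810402209330007c00c413c00d604027198131003b0ccf5258d5050de8f0800014008131184256dcb0005414c44108fe124c433022118440084720010154c8525999280150dc000832ab29],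
.mk (.mk 609 0o76543210 0o76543210 0o325401) [.mk 942 0o76520413 0o76520413 0o103524, .mk 920
0o76543120 0o76543120 0o452310, .mk 920 0o76543120 0o76543120 0o234501]
[0x20348400160183e00706441c2580024a43c20004034000628c000280002003052518010f829a11cefa06482818800c428201c2000601361c231027ad318470441800182000154c800082d1b4c,
0x100194601701881a02c8d78070018790560898040818030094448810538dc08c8879c090880180080589c8c488124604a08588b0c00098c914b851a588549128c604804591941b04018f8448c8b818018430c194dc000836d461],
.mk (.mk 851 0o76435120 0o76354120 0o453120) [.mk 848 0o76405312 0o76352014 0o210354, .mk 1136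
0o76214530 0o76231540 0o345120]
[0x8083c4280e0438411c7a448060042c308c8958038092c18888068070490030c518604104004804190404105a0c20088038899c088500b1801ce21a8a88029c21019021488072450020c680e80704d08194d4000835c15a],
.mk (.mk 1015 0o76510324 0o76502143 0o15342) [.mk 1128 0o76542310 0o76542310 0o453120, .mk 848
0o76432510 0o76254310 0o354210]
[0x18305248442020d1858d0161a1180101824816a174b21cd000a118783841427a00801b8014026454118aac021a03620701b45e843008d0420200126098041400d063005803c0c230c10c8014026009031800c24024e00f841d4d8000839bb02],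
.mk (.mk 763 0o76435012 0o76354012 0o150243) [.mk 904 0o76534201 0o76534201 0o214530, .mk 796
0o76435210 0o76354210 0o453210] [],
.mk (.mk 1105 0o76453201 0o76453201 0o254103) [.mk 1196 0o76510342 0o76512043 0o32514, .mk 1168
0o76420153 0o76150423 0o132045] [],
.mk (.mk 1050 0o76143502 0o76243051 0o240513) [.mk 1136 0o76453210 0o76453210 0o453210, .mk 1154
0o76105234 0o76301254 0o103524] [],
.mk (.mk 901 0o76143502 0o76243051 0o240513) [.mk 1136 0o76453210 0o76453210 0o453210, .mk 1167
0o76543210 0o76543210 0o543210] [],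
.mk (.mk 1011 0o76425301 0o76352401 0o245103) [.mk 1164 0o76135240 0o76314250 0o12435, .mk 810
0o76125340 0o76312450 0o102345] [],
.mk (.mk 914 0o76540231 0o76541203 0o205134) [.mk 1156 0o76534210 0o76534210 0o452301, .mk 1164
0o76423510 0o76253410 0o354120] [],
.mk (.mk 914 0o76453210 0o76453210 0o453210) [.mk 1132 0o76251304 0o76402531 0o125430, .mk 947
0o76351204 0o76405231 0o215340] [],
.mk (.mk 649 0o76354210 0o76435210 0o453210) [.mk 970 0o76403215 0o76053214 0o25134] [],
.mk (.mk 542 0o76543210 0o76543210 0o543210) [.mk 1148 0o76435210 0o76354210 0o453210] [],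
.mk (.mk 796 0o76543210 0o76543210 0o543210) [.mk 1153 0o76315240 0o76315240 0o12543, .mk 942
0o76532401 0o76524301 0o254103] [],
.mk (.mk 983 0o76523014 0o76503412 0o204513) [.mk 1050 0o76431025 0o76054132 0o21453] [],
.mk (.mk 1033 0o76453201 0o76453201 0o254103) [.mk 846 0o76125034 0o76301452 0o105423] [],
.mk (.mk 778 0o76543210 0o76543210 0o543210) [.mk 1098 0o76430152 0o76154023 0o130254, .mk 799
0o76435210 0o76354210 0o453210] [],
.mk (.mk 1035 0o76532140 0o76514320 0o135042) [.mk 893 0o76543210 0o76543210 0o543210, .mk 1057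
0o76235041 0o76314502 0o13425] [],
.mk (.mk 1099 0o76243150 0o76143520 0o135042) [.mk 1119 0o76012453 0o76120345 0o21345, .mk 893
0o76543210 0o76543210 0o543210] [],
.mk (.mk 734 0o76540312 0o76542013 0o241305) [.mk 1099 0o76320145 0o76015423 0o14253, .mk 1195
0o76314520 0o76235140 0o354201] [],
.mk (.mk 768 0o76532104 0o76504321 0o215430) [.mk 1167 0o76435210 0o76354210 0o453210] [],
.mk (.mk 896 0o76132504 0o76204351 0o215430) [.mk 1167 0o76345210 0o76345210 0o453201, .mk 1167
0o76543210 0o76543210 0o543210] [],
.mk (.mk 548 0o76513402 0o76523041 0o301425) [.mk 876 0o76534210 0o76534210 0o453210, .mk 1091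
0o76543210 0o76543210 0o543210]
[0x1403041a04e001802424420911b8ad024600901321104ea307013b454012226157800a052023007080427841c1851018e7a24110381e804815772708943201584b50c8040c00f07204141904260be83484d218d0118a58000075200041d4e40008380b1a],
.mk (.mk 548 0o76543210 0o76543210 0o543210) [.mk 1002 0o76354021 0o76435102 0o250314, .mk 1024
0o76543102 0o76543021 0o152430]
[0x34060821840662505c195c134201115809c0d0e051948070dce0790039818046844007880040406b25db8b440e21271f91ee01605c514800dc8446422db1030ea8d1103e81ec16c8000700a904e2124030060ceac3e00188020210dc00083d468a],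
.mk (.mk 838 0o76543210 0o76543210 0o452310) [.mk 1091 0o76523104 0o76503421 0o45231, .mk 601
0o76543210 0o76543210 0o543210] [],
.mk (.mk 601 0o76543210 0o76543210 0o543210) [.mk 1030 0o76435210 0o76354210 0o452310, .mk 1024
0o76543210 0o76543210 0o254130] [],
.mk (.mk 1070 0o76421350 0o76152430 0o135042) [.mk 1161 0o76543210 0o76543210 0o543210, .mk 1139
0o76345210 0o76345210 0o452301] [],
.mk (.mk 1017 0o76234510 0o76234510 0o245031) [.mk 1203 0o76435102 0o76354021 0o152430, .mk 863
0o76423510 0o76253410 0o354120] [],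
.mk (.mk 840 0o76534210 0o76534210 0o453210) [.mk 1090 0o76543210 0o76543210 0o543210, .mk 889
0o76523410 0o76523410 0o354120] [],
.mk (.mk 1010 0o76203514 0o76203514 0o304125) [.mk 1174 0o76453210 0o76453210 0o453210, .mk 889
0o76421305 0o76052431 0o53142] [],
.mk (.mk 1088 0o76543210 0o76543210 0o543210) [.mk 1143 0o76042315 0o76042315 0o102543, .mk 1141
0o76453210 0o76453210 0o453210] [],
.mk (.mk 836 0o76354210 0o76435210 0o453210) [.mk 1162 0o76245013 0o76340512 0o23541, .mk 927
0o76543210 0o76543210 0o543210] [],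
.mk (.mk 720 0o76543210 0o76543210 0o543210) [.mk 959 0o76041532 0o76241035 0o230415] [],
.mk (.mk 889 0o76423501 0o76253401 0o254013) [.mk 1046 0o76502413 0o76520314 0o124305, .mk 1162
0o76543210 0o76543210 0o543210] [],
.mk (.mk 697 0o76530412 0o76524013 0o230514) [.mk 945 0o76435210 0o76354210 0o453210] [],
.mk (.mk 855 0o76543210 0o76543210 0o543210) [.mk 1029 0o76502143 0o76510324 0o15324, .mk 857
0o76413502 0o76253041 0o215430]
[0xc985c565c1054c2bf80ac1083ccb42dbcc00084704002dd86d90429893919880404081c054430410404c340ac424c54c0103000c7a5050d1410908c83c050424c0803815401d0c0a0d05207c4e48f80960f44d001d0e0000839190b,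
0x730523802c0089c10202c40a9a82a08d0388a02c68a001b50a460582301918025a8a8d4be22c81081104a05040c03182805c1ce540470c398115a0a5011030b284885b97000a18d828f2182340190e0000835390b],
.mk (.mk 855 0o76543210 0o76543210 0o543210) [.mk 824 0o76405132 0o76351024 0o105234, .mk 1074
0o76413052 0o76153042 0o201435]
[0x608458f06b808d4285200080083b444c80c84412626002a40a42944443005c42197d82180401c80887c4c8c28d54074082000800056c0683556cda003c1940240dc00c02202884f035c7542806043001d0d4000839990b,
0x1700946020cd32c98244681284101cc883c091048b301c0314803040730c4721950410112224300d0053881116c151c00147052641611c830120800e8135c41329004000150d8000831b90b],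
.mk (.mk 695 0o76354210 0o76435210 0o453210) [.mk 1035 0o76543210 0o76543210 0o543210] [],
.mk (.mk 880 0o76543210 0o76543210 0o453210) [.mk 947 0o76532410 0o76524310 0o354210, .mk 1159
0o76234105 0o76034521 0o213504] [],
.mk (.mk 1063 0o76532410 0o76524310 0o453210) [.mk 1183 0o76032415 0o76024315 0o21543, .mk 1183
0o76024315 0o76032415 0o102543, .mk 1183 0o76043215 0o76043215 0o210543] [],
.mk (.mk 709 0o76532410 0o76524310 0o453210) [.mk 1183 0o76532401 0o76524301 0o54213, .mk 1183
0o76542301 0o76542301 0o145203, .mk 1183 0o76543201 0o76543201 0o254103] [],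
.mk (.mk 1009 0o76543120 0o76543120 0o351402) [.mk 1174 0o76453210 0o76453210 0o453210, .mk 889
0o76502314 0o76502314 0o43125] [],
.mk (.mk 815 0o76325410 0o76325410 0o453210) [.mk 826 0o76543210 0o76543210 0o543210, .mk 951
0o76025314 0o76302415 0o204135] [],
.mk (.mk 804 0o76435210 0o76354210 0o453210) [.mk 1114 0o76124350 0o76132450 0o102354, .mk 1152
0o76402351 0o76152304 0o324105] [],
.mk (.mk 840 0o76543210 0o76543210 0o543210) [.mk 1064 0o76345210 0o76345210 0o452310, .mk 1114
0o76432150 0o76154320 0o154320] [],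
.mk (.mk 836 0o76435120 0o76354120 0o453120) [.mk 1071 0o76425310 0o76352410 0o254130] [],
.mk (.mk 850 0o76543210 0o76543210 0o254130) [.mk 898 0o76345120 0o76345120 0o453120, .mk 816
0o76345021 0o76345102 0o150423] [],
.mk (.mk 704 0o76514023 0o76530142 0o205143) [.mk 1036 0o76413025 0o76053142 0o25143] [],
.mk (.mk 1036 0o76352041 0o76415302 0o142305) [.mk 792 0o76543210 0o76543210 0o543210, .mk 893
0o76435210 0o76354210 0o354210] [],
.mk (.mk 1026 0o76345210 0o76345210 0o453210) [.mk 1145 0o76031425 0o76024135 0o123405] [],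
.mk (.mk 1053 0o76541320 0o76542130 0o351402) [.mk 1100 0o76541230 0o76541230 0o153402, .mk 928
0o76435210 0o76354210 0o453210] [],
.mk (.mk 1047 0o76123504 0o76203451 0o304521) [.mk 952 0o76301425 0o76025134 0o12543, .mk 960
0o76504123 0o76530124 0o250134] [],
.mk (.mk 1061 0o76324150 0o76135420 0o135042) [.mk 965 0o76543210 0o76543210 0o543210, .mk 957
0o76405231 0o76351204 0o302154] [],
.mk (.mk 776 0o76514032 0o76531042 0o105342) [.mk 1161 0o76354210 0o76435210 0o452301, .mk 1139
0o76514032 0o76531042 0o15342] [],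
.mk (.mk 940 0o76543210 0o76543210 0o453210) [.mk 970 0o76452310 0o76452310 0o254310, .mk 1177
0o76435021 0o76354102 0o150423] [],
.mk (.mk 1048 0o76453102 0o76453021 0o152430) [.mk 1074 0o76410523 0o76250143 0o230145, .mk 853
0o76421530 0o76251430 0o345201] [],
.mk (.mk 792 0o76543210 0o76543210 0o543210) [.mk 1078 0o76314052 0o76135042 0o24513, .mk 914
0o76435210 0o76354210 0o354210]
[0x410001c288c32003386304e08842c0188528c128868450040148148131410879916202409218080260604a90638a070350b508e1044300323a5182000601470021885084024a02220846040210154e00008319b64,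
0x404188214ae03211d0bb10ee03b705003505201740e00cc98c660045880802042088101cc0da03020d092855045a0170c6618541531d49380a664f04188698ae65118c2044840c2f16592c8c302ba218d0c5c8e640001b00f4210dc00083ebb02],
.mk (.mk 1012 0o76543210 0o76543210 0o453210) [.mk 1131 0o76315402 0o76325041 0o123504, .mk 792
0o76543210 0o76543210 0o543210]
[0x6a16c040918c8c0ec06d1948f800403c02440406cc549fc84000042c82c40000c0046d88a4870000080c010d8403288c36c9d92947806dc00cf287c4050dc45c03c6f518c07408483dc0500c406cc2810c0000001481d0e40008393b02,
0x30891038008029441018ca0080430c0882901806804047948801002802901200946002401a4600281001f14e18b90d90518385318300100584611189b0a08458008440828000c1801882841044bd504110004310194e0000835d464],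
.mk (.mk 816 0o76512340 0o76512340 0o345021) [.mk 1164 0o76542310 0o76542310 0o254310, .mk 1182
0o76543210 0o76543210 0o453210] [],
.mk (.mk 734 0o76530214 0o76504213 0o203541) [.mk 958 0o76435021 0o76354102 0o150423, .mk 1184
0o76534210 0o76534210 0o453210] [],
.mk (.mk 874 0o76523410 0o76523410 0o245310) [.mk 1186 0o76435210 0o76354210 0o453210, .mk 1195
0o76312045 0o76015342 0o15234] [],
.mk (.mk 1046 0o76352410 0o76425310 0o254310) [.mk 1177 0o76204153 0o76130524 0o13425, .mk 1186
0o76543210 0o76543210 0o543210] [],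
.mk (.mk 847 0o76421530 0o76251430 0o354021) [.mk 917 0o76243510 0o76243510 0o254130, .mk 1148
0o76345210 0o76345210 0o453210] [],
.mk (.mk 654 0o76530124 0o76504123 0o203514) [.mk 1192 0o76534012 0o76534012 0o150243, .mk 1194
0o76451032 0o76451032 0o51324] [],
.mk (.mk 1046 0o76201543 0o76210534 0o132045) [.mk 1162 0o76543210 0o76543210 0o543210, .mk 938
0o76432501 0o76254301 0o254103] [],
.mk (.mk 1046 0o76153024 0o76403152 0o105243) [.mk 1192 0o76345210 0o76345210 0o453201, .mk 1147
0o76143025 0o76043152 0o15243, .mk 1204 0o76025314 0o76302415 0o204315] [],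
.mk (.mk 860 0o76543210 0o76543210 0o543210) [.mk 1108 0o76052341 0o76412305 0o24315, .mk 868
0o76354210 0o76435210 0o453210] [],
.mk (.mk 712 0o76503412 0o76523014 0o241035) [.mk 941 0o76435210 0o76354210 0o453201, .mk 1192
0o76534012 0o76534012 0o150243] [],
.mk (.mk 779 0o76453210 0o76453210 0o453210) [.mk 1053 0o76320541 0o76215403 0o25314, .mk 868
0o76543210 0o76543210 0o543210] [],
.mk (.mk 1017 0o76130542 0o76214053 0o201543) [.mk 1110 0o76213504 0o76203541 0o304152, .mk 1113
0o76345210 0o76345210 0o453210] [],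
.mk (.mk 1046 0o76104532 0o76231054 0o23514) [.mk 1092 0o76401532 0o76251034 0o132405, .mk 1113
0o76345210 0o76345210 0o452301] [],
.mk (.mk 1007 0o76453210 0o76453210 0o453210) [.mk 993 0o76240153 0o76140523 0o320154, .mk 906
0o76423015 0o76053412 0o43215] []]

theorem v3900 : chkL Tab.T5 Tab.RT Tab.reps Tab.E2 Ker.cert7 D3900 3900 = true := by
  decide +kernel

end CR.C2
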