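import Pool.Agent.Lib.MP_6f5d36_co.Ker
import Pool.Agent.Lib.MP_6f5d36_co.RTab
import Pool.Agent.Lib.MP_6f5d36_co.C2.KerC
import Pool.Agent.Lib.MP_6f5d36_co.C2.ETab

/-! MP_6f5d36_co, case (ii), level 7 : the ranks 4000, ..., 4099 -/

set_option autoImplicit false
set_option maxRecDepth 100000

noncomputable section

namespace CR.C2

/-- the frames and certificates of the ranks 4000, ..., 4099 -/
def D4000 : List It :=
[.mk (.mk 985 0o76345210 0o76345210 0o453210) [.mk 1054 0o76120453 0o76120453 0o132054, .mk 1060
0o76410235 0o76051243 0o301245] [],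
.mk (.mk 976 0o76153204 0o76403251 0o43251) [.mk 933 0o76452031 0o76451302 0o235104, .mk 1073
0o76542031 0o76541302 0o325104] [],
.mk (.mk 761 0o76314205 0o76035241 0o34521) [.mk 970 0o76543210 0o76543210 0o543210, .mk 1068
0o76325104 0o76305421 0o305412] [],
.mk (.mk 1053 0o76154203 0o76430251 0o34521) [.mk 970 0o76543210 0o76543210 0o543210, .mk 970
0o76453021 0o76453102 0o325014, .mk 960 0o76543021 0o76543102 0o235014] [],
.mk (.mk 579 0o76534210 0o76534210 0o453210) [.mk 1146 0o76543210 0o76543210 0o543210, .mk 880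
0o76514302 0o76532041 0o304152] [],
.mk (.mk 671 0o76453210 0o76453210 0o354210) [.mk 925 0o76432105 0o76054321 0o53421] [],
.mk (.mk 796 0o76543210 0o76543210 0o543210) [.mk 921 0o76532401 0o76524301 0o254103, .mk 1164
0o76453210 0o76453210 0o21453] [],
.mk (.mk 1001 0o76351240 0o76415230 0o145320) [.mk 830 0o76543210 0o76543210 0o543210] [],
.mk (.mk 1060 0o76324051 0o76135402 0o235014) [.mk 1121 0o76530214 0o76504213 0o401532, .mk 954
0o76543210 0o76543210 0o543210] [],
.mk (.mk 905 0o76543210 0o76543210 0o453210) [.mk 907 0o76453210 0o76453210 0o354102, .mk 1144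
0o76543210 0o76543210 0o254310] [],
.mk (.mk 827 0o76543210 0o76543210 0o543210) [.mk 966 0o76203541 0o76213504 0o230451, .mk 958
0o76435210 0o76354210 0o453201] [],
.mk (.mk 905 0o76543210 0o76543210 0o543210) [.mk 933 0o76425310 0o76352410 0o254130, .mk 1162
0o76453021 0o76453102 0o41352] [],
.mk (.mk 905 0o76543210 0o76543210 0o543210) [.mk 1140 0o76435210 0o76354210 0o254310, .mk 945
0o76354210 0o76435210 0o453210] [],
.mk (.mk 758 0o76543210 0o76543210 0o543210) [.mk 1140 0o76012453 0o76120345 0o21345, .mk 1140
0o76405132 0o76351024 0o150324] [],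
.mk (.mk 1041 0o76401325 0o76052134 0o210453) [.mk 1140 0o76352104 0o76405321 0o305142, .mk 1102
0o76542310 0o76542310 0o453120] [],
.mk (.mk 988 0o76412305 0o76052341 0o53142) [.mk 1075 0o76034512 0o76234015 0o304125, .mk 1069
0o76152430 0o76421350 0o143502] [],
.mk (.mk 1007 0o76245013 0o76340512 0o41352) [.mk 1075 0o76043215 0o76043215 0o120534, .mk 848
0o76354210 0o76435210 0o452301] [],
.mk (.mk 1062 0o76534120 0o76534120 0o453120) [.mk 1156 0o76250134 0o76401523 0o14235, .mk 910
0o76240153 0o76140523 0o102453]
[0x48708100200348a00739ae102480f0860300600020e20023043a0431521000304204200000c41040794508200405a811ae00c0294100002862048400138a708100a13c601ce10432c870c710203c4080154e8000831231d],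
.mk (.mk 611 0o76543210 0o76543210 0o543210) [.mk 923 0o76453021 0o76453102 0o251304, .mk 1114
0o76453201 0o76453201 0o54213] [],
.mk (.mk 769 0o76543210 0o76543210 0o543210) [.mk 1116 0o76542310 0o76542310 0o354210] [],
.mk (.mk 902 0o76543210 0o76543210 0o543210) [.mk 1110 0o76354120 0o76435120 0o143502, .mk 965
0o76543210 0o76543210 0o354210] [],
.mk (.mk 848 0o76534210 0o76534210 0o452301) [.mk 1099 0o76534120 0o76534120 0o153402] [],
.mk (.mk 822 0o76435210 0o76354210 0o453210) [.mk 1046 0o76520431 0o76521403 0o25314, .mk 942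
0o76543210 0o76543210 0o543210] [],
.mk (.mk 1038 0o76052134 0o76401325 0o12453) [.mk 1113 0o76543210 0o76543210 0o543210, .mk 1046
0o76043125 0o76043125 0o102543] [],
.mk (.mk 839 0o76543210 0o76543210 0o543210) [.mk 1112 0o76435210 0o76354210 0o452310, .mk 923
0o76430521 0o76254103 0o352104] [],
.mk (.mk 681 0o76543210 0o76543210 0o543210) [.mk 1151 0o76534210 0o76534210 0o453210] [],
.mk (.mk 1046 0o76524301 0o76532401 0o152340) [.mk 921 0o76543210 0o76543210 0o543210, .mk 1155
0o76534210 0o76534210 0o452301] [],
.mk (.mk 1046 0o76250143 0o76410523 0o14325) [.mk 1046 0o76432501 0o76254301 0o254103, .mk 1132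
0o76240153 0o76140523 0o104325]
[0x8060984804062bcc61021d1886a1439b5c6a9001020423a2088462463285466351105ca2401e970481238a980061030c2807230190826108200110cc00082d251d],
.mk (.mk 996 0o76345021 0o76345102 0o352104) [.mk 1108 0o76340521 0o76245103 0o140532, .mk 1147
0o76350421 0o76425103 0o410532] [],
.mk (.mk 1061 0o76534210 0o76534210 0o254310) [.mk 905 0o76543210 0o76543210 0o543210, .mk 827
0o76251340 0o76412530 0o345201] [],
.mk (.mk 795 0o76425310 0o76352410 0o254130) [.mk 905 0o76543210 0o76543210 0o543210, .mk 1114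
0o76405321 0o76352104 0o143205] [],
.mk (.mk 708 0o76051342 0o76412035 0o310425) [.mk 1024 0o76531204 0o76504231 0o53421] [],
.mk (.mk 1017 0o76325410 0o76325410 0o345210) [.mk 1121 0o76501243 0o76510234 0o21534] [],
.mk (.mk 1026 0o76345210 0o76345210 0o453210) [.mk 886 0o76513420 0o76523140 0o23514, .mk 1098
0o76542301 0o76542301 0o350412] [],
.mk (.mk 1038 0o76104352 0o76132054 0o13254) [.mk 1137 0o76435012 0o76354012 0o450213] [],
.mk (.mk 851 0o76435120 0o76354120 0o453120) [.mk 850 0o76425310 0o76352410 0o254130, .mk 1114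
0o76405321 0o76352104 0o143205] [],
.mk (.mk 1015 0o76351420 0o76425130 0o342501) [.mk 850 0o76543210 0o76543210 0o543210, .mk 1024
0o76513204 0o76503241 0o53241] [],
.mk (.mk 927 0o76543210 0o76543210 0o453210) [.mk 1204 0o76352410 0o76425310 0o254310, .mk 1154
0o76401523 0o76250134 0o130245] [],
.mk (.mk 758 0o76435210 0o76354210 0o452301) [.mk 1147 0o76534021 0o76534102 0o320541] [],
.mk (.mk 758 0o76435210 0o76354210 0o453210) [.mk 1039 0o76054132 0o76431025 0o140325] [],
.mk (.mk 758 0o76543210 0o76543210 0o543210) [.mk 1147 0o76302154 0o76105324 0o15234] [],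
.mk (.mk 861 0o76354210 0o76435210 0o452301) [.mk 1092 0o76152340 0o76412350 0o24153, .mk 1147
0o76530142 0o76514023 0o132405] [],
.mk (.mk 1038 0o76432051 0o76154302 0o52431) [.mk 944 0o76543210 0o76543210 0o543210, .mk 948
0o76453201 0o76453201 0o251340]
[0x1012210040100e1241b85c811288a0204b21cd522c0800f810884120000004c1318c41011861042004ac820019000d20a1330a0f780ca21001030864a412003d35fe182510150dc00083256c9],
.mk (.mk 763 0o76345012 0o76345012 0o150234) [.mk 964 0o76354201 0o76435201 0o213540, .mk 1195
0o76541032 0o76541032 0o51324]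
[0x10420080e028843051101a4605049820930200901c4400944101551048672cc280800669c031441438811150119041420c2028c04144e10a805ce52142cd401000840f1680150dc000830b92a],
.mk (.mk 986 0o76450213 0o76450213 0o41253) [.mk 848 0o76542103 0o76540321 0o215340, .mk 861
0o76352104 0o76405321 0o123504] [],
.mk (.mk 754 0o76543210 0o76543210 0o543210) [.mk 1196 0o76532410 0o76524310 0o254310, .mk 1180
0o76103254 0o76103254 0o13254] [],
.mk (.mk 790 0o76543210 0o76543210 0o543210) [.mk 1167 0o76240351 0o76142503 0o213540, .mk 1143
0o76435201 0o76354201 0o54231] [],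
.mk (.mk 847 0o76543210 0o76543210 0o543210) [.mk 1137 0o76542103 0o76540321 0o125403, .mk 859
0o76543102 0o76543021 0o251043] [],
.mk (.mk 1154 0o76204135 0o76031524 0o13245) [.mk 1171 0o76453210 0o76453210 0o254310, .mk 1154
0o76401253 0o76150234 0o130245] [],
.mk (.mk 853 0o76512430 0o76521340 0o345201) [.mk 1154 0o76135024 0o76304152 0o15423, .mk 1170
0o76543210 0o76543210 0o453210] [],
.mk (.mk 708 0o76032154 0o76104325 0o104325) [.mk 802 0o76453210 0o76453210 0o453210] [],
.mk (.mk 820 0o76145023 0o76340152 0o105243) [.mk 622 0o76534120 0o76534120 0o453120, .mk 1110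
0o76543210 0o76543210 0o254130] [],
.mk (.mk 783 0o76543210 0o76543210 0o543210) [.mk 1154 0o76540321 0o76542103 0o32541, .mk 958
0o76354210 0o76435210 0o453210, .mk 1165 0o76154032 0o76431052 0o140352] [],
.mk (.mk 840 0o76534210 0o76534210 0o453210) [.mk 1091 0o76543210 0o76543210 0o543210, .mk 906
0o76531420 0o76524130 0o352401] [],
.mk (.mk 1010 0o76420351 0o76152403 0o253014) [.mk 1024 0o76540231 0o76541203 0o352104] [],
.mk (.mk 1022 0o76210345 0o76012543 0o102345) [.mk 902 0o76543210 0o76543210 0o543210, .mk 951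
0o76510243 0o76510243 0o201345]
[0x380684209c3048280811a25421880100000040c503033446a80206628838c91800514ce3b1882004004128431e008522846604405129822440a481ce35c2a88154b800082ed349],
.mk (.mk 999 0o76543210 0o76543210 0o543210) [.mk 973 0o76254301 0o76432501 0o245103] [],
.mk (.mk 560 0o76534210 0o76534210 0o453210) [.mk 1125 0o76543210 0o76543210 0o543210, .mk 923
0o76504321 0o76532104 0o342105] [],
.mk (.mk 770 0o76453210 0o76453210 0o453210) [.mk 1131 0o76341052 0o76145032 0o321504] [],
.mk (.mk 1138 0o76025143 0o76310425 0o21354) [.mk 1139 0o76345210 0o76345210 0o452301, .mk 1113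
0o76543210 0o76543210 0o543210] [],
.mk (.mk 647 0o76453210 0o76453210 0o453210) [.mk 703 0o76543210 0o76543210 0o543210] [],
.mk (.mk 1148 0o76453210 0o76453210 0o453210) [.mk 933 0o76342510 0o76245310 0o254310, .mk 1179
0o76304152 0o76135024 0o13452] [],
.mk (.mk 750 0o76345210 0o76345210 0o453120) [.mk 1137 0o76543210 0o76543210 0o543210] [],
.mk (.mk 1057 0o76241035 0o76041532 0o41235) [.mk 933 0o76543210 0o76543210 0o543210, .mk 1168
0o76254130 0o76431520 0o135402] [],
.mk (.mk 1100 0o76230451 0o76124503 0o25134) [.mk 868 0o76543210 0o76543210 0o452301, .mk 868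
0o76543210 0o76543210 0o543210] [],
.mk (.mk 1033 0o76253410 0o76423510 0o345120) [.mk 1114 0o76531042 0o76514032 0o204513, .mk 817
0o76543210 0o76543210 0o543210] [],
.mk (.mk 833 0o76452310 0o76452310 0o453120) [.mk 903 0o76450321 0o76452103 0o234105, .mk 924
0o76540231 0o76541203 0o324015]
[0x4204e2a0510450900ec0011570a0840198130ce1dcaa0111127889b01004a480408670ce54010893200348d88024a3118d10e256670c924a21681981a2b00521803000b000289018020ec288190dc000834c603,
0x709a2050188e102b04228c21084100a947204618008c218622ca500b19012dad04f09418c020102a80080985a0be0340b48a30238c0d8c100070c47c423061102080154c400082cc604],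
.mk (.mk 833 0o76421305 0o76052431 0o53142) [.mk 1145 0o76453210 0o76453210 0o453210, .mk 1024
0o76453210 0o76453210 0o354120]
[0xd0090c62040501800c4048185d284f18618402921046b08251020026807b06340818c5200018c110010243c212437102044400220c038400400a40040180901e50ca00c154c400082d980b,
0x480e04029b00c05718ac5e4640a880a09268954ec72496345a380a9d424d36409014232008c2024410108262710c90681508c82010610e8a00109040110d400082d990b],
.mk (.mk 795 0o76543210 0o76543210 0o543210) [.mk 1029 0o76510342 0o76512043 0o105432, .mk 857
0o76451302 0o76452031 0o305421]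
[0xae00d0a18104803611288da6308416006885803f0060101804611f961a3101000207182c20a006ae01046021c009603080403031400011bc2650bdc1210184120019c280008c0a20fac562032000800843050098214c000083a3681],
.mk (.mk 795 0o76510243 0o76510243 0o312054) [.mk 824 0o76435210 0o76354210 0o453210, .mk 1074
0o76452301 0o76452301 0o254103]
[0x540000c40f80840cc65411c2482dc2a840c90c0581481181c04741c01cb544340084083a8014014008c170184243908480ac390fac05406441847155c8008900005d89484125ec400004d0041a484824c1d0d8000839c602],
.mk (.mk 819 0o76543210 0o76543210 0o543210) [.mk 1153 0o76541203 0o76540231 0o31254, .mk 1182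
0o76534210 0o76534210 0o453210] [],
.mk (.mk 827 0o76354210 0o76435210 0o453201) [.mk 1046 0o76054213 0o76430215 0o42135, .mk 1132
0o76524301 0o76532401 0o152340, .mk 868 0o76352401 0o76425301 0o251430] [],
.mk (.mk 1140 0o76542310 0o76542310 0o254310) [.mk 945 0o76534210 0o76534210 0o453210, .mk 1154
0o76452031 0o76451302 0o51342] [],
.mk (.mk 787 0o76543210 0o76543210 0o254130) [.mk 851 0o76435210 0o76354210 0o453210, .mk 1169
0o76152043 0o76410352 0o105423]
[0x1c048468284a0901a1088a5021001844838821180437842010c6561001390a000c81238c008d01788e4b402900d6428001080a191360986470808309ca0600801802d500114d800082d90e9],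
.mk (.mk 1033 0o76453201 0o76453201 0o254103) [.mk 866 0o76521340 0o76512430 0o345021, .mk 1106
0o76543210 0o76543210 0o453201] [],
.mk (.mk 1033 0o76123045 0o76013452 0o102534) [.mk 951 0o76452310 0o76452310 0o254310, .mk 898
0o76543210 0o76543210 0o543210] [],
.mk (.mk 861 0o76342501 0o76245301 0o254103) [.mk 1117 0o76524301 0o76532401 0o152340, .mk 1202
0o76420513 0o76250413 0o32154] [],
.mk (.mk 796 0o76543210 0o76543210 0o543210) [.mk 1114 0o76135240 0o76314250 0o12453, .mk 1155
0o76532401 0o76524301 0o254103] [],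
.mk (.mk 824 0o76503421 0o76523104 0o243015) [.mk 1145 0o76310425 0o76025143 0o32514, .mk 883
0o76435210 0o76354210 0o452301]
[0x440c6119c0100c101001644c9754cb1180409630034022680106c9721c441474c1146a60400101458348001c6e70c53c0002410cc400801184020c97f54aa134d91142a05c0150e0000830da24,
0x511800981a00218584108000324e01481084404600184000d00094980b0010458078110470cf0448030c580589a9098428020d828a8631da04c0d290010001a8c38425c32859400ca152a00a410488c984188194dc000835da24,
0xa82e11c1982718101e1047b0cb1002081380339800c388081463940c8280b8348228061863742610f01c3e8813e80b4394239c00265724ab5411460021153686480ad8000220480880154d4000832da24],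
.mk (.mk 1029 0o76204531 0o76231504 0o243015) [.mk 903 0o76315420 0o76325140 0o134502, .mk 883
0o76435210 0o76354210 0o453210]
[0x410670451813040050180641f26c401204260180603b7962480300723740c1502a20209445181000c1d8a18918905481111090c1d4411480c07ec120b30a68f9080128844c9480718409c0190dc000834b164,
0x505881a0898421408431458018c480604100004095480e00d01094b00984100580781100794f8040030090420029181458450da95a80c15288020a86321a800103802183ac58c050a192a00a410888898018c194dc000835b164,
0x1a0702b80810002111045080125419590000180085e08c2544b80f03004ca580200822004924100204a9806232040ab805982134001504026302340d08230020800316d008a15101a1280480154dc000832b164],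
.mk (.mk 817 0o76543210 0o76543210 0o543210) [.mk 1023 0o76102543 0o76210354 0o13452] [],
.mk (.mk 1119 0o76432501 0o76254301 0o254103) [.mk 1100 0o76052314 0o76402315 0o42135, .mk 1192
0o76345210 0o76345210 0o453201] [],
.mk (.mk 857 0o76543210 0o76543210 0o543210) [.mk 1117 0o76452310 0o76452310 0o453120, .mk 951
0o76314025 0o76035142 0o25341] [],
.mk (.mk 866 0o76543210 0o76543210 0o543210) [.mk 1123 0o76123054 0o76103452 0o104532] [],
.mk (.mk 883 0o76502314 0o76502314 0o21453) [.mk 949 0o76543210 0o76543210 0o543210, .mk 958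
0o76435210 0o76354210 0o453201] [],
.mk (.mk 824 0o76403521 0o76253104 0o243015) [.mk 1109 0o76210534 0o76201543 0o32154, .mk 883
0o76435210 0o76354210 0o452301] [],
.mk (.mk 786 0o76351024 0o76405132 0o205341) [.mk 1103 0o76542310 0o76542310 0o453120, .mk 903
0o76503214 0o76503214 0o301542] [],
.mk (.mk 1057 0o76450132 0o76451023 0o42135) [.mk 939 0o76523410 0o76523410 0o345120, .mk 1076
0o76430521 0o76254103 0o140523] [],
.mk (.mk 817 0o76543210 0o76543210 0o210543) [.mk 1134 0o76543210 0o76543210 0o354210, .mk 1134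
0o76543210 0o76543210 0o21543]
[0xa03a185144c624106000044ca1000d00885b820a82b18e143c61640e0858849620907080849011300028e0400402104405080c002102182109000293a2b59600400341531843841612b00b8c00c1a01500a041d4cc000839a925,
0x1c040c2826541129000e0ec1f116800002410c3c48d48052408002100c20a2180801498046108005048400205d4a300d8602701285004ae5a0450008cc000610400f00c000e0232900420012125282803c42651a18c8044a02004400881d4e4000839a96c,
0x44000c000742042c00282432034c408714a00903a8040842d0180530c22d4792e40301c8021733440b06001e0a2000b80012c4362600310c01001200056064013845104754180510e0020aa8300a0040190e8000835a96d,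
0x8001a00dc02a896b20dc419c89a813100061208609983f201211e0a000418022e26f048904822926007400c8d5e2d98438807684c20c0e01b8237080010a6309c21a8000b0d8410484080e9114c0278461043c40320128e02b858387821dc05aa429027e42c400480254e00008424ad4,
0x1c810000217201f8c6004807901f009402812919a0cc403c21809004f468a42208f051d09620100d0064aa4600114006183e03b09b08f423e207101a86885815928404a827048128684e8404123900041c67451510680004002345011c1d4e400083ad8d4,
0x100340280b0a4710078180de890088d621a0444e88b000404a9810270330739a031e0706582400c01c050a9308101a00c53b00380411b006110010e01d46080c4c42005286c14c30605c4500154dc000832dad4],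
.mk (.mk 817 0o76543210 0o76543210 0o543210) [.mk 1122 0o76314052 0o76135042 0o312504, .mk 1108
0o76315042 0o76315042 0o132504] [],
.mk (.mk 929 0o76543210 0o76543210 0o543210) [.mk 1046 0o76435210 0o76354210 0o254310, .mk 1154
0o76120435 0o76021453 0o13245, .mk 975 0o76541320 0o76542130 0o354102] [],
.mk (.mk 884 0o76543210 0o76543210 0o543210) [.mk 1203 0o76435210 0o76354210 0o254310, .mk 1154
0o76420153 0o76150423 0o130254] [],
.mk (.mk 826 0o76543210 0o76543210 0o543210) [.mk 1183 0o76423051 0o76153402 0o123540, .mk 902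
0o76523041 0o76513402 0o231540] [],
.mk (.mk 703 0o76543210 0o76543210 0o543210) [.mk 1187 0o76352140 0o76415320 0o325401, .mk 1046
0o76534102 0o76534021 0o45231] [],
.mk (.mk 1057 0o76534120 0o76534120 0o154230) [.mk 1169 0o76435210 0o76354210 0o453210, .mk 1069
0o76530412 0o76524013 0o52341] [],
.mk (.mk 936 0o76543210 0o76543210 0o543210) [.mk 1141 0o76415023 0o76350142 0o150243, .mk 1154
0o76150324 0o76402153 0o23415] [],
.mk (.mk 1054 0o76231504 0o76204531 0o302415) [.mk 1100 0o76521403 0o76520431 0o230415, .mk 1046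
0o76543210 0o76543210 0o543210] [],
.mk (.mk 1059 0o76435201 0o76354201 0o251430) [.mk 1046 0o76142503 0o76240351 0o13425, .mk 896
0o76253401 0o76423501 0o152340] [],
.mk (.mk 844 0o76543210 0o76543210 0o543210) [.mk 1132 0o76231450 0o76124530 0o35142, .mk 891
0o76543120 0o76543120 0o453120] [],
.mk (.mk 819 0o76435210 0o76354210 0o453210) [.mk 785 0o76305412 0o76325014 0o130254, .mk 847
0o76514320 0o76532140 0o345120] []]

theorem v4000 : chkL Tab.T5 Tab.RT Tab.reps Tab.E2 Ker.cert7 D4000 4000 = true := by
  decide +kernel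

end CR.C2
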