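import Pool.Agent.Lib.MP_6f5d36_co.Ker
import Pool.Agent.Lib.MP_6f5d36_co.RTab
import Pool.Agent.Lib.MP_6f5d36_co.C2.KerC
import Pool.Agent.Lib.MP_6f5d36_co.C2.ETab

/-! MP_6f5d36_co, case (ii), level 7 : the ranks 4100, ..., 4199 -/

set_option autoImplicit false
set_option maxRecDepth 100000

noncomputable section

namespace CR.C2

/-- the frames and certificates of the ranks 4100, ..., 4199 -/
def D4100 : List It :=
[.mk (.mk 810 0o76302514 0o76205314 0o214305) [.mk 1107 0o76543210 0o76543210 0o452301, .mk 1107
0o76543210 0o76543210 0o543210] [],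
.mk (.mk 1081 0o76435210 0o76354210 0o453210) [.mk 1147 0o76431250 0o76154230 0o135042, .mk 1046
0o76250143 0o76410523 0o14235] [],
.mk (.mk 908 0o76543210 0o76543210 0o543210) [.mk 1156 0o76452310 0o76452310 0o351402, .mk 900
0o76534210 0o76534210 0o452310] [],
.mk (.mk 1105 0o76521430 0o76521430 0o135402) [.mk 1113 0o76345210 0o76345210 0o452301, .mk 1161
0o76543210 0o76543210 0o543210] [],
.mk (.mk 777 0o76524013 0o76530412 0o204513) [.mk 1172 0o76541320 0o76542130 0o345210, .mk 1051
0o76534012 0o76534012 0o24153] [],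
.mk (.mk 1049 0o76543210 0o76543210 0o453210) [.mk 893 0o76351420 0o76425130 0o234051, .mk 891
0o76521430 0o76521430 0o345201] [],
.mk (.mk 895 0o76453012 0o76453012 0o124305) [.mk 1108 0o76541032 0o76541032 0o42513, .mk 953
0o76543012 0o76543012 0o214305] [],
.mk (.mk 1023 0o76123054 0o76103452 0o104532) [.mk 1195 0o76530421 0o76524103 0o230541, .mk 898
0o76543210 0o76543210 0o543210] [],
.mk (.mk 836 0o76142503 0o76240351 0o203541) [.mk 1188 0o76435210 0o76354210 0o453210, .mk 1171
0o76432150 0o76154320 0o154320] [],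
.mk (.mk 898 0o76543210 0o76543210 0o543210) [.mk 1046 0o76452310 0o76452310 0o254310, .mk 1170
0o76204153 0o76130524 0o13542] [],
.mk (.mk 930 0o76543210 0o76543210 0o453210) [.mk 1046 0o76425031 0o76351402 0o41352, .mk 1132
0o76423501 0o76253401 0o245013] [],
.mk (.mk 885 0o76543210 0o76543210 0o543210) [.mk 1102 0o76435012 0o76354012 0o51423, .mk 1192
0o76354210 0o76435210 0o453201] [],
.mk (.mk 1101 0o76452013 0o76450312 0o51243) [.mk 946 0o76542310 0o76542310 0o254310, .mk 1184
0o76543210 0o76543210 0o453210] [],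
.mk (.mk 753 0o76243510 0o76243510 0o452310) [.mk 753 0o76543210 0o76543210 0o543210, .mk 869
0o76105234 0o76301254 0o102354] [],
.mk (.mk 928 0o76350412 0o76425013 0o241035) [.mk 1192 0o76453012 0o76453012 0o150243, .mk 1101
0o76542310 0o76542310 0o354210] [],
.mk (.mk 875 0o76143520 0o76243150 0o241503) [.mk 852 0o76501432 0o76521034 0o31245, .mk 1148
0o76354210 0o76435210 0o453210] [],
.mk (.mk 847 0o76240153 0o76140523 0o41253) [.mk 910 0o76152034 0o76401352 0o203514, .mk 1173
0o76543210 0o76543210 0o543210] [],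
.mk (.mk 817 0o76510423 0o76520143 0o105423) [.mk 1084 0o76435120 0o76354120 0o352401, .mk 1131
0o76510423 0o76520143 0o15423]
[0x34411c210ccc0108c80801c9d2c2c07c0488144d9e2421000143cc000b6868089000414045068470c6f02483b07c04cc41409c9800585e04e8dc8042f8038048459019c3c4548d405842801d0c80008350a19,
0x4844947817986009043187ac10420058470c800e0449c1045244449881b460810028819c688e891080843a0180c88a81400288a0420038001878421c690b0018901cd0059e30008508c684989600194d00008350a29],
.mk (.mk 1007 0o76145032 0o76341052 0o123054) [.mk 1142 0o76543210 0o76543210 0o543210]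
[0x58098040028468870098852838c6801980804041085bc00440258046c30c68028440941850d19420000430c104160b00012b8049c00801810431000038410180068440001010009ce84c04194cc0008343881,
0x44040d110806080e158c64144e00acb110cf12040901c061001345467cc4870c421004652c4a111813400133cc18348371441610800010980c0932802514411304150d00008303901],
.mk (.mk 880 0o76452310 0o76452310 0o254310) [.mk 1101 0o76542310 0o76542310 0o354210, .mk 1192
0o76543021 0o76543102 0o150423] [],
.mk (.mk 1101 0o76210543 0o76210543 0o32154) [.mk 1100 0o76302415 0o76025314 0o124035, .mk 1177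
0o76543210 0o76543210 0o543210] [],
.mk (.mk 720 0o76543210 0o76543210 0o543210) [.mk 1156 0o76520341 0o76512403 0o35124] [],
.mk (.mk 1103 0o76423501 0o76253401 0o254013) [.mk 1162 0o76543210 0o76543210 0o543210, .mk 1069
0o76305412 0o76325014 0o52341]
[0x120204a1a8500cc834680530c620159451d0c00d11114025294f51e8907ad78158126d831050b5390006805d0067450821548c404c7d0c43008250084c25825120482300150d8000831251d],
.mk (.mk 827 0o76240513 0o76240513 0o203451) [.mk 1171 0o76435120 0o76354120 0o154320, .mk 1185
0o76534210 0o76534210 0o453210] [],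
.mk (.mk 866 0o76543210 0o76543210 0o543210) [.mk 1057 0o76453102 0o76453021 0o251430, .mk 1170
0o76204153 0o76130524 0o13542] [],
.mk (.mk 802 0o76543120 0o76543120 0o453120) [.mk 1177 0o76435021 0o76354102 0o150432, .mk 1109
0o76542310 0o76542310 0o254310] [],
.mk (.mk 762 0o76532401 0o76524301 0o132504) [.mk 725 0o76543210 0o76543210 0o543210, .mk 1132
0o76241503 0o76240531 0o31254] [],
.mk (.mk 763 0o76512430 0o76521340 0o345201) [.mk 1097 0o76403521 0o76253104 0o234105, .mk 1169
0o76534210 0o76534210 0o453210] [],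
.mk (.mk 934 0o76543210 0o76543210 0o453210) [.mk 1177 0o76435021 0o76354102 0o150423, .mk 1204
0o76542310 0o76542310 0o254310] [],
.mk (.mk 1177 0o76345021 0o76345102 0o150423) [.mk 973 0o76542310 0o76542310 0o254310, .mk 1185
0o76543210 0o76543210 0o453210] [],
.mk (.mk 856 0o76450213 0o76450213 0o23514) [.mk 856 0o76542013 0o76540312 0o204513, .mk 1082
0o76532104 0o76504321 0o125043] [],
.mk (.mk 785 0o76342501 0o76245301 0o254103) [.mk 1074 0o76435201 0o76354201 0o152430, .mk 796
0o76543210 0o76543210 0o543210] [],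
.mk (.mk 1114 0o76520413 0o76520413 0o251034) [.mk 1192 0o76543210 0o76543210 0o543210, .mk 1164
0o76302145 0o76015324 0o14235] [],
.mk (.mk 847 0o76531420 0o76524130 0o345210) [.mk 848 0o76450312 0o76452013 0o230154, .mk 1181
0o76435021 0o76354102 0o150432] [],
.mk (.mk 709 0o76513420 0o76523140 0o345210) [.mk 736 0o76435210 0o76354210 0o453210, .mk 1130
0o76403521 0o76253104 0o234105] [],
.mk (.mk 1105 0o76452301 0o76452301 0o254013) [.mk 1164 0o76513042 0o76513042 0o132504, .mk 816
0o76543210 0o76543210 0o543210] [],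
.mk (.mk 985 0o76435210 0o76354210 0o453210) [.mk 1084 0o76514203 0o76530241 0o53412, .mk 928
0o76543210 0o76543210 0o543210] [],
.mk (.mk 684 0o76540213 0o76540213 0o124305) [.mk 827 0o76543210 0o76543210 0o453210, .mk 866
0o76543210 0o76543210 0o543210] [],
.mk (.mk 777 0o76543210 0o76543210 0o21435) [.mk 878 0o76453120 0o76453120 0o452310, .mk 928
0o76234501 0o76234501 0o340512, .mk 777 0o76543210 0o76543210 0o543210] [],
.mk (.mk 604 0o76534201 0o76534201 0o251304) [.mk 609 0o76543210 0o76543210 0o543210, .mk 777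
0o76542310 0o76542310 0o453120] [],
.mk (.mk 764 0o76354210 0o76435210 0o453210) [.mk 892 0o76543210 0o76543210 0o543210, .mk 928
0o76234051 0o76134502 0o140523] [],
.mk (.mk 850 0o76432510 0o76254310 0o245301) [.mk 1155 0o76543210 0o76543210 0o452301, .mk 1157
0o76014235 0o76031245 0o102354, .mk 1157 0o76014235 0o76031245 0o13245]
[0x5ec00601048c0e8018848b00a200258479082700b980fa4414880005330c43801c400d0863840d0e685405cc0680d64c10c963d0a78006082b008ac22c84a68c0cdc00e124046cb001f8091004c008e8570c22a80884069406c401a801c801a0053801d82d0c8000845da22,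
0x3543877041244226120ec700ef0122fe4631d80d81170d1113e83f2a43151b695144588010dc26d006bf326c64216a183ba116321d0a1307058f599c2d2125e52b39c5b3191521234602454de3133987213ac40004800f1015212cf600b1083b1099030095c2442443831c72801c062a11944bb015b785efe482ac0b4b50948213ea01f188390e0000856b154],
.mk (.mk 851 0o76435120 0o76354120 0o453120) [.mk 1142 0o76425310 0o76352410 0o254130, .mk 1192
0o76213540 0o76213540 0o345102]
[0x8f40564221c22d44c385488b3d05e000040411807dc368020c002c83e8032c09c085ec026a016c00c04001840405708a60886499880b04c0b083d5c2d2c7f843500135c02c627c0e9c505c0014423042dc695c1a3440fe078147ec1d280144c130115cc3c00000063c50586cacbd68064c42d0e4000849c15a],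
.mk (.mk 1015 0o76501243 0o76510234 0o105234) [.mk 850 0o76543210 0o76543210 0o543210, .mk 1138
0o76253410 0o76423510 0o345120, .mk 1142 0o76403125 0o76053124 0o201543]
[0x10e408800006017580da0600020b001228401803b0265002b184fac023c12ac00398000c4326315b08dc0c60421b80469080a08060b20e00ce19e19805d2a1e250614c58c0382006100100000802c200072a701728cf10a010400b180b6d11c68f002f710b0a401880662003180080000001a10553017b82d4e000084a3941],
.mk (.mk 1015 0o76543120 0o76543120 0o145230) [.mk 1173 0o76542310 0o76542310 0o354120, .mk 905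
0o76543210 0o76543210 0o543210] [],
.mk (.mk 1057 0o76435120 0o76354120 0o154230) [.mk 1113 0o76432510 0o76254310 0o254130, .mk 891
0o76543210 0o76543210 0o543210]
[0xe04102819c0a8a200a528a581e0064086518500c12040056484000cb8c618103023803010344851960a01046e941086118ea00d20c908a0988208c380b1131be2606504902c0346c00154d40008312a63],
.mk (.mk 940 0o76435210 0o76354210 0o453210) [.mk 933 0o76435210 0o76354210 0o125043, .mk 891
0o76543210 0o76543210 0o543210] [],
.mk (.mk 893 0o76452310 0o76452310 0o254130) [.mk 891 0o76543210 0o76543210 0o543210, .mk 1167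
0o76432051 0o76154302 0o140523] [],
.mk (.mk 893 0o76452310 0o76452310 0o251403) [.mk 957 0o76504231 0o76531204 0o130452, .mk 1130
0o76302451 0o76125304 0o31542] [],
.mk (.mk 1041 0o76421503 0o76250431 0o132054) [.mk 822 0o76342510 0o76245310 0o254130, .mk 1132
0o76412503 0o76250341 0o31245] [],
.mk (.mk 852 0o76204153 0o76130524 0o103425) [.mk 1188 0o76543210 0o76543210 0o543210, .mk 1203
0o76352410 0o76425310 0o254310] [],
.mk (.mk 763 0o76543210 0o76543210 0o543210) [.mk 1102 0o76435102 0o76354021 0o152403, .mk 1181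
0o76534210 0o76534210 0o453210] [],
.mk (.mk 733 0o76450321 0o76452103 0o230541) [.mk 1167 0o76543210 0o76543210 0o543210, .mk 1187
0o76230541 0o76214503 0o32451]
[0xc04401000020c633048108da6080004096102c2200c208882740422290a16ac110216028c000a10018444020a400824350021084878c212008048420d00114c4000829192a],
.mk (.mk 1086 0o76543210 0o76543210 0o543210) [.mk 933 0o76015342 0o76312045 0o130425, .mk 1102
0o76425301 0o76352401 0o245103] [],
.mk (.mk 801 0o76543210 0o76543210 0o453210) [.mk 797 0o76534021 0o76534102 0o150423, .mk 958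
0o76514023 0o76530142 0o15342] [],
.mk (.mk 866 0o76521340 0o76512430 0o345021) [.mk 1118 0o76542310 0o76542310 0o254310, .mk 1181
0o76453021 0o76453102 0o150432] [],
.mk (.mk 1119 0o76132054 0o76104352 0o104253) [.mk 1195 0o76430521 0o76254103 0o230541, .mk 1185
0o76435120 0o76354120 0o453120] [],
.mk (.mk 957 0o76502314 0o76502314 0o204315) [.mk 1167 0o76435012 0o76354012 0o150234, .mk 1192
0o76534210 0o76534210 0o453201, .mk 1195 0o76314025 0o76035142 0o15243] [],
.mk (.mk 1102 0o76453201 0o76453201 0o254103) [.mk 1165 0o76124053 0o76130452 0o104352, .mk 816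
0o76543210 0o76543210 0o543210]
[0x80700f0844b0201b0104701adc5180530483010055084c20c833600840c000080112d46208cc80ac630502b2101170871344360209212cc50f480004570800528450500150d8000832d4d4,
0x28240441d058251842610424510d66218211c0804c414494111cec7200116d0a208e200d49d684700c010210130b42437c210c4ba3149f580612443165431300d0080e2580150dc000832d6d4],
.mk (.mk 993 0o76425301 0o76352401 0o152340) [.mk 810 0o76521430 0o76521430 0o21354, .mk 822
0o76342501 0o76245301 0o254103] [],
.mk (.mk 785 0o76543210 0o76543210 0o543210) [.mk 1100 0o76513042 0o76513042 0o51243] [],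
.mk (.mk 1071 0o76153240 0o76413250 0o24153) [.mk 861 0o76354210 0o76435210 0o452301, .mk 1072
0o76542031 0o76541302 0o140352] [],
.mk (.mk 790 0o76543210 0o76543210 0o543210) [.mk 1100 0o76125043 0o76310452 0o32514, .mk 933
0o76531240 0o76514230 0o125043] [],
.mk (.mk 905 0o76543210 0o76543210 0o543210) [.mk 1154 0o76420513 0o76250413 0o130254, .mk 1204
0o76425310 0o76352410 0o254130] [],
.mk (.mk 1057 0o76421053 0o76150432 0o14352) [.mk 959 0o76524301 0o76532401 0o152340, .mk 796
0o76543210 0o76543210 0o543210] [],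
.mk (.mk 721 0o76453012 0o76453012 0o124305) [.mk 738 0o76543012 0o76543012 0o214305] [],
.mk (.mk 1082 0o76435201 0o76354201 0o251430) [.mk 1119 0o76451203 0o76450231 0o41235, .mk 957
0o76054312 0o76432015 0o130524] [],
.mk (.mk 805 0o76450231 0o76451203 0o231450) [.mk 727 0o76453210 0o76453210 0o453210, .mk 874
0o76340251 0o76145203 0o123450] [],
.mk (.mk 848 0o76432510 0o76254310 0o254130) [.mk 1105 0o76410523 0o76250143 0o130245, .mk 891
0o76543210 0o76543210 0o543210] [],
.mk (.mk 1102 0o76132045 0o76014352 0o104253) [.mk 1167 0o76543210 0o76543210 0o543210, .mk 1197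
0o76534210 0o76534210 0o453210, .mk 1189 0o76430521 0o76254103 0o230541] [],
.mk (.mk 864 0o76543210 0o76543210 0o453210) [.mk 923 0o76452301 0o76452301 0o240531, .mk 1101
0o76542310 0o76542310 0o354210]
[0x2894801104000460a230043e210b05445850b8a0042c1c0c0165609996038335c8164414030c87011ad944c4031c000601c290d2c0303100560032b4840a5000c00110e800082e2b21],
.mk (.mk 718 0o76054312 0o76432015 0o130524) [.mk 1057 0o76043521 0o76243105 0o12345, .mk 1109
0o76435201 0o76354201 0o251430] [],
.mk (.mk 853 0o76152043 0o76410352 0o15324) [.mk 1060 0o76543210 0o76543210 0o254130, .mk 1148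
0o76435210 0o76354210 0o453210] [],
.mk (.mk 1059 0o76412053 0o76150342 0o31245) [.mk 1105 0o76152304 0o76402351 0o125430, .mk 1167
0o76543210 0o76543210 0o543210] [],
.mk (.mk 1059 0o76043152 0o76143025 0o12543) [.mk 1187 0o76521340 0o76512430 0o315402, .mk 1117
0o76431250 0o76154230 0o135042] [],
.mk (.mk 1059 0o76541203 0o76540231 0o142053) [.mk 947 0o76502413 0o76520314 0o230154, .mk 1140
0o76542103 0o76540321 0o42135] [],
.mk (.mk 921 0o76251304 0o76402531 0o15234) [.mk 967 0o76532104 0o76504321 0o215043, .mk 1189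
0o76315420 0o76325140 0o435210] [],
.mk (.mk 1043 0o76542130 0o76541320 0o452130) [.mk 1131 0o76415302 0o76352041 0o132504, .mk 822
0o76325410 0o76325410 0o354210]
[0x181a0033100572722a9c4ae35089812071401ac620198080e03608a0ca460618d1173b44960ae711811c042248008025450010aa1448d04c42308a08110d400082d3742],
.mk (.mk 1007 0o76514203 0o76530241 0o34152) [.mk 1128 0o76452310 0o76452310 0o453120, .mk 822
0o76325410 0o76325410 0o352401]
[0x7029c27008151c4100d05304412254d11984035030008012cc203102014045180340c8042ac1210e605c0a11387638112704541ccc139091210d30cc73290c2022a1304150d80008313742],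
.mk (.mk 887 0o76524130 0o76531420 0o245130) [.mk 1100 0o76204135 0o76031524 0o42315, .mk 1058
0o76543120 0o76543120 0o452310] [],
.mk (.mk 696 0o76543210 0o76543210 0o543210) [.mk 1116 0o76534210 0o76534210 0o453210, .mk 862
0o76530241 0o76514203 0o230541] [],
.mk (.mk 754 0o76354120 0o76435120 0o453120) [.mk 1060 0o76352140 0o76415320 0o145230, .mk 785
0o76542310 0o76542310 0o251403] [],
.mk (.mk 1008 0o76452310 0o76452310 0o453120) [.mk 901 0o76543210 0o76543210 0o543210, .mk 817
0o76503124 0o76503124 0o42315]
[0x1310b1e408c018e608c0907118301210c109a030430c7000a00e08c920010049b42004619201000021882118100af181188c000829a903,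
0x121b815c3601b05a01ce5854144c6c72045190074c185b087234aa9620828848999c26610c4301a200498a295c0045812aa8f60241485048194174010c154b000082dab03],
.mk (.mk 817 0o76510324 0o76502143 0o15432) [.mk 993 0o76524130 0o76531420 0o253041, .mk 1131
0o76510324 0o76502143 0o105432]
[0x144400001844a81729142120d210580651290c0080000860463009901a1311884862660c210451a2be80d494000825b0a0,
0xc4148220b60682601111ea74018ce00a3044c05b308429268070841152c900298174499161000a0809912ec0b126b131a20080718109236dc911402650825c8154b800082dd0a0],
.mk (.mk 759 0o76130524 0o76204153 0o210345) [.mk 1116 0o76152403 0o76420351 0o125430, .mk 959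
0o76410523 0o76250143 0o302514] [],
.mk (.mk 887 0o76142530 0o76241350 0o204513) [.mk 1037 0o76130542 0o76214053 0o23154] [],
.mk (.mk 774 0o76543210 0o76543210 0o543210) [.mk 1116 0o76543210 0o76543210 0o453210] [],
.mk (.mk 901 0o76543210 0o76543210 0o543210) [.mk 1037 0o76524130 0o76531420 0o245130, .mk 964
0o76543120 0o76543120 0o452310] [],
.mk (.mk 1054 0o76435120 0o76354120 0o351402) [.mk 1059 0o76543210 0o76543210 0o543210, .mk 1100
0o76423150 0o76153420 0o135042] [],
.mk (.mk 796 0o76543210 0o76543210 0o543210) [.mk 1100 0o76154320 0o76432150 0o21453, .mk 1179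
0o76523410 0o76523410 0o354120] [],
.mk (.mk 817 0o76543210 0o76543210 0o543210) [.mk 1122 0o76453210 0o76453210 0o453210, .mk 1102
0o76502314 0o76502314 0o301542] [],
.mk (.mk 1103 0o76513402 0o76523041 0o305142) [.mk 1117 0o76531024 0o76504132 0o402513, .mk 1117
0o76512403 0o76520341 0o35412] [],
.mk (.mk 1143 0o76150342 0o76412053 0o14532) [.mk 1143 0o76150342 0o76412053 0o105423, .mk 1143
0o76512340 0o76512340 0o234510, .mk 1143 0o76512340 0o76512340 0o325401] [],
.mk (.mk 836 0o76543210 0o76543210 0o453210) [.mk 1103 0o76352410 0o76425310 0o254310, .mk 1179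
0o76403251 0o76153204 0o31452] [],
.mk (.mk 753 0o76543210 0o76543210 0o543210) [.mk 1096 0o76542310 0o76542310 0o54321, .mk 1135
0o76524310 0o76532410 0o453210] [],
.mk (.mk 893 0o76503214 0o76503214 0o120453) [.mk 949 0o76543210 0o76543210 0o543210, .mk 1155
0o76304215 0o76035214 0o210453]
[0x486008b0f3481d840b423c611d138611001800b6503300c3100a5052660f230b09851ca22c20ad1033040006902011c0839c86a48280025429cc807d00040418e00318083c69dc041b21128c2d0015e004d2ab700e84244a3050017a010c4040401ee217b8462c03ac11881a5081cac2b200d7c0bb6802d4e00008488b43,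
0x160f204001298320441228805014231d13049218009d264c55315c008ca5340a124c7905c2014650a01f368141650881c2d190c301a0591a011450c1444150c400082d062c],
.mk (.mk 1109 0o76254130 0o76431520 0o42153) [.mk 1138 0o76534210 0o76534210 0o245031, .mk 893
0o76435210 0o76354210 0o452301]
[0x5546000005f431d3d17a612fd40dfd01e85c159249c006e754f4e0ca2913bc6bac16d5d4f8321aba403760f8c456b259f487573ef61e6c34379c4b9c1f38867ef324604dda1387c47454c10891fa108f885ea00ef814031364805a242cd52e0a31f79401a1e3e8010e180ed515f01e49e60b368885212a1da8463a01fdc8350e0000852d94b,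
0x99089840bc21600c628281028a01040f10fa7364a018474047807a820184a22800565445088544066d01021b1037a0700a78151040a102808240038ac804100acc6030416100220b04008ca9588a113401694162830000c60f3400003e301821188254d0000842da22],
.mk (.mk 792 0o76543210 0o76543210 0o543210) [.mk 1069 0o76541203 0o76540231 0o54312, .mk 893
0o76435210 0o76354210 0o354210] [],
.mk (.mk 1022 0o76205314 0o76302514 0o214035) [.mk 893 0o76543210 0o76543210 0o543210] [],
.mk (.mk 1072 0o76524301 0o76532401 0o152340) [.mk 893 0o76342501 0o76245301 0o251430, .mk 796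
0o76543210 0o76543210 0o543210] []]

theorem v4100 : chkL Tab.T5 Tab.RT Tab.reps Tab.E2 Ker.cert7 D4100 4100 = true := by
  decide +kernel

end CR.C2
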