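import Pool.Agent.Lib.MP_6f5d36_co.Ker
import Pool.Agent.Lib.MP_6f5d36_co.RTab
import Pool.Agent.Lib.MP_6f5d36_co.C2.KerC
import Pool.Agent.Lib.MP_6f5d36_co.C2.ETab

/-! MP_6f5d36_co, case (ii), level 7 : the ranks 4200, ..., 4299 -/

set_option autoImplicit false
set_option maxRecDepth 100000

noncomputable section

namespace CR.C2

/-- the frames and certificates of the ranks 4200, ..., 4299 -/
def D4200 : List It :=
[.mk (.mk 1034 0o76452310 0o76452310 0o254031) [.mk 822 0o76543210 0o76543210 0o543210, .mk 938
0o76435102 0o76354021 0o152403] [],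
.mk (.mk 699 0o76543210 0o76543210 0o453102) [.mk 875 0o76524301 0o76532401 0o254103, .mk 938
0o76541032 0o76541032 0o32514] [],
.mk (.mk 945 0o76435210 0o76354210 0o453210) [.mk 947 0o76542310 0o76542310 0o254310, .mk 958
0o76435021 0o76354102 0o150423] [],
.mk (.mk 796 0o76543210 0o76543210 0o543210) [.mk 1204 0o76315042 0o76315042 0o14532, .mk 958
0o76534210 0o76534210 0o453201, .mk 868 0o76432501 0o76254301 0o251430] [],
.mk (.mk 847 0o76314520 0o76235140 0o345120) [.mk 822 0o76503412 0o76523014 0o130254, .mk 796
0o76543210 0o76543210 0o543210] [],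
.mk (.mk 822 0o76543210 0o76543210 0o452301) [.mk 1175 0o76542310 0o76542310 0o345120, .mk 1175
0o76542310 0o76542310 0o254031]
[0x180c101210000670086c14381b98c04001392014a90b80982083000053a500a8363e70391c246d3198546cb72888582f56db89c2242ca0b6c10440c0110d400082dc758,
0x82480503c440008534c0a004d1608090004c20c0884c0410c9860c90521de60203b1048322d4f1c827504a4344120851014795658712440004c460840000c13240810c0150d80008323ac3,
0xa0406f4144404c170240e3600430d016048303801408410300121c02114464241e00c15019d44058010145a03855318f20480501c010985910ca43184100c171cc150d000083250c5,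
0x393a0a84200000960080b020082748281e310a294005a0326194458070240084208620c1c0090c52c80c4038101d00000100000808c7a0100020101101206005000071024058190cc0008365ac5,
0x120c8100290000001cc4a88110a04c03a0002c110558401003346200900220c2a1830001606184509c12d6010728422c00a0428a01c018580984050210119c73c2290031008881cc30a0308430c154e0000832c628,
0x10304b80b04200000a8418820054c088c9870070c290104818800389c18f8911901c18c580c6809408a080404a0828008470c208698e04203a02f81411982801108000e80428194514100194c8000832c768],
.mk (.mk 718 0o76254103 0o76430521 0o231054) [.mk 1173 0o76543210 0o76543210 0o543210, .mk 1195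
0o76250143 0o76410523 0o41253] [],
.mk (.mk 686 0o76501423 0o76520134 0o140235) [.mk 853 0o76542130 0o76541320 0o354210, .mk 853
0o76512430 0o76521340 0o435102] [],
.mk (.mk 1089 0o76542103 0o76540321 0o152043) [.mk 1130 0o76042513 0o76240315 0o31245, .mk 1195
0o76134520 0o76234150 0o345012] [],
.mk (.mk 1023 0o76104253 0o76130254 0o130254) [.mk 868 0o76543210 0o76543210 0o543210, .mk 954
0o76502143 0o76510324 0o231045] [],
.mk (.mk 1117 0o76014532 0o76231045 0o32145) [.mk 1164 0o76542310 0o76542310 0o453120, .mk 1105
0o76014523 0o76230145 0o302415] [],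
.mk (.mk 1046 0o76425301 0o76352401 0o152340) [.mk 1161 0o76342501 0o76245301 0o254103, .mk 796
0o76543210 0o76543210 0o543210] [],
.mk (.mk 1072 0o76425301 0o76352401 0o245103) [.mk 816 0o76435210 0o76354210 0o453201, .mk 1143
0o76354201 0o76435201 0o42513] [],
.mk (.mk 1061 0o76105423 0o76320154 0o130245) [.mk 892 0o76415023 0o76350142 0o205143, .mk 1064
0o76413025 0o76053142 0o21543] [],
.mk (.mk 895 0o76354012 0o76435012 0o123405) [.mk 969 0o76543012 0o76543012 0o213405, .mk 1046
0o76451203 0o76450231 0o41235] [],
.mk (.mk 852 0o76543210 0o76543210 0o543210) [.mk 1194 0o76135042 0o76314052 0o132405, .mk 1196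
0o76023154 0o76103425 0o14325, .mk 949 0o76435210 0o76354210 0o453210]
[0x180181086211100c026c73a8000831488010400052c02456650022615218c00c114893466185117022021301cb2103203402f100904801048e80110cc00082c8959],
.mk (.mk 933 0o76153402 0o76423051 0o215340) [.mk 1164 0o76540132 0o76541023 0o41325, .mk 1167
0o76543210 0o76543210 0o543210] [],
.mk (.mk 784 0o76543210 0o76543210 0o543210) [.mk 1151 0o76534210 0o76534210 0o453210, .mk 1152
0o76403251 0o76153204 0o234105] [],
.mk (.mk 1019 0o76435210 0o76354210 0o453210) [.mk 925 0o76542301 0o76542301 0o254103, .mk 1152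
0o76402351 0o76152304 0o324105] [],
.mk (.mk 1061 0o76312504 0o76205341 0o305412) [.mk 1095 0o76405123 0o76350124 0o250134, .mk 1069
0o76542301 0o76542301 0o145230] [],
.mk (.mk 869 0o76425310 0o76352410 0o354210) [.mk 1152 0o76543210 0o76543210 0o453210, .mk 906
0o76105423 0o76320154 0o213540] [],
.mk (.mk 1010 0o76154230 0o76431250 0o42153) [.mk 1138 0o76234510 0o76234510 0o245031, .mk 860
0o76543210 0o76543210 0o543210] [],
.mk (.mk 840 0o76543210 0o76543210 0o543210) [.mk 960 0o76320514 0o76205413 0o203541, .mk 1030
0o76534210 0o76534210 0o453210] [],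
.mk (.mk 786 0o76235140 0o76314520 0o245310) [.mk 1202 0o76532140 0o76514320 0o143502, .mk 910
0o76425310 0o76352410 0o354210] [],
.mk (.mk 1038 0o76324051 0o76135402 0o235014) [.mk 1123 0o76120543 0o76210453 0o14532, .mk 1202
0o76120543 0o76210453 0o104532] [],
.mk (.mk 1028 0o76452301 0o76452301 0o251430) [.mk 925 0o76435201 0o76354201 0o152430]
[0x202006280a09a7cc4000454c0280480710e0006e0302147000008017c044a5041c56505a201a20e0743d80d06c0980284b6140040100d0301305500203ec2845903116a05268c154cc000830b154,
0x704e01d08e00d08c00201200200a00704a04305304215d0440571401442530c50010a00451000091c004024e11800524070800108a0110000ca29d14eb8158a400082d980b],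
.mk (.mk 839 0o76534210 0o76534210 0o453210) [.mk 1125 0o76543210 0o76543210 0o543210, .mk 893
0o76413250 0o76153240 0o134052]
[0x6502004d831a32002000846441a12b11198b0206400089100580511b13d086068610368c0c3c5461100040aa858a30200f09604160192020024422308047044421c01e0658a3084e40a05300c465a0d302700040f002900c801d4dc0008388b23,
0x5c090090004688b800c46c42c410508834088a2084e92d4696515cc469c394a1d0c906ca091f5090a446d0f88ac5905280d81058344190e286da881640f4dfc05c00c18800c05c00801d0c400083508ed],
.mk (.mk 855 0o76543210 0o76543210 0o543210) [.mk 1074 0o76013452 0o76123045 0o201435, .mk 903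
0o76345120 0o76345120 0o143502]
[0x4e0831430c20928438019809140018020091800ce80c84b1820c2003b008408d305dcc184208004800418e0198808a28028c000a80a0c0440c0414f14018040194ac000830b154,
0x40a218921688162089001c631080000010044731a981309b13cc15380717687230d004c008000a37900004202384aa655f34120715d503848919440010446e450104150d4000831b90b],
.mk (.mk 855 0o76543210 0o76543210 0o543210) [.mk 893 0o76435210 0o76354210 0o452301, .mk 857
0o76513402 0o76523041 0o215430, .mk 1145 0o76345120 0o76345120 0o42513]
[0x84300e1030120418039021148010090021809c08cc80e80b20288280380008085305dc8100208004804450e8598808228428ca80000a10038044418f14014044194ac000830da22,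
0x1103224c4b0050222450281a21c2114060a00425006184b1005c1313001882dc41ac70400ec2a89358a30c5b62600010d62122282711821502047885a0211442c06093206608c01cd0054040190dc000836b90b],
.mk (.mk 807 0o76325410 0o76325410 0o354210) [.mk 1164 0o76043125 0o76043125 0o42315, .mk 1008
0o76542310 0o76542310 0o453120]
[0x540060080c686ec00f10a083401c72b4018018a22509305803841c02408d8874e0640f0a69c3002423200280ac40032e00788a881062540c086c41e12a298801c82050800b822480e1100dd300a02a60808380140220080090c1d4dc000839a343,
0x12220489b220868c0710c8403e36688514e132000840742807c28013484586621b94c2e081a11840311b8c4223000184241130048110c4000829a743,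
0x200c0680318201200508a01080204001855920144280f09eb603404738a104211131040202911508e818088448002040291732e96062604106734400c154b000082dab43],
.mk (.mk 807 0o76543210 0o76543210 0o543210) [.mk 1074 0o76543102 0o76543021 0o251403, .mk 1131
0o76310524 0o76205143 0o104532]
[0x2229a10c091d40422544a10303a105c182d18802c8115b5cc45c0706218e16c502332369b1638520800710189c1160158085d0901213209d1b73282284154b000082cb160,
0xa39250521801318005031493841002810210000ca100708010c0180e09a1442a812216f1c0b968286108a08c408483946845082108298c123a70c0b68154b000082db160,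
0x63480220103620cd511352040c129007140e22641405c46088f104c035919514d8b148a110c7118030000d00c82204ce61c4a541011070940048418860250150cc000832b160],
.mk (.mk 1045 0o76430251 0o76154203 0o140523) [.mk 792 0o76543210 0o76543210 0o543210] [],
.mk (.mk 893 0o76543210 0o76543210 0o543210) [.mk 933 0o76543120 0o76543120 0o315042, .mk 1139
0o76543210 0o76543210 0o453210] [],
.mk (.mk 1019 0o76152340 0o76412350 0o24153) [.mk 861 0o76354210 0o76435210 0o452301, .mk 1078
0o76543021 0o76543102 0o140532] [],
.mk (.mk 1133 0o76435210 0o76354210 0o453210) [.mk 1142 0o76502341 0o76512304 0o234015, .mk 1143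
0o76032451 0o76124305 0o21534] [],
.mk (.mk 1133 0o76354210 0o76435210 0o453210) [.mk 1143 0o76104325 0o76032154 0o120453, .mk 1156
0o76543210 0o76543210 0o543210] [],
.mk (.mk 1061 0o76123450 0o76123450 0o24153) [.mk 861 0o76354210 0o76435210 0o452301, .mk 1130
0o76403152 0o76153024 0o130524] [],
.mk (.mk 758 0o76543210 0o76543210 0o543210) [.mk 1130 0o76410235 0o76051243 0o120345] [],
.mk (.mk 847 0o76421530 0o76251430 0o354021) [.mk 862 0o76143502 0o76243051 0o215430, .mk 1162
0o76345210 0o76345210 0o453210] [],
.mk (.mk 1162 0o76543012 0o76543012 0o150243) [.mk 959 0o76501234 0o76501234 0o203145, .mk 1154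
0o76135240 0o76314250 0o345102] [],
.mk (.mk 848 0o76354210 0o76435210 0o452301) [.mk 1095 0o76403152 0o76153024 0o130524, .mk 1119
0o76345012 0o76345012 0o41532] [],
.mk (.mk 824 0o76435210 0o76354210 0o453210) [.mk 1145 0o76452301 0o76452301 0o254103, .mk 850
0o76425103 0o76350421 0o54321]
[0x1051030440280f11cc590cc952850300981264004050309412188301405238881540041041118a31068a12c000210d1320020bc150057424456620062e4253c8f018c150d4000831c602,
0x1e01044030160211ab08463504c2804c0000e3094090008320086390c1709e52004628122394046096938984101b170023300227b028080a0188c398ac6088a3300114d000082dc603,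
0x20470184200ac442880008120c006308009860302416308415ac742588f01095803119008194110ad1282002a0238b4024600c088230c04a940bc33c4a00b08a0000100154c400082dc604],
.mk (.mk 1029 0o76250431 0o76421503 0o342105) [.mk 903 0o76341025 0o76045132 0o42513, .mk 850
0o76543210 0o76543210 0o543210]
[0x180480292c00a01c09b0100462d511b00062388109311e41c511810062a05ad1420781704183a3c070412930044480288c02c4e38808a1002348098a10242f0da3d5000004d9066b50804190d8000834aa1b,
0x190a0145d238805240620c64014ef30c8512442044032409300026c388335409a584b90e84128041328731c40724003e98603d8e135850084384c81509475014130c0150d40008312a1b,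
0x24280181184210084008042004838808321062684a038e41211c19c8a409161504050b5425048700406a100901623008095046100c2008ee5400c148400444114cc00082eaa1b],
.mk (.mk 800 0o76245103 0o76340521 0o125430) [.mk 1092 0o76254103 0o76430521 0o215430] [],
.mk (.mk 887 0o76542130 0o76541320 0o204513) [.mk 1163 0o76452130 0o76451320 0o24513, .mk 860
0o76543210 0o76543210 0o543210] [],
.mk (.mk 789 0o76245103 0o76340521 0o215340) [.mk 1109 0o76315402 0o76325041 0o32415, .mk 1172
0o76135420 0o76324150 0o435210] [],
.mk (.mk 1067 0o76143502 0o76243051 0o251430) [.mk 852 0o76543210 0o76543210 0o453201, .mk 1179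
0o76403251 0o76153204 0o31452] [],
.mk (.mk 815 0o76354210 0o76435210 0o453210) [.mk 1109 0o76435210 0o76354210 0o254310, .mk 929
0o76543210 0o76543210 0o543210]
[0x1c4000a80610a030ab8233dc000010c409a00c0100120a120228e2236008209d40129680e254008308e2488006714071839bca1404085200128c2a80326024028c154bc00082d2953],
.mk (.mk 929 0o76543210 0o76543210 0o543210) [.mk 949 0o76510324 0o76502143 0o103254, .mk 1108
0o76435210 0o76354210 0o254310]
[0x1c250039000360080009d1aa154040c4034b080290900423ca280ca0028c0b9ee08600122848006914068830887145130403c70dc408538810425b120904044288154bc00082dab53],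
.mk (.mk 656 0o76543210 0o76543210 0o543210) [.mk 1005 0o76453210 0o76453210 0o453210, .mk 973
0o76023415 0o76023415 0o24135] [],
.mk (.mk 1153 0o76304125 0o76035124 0o15324) [.mk 949 0o76543210 0o76543210 0o543210, .mk 958
0o76345210 0o76345210 0o453210] [],
.mk (.mk 824 0o76534210 0o76534210 0o453210) [.mk 1109 0o76542301 0o76542301 0o254103, .mk 1153
0o76405231 0o76351204 0o342105] [],
.mk (.mk 674 0o76543210 0o76543210 0o543210) [.mk 1196 0o76345102 0o76345021 0o45231, .mk 1027
0o76340521 0o76245103 0o351204] [],
.mk (.mk 707 0o76450312 0o76452013 0o140523) [.mk 874 0o76540123 0o76540123 0o240135] [],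
.mk (.mk 1096 0o76135402 0o76324051 0o152340) [.mk 1156 0o76534210 0o76534210 0o452301, .mk 1153
0o76352410 0o76425310 0o254301] [],
.mk (.mk 1041 0o76421053 0o76150432 0o104352) [.mk 891 0o76543210 0o76543210 0o543210, .mk 933
0o76512043 0o76510342 0o31245] [],
.mk (.mk 1067 0o76251304 0o76402531 0o124053) [.mk 848 0o76354210 0o76435210 0o452301, .mk 1130
0o76245013 0o76340512 0o41352] [],
.mk (.mk 1067 0o76140352 0o76142053 0o230451) [.mk 1204 0o76421035 0o76051432 0o42153, .mk 1041
0o76543210 0o76543210 0o354120] [],
.mk (.mk 1130 0o76315024 0o76305142 0o14352) [.mk 1177 0o76543210 0o76543210 0o543210, .mk 1132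
0o76215034 0o76301542 0o104532, .mk 1204 0o76302514 0o76205314 0o204315] [],
.mk (.mk 833 0o76534201 0o76534201 0o251430) [.mk 1130 0o76345012 0o76345012 0o132405] [],
.mk (.mk 1036 0o76341052 0o76145032 0o23145) [.mk 968 0o76531042 0o76514032 0o203145, .mk 868
0o76543210 0o76543210 0o543210] [],
.mk (.mk 1020 0o76345012 0o76345012 0o41532) [.mk 961 0o76150423 0o76420153 0o203154, .mk 848
0o76354210 0o76435210 0o452301] [],
.mk (.mk 914 0o76215034 0o76301542 0o201534) [.mk 1156 0o76213045 0o76013542 0o21534, .mk 1140
0o76503412 0o76523014 0o142305] [],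
.mk (.mk 1005 0o76130452 0o76124053 0o23154) [.mk 968 0o76150342 0o76412053 0o203154, .mk 1126
0o76420153 0o76150423 0o132045] [],
.mk (.mk 1005 0o76534210 0o76534210 0o453210) [.mk 1069 0o76530412 0o76524013 0o152340, .mk 1126
0o76534102 0o76534021 0o54231] [],
.mk (.mk 1069 0o76521430 0o76521430 0o35421) [.mk 891 0o76543210 0o76543210 0o543210, .mk 1156
0o76342510 0o76245310 0o254130]
[0x70208140c40545380329400c0f0cd4881184190a0142040b24310115840809104200ea0502ba03421807012244c520300c605a40d509a41800203082a50071121bc360650160160346c00154d80008312acc],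
.mk (.mk 883 0o76543210 0o76543210 0o543210) [.mk 1069 0o76530412 0o76524013 0o53241] [],
.mk (.mk 1020 0o76425301 0o76352401 0o245103) [.mk 1086 0o76543210 0o76543210 0o543210, .mk 1102
0o76354102 0o76435021 0o45231] [],
.mk (.mk 924 0o76254013 0o76430512 0o132045) [.mk 1103 0o76435201 0o76354201 0o251430, .mk 1069
0o76413052 0o76153042 0o52431] [],
.mk (.mk 928 0o76354210 0o76435210 0o120534) [.mk 1103 0o76451302 0o76452031 0o41325, .mk 969
0o76534210 0o76534210 0o210534] [],
.mk (.mk 1067 0o76450213 0o76450213 0o41253) [.mk 946 0o76450312 0o76452013 0o140523, .mk 973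
0o76534201 0o76534201 0o251430] [],
.mk (.mk 1014 0o76431250 0o76154230 0o135042) [.mk 1113 0o76345210 0o76345210 0o452301] [],
.mk (.mk 1069 0o76213405 0o76023541 0o34512) [.mk 1134 0o76142503 0o76240351 0o142503, .mk 1126
0o76453210 0o76453210 0o453210] [],
.mk (.mk 1069 0o76512340 0o76512340 0o35412) [.mk 1143 0o76435102 0o76354021 0o152430, .mk 1132
0o76452301 0o76452301 0o254013] [],
.mk (.mk 828 0o76152034 0o76401352 0o105324) [.mk 1187 0o76352104 0o76405321 0o215430, .mk 1195
0o76135240 0o76314250 0o345102] [],
.mk (.mk 659 0o76543210 0o76543210 0o543210) [.mk 965 0o76314025 0o76035142 0o25341] [],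
.mk (.mk 1069 0o76435210 0o76354210 0o154320) [.mk 1162 0o76534210 0o76534210 0o453210, .mk 1179
0o76340512 0o76245013 0o23451] [],
.mk (.mk 889 0o76512034 0o76501342 0o13425) [.mk 1101 0o76452130 0o76451320 0o453021, .mk 1195
0o76324105 0o76035421 0o125034] [],
.mk (.mk 847 0o76312450 0o76125340 0o345021) [.mk 1171 0o76201354 0o76102534 0o103524, .mk 1162
0o76345210 0o76345210 0o453210] [],
.mk (.mk 1002 0o76340521 0o76245103 0o250314) [.mk 1131 0o76345120 0o76345120 0o143502, .mk 893
0o76435210 0o76354210 0o453210] [],
.mk (.mk 876 0o76534210 0o76534210 0o453210) [.mk 1146 0o76543210 0o76543210 0o543210, .mk 893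
0o76413205 0o76053241 0o34152] [],
.mk (.mk 893 0o76254103 0o76430521 0o123504) [.mk 1196 0o76152304 0o76402351 0o13425, .mk 1113
0o76245103 0o76340521 0o215340] [],
.mk (.mk 1046 0o76312054 0o76105342 0o25143) [.mk 1195 0o76314520 0o76235140 0o435120, .mk 1126
0o76312045 0o76015342 0o205143, .mk 1204 0o76502413 0o76520314 0o142035]
[0x180184600502c8140d00b904528928040aa1382d84248a280c2919096200a48da08e04ce805f32232c230d70020040600109217002a052a820446c2401a374e2a8c12a004288930640601500154dc000831b10d,
0x2040028041908c1280c310062a04440800048081302a4d8041204002890506065084831352108040014020c04372cc1308e108422184024958638382080c7589001186148080284114e400082e9969],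
.mk (.mk 924 0o76534102 0o76534021 0o215340) [.mk 1046 0o76412053 0o76150342 0o25413, .mk 1164
0o76435102 0o76354021 0o125340] [],
.mk (.mk 1036 0o76425103 0o76350421 0o125340) [.mk 883 0o76512034 0o76501342 0o201534, .mk 1195
0o76453120 0o76453120 0o345120] [],
.mk (.mk 800 0o76241530 0o76241530 0o145320) [.mk 1058 0o76451320 0o76452130 0o451320, .mk 822
0o76432510 0o76254310 0o354210] [],
.mk (.mk 854 0o76542310 0o76542310 0o453120) [.mk 1163 0o76451203 0o76450231 0o43512, .mk 822
0o76432510 0o76254310 0o352401] [],
.mk (.mk 838 0o76543210 0o76543210 0o452310) [.mk 1202 0o76543210 0o76543210 0o354120, .mk 822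
0o76423150 0o76153420 0o153402]
[0x4524f05135486801988e8828068c42c104a9010028000c100085c8af8072a918280c8dd10b00b800185982003241988ac10c38078509110c70c280820004544e0c088080402080a00280194c8000830aaec],
.mk (.mk 1030 0o76435210 0o76354210 0o452310) [.mk 822 0o76423150 0o76153420 0o154320, .mk 1131
0o76314052 0o76135042 0o213504]
[0x4528f81138204691405982804e8042c104a8c18408022ba10184081c08702fa459c304204c84c14b80b0020002419871d10c708284828110800385018000540e0c08c082080400a00280194c8000830d50b],
.mk (.mk 822 0o76354210 0o76435210 0o453210) [.mk 1132 0o76523410 0o76523410 0o354120, .mk 933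
0o76542103 0o76540321 0o142053] [],
.mk (.mk 1155 0o76543210 0o76543210 0o543210) [.mk 1143 0o76401325 0o76052134 0o31542, .mk 1157
0o76124503 0o76230451 0o215340] [],
.mk (.mk 1110 0o76453210 0o76453210 0o453210) [.mk 959 0o76543210 0o76543210 0o543210, .mk 960
0o76310425 0o76025143 0o15243] [],
.mk (.mk 1104 0o76251304 0o76402531 0o43152) [.mk 938 0o76510243 0o76510243 0o320145] [],
.mk (.mk 993 0o76314502 0o76235041 0o35142) [.mk 810 0o76405132 0o76351024 0o250314, .mk 946
0o76315402 0o76325041 0o305142] [],
.mk (.mk 687 0o76512403 0o76520341 0o130245) [.mk 836 0o76543120 0o76543120 0o453120, .mk 810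
0o76512403 0o76520341 0o31245] [],
.mk (.mk 892 0o76543210 0o76543210 0o543210) [.mk 1064 0o76354210 0o76435210 0o452310, .mk 1095
0o76243051 0o76143502 0o235104] [],
.mk (.mk 905 0o76543210 0o76543210 0o543210) [.mk 963 0o76235410 0o76324510 0o245130, .mk 931
0o76345210 0o76345210 0o453210] [],
.mk (.mk 1140 0o76351204 0o76405231 0o205341) [.mk 1180 0o76534120 0o76534120 0o453120, .mk 1132
0o76251304 0o76402531 0o25431, .mk 1203 0o76420351 0o76152403 0o152304]
[0xb08121a0dc0400b0240140fd2b0410080600c0242104400120800ac20e22220340a2052006354c3071000600b88f928279c500101c4dc400055214010f30210844e43004f02ab89ad1330e2540190e00008352ae1],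
.mk (.mk 1176 0o76543210 0o76543210 0o254130) [.mk 1184 0o76435210 0o76354210 0o453210, .mk 1195
0o76132054 0o76104352 0o15324] [],
.mk (.mk 923 0o76450213 0o76450213 0o123405) [.mk 963 0o76540213 0o76540213 0o213405, .mk 1142
0o76542103 0o76540321 0o42135] []]

theorem v4200 : chkL Tab.T5 Tab.RT Tab.reps Tab.E2 Ker.cert7 D4200 4200 = true := by
  decide +kernel

end CR.C2
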