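import Pool.Agent.Lib.MP_6f5d36_co.Ker
import Pool.Agent.Lib.MP_6f5d36_co.RTab
import Pool.Agent.Lib.MP_6f5d36_co.C2.KerC
import Pool.Agent.Lib.MP_6f5d36_co.C2.ETab

/-! MP_6f5d36_co, case (ii), level 7 : the ranks 4300, ..., 4399 -/

set_option autoImplicit false
set_option maxRecDepth 100000

noncomputable section

namespace CR.C2

/-- the frames and certificates of the ranks 4300, ..., 4399 -/
def D4300 : List It :=
[.mk (.mk 1171 0o76254301 0o76432501 0o254103) [.mk 1177 0o76543210 0o76543210 0o543210, .mk 1177
0o76204153 0o76130524 0o13425] [],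
.mk (.mk 1018 0o76435102 0o76354021 0o152430) [.mk 1102 0o76423510 0o76253410 0o354120, .mk 963
0o76543210 0o76543210 0o543210] [],
.mk (.mk 565 0o76542310 0o76542310 0o254130) [.mk 1095 0o76320541 0o76215403 0o32541, .mk 944
0o76432510 0o76254310 0o354210] [],
.mk (.mk 808 0o76512043 0o76510342 0o204513) [.mk 863 0o76543210 0o76543210 0o543210, .mk 1147
0o76512043 0o76510342 0o24513] [],
.mk (.mk 870 0o76543120 0o76543120 0o153420) [.mk 1095 0o76314502 0o76235041 0o35142, .mk 973
0o76543210 0o76543210 0o543210] [],
.mk (.mk 891 0o76543210 0o76543210 0o543210) [.mk 1179 0o76401352 0o76152034 0o31524, .mk 1156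
0o76352410 0o76425310 0o254130] [],
.mk (.mk 861 0o76354210 0o76435210 0o452301) [.mk 1119 0o76152430 0o76421350 0o24513, .mk 933
0o76153420 0o76423150 0o204153] [],
.mk (.mk 1119 0o76014352 0o76132045 0o130425) [.mk 868 0o76543210 0o76543210 0o543210, .mk 1156
0o76534210 0o76534210 0o452301] [],
.mk (.mk 1068 0o76013452 0o76123045 0o21453) [.mk 932 0o76453210 0o76453210 0o453210, .mk 1140
0o76403152 0o76153024 0o130524] [],
.mk (.mk 1011 0o76543210 0o76543210 0o453210) [.mk 810 0o76513204 0o76503241 0o214503, .mk 1093
0o76315420 0o76325140 0o342501] [],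
.mk (.mk 748 0o76542103 0o76540321 0o251043) [.mk 763 0o76543210 0o76543210 0o543210, .mk 880
0o76524103 0o76530421 0o152043] [],
.mk (.mk 880 0o76432510 0o76254310 0o245301) [.mk 942 0o76543210 0o76543210 0o452301, .mk 880
0o76432510 0o76254310 0o354210]
[0x4624cb2680523040038000a88587c504680e54d4022c4f434073254234c0553e101b8dd1040236842a9c8020449221022a455205020194c6188033d419700802481310118608150e000083130ac,
0x2000080586222c031488b0250b31dcd109040450f338891124691500a1d0e4140800c652008701a4610842b446942c451140852c0550684016020041801841104dab2c0150d8000831a425],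
.mk (.mk 758 0o76543210 0o76543210 0o543210) [.mk 1130 0o76014253 0o76130245 0o130245] [],
.mk (.mk 1050 0o76234501 0o76234501 0o245013) [.mk 1171 0o76514203 0o76530241 0o142503, .mk 1162
0o76543210 0o76543210 0o543210, .mk 1136 0o76435210 0o76354210 0o453210] [],
.mk (.mk 889 0o76423510 0o76253410 0o354120) [.mk 1090 0o76543210 0o76543210 0o543210, .mk 1151
0o76435210 0o76354210 0o453210] [],
.mk (.mk 1075 0o76403512 0o76253014 0o304125) [.mk 1174 0o76453210 0o76453210 0o453210, .mk 889
0o76521304 0o76502431 0o53142] [],
.mk (.mk 822 0o76513204 0o76503241 0o124053) [.mk 949 0o76543210 0o76543210 0o543210, .mk 1136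
0o76435210 0o76354210 0o453210]
[0x6439810180004004301c200600c2688341809031000100888109212c0280c0822080280830a70042a4019a108271820082082018419a2002b08b30a318200940aa010498270a00882180154d80008308b43],
.mk (.mk 822 0o76324510 0o76235410 0o352401) [.mk 1109 0o76512403 0o76520341 0o34152]
[0x101806484901e88001ae0710104b12612b05982a00f8210028d128a1c00c40c684e008b0895d89284880d01a8e796c9080460480401c100c80a86b20b0c205218f31589899706b85680805a88b88194d0000835b742],
.mk (.mk 822 0o76432510 0o76254310 0o254130) [.mk 949 0o76132540 0o76214350 0o345021, .mk 891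
0o76543210 0o76543210 0o543210]
[0x25c1082680840e0144004648074f740d40c00cc6a846085180446470033404c211000c880c458104004a98b0485c8c881141000c4409e001e6794b84d40cc0b881c10810000401c4bc00c41d0c8000834d68c,
0x10401c000780080390484b00b08285704d1018428c080004f0092010478c800280c8048418029db9008830c88c22038408431c581690134188a98c8a00840c98c00cd58088608180100f0020401c90400c48028c194e0000835568c],
.mk (.mk 822 0o76432510 0o76254310 0o251403) [.mk 1109 0o76351402 0o76425031 0o24531, .mk 907
0o76534210 0o76534210 0o453210]
[0x10a148a98415ce2005399805420aa0328c8470228108003ac3ca8421c09e049800800521e0404038f800b3859429204e23700348205c829d1240468324105083887421a10c03481be1d327587981be0b708e041d4cc000838996b,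
0x2100e000780600025c42a8925c0588088103c2000da830200160100f22221404018000c1848a0566e80440a0a16660e80907d062550099be32500c41810268164618303c008024925122148190dc000835196b],
.mk (.mk 822 0o76543210 0o76543210 0o543210) [.mk 1130 0o76524103 0o76530421 0o152043, .mk 961
0o76541023 0o76540132 0o203145] [],
.mk (.mk 822 0o76350421 0o76425103 0o230451) [.mk 1169 0o76543210 0o76543210 0o453210, .mk 1195
0o76541032 0o76541032 0o51324] [],
.mk (.mk 816 0o76543210 0o76543210 0o543210) [.mk 1179 0o76410532 0o76251043 0o32514, .mk 1143
0o76435201 0o76354201 0o154230] [],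
.mk (.mk 1022 0o76450213 0o76450213 0o41253) [.mk 925 0o76450312 0o76452013 0o140523, .mk 1117
0o76534201 0o76534201 0o251430] [],
.mk (.mk 1132 0o76132045 0o76014352 0o104253) [.mk 1154 0o76140235 0o76041253 0o203154, .mk 1177
0o76543210 0o76543210 0o543210, .mk 1195 0o76240135 0o76041523 0o23145] [],
.mk (.mk 1154 0o76150324 0o76402153 0o123504) [.mk 1170 0o76543210 0o76543210 0o543210, .mk 1198
0o76214035 0o76031542 0o14523] [],
.mk (.mk 1119 0o76041532 0o76241035 0o140325) [.mk 1158 0o76201345 0o76012534 0o23145, .mk 1195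
0o76132540 0o76214350 0o435102] [],
.mk (.mk 866 0o76501432 0o76521034 0o130245) [.mk 947 0o76321504 0o76205431 0o205143, .mk 1184
0o76453210 0o76453210 0o453210] [],
.mk (.mk 839 0o76534210 0o76534210 0o453210) [.mk 1146 0o76543210 0o76543210 0o543210, .mk 923
0o76503421 0o76523104 0o342105]
[0x30111942308860084b2130720c064051c1200600841655590000e1441742c052019614c43049082700ed718f344141310b041818140500085814c942d62740040704150d400083118ed,
0x4a83000c104010620c20c0088200262c00108302610423090042200620420140544904342651239152166124431290c47445b0302a80000c04602058c798934620c4f02022aa3c4190d00008351aed],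
.mk (.mk 1028 0o76435210 0o76354210 0o453210) [.mk 1131 0o76314052 0o76135042 0o312504]
[0x750b1c0660031888825518810602b2b064287738cc80541121500a714804a00c749d0506f2926cdc2c018d12501278288ea002100425282804ce42200300110dc00082c588b,
0xe002c2890087412ad90000ca02abc4c906020009029893064a50280032381400b0052e4848b44816820c0580741431c80c0f04c0544088020ce30c021201c0090008b3190498080110e20c0190dc000836d88b],
.mk (.mk 1152 0o76241503 0o76240531 0o142053) [.mk 965 0o76510234 0o76501243 0o203514] [],
.mk (.mk 1072 0o76531240 0o76514230 0o324501) [.mk 1102 0o76503124 0o76503124 0o120534, .mk 973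
0o76502134 0o76501324 0o210354] [],
.mk (.mk 763 0o76512340 0o76512340 0o345021) [.mk 797 0o76534021 0o76534102 0o150423, .mk 973
0o76542310 0o76542310 0o254310] [],
.mk (.mk 850 0o76351042 0o76415032 0o204351) [.mk 887 0o76453012 0o76453012 0o450213, .mk 1163
0o76543210 0o76543210 0o543210] [],
.mk (.mk 800 0o76543210 0o76543210 0o543210) [.mk 1092 0o76354012 0o76435012 0o450123, .mk 850
0o76032145 0o76014325 0o14235] [],
.mk (.mk 1071 0o76543210 0o76543210 0o543210) [.mk 965 0o76415320 0o76352140 0o314052, .mk 1072
0o76542310 0o76542310 0o453120] [],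
.mk (.mk 887 0o76142530 0o76241350 0o204513) [.mk 1092 0o76152340 0o76412350 0o24153, .mk 861
0o76345210 0o76345210 0o452301] [],
.mk (.mk 887 0o76145023 0o76340152 0o120435) [.mk 1092 0o76154203 0o76430251 0o215430, .mk 861
0o76345210 0o76345210 0o453210] [],
.mk (.mk 1081 0o76435210 0o76354210 0o453210) [.mk 1164 0o76320154 0o76105423 0o104325, .mk 997
0o76432510 0o76254310 0o354120] [],
.mk (.mk 776 0o76345210 0o76345210 0o452301) [.mk 776 0o76543210 0o76543210 0o543210, .mk 1171
0o76520413 0o76520413 0o53214] [],
.mk (.mk 1081 0o76435210 0o76354210 0o453210) [.mk 1132 0o76240135 0o76041523 0o104235, .mk 1108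
0o76250134 0o76401523 0o14235] [],
.mk (.mk 795 0o76543210 0o76543210 0o543210) [.mk 1074 0o76041352 0o76142035 0o310425, .mk 903
0o76314025 0o76035142 0o24513]
[0x93d905040b902180961c03842781488024245500039030c04d8046ca22000b88b48dbd44a85000e02094604c48481fc87288a49496445d584c451880214c15c808c81a00c0c0f84594c42ad422801f04afc0ef0dc6f8e200444c2d147f4878f9c05953c032883b115f182d0d40008483681,
0x400820122340508d51ca3d1022091406c40259004e44c929e0949050b212a760798a29800a8094098810ac452689534a0061c816a0a004022020200d0c00891022dc4320c03e2180db2f0064bc0190e4000834aa1c],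
.mk (.mk 795 0o76543210 0o76543210 0o543210) [.mk 857 0o76541302 0o76542031 0o305421, .mk 1145
0o76314025 0o76035142 0o123504]
[0x4008c2060280480d51c68047d0a64246c40a020b2e4489b16424a7865a4180a0614131e076e50c088810ae449c897a0a01126015448204c0a83068040c08092004dc0320d13e06c0332f1062bc0190e4000834d563,
0x80502c60a4109806403e05c01f81340365a5101804005003c099842c3b20232808cc873e218317110c54ee5f2342828a14470220b05aa1630b5c7842c01660aa05401d4a4000836b681],
.mk (.mk 752 0o76420135 0o76051423 0o52134) [.mk 1122 0o76543210 0o76543210 0o453210, .mk 959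
0o76543210 0o76543210 0o543210] [],
.mk (.mk 1164 0o76412035 0o76051342 0o25143) [.mk 1195 0o76541320 0o76542130 0o345210, .mk 1165
0o76520314 0o76502413 0o123405] [],
.mk (.mk 827 0o76534210 0o76534210 0o453210) [.mk 1132 0o76504312 0o76532014 0o142305, .mk 1179
0o76430521 0o76254103 0o32451] [],
.mk (.mk 830 0o76543210 0o76543210 0o543210) [.mk 1071 0o76310542 0o76215043 0o105423, .mk 901
0o76543120 0o76543120 0o452310] [],
.mk (.mk 892 0o76543210 0o76543210 0o543210) [.mk 1079 0o76453210 0o76453210 0o452310, .mk 1123
0o76341520 0o76245130 0o241503] [],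
.mk (.mk 1099 0o76543210 0o76543210 0o543210) [.mk 1046 0o76354102 0o76435021 0o125340, .mk 1046
0o76543210 0o76543210 0o453210] [],
.mk (.mk 992 0o76421350 0o76152430 0o135042) [.mk 1161 0o76543210 0o76543210 0o543210] [],
.mk (.mk 876 0o76534210 0o76534210 0o453210) [.mk 1125 0o76543210 0o76543210 0o543210, .mk 880
0o76513402 0o76523041 0o304152]
[0x10c3041ad2732208d856a2090278420004223091802442c102057c02450a107213041460e93c11e840083810b79100e008256b090843c00c1040f28b2004c24f112056032010f30304940f625676981f02d0223046800412e3750000c1d4e40008388b03,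
0xa2078842410848088090c6844a0188700088580184194f04e807040845144945000201056013a4100e80300418c8c280004046108690180380689e80694084808a14001600700680500114414b88050600194d80008348b2b],
.mk (.mk 1002 0o76354021 0o76435102 0o351204) [.mk 925 0o76423105 0o76053421 0o53241]
[0x38110c20f803c18784320000005f1012080104e95c10004226803d802400c21060414803831a01034a2894f0400e305804a80290000200840e88f5306800d8020846210020104224080c108a1004c00081c00663128205849ea060309822a91e7312210e8866002d1adc007080620254ec0008403481,
0x2ca312702a35027960330338039000000d02806310a5e06a94314620c86881126344380c11021282510911a390010021ae01c8a2cd00a049820981ea304018c84204042401e1271880500154d80008303541],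
.mk (.mk 1104 0o76403251 0o76153204 0o324105) [.mk 933 0o76543210 0o76543210 0o543210, .mk 1176
0o76543210 0o76543210 0o453210] [],
.mk (.mk 1054 0o76543210 0o76543210 0o354120) [.mk 960 0o76502134 0o76501324 0o120354, .mk 933
0o76543210 0o76543210 0o543210] [],
.mk (.mk 997 0o76234510 0o76234510 0o245031) [.mk 1143 0o76125340 0o76312450 0o25413, .mk 1107
0o76345210 0o76345210 0o452301] [],
.mk (.mk 785 0o76543210 0o76543210 0o543210) [.mk 997 0o76042513 0o76240315 0o340215, .mk 997
0o76542013 0o76540312 0o251304] [],
.mk (.mk 1013 0o76452310 0o76452310 0o354120) [.mk 1036 0o76543210 0o76543210 0o453210] [],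
.mk (.mk 799 0o76342510 0o76245310 0o254130) [.mk 1169 0o76543210 0o76543210 0o453210, .mk 891
0o76543210 0o76543210 0o543210] [],
.mk (.mk 799 0o76342510 0o76245310 0o251403) [.mk 1088 0o76435120 0o76354120 0o154230, .mk 891
0o76543210 0o76543210 0o543210] [],
.mk (.mk 852 0o76204153 0o76130524 0o103425) [.mk 1171 0o76253410 0o76423510 0o245310, .mk 1170
0o76204153 0o76130524 0o13452] [],
.mk (.mk 763 0o76543210 0o76543210 0o543210) [.mk 1136 0o76250413 0o76420513 0o203541, .mk 1170
0o76240513 0o76240513 0o23541] [],
.mk (.mk 808 0o76534201 0o76534201 0o152430) [.mk 1179 0o76142530 0o76241350 0o345201, .mk 1143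
0o76425103 0o76350421 0o14352] [],
.mk (.mk 816 0o76543210 0o76543210 0o543210) [.mk 1100 0o76125043 0o76310452 0o104532, .mk 1132
0o76453201 0o76453201 0o254103] [],
.mk (.mk 796 0o76543210 0o76543210 0o543210) [.mk 1069 0o76521430 0o76521430 0o35421, .mk 1156
0o76352401 0o76425301 0o251430] [],
.mk (.mk 796 0o76543210 0o76543210 0o543210) [.mk 1105 0o76425301 0o76352401 0o152340, .mk 933
0o76512043 0o76510342 0o31245] [],
.mk (.mk 1083 0o76541023 0o76540132 0o140235) [.mk 892 0o76514023 0o76530142 0o205143] [],
.mk (.mk 889 0o76153420 0o76423150 0o102354) [.mk 1132 0o76143520 0o76243150 0o12354, .mk 1194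
0o76543210 0o76543210 0o543210] [],
.mk (.mk 985 0o76435210 0o76354210 0o453210) [.mk 1048 0o76541023 0o76540132 0o140523] [],
.mk (.mk 1103 0o76041253 0o76140235 0o230145) [.mk 1196 0o76542310 0o76542310 0o453120, .mk 933
0o76543210 0o76543210 0o543210] [],
.mk (.mk 1013 0o76431250 0o76154230 0o135042) [.mk 1139 0o76345210 0o76345210 0o452301, .mk 1161
0o76543210 0o76543210 0o543210] [],
.mk (.mk 595 0o76543210 0o76543210 0o543210) [.mk 1057 0o76453210 0o76453210 0o154230, .mk 891
0o76243501 0o76243501 0o23541, .mk 884 0o76432510 0o76254310 0o453210] [],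
.mk (.mk 595 0o76532410 0o76524310 0o453120) [.mk 884 0o76234501 0o76234501 0o250134, .mk 956
0o76453210 0o76453210 0o154230] [],
.mk (.mk 1141 0o76123054 0o76103452 0o15432) [.mk 1154 0o76240135 0o76041523 0o213045, .mk 1189
0o76140235 0o76041253 0o123054] [],
.mk (.mk 906 0o76415032 0o76351042 0o205143) [.mk 1141 0o76514032 0o76531042 0o25143, .mk 1172
0o76135420 0o76324150 0o435210] [],
.mk (.mk 1103 0o76012534 0o76201345 0o13425) [.mk 1154 0o76543201 0o76543201 0o251430, .mk 1179
0o76453210 0o76453210 0o453210, .mk 1195 0o76124305 0o76032451 0o125034] [],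
.mk (.mk 847 0o76543210 0o76543210 0o543210) [.mk 1037 0o76305124 0o76305124 0o123045, .mk 859
0o76534102 0o76534021 0o251043] [],
.mk (.mk 1017 0o76325041 0o76315402 0o15342) [.mk 1086 0o76352401 0o76425301 0o251430, .mk 565
0o76543210 0o76543210 0o543210] [],
.mk (.mk 847 0o76125340 0o76312450 0o345021) [.mk 862 0o76345102 0o76345021 0o241503, .mk 1195
0o76453210 0o76453210 0o453210] [],
.mk (.mk 1142 0o76023514 0o76203415 0o204135) [.mk 1192 0o76345210 0o76345210 0o453201, .mk 1196
0o76032514 0o76204315 0o24315]
[0x15428c90010c0944102082983a84b400888049040c880004088400488004a8000082400029c09090408c02430400450070160009010db1008019118a710e8029009ca00180c04480e88802a8a400f01280194d80008348b43,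
0x20a634818c118601c2304d094004218401a0034609020821040501610e6082720000e900249c009e0284a08039ed3c45131802268448072000718201b18c004a38691a2104a300154d0000831062c],
.mk (.mk 1109 0o76125034 0o76301452 0o123054) [.mk 1164 0o76135024 0o76304152 0o213504, .mk 1138
0o76253410 0o76423510 0o345120]
[0x2e6381b9a814d6184305502c0001005412c8480320824e44dc189011a01c5200b3200080b82a70c40f03a1023c678c580841ca08818835050b782098b0ea1003826200c448010200c0080190e00008363901,
0x49261032444010062488c1184c6220210849d2cc04011450000054c60651b00942366d403480a2c81124010ac424050500c4757802408023084123280700c600c0150d0000832452b],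
.mk (.mk 1046 0o76041532 0o76241035 0o140325) [.mk 1143 0o76401352 0o76152034 0o230451, .mk 1195
0o76132540 0o76214350 0o435102]
[0x700004400801584681300308094e88080a8d88cb2c08448400499c220088c80f10708e1058140ae8010849482859010c38038462d3001902d010c680d00080b89000288e84fb048428c390509099400194d4000835488b],
.mk (.mk 1122 0o76504132 0o76531024 0o250314) [.mk 1203 0o76512304 0o76502341 0o53142, .mk 960
0o76453210 0o76453210 0o453210] [],
.mk (.mk 1014 0o76543210 0o76543210 0o543210) [.mk 1132 0o76154320 0o76432150 0o210435] [],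
.mk (.mk 870 0o76435210 0o76354210 0o154320) [.mk 1086 0o76543210 0o76543210 0o543210, .mk 1132
0o76354102 0o76435021 0o45231] [],
.mk (.mk 1132 0o76532401 0o76524301 0o254103) [.mk 1162 0o76543210 0o76543210 0o543210, .mk 1171
0o76451023 0o76450132 0o41523] [],
.mk (.mk 1091 0o76543210 0o76543210 0o543210) [.mk 1151 0o76435210 0o76354210 0o453210, .mk 906
0o76431520 0o76254130 0o352401]
[0x209000803c1c090106019882467801101a0003cca082a0e083d2021010ab08bc04e02000ad4642181271ae9030810038113059810e2a0285105400a147125042005a70b02c00282561b600b838c21606c00d001d4cc0008380b1a],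
.mk (.mk 1075 0o76420351 0o76152403 0o253014) [.mk 1024 0o76450231 0o76451203 0o352104, .mk 906
0o76543210 0o76543210 0o543210]
[0x3400883081845b9c005a010c00838a510109c0a49420810960c381b0c181291184785cb0288404600010508080e08411f002860180980880a4301b00f08f1810cf00486284989c95420a00000194cc0008340629],
.mk (.mk 817 0o76324105 0o76035421 0o54321) [.mk 1146 0o76543210 0o76543210 0o543210, .mk 1151
0o76435210 0o76354210 0o453210]
[0x62260080340a220228040022344518300c9980d06108224c4b1010840202589b0aa004408c020a150aa0591200240580120e51c4585f008158518cb2a4118618cd349290e002a28e05c1290154dc00083110ed],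
.mk (.mk 817 0o76543210 0o76543210 0o543210) [.mk 1165 0o76142053 0o76140352 0o204351, .mk 1131
0o76543210 0o76543210 0o453210, .mk 1075 0o76152043 0o76410352 0o24351]
[0x803c07328942144f4001106cb11904c0489c2009642ed1040f94315c03cc8018a720521093c602c400998001145664080384030859d6843014422812a81081300ca560cc70c571280150e80008329163],
.mk (.mk 817 0o76324150 0o76135420 0o154320) [.mk 1125 0o76543210 0o76543210 0o543210, .mk 1151
0o76435210 0o76354210 0o453210]
[0x1400c80f80880e008c1c03148c01c80c419c02dac08ac4bc3a4040b840002085e034448ca084c81486488008c06006905c8710c803c44c95401208c41149c4fa0700d00044d862c00018811004442001d0d40008388b03,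
0xba18210873863188180700e0140d04244605d0b06241c5184384f10e00c309cc2e4279212dd08402848a8d00691ce704e7ee0301e84e0ea0f41a8340780000b00154bc00082d00ed],
.mk (.mk 817 0o76543210 0o76543210 0o543210) [.mk 1152 0o76534021 0o76534102 0o240531, .mk 1075
0o76352041 0o76415302 0o24531]
[0x96001104011460a70c10284280b910d13000d00e400f100800042403b0998c9c0161050031c1c20e205082986c684022390c41948605308008504322250a7a03054e20311901b843060309c0040124a1b00a854841601400f0c1d4dc0008382968,
0x2b814011080441502530008840c0441122603003647400c013cc522f0d048e905840ce1485bc109404c409a80433b104a01008ca10d909a00104062000416f1804bc10206a00100c26014001231e801e04080b20308c214c400083a9023],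
.mk (.mk 1007 0o76524103 0o76530421 0o152043) [.mk 951 0o76502143 0o76510324 0o231045, .mk 1156
0o76534210 0o76534210 0o452301] [],
.mk (.mk 723 0o76543120 0o76543120 0o452310) [.mk 1200 0o76543210 0o76543210 0o543210, .mk 951
0o76325410 0o76325410 0o354210, .mk 1193 0o76324510 0o76235410 0o125403]
[0xe950000e131406c4209162665c9b1816300000392f61c2100530703403ccc82102084d139810000908d844d2681d9a4012460cc8331302c04047a2f328c40cf40554e41c449a23c00c0493a12ac35c0190e8000835d622],
.mk (.mk 792 0o76543210 0o76543210 0o543210) [.mk 1058 0o76451320 0o76452130 0o451320, .mk 1116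
0o76251430 0o76421530 0o145320] [],
.mk (.mk 792 0o76543210 0o76543210 0o543210) [.mk 1137 0o76451203 0o76450231 0o43512, .mk 854
0o76542310 0o76542310 0o453120] [],
.mk (.mk 817 0o76432510 0o76254310 0o354210) [.mk 1163 0o76543210 0o76543210 0o543210, .mk 1116
0o76543210 0o76543210 0o453210] [],
.mk (.mk 800 0o76453210 0o76453210 0o453210) [.mk 1137 0o76543210 0o76543210 0o543210, .mk 817
0o76450312 0o76452013 0o241305] [],
.mk (.mk 817 0o76543210 0o76543210 0o543210) [.mk 1145 0o76543210 0o76543210 0o453210, .mk 1131
0o76314052 0o76135042 0o312504]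
[0x8009001840e08108908431158080a38108900a0209190000411002400040985c2a120b040030130bc0d4900008259023,
0x120408008d40da08b942ac90801cf8458841ab8da04c0c314c08a80200380a801940841847c5d2510160c384530104900000f80a80290904204280aa8e00081590e1438028868800880c70041000012008c194d80008359163,
0x1c010051ca00e208088dc01e5801290a0960180a985000a0820a86110420ce1010ac4ade2c420000106385d19c0a4038d20721c42101d2805602605115c304001130140384700040490c0004154dc000832d8d4],
.mk (.mk 817 0o76543210 0o76543210 0o543210) [.mk 903 0o76543210 0o76543210 0o453210, .mk 1078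
0o76310542 0o76215043 0o14532]
[0x4008d83488420998170482115c00010b0a87a204e818920721603380608c0820863b8ca1312034102009e20f01204008028647290114ac00082a9023,
0x490280140b2001e017013412c02f0218cf8236235093096065412808f80a069635842e8c8823cf27033a4cc23ca211a509104961270840c1407626f18508d408d2010808680c2204a000001025e2000840d2ca342000078408000243481201d4e800083a9163,
0x90010071c700588015780a0d181400980c2c78068428042814120c000e0c40840808059c2b1a28020200084308481110014f0481120d98090448a280a01e88980105d8c100090700b8490400092400808c080284004194e4000836a96c],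
.mk (.mk 817 0o76520314 0o76502413 0o23154) [.mk 1179 0o76154320 0o76432150 0o435210] []]

theorem v4300 : chkL Tab.T5 Tab.RT Tab.reps Tab.E2 Ker.cert7 D4300 4300 = true := by
  decide +kernel

end CR.C2
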