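import Pool.Agent.Lib.MP_6f5d36_co.Ker
import Pool.Agent.Lib.MP_6f5d36_co.RTab
import Pool.Agent.Lib.MP_6f5d36_co.C2.KerC
import Pool.Agent.Lib.MP_6f5d36_co.C2.ETab

/-! MP_6f5d36_co, case (ii), level 7 : the ranks 4400, ..., 4499 -/

set_option autoImplicit false
set_option maxRecDepth 100000

noncomputable section

namespace CR.C2

/-- the frames and certificates of the ranks 4400, ..., 4499 -/
def D4400 : List It :=
[.mk (.mk 1072 0o76253401 0o76423501 0o152340) [.mk 933 0o76534201 0o76534201 0o251430, .mk 1171
0o76123504 0o76203451 0o13425] [],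
.mk (.mk 1033 0o76250431 0o76421503 0o15243) [.mk 875 0o76534120 0o76534120 0o351402, .mk 1140
0o76542310 0o76542310 0o453120] [],
.mk (.mk 1013 0o76543210 0o76543210 0o453210) [.mk 1132 0o76532410 0o76524310 0o354210, .mk 1202
0o76425013 0o76350412 0o241035] [],
.mk (.mk 817 0o76504123 0o76530124 0o150234) [.mk 949 0o76543210 0o76543210 0o543210, .mk 1162
0o76435210 0o76354210 0o453210] [],
.mk (.mk 817 0o76543210 0o76543210 0o543210) [.mk 1109 0o76452310 0o76452310 0o453120, .mk 1131
0o76341052 0o76145032 0o321504] [],
.mk (.mk 783 0o76543210 0o76543210 0o543210) [.mk 1100 0o76234501 0o76234501 0o245013, .mk 1170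
0o76543210 0o76543210 0o453210] [],
.mk (.mk 866 0o76345021 0o76345102 0o150423) [.mk 860 0o76524310 0o76532410 0o245130, .mk 891
0o76435210 0o76354210 0o453210] [],
.mk (.mk 853 0o76153024 0o76403152 0o15243) [.mk 1062 0o76435210 0o76354210 0o453210, .mk 1174
0o76542310 0o76542310 0o254310] [],
.mk (.mk 833 0o76514023 0o76530142 0o205413) [.mk 1132 0o76514023 0o76530142 0o25413, .mk 1172
0o76541320 0o76542130 0o345210] [],
.mk (.mk 1114 0o76435102 0o76354021 0o251430) [.mk 1172 0o76135420 0o76324150 0o435210, .mk 1171
0o76254103 0o76430521 0o125430, .mk 1201 0o76543210 0o76543210 0o543210]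
[0x30001584012842b101a128c242340098961301a102da3280010880181c45401c74888008d804806610841588202000018581188f50954628244780251880408800405434870048140a00114ec00082db86c],
.mk (.mk 822 0o76524103 0o76530421 0o213504) [.mk 1196 0o76512034 0o76501342 0o25413, .mk 1161
0o76325104 0o76305421 0o123504] [],
.mk (.mk 1022 0o76543210 0o76543210 0o354120) [.mk 925 0o76542310 0o76542310 0o453120, .mk 933
0o76543210 0o76543210 0o543210] [],
.mk (.mk 1040 0o76450132 0o76451023 0o42135) [.mk 939 0o76154320 0o76432150 0o134052, .mk 952
0o76452310 0o76452310 0o453120] [],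
.mk (.mk 1100 0o76250143 0o76410523 0o132405) [.mk 933 0o76510243 0o76510243 0o203514, .mk 1132
0o76510243 0o76510243 0o23514] [],
.mk (.mk 1100 0o76524103 0o76530421 0o125430) [.mk 1201 0o76543210 0o76543210 0o543210, .mk 1203
0o76534102 0o76534021 0o251430, .mk 1171 0o76412053 0o76150342 0o52413] [],
.mk (.mk 836 0o76435120 0o76354120 0o453120) [.mk 1154 0o76315024 0o76305142 0o15423, .mk 1154
0o76315420 0o76325140 0o345120] [],
.mk (.mk 898 0o76543210 0o76543210 0o543210) [.mk 1140 0o76452310 0o76452310 0o254310, .mk 945
0o76345210 0o76345210 0o453210] [],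
.mk (.mk 866 0o76543210 0o76543210 0o543210) [.mk 1098 0o76035412 0o76324015 0o241035, .mk 941
0o76345210 0o76345210 0o453201, .mk 975 0o76214530 0o76231540 0o345102] [],
.mk (.mk 1036 0o76450312 0o76452013 0o250134) [.mk 941 0o76543210 0o76543210 0o543210, .mk 1132
0o76251304 0o76402531 0o125430, .mk 1170 0o76543210 0o76543210 0o453210] [],
.mk (.mk 764 0o76305214 0o76305214 0o213405) [.mk 1045 0o76213054 0o76103542 0o25143, .mk 1090
0o76504213 0o76530214 0o124305] [],
.mk (.mk 1126 0o76503412 0o76523014 0o230514) [.mk 1134 0o76453102 0o76453021 0o152430, .mk 1114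
0o76214035 0o76031542 0o25143]
[0x98068100546240800021a8705488a40e2624498730a609400082b82350a08115044098b0260282d01997e002180099c224474ce69f30a48643b81134054068804122144230a9400a00190d40008368a5a],
.mk (.mk 819 0o76453210 0o76453210 0o453210) [.mk 1153 0o76351204 0o76405231 0o25341, .mk 945
0o76543210 0o76543210 0o543210] [],
.mk (.mk 1103 0o76542301 0o76542301 0o254013) [.mk 1153 0o76541032 0o76541032 0o140352, .mk 816
0o76543210 0o76543210 0o543210] [],
.mk (.mk 819 0o76453210 0o76453210 0o453210) [.mk 1164 0o76435201 0o76354201 0o52431, .mk 864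
0o76543210 0o76543210 0o543210] [],
.mk (.mk 1119 0o76543201 0o76543201 0o254103) [.mk 1164 0o76315042 0o76315042 0o104532, .mk 816
0o76543210 0o76543210 0o543210] [],
.mk (.mk 796 0o76543210 0o76543210 0o543210) [.mk 1177 0o76304152 0o76135024 0o13452, .mk 1156
0o76542301 0o76542301 0o251430, .mk 949 0o76503142 0o76513024 0o103452, .mk 975 0o76413520
0o76253140 0o354102] [],
.mk (.mk 720 0o76543210 0o76543210 0o543210) [.mk 1013 0o76540321 0o76542103 0o230541, .mk 796
0o76531420 0o76524130 0o354021] [],
.mk (.mk 936 0o76503142 0o76513024 0o103452) [.mk 1156 0o76452310 0o76452310 0o254130, .mk 1177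
0o76304152 0o76135024 0o13452, .mk 975 0o76413520 0o76253140 0o354102] [],
.mk (.mk 1025 0o76524310 0o76532410 0o254310) [.mk 1156 0o76425130 0o76351420 0o142503, .mk 881
0o76543210 0o76543210 0o543210] [],
.mk (.mk 1044 0o76132054 0o76104352 0o104253) [.mk 949 0o76530124 0o76504123 0o203154, .mk 975
0o76431520 0o76254130 0o354201] [],
.mk (.mk 1062 0o76453210 0o76453210 0o453210) [.mk 1109 0o76452310 0o76452310 0o254310, .mk 898
0o76543210 0o76543210 0o543210] [],
.mk (.mk 819 0o76453210 0o76453210 0o453210) [.mk 1191 0o76130542 0o76214053 0o123054, .mk 958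
0o76150432 0o76421053 0o213054] [],
.mk (.mk 858 0o76543210 0o76543210 0o453210) [.mk 1050 0o76523401 0o76523401 0o245013, .mk 816
0o76543210 0o76543210 0o543210] [],
.mk (.mk 819 0o76543210 0o76543210 0o543210) [.mk 1102 0o76503124 0o76503124 0o102543, .mk 816
0o76513024 0o76503142 0o23154] [],
.mk (.mk 885 0o76540321 0o76542103 0o203154) [.mk 816 0o76543210 0o76543210 0o543210, .mk 1100
0o76541320 0o76542130 0o120543, .mk 1162 0o76534210 0o76534210 0o453210] [],
.mk (.mk 1036 0o76523410 0o76523410 0o254310) [.mk 881 0o76543210 0o76543210 0o543210, .mk 816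
0o76542310 0o76542310 0o354210] [],
.mk (.mk 802 0o76453210 0o76453210 0o453210) [.mk 1109 0o76032154 0o76104325 0o104325, .mk 905
0o76543210 0o76543210 0o543210]
[0x100800a050428460429008458c10038078490840108558008020059c4b0314304c39600a18664110f801ad3007ce43921459160c104705204a89485200205e82a81400c00194b8000831b8ea],
.mk (.mk 905 0o76543210 0o76543210 0o543210) [.mk 949 0o76510234 0o76501243 0o103245, .mk 1177
0o76310254 0o76105243 0o13254]
[0x158201c4588b21c1142305e0461082100312e00002a144aa5350610b01e5b9828c210682d1181f034160026420246296b388006024020061860a4138480360a41404154c000082dab53],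
.mk (.mk 802 0o76543210 0o76543210 0o354102) [.mk 1117 0o76543210 0o76543210 0o254310, .mk 1109
0o76542130 0o76541320 0o53142]
[0x81040204c1801c0a0046260831528949104460e0b0394a30017d1400118c341c4420952105c6004d106046046122108312841106063249524cc523f8760c415724150d0000832b642],
.mk (.mk 613 0o76543210 0o76543210 0o543210) [.mk 804 0o76532410 0o76524310 0o254130, .mk 830
0o76524310 0o76532410 0o315402] [],
.mk (.mk 715 0o76543210 0o76543210 0o543210) [.mk 728 0o76543210 0o76543210 0o453210] [],
.mk (.mk 576 0o76543210 0o76543210 0o543210) [.mk 623 0o76524310 0o76532410 0o341502, .mk 956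
0o76524310 0o76532410 0o134502] [],
.mk (.mk 759 0o76531204 0o76504231 0o43512) [.mk 854 0o76452310 0o76452310 0o453120, .mk 928
0o76324510 0o76235410 0o354210] [],
.mk (.mk 774 0o76431520 0o76254130 0o145230) [.mk 618 0o76541320 0o76542130 0o451320, .mk 928
0o76354201 0o76435201 0o253104] [],
.mk (.mk 615 0o76543210 0o76543210 0o543210) [.mk 854 0o76542310 0o76542310 0o453120, .mk 1065
0o76534210 0o76534210 0o354120] [],
.mk (.mk 774 0o76543210 0o76543210 0o543210) [.mk 1119 0o76251403 0o76420531 0o34152, .mk 1130
0o76450231 0o76451203 0o243015] [],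
.mk (.mk 625 0o76354210 0o76435210 0o453210) [.mk 1068 0o76125043 0o76310452 0o14532, .mk 1130
0o76435021 0o76354102 0o314205] [],
.mk (.mk 761 0o76532104 0o76504321 0o123504) [.mk 598 0o76543210 0o76543210 0o543210] [],
.mk (.mk 626 0o76532410 0o76524310 0o245301) [.mk 859 0o76543210 0o76543210 0o452301, .mk 859
0o76543210 0o76543210 0o543210] [],
.mk (.mk 1070 0o76534210 0o76534210 0o453210) [.mk 626 0o76502413 0o76520314 0o214035, .mk 632
0o76543210 0o76543210 0o543210] [],
.mk (.mk 1065 0o76345201 0o76345201 0o254013) [.mk 916 0o76523401 0o76523401 0o340512, .mk 1096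
0o76540213 0o76540213 0o130524] [],
.mk (.mk 668 0o76543210 0o76543210 0o543210) [.mk 916 0o76520143 0o76510423 0o104352] [],
.mk (.mk 551 0o76534210 0o76534210 0o354201) [.mk 595 0o76523401 0o76523401 0o240315, .mk 569
0o76543210 0o76543210 0o543210] [],
.mk (.mk 543 0o76543210 0o76543210 0o543210) [.mk 551 0o76540123 0o76540123 0o103254, .mk 911
0o76534210 0o76534210 0o453210] [],
.mk (.mk 593 0o76543210 0o76543210 0o453210) [.mk 868 0o76534102 0o76534021 0o45231, .mk 966
0o76532140 0o76514320 0o235401, .mk 896 0o76532140 0o76514320 0o325401]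
[0x4104000c7194208211480083044394211a0080084141c41487088102388248040a4d00c40cb00432840001a261446c8c021280428a8430e2140180c08e034a704f50c0003100154cc00083050c4,
0x78082190a34002318065b0805018e46284461046004a3181e30816a1892106941781c220002380413806548400294e12b040c0b440852300dc4101c0403c00812108401600114dc00082dc125,
0x1430020086208400c1300318449a4b4279001005044c145304020021c108e6e4632180920142089110a41c078030b8164640080261400a40a4841006d093380544401110063902300154d4000832a0e9,
0x38c10430c00038cd9020001900080c000098024190108e14110298000480050910d08a10180a14a8001c500500490384484b022542941005810043088885a460138518800011450c194c0000832d0e9],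
.mk (.mk 593 0o76534210 0o76534210 0o31524) [.mk 593 0o76534210 0o76534210 0o452310, .mk 803
0o76543210 0o76543210 0o305124]
[0x41380c0100c0010010402258843088a50044108a07088c1e0ce060469618612044010c0662243600255bce2682420886001ce609ce0510004042162020080a3e00114d000082dd8c2,
0x100308c2090e1860c847010c886d702c048a1760050a407209042660208443c90410cc04204b9c0aa381b17448040108420b041180110bc00082a261d],
.mk (.mk 829 0o76543210 0o76543210 0o452310) [.mk 831 0o76512304 0o76502341 0o201543, .mk 897
0o76543210 0o76543210 0o354120] [],
.mk (.mk 601 0o76534210 0o76534210 0o135042) [.mk 908 0o76543210 0o76543210 0o543210, .mk 908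
0o76543210 0o76543210 0o315042] [],
.mk (.mk 904 0o76543210 0o76543210 0o325401) [.mk 1157 0o76210543 0o76210543 0o13524, .mk 1157
0o76210543 0o76210543 0o105342, .mk 904 0o76543210 0o76543210 0o543210]
[0x2405201811290c3018332cd1a04051180521007009432181370c0323c033104904089319120444b13ccb5088c31992801c022cc603c5d1c6a4218c02040e51817342d10d50150dc000830946c,
0x1004a10028800805a10000919d60381200850338d21508210014000c80029201844010120c15ed1840160c83080a308c4701800b4d6338c222188258da358b205910430165100114e000082d1265,
0x1002018142505c058204b840021ce030100004ed00c60408e20940000001181a5009420196080646580031d9441916280c042c8081306809821508114bc00082916e5,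
0x2190710ac82d45670b883e42602e00f3838c22e7ee0e200500a406025891c88020600f382840801c33518fe87a02010518b848040646f803c884410244881c260801b0781ec026078308902c03e01b005000c0f2032230089c4210dc00083db46c],
.mk (.mk 829 0o76453210 0o76453210 0o452310) [.mk 966 0o76532140 0o76514320 0o235401, .mk 1187
0o76532140 0o76514320 0o325401]
[0x98143a62380108209e04c890041240088311130811cd106201624828014304404c1c1b316400309090843002c01118c240638220d6100609c1000154088402903088811d6022206598154d40008318125,
0xf0098803c8c0110b044811180620140300c8300047384c4605221b8202c4094109006840024441457120803240011e008144b1172640443025c070c430050150c800082dc125,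
0xb01e114a000101433ca08000800180100298000402845084b7003050426130a900739a5140081109010900984086300408cf8004006880810a368601c33840386c84335e2200808154d000083280e9,
0x4280114f40c0182141323222cb200111012c2505e0b20004e88f188008211461d80708a8ce3c0070248c022a53c8b9c201c040281c2010194422d408219847881082209051191c00382500154dc000832a0e9,
0x1058b286002e10020141124104832aa46aba0a01414d51150086b00094c5d4312ca280989451402c1081142a4008128a0282050982505a2249d80304c46080c8b1042300340b0324d58190d4000836c0e9],
.mk (.mk 728 0o76541230 0o76541230 0o324051) [.mk 803 0o76541230 0o76541230 0o234051, .mk 803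
0o76543210 0o76543210 0o452310] [],
.mk (.mk 829 0o76534210 0o76534210 0o453210) [.mk 959 0o76510423 0o76520143 0o120345, .mk 785
0o76542103 0o76540321 0o45321, .mk 843 0o76532410 0o76524310 0o351402]
[0x4498004068014c4c80880147800f544c85448c2540156c474404c48000c94400024cb845d00009c03900401070c02c17cc98804084a8c0bd805847c545441b249509c0dc0b845c572010844404d30c21004c280e084901440001d0f00008395882,
0xb002008078020820186008000a53c0004a20a114008004851302381208c440a9b1c282608010c11920402249a0003082288110043cc194049821068000290038018595220245704154d00008328942,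
0x811100463188242ad9c4dcb31042010c11100a264602748f100410908b121271005513a241240321d0484c0f00c517520c35e1d0848a8742d25290404c102819344233280150dc000832a942,
0x1c0133844109042487386e6073044ad8041685047b26538c024d88045a40700e1199080400078080040f13809524c31350054c7401c2f16d412720912404625155a04150d4000832d942],
.mk (.mk 978 0o76210453 0o76120543 0o213054) [.mk 597 0o76543210 0o76543210 0o543210] [],
.mk (.mk 787 0o76524103 0o76530421 0o152043) [.mk 1075 0o76452310 0o76452310 0o254031, .mk 1198
0o76402531 0o76251304 0o31524] [],
.mk (.mk 759 0o76523410 0o76523410 0o125403) [.mk 730 0o76345021 0o76345102 0o250431, .mk 618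
0o76543210 0o76543210 0o543210] [],
.mk (.mk 759 0o76531204 0o76504231 0o201345) [.mk 794 0o76542310 0o76542310 0o453120, .mk 809
0o76543012 0o76543012 0o350124] [],
.mk (.mk 582 0o76543210 0o76543210 0o543210) [.mk 626 0o76504213 0o76530214 0o201345, .mk 629
0o76534201 0o76534201 0o340521, .mk 961 0o76534120 0o76534120 0o134502] [],
.mk (.mk 723 0o76542310 0o76542310 0o453120) [.mk 967 0o76543210 0o76543210 0o543210, .mk 785
0o76531204 0o76504231 0o41325, .mk 953 0o76543021 0o76543102 0o250431]
[0x720929c4781004206449a24134819cfa9502504c4c9842484440510c3c61518209580021c1408c15e2384c181222a1c0bc1106c6000198116608ec3a8815c44cc309bb888d0898b14ac37c00aa000015c0190ec000836db03],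
.mk (.mk 787 0o76312504 0o76205341 0o215340) [.mk 1039 0o76054321 0o76432105 0o42315] [],
.mk (.mk 830 0o76543210 0o76543210 0o543210) [.mk 822 0o76423510 0o76253410 0o352401, .mk 877
0o76541320 0o76542130 0o451320, .mk 1145 0o76314502 0o76235041 0o34512]
[0x16005c011841e5b063014008800c1812267049905fe282810b840b9c0c086410c8c0b00150024a024a038001083c54b4824856c1862000c00a9001186a226403280350026c223c020c3b009a21a441f04d108567098a6f8ced0c8411f00238212008e147400004254dc000842b2c2],
.mk (.mk 1008 0o76543210 0o76543210 0o453210) [.mk 903 0o76314502 0o76235041 0o132504, .mk 830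
0o76543210 0o76543210 0o543210]
[0x1d00e04e0550c781784a80214400000580a8008050101cd0889018c21c795abc007191294580080b9c08450d79179489420c5882c029a605e4448c71809810400c40001010428050c194c000083132c2],
.mk (.mk 597 0o76534210 0o76534210 0o453210) [.mk 952 0o76523410 0o76523410 0o135402, .mk 843
0o76532410 0o76524310 0o351402]
[0x301112800020491124070c6dc144090848000c335cd45148d0094e44d5431844110022042114e1414d0f84c1a1040897619b080305406188478184b1468f200120100150d4000832a942,
0x80d108140901b05006001d0014c18294131800351850044120984304c023c0401504315000150142885b05a1a49c441cdb5044424c50608837380400845a00851108150d4000832b942],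
.mk (.mk 1038 0o76402531 0o76251304 0o31245) [.mk 922 0o76542310 0o76542310 0o354120, .mk 1038
0o76532410 0o76524310 0o254310] [],
.mk (.mk 928 0o76435210 0o76354210 0o354210) [.mk 918 0o76543120 0o76543120 0o102354, .mk 888
0o76453120 0o76453120 0o12354] [],
.mk (.mk 700 0o76541230 0o76541230 0o234051) [.mk 577 0o76543210 0o76543210 0o453210, .mk 602
0o76541230 0o76541230 0o324051] [],
.mk (.mk 1011 0o76324510 0o76235410 0o125403) [.mk 842 0o76543210 0o76543210 0o453210] [],
.mk (.mk 577 0o76514230 0o76531240 0o324051) [.mk 839 0o76514230 0o76531240 0o234051] [],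
.mk (.mk 576 0o76543210 0o76543210 0o34125) [.mk 576 0o76543210 0o76543210 0o543210, .mk 602
0o76534210 0o76534210 0o304125] [],
.mk (.mk 869 0o76143205 0o76043251 0o53241) [.mk 1043 0o76543210 0o76543210 0o543210, .mk 1032
0o76453120 0o76453120 0o452310] [],
.mk (.mk 832 0o76435210 0o76354210 0o453210) [.mk 1033 0o76425103 0o76350421 0o140235] [],
.mk (.mk 723 0o76541320 0o76542130 0o451320) [.mk 953 0o76543021 0o76543102 0o250431, .mk 799
0o76530214 0o76504213 0o43125, .mk 951 0o76524310 0o76532410 0o354120]
[0x4a1240b0088411c8513ccc24c08908428004a10c845000290801152c1201000041113c563244200d5a50c00a210a3396760b021205a409041358000c40108c413c051288150dc0008324485,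
0x80284518833cab0c5206229cf00641c10000901090004030092109080680b0180100000128a02441411014a342b00000c340cf30c00a12c049001d60cc69947180538008d12024b00380154dc0008329b03,
0x89c03a500488280060186693c0a13416b85141901544004102104838452820006706440c000038804821144802b0d260c428810081002d04208032c08a4223c010c30c154c400082edb03],
.mk (.mk 786 0o76543210 0o76543210 0o453210) [.mk 960 0o76315240 0o76315240 0o324501, .mk 1168
0o76042315 0o76042315 0o12534]
[0x4e103a10a8002701080e202800850b900a026842a0081c16f3c1018008041a21318084078806f01822a00081f201a040c10e051415104eb41800481108d00009003a600049824388e6240046801800541008890036101a51432a020094214d400083c3061,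
0x5213c8d110822011503082508831084644c572084010482744010140553d601684073943a18cd000410088b100890184b00c0150040700d89188c4248e0c2c17410c15841a0c0150e4000832436b],
.mk (.mk 723 0o76543210 0o76543210 0o453210) [.mk 751 0o76325410 0o76325410 0o354210, .mk 1193
0o76324510 0o76235410 0o125403]
[0x10010308b020c10384012085414021284d419c004400108c105896205cf12400a18c4314c73cc2b34d893008c77810800cc27dc7128c3723423104b2120f400800b4d111c0150dc000831a622,
0xb9c53a6382384128030483000002344828500065188680009805c088a400e1f0340510161682010212020c1486b10a410208c010a504420d1a0b12460a4350e0100f08154c400082dd622],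
.mk (.mk 926 0o76134205 0o76034251 0o34251) [.mk 970 0o76503214 0o76503214 0o210543, .mk 926
0o76154203 0o76430251 0o301524]
[0x588880605880400290084fa2608a8848c60c1001846016040c010050410c59890cb9c58420d60429c101685314a2c18cc88d0040488b1a0910e04a8189c61c238904200b1000c580800104788200584000880194dc0008340ad3,
0x148110800040cc1b8102060c8111410ca500030d60d0240fb8e01462dce8a101c2784eb8303a281428055030ac0491c112a1840b8104000000053408016007113282284500212e000040805224340190e40008340ad4,
0x4803001412098e00541b2a4731ce34008011883000d002406100d142cc4904c91554ac20c1200892040c238c4400084044611c0640c40c090a1700e72c0c034410288314c4150dc000831a125,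
0x28460078a12a910410843449148137a414801c008414118c120d5010d5376d4a039814080a520872a5c45390d10900a044022a0c030084044d07047484c150c400082da725],
.mk (.mk 623 0o76254031 0o76431502 0o204513) [.mk 1124 0o76431520 0o76254130 0o154230, .mk 842
0o76453120 0o76453120 0o452310] [],
.mk (.mk 992 0o76543210 0o76543210 0o354210) [.mk 1024 0o76543102 0o76543021 0o53421, .mk 623
0o76543210 0o76543210 0o543210] [],
.mk (.mk 607 0o76532410 0o76524310 0o354102) [.mk 736 0o76435210 0o76354210 0o453210] [],
.mk (.mk 735 0o76135042 0o76314052 0o321540) [.mk 946 0o76314025 0o76035142 0o25431, .mk 925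
0o76543210 0o76543210 0o453210] [],
.mk (.mk 604 0o76543210 0o76543210 0o543210) [.mk 969 0o76543210 0o76543210 0o453210, .mk 926
0o76532410 0o76524310 0o354120]
[0x442880212400c088a20042943214902c004b08820060800000e16d184708820222c8c00049a00dc128181ae58409059066354210d22fa7c42a9b430251479093060040190c40008313aa4,
0x1611c4004494024175311400c807284600581001c20178511c4075840009c0004537b829c2445100cd101c5001010044341e5203480014c01071110d0410245078a7008c150d80008329a53,
0x3098098060384841860ba00000012140423088037112330aa290c442988039003400a102601620c07162539161408400002438673188613815380ec2e9ce4400114cc00082ebaa4],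
.mk (.mk 732 0o76503142 0o76513024 0o13542) [.mk 954 0o76452301 0o76452301 0o254013, .mk 912
0o76421350 0o76152430 0o354021] [],
.mk (.mk 732 0o76452310 0o76452310 0o254130) [.mk 727 0o76543210 0o76543210 0o453210, .mk 1104
0o76543120 0o76543120 0o53412] [],
.mk (.mk 720 0o76543210 0o76543210 0o543210) [.mk 1104 0o76231054 0o76104532 0o14352, .mk 952
0o76312504 0o76205341 0o215430] [],
.mk (.mk 1020 0o76453201 0o76453201 0o254103) [.mk 1142 0o76403152 0o76153024 0o130524, .mk 816
0o76543210 0o76543210 0o543210] [],
.mk (.mk 1000 0o76105432 0o76321054 0o123540) [.mk 1044 0o76542130 0o76541320 0o452130, .mk 943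
0o76215430 0o76321540 0o325401] [],
.mk (.mk 1005 0o76251403 0o76420531 0o125430) [.mk 1054 0o76230415 0o76024513 0o25134, .mk 956
0o76241503 0o76240531 0o215430] [],
.mk (.mk 979 0o76531420 0o76524130 0o154230) [.mk 746 0o76543210 0o76543210 0o543210] [],
.mk (.mk 850 0o76543210 0o76543210 0o543210) [.mk 886 0o76043125 0o76043125 0o42315, .mk 1054
0o76125304 0o76302451 0o302514] [],
.mk (.mk 667 0o76543210 0o76543210 0o453102) [.mk 886 0o76510243 0o76510243 0o32154, .mk 943
0o76530124 0o76504123 0o213045] [],
.mk (.mk 869 0o76352410 0o76425310 0o245031) [.mk 822 0o76543210 0o76543210 0o543210, .mk 910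
0o76453210 0o76453210 0o452301] [],
.mk (.mk 840 0o76453210 0o76453210 0o452310) [.mk 971 0o76543210 0o76543210 0o543210, .mk 906
0o76453120 0o76453120 0o352401] []]

theorem v4400 : chkL Tab.T5 Tab.RT Tab.reps Tab.E2 Ker.cert7 D4400 4400 = true := by
  decide +kernel

end CR.C2
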