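import Pool.Agent.Lib.MP_6f5d36_co.Ker
import Pool.Agent.Lib.MP_6f5d36_co.RTab
import Pool.Agent.Lib.MP_6f5d36_co.C2.KerC
import Pool.Agent.Lib.MP_6f5d36_co.C2.ETab

/-! MP_6f5d36_co, case (ii), level 7 : the ranks 4500, ..., 4599 -/

set_option autoImplicit false
set_option maxRecDepth 100000

noncomputable section

namespace CR.C2

/-- the frames and certificates of the ranks 4500, ..., 4599 -/
def D4500 : List It :=
[.mk (.mk 1010 0o76150423 0o76420153 0o14532) [.mk 903 0o76453210 0o76453210 0o453210, .mk 906
0o76045312 0o76342015 0o214035] [],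
.mk (.mk 822 0o76543210 0o76543210 0o543210) [.mk 939 0o76540123 0o76540123 0o23154, .mk 954
0o76520143 0o76510423 0o320154] [],
.mk (.mk 922 0o76453210 0o76453210 0o452301) [.mk 939 0o76342510 0o76245310 0o245031, .mk 1204
0o76054321 0o76432105 0o143205]
[0x4522081050008004019055019401c13710100800202c73920c7c46a10754800580622542098c940be12c190894091e5013810c0c05051129c803c4f6205694d01829225300211b40c009408187f85da12a0b6081cc20719589801d4e0000839311c,
0x18411428008830028408011c1c814c1c8ac00b0640084248588c090486e81582e80589841c4024584a002585c018819c1202002489b12601400043800c428c0408881c00083c00486d629c2841d0cc000839511c,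
0x31c9424032b08080420383019328c16c0050f209941081050519ec49a826009803843e454018196080e631136894a8c6a2f84108dd010ff41160bdc07208015d09c6422e900611804656023279080c05a406001109d49825201181fe8210e400083daa2b,
0xc80304400380c08384914e00101000100a0171038510001a98c000988180b85389db400c88940e805294680688715384028d0016479c210018f841849842a4600f0a08420c5a84a8814388194c80008322a2b],
.mk (.mk 903 0o76532104 0o76504321 0o45321) [.mk 925 0o76340251 0o76145203 0o130542] [],
.mk (.mk 868 0o76345210 0o76345210 0o452301) [.mk 868 0o76543210 0o76543210 0o543210, .mk 1171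
0o76520431 0o76521403 0o52314] [],
.mk (.mk 597 0o76543210 0o76543210 0o452310) [.mk 952 0o76532140 0o76514320 0o325401, .mk 966
0o76532140 0o76514320 0o235401]
[0x20208001800260060088a701c840988b2aca52a5a4000020103660c814046070ca35046401000a8442385607050000c000886140ac0220e481180104c118c01300114d000082d8125,
0x118008432c0b90c188030274071001dc229c2022148ad0dd20e300060420866240d004006120358c84387340106102898c6b05b0a4aa0618070acf604e849308454269990801402300154d4000832a0e9,
0x14061405400494034db008c009042451c13008a519450100f11045104c46140220441400c350902468803144454d851381001d80182c422dd35100180305300c5110c150d4000832d0e9],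
.mk (.mk 597 0o76534210 0o76534210 0o35124) [.mk 803 0o76543210 0o76543210 0o543210, .mk 832
0o76502431 0o76521304 0o210453] [],
.mk (.mk 565 0o76543210 0o76543210 0o452301) [.mk 1137 0o76453201 0o76453201 0o43521, .mk 902
0o76543210 0o76543210 0o543210] [],
.mk (.mk 851 0o76453120 0o76453120 0o453120) [.mk 902 0o76452310 0o76452310 0o251403, .mk 1170
0o76241530 0o76241530 0o345120] [],
.mk (.mk 845 0o76543210 0o76543210 0o543210) [.mk 887 0o76340512 0o76245013 0o250314, .mk 1105
0o76213054 0o76103542 0o14352] [],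
.mk (.mk 822 0o76543210 0o76543210 0o543210) [.mk 1105 0o76534102 0o76534021 0o152403, .mk 1171
0o76104235 0o76031254 0o13542] [],
.mk (.mk 932 0o76453210 0o76453210 0o452301) [.mk 932 0o76543210 0o76543210 0o543210, .mk 1202
0o76215034 0o76301542 0o15432] [],
.mk (.mk 565 0o76542301 0o76542301 0o254103) [.mk 923 0o76435210 0o76354210 0o120543] [],
.mk (.mk 1013 0o76542301 0o76542301 0o254013) [.mk 1134 0o76250431 0o76421503 0o120435, .mk 1098
0o76345210 0o76345210 0o453210] [],
.mk (.mk 817 0o76521043 0o76510432 0o231054) [.mk 1134 0o76521034 0o76501432 0o123504, .mk 1143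
0o76520143 0o76510423 0o25341]
[0x3026120248041080182181418c2344b89b08633483a000005080e8882aa4492108011e220440050281244a05000a6006284b52e9200e801088304aba4101a03c84052044022141ce08030c8788154e0000832c88b],
.mk (.mk 1098 0o76245103 0o76340521 0o215340) [.mk 969 0o76254103 0o76430521 0o125340, .mk 1195
0o76453120 0o76453120 0o345120] [],
.mk (.mk 1095 0o76205431 0o76321504 0o125304) [.mk 1097 0o76451320 0o76452130 0o451320, .mk 863
0o76530214 0o76504213 0o41532] [],
.mk (.mk 921 0o76241503 0o76240531 0o213504) [.mk 941 0o76543210 0o76543210 0o543210, .mk 1147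
0o76320514 0o76205413 0o25314] [],
.mk (.mk 999 0o76024153 0o76130425 0o12453) [.mk 932 0o76453210 0o76453210 0o453210, .mk 1098
0o76024135 0o76031425 0o102453] [],
.mk (.mk 752 0o76423510 0o76253410 0o245031) [.mk 1123 0o76014352 0o76132045 0o103245, .mk 863
0o76432510 0o76254310 0o354210] [],
.mk (.mk 1122 0o76421053 0o76150432 0o231054) [.mk 1155 0o76214053 0o76130542 0o13425, .mk 958
0o76534210 0o76534210 0o453201] [],
.mk (.mk 752 0o76125043 0o76310452 0o104532) [.mk 1023 0o76453102 0o76453021 0o251430, .mk 866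
0o76543210 0o76543210 0o543210] [],
.mk (.mk 863 0o76135402 0o76324051 0o125340) [.mk 1167 0o76543210 0o76543210 0o543210, .mk 958
0o76435210 0o76354210 0o453201] [],
.mk (.mk 752 0o76205413 0o76320514 0o231045) [.mk 1119 0o76105423 0o76320154 0o32154, .mk 1142
0o76305412 0o76325014 0o132405] [],
.mk (.mk 898 0o76543210 0o76543210 0o543210) [.mk 1130 0o76045321 0o76342105 0o214305, .mk 1150
0o76125043 0o76310452 0o14532] [],
.mk (.mk 934 0o76543210 0o76543210 0o543210) [.mk 1166 0o76301542 0o76215034 0o32541, .mk 1201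
0o76450231 0o76451203 0o123450] [],
.mk (.mk 755 0o76534120 0o76534120 0o354012) [.mk 752 0o76543120 0o76543120 0o154320, .mk 892
0o76504231 0o76531204 0o34125] [],
.mk (.mk 863 0o76531402 0o76524031 0o125340) [.mk 923 0o76430512 0o76254013 0o250134, .mk 1191
0o76453210 0o76453210 0o453210] [],
.mk (.mk 1050 0o76521043 0o76510432 0o24513) [.mk 923 0o76453102 0o76453021 0o125430, .mk 955
0o76531042 0o76514032 0o204153] [],
.mk (.mk 753 0o76253410 0o76423510 0o452301) [.mk 915 0o76543210 0o76543210 0o543210, .mk 1147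
0o76532410 0o76524310 0o154320] [],
.mk (.mk 871 0o76453210 0o76453210 0o452310) [.mk 1061 0o76051342 0o76412035 0o31425, .mk 853
0o76152340 0o76412350 0o345012] [],
.mk (.mk 610 0o76253410 0o76423510 0o453210) [.mk 1066 0o76541032 0o76541032 0o32514, .mk 853
0o76452130 0o76451320 0o354021] [],
.mk (.mk 853 0o76514230 0o76531240 0o254013) [.mk 1196 0o76432510 0o76254310 0o154320, .mk 915
0o76543210 0o76543210 0o543210] [],
.mk (.mk 852 0o76435012 0o76354012 0o150234) [.mk 1172 0o76314520 0o76235140 0o345210, .mk 937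
0o76504312 0o76532014 0o241035] [],
.mk (.mk 755 0o76534210 0o76534210 0o453210) [.mk 892 0o76503421 0o76523104 0o243105, .mk 853
0o76513024 0o76503142 0o15243] [],
.mk (.mk 801 0o76215340 0o76312540 0o435102) [.mk 1176 0o76543210 0o76543210 0o254130, .mk 941
0o76435021 0o76354102 0o150432] [],
.mk (.mk 1009 0o76453210 0o76453210 0o354120) [.mk 1048 0o76140523 0o76240153 0o32541] [],
.mk (.mk 998 0o76143250 0o76143250 0o21453) [.mk 808 0o76543210 0o76543210 0o453210] [],
.mk (.mk 785 0o76543210 0o76543210 0o452301) [.mk 997 0o76542310 0o76542310 0o254301, .mk 997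
0o76542310 0o76542310 0o345210] [],
.mk (.mk 822 0o76543210 0o76543210 0o543210) [.mk 1187 0o76524103 0o76530421 0o152043, .mk 1156
0o76534210 0o76534210 0o452301] [],
.mk (.mk 982 0o76130425 0o76024153 0o12453) [.mk 983 0o76320514 0o76205413 0o104523, .mk 749
0o76251043 0o76410532 0o205431] [],
.mk (.mk 749 0o76354210 0o76435210 0o453210) [.mk 993 0o76201453 0o76120534 0o320154] [],
.mk (.mk 993 0o76405132 0o76351024 0o230415) [.mk 912 0o76543210 0o76543210 0o543210, .mk 1088
0o76405123 0o76350124 0o32145] [],
.mk (.mk 827 0o76435012 0o76354012 0o150243) [.mk 1154 0o76315420 0o76325140 0o345120, .mk 827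
0o76435210 0o76354210 0o453210, .mk 1166 0o76543102 0o76543021 0o251430] [],
.mk (.mk 827 0o76435021 0o76354102 0o150423) [.mk 880 0o76504321 0o76532104 0o214305, .mk 945
0o76435210 0o76354210 0o453210] [],
.mk (.mk 945 0o76435120 0o76354120 0o453120) [.mk 1176 0o76543210 0o76543210 0o254130, .mk 940
0o76215043 0o76310542 0o105432] [],
.mk (.mk 1063 0o76532410 0o76524310 0o453210) [.mk 1166 0o76421053 0o76150432 0o132054, .mk 1176
0o76412053 0o76150342 0o31245] [],
.mk (.mk 817 0o76532410 0o76524310 0o154320) [.mk 1135 0o76342510 0o76245310 0o453210, .mk 915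
0o76543210 0o76543210 0o543210] [],
.mk (.mk 853 0o76520134 0o76501423 0o23154) [.mk 1103 0o76513024 0o76503142 0o105423, .mk 866
0o76543210 0o76543210 0o543210] [],
.mk (.mk 853 0o76502413 0o76520314 0o31245) [.mk 822 0o76342510 0o76245310 0o251403, .mk 1188
0o76345210 0o76345210 0o453210] [],
.mk (.mk 853 0o76504213 0o76530214 0o13524) [.mk 1178 0o76143520 0o76243150 0o241503, .mk 927
0o76543210 0o76543210 0o543210] [],
.mk (.mk 699 0o76543210 0o76543210 0o453102) [.mk 1178 0o76523401 0o76523401 0o45123, .mk 1178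
0o76524301 0o76532401 0o254103] [],
.mk (.mk 853 0o76520134 0o76501423 0o23154) [.mk 898 0o76543210 0o76543210 0o543210, .mk 1119
0o76512034 0o76501342 0o105243, .mk 1195 0o76350421 0o76425103 0o230541] [],
.mk (.mk 853 0o76502413 0o76520314 0o31245) [.mk 893 0o76342501 0o76245301 0o254103, .mk 796
0o76543210 0o76543210 0o543210] [],
.mk (.mk 763 0o76543210 0o76543210 0o543210) [.mk 853 0o76502314 0o76502314 0o13254, .mk 1050
0o76541302 0o76542031 0o250413] [],
.mk (.mk 790 0o76543210 0o76543210 0o453210) [.mk 1059 0o76352410 0o76425310 0o254310, .mk 1101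
0o76403251 0o76153204 0o31452] [],
.mk (.mk 1140 0o76342510 0o76245310 0o254310) [.mk 1134 0o76513402 0o76523041 0o42351, .mk 945
0o76534210 0o76534210 0o453210]
[0xb01b80904480084504689501084204fac400288004134600180680204904c20007180204808a84600310288004618f94508000781b8808020c81cc00780b30a002009ac204350010000f1810d70da2c980388a80194e00008352a63],
.mk (.mk 735 0o76453120 0o76453120 0o154320) [.mk 1061 0o76452130 0o76451320 0o53142, .mk 945
0o76345210 0o76345210 0o354102] [],
.mk (.mk 582 0o76543210 0o76543210 0o453210) [.mk 632 0o76524310 0o76532410 0o215403, .mk 942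
0o76532014 0o76504312 0o42351, .mk 968 0o76523410 0o76523410 0o125403] [],
.mk (.mk 737 0o76543210 0o76543210 0o543210) [.mk 948 0o76514320 0o76532140 0o124503] [],
.mk (.mk 743 0o76510342 0o76512043 0o15423) [.mk 632 0o76532401 0o76524301 0o325014, .mk 867
0o76543210 0o76543210 0o543210] [],
.mk (.mk 789 0o76250134 0o76401523 0o32145) [.mk 1105 0o76543210 0o76543210 0o354210, .mk 1080
0o76543120 0o76543120 0o452310] [],
.mk (.mk 789 0o76524130 0o76531420 0o130425) [.mk 583 0o76543210 0o76543210 0o34125, .mk 789
0o76524130 0o76531420 0o245310] [],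
.mk (.mk 620 0o76543210 0o76543210 0o543210) [.mk 879 0o76504231 0o76531204 0o143205, .mk 627
0o76534210 0o76534210 0o452310] [],
.mk (.mk 583 0o76542103 0o76540321 0o35241) [.mk 633 0o76543201 0o76543201 0o304521, .mk 634
0o76543120 0o76543120 0o452310] [],
.mk (.mk 583 0o76543210 0o76543210 0o543210) [.mk 776 0o76531024 0o76504132 0o52143, .mk 786
0o76534120 0o76534120 0o134502] [],
.mk (.mk 616 0o76543210 0o76543210 0o452301) [.mk 937 0o76543210 0o76543210 0o245031, .mk 918
0o76542103 0o76540321 0o53142] [],
.mk (.mk 576 0o76543210 0o76543210 0o543210) [.mk 619 0o76534210 0o76534210 0o354120, .mk 922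
0o76542103 0o76540321 0o54321, .mk 969 0o76543201 0o76543201 0o240513] [],
.mk (.mk 906 0o76432510 0o76254310 0o245031) [.mk 922 0o76543210 0o76543210 0o452301, .mk 1152
0o76405231 0o76351204 0o52134, .mk 906 0o76432510 0o76254310 0o354120, .mk 922 0o76543210 0o76543210
0o543210]
[0xf80004500580f00504485d15400201200480d00c10104f1250b110c002841816858800a8980784994a8990738d7900e01812b590c098a90f0c3845a1004104204c041a1409888398090804228d94388194d4000834aa2b,
0x788900208f0009c30050408058419848051c21020098068d20960a380504c8009439028009420c40010009c008780718095588398100dcc01c088016d84081e1401010410870d08cd0098410141489c304194d8000835115d],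
.mk (.mk 803 0o76154230 0o76431250 0o324051) [.mk 1079 0o76154230 0o76431250 0o234051] [],
.mk (.mk 803 0o76514230 0o76531240 0o234051) [.mk 764 0o76514230 0o76531240 0o324051] [],
.mk (.mk 803 0o76543210 0o76543210 0o305124) [.mk 829 0o76435210 0o76354210 0o453210, .mk 1160
0o76532140 0o76514320 0o154320, .mk 829 0o76435210 0o76354210 0o35124] [],
.mk (.mk 829 0o76543210 0o76543210 0o452310) [.mk 959 0o76501243 0o76510234 0o310245, .mk 966
0o76532140 0o76514320 0o235401]
[0x4204600091040484088700242821a41182010831c00901004c0860880200018300252c200230220086110910fc004404c6084040590309a30d2508a01e818a10d22060004008154cc0008318125,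
0x10005b1838440838c3ac014384109b2000010151c500580c00404c88788055180d80000690780610c0c98058dbad17c51c60874cd80000704184f02584101800c80200194b400083280e9,
0x630851b0030b000400612867147080e102108c0064b0c68430362880e008196314500841123280015c0a017c211932ee0046e8d00202880f001200a68029803a8236200411020301890154d8000832a0e9,
0x1604384480f0aa80605d0068d8800918085a860099080400011c100b90201c0048888240838011ad01581b02181500c80c00600d808c4988004a08540b84f0dbd438431408400400820008c5b022438c40c194d8000836d0e9],
.mk (.mk 766 0o76543210 0o76543210 0o453210) [.mk 932 0o76523140 0o76513420 0o154320, .mk 776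
0o76502413 0o76520314 0o204135] [],
.mk (.mk 765 0o76523104 0o76503421 0o43521) [.mk 838 0o76543210 0o76543210 0o453210, .mk 787
0o76541032 0o76541032 0o231504] [],
.mk (.mk 788 0o76524310 0o76532410 0o354210) [.mk 787 0o76502314 0o76502314 0o213450, .mk 938
0o76543210 0o76543210 0o453210] [],
.mk (.mk 690 0o76534210 0o76534210 0o452310) [.mk 900 0o76543210 0o76543210 0o543210, .mk 943
0o76503142 0o76513024 0o210354] [],
.mk (.mk 803 0o76154230 0o76431250 0o314052) [.mk 803 0o76354210 0o76435210 0o453210, .mk 900
0o76143250 0o76143250 0o134052] [],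
.mk (.mk 700 0o76543210 0o76543210 0o543210) [.mk 739 0o76543210 0o76543210 0o453210, .mk 1200
0o76514203 0o76530241 0o52431] [],
.mk (.mk 1021 0o76530241 0o76514203 0o134205) [.mk 954 0o76152043 0o76410352 0o201345] [],
.mk (.mk 780 0o76543210 0o76543210 0o543210) [.mk 969 0o76435210 0o76354210 0o453210, .mk 1127
0o76341520 0o76245130 0o351042] [],
.mk (.mk 817 0o76354102 0o76435021 0o125340) [.mk 1201 0o76543210 0o76543210 0o543210, .mk 1171
0o76213054 0o76103542 0o25413]
[0x13006808044000015848106045a0e01400390484388ca4210110004480086e8461c11ca8008d400811880b4c58c110084080310e0498ce902890a0388eb4fa0080a80d00688010480284294529001400194d4000836ca8b],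
.mk (.mk 716 0o76543210 0o76543210 0o543210) [.mk 1001 0o76403251 0o76153204 0o314025, .mk 1027
0o76435210 0o76354210 0o453210] [],
.mk (.mk 989 0o76543210 0o76543210 0o543210) [.mk 1044 0o76451320 0o76452130 0o451320, .mk 1075
0o76203541 0o76213504 0o152304] [],
.mk (.mk 1055 0o76532140 0o76514320 0o145320) [.mk 1073 0o76534210 0o76534210 0o254310, .mk 1075
0o76315204 0o76305241 0o24531] [],
.mk (.mk 805 0o76534210 0o76534210 0o245310) [.mk 905 0o76543210 0o76543210 0o453210, .mk 907
0o76543210 0o76543210 0o354102] [],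
.mk (.mk 732 0o76530241 0o76514203 0o230541) [.mk 1075 0o76302451 0o76125304 0o12543, .mk 1041
0o76134250 0o76134250 0o130524] [],
.mk (.mk 748 0o76453210 0o76453210 0o453210) [.mk 933 0o76243105 0o76043521 0o24135] [],
.mk (.mk 863 0o76432510 0o76254310 0o354210) [.mk 1118 0o76012534 0o76201345 0o31245, .mk 1161
0o76534210 0o76534210 0o452301] [],
.mk (.mk 1066 0o76412503 0o76250341 0o130245) [.mk 1161 0o76231504 0o76204531 0o23514, .mk 945
0o76543210 0o76543210 0o543210, .mk 942 0o76241503 0o76240531 0o203514] [],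
.mk (.mk 1036 0o76432510 0o76254310 0o354210) [.mk 1139 0o76435210 0o76354210 0o453210, .mk 863
0o76513402 0o76523041 0o125340] [],
.mk (.mk 797 0o76354210 0o76435210 0o453210) [.mk 1139 0o76240315 0o76042513 0o21543] [],
.mk (.mk 863 0o76543102 0o76543021 0o251403) [.mk 1102 0o76541203 0o76540231 0o51234, .mk 1150
0o76542103 0o76540321 0o152043] [],
.mk (.mk 805 0o76543210 0o76543210 0o543210) [.mk 1003 0o76210543 0o76210543 0o105243, .mk 1078
0o76231054 0o76104532 0o205431] [],
.mk (.mk 617 0o76543210 0o76543210 0o453210) [.mk 1078 0o76321054 0o76105432 0o14532, .mk 1140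
0o76231054 0o76104532 0o104352] [],
.mk (.mk 805 0o76543210 0o76543210 0o254310) [.mk 617 0o76543210 0o76543210 0o354102, .mk 875
0o76543120 0o76543120 0o154320] [],
.mk (.mk 553 0o76543210 0o76543210 0o254310) [.mk 927 0o76534210 0o76534210 0o354102, .mk 910
0o76524130 0o76531420 0o145230] [],
.mk (.mk 789 0o76231540 0o76214530 0o201435) [.mk 789 0o76132540 0o76214350 0o310524, .mk 1190
0o76231450 0o76124530 0o21435] [],
.mk (.mk 880 0o76431502 0o76254031 0o205341) [.mk 945 0o76543210 0o76543210 0o543210, .mk 973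
0o76320451 0o76125403 0o125034] [],
.mk (.mk 880 0o76453012 0o76453012 0o142305) [.mk 1103 0o76541032 0o76541032 0o42513, .mk 970
0o76534201 0o76534201 0o251430] []]

theorem v4500 : chkL Tab.T5 Tab.RT Tab.reps Tab.E2 Ker.cert7 D4500 4500 = true := by
  decide +kernel

end CR.C2
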