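import Pool.Agent.Lib.MP_6f5d36_co.Ker
import Pool.Agent.Lib.MP_6f5d36_co.RTab
import Pool.Agent.Lib.MP_6f5d36_co.C2.KerC
import Pool.Agent.Lib.MP_6f5d36_co.C2.ETab

/-! MP_6f5d36_co, case (ii), level 7 : the ranks 4600, ..., 4699 -/

set_option autoImplicit false
set_option maxRecDepth 100000

noncomputable section

namespace CR.C2

/-- the frames and certificates of the ranks 4600, ..., 4699 -/
def D4600 : List It :=
[.mk (.mk 799 0o76543210 0o76543210 0o543210) [.mk 1157 0o76354210 0o76435210 0o452301, .mk 1187
0o76315024 0o76305142 0o105342, .mk 1203 0o76042531 0o76241305 0o240315] [],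
.mk (.mk 753 0o76243510 0o76243510 0o453201) [.mk 753 0o76543210 0o76543210 0o543210, .mk 797
0o76342150 0o76145320 0o354120] [],
.mk (.mk 856 0o76543210 0o76543210 0o543210) [.mk 1121 0o76320514 0o76205413 0o302541, .mk 1102
0o76230415 0o76024513 0o32451] [],
.mk (.mk 612 0o76543210 0o76543210 0o453210) [.mk 1086 0o76432051 0o76154302 0o140532, .mk 1137
0o76435201 0o76354201 0o42531] [],
.mk (.mk 612 0o76543210 0o76543210 0o354102) [.mk 856 0o76543201 0o76543201 0o231540, .mk 895
0o76532401 0o76524301 0o132540] [],
.mk (.mk 1033 0o76543210 0o76543210 0o354120) [.mk 1022 0o76104325 0o76032154 0o210453, .mk 1053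
0o76204315 0o76032514 0o124035] [],
.mk (.mk 754 0o76543210 0o76543210 0o543210) [.mk 1048 0o76502143 0o76510324 0o51324, .mk 790
0o76543120 0o76543120 0o453120] [],
.mk (.mk 866 0o76543210 0o76543210 0o543210) [.mk 970 0o76540213 0o76540213 0o142035, .mk 827
0o76543210 0o76543210 0o453210, .mk 933 0o76521034 0o76501432 0o21354] [],
.mk (.mk 763 0o76543210 0o76543210 0o543210) [.mk 933 0o76512304 0o76502341 0o12354, .mk 969
0o76503214 0o76503214 0o124035] [],
.mk (.mk 752 0o76521034 0o76501432 0o102534) [.mk 933 0o76521034 0o76501432 0o21354, .mk 836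
0o76543120 0o76543120 0o453120] [],
.mk (.mk 600 0o76543210 0o76543210 0o543210) [.mk 915 0o76324510 0o76235410 0o453201, .mk 827
0o76250413 0o76420513 0o12543] [],
.mk (.mk 753 0o76342510 0o76245310 0o453210) [.mk 852 0o76402513 0o76250314 0o12534, .mk 871
0o76543210 0o76543210 0o543210] [],
.mk (.mk 754 0o76345120 0o76345120 0o453120) [.mk 1060 0o76452130 0o76451320 0o53142, .mk 790
0o76345210 0o76345210 0o354102] [],
.mk (.mk 732 0o76504123 0o76530124 0o105234) [.mk 754 0o76543210 0o76543210 0o543210] [],
.mk (.mk 607 0o76534210 0o76534210 0o453210) [.mk 852 0o76435021 0o76354102 0o150423, .mk 1063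
0o76513420 0o76523140 0o345210, .mk 1140 0o76543210 0o76543210 0o254130] [],
.mk (.mk 783 0o76543210 0o76543210 0o543210) [.mk 1132 0o76402531 0o76251304 0o34215] [],
.mk (.mk 783 0o76534210 0o76534210 0o453201) [.mk 1156 0o76532401 0o76524301 0o254103, .mk 1101
0o76523410 0o76523410 0o354120] [],
.mk (.mk 865 0o76543210 0o76543210 0o453210) [.mk 969 0o76350421 0o76425103 0o243105, .mk 1132
0o76543120 0o76543120 0o53412] [],
.mk (.mk 735 0o76310542 0o76215043 0o231540) [.mk 1062 0o76453210 0o76453210 0o453210, .mk 940
0o76543210 0o76543210 0o543210] [],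
.mk (.mk 607 0o76534120 0o76534120 0o453120) [.mk 1110 0o76543210 0o76543210 0o254130, .mk 1063
0o76513420 0o76523140 0o345210] [],
.mk (.mk 1039 0o76452130 0o76451320 0o53142) [.mk 836 0o76345210 0o76345210 0o354102, .mk 898
0o76345120 0o76345120 0o453120] [],
.mk (.mk 865 0o76534120 0o76534120 0o453120) [.mk 1187 0o76542310 0o76542310 0o254130, .mk 1098
0o76305241 0o76315204 0o143205] [],
.mk (.mk 568 0o76543210 0o76543210 0o452310) [.mk 1036 0o76543201 0o76543201 0o140532, .mk 915
0o76543210 0o76543210 0o543210] [],
.mk (.mk 610 0o76543210 0o76543210 0o543210) [.mk 871 0o76425310 0o76352410 0o453210, .mk 836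
0o76154203 0o76430251 0o13452] [],
.mk (.mk 735 0o76201543 0o76210534 0o231045) [.mk 1108 0o76201543 0o76210534 0o132045, .mk 1062
0o76435210 0o76354210 0o453210] [],
.mk (.mk 1049 0o76534210 0o76534210 0o453210) [.mk 898 0o76521340 0o76512430 0o345021, .mk 1129
0o76542310 0o76542310 0o254310] [],
.mk (.mk 853 0o76520143 0o76510423 0o32145) [.mk 1164 0o76513042 0o76513042 0o104532, .mk 816
0o76543210 0o76543210 0o543210] [],
.mk (.mk 600 0o76543210 0o76543210 0o543210) [.mk 1122 0o76403152 0o76153024 0o23415, .mk 853
0o76513240 0o76513240 0o245031] [],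
.mk (.mk 796 0o76543210 0o76543210 0o543210) [.mk 1179 0o76401352 0o76152034 0o31524, .mk 1156
0o76342501 0o76245301 0o251430, .mk 1177 0o76543210 0o76543210 0o453201] [],
.mk (.mk 871 0o76543210 0o76543210 0o543210) [.mk 1083 0o76543102 0o76543021 0o130524, .mk 853
0o76543210 0o76543210 0o354102] [],
.mk (.mk 595 0o76543210 0o76543210 0o543210) [.mk 1086 0o76354201 0o76435201 0o250431, .mk 1189
0o76350412 0o76425013 0o103542] [],
.mk (.mk 569 0o76543210 0o76543210 0o543210) [.mk 965 0o76543210 0o76543210 0o154320, .mk 595
0o76534210 0o76534210 0o453210, .mk 905 0o76534210 0o76534210 0o354201] [],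
.mk (.mk 570 0o76543210 0o76543210 0o543210) [.mk 778 0o76534201 0o76534201 0o42531, .mk 716
0o76542301 0o76542301 0o240531] [],
.mk (.mk 783 0o76502143 0o76510324 0o13425) [.mk 836 0o76543210 0o76543210 0o543210, .mk 1153
0o76540231 0o76541203 0o251304] [],
.mk (.mk 797 0o76534021 0o76534102 0o150423) [.mk 866 0o76521430 0o76521430 0o345201, .mk 970
0o76542310 0o76542310 0o254310] [],
.mk (.mk 797 0o76354210 0o76435210 0o453210) [.mk 1047 0o76210435 0o76021543 0o201345, .mk 783
0o76543210 0o76543210 0o543210] [],
.mk (.mk 1109 0o76425301 0o76352401 0o152340) [.mk 910 0o76342501 0o76245301 0o254103, .mk 796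
0o76543210 0o76543210 0o543210]
[0x160100f04c13024a01543602c4a0215710680221411780234451105451620b4180816004b4e0230d0c6389855c90410c431e42615c22108751dc65548e24840028002008150d8000832d463],
.mk (.mk 783 0o76543210 0o76543210 0o453210) [.mk 1100 0o76145302 0o76342051 0o152430, .mk 1179
0o76430521 0o76254103 0o32451] [],
.mk (.mk 783 0o76543210 0o76543210 0o543210) [.mk 1197 0o76410325 0o76052143 0o203154, .mk 1114
0o76513024 0o76503142 0o104532] [],
.mk (.mk 797 0o76354021 0o76435102 0o150423) [.mk 1154 0o76312540 0o76215340 0o345201, .mk 1204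
0o76542310 0o76542310 0o254310] [],
.mk (.mk 797 0o76354210 0o76435210 0o453210) [.mk 1110 0o76301425 0o76025134 0o201534, .mk 783
0o76543210 0o76543210 0o543210] [],
.mk (.mk 753 0o76543210 0o76543210 0o543210) [.mk 1135 0o76523410 0o76523410 0o453210] [],
.mk (.mk 688 0o76543210 0o76543210 0o543210) [.mk 1057 0o76432510 0o76254310 0o54321, .mk 1135
0o76432510 0o76254310 0o453210] [],
.mk (.mk 1072 0o76243015 0o76043512 0o125034) [.mk 936 0o76543210 0o76543210 0o543210, .mk 1204
0o76352014 0o76405312 0o215304] [],
.mk (.mk 1098 0o76432510 0o76254310 0o254130) [.mk 1203 0o76425301 0o76352401 0o152304, .mk 931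
0o76543210 0o76543210 0o543210]
[0x4000004e10201f068434190614148134020000a00840128cc000461510213c43069868070264480e094b04dc9041821204a4698212042b10009118a3688b9200022c091140150dc0008312a63],
.mk (.mk 1179 0o76452301 0o76452301 0o251340) [.mk 1179 0o76432510 0o76254310 0o354210, .mk 1198
0o76031245 0o76014235 0o14325] [],
.mk (.mk 554 0o76543210 0o76543210 0o201534) [.mk 554 0o76543210 0o76543210 0o543210] [],
.mk (.mk 595 0o76523410 0o76523410 0o453210) [.mk 847 0o76530412 0o76524013 0o13452, .mk 929
0o76543210 0o76543210 0o543210] [],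
.mk (.mk 929 0o76352401 0o76425301 0o250314) [.mk 923 0o76345210 0o76345210 0o154230, .mk 816
0o76543210 0o76543210 0o354210] [],
.mk (.mk 998 0o76231054 0o76104532 0o32145) [.mk 998 0o76321054 0o76105432 0o132054] [],
.mk (.mk 569 0o76543210 0o76543210 0o543210) [.mk 884 0o76532401 0o76524301 0o42513, .mk 796
0o76543201 0o76543201 0o240531] [],
.mk (.mk 570 0o76524310 0o76532410 0o453120) [.mk 944 0o76524301 0o76532401 0o132450, .mk 569
0o76543210 0o76543210 0o543210] [],
.mk (.mk 726 0o76521430 0o76521430 0o210543) [.mk 790 0o76421350 0o76152430 0o354201, .mk 726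
0o76543210 0o76543210 0o543210] [],
.mk (.mk 608 0o76543210 0o76543210 0o543210) [.mk 829 0o76543210 0o76543210 0o453210, .mk 882
0o76524103 0o76530421 0o43512, .mk 953 0o76542130 0o76541320 0o235041]
[0xc46400c41c8800c80a0816409c5c428990404cab02cc6c4e0cc400c000c000580b94008008905c8c0205d0c40010a04f433544cc1c0004343ccdda0148555804304b950c0cc4704ec5ca99446ca1f51803845d81c81d0e400083a5621],
.mk (.mk 829 0o76435210 0o76354210 0o453210) [.mk 1187 0o76523410 0o76523410 0o135402, .mk 843
0o76532410 0o76524310 0o351402]
[0x304114314006836a0800031801c134204d04400c0050451d2000207087b6a0811410800d700608b05616821203408408808921200c00f04104c02900102603403300300158b400082e8942,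
0x10080141000e1308040348008e504060cc2361200e0221168b0268c318011820803018454a51c10024100da5102238411a521004001b0dd0ba6442185c104210018a1000121453011e00340004154e0000832a942,
0x78831600c41d2aa218080039d500e440c100052603105d1905810c1b02b0b40740601820001ca400f300c5c0200907001008b0731420103309c6ce030b31510244806b016006021038440e8250190e0000836b942],
.mk (.mk 897 0o76245310 0o76342510 0o345210) [.mk 1196 0o76543210 0o76543210 0o543210, .mk 1175
0o76301245 0o76015234 0o102435, .mk 1202 0o76401352 0o76152034 0o21345]
[0x84809012d2089409c00061401889b0d68c4490e42c40440827344474da314007658d58896866410480010020c0d005017c500101b61b11d028013b6c0d0c82a208a0446008418040c190d4000835ca43,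
0x12c080849a0714169021000b454470194b20c44126460425983642018931544103459134c600503234820100191dc4010424ac010244322c8027a41101462140150cc000831ca63,
0x1b8802405804060d10bc02014e600a84a604d049020f844423c8d6417f0cb0239a80e116181e1030d121091c3021a080e1858186012800222011b2503001e214c044a220c380158c4a30704141180002314184880b811c008084e446940e50200214dc00083e0829],
.mk (.mk 923 0o76423501 0o76253401 0o340512) [.mk 956 0o76534210 0o76534210 0o453210, .mk 1165
0o76534102 0o76534021 0o152430] [],
.mk (.mk 923 0o76432501 0o76254301 0o251430) [.mk 921 0o76543210 0o76543210 0o452301, .mk 923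
0o76432501 0o76254301 0o340521, .mk 921 0o76543210 0o76543210 0o543210] [],
.mk (.mk 777 0o76542310 0o76542310 0o453120) [.mk 636 0o76542310 0o76542310 0o125403, .mk 963
0o76532410 0o76524310 0o354210, .mk 906 0o76540231 0o76541203 0o15342] [],
.mk (.mk 630 0o76543210 0o76543210 0o452301) [.mk 629 0o76532401 0o76524301 0o340521, .mk 629
0o76532401 0o76524301 0o251430, .mk 630 0o76543210 0o76543210 0o543210] [],
.mk (.mk 628 0o76543210 0o76543210 0o543210) [.mk 629 0o76532401 0o76524301 0o340512, .mk 946
0o76531024 0o76504132 0o105423] [],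
.mk (.mk 693 0o76523140 0o76513420 0o21534) [.mk 618 0o76543210 0o76543210 0o543210, .mk 632
0o76534021 0o76534102 0o250431] [],
.mk (.mk 594 0o76534210 0o76534210 0o453210) [.mk 809 0o76540312 0o76542013 0o350124] [],
.mk (.mk 794 0o76532014 0o76504312 0o35214) [.mk 594 0o76543021 0o76543102 0o250431, .mk 793
0o76543120 0o76543120 0o452310, .mk 948 0o76543210 0o76543210 0o125403] [],
.mk (.mk 618 0o76541230 0o76541230 0o451230) [.mk 909 0o76524031 0o76531402 0o25431, .mk 948
0o76543210 0o76543210 0o354210] [],
.mk (.mk 794 0o76532401 0o76524301 0o34251) [.mk 594 0o76543201 0o76543201 0o253104, .mk 918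
0o76542310 0o76542310 0o125043, .mk 972 0o76543210 0o76543210 0o543210] [],
.mk (.mk 562 0o76543210 0o76543210 0o543210) [.mk 811 0o76523140 0o76513420 0o325041, .mk 924
0o76502341 0o76512304 0o103245]
[0x60020018809808200b00101981a60c80f382c006208607d84505c30a0003028010604107801c00a121002081f412214a02a0958de20010008d08080a4b01026481400e1050060a44235091908c43609010308200b6e0041490244210e000083dbaa4,
0x905a13022008641b80c0214e3190011986220869009893103560de0111801808470c0408004a85480062430c0c280c2b8ae0080e822c0409b60d0a63700114c400082a9a53,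
0x100a01c4e0440d210c202444c00982260062c9003808200544449000e4121844010020158b02c481010c700424048728881334d700509311187018bd070253ccf3184150d4000832baa4],
.mk (.mk 807 0o76402315 0o76052314 0o12534) [.mk 807 0o76452310 0o76452310 0o453120, .mk 924
0o76503214 0o76503214 0o102354] [],
.mk (.mk 807 0o76543210 0o76543210 0o21435) [.mk 889 0o76453102 0o76453021 0o251403, .mk 807
0o76543210 0o76543210 0o543210]
[0x2d02880100500804e8ca80584b8c984209981f0828809461c3881a90a03055941892041012b0c09a81008c84684bd499210450c518980004a04080b04108100234288c9008c180004005c00c801140a8b04684194dc0008344ac4,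
0x2f21b2834002a19705880801802800a089110280160501a000284c20e916c84e037029a970068412a798a1ca2601c00c8b4800000ac0059a4c6cca613ea8c80ee0b100e90a0c2a269442911808802900459f968a61693928f88210dc00083e3128],
.mk (.mk 777 0o76452310 0o76452310 0o453120) [.mk 956 0o76425310 0o76352410 0o215403, .mk 1165
0o76215304 0o76302541 0o35241, .mk 963 0o76325410 0o76325410 0o354210] [],
.mk (.mk 906 0o76425310 0o76352410 0o345210) [.mk 1190 0o76352041 0o76415302 0o24513, .mk 954
0o76543210 0o76543210 0o543210]
[0x1407804118060805a1201812000c0e500b8000c8143290e303421300c2210111080338801595822844c3804a3c021486023d8114a0000829a26b,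
0x714285300221170695b0c081f88d05381f85680001603994f00500884010d84b89305110d1d190314080394a8169c8ac314108108898591201e01804b95912481980b04f80181981808518396680302001380d80194e0000835a86b],
.mk (.mk 831 0o76543120 0o76543120 0o452310) [.mk 953 0o76543021 0o76543102 0o250431, .mk 954
0o76524310 0o76532410 0o354120, .mk 897 0o76542031 0o76541302 0o25341]
[0x10100383206000e1203182704e1403782500d0000082008028032845000084210491845047282000c4141300600a000228660cc2802698611c424900440080185082a0c118c4000829d703,
0x90900d021104500442040005100230081e388130044304053280a6040a004c153c922044175cdc03c8120d011100012a4201d9f04144a10089ac84108c7314dd0508010a0f42c4150e40008329b03],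
.mk (.mk 631 0o76543021 0o76543102 0o204153) [.mk 961 0o76531240 0o76514230 0o145230, .mk 932
0o76543021 0o76543102 0o24153, .mk 968 0o76523410 0o76523410 0o354210]
[0xa9850200500e8601da0680906020009c08b110aec4caaba04ed008188380cc30830844080154b0200022548981620ca08c08afd0f0080b81023c24c423832380104190c0000830074d],
.mk (.mk 897 0o76501243 0o76510234 0o14325) [.mk 968 0o76523410 0o76523410 0o354210, .mk 964
0o76541320 0o76542130 0o451320]
[0x2f8c1b001d803500487c00688274008905004c07f220840300f4414d0eec545008c022029ba7017ca1c02402ba32b80242055c1230460361011e9200b004400704ff042c0030055c7e0208402000001b117f422219c023b024c1630b70250d4000840074b,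
0x105107352984e8043980410605b1c1549400b082457918d060e76b1ca42062aa842025018042a281904062b2750886040408804442216848230f98c4110d400082d98a5],
.mk (.mk 831 0o76541320 0o76542130 0o451320) [.mk 952 0o76325410 0o76325410 0o215403, .mk 1175
0o76105324 0o76302154 0o32541, .mk 1193 0o76324510 0o76235410 0o125403]
[0x86053845218cc22c41038009180944c2410801174c1c044401c8000946518440300000c561dcdc41c441114079500100c609dc0510d30208831a8b60801001003141710581348830318150ec000831a622],
.mk (.mk 831 0o76510342 0o76512043 0o14532) [.mk 636 0o76542310 0o76542310 0o354210, .mk 937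
0o76543201 0o76543201 0o253104, .mk 972 0o76541320 0o76542130 0o451320]
[0x204a02618348d0510880482103a05496800838d7213008e9614148081220809026047938804002700a240403788c420033085c2014600d08be4d8050110d400082e16a5],
.mk (.mk 631 0o76543210 0o76543210 0o452301) [.mk 937 0o76542310 0o76542310 0o245031, .mk 882
0o76524013 0o76530412 0o14532, .mk 631 0o76543210 0o76543210 0o543210]
[0xa86504000080382404500e03581901480410a8060548451038848400158438d200a0c30d185600904c862984842140800881802985ad885a05980908200404184808e30004ea078c09418031c40052c010098184288054008194ec000834c55d,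
0xae103400c00770828124c0ec0037080240004ae084208021000600046b00023b6c2379c07080421fca3418170800105461d0009006e2029400002d000204e4c110850082e3107000042e219a317cc35808c18001278012806150744334c0208071000135c62a082108bc204841200254ec0008414360,
0x60b484180141011c40818004045182849801442f28f84a021a001001800403851900a041c61a50c101040047e118580941c42211c08a802801611029a004583801d288881e80cf0658c90042045070008404414601100001d4d800083a1aab,
0x818400440002c098ce436095c47c80401c4d4c0040000500404014c260c5c4d009280c02446804c89c0acd0808d4780340334044004000fc0304442554048530c640d402c3c80444809cc181d0842006c00c188f0828044578032c1d0f400083a2a44],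
.mk (.mk 937 0o76453201 0o76453201 0o253104) [.mk 972 0o76543210 0o76543210 0o543210, .mk 1200
0o76541320 0o76542130 0o451320, .mk 1175 0o76514302 0o76532041 0o35421]
[0x231a4140f105900414470826162284408a102e259031800a82821a029242204088350ea040051203c8014688602740a4250180a43808881616414c090522c020819020200244190cc00083598a5],
.mk (.mk 794 0o76543210 0o76543210 0o453210) [.mk 896 0o76315420 0o76325140 0o234501, .mk 1193
0o76324510 0o76235410 0o125403, .mk 1134 0o76025143 0o76310425 0o31254]
[0x10401178021146201c00e4140404600a000069c01007180188002010c610c81800506a06100e240061420886182711b5080bce21c8092330820410824406000101060c6205b022b040f28154d8000831a622],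
.mk (.mk 794 0o76542310 0o76542310 0o453120) [.mk 953 0o76543021 0o76543102 0o250431, .mk 825
0o76542031 0o76541302 0o25341, .mk 896 0o76514320 0o76532140 0o134502]
[0xcdd408c300c54068c02100841d0211e48136000060a10085109c941802b44cc024c45040719006169c7128076ec165189011960648e9140161089532d21013650014150d40008329b03],
.mk (.mk 882 0o76254031 0o76431502 0o205341) [.mk 961 0o76534210 0o76534210 0o354210, .mk 1193
0o76231540 0o76214530 0o145230] [],
.mk (.mk 882 0o76543210 0o76543210 0o452301) [.mk 937 0o76432510 0o76254310 0o245031, .mk 1159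
0o76312504 0o76205341 0o34521, .mk 882 0o76543210 0o76543210 0o543210] [],
.mk (.mk 780 0o76521430 0o76521430 0o315042) [.mk 780 0o76543210 0o76543210 0o543210, .mk 969
0o76521340 0o76512430 0o135042]
[0x2620204142088046215b47e01080227080c401110490200945802d142615404568083c74001881a20100e6174082e124008600d0c7e1560814050205029e843017a80baf0f8c0050b847423a0c5d101153a01d844a01d8828210000402b801013400214e000083d4a9b,
0xc03600e085042c006004000084000201b48f08b46023380811464c1a20901482941641aa03880146021141a48c3441c32f0281038224301001080120020400898a8625125203840ca04107083146400c212009ac54006b113039c1d4e400083a9854,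
0x50451200b0144c1340a0085d901484208000081c0806210290538c50167100424184a100490410c230413254b42f43501c8c07c122102300ce00c4f020001080150cc0008329a54,
0x205510e0340498470473061042002401028ac40e44c2830638c158620a40462b00a1010466140e08b09c03c0c814092404204011064268d19513c2380a00b08a0002100154c400082eca9b],
.mk (.mk 777 0o76452130 0o76451320 0o452130) [.mk 973 0o76305124 0o76305124 0o301524, .mk 961
0o76534210 0o76534210 0o125403] [],
.mk (.mk 799 0o76524031 0o76531402 0o23514) [.mk 964 0o76541320 0o76542130 0o451320, .mk 961
0o76534210 0o76534210 0o354210, .mk 882 0o76524031 0o76531402 0o205341] [],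
.mk (.mk 753 0o76524310 0o76532410 0o452301) [.mk 600 0o76543210 0o76543210 0o543210, .mk 816
0o76513240 0o76513240 0o245031] [],
.mk (.mk 862 0o76532410 0o76524310 0o354210) [.mk 918 0o76451230 0o76451230 0o234051, .mk 1193
0o76231540 0o76214530 0o145230]
[0x80c302601740c2008b88b200c144130230ea01e6a175066100d9822382140521012620882c0440c01c8201e80665903b8120047507416008e271000a4002480e82e136224110260000280190d80008359865,
0x24064330590a60b0339130c87106c12a2023146f8043062480998608223cb0400086168461004482dc21842000064810ea11a005082882c2108a084f88011c8600a21007c2108154cc00083198a5],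
.mk (.mk 793 0o76543210 0o76543210 0o543210) [.mk 862 0o76534120 0o76534120 0o314502, .mk 825
0o76502314 0o76502314 0o21354, .mk 959 0o76504213 0o76530214 0o120354]
[0x1016088388800581b0840041552c08470c780838a14fb40042812a4221d08190f044800000242c818812d200804400005f8c48561002c08060051440048468008000120408c180308194c00008328205,
0x700420c0b83400228c0b5ddf766444831e12441c02114016030cc90f38700ca108519e8241301212c2bd9718202602c192006666648360720828c858801246020299844880404581a280280190dc000836d343],
.mk (.mk 610 0o76523410 0o76523410 0o452301) [.mk 610 0o76543210 0o76543210 0o543210, .mk 970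
0o76503421 0o76523104 0o34125] [],
.mk (.mk 947 0o76345102 0o76345021 0o241503) [.mk 946 0o76453210 0o76453210 0o453210, .mk 970
0o76503214 0o76503214 0o102354] [],
.mk (.mk 709 0o76512430 0o76521340 0o345210) [.mk 736 0o76435210 0o76354210 0o453210] [],
.mk (.mk 736 0o76435210 0o76354210 0o354102) [.mk 736 0o76435210 0o76354210 0o453210, .mk 1176
0o76543120 0o76543120 0o53412] [],
.mk (.mk 946 0o76543210 0o76543210 0o12345) [.mk 946 0o76435102 0o76354021 0o251403, .mk 946
0o76354021 0o76435102 0o135024] [],
.mk (.mk 735 0o76351420 0o76425130 0o342501) [.mk 1174 0o76532104 0o76504321 0o53421, .mk 880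
0o76543210 0o76543210 0o543210] [],
.mk (.mk 607 0o76534210 0o76534210 0o453210) [.mk 1063 0o76514320 0o76532140 0o345210, .mk 880
0o76425310 0o76352410 0o254130] [],
.mk (.mk 607 0o76534210 0o76534210 0o354102) [.mk 875 0o76521403 0o76520431 0o120345, .mk 938
0o76542130 0o76541320 0o53142] [],
.mk (.mk 979 0o76145023 0o76340152 0o41253) [.mk 667 0o76124530 0o76231450 0o345102, .mk 735
0o76435210 0o76354210 0o152403] [],
.mk (.mk 933 0o76503214 0o76503214 0o210543) [.mk 1154 0o76542130 0o76541320 0o354210, .mk 1202
0o76403215 0o76053214 0o21453] [],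
.mk (.mk 732 0o76504123 0o76530124 0o105324) [.mk 754 0o76543210 0o76543210 0o543210, .mk 808
0o76504123 0o76530124 0o15324] [],
.mk (.mk 790 0o76154320 0o76432150 0o345201) [.mk 957 0o76305421 0o76325104 0o210543, .mk 905
0o76543210 0o76543210 0o543210] []]

theorem v4600 : chkL Tab.T5 Tab.RT Tab.reps Tab.E2 Ker.cert7 D4600 4600 = true := by
  decide +kernel

end CR.C2
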