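import Pool.Agent.Lib.MP_6f5d36_co.C2.Ext
import Pool.Agent.Lib.MP_6f5d36_co.Cert
import Pool.Agent.Lib.MP_6f5d36_co.C2.V00
import Pool.Agent.Lib.MP_6f5d36_co.C2.V01
import Pool.Agent.Lib.MP_6f5d36_co.C2.V02
import Pool.Agent.Lib.MP_6f5d36_co.C2.V03
import Pool.Agent.Lib.MP_6f5d36_co.C2.V04
import Pool.Agent.Lib.MP_6f5d36_co.C2.V05
import Pool.Agent.Lib.MP_6f5d36_co.C2.V06
import Pool.Agent.Lib.MP_6f5d36_co.C2.V07
import Pool.Agent.Lib.MP_6f5d36_co.C2.V08
import Pool.Agent.Lib.MP_6f5d36_co.C2.V09
import Pool.Agent.Lib.MP_6f5d36_co.C2.V10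
import Pool.Agent.Lib.MP_6f5d36_co.C2.V11
import Pool.Agent.Lib.MP_6f5d36_co.C2.V12
import Pool.Agent.Lib.MP_6f5d36_co.C2.V13
import Pool.Agent.Lib.MP_6f5d36_co.C2.V14
import Pool.Agent.Lib.MP_6f5d36_co.C2.V15
import Pool.Agent.Lib.MP_6f5d36_co.C2.V16
import Pool.Agent.Lib.MP_6f5d36_co.C2.V17
import Pool.Agent.Lib.MP_6f5d36_co.C2.V18
import Pool.Agent.Lib.MP_6f5d36_co.C2.V19
import Pool.Agent.Lib.MP_6f5d36_co.C2.V20
import Pool.Agent.Lib.MP_6f5d36_co.C2.V21
import Pool.Agent.Lib.MP_6f5d36_co.C2.V22
import Pool.Agent.Lib.MP_6f5d36_co.C2.V23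
import Pool.Agent.Lib.MP_6f5d36_co.C2.V24
import Pool.Agent.Lib.MP_6f5d36_co.C2.V25
import Pool.Agent.Lib.MP_6f5d36_co.C2.V26
import Pool.Agent.Lib.MP_6f5d36_co.C2.V27
import Pool.Agent.Lib.MP_6f5d36_co.C2.V28
import Pool.Agent.Lib.MP_6f5d36_co.C2.V29
import Pool.Agent.Lib.MP_6f5d36_co.C2.V30
import Pool.Agent.Lib.MP_6f5d36_co.C2.V31
import Pool.Agent.Lib.MP_6f5d36_co.C2.V32
import Pool.Agent.Lib.MP_6f5d36_co.C2.V33
import Pool.Agent.Lib.MP_6f5d36_co.C2.V34
import Pool.Agent.Lib.MP_6f5d36_co.C2.V35
import Pool.Agent.Lib.MP_6f5d36_co.C2.V36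
import Pool.Agent.Lib.MP_6f5d36_co.C2.V37
import Pool.Agent.Lib.MP_6f5d36_co.C2.V38
import Pool.Agent.Lib.MP_6f5d36_co.C2.V39
import Pool.Agent.Lib.MP_6f5d36_co.C2.V40
import Pool.Agent.Lib.MP_6f5d36_co.C2.V41
import Pool.Agent.Lib.MP_6f5d36_co.C2.V42
import Pool.Agent.Lib.MP_6f5d36_co.C2.V43
import Pool.Agent.Lib.MP_6f5d36_co.C2.V44
import Pool.Agent.Lib.MP_6f5d36_co.C2.V45
import Pool.Agent.Lib.MP_6f5d36_co.C2.V46
import Pool.Agent.Lib.MP_6f5d36_co.C2.V47

/-!
# MP_6f5d36_co, case (ii) : level 7

`CR.C2.v7c` : for every rank `k` the seventh points without bad edges have their star vectors in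
the list `Tab.E2 k`.
-/

set_option autoImplicit false

namespace CR.C2

theorem chkL_spec {T5 : ℕ → ℕ} {RT : ℕ → List ℕ} (hTab : ∀ F, Tabs F T5 RT) {reps : ℕ → ℕ}
    {E : ℕ → List ℕ} {ok : ℕ → ℕ → Bool} (hok : ∀ P C, ok P C = true → ¬ Realk 7 8 P)
    (hR : ∀ k, reps k < 8 ^ 15) : ∀ (L : List It) (k : ℕ), chkL T5 RT reps E ok L k = true →
    ∀ i, i < L.length → V7c (reps (k + i)) (E (k + i))
  | [], _, _, i, hi => absurd hi (Nat.not_lt_zero i)
  | .mk m fs K :: L, k, h, i, hi => by
    have h' : cond (chk7 T5 RT (reps k) m fs (E k) K) (cond (okK7 ok (reps k) K)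
      (chkL T5 RT reps E ok L (Nat.succ k)) false) false = true := h
    obtain ⟨h1, h'⟩ := CR.L7.cond_and h'
    obtain ⟨h2, h3⟩ := CR.L7.cond_and h'
    rcases Nat.eq_zero_or_pos i with rfl | hi0
    · exact v7c_of_chk hTab hok (hR k) h1 h2
    · obtain ⟨n, rfl⟩ := Nat.exists_eq_succ_of_ne_zero (Nat.pos_iff_ne_zero.1 hi0)
      have h4 := chkL_spec hTab hok hR L (Nat.succ k) h3 n (by
        rw [List.length_cons] at hi
        omega)
      rw [show k + Nat.succ n = Nat.succ k + n by omega]
      exact h4

theorem cert7_ok (P C : ℕ) (h : Ker.cert7 P C = true) : ¬ Realk 7 8 P := fun h1 =>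
  cert7_sound h (h1.mono (by norm_num))

theorem reps_lt (k : ℕ) : Tab.reps k < 8 ^ 15 := by
  have h1 : Tab.reps k = (Tab.RN >>> (45 * k)) &&& (2 ^ 45 - 1) := rfl
  rw [h1, Nat.and_two_pow_sub_one_eq_mod, show (8 : ℕ) ^ 15 = 2 ^ 45 by norm_num]
  exact Nat.mod_lt _ (by positivity)

theorem T5_lt (j : ℕ) : Tab.T5 j < 8 ^ 10 := by
  have h1 : Tab.T5 j = (Tab.TT >>> (30 * j)) &&& (2 ^ 30 - 1) := rfl
  rw [h1, Nat.and_two_pow_sub_one_eq_mod, show (8 : ℕ) ^ 10 = 2 ^ 30 by norm_num]
  exact Nat.mod_lt _ (by positivity)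

theorem tabs_tab {F : Conf 9} {T4 E5 : ℕ → ℕ} (hF : CR.L7.TabF F Tab.T5 Tab.E6 T4 E5)
    (h : ∀ j, 526 ≤ j → j ≤ 1204 →
      CR.L7.rtOK Tab.nr Tab.T5 Tab.E6 Tab.reps j (Tab.RT j) = true) : Tabs F Tab.T5 Tab.RT :=
  tabs_of hF T5_lt h

/-- one module -/
theorem v7_of (hTab : ∀ F, Tabs F Tab.T5 Tab.RT) {L : List It} {k0 : ℕ}
    (h : chkL Tab.T5 Tab.RT Tab.reps Tab.E2 Ker.cert7 L k0 = true) (k : ℕ) (h1 : k0 ≤ k)
    (h2 : k < k0 + L.length) : V7c (Tab.reps k) (Tab.E2 k) := by
  have h3 := chkL_spec hTab cert7_ok reps_lt L k0 h (k - k0) (by omega)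
  rw [show k0 + (k - k0) = k by omega] at h3
  exact h3

/-- **level 7 in case (ii)** -/
theorem v7c (hTab : ∀ F, Tabs F Tab.T5 Tab.RT) (k : ℕ) (hk : k < Tab.nr) :
    V7c (Tab.reps k) (Tab.E2 k) := by
  have hk : k < 4792 := hk
  rcases Nat.lt_or_ge k 2400 with h | h
  · rcases Nat.lt_or_ge k 1200 with h | h
    · rcases Nat.lt_or_ge k 600 with h | h
      · rcases Nat.lt_or_ge k 300 with h | h
        · rcases Nat.lt_or_ge k 100 with h | h
          · exact v7_of hTab v0 k (by omega) (lt_of_lt_of_le (b := 100) (by omega) (by decide))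
          · rcases Nat.lt_or_ge k 200 with h | h
            · exact v7_of hTab v100 k (by omega) (lt_of_lt_of_le (b := 200) (by omega) (by decide))
            · exact v7_of hTab v200 k (by omega) (lt_of_lt_of_le (b := 300) (by omega) (by decide))
        · rcases Nat.lt_or_ge k 400 with h | h
          · exact v7_of hTab v300 k (by omega) (lt_of_lt_of_le (b := 400) (by omega) (by decide))
          · rcases Nat.lt_or_ge k 500 with h | h
            · exact v7_of hTab v400 k (by omega) (lt_of_lt_of_le (b := 500) (by omega) (by decide))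
            · exact v7_of hTab v500 k (by omega) (lt_of_lt_of_le (b := 600) (by omega) (by decide))
      · rcases Nat.lt_or_ge k 900 with h | h
        · rcases Nat.lt_or_ge k 700 with h | h
          · exact v7_of hTab v600 k (by omega) (lt_of_lt_of_le (b := 700) (by omega) (by decide))
          · rcases Nat.lt_or_ge k 800 with h | h
            · exact v7_of hTab v700 k (by omega) (lt_of_lt_of_le (b := 800) (by omega) (by decide))
            · exact v7_of hTab v800 k (by omega) (lt_of_lt_of_le (b := 900) (by omega) (by decide))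
        · rcases Nat.lt_or_ge k 1000 with h | h
          · exact v7_of hTab v900 k (by omega) (lt_of_lt_of_le (b := 1000) (by omega) (by decide))
          · rcases Nat.lt_or_ge k 1100 with h | h
            · exact v7_of hTab v1000 k (by omega) (lt_of_lt_of_le (b := 1100) (by omega) (by decide))
            · exact v7_of hTab v1100 k (by omega) (lt_of_lt_of_le (b := 1200) (by omega) (by decide))
    · rcases Nat.lt_or_ge k 1800 with h | h
      · rcases Nat.lt_or_ge k 1500 with h | h
        · rcases Nat.lt_or_ge k 1300 with h | h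
          · exact v7_of hTab v1200 k (by omega) (lt_of_lt_of_le (b := 1300) (by omega) (by decide))
          · rcases Nat.lt_or_ge k 1400 with h | h
            · exact v7_of hTab v1300 k (by omega) (lt_of_lt_of_le (b := 1400) (by omega) (by decide))
            · exact v7_of hTab v1400 k (by omega) (lt_of_lt_of_le (b := 1500) (by omega) (by decide))
        · rcases Nat.lt_or_ge k 1600 with h | h
          · exact v7_of hTab v1500 k (by omega) (lt_of_lt_of_le (b := 1600) (by omega) (by decide))
          · rcases Nat.lt_or_ge k 1700 with h | h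
            · exact v7_of hTab v1600 k (by omega) (lt_of_lt_of_le (b := 1700) (by omega) (by decide))
            · exact v7_of hTab v1700 k (by omega) (lt_of_lt_of_le (b := 1800) (by omega) (by decide))
      · rcases Nat.lt_or_ge k 2100 with h | h
        · rcases Nat.lt_or_ge k 1900 with h | h
          · exact v7_of hTab v1800 k (by omega) (lt_of_lt_of_le (b := 1900) (by omega) (by decide))
          · rcases Nat.lt_or_ge k 2000 with h | h
            · exact v7_of hTab v1900 k (by omega) (lt_of_lt_of_le (b := 2000) (by omega) (by decide))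
            · exact v7_of hTab v2000 k (by omega) (lt_of_lt_of_le (b := 2100) (by omega) (by decide))
        · rcases Nat.lt_or_ge k 2200 with h | h
          · exact v7_of hTab v2100 k (by omega) (lt_of_lt_of_le (b := 2200) (by omega) (by decide))
          · rcases Nat.lt_or_ge k 2300 with h | h
            · exact v7_of hTab v2200 k (by omega) (lt_of_lt_of_le (b := 2300) (by omega) (by decide))
            · exact v7_of hTab v2300 k (by omega) (lt_of_lt_of_le (b := 2400) (by omega) (by decide))
  · rcases Nat.lt_or_ge k 3600 with h | h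
    · rcases Nat.lt_or_ge k 3000 with h | h
      · rcases Nat.lt_or_ge k 2700 with h | h
        · rcases Nat.lt_or_ge k 2500 with h | h
          · exact v7_of hTab v2400 k (by omega) (lt_of_lt_of_le (b := 2500) (by omega) (by decide))
          · rcases Nat.lt_or_ge k 2600 with h | h
            · exact v7_of hTab v2500 k (by omega) (lt_of_lt_of_le (b := 2600) (by omega) (by decide))
            · exact v7_of hTab v2600 k (by omega) (lt_of_lt_of_le (b := 2700) (by omega) (by decide))
        · rcases Nat.lt_or_ge k 2800 with h | h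
          · exact v7_of hTab v2700 k (by omega) (lt_of_lt_of_le (b := 2800) (by omega) (by decide))
          · rcases Nat.lt_or_ge k 2900 with h | h
            · exact v7_of hTab v2800 k (by omega) (lt_of_lt_of_le (b := 2900) (by omega) (by decide))
            · exact v7_of hTab v2900 k (by omega) (lt_of_lt_of_le (b := 3000) (by omega) (by decide))
      · rcases Nat.lt_or_ge k 3300 with h | h
        · rcases Nat.lt_or_ge k 3100 with h | h
          · exact v7_of hTab v3000 k (by omega) (lt_of_lt_of_le (b := 3100) (by omega) (by decide))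
          · rcases Nat.lt_or_ge k 3200 with h | h
            · exact v7_of hTab v3100 k (by omega) (lt_of_lt_of_le (b := 3200) (by omega) (by decide))
            · exact v7_of hTab v3200 k (by omega) (lt_of_lt_of_le (b := 3300) (by omega) (by decide))
        · rcases Nat.lt_or_ge k 3400 with h | h
          · exact v7_of hTab v3300 k (by omega) (lt_of_lt_of_le (b := 3400) (by omega) (by decide))
          · rcases Nat.lt_or_ge k 3500 with h | h
            · exact v7_of hTab v3400 k (by omega) (lt_of_lt_of_le (b := 3500) (by omega) (by decide))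
            · exact v7_of hTab v3500 k (by omega) (lt_of_lt_of_le (b := 3600) (by omega) (by decide))
    · rcases Nat.lt_or_ge k 4200 with h | h
      · rcases Nat.lt_or_ge k 3900 with h | h
        · rcases Nat.lt_or_ge k 3700 with h | h
          · exact v7_of hTab v3600 k (by omega) (lt_of_lt_of_le (b := 3700) (by omega) (by decide))
          · rcases Nat.lt_or_ge k 3800 with h | h
            · exact v7_of hTab v3700 k (by omega) (lt_of_lt_of_le (b := 3800) (by omega) (by decide))
            · exact v7_of hTab v3800 k (by omega) (lt_of_lt_of_le (b := 3900) (by omega) (by decide))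
        · rcases Nat.lt_or_ge k 4000 with h | h
          · exact v7_of hTab v3900 k (by omega) (lt_of_lt_of_le (b := 4000) (by omega) (by decide))
          · rcases Nat.lt_or_ge k 4100 with h | h
            · exact v7_of hTab v4000 k (by omega) (lt_of_lt_of_le (b := 4100) (by omega) (by decide))
            · exact v7_of hTab v4100 k (by omega) (lt_of_lt_of_le (b := 4200) (by omega) (by decide))
      · rcases Nat.lt_or_ge k 4500 with h | h
        · rcases Nat.lt_or_ge k 4300 with h | h
          · exact v7_of hTab v4200 k (by omega) (lt_of_lt_of_le (b := 4300) (by omega) (by decide))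
          · rcases Nat.lt_or_ge k 4400 with h | h
            · exact v7_of hTab v4300 k (by omega) (lt_of_lt_of_le (b := 4400) (by omega) (by decide))
            · exact v7_of hTab v4400 k (by omega) (lt_of_lt_of_le (b := 4500) (by omega) (by decide))
        · rcases Nat.lt_or_ge k 4600 with h | h
          · exact v7_of hTab v4500 k (by omega) (lt_of_lt_of_le (b := 4600) (by omega) (by decide))
          · rcases Nat.lt_or_ge k 4700 with h | h
            · exact v7_of hTab v4600 k (by omega) (lt_of_lt_of_le (b := 4700) (by omega) (by decide))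
            · exact v7_of hTab v4700 k (by omega) (lt_of_lt_of_le (b := 4792) (by omega) (by decide))

end CR.C2
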